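import Pool.Agent.helper304_full.Base
import Pool.Agent.helper304_ico.IcoA

set_option autoImplicit false

namespace Pool.Agent.H304

section

variable {X : Set E} {R D : ℝ} {x₀ : E} {u : E → E} {c s : E → ℝ} {x : E}

end

section Pole

variable {X : Set E} {R D : ℝ} {x₀ : E} {u : E → E} {c s : E → ℝ} {x : E}

lemma s1_k {w g : E} (h : (1 - C5) * dt w g = C5) : dt w g = (4 * C5 + 1) / 5 := by
  have hC := C5_lt
  have hCeq := C5_eq
  have h1 : (1 - C5) * (dt w g - (4 * C5 + 1) / 5) = 0 := by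
    linear_combination h + (1 / 5) * hCeq
  rcases mul_eq_zero.1 h1 with h2 | h2
  · linarith
  · linarith

/-- a point near a good vertex lies on the axis -/
lemma s1_key (W : LW X R D x₀ u c s) (hxn : ‖x - x₀‖ ≤ 5 * D) {g : E}
    (hg : M6V X D u c s x g) {v : E} (hv : x + D • v ∈ X) (hv4 : dt v v ≤ 4) (hne : v ≠ g)
    (hlt : dt v v + 1 - 2 * dt v g < 0.9998) : dt v v = dt v g ^ 2 := by
  obtain ⟨hgg, hgX, hpar, -, -⟩ := hg
  have hD := W.Dpos
  have hnA := m6_near W (hxn.trans (by linarith)) hgg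
  have hnB : ‖x + D • v - x₀‖ ≤ 100 * D := by
    have h1 : x + D • v - x₀ = (x - x₀) + D • v := by abel
    rw [h1]
    have h2 := norm_add_le (x - x₀) (D • v)
    have h3 : ‖D • v‖ ≤ 2 * D := by
      apply m6_norm_le hD
      rw [dt_smul_left, dt_smul_right]
      nlinarith [mul_le_mul_of_nonneg_left hv4 (sq_nonneg D)]
    linarith
  have hBA : x + D • v - (x + D • g) = D • (v - g) := by rw [smul_sub]; abel
  have hABne : x + D • g ≠ x + D • v := by
    intro h
    have h1 : D • (v - g) = 0 := by rw [← hBA, h, sub_self]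
    rcases smul_eq_zero.1 h1 with h2 | h2
    · exact hD.ne' h2
    · exact hne (sub_eq_zero.1 h2)
  have hdist : dt (D • (v - g)) (D • (v - g)) = D ^ 2 * (dt v v + 1 - 2 * dt v g) := by
    rw [dt_smul_left, dt_smul_right, dt_sub_left, dt_sub_right, dt_sub_right, hgg, dt_comm g v]
    ring
  have hcoax := (W.coax (x + D • g) hgX (by linarith) (x + D • v) hv hnB hABne (by
    rw [hBA, hdist]
    have hD2 : 0 < D ^ 2 := by positivity
    nlinarith)).1
  rw [hBA, cr_smul_right] at hcoax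
  have hc0 : cr (u (x + D • g)) (v - g) = 0 := (smul_eq_zero.1 hcoax).resolve_left hD.ne'
  have huA := W.unit (x + D • g) hgX (by linarith)
  have hcg : cr g v = 0 := by
    rcases m6_parallel huA hgg hpar with h | h
    · rw [h, cr_sub_right, cr_self, sub_zero] at hc0
      exact hc0
    · rw [h, cr_neg_left, cr_sub_right, cr_self, sub_zero, neg_eq_zero] at hc0
      exact hc0
  have h1 := dt_cr_axis hgg v
  rw [hcg, dt_zero_left, dt_comm g v] at h1
  linarith

/-- rotations about `x` in the direction `w` -/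
lemma s1_rotx (W : LW X R D x₀ u c s) (hx : x ∈ X) (hxn : ‖x - x₀‖ ≤ 5 * D)
    (hcx : c x = C5) (hsx : s x = S5) {w : E} (hux : u x = w ∨ u x = -w)
    {v : E} (hv : x + D • v ∈ X) (hvv : dt v v ≤ 2 * (1 - C5)) :
    x + D • rot w C5 S5 v ∈ X ∧ x + D • rot w C5 (-S5) v ∈ X := by
  have hD := W.Dpos
  have hn : ‖D • v‖ ≤ 2 * R := by
    apply m6_norm_le W.Rpos
    rw [dt_smul_left, dt_smul_right]
    have := m6_DR W hvv
    linarith
  have h := W.rot x hx (by linarith) (D • v) hn hv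
  rw [hcx, hsx, rot_smul, rot_smul] at h
  rcases hux with h' | h'
  · rw [h'] at h; exact h
  · rw [h', rot_neg_axis, rot_neg_axis, neg_neg] at h
    exact ⟨h.2, h.1⟩

/-- five equally spaced directions come close to every direction -/
lemma s1_five {a b : ℝ} (hab : a ^ 2 + b ^ 2 = 16 / 25)
    (h0 : a ≤ 0.3058) (h1 : C5 * a + S5 * b ≤ 0.3058) (h2 : C5 * a + (-S5) * b ≤ 0.3058)
    (h3 : (C5 * C5 - S5 * S5) * a + (C5 * S5 + S5 * C5) * b ≤ 0.3058)
    (h4 : (C5 * C5 - (-S5) * (-S5)) * a + (C5 * (-S5) + (-S5) * C5) * b ≤ 0.3058) : False := by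
  have hCeq := C5_eq
  have hS := S5_sq
  have hc2 : C5 * C5 - S5 * S5 = -(1 / 2 + C5) := by nlinarith
  have hc2' : C5 * C5 - (-S5) * (-S5) = -(1 / 2 + C5) := by nlinarith
  rw [hc2] at h3
  rw [hc2'] at h4
  have low : ∀ p q : ℝ, p ^ 2 + q ^ 2 = 1 → -0.8 ≤ p * a + q * b := by
    intro p q hpq
    have h5 : (p * a + q * b) ^ 2 + (p * b - q * a) ^ 2 = 16 / 25 := by
      have : (p * a + q * b) ^ 2 + (p * b - q * a) ^ 2 = (p ^ 2 + q ^ 2) * (a ^ 2 + b ^ 2) := by ring
      rw [this, hpq, hab, one_mul]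
    nlinarith [sq_nonneg (p * b - q * a)]
  have l0 := low 1 0 (by norm_num)
  have l1 := low C5 S5 C5_S5
  have l2 := low C5 (-S5) (by rw [neg_sq]; exact C5_S5)
  have hcs : (-(1 / 2 + C5)) ^ 2 + (C5 * S5 + S5 * C5) ^ 2 = 1 := by
    have : (C5 * S5 + S5 * C5) ^ 2 = 4 * C5 ^ 2 * S5 ^ 2 := by ring
    rw [this, hS]
    linear_combination (C5 ^ 2 * (-1) + (1 / 2) * C5 + 3 / 4) * hCeq
  have l3 := low (-(1 / 2 + C5)) (C5 * S5 + S5 * C5) hcs
  have l4 := low (-(1 / 2 + C5)) (C5 * (-S5) + (-S5) * C5) (by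
    have : (C5 * (-S5) + (-S5) * C5) ^ 2 = (C5 * S5 + S5 * C5) ^ 2 := by ring
    rw [this]; exact hcs)
  have hsum : a + (C5 * a + S5 * b) + (C5 * a + (-S5) * b) +
      (-(1 / 2 + C5) * a + (C5 * S5 + S5 * C5) * b) +
      (-(1 / 2 + C5) * a + (C5 * (-S5) + (-S5) * C5) * b) = 0 := by ring
  have hsq : a ^ 2 + (C5 * a + S5 * b) ^ 2 + (C5 * a + (-S5) * b) ^ 2 +
      (-(1 / 2 + C5) * a + (C5 * S5 + S5 * C5) * b) ^ 2 +
      (-(1 / 2 + C5) * a + (C5 * (-S5) + (-S5) * C5) * b) ^ 2 = 8 / 5 := by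
    have e1 : a ^ 2 + (C5 * a + S5 * b) ^ 2 + (C5 * a + (-S5) * b) ^ 2 +
      (-(1 / 2 + C5) * a + (C5 * S5 + S5 * C5) * b) ^ 2 +
      (-(1 / 2 + C5) * a + (C5 * (-S5) + (-S5) * C5) * b) ^ 2 =
      (1 + 2 * C5 ^ 2 + 2 * (1 / 2 + C5) ^ 2) * a ^ 2 + (2 + 8 * C5 ^ 2) * S5 ^ 2 * b ^ 2 := by ring
    have e2 : 1 + 2 * C5 ^ 2 + 2 * (1 / 2 + C5) ^ 2 = 5 / 2 := by linear_combination hCeq
    have e3 : (2 + 8 * C5 ^ 2) * S5 ^ 2 = 5 / 2 := by
      rw [hS]
      linear_combination ((-2) * C5 ^ 2 + C5 + 1 / 2) * hCeq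
    rw [e1, e2, e3]
    linear_combination (5 / 2) * hab
  have m0 := mul_nonneg (sub_nonneg.2 h0) (by linarith : 0 ≤ a + 0.8)
  have m1 := mul_nonneg (sub_nonneg.2 h1) (by linarith : 0 ≤ C5 * a + S5 * b + 0.8)
  have m2 := mul_nonneg (sub_nonneg.2 h2) (by linarith : 0 ≤ C5 * a + (-S5) * b + 0.8)
  have m3 := mul_nonneg (sub_nonneg.2 h3)
    (by linarith : 0 ≤ -(1 / 2 + C5) * a + (C5 * S5 + S5 * C5) * b + 0.8)
  have m4 := mul_nonneg (sub_nonneg.2 h4)
    (by linarith : 0 ≤ -(1 / 2 + C5) * a + (C5 * (-S5) + (-S5) * C5) * b + 0.8)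
  nlinarith

lemma s1_pole (W : LW X R D x₀ u c s) (hx : x ∈ X) (hxn : ‖x - x₀‖ ≤ 5 * D)
    (hcx : c x = C5) (hsx : s x = S5) {w g : E} (hw : dt w w = 1) (hux : u x = w ∨ u x = -w)
    (hP : x + D • w ∈ X) (hg : M6V X D u c s x g) (hwg : (1 - C5) * dt w g = C5) :
    M6V X D u c s x w := by
  have hD := W.Dpos
  have hR := W.Rpos
  have hC1 := C5_gt
  have hC2 := C5_lt
  have hCeq := C5_eq
  have hgg := hg.1
  have hgX := hg.2.1
  obtain ⟨k, hk⟩ : ∃ k : ℝ, k = (4 * C5 + 1) / 5 := ⟨_, rfl⟩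
  have hwgk : dt w g = k := by rw [hk]; exact s1_k hwg
  have hk2 : k ^ 2 = 1 / 5 := by rw [hk]; linear_combination (4 / 25) * hCeq
  have hk1 : 0.44721 < k := by rw [hk]; linarith
  have hk3 : k < 0.44722 := by rw [hk]; linarith
  have hnP := m6_near W (hxn.trans (by linarith)) hw
  have hPu := W.unit (x + D • w) hP (by linarith)
  obtain ⟨p, hp⟩ : ∃ p : E, p = u (x + D • w) := ⟨_, rfl⟩
  rw [← hp] at hPu
  have hxP : x - (x + D • w) = -(D • w) := by abel
  by_cases hpar : cr p w = 0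
  · -- the axis is right
    rcases W.ang (x + D • w) hP (by linarith) with ⟨hc, hs⟩ | ⟨hc1, hc2⟩
    · exact ⟨hw, hP, by rw [← hp]; exact hpar, hc, hs⟩
    · exfalso
      have hcs := W.cs (x + D • w) hP (by linarith)
      obtain ⟨γ, hγ⟩ : ∃ γ : ℝ, γ = c (x + D • w) := ⟨_, rfl⟩
      rw [← hγ] at hc1 hc2 hcs
      have hn : ‖D • (g - w)‖ ≤ 2 * R := by
        apply m6_norm_le hR
        rw [dt_smul_left, dt_smul_right, dt_sub_left, dt_sub_right, dt_sub_right, hgg, hw,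
          dt_comm g w, hwgk]
        have := m6_DR W (t := 2 - 2 * k) (by linarith)
        linarith
      have hPg : (x + D • w) + D • (g - w) = x + D • g := by rw [smul_sub]; abel
      have hrot := W.rot (x + D • w) hP (by linarith) (D • (g - w)) hn (by rw [hPg]; exact hgX)
      rw [← hγ, ← hp] at hrot
      have key : ∀ τ : ℝ, (x + D • w) + rot w γ τ (D • (g - w)) = x + D • rot w γ τ g := by
        intro τ
        rw [rot_smul, rot_sub, rot_axis hw, smul_sub]; abel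
      obtain ⟨τ, hτ, hvX⟩ : ∃ τ : ℝ, γ ^ 2 + τ ^ 2 = 1 ∧ x + D • rot w γ τ g ∈ X := by
        rcases m6_parallel hPu hw hpar with h | h
        · rw [h, key] at hrot
          exact ⟨_, hcs, hrot.1⟩
        · rw [h, rot_neg_axis, key] at hrot
          exact ⟨_, by rw [neg_sq]; exact hcs, hrot.1⟩
      have hvv : dt (rot w γ τ g) (rot w γ τ g) = 1 := by rw [dt_rot_rot hw hτ, hgg]
      have hvg : dt (rot w γ τ g) g = γ + (1 - γ) * (1 / 5) := by
        simp only [rot, dt_add_left, dt_smul_left, dt_cr_self_right, hgg, hwgk]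
        rw [← hk2]; ring
      have hne : rot w γ τ g ≠ g := by
        intro h
        rw [h, hgg] at hvg
        linarith
      have := s1_key W hxn hg hvX (by rw [hvv]; norm_num) hne (by rw [hvv, hvg]; linarith)
      rw [hvv, hvg] at this
      nlinarith
  · -- the axis is not right
    exfalso
    have huxw : cr (u x) w = 0 := by
      rcases hux with h | h
      · rw [h, cr_self]
      · rw [h, cr_neg_left, cr_self, neg_zero]
    have hoff : cr (u (x + D • w)) (x - (x + D • w)) ≠ 0 := by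
      rw [hxP, cr_neg_right, cr_smul_right, ← hp]
      intro h
      rcases smul_eq_zero.1 (neg_eq_zero.1 h) with h | h
      · exact hD.ne' h
      · exact hpar h
    have hdd : dt (x - (x + D • w)) (x - (x + D • w)) = D ^ 2 := by
      rw [hxP, dt_neg_left, dt_neg_right, dt_smul_left, dt_smul_right, hw]; ring
    obtain ⟨⟨hcP, hsP⟩, -, halt⟩ := W.pair hP hx (by linarith) (by rw [hdd]) hoff
    have hpw : dt p w ^ 2 = 1 / 5 := by
      rcases halt with ⟨-, h⟩ | ⟨h, -⟩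
      · rw [hdd, hxP, dt_neg_right, dt_smul_right, ← hp] at h
        have hD2 : D ^ 2 ≠ 0 := by positivity
        have h2 : D ^ 2 * (dt p w ^ 2 - 1 / 5) = 0 := by linear_combination h
        rcases mul_eq_zero.1 h2 with h3 | h3
        · exact absurd h3 hD2
        · linarith
      · exfalso
        apply h
        rw [hxP, cr_neg_right, cr_smul_right, huxw, smul_zero, neg_zero]
    -- the new point
    obtain ⟨q, hq⟩ : ∃ q : E, q = w - rot p C5 S5 w := ⟨_, rfl⟩
    have hwr : dt w (rot p C5 S5 w) = k := by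
      simp only [rot, dt_add_right, dt_smul_right, dt_self_cr_right, hw, dt_comm w p]
      rw [hk]
      linear_combination (1 - C5) * hpw
    have hqX : x + D • q ∈ X := by
      have h := (W.rot (x + D • w) hP (by linarith) (x - (x + D • w)) (by
        rw [hxP, norm_neg]; exact m6_two W hR hw) (by
        have : x + D • w + (x - (x + D • w)) = x := by abel
        rw [this]; exact hx)).1
      rw [hcP, hsP, ← hp, hxP, rot_neg, rot_smul] at h
      have e : x + D • w + -(D • rot p C5 S5 w) = x + D • q := by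
        rw [hq, smul_sub]; abel
      rw [e] at h
      exact h
    have hqq : dt q q = 2 - 2 * k := by
      rw [hq, dt_sub_left, dt_sub_right, dt_sub_right, dt_rot_rot hPu C5_S5, hw,
        dt_comm (rot p C5 S5 w) w, hwr]
      ring
    have hwq : dt w q = 1 - k := by
      rw [hq, dt_sub_right, hw, hwr]
    -- the family of points
    have hY : ∀ v : E, x + D • v ∈ X → dt v v = 2 - 2 * k → dt w v = 1 - k →
        dt v g - (1 - k) * k ≤ 0.3058 := by
      intro v hv hvv hwv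
      by_contra hcon
      push Not at hcon
      have hg2 := m6_gram w v g
      rw [hw, hvv, hwv, hgg, hwgk] at hg2
      have hne : v ≠ g := by
        intro h
        rw [h, hgg] at hvv
        linarith
      have h1 := s1_key W hxn hg hv (by rw [hvv]; linarith) hne (by rw [hvv]; nlinarith)
      rw [hvv] at h1
      have h2 : (dt v g - (1 - k) * k) ^ 2 ≤ 16 / 25 := by
        have h3 : (dt v g - (1 - k) * k) ^ 2 + dt (cr w v) g ^ 2 = 16 / 25 := by
          rw [hg2]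
          linear_combination (k ^ 2 - 1 - 4 / 5) * hk2
        nlinarith [sq_nonneg (dt (cr w v) g)]
      have h4 : dt v g - (1 - k) * k ≤ 4 / 5 := by nlinarith
      nlinarith
    have hcl : ∀ v : E, x + D • v ∈ X → dt v v = 2 - 2 * k → dt w v = 1 - k →
        ∀ τ : ℝ, (τ = S5 ∨ τ = -S5) → x + D • rot w C5 τ v ∈ X ∧
          dt (rot w C5 τ v) (rot w C5 τ v) = 2 - 2 * k ∧ dt w (rot w C5 τ v) = 1 - k := by
      intro v hv hvv hwv τ hτ
      have h := s1_rotx W hx hxn hcx hsx hux hv (by rw [hvv]; linarith)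
      have hcs : C5 ^ 2 + τ ^ 2 = 1 := by
        rcases hτ with h | h
        · rw [h]; exact C5_S5
        · rw [h, neg_sq]; exact C5_S5
      refine ⟨?_, by rw [dt_rot_rot hw hcs, hvv], by rw [dt_axis_rot hw, hwv]⟩
      rcases hτ with h' | h'
      · rw [h']; exact h.1
      · rw [h']; exact h.2
    have hform : ∀ γ τ : ℝ, dt (rot w γ τ q) g - (1 - k) * k =
        γ * (dt q g - (1 - k) * k) + τ * dt (cr w q) g := by
      intro γ τ
      simp only [rot, dt_add_left, dt_smul_left, hwgk, hwq]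
      ring
    have hab : (dt q g - (1 - k) * k) ^ 2 + dt (cr w q) g ^ 2 = 16 / 25 := by
      have hg2 := m6_gram w q g
      rw [hw, hqq, hwq, hgg, hwgk] at hg2
      rw [hg2]
      linear_combination (k ^ 2 - 1 - 4 / 5) * hk2
    obtain ⟨a1, a2, a3⟩ := hcl q hqX hqq hwq S5 (Or.inl rfl)
    obtain ⟨b1, b2, b3⟩ := hcl q hqX hqq hwq (-S5) (Or.inr rfl)
    obtain ⟨d1, d2, d3⟩ := hcl _ a1 a2 a3 S5 (Or.inl rfl)
    obtain ⟨e1, e2, e3⟩ := hcl _ b1 b2 b3 (-S5) (Or.inr rfl)
    have f0 := hY q hqX hqq hwq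
    have f1 := hY _ a1 a2 a3
    have f2 := hY _ b1 b2 b3
    have f3 := hY _ d1 d2 d3
    have f4 := hY _ e1 e2 e3
    rw [hform] at f1 f2
    rw [rot_rot hw, hform] at f3 f4
    exact s1_five hab f0 f1 f2 f3 f4

end Pole

theorem s1_icoA2 {X : Set E} {R D : ℝ} {x₀ : E} {u : E → E} {c s : E → ℝ} (W : LW X R D x₀ u c s)
    {x y : E} (hx : x ∈ X) (hy : y ∈ X) (hxn : ‖x - x₀‖ ≤ 5 * D) (hD : ‖y - x‖ = D)
    (hoff : cr (u x) (y - x) ≠ 0) (hA : cr (u y) (y - x) = 0) :
    ∃ p₀ p₁ : E, IcoV X x D p₀ p₁ u c s := by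
  have hR := W.Rpos
  have hD0 := W.Dpos
  have hxn' : ‖x - x₀‖ ≤ 10 * D := by linarith
  have hux := W.unit x hx (by linarith)
  have hyx : dt (y - x) (y - x) = D ^ 2 := by rw [← norm_sq_eq_dt, hD]
  obtain ⟨⟨hcx, hsx⟩, ⟨hcy, hsy⟩, halt⟩ := W.pair hx hy (by linarith) hyx.le hoff
  have hdt : dt (u x) (y - x) ^ 2 = 1 / 5 * D ^ 2 := by
    rcases halt with ⟨-, h⟩ | ⟨h, -⟩
    · rw [h, hyx]
    · exact absurd hA h
  obtain ⟨e, he⟩ : ∃ e : E, e = D⁻¹ • (y - x) := ⟨_, rfl⟩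
  have hDe : D • e = y - x := by rw [he, smul_smul, mul_inv_cancel₀ hD0.ne', one_smul]
  have hye : x + D • e = y := by rw [hDe]; abel
  have hee : dt e e = 1 := by
    rw [he, dt_smul_left, dt_smul_right, hyx]
    field_simp
  have huxe : dt (u x) e ^ 2 = 1 / 5 := by
    rw [he, dt_smul_right, mul_pow, hdt]
    field_simp
  have hcre : cr (u y) e = 0 := by rw [he, cr_smul_right, hA, smul_zero]
  have hVe : M6V X D u c s x e := by
    refine ⟨hee, ?_, ?_, ?_, ?_⟩ <;> rw [hye]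
    · exact hy
    · exact hcre
    · exact hcy
    · exact hsy
  -- the axis with the right sign
  obtain ⟨u0, hu0, hu0x⟩ : ∃ u0 : E, 0 ≤ dt u0 e ∧ (u0 = u x ∨ u0 = -(u x)) := by
    rcases le_total 0 (dt (u x) e) with h | h
    · exact ⟨u x, h, Or.inl rfl⟩
    · exact ⟨-(u x), by rw [dt_neg_left]; linarith, Or.inr rfl⟩
  have hu0u : dt u0 u0 = 1 := by
    rcases hu0x with h | h
    · rw [h, hux]
    · rw [h, dt_neg_left, dt_neg_right, hux]; ring
  have hsq : ∀ w : E, dt (u x) w ^ 2 = dt u0 w ^ 2 := by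
    intro w
    rcases hu0x with h | h
    · rw [h]
    · rw [h, dt_neg_left]; ring
  have hk2 : dt u0 e ^ 2 = 1 / 5 := by rw [← hsq, huxe]
  have hC1 := C5_gt
  have hC2 := C5_lt
  have hCeq := C5_eq
  have hk : (1 - C5) * dt u0 e = C5 := by
    have h1 : ((1 - C5) * dt u0 e) ^ 2 = C5 ^ 2 := by
      rw [mul_pow, hk2]
      linear_combination (-(1 / 5)) * hCeq
    have h2 : 0 ≤ (1 - C5) * dt u0 e := mul_nonneg (by linarith) hu0
    exact (pow_left_inj₀ h2 (by linarith) two_ne_zero).1 h1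
  have hkC : C5 ≤ dt u0 e := by nlinarith
  -- rotations about `x`
  have hRx : ∀ w : E, dt w w = 1 → x + D • w ∈ X →
      x + D • rot u0 C5 S5 w ∈ X ∧ x + D • rot u0 C5 (-S5) w ∈ X := by
    intro w hw hwX
    have h := W.rot x hx (by linarith) (D • w) (m6_two W hR hw) hwX
    rw [hcx, hsx, rot_smul, rot_smul] at h
    rcases hu0x with h' | h'
    · rw [h']; exact h
    · rw [h', rot_neg_axis, rot_neg_axis, neg_neg]
      exact ⟨h.2, h.1⟩
  -- identities
  obtain ⟨-, i2, i3, -⟩ := ico_id hu0u hee hk S5_sq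
  obtain ⟨-, j2, -, -⟩ := ico_id hu0u hee hk (s := -S5) (by rw [neg_sq, S5_sq])
  rw [neg_neg] at j2
  set G : E := rot u0 C5 S5 e with hG
  have hGG : dt G G = 1 := by rw [hG, dt_rot_rot hu0u C5_S5, hee]
  have hGe : dt G e = C5 + (1 - C5) * (1 / 5) := by
    rw [hG, dt_comm]
    simp only [rot, dt_add_right, dt_smul_right, dt_self_cr_right, hee, dt_comm e u0]
    rw [← hk2]; ring
  have hGeC : C5 ≤ dt G e := by rw [hGe]; linarith
  have hGX : x + D • G ∈ X := (hRx e hee (by rw [hye]; exact hy)).1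
  have hu0G : u0 = rot e C5 S5 G := by
    rw [← j2, rot_inv' hee C5_S5]
  have hu0X : x + D • u0 ∈ X := by
    rw [hu0G]
    exact (m6_rot W hR hxn' hVe hGG hGX hGeC).1
  -- the third identity
  have hr1 : x + D • rot e C5 S5 u0 ∈ X := (m6_rot W hR hxn' hVe hu0u hu0X hkC).1
  have hr1u : dt (rot e C5 S5 u0) (rot e C5 S5 u0) = 1 := by
    rw [dt_rot_rot hee C5_S5, hu0u]
  have hr1e : dt (rot e C5 S5 u0) e = dt u0 e := by
    rw [dt_comm, dt_axis_rot hee, dt_comm]
  have hr2 : x + D • rot e C5 S5 (rot e C5 S5 u0) ∈ X :=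
    (m6_rot W hR hxn' hVe hr1u hr1 (by rw [hr1e]; exact hkC)).1
  rw [i3] at hr2
  -- minus `e`
  have hm2u : dt (-rot u0 C5 S5 G) (-rot u0 C5 S5 G) = 1 := by
    rw [dt_neg_left, dt_neg_right, neg_neg, dt_rot_rot hu0u C5_S5, hGG]
  have hm1 : x + D • (-G) ∈ X := by
    have h := (hRx _ hm2u hr2).2
    rw [rot_neg, rot_inv hu0u C5_S5] at h
    exact h
  have hm1u : dt (-G) (-G) = 1 := by rw [dt_neg_left, dt_neg_right, neg_neg, hGG]
  have hm0 : x + D • (-e) ∈ X := by
    have h := (hRx _ hm1u hm1).2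
    rw [rot_neg, hG, rot_inv hu0u C5_S5] at h
    exact h
  have hm0u : dt (-e) (-e) = 1 := by rw [dt_neg_left, dt_neg_right, neg_neg, hee]
  have hVm : M6V X D u c s x (-e) := by
    apply m6_claim W hR hx hxn' hm0u hm0
    rw [hsq, dt_neg_right, neg_sq, hk2]
  have hmu0X : x + D • (-u0) ∈ X := by
    have h := (m6_rot W hR hxn' hVm hm1u hm1 (by
      rw [dt_neg_left, dt_neg_right, neg_neg]; exact hGeC)).2
    rw [rot_neg_axis, neg_neg, rot_neg, ← hu0G] at h
    exact h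
  -- the iterates
  have hit : ∀ n : ℕ, dt ((rot u0 C5 S5)^[n] e) ((rot u0 C5 S5)^[n] e) = 1 ∧
      dt u0 ((rot u0 C5 S5)^[n] e) = dt u0 e ∧
      x + D • ((rot u0 C5 S5)^[n] e) ∈ X ∧ x + D • (-((rot u0 C5 S5)^[n] e)) ∈ X := by
    intro n
    induction n with
    | zero =>
      simp only [Function.iterate_zero, id_eq]
      exact ⟨hee, trivial, by rw [hye]; exact hy, hm0⟩
    | succ n ih =>
      obtain ⟨k1, k0, k2, k3⟩ := ih
      rw [Function.iterate_succ_apply']
      refine ⟨by rw [dt_rot_rot hu0u C5_S5, k1], by rw [dt_axis_rot hu0u, k0], (hRx _ k1 k2).1, ?_⟩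
      have h := (hRx _ (by rw [dt_neg_left, dt_neg_right, neg_neg, k1]) k3).1
      rw [rot_neg] at h
      exact h
  have toVV : ∀ w : E, M6V X D u c s x w → VV X u c s x D w := by
    rintro w ⟨-, h1, h2, h3, h4⟩
    exact ⟨h1, h2, h3, h4⟩
  have hp0 : M6V X D u c s x u0 := by
    apply s1_pole W hx hxn hcx hsx hu0u _ hu0X hVe hk
    rcases hu0x with h | h
    · exact Or.inl h.symm
    · right; rw [h, neg_neg]
  have hp1 : M6V X D u c s x (-u0) := by
    apply s1_pole W hx hxn hcx hsx (by rw [dt_neg_left, dt_neg_right, neg_neg, hu0u]) _ hmu0X hVm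
      (by rw [dt_neg_left, dt_neg_right, neg_neg]; exact hk)
    rcases hu0x with h | h
    · right; rw [h, neg_neg]
    · exact Or.inl (by rw [h, neg_neg])
  refine ⟨u0, e, hD0, hu0u, hee, hk, ?_, ?_⟩
  · rintro σ (rfl | rfl)
    · rw [one_smul]; exact toVV _ hp0
    · rw [neg_one_smul]; exact toVV _ hp1
  · rintro σ (rfl | rfl) n
    · rw [one_smul]
      apply toVV
      apply m6_claim W hR hx hxn' (hit n).1 (hit n).2.2.1
      rw [hsq, (hit n).2.1, hk2]
    · rw [neg_one_smul]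
      apply toVV
      apply m6_claim W hR hx hxn' (by rw [dt_neg_left, dt_neg_right, neg_neg]; exact (hit n).1)
        (hit n).2.2.2
      rw [hsq, dt_neg_right, neg_sq, (hit n).2.1, hk2]

theorem LW.icoA2 {X : Set E} {R D : ℝ} {x₀ : E} {u : E → E} {c s : E → ℝ} (W : LW X R D x₀ u c s)
    {x y : E} (hx : x ∈ X) (hy : y ∈ X) (hxn : ‖x - x₀‖ ≤ 5 * D) (hD : ‖y - x‖ = D)
    (hoff : cr (u x) (y - x) ≠ 0) (hA : cr (u y) (y - x) = 0) :
    ∃ p₀ p₁ : E, IcoV X x D p₀ p₁ u c s :=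
  s1_icoA2 W hx hy hxn hD hoff hA

end Pool.Agent.H304

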