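import Pool.Agent.helper304_full.Base
import Pool.Agent.helper304_ico.IcoB

set_option autoImplicit false

namespace Pool.Agent.H304

section M7aux

variable {X : Set E} {R D : ℝ} {x₀ : E} {u : E → E} {c s : E → ℝ}

end M7aux

lemma m7_core2 {X : Set E} {R D : ℝ} {x₀ : E} {u : E → E} {c s : E → ℝ} (W : LW X R D x₀ u c s) {x y q p p' : E} {a b : ℝ} (hx : x ∈ X) (hy : y ∈ X)
    (hxn : ‖x - x₀‖ ≤ 11 * D) (hyn : ‖y - x₀‖ ≤ 11 * D) (hD : dt (y - x) (y - x) = D ^ 2)
    (hxq : x = q + a • p) (hyq : y = q + b • p') (ha : 0 < a) (hab : a ≤ b)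
    (hp : dt p p = 1) (hp' : dt p' p' = 1) (hpp : dt p p' = m7k)
    (hax : cr (u x) p = 0) (hay : cr (u y) p' = 0) (hcx : c x = C5) (hsx : s x = S5)
    (hcy : c y = C5) (hsy : s y = S5) :
    ∃ p₀ p₁ : E, ‖q - x‖ ≤ 2 * D ∧ a ≤ D ∧ IcoV X q a p₀ p₁ u c s := by
  have hDp := W.Dpos
  have hk := m7k_sq
  have hk1 := m7k_gt
  have hk2 := m7k_lt
  have hDe : D ^ 2 = a ^ 2 + b ^ 2 - 2 * m7k * a * b := by
    rw [← hD, hxq, hyq]
    have e : q + b • p' - (q + a • p) = b • p' - a • p := by module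
    rw [e]
    simp only [dt_smul_left, dt_smul_right, dt_sub_left, dt_sub_right, hp, hp', dt_comm p' p, hpp]
    ring
  have haD : a ^ 2 * (2 - 2 * m7k) ≤ D ^ 2 := by
    rw [hDe]
    nlinarith [mul_nonneg (sub_nonneg.2 hab) ha.le, mul_nonneg (sub_nonneg.2 hab) (sub_nonneg.2 hab),
      mul_nonneg (mul_nonneg (sub_nonneg.2 hab) ha.le) (by linarith : (0 : ℝ) ≤ 1 - m7k)]
  have haD1 : a ≤ D := by
    apply le_of_sq_le_sq _ hDp.le
    nlinarith [sq_nonneg a]
  have hnz : ∀ z : E, dt z z = 1 → ‖z‖ = 1 := fun z hz => (norm_eq_one_iff_dt z).2 hz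
  have hqx : ‖q - x‖ ≤ D := by
    have e : q - x = -(a • p) := by rw [hxq]; module
    rw [e, norm_neg, norm_smul, hnz p hp, mul_one, Real.norm_eq_abs, abs_of_pos ha]
    exact haD1
  have hn : ∀ z : E, dt z z = 1 → ‖q + a • z - x₀‖ ≤ 80 * D := by
    intro z hz
    have e : q + a • z - x₀ = (q - x) + (x - x₀) + a • z := by abel
    rw [e]
    have h1 := norm_add_le (q - x + (x - x₀)) (a • z)
    have h2 := norm_add_le (q - x) (x - x₀)
    rw [norm_smul, hnz z hz, mul_one, Real.norm_eq_abs, abs_of_pos ha] at h1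
    linarith
  have hVp : M7V X u c s q a p := by
    refine ⟨hp, ?_, ?_, ?_, ?_⟩ <;> rw [← hxq] <;> assumption
  -- rotate x about the axis of y
  have hs2 : S5 ^ 2 = 1 - C5 ^ 2 := S5_sq
  have hpp5 : (1 - C5) * dt p p' = C5 := m7k_iff.2 hpp
  have hturn := m7_turn W (v := x - y) hy (hyn.trans (by linarith)) hcy hsy hp' hay
    (by
      have e : x - y = -(y - x) := by abel
      rw [e, dt_neg_left, dt_neg_right, neg_neg, hD])
    (by rw [add_sub_cancel]; exact hx)
  have hw1 : q + a • rot p' C5 S5 p ∈ X := by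
    have h1 := hturn.1
    have e : x - y = a • p - b • p' := by rw [hxq, hyq]; module
    rw [e, rot_sub, rot_smul, rot_smul, rot_axis hp', hyq] at h1
    have e2 : q + b • p' + (a • rot p' C5 S5 p - b • p') = q + a • rot p' C5 S5 p := by module
    rwa [e2] at h1
  set p₁ := rot p' C5 S5 p with hp₁
  have h01 : dt p p₁ = m7k := m7k_iff.1 (ico_id hp hp' hpp5 hs2).1
  have hp1u : dt p₁ p₁ = 1 := by rw [hp₁, dt_rot_rot hp' C5_S5, hp]
  have hV1 : M7V X u c s q a p₁ := m7_V W hn ha haD hVp hp1u h01 hw1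
  have horb := fun n => m7_orbit W hn ha haD hVp hV1 h01 n
  have hneg2 : ∀ n : ℕ, M7V X u c s q a (-((rot p C5 S5)^[n + 2] p₁)) := by
    intro n
    obtain ⟨h1, h2⟩ := horb n
    have h3 := (m7_orbit W hn ha haD h1 hVp (by rw [dt_comm]; exact h2) 2).1
    have h4 := (ico_id hp h1.unit (m7k_iff.2 h2) hs2).2.2.1
    have e1 : (rot ((rot p C5 S5)^[n] p₁) C5 S5)^[2] p =
        rot ((rot p C5 S5)^[n] p₁) C5 S5 (rot ((rot p C5 S5)^[n] p₁) C5 S5 p) := rfl
    have e2 : (rot p C5 S5)^[n + 2] p₁ = rot p C5 S5 (rot p C5 S5 ((rot p C5 S5)^[n] p₁)) := by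
      rw [Function.iterate_succ_apply', Function.iterate_succ_apply']
    rw [e1, h4, ← e2] at h3
    exact h3
  have hper : ∀ n : ℕ, (rot p C5 S5)^[n + 5] p₁ = (rot p C5 S5)^[n] p₁ := by
    intro n
    rw [Function.iterate_add_apply]
    congr 1
    exact (ico_id hp hp1u (m7k_iff.2 h01) hs2).2.2.2
  have hneg : ∀ n : ℕ, M7V X u c s q a (-((rot p C5 S5)^[n] p₁)) := by
    intro n
    rw [← hper n]
    exact hneg2 (n + 3)
  have hnegp : q + a • (-p) ∈ X := by
    have hm1 : M7V X u c s q a (-p₁) := hneg 0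
    have hm2 : M7V X u c s q a (-(rot p C5 S5 p₁)) := hneg 1
    have h10 : dt p₁ p = m7k := by rw [dt_comm]; exact h01
    have h1 : dt p₁ (rot p C5 S5 p₁) = m7k :=
      m7k_iff.1 (ico_id hp1u hp (m7k_iff.2 h10) hs2).1
    have h2 := (m7_R W ((hn _ hm1.unit).trans (by linarith)) haD hm1 hm2.unit
      (by rw [dt_neg_left, dt_neg_right, neg_neg]; exact h1) hm2.mem).2
    rw [rot_neg_axis, neg_neg, rot_neg] at h2
    have h3 := (ico_id (s := -S5) hp hp1u (m7k_iff.2 h01) (by rw [neg_sq]; exact hs2)).2.1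
    rw [neg_neg] at h3
    rw [← h3, rot_inv' hp1u C5_S5] at h2
    exact h2
  have hVnp : M7V X u c s q a (-p) := by
    have h10 : dt (-p₁) (-p) = m7k := by
      rw [dt_neg_left, dt_neg_right, neg_neg, dt_comm]; exact h01
    exact m7_V W hn ha haD (hneg 0) (by rw [dt_neg_left, dt_neg_right, neg_neg]; exact hp) h10 hnegp
  have hVV : ∀ w : E, M7V X u c s q a w → VV X u c s q a w := fun w hw =>
    ⟨hw.mem, hw.ax, hw.hc, hw.hs⟩
  refine ⟨p, p₁, hqx.trans (by linarith), haD1, ha, hp, hp1u, m7k_iff.2 h01, ?_, ?_⟩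
  · rintro σ (rfl | rfl)
    · rw [one_smul]; exact hVV _ hVp
    · rw [neg_one_smul]; exact hVV _ hVnp
  · rintro σ (rfl | rfl) n
    · rw [one_smul]; exact hVV _ (horb n).1
    · rw [neg_one_smul]; exact hVV _ (hneg n)

theorem LW.icoB2 {X : Set E} {R D : ℝ} {x₀ : E} {u : E → E} {c s : E → ℝ} (W : LW X R D x₀ u c s)
    {x y : E} (hx : x ∈ X) (hy : y ∈ X) (hxn : ‖x - x₀‖ ≤ 10 * D) (hD : ‖y - x‖ = D)
    (hoff : cr (u x) (y - x) ≠ 0) (hB : cr (u y) (y - x) ≠ 0) :
    ∃ q p₀ p₁ : E, ∃ a : ℝ, ‖q - x‖ ≤ 3 * D ∧ a ≤ D ∧ IcoV X q a p₀ p₁ u c s := by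
  have hDp := W.Dpos
  have hk := m7k_sq
  have hk1 := m7k_gt
  have hk2 := m7k_lt
  have hdD : dt (y - x) (y - x) = D ^ 2 := by rw [← norm_sq_eq_dt, hD]
  have hyn : ‖y - x₀‖ ≤ 11 * D := by
    have e : y - x₀ = (y - x) + (x - x₀) := by abel
    rw [e]
    have := norm_add_le (y - x) (x - x₀)
    linarith
  obtain ⟨⟨hcx, hsx⟩, ⟨hcy, hsy⟩, halt⟩ := W.pair hx hy (hxn.trans (by linarith)) hdD.le hoff
  obtain ⟨-, hg, htr⟩ := halt.resolve_left (fun h => hB h.1)
  have hux := W.unit x hx (hxn.trans (by linarith))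
  have huy := W.unit y hy (hyn.trans (by linarith))
  set g := dt (u x) (u y) with hgdef
  have hcr : dt (cr (u x) (u y)) (cr (u x) (u y)) = 4 / 5 := by
    rw [dt_cr_cr, hux, huy, dt_comm (u y) (u x), ← hgdef]
    linear_combination (-1) * hg
  have htr2 : dt (y - x) (cr (u x) (u y)) = 0 := by
    rw [dt_comm, dt_cr_cycle, dt_cr_cycle, dt_cr_swap] at *
    first
      | linarith
      | (simp only [dt, cr_0, cr_1, cr_2] at *; linarith)
  have hsp := m7_span (u x) (u y) (y - x)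
  rw [hcr, htr2, zero_smul, add_zero, hux, huy, ← hgdef, mul_one, mul_one] at hsp
  obtain ⟨α, β, hd⟩ : ∃ α β : ℝ, y - x = α • u x - β • u y := by
    refine ⟨5 / 4 * (dt (y - x) (u x) - dt (y - x) (u y) * g),
      -(5 / 4 * (dt (y - x) (u y) - dt (y - x) (u x) * g)), ?_⟩
    have h1 : y - x = (5 / 4 : ℝ) • ((4 / 5 : ℝ) • (y - x)) := by
      rw [smul_smul]; norm_num
    rw [hsp] at h1
    refine h1.trans ?_
    module
  have hoff2 : cr (u y) (x - y) ≠ 0 := by
    have e : x - y = -(y - x) := by abel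
    rw [e, cr_neg_right]
    exact neg_ne_zero.2 hB
  have hβ : 0.904 * D ^ 2 ≤ β ^ 2 := by
    have h1 := W.far hx (hxn.trans (by linarith)) hy (by rw [hD]; linarith)
      (m7_le W hdD.le).2 hoff
    have h2 : dt (cr (u x) (y - x)) (cr (u x) (y - x)) = β ^ 2 * (4 / 5) := by
      rw [hd, cr_sub_right, cr_smul_right, cr_smul_right, cr_self, smul_zero, zero_sub, dt_neg_left,
        dt_neg_right, neg_neg, dt_smul_left, dt_smul_right, hcr]
      ring
    rw [h2, hcx] at h1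
    have hC1 := C5_gt
    nlinarith [sq_nonneg β, sq_nonneg D]
  have hα : 0.904 * D ^ 2 ≤ α ^ 2 := by
    have e : x - y = -(y - x) := by abel
    have h0 : dt (x - y) (x - y) ≤ D ^ 2 := by
      rw [e, dt_neg_left, dt_neg_right, neg_neg]; exact hdD.le
    have h1 := W.far hy (hyn.trans (by linarith)) hx ((m7_le W h0).1.trans (by linarith))
      (m7_le W h0).2 hoff2
    have h2 : dt (cr (u y) (x - y)) (cr (u y) (x - y)) = α ^ 2 * (4 / 5) := by
      rw [e, hd, cr_neg_right, cr_sub_right, cr_smul_right, cr_smul_right, cr_self, smul_zero,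
        sub_zero, dt_neg_left, dt_neg_right, neg_neg, dt_smul_left, dt_smul_right,
        cr_comm (u y) (u x), dt_neg_left, dt_neg_right, neg_neg, hcr]
      ring
    rw [h2, hcy] at h1
    have hC1 := C5_gt
    nlinarith [sq_nonneg α, sq_nonneg D]
  have hD2 : 0 < D ^ 2 := by positivity
  have hα0 : α ≠ 0 := by
    rintro rfl
    nlinarith
  have hβ0 : β ≠ 0 := by
    rintro rfl
    nlinarith
  -- signs
  obtain ⟨ε, hε, hεα⟩ : ∃ ε : ℝ, ε ^ 2 = 1 ∧ |α| = -(ε * α) := by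
    rcases lt_or_gt_of_ne hα0 with h | h
    · exact ⟨1, by norm_num, by rw [abs_of_neg h]; ring⟩
    · exact ⟨-1, by norm_num, by rw [abs_of_pos h]; ring⟩
  obtain ⟨η, hη, hηβ⟩ : ∃ η : ℝ, η ^ 2 = 1 ∧ |β| = -(η * β) := by
    rcases lt_or_gt_of_ne hβ0 with h | h
    · exact ⟨1, by norm_num, by rw [abs_of_neg h]; ring⟩
    · exact ⟨-1, by norm_num, by rw [abs_of_pos h]; ring⟩
  have hα1 : 0 < |α| := abs_pos.2 hα0
  have hβ1 : 0 < |β| := abs_pos.2 hβ0
  have hpα : |α| • (ε • u x) = -(α • u x) := by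
    rw [hεα, smul_smul, ← neg_smul]
    congr 1
    linear_combination (-α) * hε
  have hpβ : |β| • (η • u y) = -(β • u y) := by
    rw [hηβ, smul_smul, ← neg_smul]
    congr 1
    linear_combination (-β) * hη
  have hpu : dt (ε • u x) (ε • u x) = 1 := by
    rw [dt_smul_left, dt_smul_right, hux]; linear_combination hε
  have hpu' : dt (η • u y) (η • u y) = 1 := by
    rw [dt_smul_left, dt_smul_right, huy]; linear_combination hη
  have hkk : (ε * (η * g)) ^ 2 = m7k ^ 2 := by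
    rw [hk, mul_pow, mul_pow, hε, hη, hg]; norm_num
  have hDe : D ^ 2 = |α| ^ 2 + |β| ^ 2 - 2 * (ε * (η * g)) * (|α| * |β|) := by
    rw [← hdD, hd, hεα, hηβ]
    simp only [dt_smul_left, dt_smul_right, dt_sub_left, dt_sub_right, hux, huy,
      dt_comm (u y) (u x), ← hgdef]
    linear_combination (-(α ^ 2)) * hε - β ^ 2 * hη +
      (2 * α * β * g) * (hε * η ^ 2 + hη)
  have hpp : dt (ε • u x) (η • u y) = m7k := by
    rw [dt_smul_left, dt_smul_right, ← hgdef]
    have h1 : (ε * (η * g) - m7k) * (ε * (η * g) + m7k) = 0 := by linear_combination hkk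
    rcases mul_eq_zero.1 h1 with h2 | h2
    · linarith
    · exfalso
      have h3 : ε * (η * g) = -m7k := by linarith
      rw [h3, sq_abs, sq_abs] at hDe
      nlinarith [mul_pos hα1 hβ1]
  have hswap : cr (u x) (ε • u x) = 0 := by rw [cr_smul_right, cr_self, smul_zero]
  have hswap' : cr (u y) (η • u y) = 0 := by rw [cr_smul_right, cr_self, smul_zero]
  have hxq : x = (x + α • u x) + |α| • (ε • u x) := by rw [hpα]; abel
  have hyq : y = (x + α • u x) + |β| • (η • u y) := by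
    rw [hpβ]
    have h1 : y = x + (α • u x - β • u y) := by rw [← hd]; abel
    refine h1.trans ?_
    abel
  rcases le_total |α| |β| with hle | hle
  · obtain ⟨p₀, p₁, h1, haD, h2⟩ := m7_core2 W hx hy (hxn.trans (by linarith)) hyn hdD hxq hyq hα1 hle
      hpu hpu' hpp hswap hswap' hcx hsx hcy hsy
    exact ⟨_, p₀, p₁, _, h1.trans (by linarith), haD, h2⟩
  · have e : x - y = -(y - x) := by abel
    obtain ⟨p₀, p₁, h1, haD, h2⟩ := m7_core2 W hy hx hyn (hxn.trans (by linarith))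
      (by rw [e, dt_neg_left, dt_neg_right, neg_neg]; exact hdD) hyq hxq hβ1 hle
      hpu' hpu (by rw [dt_comm]; exact hpp) hswap' hswap hcy hsy hcx hsx
    refine ⟨_, p₀, p₁, _, ?_, haD, h2⟩
    have e2 : x + α • u x - x = (x + α • u x - y) + (y - x) := by abel
    rw [e2]
    have := norm_add_le (x + α • u x - y) (y - x)
    rw [hD] at this
    linarith

end Pool.Agent.H304

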