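import Pool.Agent.helper304_full.Base
import Pool.Agent.helper304_ico.WChoice

set_option autoImplicit false

namespace Pool.Agent.H304

/-- the cosine of the seventh part of the full angle -/
lemma cos_27 : 0.6234 ≤ Real.cos (2 * Real.pi / 7) ∧ Real.cos (2 * Real.pi / 7) ≤ 0.6236 := by
  have hpi0 := Real.pi_pos
  have hb := cos_bounds (x := 2 * Real.pi / 7) (by positivity) le_rfl
  have h34 : Real.cos (3 * (2 * Real.pi / 7)) = Real.cos (2 * (2 * (2 * Real.pi / 7))) := by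
    rw [← Real.cos_neg (2 * (2 * (2 * Real.pi / 7))), ← Real.cos_add_two_pi (-(2 * (2 * (2 * Real.pi / 7))))]
    congr 1
    ring
  rw [Real.cos_three_mul, Real.cos_two_mul, Real.cos_two_mul] at h34
  generalize Real.cos (2 * Real.pi / 7) = c at hb h34
  obtain ⟨h1, h2⟩ := hb
  have h3 : (c - 1) * (8 * c ^ 3 + 4 * c ^ 2 - 4 * c - 1) = 0 := by linear_combination -h34
  have h4 : 8 * c ^ 3 + 4 * c ^ 2 - 4 * c - 1 = 0 := by
    rcases mul_eq_zero.1 h3 with h | h
    · exfalso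
      linarith
    · exact h
  constructor
  · by_contra hcon
    push Not at hcon
    norm_num at h1 hcon
    nlinarith [mul_pos (sub_pos.2 hcon) (sub_pos.2 hcon), mul_nonneg (sub_nonneg.2 h1) (sub_nonneg.2 h1),
      mul_nonneg (sub_nonneg.2 h1) (sub_pos.2 hcon).le,
      mul_nonneg (mul_nonneg (sub_nonneg.2 h1) (sub_nonneg.2 h1)) (sub_pos.2 hcon).le]
  · by_contra hcon
    push Not at hcon
    norm_num at h1 hcon
    nlinarith [mul_pos (sub_pos.2 hcon) (sub_pos.2 hcon), mul_nonneg (sub_nonneg.2 h1) (sub_nonneg.2 h1),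
      mul_nonneg (sub_nonneg.2 h1) (sub_pos.2 hcon).le,
      mul_nonneg (mul_nonneg (sub_nonneg.2 h1) (sub_nonneg.2 h1)) (sub_pos.2 hcon).le,
      mul_pos (mul_pos (sub_pos.2 hcon) (sub_pos.2 hcon)) (sub_pos.2 hcon)]

lemma cos_17 : Real.cos (Real.pi / 7) ≤ 0.9011 := by
  have hpi0 := Real.pi_pos
  have h := cos_27.2
  have e : 2 * Real.pi / 7 = 2 * (Real.pi / 7) := by ring
  rw [e, Real.cos_two_mul] at h
  by_contra hcon
  push Not at hcon
  norm_num at h hcon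
  nlinarith

lemma cos_bounds2 {x : ℝ} (h0 : Real.pi / 7 < x) (h1 : x ≤ 2 * Real.pi / 7) :
    0.6234 ≤ Real.cos x ∧ Real.cos x ≤ 0.9011 := by
  have hpi0 := Real.pi_pos
  constructor
  · refine cos_27.1.trans ?_
    exact Real.cos_le_cos_of_nonneg_of_le_pi (by linarith) (by linarith) h1
  · refine le_trans ?_ cos_17
    exact Real.cos_le_cos_of_nonneg_of_le_pi (by positivity) (by linarith) h0.le

lemma dbl_exists {x : ℝ} (h0 : 0 < x) (h1 : x ≤ 2 * Real.pi / 7) :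
    ∃ k : ℕ, Real.pi / 7 < 2 ^ k * x ∧ 2 ^ k * x ≤ 2 * Real.pi / 7 := by
  have hpi0 := Real.pi_pos
  have hex : ∃ k : ℕ, Real.pi / 7 < 2 ^ k * x := by
    obtain ⟨k, hk⟩ := pow_unbounded_of_one_lt (Real.pi / 7 / x) (one_lt_two)
    refine ⟨k, ?_⟩
    rwa [div_lt_iff₀ h0] at hk
  classical
  refine ⟨Nat.find hex, Nat.find_spec hex, ?_⟩
  rcases Nat.eq_zero_or_pos (Nat.find hex) with hz | hp
  · rw [hz, pow_zero, one_mul]
    exact h1
  · have h2 := Nat.find_min hex (m := Nat.find hex - 1) (by omega)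
    push Not at h2
    obtain ⟨k, hk⟩ : ∃ k, Nat.find hex = k + 1 := ⟨Nat.find hex - 1, by omega⟩
    rw [hk, Nat.add_sub_cancel] at h2
    rw [hk, pow_succ]
    linarith

theorem bad_rot2 (A : E ≃ₗᵢ[ℝ] E)
    (hdet : LinearMap.det A.toLinearIsometry.toLinearMap = 1)
    (hord : orderOf A ∉ ({1, 2, 3, 4, 6} : Finset ℕ)) :
    ∃ (n : ℤ) (u : E) (c s : ℝ), dt u u = 1 ∧ c ^ 2 + s ^ 2 = 1 ∧
      ((c = C5 ∧ s = S5) ∨ (0.6234 ≤ c ∧ c ≤ 0.9011)) ∧ ∀ v : E, (A ^ n) v = rot u c s v := by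
  obtain ⟨u, c, s, hu, hcs, hA⟩ := is_rot A hdet
  obtain ⟨t, rfl, rfl⟩ := exists_angle hcs
  have hpi0 := Real.pi_pos
  -- angles in the subgroup
  have hang : ∀ (n m : ℤ) (x : ℝ), n • t + m • (2 * Real.pi) = x →
      ∀ v : E, (A ^ n) v = rot u (Real.cos x) (Real.sin x) v := by
    intro n m x hx v
    rw [zpow_rot hu hA n v]
    have h1 : (n : ℝ) * t = x - m * (2 * Real.pi) := by
      rw [← hx]; simp
    rw [h1, Real.cos_sub_int_mul_two_pi, Real.sin_sub_int_mul_two_pi]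
  have hkey : ∀ (n m : ℤ) (x : ℝ), 0 < x → x ≤ 2 * Real.pi / 7 → n • t + m • (2 * Real.pi) = x →
      ∃ (n : ℤ) (u : E) (c s : ℝ), dt u u = 1 ∧ c ^ 2 + s ^ 2 = 1 ∧
      ((c = C5 ∧ s = S5) ∨ (0.6234 ≤ c ∧ c ≤ 0.9011)) ∧ ∀ v : E, (A ^ n) v = rot u c s v := by
    intro n m x h0 h1 hnm
    obtain ⟨k, hk0, hk1⟩ := dbl_exists h0 h1
    refine ⟨2 ^ k * n, u, Real.cos (2 ^ k * x), Real.sin (2 ^ k * x), hu,
      Real.cos_sq_add_sin_sq _, Or.inr (cos_bounds2 hk0 hk1), hang (2 ^ k * n) (2 ^ k * m) _ ?_⟩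
    rw [← hnm]
    simp only [zsmul_eq_mul]
    push_cast
    ring
  rcases AddSubgroup.dense_or_cyclic (AddSubgroup.closure ({t, 2 * Real.pi} : Set ℝ)) with hd | ⟨a, ha⟩
  · obtain ⟨x, hxm, hx0, hx1⟩ := hd.exists_between (show (0 : ℝ) < 2 * Real.pi / 7 by positivity)
    obtain ⟨n, m, hnm⟩ := AddSubgroup.mem_closure_pair.mp hxm
    exact hkey n m x hx0 hx1.le hnm
  · -- normalise the generator
    have hpair : ∃ (N : ℕ) (M n m : ℤ) (b : ℝ), 1 ≤ N ∧ 2 * Real.pi = N * b ∧ t = M * b ∧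
        n • t + m • (2 * Real.pi) = b := by
      have m1 : t ∈ AddSubgroup.closure ({a} : Set ℝ) := by
        rw [← ha]; exact AddSubgroup.subset_closure (by simp)
      have m2 : 2 * Real.pi ∈ AddSubgroup.closure ({a} : Set ℝ) := by
        rw [← ha]; exact AddSubgroup.subset_closure (by simp)
      have m3 : a ∈ AddSubgroup.closure ({t, 2 * Real.pi} : Set ℝ) := by
        rw [ha]; exact AddSubgroup.subset_closure (by simp)
      obtain ⟨M, hM⟩ := AddSubgroup.mem_closure_singleton.mp m1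
      obtain ⟨N, hN⟩ := AddSubgroup.mem_closure_singleton.mp m2
      obtain ⟨n, m, hnm⟩ := AddSubgroup.mem_closure_pair.mp m3
      have hN0 : N ≠ 0 := by
        rintro rfl
        rw [zero_smul] at hN
        linarith
      rcases lt_or_gt_of_ne hN0 with hneg | hpos
      · refine ⟨N.natAbs, -M, -n, -m, -a, ?_, ?_, ?_, ?_⟩
        · omega
        · rw [← hN, zsmul_eq_mul]
          have : ((N.natAbs : ℕ) : ℝ) = -(N : ℝ) := by
            rw [Nat.cast_natAbs, abs_of_neg hneg]; push_cast; ring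
          rw [this]; ring
        · rw [← hM, zsmul_eq_mul]; push_cast; ring
        · rw [← hnm]; simp only [neg_smul]; abel
      · refine ⟨N.natAbs, M, n, m, a, ?_, ?_, ?_, hnm⟩
        · omega
        · rw [← hN, zsmul_eq_mul]
          have : ((N.natAbs : ℕ) : ℝ) = (N : ℝ) := by
            rw [Nat.cast_natAbs, abs_of_pos hpos]
          rw [this]
        · rw [← hM, zsmul_eq_mul]
    obtain ⟨N, M, n, m, b, hN1, hN, hM, hnm⟩ := hpair
    have hNpos : (0 : ℝ) < N := by exact_mod_cast hN1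
    have hb : b = 2 * Real.pi / N := by
      rw [hN]; field_simp
    have hApow : A ^ N = 1 := by
      apply LinearIsometryEquiv.ext
      intro v
      rw [pow_rot hu hA N v]
      have h1 : (N : ℝ) * t = M * (2 * Real.pi) := by
        rw [hM, hN]; ring
      have h2 : Real.cos ((M : ℝ) * (2 * Real.pi)) = 1 := Real.cos_int_mul_two_pi M
      have h3 : Real.sin ((M : ℝ) * (2 * Real.pi)) = 0 := by
        have := Real.sin_int_mul_pi (M * 2)
        push_cast at this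
        rw [← this]; congr 1; ring
      rw [h1, h2, h3, rot_one]
      simp
    have hdvd := orderOf_dvd_of_pow_eq_one hApow
    rcases lt_or_ge N 7 with hlt | hge
    · by_cases h5 : N = 5
      · subst h5
        refine ⟨n, u, C5, S5, hu, C5_S5, Or.inl ⟨rfl, rfl⟩, ?_⟩
        intro v
        rw [hang n m b hnm v, hb]
        push_cast
        rw [cos_72, sin_72]
      · exfalso
        apply hord
        have hle := Nat.le_of_dvd (by omega) hdvd
        have hpos : 0 < orderOf A := Nat.pos_of_dvd_of_pos hdvd (by omega)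
        have hne : orderOf A ≠ 5 := by
          intro h
          rw [h] at hdvd hle
          obtain ⟨k, hk⟩ := hdvd
          omega
        simp only [Finset.mem_insert, Finset.mem_singleton]
        omega
    · have hNge : (7 : ℝ) ≤ N := by exact_mod_cast hge
      refine hkey n m b ?_ ?_ hnm
      · rw [hb]; positivity
      · rw [hb]
        exact div_le_div_of_nonneg_left (by positivity) (by norm_num) hNge

theorem GW2.of_no_kernel {X : Set E} {r R K : ℝ} (hr : 0 < r)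
    (hsep : ∀ x ∈ X, ∀ y ∈ X, x ≠ y → 2 * r ≤ dist x y)
    (hcov : ∀ y : E, ∃ x ∈ X, dist x y ≤ R) (p₀ : E)
    (hno : ∀ x ∈ X, dist x p₀ ≤ K → ∃ A : E ≃ₗᵢ[ℝ] E,
      (∀ v : E, ‖v‖ ≤ 2 * R → (x + v ∈ X ↔ x + A v ∈ X)) ∧
      LinearMap.det A.toLinearIsometry.toLinearMap = 1 ∧
      orderOf A ∉ ({1, 2, 3, 4, 6} : Finset ℕ)) :
    ∃ (u : E → E) (c s : E → ℝ), GW2 X R p₀ K u c s := by
  have hex : ∀ x : E, ∃ (u : E) (c s : ℝ), x ∈ X → ‖x - p₀‖ ≤ K →
      dt u u = 1 ∧ c ^ 2 + s ^ 2 = 1 ∧ ((c = C5 ∧ s = S5) ∨ (0.6234 ≤ c ∧ c ≤ 0.9011)) ∧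
      ∀ v : E, ‖v‖ ≤ 2 * R → x + v ∈ X → x + H304.rot u c s v ∈ X ∧ x + H304.rot u c (-s) v ∈ X := by
    intro x
    by_cases hx : x ∈ X ∧ ‖x - p₀‖ ≤ K
    · obtain ⟨hxX, hxK⟩ := hx
      obtain ⟨A, hA, hdet, hord⟩ := hno x hxX (by rw [dist_eq_norm]; exact hxK)
      obtain ⟨n, u, c, s, hu, hcs, hang, hrot⟩ := bad_rot2 A hdet hord
      refine ⟨u, c, s, fun _ _ => ⟨hu, hcs, hang, fun v hv hxv => ⟨?_, ?_⟩⟩⟩
      · rw [← hrot]
        exact (m9_zpow hA n v hv).1 hxv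
      · rw [← m9_zpow_neg hu hcs hrot]
        exact (m9_zpow hA (-n) v hv).1 hxv
    · exact ⟨0, 0, 0, fun h1 h2 => absurd ⟨h1, h2⟩ hx⟩
  choose u c s h using hex
  have hR : 0 < R := by
    by_contra hR
    rw [not_lt] at hR
    have hall : ∀ y : E, y ∈ X := by
      intro y
      obtain ⟨x, hx, hxy⟩ := hcov y
      have h1 : dist x y = 0 := le_antisymm (hxy.trans hR) dist_nonneg
      rw [← dist_eq_zero.1 h1]
      exact hx
    obtain ⟨w, hw⟩ := exists_norm_eq E hr.le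
    have hw0 : w ≠ 0 := by
      rintro rfl
      rw [norm_zero] at hw
      exact hr.ne hw
    have h2 := hsep w (hall w) 0 (hall 0) hw0
    rw [dist_zero_right, hw] at h2
    linarith
  refine ⟨u, c, s, hR, ?_, m9_fin hr hsep, ?_, ?_, ?_, ?_⟩
  · intro y
    obtain ⟨x, hx, hxy⟩ := hcov y
    exact ⟨x, hx, by rw [← dist_eq_norm]; exact hxy⟩
  · exact fun x hx hK => (h x hx hK).1
  · exact fun x hx hK => (h x hx hK).2.1
  · exact fun x hx hK => (h x hx hK).2.2.1
  · exact fun x hx hK => (h x hx hK).2.2.2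

end Pool.Agent.H304

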