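import Pool.Agent.helper304_full.Base
import Pool.Agent.helper304_ico.IcoStd

set_option autoImplicit false

namespace Pool.Agent.H304

lemma std2_ph : ph = Real.goldenRatio := rfl

lemma std2_sqrt : Real.sqrt (ph + 2) = 2 * S5 := by
  have h1 : ph + 2 = (2 * S5) ^ 2 := by
    rw [mul_pow, S5_sq']
    unfold ph
    ring
  rw [h1, Real.sqrt_sq (by have := S5_pos; positivity)]

/-- the standard frame -/
lemma std2_core {p₀ p₁ : E} (h00 : dt p₀ p₀ = 1) (h11 : dt p₁ p₁ = 1)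
    (h01 : dt p₀ p₁ = Real.sqrt 5 / 5) :
    ∃ b0 b1 b2 : E, dt b0 b0 = 1 ∧ dt b1 b1 = 1 ∧ dt b2 b2 = 1 ∧ dt b0 b1 = 0 ∧ dt b0 b2 = 0 ∧
      dt b1 b2 = 0 ∧ ∀ σ τ : ℝ, (σ = 1 ∨ σ = -1) → (τ = 1 ∨ τ = -1) →
        (∃ ε : ℝ, (ε = 1 ∨ ε = -1) ∧
          ((σ • b0 + (τ * Real.goldenRatio) • b1 = (ε * (2 * S5)) • p₀) ∨ ∃ n : ℕ,
            σ • b0 + (τ * Real.goldenRatio) • b1 = (ε * (2 * S5)) • ((rot p₀ C5 S5)^[n] p₁))) ∧
        (∃ ε : ℝ, (ε = 1 ∨ ε = -1) ∧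
          ((σ • b1 + (τ * Real.goldenRatio) • b2 = (ε * (2 * S5)) • p₀) ∨ ∃ n : ℕ,
            σ • b1 + (τ * Real.goldenRatio) • b2 = (ε * (2 * S5)) • ((rot p₀ C5 S5)^[n] p₁))) ∧
        (∃ ε : ℝ, (ε = 1 ∨ ε = -1) ∧
          ((σ • b2 + (τ * Real.goldenRatio) • b0 = (ε * (2 * S5)) • p₀) ∨ ∃ n : ℕ,
            σ • b2 + (τ * Real.goldenRatio) • b0 =
              (ε * (2 * S5)) • ((rot p₀ C5 S5)^[n] p₁))) := by
  have hS := S5_sq'
  have h5 := sqrt5_sq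
  have hSpos := S5_pos
  have hSne : S5 ≠ 0 := hSpos.ne'
  have hφC := two_phi_C5
  set w := cr p₀ p₁ with hw
  have hww : dt w w = 4 / 5 := by
    rw [hw, dt_cr_cr, h00, h11, dt_comm p₁ p₀, h01]
    linear_combination (-1 / 25) * h5
  have d0w : dt p₀ w = 0 := dt_self_cr_left _ _
  have d1w : dt p₁ w = 0 := dt_self_cr_right _ _
  have dw0 : dt w p₀ = 0 := dt_cr_self_left _ _
  have dw1 : dt w p₁ = 0 := dt_cr_self_right _ _
  have h10 : dt p₁ p₀ = Real.sqrt 5 / 5 := by rw [dt_comm]; exact h01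
  refine ⟨(4 * C5 * S5 ^ 2) • w, S5 • (p₀ - p₁), (2 * C5 * S5) • (p₀ + p₁),
    ?_, ?_, ?_, ?_, ?_, ?_, ?_⟩
  · rw [dt_smul_left, dt_smul_right, hww, hS, C5_def']
    linear_combination (1/80 * Real.sqrt 5 ^ 2 - 1/16 + 1/10 * Real.sqrt 5 + 1/5) * h5
  · simp only [dt_smul_left, dt_smul_right, dt_sub_left, dt_sub_right, h00, h11, h01, h10]
    linear_combination (2 - 2 * Real.sqrt 5 / 5) * hS + (-1/20) * h5
  · simp only [dt_smul_left, dt_smul_right, dt_add_left, dt_add_right, h00, h11, h01, h10]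
    rw [C5_def']
    linear_combination (((Real.sqrt 5 - 1)/2)^2 * (2 + 2 * Real.sqrt 5 / 5)) * hS +
      (1/80 * Real.sqrt 5 ^ 2 - 1/16 + 1/10 * Real.sqrt 5 + 1/5) * h5
  · simp only [dt_smul_left, dt_smul_right, dt_sub_right, dw0, dw1]; ring
  · simp only [dt_smul_left, dt_smul_right, dt_add_right, dw0, dw1]; ring
  · simp only [dt_smul_left, dt_smul_right, dt_sub_left, dt_add_right, h00, h11, h01, h10]; ring
  · intro σ τ hσ hτ
    have hst : σ = τ ∨ σ = -τ := by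
      rcases hσ with rfl | rfl <;> rcases hτ with rfl | rfl <;> norm_num
    refine ⟨?_, ?_, ?_⟩
    · refine ⟨τ, hτ, Or.inr ?_⟩
      rcases hst with rfl | rfl
      · refine ⟨2, ?_⟩
        rw [rot2 h00 h01]
        module
      · refine ⟨3, ?_⟩
        rw [rot3 h00 h01]
        module
    · refine ⟨τ, hτ, ?_⟩
      rcases hst with rfl | rfl
      · left
        have e : (σ * Real.goldenRatio) • (2 * C5 * S5) • (p₀ + p₁) = (σ * S5) • (p₀ + p₁) := by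
          rw [smul_smul]
          congr 1
          linear_combination (σ * S5) * hφC
        rw [e]
        module
      · right
        refine ⟨0, ?_⟩
        have e : (τ * Real.goldenRatio) • (2 * C5 * S5) • (p₀ + p₁) = (τ * S5) • (p₀ + p₁) := by
          rw [smul_smul]
          congr 1
          linear_combination (τ * S5) * hφC
        rw [e]
        simp only [Function.iterate_zero, id]
        module
    · refine ⟨σ, hσ, Or.inr ?_⟩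
      have e : (τ * Real.goldenRatio) • (4 * C5 * S5 ^ 2) • w = (τ * (2 * S5 ^ 2)) • w := by
        rw [smul_smul]
        congr 1
        linear_combination (τ * (2 * S5 ^ 2)) * hφC
      rw [e]
      rcases hst with rfl | rfl
      · refine ⟨1, ?_⟩
        rw [rot1 h00 h01]
        module
      · refine ⟨4, ?_⟩
        rw [rot4 h00 h01]
        module

theorem IcoV.standard2 {X : Set E} {q : E} {a : ℝ} {p₀ p₁ : E} {u : E → E} {c s : E → ℝ}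
    (h : IcoV X q a p₀ p₁ u c s) :
    ∃ b0 b1 b2 : E, dt b0 b0 = 1 ∧ dt b1 b1 = 1 ∧ dt b2 b2 = 1 ∧ dt b0 b1 = 0 ∧ dt b0 b2 = 0 ∧ dt b1 b2 = 0 ∧
      ∀ v : E, IsVtx v → ∃ w, VV X u c s q a w ∧ v 0 • b0 + v 1 • b1 + v 2 • b2 = Real.sqrt (ph + 2) • w := by
  have h01 : dt p₀ p₁ = Real.sqrt 5 / 5 := ico_kappa h.ad
  obtain ⟨b0, b1, b2, g00, g11, g22, g01, g02, g12, hb⟩ := std2_core h.n0 h.n1 h01
  refine ⟨b0, b1, b2, g00, g11, g22, g01, g02, g12, ?_⟩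
  have key : ∀ y : E, (∃ ε : ℝ, (ε = 1 ∨ ε = -1) ∧
      ((y = (ε * (2 * S5)) • p₀) ∨ ∃ n : ℕ, y = (ε * (2 * S5)) • ((rot p₀ C5 S5)^[n] p₁))) →
      ∃ w, VV X u c s q a w ∧ y = Real.sqrt (ph + 2) • w := by
    rintro y ⟨ε, hε, hy | ⟨n, hy⟩⟩
    · refine ⟨ε • p₀, h.v0 ε hε, ?_⟩
      rw [hy, std2_sqrt, smul_smul, mul_comm]
    · refine ⟨ε • (rot p₀ C5 S5)^[n] p₁, h.v1 ε hε n, ?_⟩
      rw [hy, std2_sqrt, smul_smul, mul_comm]
  intro v hv
  apply key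
  obtain ⟨σ, τ, hσ, hτ, hv⟩ := hv
  obtain ⟨hA, hB, hC⟩ := hb σ τ hσ hτ
  rw [← std2_ph] at hA hB hC
  rcases hv with rfl | rfl | rfl
  · have e : (!₂[0, σ, τ * ph] : E) 0 • b0 + (!₂[0, σ, τ * ph] : E) 1 • b1 +
        (!₂[0, σ, τ * ph] : E) 2 • b2 = σ • b1 + (τ * ph) • b2 := by
      simp
    rw [e]
    exact hB
  · have e : (!₂[σ, τ * ph, 0] : E) 0 • b0 + (!₂[σ, τ * ph, 0] : E) 1 • b1 +
        (!₂[σ, τ * ph, 0] : E) 2 • b2 = σ • b0 + (τ * ph) • b1 := by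
      simp
    rw [e]
    exact hA
  · have e : (!₂[τ * ph, 0, σ] : E) 0 • b0 + (!₂[τ * ph, 0, σ] : E) 1 • b1 +
        (!₂[τ * ph, 0, σ] : E) 2 • b2 = σ • b2 + (τ * ph) • b0 := by
      simp
      abel
    rw [e]
    exact hC

end Pool.Agent.H304

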