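import Pool.Agent.helper304_full.Base
import Pool.Agent.helper304_ico.WMin
import Pool.Agent.helper304_full.S5

set_option autoImplicit false

namespace Pool.Agent.H304

/-- frame map -/
noncomputable def fr (b0 b1 b2 : E) (v : E) : E := v 0 • b0 + v 1 • b1 + v 2 • b2

/-- inverse frame map -/
noncomputable def fri (b0 b1 b2 : E) (x : E) : E := !₂[dt x b0, dt x b1, dt x b2]

@[simp] lemma fri_0 (b0 b1 b2 x : E) : (fri b0 b1 b2 x) 0 = dt x b0 := by simp [fri]

@[simp] lemma fri_1 (b0 b1 b2 x : E) : (fri b0 b1 b2 x) 1 = dt x b1 := by simp [fri]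

@[simp] lemma fri_2 (b0 b1 b2 x : E) : (fri b0 b1 b2 x) 2 = dt x b2 := by simp [fri]

/-- orthonormal frame -/
structure ONF (b0 b1 b2 : E) : Prop where
  h00 : dt b0 b0 = 1
  h11 : dt b1 b1 = 1
  h22 : dt b2 b2 = 1
  h01 : dt b0 b1 = 0
  h02 : dt b0 b2 = 0
  h12 : dt b1 b2 = 0

lemma fr_add (b0 b1 b2 v w : E) : fr b0 b1 b2 (v + w) = fr b0 b1 b2 v + fr b0 b1 b2 w := by
  simp only [fr, PiLp.add_apply]; module

lemma fr_sub (b0 b1 b2 v w : E) : fr b0 b1 b2 (v - w) = fr b0 b1 b2 v - fr b0 b1 b2 w := by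
  simp only [fr, PiLp.sub_apply]; module

lemma fr_smul (b0 b1 b2 v : E) (t : ℝ) : fr b0 b1 b2 (t • v) = t • fr b0 b1 b2 v := by
  simp only [fr, PiLp.smul_apply, smul_eq_mul]; module

namespace ONF

variable {b0 b1 b2 : E} (h : ONF b0 b1 b2)

include h

lemma dtf (v w : E) : dt (fr b0 b1 b2 v) (fr b0 b1 b2 w) = dt v w := by
  have h10 : dt b1 b0 = 0 := by rw [dt_comm]; exact h.h01
  have h20 : dt b2 b0 = 0 := by rw [dt_comm]; exact h.h02
  have h21 : dt b2 b1 = 0 := by rw [dt_comm]; exact h.h12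
  simp only [fr, dt_add_left, dt_add_right, dt_smul_left, dt_smul_right, h.h00, h.h11, h.h22, h.h01, h.h02, h.h12,
    h10, h20, h21]
  simp only [dt]; ring

lemma nrm (v : E) : ‖fr b0 b1 b2 v‖ = ‖v‖ := by
  rw [norm_eq_sqrt_dt, norm_eq_sqrt_dt, h.dtf]

lemma fri_fr (v : E) : fri b0 b1 b2 (fr b0 b1 b2 v) = v := by
  have h10 : dt b1 b0 = 0 := by rw [dt_comm]; exact h.h01
  have h20 : dt b2 b0 = 0 := by rw [dt_comm]; exact h.h02
  have h21 : dt b2 b1 = 0 := by rw [dt_comm]; exact h.h12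
  apply ext3
  · rw [fri_0]; simp only [fr, dt_add_left, dt_smul_left, h.h00, h10, h20]; ring
  · rw [fri_1]; simp only [fr, dt_add_left, dt_smul_left, h.h11, h.h01, h21]; ring
  · rw [fri_2]; simp only [fr, dt_add_left, dt_smul_left, h.h22, h.h12, h.h02]; ring

lemma nn : dt (cr b0 b1) (cr b0 b1) = 1 := by
  rw [dt_cr_cr, h.h00, h.h11, h.h01]; ring

lemma b2_eq : b2 = dt (cr b0 b1) b2 • cr b0 b1 := by
  have e1 : cr (cr b0 b1) b2 = 0 := by
    rw [cr_cr', h.h02, h.h12]; simp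
  have e2 : cr (cr b0 b1) (cr (cr b0 b1) b2) = 0 := by rw [e1]; simp
  rw [cr_cr, h.nn, one_smul] at e2
  exact (sub_eq_zero.mp e2).symm

lemma del_sq : dt (cr b0 b1) b2 * dt (cr b0 b1) b2 = 1 := by
  have h1 := h.h22
  have e := h.b2_eq
  set d := dt (cr b0 b1) b2 with hd
  rw [e] at h1
  rw [dt_smul_left, dt_smul_right, h.nn] at h1
  linarith

lemma cr01 : cr b0 b1 = dt (cr b0 b1) b2 • b2 := by
  have e := h.b2_eq
  have ds := h.del_sq
  set d := dt (cr b0 b1) b2 with hd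
  have : d • b2 = d • (d • cr b0 b1) := by rw [← e]
  rw [this, smul_smul, ds, one_smul]

lemma cr12 : cr b1 b2 = dt (cr b0 b1) b2 • b0 := by
  have e := h.b2_eq
  have h10 : dt b1 b0 = 0 := by rw [dt_comm]; exact h.h01
  set d := dt (cr b0 b1) b2 with hd
  rw [e, cr_smul_right, cr_cr, h.h11, h10]
  simp

lemma cr20 : cr b2 b0 = dt (cr b0 b1) b2 • b1 := by
  have e := h.b2_eq
  have h10 : dt b1 b0 = 0 := by rw [dt_comm]; exact h.h01
  set d := dt (cr b0 b1) b2 with hd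
  rw [e, cr_smul_left, cr_cr', h.h00, h10]
  simp

lemma fr_fri (x : E) : fr b0 b1 b2 (fri b0 b1 b2 x) = x := by
  have h10 : dt b1 b0 = 0 := by rw [dt_comm]; exact h.h01
  have h20 : dt b2 b0 = 0 := by rw [dt_comm]; exact h.h02
  have h21 : dt b2 b1 = 0 := by rw [dt_comm]; exact h.h12
  set z := x - fr b0 b1 b2 (fri b0 b1 b2 x) with hz
  have z0 : dt b0 z = 0 := by
    rw [hz, dt_sub_right]
    simp only [fr, fri_0, fri_1, fri_2, dt_add_right, dt_smul_right, h.h00, h.h01, h.h02]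
    rw [dt_comm x b0]; ring
  have z1 : dt b1 z = 0 := by
    rw [hz, dt_sub_right]
    simp only [fr, fri_0, fri_1, fri_2, dt_add_right, dt_smul_right, h.h11, h10, h.h12]
    rw [dt_comm x b1]; ring
  have z2 : dt b2 z = 0 := by
    rw [hz, dt_sub_right]
    simp only [fr, fri_0, fri_1, fri_2, dt_add_right, dt_smul_right, h.h22, h20, h21]
    rw [dt_comm x b2]; ring
  have e1 : cr (cr b0 b1) z = 0 := by
    rw [cr_cr', z0, z1]; simp
  have e2 : cr (cr b0 b1) (cr (cr b0 b1) z) = 0 := by rw [e1]; simp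
  rw [cr_cr, h.nn, one_smul] at e2
  have e3 : dt (cr b0 b1) z = 0 := by rw [h.cr01, dt_smul_left, z2]; ring
  rw [e3, zero_smul, zero_sub, neg_eq_zero] at e2
  exact (sub_eq_zero.mp e2).symm

lemma crf (v w : E) : cr (fr b0 b1 b2 v) (fr b0 b1 b2 w) = dt (cr b0 b1) b2 • fr b0 b1 b2 (cr v w) := by
  have c01 := h.cr01
  have c12 := h.cr12
  have c20 := h.cr20
  set d := dt (cr b0 b1) b2 with hd
  have c10 : cr b1 b0 = - (d • b2) := by rw [cr_comm, c01]
  have c21 : cr b2 b1 = - (d • b0) := by rw [cr_comm, c12]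
  have c02 : cr b0 b2 = - (d • b1) := by rw [cr_comm, c20]
  simp only [fr, cr_add_left, cr_add_right, cr_smul_left, cr_smul_right, c01, c12, c20, c10, c21, c02, cr_self,
    cr_0, cr_1, cr_2]
  module

lemma rotf (e w : E) (c s : ℝ) :
    Pool.Agent.H304.rot (fr b0 b1 b2 e) c s (fr b0 b1 b2 w) =
      fr b0 b1 b2 (Pool.Agent.H304.rot (dt (cr b0 b1) b2 • e) c s w) := by
  have ds := h.del_sq
  simp only [Pool.Agent.H304.rot, h.crf, h.dtf, fr_add, fr_smul, cr_smul_left, dt_smul_left]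
  set d := dt (cr b0 b1) b2 with hd
  have : ((1 - c) * (d * dt e w)) • d • fr b0 b1 b2 e = ((1 - c) * dt e w) • fr b0 b1 b2 e := by
    rw [smul_smul]
    congr 1
    linear_combination ((1 - c) * dt e w) * ds
  rw [this]

lemma rotf' (e w : E) (c s : ℝ) :
    Pool.Agent.H304.rot e c s (fr b0 b1 b2 w) =
      fr b0 b1 b2 (Pool.Agent.H304.rot (dt (cr b0 b1) b2 • fri b0 b1 b2 e) c s w) := by
  rw [← h.rotf, h.fr_fri]

lemma cr_zero {e w : E} (hc : cr e (fr b0 b1 b2 w) = 0) :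
    cr (dt (cr b0 b1) b2 • fri b0 b1 b2 e) w = 0 := by
  have ds := h.del_sq
  rw [cr_smul_left]
  have e1 : dt (cr b0 b1) b2 • fr b0 b1 b2 (cr (fri b0 b1 b2 e) w) = 0 := by
    rw [← h.crf, h.fr_fri, hc]
  have e2 : fr b0 b1 b2 (dt (cr b0 b1) b2 • cr (fri b0 b1 b2 e) w) = 0 := by
    rw [fr_smul, e1]
  have e3 := h.nrm (dt (cr b0 b1) b2 • cr (fri b0 b1 b2 e) w)
  rw [e2, norm_zero] at e3
  exact norm_eq_zero.mp e3.symm

end ONF

theorem GW2.iw {X : Set E} {R T D : ℝ} {p₀ x q p₁ p₂ : E} {a : ℝ} {u : E → E} {c s : E → ℝ}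
    (W : GW2 X R p₀ T u c s) (L : LW X R D x u c s) (hI : IcoV X q a p₁ p₂ u c s) (hq : ‖q - x‖ ≤ 3 * D) (ha : a ≤ D)
    (hT : ‖q - p₀‖ + 10 * R ≤ T) :
    ∃ (X' : Set E) (u' : E → E) (c' s' : E → ℝ) (q' : ℝ), IW X' u' c' s' q' := by
  obtain ⟨b0, b1, b2, h00, h11, h22, h01, h02, h12, hv⟩ := hI.standard2
  have h : ONF b0 b1 b2 := ⟨h00, h11, h22, h01, h02, h12⟩
  have hR := W.Rpos
  have hD := L.Dpos
  have hap := hI.apos
  have hph := ph_gt
  have hph2 : (0:ℝ) < ph + 2 := by linarith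
  set r := Real.sqrt (ph + 2) with hr
  have hr2 : r ^ 2 = ph + 2 := Real.sq_sqrt hph2.le
  have hrpos : 0 < r := Real.sqrt_pos.mpr hph2
  have hr1 : 1 ≤ r := by nlinarith
  have hds := h.del_sq
  set G : E → E := fun v => q + R • fr b0 b1 b2 v with hG
  set q' : ℝ := a / (R * r) with hq'
  have hq'pos : 0 < q' := by positivity
  have hRq : R * q' * r = a := by rw [hq']; field_simp
  have hq'R : R * q' ≤ D := by
    have : R * q' ≤ R * q' * r := by
      have : 0 < R * q' := by positivity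
      nlinarith
    linarith
  have hGsub : ∀ v w, G v - G w = R • fr b0 b1 b2 (v - w) := by
    intro v w; simp only [hG, fr_sub]; module
  have hGadd : ∀ v w, G (v + w) = G v + R • fr b0 b1 b2 w := by
    intro v w; simp only [hG, fr_add]; module
  have hGinv : ∀ y, G (fri b0 b1 b2 (R⁻¹ • (y - q))) = y := by
    intro y
    simp only [hG, h.fr_fri, smul_smul, mul_inv_cancel₀ hR.ne', one_smul]
    abel
  have hGnorm : ∀ v w, ‖G v - G w‖ = R * ‖v - w‖ := by
    intro v w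
    rw [hGsub, norm_smul, h.nrm, Real.norm_of_nonneg hR.le]
  have hGinj : Function.Injective G := by
    intro v w hvw
    have := hGnorm v w
    rw [hvw, sub_self, norm_zero] at this
    have h3 : ‖v - w‖ = 0 := by
      rcases mul_eq_zero.mp this.symm with h4 | h4
      · exact absurd h4 hR.ne'
      · exact h4
    exact sub_eq_zero.mp (norm_eq_zero.mp h3)
  have hGz : ∀ v (z : E), ‖G v - z‖ ≤ ‖q - z‖ + R * ‖v‖ := by
    intro v z
    have e : G v - z = (q - z) + R • fr b0 b1 b2 v := by simp only [hG]; module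
    rw [e]
    refine (norm_add_le _ _).trans ?_
    rw [norm_smul, h.nrm, Real.norm_of_nonneg hR.le]
  have hGT : ∀ v, ‖v‖ ≤ 10 → ‖G v - p₀‖ ≤ T := by
    intro v hv10
    have := hGz v p₀
    nlinarith
  refine ⟨{v | G v ∈ X}, fun v => dt (cr b0 b1) b2 • fri b0 b1 b2 (u (G v)), fun v => c (G v), fun v => s (G v), q',
    ?_⟩
  refine ⟨?_, ?_, ?_, ?_, ?_, ?_, hq'pos, ?_, ?_, ?_⟩
  · intro y
    obtain ⟨z, hz, hzy⟩ := W.cov (G y)
    refine ⟨fri b0 b1 b2 (R⁻¹ • (z - q)), ?_, ?_⟩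
    · show G _ ∈ X
      rw [hGinv]; exact hz
    · have := hGnorm (fri b0 b1 b2 (R⁻¹ • (z - q))) y
      rw [hGinv] at this
      rw [this] at hzy
      by_contra hcon
      push Not at hcon
      nlinarith
  · intro K
    have hf := W.fin (‖q‖ + R * K)
    refine (hf.preimage hGinj.injOn).subset ?_
    rintro v ⟨hv1, hv2⟩
    refine ⟨hv1, ?_⟩
    show ‖G v‖ ≤ _
    have h1 := hGz v 0
    simp only [sub_zero] at h1
    have h2 : ‖v‖ ≤ K := hv2
    nlinarith
  · intro v hvX hv10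
    show dt (dt (cr b0 b1) b2 • fri b0 b1 b2 (u (G v))) (dt (cr b0 b1) b2 • fri b0 b1 b2 (u (G v))) = 1
    rw [dt_smul_left, dt_smul_right, ← mul_assoc, hds, one_mul, ← h.dtf, h.fr_fri]
    exact W.unit _ hvX (hGT v hv10)
  · intro v hvX hv10
    exact W.cs _ hvX (hGT v hv10)
  · intro v hvX hv10
    exact W.ang _ hvX (hGT v hv10)
  · intro v hvX hv10 w hw hvw
    have hw2 : ‖R • fr b0 b1 b2 w‖ ≤ 2 * R := by
      rw [norm_smul, h.nrm, Real.norm_of_nonneg hR.le]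
      nlinarith
    have hvw' : G v + R • fr b0 b1 b2 w ∈ X := by
      rw [← hGadd]; exact hvw
    have key := W.rot _ hvX (hGT v hv10) (R • fr b0 b1 b2 w) hw2 hvw'
    rw [rot_smul, rot_smul, h.rotf', h.rotf', ← hGadd, ← hGadd] at key
    exact key
  · have e1 : R ^ 2 * (q' ^ 2 * (ph + 2)) = a ^ 2 := by
      rw [← hr2, ← hRq]; ring
    have e2 : a ^ 2 ≤ D ^ 2 := by nlinarith
    have e3 := L.DR
    have e4 := C5_lt
    have e5 : 0.690983 * D ^ 2 ≤ (1 - C5) * D ^ 2 := by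
      apply mul_le_mul_of_nonneg_right _ (sq_nonneg D)
      linarith
    have e6 : D ^ 2 ≤ 2.8945 * R ^ 2 := by
      nlinarith [sq_nonneg D, sq_nonneg R]
    have hR2 : 0 < R ^ 2 := by positivity
    have e7 : R ^ 2 * (q' ^ 2 * (ph + 2)) ≤ R ^ 2 * 2.8945 := by linarith
    exact le_of_mul_le_mul_left e7 hR2
  · intro v hvv
    obtain ⟨w, ⟨hw1, hw2, hw3, hw4⟩, hw5⟩ := hv v hvv
    have hfr : fr b0 b1 b2 v = r • w := hw5
    have hGv : G (q' • v) = q + a • w := by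
      simp only [hG, fr_smul, hfr, smul_smul]
      rw [← hRq, mul_assoc]
    refine ⟨?_, ?_, ?_, ?_⟩
    · show G (q' • v) ∈ X
      rw [hGv]; exact hw1
    · show cr (dt (cr b0 b1) b2 • fri b0 b1 b2 (u (G (q' • v)))) v = 0
      apply h.cr_zero
      rw [hGv, hfr, cr_smul_right, hw2, smul_zero]
    · show c (G (q' • v)) = C5
      rw [hGv]; exact hw3
    · show s (G (q' • v)) = S5
      rw [hGv]; exact hw4
  · intro y hy z hz hyn hzn hyz hd
    have hGx : ∀ v, ‖v‖ ≤ 10 * q' → ‖G v - x‖ ≤ 100 * D := by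
      intro v hv10
      have h1 := hGz v x
      nlinarith
    have hGyz : dt (G z - G y) (G z - G y) < 0.9998 * D ^ 2 := by
      rw [hGsub, dt_smul_left, dt_smul_right, h.dtf]
      have e1 : R ^ 2 * (q' ^ 2 * (ph + 2)) = a ^ 2 := by
        rw [← hr2, ← hRq]; ring
      have e2 : a ^ 2 ≤ D ^ 2 := by nlinarith
      have hR2 : 0 < R ^ 2 := by positivity
      have e3 := mul_lt_mul_of_pos_left hd hR2
      nlinarith
    have key := L.coax _ hy (hGx y hyn) _ hz (hGx z hzn) (fun hcon => hyz (hGinj hcon)) hGyz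
    rw [hGsub, cr_smul_right, cr_smul_right] at key
    obtain ⟨k1, k2⟩ := key
    have k1' : cr (u (G y)) (fr b0 b1 b2 (z - y)) = 0 := by
      rcases smul_eq_zero.mp k1 with h3 | h3
      · exact absurd h3 hR.ne'
      · exact h3
    have k2' : cr (u (G z)) (fr b0 b1 b2 (z - y)) = 0 := by
      rcases smul_eq_zero.mp k2 with h3 | h3
      · exact absurd h3 hR.ne'
      · exact h3
    exact ⟨h.cr_zero k1', h.cr_zero k2'⟩

end Pool.Agent.H304

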