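import Pool.Agent.helper304_full.World
import Pool.Agent.helper304_full.S1
import Pool.Agent.helper304_full.S2
import Pool.Agent.helper304_full.S3
import Pool.Agent.helper304_full.S6

set_option autoImplicit false

namespace Pool.Agent.H304

/-- a world with the sharper bounds for the angle is a world -/
theorem GW2.gw {X : Set E} {R : ℝ} {p₀ : E} {T : ℝ} {u : E → E} {c s : E → ℝ} (W : GW2 X R p₀ T u c s) :
    GW X R p₀ T u c s where
  Rpos := W.Rpos
  cov := W.cov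
  fin := W.fin
  unit := W.unit
  cs := W.cs
  ang := fun x hx h => by
    rcases W.ang x hx h with h1 | ⟨h1, h2⟩
    · exact Or.inl h1
    · exact Or.inr ⟨by linarith, by linarith⟩
  rot := W.rot

/-- every point of three-space has a point of the crystalline kernel within `10 ^ 9 * R` -/
theorem kernel_point {X : Set E} {r R : ℝ} (hr : 0 < r)
    (hsep : ∀ x ∈ X, ∀ y ∈ X, x ≠ y → 2 * r ≤ dist x y)
    (hcov : ∀ y : E, ∃ x ∈ X, dist x y ≤ R) (y : E) :
    ∃ x ∈ X, dist x y ≤ 10 ^ 9 * R ∧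
      ∀ A : E ≃ₗᵢ[ℝ] E,
        (∀ v : E, ‖v‖ ≤ 2 * R → (x + v ∈ X ↔ x + A v ∈ X)) →
        LinearMap.det A.toLinearIsometry.toLinearMap = 1 →
        orderOf A ∈ ({1, 2, 3, 4, 6} : Finset ℕ) := by
  by_contra h
  obtain ⟨u, c, s, W⟩ := GW2.of_no_kernel (K := 10 ^ 9 * R) hr hsep hcov y (by
    intro x hx hxy
    by_contra h1
    refine h ⟨x, hx, hxy, fun A hA hdet => ?_⟩
    by_contra h2
    exact h1 ⟨A, hA, hdet, h2⟩)
  have hR := W.Rpos
  obtain ⟨x, hx, y', hy', hxy, hoff, L⟩ := W.gw.minimal (by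
    apply mul_le_mul_of_nonneg_right _ hR.le
    norm_num)
  have hD := L.Dpos
  have hDR := L.DR
  have hD2 : ‖y' - x‖ ≤ 2 * R := by
    by_contra h1
    push Not at h1
    have h2 := C5_lt
    nlinarith
  have key : ∃ q p₀ p₁ : E, ∃ a : ℝ, ‖q - x‖ ≤ 3 * ‖y' - x‖ ∧ a ≤ ‖y' - x‖ ∧ IcoV X q a p₀ p₁ u c s := by
    by_cases hA : cr (u y') (y' - x) = 0
    · obtain ⟨p₀, p₁, hI⟩ := L.icoA2 hx hy' (by rw [sub_self, norm_zero]; linarith) rfl hoff hA
      exact ⟨x, p₀, p₁, ‖y' - x‖, by rw [sub_self, norm_zero]; linarith, le_rfl, hI⟩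
    · exact L.icoB2 hx hy' (by rw [sub_self, norm_zero]; linarith) rfl hoff hA
  obtain ⟨q, p₀, p₁, a, hq, ha, hI⟩ := key
  have h3 : ‖q - y‖ ≤ ‖q - x‖ + ‖x - y‖ := norm_sub_le_norm_sub_add_norm_sub q x y
  obtain ⟨X', u', c', s', q', W'⟩ := W.iw L hI hq ha (by nlinarith)
  exact W'.false

end Pool.Agent.H304
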