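import Pool.Agent.helper304_full.GeoDefs

set_option autoImplicit false

set_option maxRecDepth 100000
set_option exponentiation.threshold 100000

namespace Pool.Agent.H304

end Pool.Agent.H304

namespace Pool.Agent.H304.K

theorem a1_step {InX : E → Prop} {z u : E} {c s lam S tt : ℝ} (G : Geo InX z u c s lam S tt)
    {e : ℝ} (he : e = s ∨ e = -s) {w : E} (hx : InX (z + w)) (hr : lam ^ 2 * dt w w ≤ 4) :
    InX (z + H304.rot u c e w) ∧
      lam ^ 2 * dt (H304.rot u c e w) (H304.rot u c e w) ≤ 4 := by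
  have hw : z + w - z = w := by abel
  have h1 := G.rot (z + w) hx (by rw [hw]; exact hr)
  rw [hw] at h1
  have hce : c ^ 2 + e ^ 2 = 1 := by
    rcases he with rfl | rfl
    · exact G.cs
    · have := G.cs
      linear_combination this
  refine ⟨?_, ?_⟩
  · rcases he with rfl | rfl
    · exact h1.1
    · exact h1.2
  · rw [dt_rot_rot G.unit hce]
    exact hr

theorem a1_three {InX : E → Prop} {z u : E} {c s lam S tt : ℝ} (G : Geo InX z u c s lam S tt)
    {e : ℝ} (he : e = s ∨ e = -s) {x : E} (hx : InX x) (hr : lam ^ 2 * dt (x - z) (x - z) ≤ 4) :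
    InX (z + H304.rot u c e (x - z)) ∧
    InX (z + H304.rot u (c ^ 2 - e ^ 2) (2 * c * e) (x - z)) ∧
    InX (z + H304.rot u (c * (c ^ 2 - e ^ 2) - e * (2 * c * e))
      (e * (c ^ 2 - e ^ 2) + c * (2 * c * e)) (x - z)) := by
  have hx0 : InX (z + (x - z)) := by
    have : z + (x - z) = x := by abel
    rw [this]
    exact hx
  obtain ⟨h1, r1⟩ := a1_step G he hx0 hr
  obtain ⟨h2, r2⟩ := a1_step G he h1 r1
  obtain ⟨h3, r3⟩ := a1_step G he h2 r2
  rw [rot_rot G.unit] at h2 h3
  rw [rot_rot G.unit] at h3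
  refine ⟨h1, ?_, ?_⟩
  · have e1 : c * c - e * e = c ^ 2 - e ^ 2 := by ring
    have e2 : c * e + e * c = 2 * c * e := by ring
    rw [e1, e2] at h2
    exact h2
  · have e1 : (c * c - e * e) * c - (c * e + e * c) * e =
        c * (c ^ 2 - e ^ 2) - e * (2 * c * e) := by ring
    have e2 : (c * c - e * e) * e + (c * e + e * c) * c =
        e * (c ^ 2 - e ^ 2) + c * (2 * c * e) := by ring
    rw [e1, e2] at h3
    exact h3

theorem Geo.img {InX : E → Prop} {z u : E} {c s lam S tt : ℝ} (G : Geo InX z u c s lam S tt) {x : E} (hx : InX x)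
    (hr : lam ^ 2 * dt (x - z) (x - z) ≤ 4) (j : ℕ) : InX (z + H304.rot u (pc c s j) (ps c s j) (x - z)) := by
  by_cases hj : j % 2 = 0
  · obtain ⟨h1, h2, h3⟩ := a1_three G (Or.inl rfl) hx hr
    by_cases h4 : j ≤ 1
    · have e1 : pc c s j = c := by simp only [pc, if_pos h4]
      have e2 : ps c s j = s := by simp only [ps, if_pos h4, if_pos hj, one_mul]
      rw [e1, e2]
      exact h1
    · by_cases h5 : j ≤ 3
      · have e1 : pc c s j = c ^ 2 - s ^ 2 := by simp only [pc, if_neg h4, if_pos h5]
        have e2 : ps c s j = 2 * c * s := by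
          simp only [ps, if_neg h4, if_pos h5, if_pos hj, one_mul]
        rw [e1, e2]
        exact h2
      · have e1 : pc c s j = c * (c ^ 2 - s ^ 2) - s * (2 * c * s) := by
          simp only [pc, if_neg h4, if_neg h5]
        have e2 : ps c s j = s * (c ^ 2 - s ^ 2) + c * (2 * c * s) := by
          simp only [ps, if_neg h4, if_neg h5, if_pos hj, one_mul]
        rw [e1, e2]
        exact h3
  · obtain ⟨h1, h2, h3⟩ := a1_three G (Or.inr rfl) hx hr
    by_cases h4 : j ≤ 1
    · have e1 : pc c s j = c := by simp only [pc, if_pos h4]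
      have e2 : ps c s j = -s := by
        simp only [ps, if_pos h4, if_neg hj]
        ring
      rw [e1, e2]
      exact h1
    · by_cases h5 : j ≤ 3
      · have e1 : pc c s j = c ^ 2 - (-s) ^ 2 := by
          simp only [pc, if_neg h4, if_pos h5]
          ring
        have e2 : ps c s j = 2 * c * -s := by
          simp only [ps, if_neg h4, if_pos h5, if_neg hj]
          ring
        rw [e1, e2]
        exact h2
      · have e1 : pc c s j = c * (c ^ 2 - (-s) ^ 2) - -s * (2 * c * -s) := by
          simp only [pc, if_neg h4, if_neg h5]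
          ring
        have e2 : ps c s j = -s * (c ^ 2 - (-s) ^ 2) + c * (2 * c * -s) := by
          simp only [ps, if_neg h4, if_neg h5, if_neg hj]
          ring
        rw [e1, e2]
        exact h3

theorem pcs {c s : ℝ} (h : c ^ 2 + s ^ 2 = 1) (j : ℕ) : pc c s j ^ 2 + ps c s j ^ 2 = 1 := by
  have h2 : (c ^ 2 - s ^ 2) ^ 2 + (2 * c * s) ^ 2 = 1 := by
    linear_combination (c ^ 2 + s ^ 2 + 1) * h
  have h3 : (c * (c ^ 2 - s ^ 2) - s * (2 * c * s)) ^ 2 +
      (s * (c ^ 2 - s ^ 2) + c * (2 * c * s)) ^ 2 = 1 := by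
    linear_combination (c ^ 2 + s ^ 2) * h2 + h
  have hs : ((if j % 2 = 0 then 1 else -1 : ℝ)) ^ 2 = 1 := by
    split_ifs <;> norm_num
  unfold pc ps
  rw [mul_pow, hs, one_mul]
  split_ifs
  · exact h
  · exact h2
  · exact h3

theorem Geo.neg {InX : E → Prop} {z u : E} {c s lam S tt : ℝ} (G : Geo InX z u c s lam S tt) : Geo InX z (-u) c s lam S tt :=
  { G with
    unit := by rw [dt_neg_left, dt_neg_right, neg_neg]; exact G.unit
    off := by rw [cr_neg_left]; exact neg_ne_zero.2 G.off
    rot := by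
      intro x hx hr
      rw [rot_neg_axis, rot_neg_axis, neg_neg]
      exact (G.rot x hx hr).symm }

theorem Geo.negs {InX : E → Prop} {z u : E} {c s lam S tt : ℝ} (G : Geo InX z u c s lam S tt) : Geo InX z u c (-s) lam S tt :=
  { G with
    cs := by have := G.cs; linear_combination this
    rot := by
      intro x hx hr
      rw [neg_neg]
      exact (G.rot x hx hr).symm }

end Pool.Agent.H304.K

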