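import Pool.Agent.helper304_full.GeoDefs
import Pool.Agent.helper304_full.A1

set_option autoImplicit false

set_option maxRecDepth 100000
set_option exponentiation.threshold 100000

namespace Pool.Agent.H304

end Pool.Agent.H304

namespace Pool.Agent.H304.K

theorem a2_key {c s : ℝ} (h : c ^ 2 + s ^ 2 = 1) (hm : (c = C5 ∧ s = S5) ∨ (0.6233 ≤ c ∧ c ≤ 0.9012)) :
    s ≠ 0 ∧ c ≠ 0 ∧ c ≠ c ^ 2 - s ^ 2 ∧ c ≠ 1 ∧ c ^ 2 - s ^ 2 ≠ 1 := by
  have hs2 : s ^ 2 = 1 - c ^ 2 := by linarith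
  have hc0 : 0.3 < c := by
    rcases hm with ⟨h1, _⟩ | ⟨h1, _⟩
    · rw [h1]; have := C5_gt; linarith
    · linarith
  have hc1 : c < 0.91 := by
    rcases hm with ⟨h1, _⟩ | ⟨_, h1⟩
    · rw [h1]; have := C5_lt; linarith
    · linarith
  have hs : s ≠ 0 := by
    rintro rfl
    nlinarith
  refine ⟨hs, by linarith, ?_, by linarith, ?_⟩
  · intro e
    have : (c - 1) * (2 * c + 1) = 0 := by rw [hs2] at e; linear_combination -e
    rcases mul_eq_zero.mp this with h1 | h1 <;> linarith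
  · intro e
    have : s ^ 2 = 0 := by rw [hs2] at e; nlinarith
    exact hs (by simpa using this)

theorem a2_key6 {c s : ℝ} (h : c ^ 2 + s ^ 2 = 1) (h1 : 0.6233 ≤ c) (h2 : c ≤ 0.9012) :
    c ≠ c * (c ^ 2 - s ^ 2) - s * (2 * c * s) ∧
    c ^ 2 - s ^ 2 ≠ c * (c ^ 2 - s ^ 2) - s * (2 * c * s) ∧
    s * (c ^ 2 - s ^ 2) + c * (2 * c * s) ≠ 0 ∧
    c * (c ^ 2 - s ^ 2) - s * (2 * c * s) ≠ 1 := by
  obtain ⟨k1, k2, k3, k4, k5⟩ := a2_key h (Or.inr ⟨h1, h2⟩)
  have hs2 : s ^ 2 = 1 - c ^ 2 := by linarith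
  have e3 : c * (c ^ 2 - s ^ 2) - s * (2 * c * s) = 4 * c ^ 3 - 3 * c := by
    linear_combination (-3 * c) * hs2
  have e3' : s * (c ^ 2 - s ^ 2) + c * (2 * c * s) = s * (4 * c ^ 2 - 1) := by
    linear_combination (-s) * hs2
  have e2 : c ^ 2 - s ^ 2 = 2 * c ^ 2 - 1 := by linear_combination - hs2
  rw [e3, e3', e2]
  refine ⟨?_, ?_, ?_, ?_⟩
  · intro e
    have : c * ((c - 1) * (c + 1)) = 0 := by linear_combination (-1 / 4) * e
    rcases mul_eq_zero.mp this with h3 | h3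
    · linarith
    · rcases mul_eq_zero.mp h3 with h3 | h3 <;> linarith
  · intro e
    have : (c - 1) * (4 * c ^ 2 + 2 * c - 1) = 0 := by linear_combination -e
    rcases mul_eq_zero.mp this with h3 | h3
    · linarith
    · nlinarith
  · intro e
    rcases mul_eq_zero.mp e with h3 | h3
    · exact k1 h3
    · nlinarith
  · intro e
    have : (c - 1) * (2 * c + 1) ^ 2 = 0 := by linear_combination e
    rcases mul_eq_zero.mp this with h3 | h3
    · linarith
    · have : 0 < 2 * c + 1 := by linarith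
      have : 0 < (2 * c + 1) ^ 2 := by positivity
      linarith

theorem pc_ps_inj {c s : ℝ} (h : c ^ 2 + s ^ 2 = 1) {jm : ℕ} (hm : jm = 4 ∧ c = C5 ∧ s = S5 ∨ jm = 6 ∧ 0.6233 ≤ c ∧ c ≤ 0.9012)
    {i j : ℕ} (hi : i < jm) (hj : j < jm) (h1 : pc c s i = pc c s j) (h2 : ps c s i = ps c s j) : i = j := by
  rcases hm with ⟨rfl, hc, hs⟩ | ⟨rfl, hc, hc'⟩
  · obtain ⟨k1, k2, k3, k4, k5⟩ := a2_key h (Or.inl ⟨hc, hs⟩)
    have k6 : 2 * c * s ≠ 0 := mul_ne_zero (mul_ne_zero two_ne_zero k2) k1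
    clear hc hs
    interval_cases i <;> interval_cases j <;> first
      | rfl
      | (exfalso; norm_num [pc, ps] at h1 h2; first
          | exact k3 h1
          | exact k3 h1.symm
          | exact k1 (by linarith)
          | exact k6 (by linarith))
  · obtain ⟨k1, k2, k3, k4, k5⟩ := a2_key h (Or.inr ⟨hc, hc'⟩)
    obtain ⟨m1, m2, m3, m4⟩ := a2_key6 h hc hc'
    have k6 : 2 * c * s ≠ 0 := mul_ne_zero (mul_ne_zero two_ne_zero k2) k1
    interval_cases i <;> interval_cases j <;> first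
      | rfl
      | (exfalso; simp only [pc, ps] at h1 h2; norm_num at h1 h2; first
          | exact k3 h1
          | exact k3 h1.symm
          | exact m1 h1
          | exact m1 h1.symm
          | exact m2 h1
          | exact m2 h1.symm
          | exact k1 (by linarith)
          | exact k6 (by linarith)
          | exact m3 (by linarith))

theorem pc_ne_one {c s : ℝ} (h : c ^ 2 + s ^ 2 = 1) {jm : ℕ} (hm : jm = 4 ∧ c = C5 ∧ s = S5 ∨ jm = 6 ∧ 0.6233 ≤ c ∧ c ≤ 0.9012)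
    {i : ℕ} (hi : i < jm) : pc c s i ≠ 1 := by
  rcases hm with ⟨rfl, hc, hs⟩ | ⟨rfl, hc, hc'⟩
  · obtain ⟨k1, k2, k3, k4, k5⟩ := a2_key h (Or.inl ⟨hc, hs⟩)
    clear hc hs
    interval_cases i <;> simp only [pc] <;> norm_num <;> first
      | exact k4
      | exact k5
  · obtain ⟨k1, k2, k3, k4, k5⟩ := a2_key h (Or.inr ⟨hc, hc'⟩)
    obtain ⟨m1, m2, m3, m4⟩ := a2_key6 h hc hc'
    interval_cases i <;> simp only [pc] <;> norm_num <;> first
      | exact k4
      | exact k5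
      | exact m4

end Pool.Agent.H304.K

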