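import Pool.Agent.helper304_full.GeoDefs

set_option autoImplicit false

set_option maxRecDepth 100000
set_option exponentiation.threshold 100000

namespace Pool.Agent.H304

end Pool.Agent.H304

namespace Pool.Agent.H304.K

lemma a3_ff {f : E} (hf : IsFace f) : dt f f = 3 := by
  have hp := ph_sq
  rcases hf with ⟨σ, τ, ρ, hσ, hτ, hρ, rfl⟩ | ⟨σ, τ, hσ, hτ, h⟩
  · rcases hσ with rfl | rfl <;> rcases hτ with rfl | rfl <;> rcases hρ with rfl | rfl <;>
      simp [dt] <;> norm_num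
  · rcases h with rfl | rfl | rfl <;> rcases hσ with rfl | rfl <;> rcases hτ with rfl | rfl <;>
      simp [dt] <;> linear_combination 2 * hp

lemma a3_f0 : dt f0 f0 = 3 := by
  have hp := ph_sq
  simp [dt, f0]
  linear_combination 2 * hp

lemma a3_exp (y f : E) (t : ℝ) (h : dt f f = 3) :
    dt (y - t • f) (y - t • f) = dt y y - 2 * t * dt y f + 3 * t ^ 2 := by
  rw [dt_sub_left, dt_sub_right, dt_sub_right, dt_smul_left, dt_smul_right, dt_smul_right,
    dt_smul_left, dt_comm f y, h]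
  ring

theorem Geo.lev1 {InX : E → Prop} {z u : E} {c s lam S tt : ℝ} (G : Geo InX z u c s lam S tt) {y f : E} (hf : IsFace f)
    {Sb : ℝ} (hS : S ≤ Sb) (hE : dt y y < dt z z) (h : 0 < dt z z - dt y y + 2 * Sb * (dt y f - dt z f0)) : Lev S lam y := by
  refine ⟨f, hf, S, G.S0, le_rfl, ?_⟩
  have hd := G.dle
  rw [a3_exp z f0 S a3_f0] at hd
  rw [a3_exp y f S (a3_ff hf)]
  have hl : 0 < lam ^ 2 := by have := G.lampos; positivity
  have h0 := G.S0
  have key : dt y y - 2 * S * dt y f + 3 * S ^ 2 < dt z z - 2 * S * dt z f0 + 3 * S ^ 2 := by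
    rcases le_total 0 (dt y f - dt z f0) with hB | hB
    · nlinarith [mul_nonneg h0 hB]
    · nlinarith [mul_le_mul_of_nonpos_right hS hB]
  exact lt_of_lt_of_le (mul_lt_mul_of_pos_left key hl) hd

theorem Geo.lev2 {InX : E → Prop} {z u : E} {c s lam S tt : ℝ} (G : Geo InX z u c s lam S tt) {y f : E} (hf : IsFace f)
    {κ σ : ℝ} (hκ : lam ^ 2 * κ ≤ 1) (hσ : 0 ≤ σ) (hE : dt y y < dt z z) (hc : 0 ≤ dt z z + 3 * σ ^ 2 - κ - 2 * σ * dt z f0)
    (h : 0 < dt z z - dt y y + 2 * σ * dt y f - (dt z z + 3 * σ ^ 2 - κ)) : Lev S lam y := by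
  have hl : 0 < lam ^ 2 := by have := G.lampos; positivity
  have h0 := G.S0
  rcases le_total σ S with hσS | hσS
  · refine ⟨f, hf, σ, hσ, hσS, ?_⟩
    rw [a3_exp y f σ (a3_ff hf)]
    have key : dt y y - 2 * σ * dt y f + 3 * σ ^ 2 < κ := by nlinarith
    exact lt_of_lt_of_le (mul_lt_mul_of_pos_left key hl) hκ
  · refine Geo.lev1 G hf hσS hE ?_
    nlinarith

theorem Geo.onStar {InX : E → Prop} {z u : E} {c s lam S tt : ℝ} (G : Geo InX z u c s lam S tt) {y : E} (hy : InX y)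
    (hE : dt y y < dt z z) (h : Lev S lam y) : OnStar y := by
  exact G.good y hy hE h

theorem Geo.sb {InX : E → Prop} {z u : E} {c s lam S tt : ℝ} (G : Geo InX z u c s lam S tt) {κ Sb : ℝ} (hκ : lam ^ 2 * κ ≤ 1) (hSb : 0 ≤ Sb)
    (h : dt z z - 2 * Sb * dt z f0 + 3 * Sb ^ 2 < κ ∨ dt z f0 ≤ 3 * Sb) : S ≤ Sb := by
  have hl : 0 < lam ^ 2 := by have := G.lampos; positivity
  have h0 := G.S0
  have hSa := G.Sa
  rcases h with h | h
  · by_contra hlt
    push Not at hlt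
    have hSpos : 0 < S := lt_of_le_of_lt hSb hlt
    have hd : lam ^ 2 * dt (z - S • f0) (z - S • f0) = 1 := by
      rcases G.deq with h1 | h1
      · exact absurd h1 hSpos.ne'
      · exact h1
    rw [a3_exp z f0 S a3_f0] at hd
    have h1 : κ ≤ dt z z - 2 * S * dt z f0 + 3 * S ^ 2 := by
      have : lam ^ 2 * κ ≤ lam ^ 2 * (dt z z - 2 * S * dt z f0 + 3 * S ^ 2) := by rw [hd]; exact hκ
      exact le_of_mul_le_mul_left this hl
    nlinarith [mul_pos (sub_pos.2 hlt) hSpos, mul_nonneg (sub_pos.2 hlt).le hSb,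
      mul_le_mul_of_nonneg_left hSa (sub_pos.2 hlt).le]
  · linarith

end Pool.Agent.H304.K

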