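import Pool.Agent.helper304_full.GeoDefs

set_option autoImplicit false

set_option maxRecDepth 100000
set_option exponentiation.threshold 100000

namespace Pool.Agent.H304

end Pool.Agent.H304

namespace Pool.Agent.H304.K

lemma a4_f0 : dt f0 f0 = 3 := by
  have h := ph_sq
  simp [dt, f0]
  linear_combination 2 * h

lemma a4_exp (z : E) (S : ℝ) : dt (z - S • f0) (z - S • f0) = dt z z - 2 * S * dt z f0 + 3 * S ^ 2 := by
  rw [dt_sub_left, dt_sub_right, dt_sub_right, dt_smul_left, dt_smul_left, dt_smul_right, dt_smul_right, a4_f0,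
    dt_comm f0 z]
  ring

lemma a4_cs (z : E) : dt z f0 ^ 2 ≤ 3 * dt z z := by
  have h := a4_exp z (dt z f0 / 3)
  have h2 := dt_self_nonneg (z - (dt z f0 / 3) • f0)
  rw [h] at h2
  nlinarith

theorem Geo.lamA {InX : E → Prop} {z u : E} {c s lam S tt : ℝ} (G : Geo InX z u c s lam S tt) {l : ℝ} (hl : 0 < l)
    (h1 : 3 * 0.9515 ≤ l * dt z f0) (h2 : 0 ≤ l ^ 2 * dt z z - 2 * l * 0.9515 * dt z f0 + 3 * 0.9515 ^ 2 - 1) : lam ≤ l := by
  by_contra hc
  push Not at hc
  have hd := G.dle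
  rw [a4_exp] at hd
  have hcs := a4_cs z
  have hSM := G.SM
  have hS0 := G.S0
  have hlam := G.lampos
  generalize dt z f0 = a at *
  generalize dt z z = n at *
  have ha : 0 < a := by
    by_contra h
    push Not at h
    nlinarith
  have hn : 0 < n := by nlinarith [mul_pos ha ha]
  obtain ⟨t, ht⟩ : ∃ t, t = lam * S := ⟨_, rfl⟩
  rw [← ht] at hSM
  have ht0 : 0 ≤ t := by rw [ht]; positivity
  have e1 : lam ^ 2 * (n - 2 * S * a + 3 * S ^ 2) = lam ^ 2 * n - 2 * t * (lam * a) + 3 * t ^ 2 := by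
    rw [ht]; ring
  rw [e1] at hd
  have h3 : l * a ≤ lam * a := by nlinarith
  have h4 : 0 ≤ (0.9515 - t) * (2 * (lam * a) - 3 * (0.9515 + t)) := by
    apply mul_nonneg <;> linarith
  have h5 : 2 * 0.9515 * a ≤ 2 * l * a ^ 2 / 3 := by nlinarith
  have h6 : 2 * l * a ^ 2 / 3 ≤ 2 * l * n := by nlinarith
  have h7 : 0 < (lam - l) * ((lam + l) * n - 2 * 0.9515 * a) := by
    apply mul_pos (by linarith)
    nlinarith
  nlinarith

theorem Geo.lamB {InX : E → Prop} {z u : E} {c s lam S tt : ℝ} (G : Geo InX z u c s lam S tt) {l : ℝ} (hl : 0 < l)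
    (h : 1 ≤ l ^ 2 * (dt z z - dt z f0 ^ 2 / 3)) : lam ≤ l := by
  by_contra hc
  push Not at hc
  have hd := G.dle
  rw [a4_exp] at hd
  have hlam := G.lampos
  generalize dt z f0 = a at *
  generalize dt z z = n at *
  have h1 : 0 < n - a ^ 2 / 3 := by
    by_contra h'
    push Not at h'
    nlinarith [mul_pos hl hl]
  have h2 : n - a ^ 2 / 3 ≤ n - 2 * S * a + 3 * S ^ 2 := by nlinarith [sq_nonneg (S - a / 3)]
  have h3 : lam ^ 2 * (n - a ^ 2 / 3) ≤ lam ^ 2 * (n - 2 * S * a + 3 * S ^ 2) := by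
    apply mul_le_mul_of_nonneg_left h2 (by positivity)
  have h4 : l ^ 2 < lam ^ 2 := by nlinarith
  have h5 : l ^ 2 * (n - a ^ 2 / 3) < lam ^ 2 * (n - a ^ 2 / 3) := by
    apply mul_lt_mul_of_pos_right h4 h1
  linarith

end Pool.Agent.H304.K

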