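import Pool.Agent.helper304_full.RepDefs

set_option autoImplicit false

set_option maxRecDepth 100000
set_option exponentiation.threshold 100000

namespace Pool.Agent.H304.K

theorem k1_of_eq {a b n : ℤ} (h : a = b) : a ≡ b [ZMOD n] := h ▸ Int.ModEq.refl a

theorem k1_MM : MM = 2 ^ 18480 := by decide +kernel

theorem k1_MK : MK = 2 ^ 18480 - 1 := by decide +kernel

theorem k1_Y3 : Y3 = 2 ^ 528 := by decide +kernel

theorem k1_cast_shift (c h p : ℕ) :
    ((Nat.add c (Nat.shiftLeft h p) : ℕ) : ℤ) = (c : ℤ) + (h : ℤ) * 2 ^ p := by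
  have e : Nat.shiftLeft h p = h * 2 ^ p := Nat.shiftLeft_eq h p
  rw [Nat.add_eq, e]
  push_cast
  rfl

theorem k1_shift (c h p : ℕ) :
    Nat.add c (Nat.shiftLeft h p) = c + h * 2 ^ p := by
  have e : Nat.shiftLeft h p = h * 2 ^ p := Nat.shiftLeft_eq h p
  rw [Nat.add_eq, e]

/-- data with at most one linear symbol and a remainder -/
theorem k1_mk (ε : Fin 6 → ℝ) (i : Fin 6) (c : ℤ) (h : ℕ) (a d n m : ℕ) (ρ x b : ℝ)
    (hx : x = (c : ℝ) + (h : ℝ) * ε i + ρ)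
    (hn : (n : ℤ) ≡ c + (h : ℤ) * 2 ^ (176 * posn i) [ZMOD 2 ^ 18480])
    (hm : m = a + h * 2 ^ 176 + d * 2 ^ 528)
    (hc : |c| ≤ (a : ℤ)) (hρ : |ρ| ≤ (d : ℝ)) (hb : (a : ℝ) + h + d ≤ b) :
    Rep ε b ⟨n, m⟩ x := by
  classical
  refine ⟨c, Pi.single i (h : ℤ), fun _ _ => 0, ρ,
    Polynomial.C a + Polynomial.C h * Polynomial.X + Polynomial.C d * Polynomial.X ^ 3, ?_, ?_, ?_, ?_, ?_, ?_, ?_, ?_⟩
  · rw [hx]
    have e1 : ∑ j, ((Pi.single i (h : ℤ) : Fin 6 → ℤ) j : ℝ) * ε j = (h : ℝ) * ε i := by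
      rw [Finset.sum_eq_single i]
      · rw [Pi.single_eq_same]; norm_cast
      · intro j _ hj
        rw [Pi.single_eq_of_ne hj]; simp
      · intro hh; exact absurd (Finset.mem_univ i) hh
    rw [e1]
    have e2 : ∑ i : Fin 6, ∑ j : Fin 6, (((0 : ℤ)) : ℝ) * (ε i * ε j) = 0 := by
      apply Finset.sum_eq_zero; intro i _; apply Finset.sum_eq_zero; intro j _; simp
    rw [e2]; ring
  · have e1 : ∑ j, (Pi.single i (h : ℤ) : Fin 6 → ℤ) j * 2 ^ (176 * posn j) = (h : ℤ) * 2 ^ (176 * posn i) := by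
      rw [Finset.sum_eq_single i]
      · rw [Pi.single_eq_same]
      · intro j _ hj
        rw [Pi.single_eq_of_ne hj]; simp only [zero_mul]
      · intro hh; exact absurd (Finset.mem_univ i) hh
    have e2 : ∑ i : Fin 6, ∑ j : Fin 6, (0 : ℤ) * 2 ^ (176 * (posn i + posn j)) = 0 := by
      apply Finset.sum_eq_zero; intro i _; apply Finset.sum_eq_zero; intro j _; simp only [zero_mul]
    rw [e1, e2, add_zero]
    exact hn
  · show m = _
    rw [hm, Polynomial.eval_add, Polynomial.eval_add, Polynomial.eval_mul, Polynomial.eval_mul,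
      Polynomial.eval_pow, Polynomial.eval_C, Polynomial.eval_C, Polynomial.eval_C, Polynomial.eval_X,
      ← pow_mul]
  · have : (Polynomial.C a + Polynomial.C h * Polynomial.X + Polynomial.C d * Polynomial.X ^ 3 : Polynomial ℕ).coeff 0 = a := by
      simp [Polynomial.coeff_X_pow]
    rw [this]; exact hc
  · have : (Polynomial.C a + Polynomial.C h * Polynomial.X + Polynomial.C d * Polynomial.X ^ 3 : Polynomial ℕ).coeff 1 = h := by
      simp [Polynomial.coeff_X_pow]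
    rw [this]
    have e1 : ∑ j, |(Pi.single i (h : ℤ) : Fin 6 → ℤ) j| = (h : ℤ) := by
      rw [Finset.sum_eq_single i]
      · rw [Pi.single_eq_same]; exact abs_of_nonneg (by positivity)
      · intro j _ hj
        rw [Pi.single_eq_of_ne hj]; simp
      · intro hh; exact absurd (Finset.mem_univ i) hh
    rw [e1]
  · simp
  · have h0 : (Polynomial.C a + Polynomial.C h * Polynomial.X + Polynomial.C d * Polynomial.X ^ 3 : Polynomial ℕ).coeff 0 = a := by
      simp [Polynomial.coeff_X_pow]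
    have h1 : (Polynomial.C a + Polynomial.C h * Polynomial.X + Polynomial.C d * Polynomial.X ^ 3 : Polynomial ℕ).coeff 1 = h := by
      simp [Polynomial.coeff_X_pow]
    have h2 : (Polynomial.C a + Polynomial.C h * Polynomial.X + Polynomial.C d * Polynomial.X ^ 3 : Polynomial ℕ).coeff 2 = 0 := by
      simp [Polynomial.coeff_X_pow]
    rw [h0, h1, h2]
    have he : (Polynomial.C a + Polynomial.C h * Polynomial.X + Polynomial.C d * Polynomial.X ^ 3 : Polynomial ℕ).eval 1 = a + h + d := by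
      simp
    rw [he]
    push_cast
    linarith
  · have he : (Polynomial.C a + Polynomial.C h * Polynomial.X + Polynomial.C d * Polynomial.X ^ 3 : Polynomial ℕ).eval 1 = a + h + d := by
      simp
    rw [he]
    push_cast
    exact hb

/-- the combination rule: `p + q` or `p - q` (sign `s = 1` or `s = -1`) -/
theorem k1_comb {ε : Fin 6 → ℝ} {b b' : ℝ} {p q : P} {x y : ℝ} (s : ℤ) (hs : |s| = 1)
    (n : ℕ) (hn : (n : ℤ) ≡ (p.n : ℤ) + s * (q.n : ℤ) [ZMOD 2 ^ 18480])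
    (h : Rep ε b p x) (h' : Rep ε b' q y) :
    Rep ε (b + b') ⟨n, p.m + q.m⟩ (x + s * y) := by
  obtain ⟨c, k, r, ρ, g, hx, hpn, hpm, hc, hk, hr, hρ, hb⟩ := h
  obtain ⟨c', k', r', ρ', g', hx', hpn', hpm', hc', hk', hr', hρ', hb'⟩ := h'
  have hsR : |(s : ℝ)| = 1 := by exact_mod_cast hs
  refine ⟨c + s * c', fun i => k i + s * k' i, fun i j => r i j + s * r' i j, ρ + s * ρ', g + g', ?_, ?_, ?_, ?_, ?_, ?_, ?_, ?_⟩
  · rw [hx, hx']
    push_cast
    have e1 : ∑ i, ((k i : ℝ) + s * (k' i : ℝ)) * ε i = ∑ i, (k i : ℝ) * ε i + s * ∑ i, (k' i : ℝ) * ε i := by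
      rw [Finset.mul_sum, ← Finset.sum_add_distrib]
      apply Finset.sum_congr rfl; intro i _; ring
    have e2 : ∑ i, ∑ j, ((r i j : ℝ) + s * (r' i j : ℝ)) * (ε i * ε j)
        = ∑ i, ∑ j, (r i j : ℝ) * (ε i * ε j) + s * ∑ i, ∑ j, (r' i j : ℝ) * (ε i * ε j) := by
      rw [Finset.mul_sum, ← Finset.sum_add_distrib]
      apply Finset.sum_congr rfl; intro i _
      rw [Finset.mul_sum, ← Finset.sum_add_distrib]
      apply Finset.sum_congr rfl; intro j _; ring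
    rw [e1, e2]; ring
  · have e1 : ∑ i, (k i + s * k' i) * 2 ^ (176 * posn i)
        = ∑ i, k i * 2 ^ (176 * posn i) + s * ∑ i, k' i * 2 ^ (176 * posn i) := by
      rw [Finset.mul_sum, ← Finset.sum_add_distrib]
      apply Finset.sum_congr rfl; intro i _
      generalize (2 : ℤ) ^ (176 * posn i) = w
      ring
    have e2 : ∑ i, ∑ j, (r i j + s * r' i j) * 2 ^ (176 * (posn i + posn j))
        = ∑ i, ∑ j, r i j * 2 ^ (176 * (posn i + posn j)) + s * ∑ i, ∑ j, r' i j * 2 ^ (176 * (posn i + posn j)) := by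
      rw [Finset.mul_sum, ← Finset.sum_add_distrib]
      apply Finset.sum_congr rfl; intro i _
      rw [Finset.mul_sum, ← Finset.sum_add_distrib]
      apply Finset.sum_congr rfl; intro j _
      generalize (2 : ℤ) ^ (176 * (posn i + posn j)) = w
      ring
    rw [e1, e2]
    refine hn.trans ?_
    refine (Int.ModEq.add hpn (hpn'.mul_left s)).trans ?_
    apply k1_of_eq
    generalize (∑ i, k i * 2 ^ (176 * posn i)) = A1
    generalize (∑ i, k' i * 2 ^ (176 * posn i)) = A2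
    generalize (∑ i, ∑ j, r i j * 2 ^ (176 * (posn i + posn j))) = A3
    generalize (∑ i, ∑ j, r' i j * 2 ^ (176 * (posn i + posn j))) = A4
    ring
  · show p.m + q.m = _
    rw [Polynomial.eval_add, hpm, hpm']
  · rw [Polynomial.coeff_add]
    push_cast
    calc |c + s * c'| ≤ |c| + |s * c'| := abs_add_le _ _
      _ = |c| + |c'| := by rw [abs_mul, hs, one_mul]
      _ ≤ _ := by linarith
  · rw [Polynomial.coeff_add]
    push_cast
    calc ∑ i, |k i + s * k' i| ≤ ∑ i, (|k i| + |k' i|) := by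
          apply Finset.sum_le_sum; intro i _
          calc |k i + s * k' i| ≤ |k i| + |s * k' i| := abs_add_le _ _
            _ = |k i| + |k' i| := by rw [abs_mul, hs, one_mul]
      _ = ∑ i, |k i| + ∑ i, |k' i| := Finset.sum_add_distrib
      _ ≤ _ := by linarith
  · rw [Polynomial.coeff_add]
    push_cast
    calc ∑ i, ∑ j, |r i j + s * r' i j| ≤ ∑ i, ∑ j, (|r i j| + |r' i j|) := by
          apply Finset.sum_le_sum; intro i _
          apply Finset.sum_le_sum; intro j _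
          calc |r i j + s * r' i j| ≤ |r i j| + |s * r' i j| := abs_add_le _ _
            _ = |r i j| + |r' i j| := by rw [abs_mul, hs, one_mul]
      _ = ∑ i, ∑ j, |r i j| + ∑ i, ∑ j, |r' i j| := by
          rw [← Finset.sum_add_distrib]
          apply Finset.sum_congr rfl; intro i _
          exact Finset.sum_add_distrib
      _ ≤ _ := by linarith
  · rw [Polynomial.coeff_add, Polynomial.coeff_add, Polynomial.coeff_add, Polynomial.eval_add]
    push_cast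
    have : |ρ + s * ρ'| ≤ |ρ| + |ρ'| := by
      calc |ρ + s * ρ'| ≤ |ρ| + |s * ρ'| := abs_add_le _ _
        _ = |ρ| + |ρ'| := by rw [abs_mul, hsR, one_mul]
    linarith
  · rw [Polynomial.eval_add]
    push_cast
    linarith

theorem k1_sub_n (a b : ℕ) :
    ((Nat.add a (Nat.sub MM (Nat.land b MK)) : ℕ) : ℤ) ≡ (a : ℤ) + (-1) * (b : ℤ) [ZMOD 2 ^ 18480] := by
  have e : Nat.land b MK = b % 2 ^ 18480 := by
    rw [k1_MK]
    exact Nat.and_two_pow_sub_one_eq_mod b 18480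
  have e' : Nat.add a (Nat.sub MM (Nat.land b MK)) = a + (2 ^ 18480 - b % 2 ^ 18480) := by
    rw [e, k1_MM]; rfl
  rw [e']
  have hpos : 0 < (2 : ℕ) ^ 18480 := Nat.pow_pos (by norm_num)
  have hcast : ((2 ^ 18480 : ℕ) : ℤ) = 2 ^ 18480 := Nat.cast_pow 2 18480
  generalize hM : (2 : ℤ) ^ 18480 = Mz at *
  generalize hN : (2 : ℕ) ^ 18480 = Mn at *
  have hlt : b % Mn < Mn := Nat.mod_lt _ hpos
  have hsub : ((a + (Mn - b % Mn) : ℕ) : ℤ) = (a : ℤ) + ((Mn : ℤ) - ((b % Mn : ℕ) : ℤ)) := by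
    rw [Nat.cast_add, Nat.cast_sub hlt.le]
  rw [hsub, Int.natCast_mod, hcast]
  have h1 : (b : ℤ) % Mz ≡ (b : ℤ) [ZMOD Mz] := Int.mod_modEq _ _
  have h2 : Mz ≡ 0 [ZMOD Mz] := by
    rw [Int.modEq_zero_iff_dvd]
  have h3 := (Int.ModEq.sub h2 h1).add_left (a : ℤ)
  have h4 : (a : ℤ) + (0 - (b : ℤ)) = (a : ℤ) + (-1) * (b : ℤ) := by ring
  rw [h4] at h3
  exact h3

theorem Rep.mono {ε : Fin 6 → ℝ} {b b' : ℝ} {p : P} {x : ℝ} (h : Rep ε b p x) (hb : b ≤ b') : Rep ε b' p x := by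
  obtain ⟨c, k, r, ρ, g, h1, h2, h3, h4, h5, h6, h7, h8⟩ := h
  exact ⟨c, k, r, ρ, g, h1, h2, h3, h4, h5, h6, h7, h8.trans hb⟩

theorem Rep.nonneg {ε : Fin 6 → ℝ} {b : ℝ} {p : P} {x : ℝ} (h : Rep ε b p x) : 0 ≤ b := by
  obtain ⟨c, k, r, ρ, g, h1, h2, h3, h4, h5, h6, h7, h8⟩ := h
  exact (Nat.cast_nonneg _).trans h8

theorem Rep.nat (ε : Fin 6 → ℝ) (k : ℕ) : Rep ε k (P.nat k) k := by
  refine k1_mk ε 0 (k : ℤ) 0 k 0 k k 0 _ _ ?_ ?_ ?_ ?_ ?_ ?_
  · simp
  · rw [Nat.cast_zero, zero_mul, add_zero]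
  · rw [zero_mul, zero_mul, add_zero, add_zero]
  · rw [abs_of_nonneg (by positivity)]
  · simp
  · simp

theorem Rep.mk' (ε : Fin 6 → ℝ) (k : ℕ) (x : ℝ) (n : ℕ) (hn : (n : ℤ) ≡ k [ZMOD 2 ^ 18480]) (hx : |x - k| ≤ 1) :
    Rep ε (k + 1) ⟨n, k + 2 ^ 528⟩ x := by
  refine k1_mk ε 0 (k : ℤ) 0 k 1 n _ (x - k) _ _ ?_ ?_ ?_ ?_ ?_ ?_
  · simp
  · rw [Nat.cast_zero, zero_mul, add_zero]
    exact hn
  · rw [zero_mul, one_mul, add_zero]
  · rw [abs_of_nonneg (by positivity)]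
  · rw [Nat.cast_one]; exact hx
  · simp

theorem Rep.nmk' (ε : Fin 6 → ℝ) (k : ℕ) (x : ℝ) (n : ℕ) (hn : (n : ℤ) ≡ -k [ZMOD 2 ^ 18480]) (hx : |x + k| ≤ 1) :
    Rep ε (k + 1) ⟨n, k + 2 ^ 528⟩ x := by
  refine k1_mk ε 0 (-(k : ℤ)) 0 k 1 n _ (x + k) _ _ ?_ ?_ ?_ ?_ ?_ ?_
  · simp
  · rw [Nat.cast_zero, zero_mul, add_zero]
    exact hn
  · rw [zero_mul, one_mul, add_zero]
  · rw [abs_neg, abs_of_nonneg (by positivity)]
  · rw [Nat.cast_one]; exact hx
  · simp

theorem Rep.emk' (ε : Fin 6 → ℝ) (k : ℤ) (n m : ℕ) (hn : (n : ℤ) ≡ k [ZMOD 2 ^ 18480]) (hm : (m : ℤ) = |k|) :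
    Rep ε m ⟨n, m⟩ k := by
  refine k1_mk ε 0 k 0 m 0 n m 0 _ _ ?_ ?_ ?_ ?_ ?_ ?_
  · simp
  · rw [Nat.cast_zero, zero_mul, add_zero]
    exact hn
  · rw [zero_mul, zero_mul, add_zero, add_zero]
  · exact hm.ge
  · simp
  · simp

theorem Rep.cst (ε : Fin 6 → ℝ) (k : ℕ) (x : ℝ) (hx : |x - k| ≤ 1) : Rep ε (k + 1) (P.cst k) x := by
  have e : P.cst k = ⟨k, k + 2 ^ 528⟩ := by
    show (⟨k, Nat.add k Y3⟩ : P) = _
    rw [k1_Y3]; rfl
  rw [e]
  exact Rep.mk' ε k x k rfl hx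

theorem Rep.var (ε : Fin 6 → ℝ) (i : Fin 6) (c h : ℕ) : Rep ε (c + h) (P.var (posn i) c h) (c + h * ε i) := by
  refine k1_mk ε i (c : ℤ) h c 0 _ _ 0 _ _ ?_ ?_ ?_ ?_ ?_ ?_
  · simp
  · exact k1_of_eq (k1_cast_shift c h (176 * posn i))
  · rw [zero_mul, add_zero]
    exact k1_shift c h 176
  · rw [abs_of_nonneg (by positivity)]
  · simp
  · simp

theorem Rep.vars (ε : Fin 6 → ℝ) (i : Fin 6) (c o h : ℕ) (ho : o ≤ 2 ^ 20) :
    Rep ε (|(c : ℝ) - o| + h) (P.vars (posn i) c o h) (c - o + h * ε i) := by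
  have hoM : o ≤ MM := by
    rw [k1_MM]
    exact ho.trans (Nat.pow_le_pow_right (by norm_num) (by norm_num))
  have habs : |(c : ℤ) - o| = (((c - o) + (o - c) : ℕ) : ℤ) := by
    rcases le_total c o with hco | hco
    · rw [abs_of_nonpos (by linarith [(Nat.cast_le (α := ℤ)).2 hco]), Nat.sub_eq_zero_of_le hco, zero_add, Nat.cast_sub hco]
      ring
    · rw [abs_of_nonneg (by linarith [(Nat.cast_le (α := ℤ)).2 hco]), Nat.sub_eq_zero_of_le hco, add_zero, Nat.cast_sub hco]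
  refine k1_mk ε i ((c : ℤ) - o) h ((c - o) + (o - c)) 0 _ _ 0 _ _ ?_ ?_ ?_ ?_ ?_ ?_
  · push_cast; ring
  · rw [k1_cast_shift]
    apply Int.ModEq.add_right
    rw [Nat.add_eq, Nat.sub_eq, Nat.cast_add, Nat.cast_sub hoM, k1_MM, Nat.cast_pow, Nat.cast_ofNat]
    generalize (2 : ℤ) ^ 18480 = Mz
    have h2 : Mz ≡ 0 [ZMOD Mz] := by
      rw [Int.modEq_zero_iff_dvd]
    have h3 := (h2.sub_right (o : ℤ)).add_left (c : ℤ)
    have h4 : (c : ℤ) + (0 - (o : ℤ)) = (c : ℤ) - o := by ring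
    rw [h4] at h3
    exact h3
  · rw [zero_mul, add_zero]
    exact k1_shift ((c - o) + (o - c)) h 176
  · exact habs.le
  · simp
  · have habs' : |(c : ℝ) - o| = (((c - o) + (o - c) : ℕ) : ℝ) := by
      have := congrArg (fun z : ℤ => (z : ℝ)) habs
      simpa using this
    rw [habs']
    simp

theorem Rep.add {ε : Fin 6 → ℝ} {b b' : ℝ} {p q : P} {x y : ℝ} (h : Rep ε b p x) (h' : Rep ε b' q y) :
    Rep ε (b + b') (p.add q) (x + y) := by
  have key := k1_comb (ε := ε) 1 (by norm_num) (p.n + q.n) (by rw [one_mul, Nat.cast_add]) h h'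
  rw [Int.cast_one, one_mul] at key
  exact key

theorem Rep.sub {ε : Fin 6 → ℝ} {b b' : ℝ} {p q : P} {x y : ℝ} (h : Rep ε b p x) (h' : Rep ε b' q y) :
    Rep ε (b + b') (p.sub q) (x - y) := by
  have key := k1_comb (ε := ε) (-1) (by norm_num) _ (k1_sub_n p.n q.n) h h'
  have e : x + ((-1 : ℤ) : ℝ) * y = x - y := by push_cast; ring
  rw [e] at key
  exact key

theorem Rep.smul {ε : Fin 6 → ℝ} {b : ℝ} {p : P} {x : ℝ} (k : ℕ) (h : Rep ε b p x) : Rep ε (k * b) (p.smul k) (k * x) := by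
  obtain ⟨c, c1, r, ρ, g, hx, hpn, hpm, hc, hk, hr, hρ, hb⟩ := h
  have kR : |(k : ℝ)| = (k : ℝ) := abs_of_nonneg (Nat.cast_nonneg _)
  have kZ : |(k : ℤ)| = (k : ℤ) := abs_of_nonneg (by positivity)
  have kZ0 : (0 : ℤ) ≤ (k : ℤ) := by positivity
  have kR0 : (0 : ℝ) ≤ (k : ℝ) := by positivity
  refine ⟨k * c, fun i => k * c1 i, fun i j => k * r i j, k * ρ, Polynomial.C k * g, ?_, ?_, ?_, ?_, ?_, ?_, ?_, ?_⟩
  · rw [hx]
    push_cast
    have e1 : ∑ i, ((k : ℝ) * (c1 i : ℝ)) * ε i = k * ∑ i, (c1 i : ℝ) * ε i := by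
      rw [Finset.mul_sum]
      apply Finset.sum_congr rfl; intro i _; ring
    have e2 : ∑ i, ∑ j, ((k : ℝ) * (r i j : ℝ)) * (ε i * ε j)
        = k * ∑ i, ∑ j, (r i j : ℝ) * (ε i * ε j) := by
      rw [Finset.mul_sum]
      apply Finset.sum_congr rfl; intro i _
      rw [Finset.mul_sum]
      apply Finset.sum_congr rfl; intro j _; ring
    rw [e1, e2]; ring
  · have e1 : ∑ i, ((k : ℤ) * c1 i) * 2 ^ (176 * posn i)
        = k * ∑ i, c1 i * 2 ^ (176 * posn i) := by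
      rw [Finset.mul_sum]
      apply Finset.sum_congr rfl; intro i _
      generalize (2 : ℤ) ^ (176 * posn i) = w
      ring
    have e2 : ∑ i, ∑ j, ((k : ℤ) * r i j) * 2 ^ (176 * (posn i + posn j))
        = k * ∑ i, ∑ j, r i j * 2 ^ (176 * (posn i + posn j)) := by
      rw [Finset.mul_sum]
      apply Finset.sum_congr rfl; intro i _
      rw [Finset.mul_sum]
      apply Finset.sum_congr rfl; intro j _
      generalize (2 : ℤ) ^ (176 * (posn i + posn j)) = w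
      ring
    rw [e1, e2]
    have e0 : (((P.smul k p).n : ℕ) : ℤ) = (k : ℤ) * (p.n : ℤ) := by
      show ((k * p.n : ℕ) : ℤ) = _
      push_cast; rfl
    rw [e0]
    refine (hpn.mul_left (k : ℤ)).trans ?_
    apply k1_of_eq
    generalize (∑ i, c1 i * 2 ^ (176 * posn i)) = A1
    generalize (∑ i, ∑ j, r i j * 2 ^ (176 * (posn i + posn j))) = A3
    ring
  · show k * p.m = _
    rw [Polynomial.eval_mul, Polynomial.eval_C, hpm]
  · rw [Polynomial.coeff_C_mul, abs_mul, kZ]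
    push_cast
    exact mul_le_mul_of_nonneg_left hc kZ0
  · rw [Polynomial.coeff_C_mul]
    push_cast
    calc ∑ i, |(k : ℤ) * c1 i| = k * ∑ i, |c1 i| := by
          rw [Finset.mul_sum]
          apply Finset.sum_congr rfl; intro i _
          rw [abs_mul, kZ]
      _ ≤ _ := mul_le_mul_of_nonneg_left hk kZ0
  · rw [Polynomial.coeff_C_mul]
    push_cast
    calc ∑ i, ∑ j, |(k : ℤ) * r i j| = k * ∑ i, ∑ j, |r i j| := by
          rw [Finset.mul_sum]
          apply Finset.sum_congr rfl; intro i _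
          rw [Finset.mul_sum]
          apply Finset.sum_congr rfl; intro j _
          rw [abs_mul, kZ]
      _ ≤ _ := mul_le_mul_of_nonneg_left hr kZ0
  · rw [Polynomial.coeff_C_mul, Polynomial.coeff_C_mul, Polynomial.coeff_C_mul, Polynomial.eval_mul, Polynomial.eval_C,
      abs_mul, kR]
    push_cast
    nlinarith [mul_le_mul_of_nonneg_left hρ kR0]
  · rw [Polynomial.eval_mul, Polynomial.eval_C]
    push_cast
    exact mul_le_mul_of_nonneg_left hb kR0

theorem Rep.ofs {ε : Fin 6 → ℝ} {b : ℝ} {p : P} {x : ℝ} (s t : ℕ) (h : Rep ε b p x) :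
    Rep ε (b + s + t) (p.ofs s t) (x + s - t) := by
  have h1 := (h.add (Rep.nat ε (s - t))).sub (Rep.nat ε (t - s))
  have hval : x + ((s - t : ℕ) : ℝ) - ((t - s : ℕ) : ℝ) = x + s - t := by
    rcases le_total s t with hst | hst
    · rw [Nat.sub_eq_zero_of_le hst, Nat.cast_sub hst]
      push_cast; ring
    · rw [Nat.sub_eq_zero_of_le hst, Nat.cast_sub hst]
      push_cast; ring
  rw [hval] at h1
  refine Rep.mono h1 ?_
  have e1 : ((s - t : ℕ) : ℝ) ≤ s := by exact_mod_cast Nat.sub_le s t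
  have e2 : ((t - s : ℕ) : ℝ) ≤ t := by exact_mod_cast Nat.sub_le t s
  linarith

end Pool.Agent.H304.K

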