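import Pool.Agent.helper304_full.RepDefs
import Pool.Agent.helper304_full.K1

set_option autoImplicit false

set_option maxRecDepth 100000
set_option exponentiation.threshold 100000

namespace Pool.Agent.H304.K

theorem k2_MK : MK = 2 ^ 18480 - 1 := by
  rfl

theorem k2_mul_n (p q : P) : (P.mul p q).n = (p.n * q.n) % 2 ^ 18480 := by
  have h : (P.mul p q).n = (p.n * q.n) &&& MK := rfl
  rw [h, k2_MK]
  exact Nat.and_two_pow_sub_one_eq_mod _ _

theorem k2_posn (i : Fin 6) : 35 ≤ posn i := by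
  fin_cases i <;> simp [posn]

theorem k2_dvdK (k : Fin 6 → ℤ) : (2 : ℤ) ^ (176 * 35) ∣ ∑ i, k i * 2 ^ (176 * posn i) := by
  apply Finset.dvd_sum
  intro i _
  apply Dvd.dvd.mul_left
  exact pow_dvd_pow _ (Nat.mul_le_mul_left _ (k2_posn i))

theorem k2_dvdQ (r : Fin 6 → Fin 6 → ℤ) :
    (2 : ℤ) ^ (176 * 70) ∣ ∑ i, ∑ j, r i j * 2 ^ (176 * (posn i + posn j)) := by
  apply Finset.dvd_sum
  intro i _
  apply Finset.dvd_sum
  intro j _
  apply Dvd.dvd.mul_left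
  apply pow_dvd_pow
  apply Nat.mul_le_mul_left
  have h1 := k2_posn i
  have h2 := k2_posn j
  omega

theorem k2_sumK {R : Type*} [CommRing R] (c c' : R) (k k' u : Fin 6 → R) :
    ∑ i, (c * k' i + c' * k i) * u i = c * ∑ i, k' i * u i + c' * ∑ i, k i * u i := by
  rw [Finset.mul_sum, Finset.mul_sum, ← Finset.sum_add_distrib]
  apply Finset.sum_congr rfl
  intro i _
  ring

theorem k2_sumQ {R : Type*} [CommRing R] (c c' : R) (k k' u : Fin 6 → R) (r r' : Fin 6 → Fin 6 → R) :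
    ∑ i, ∑ j, (c * r' i j + c' * r i j + k i * k' j) * (u i * u j)
      = c * ∑ i, ∑ j, r' i j * (u i * u j) + c' * ∑ i, ∑ j, r i j * (u i * u j)
        + (∑ i, k i * u i) * ∑ j, k' j * u j := by
  rw [Finset.sum_mul_sum, Finset.mul_sum, Finset.mul_sum, ← Finset.sum_add_distrib, ← Finset.sum_add_distrib]
  apply Finset.sum_congr rfl
  intro i _
  rw [Finset.mul_sum, Finset.mul_sum, ← Finset.sum_add_distrib, ← Finset.sum_add_distrib]
  apply Finset.sum_congr rfl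
  intro j _
  ring

theorem k2_absK (ε : Fin 6 → ℝ) (hε : ∀ i, |ε i| ≤ 1) (k : Fin 6 → ℤ) (a : ℕ) (h : ∑ i, |k i| ≤ (a : ℤ)) :
    |∑ i, (k i : ℝ) * ε i| ≤ (a : ℝ) := by
  have h1 : (((∑ i, |k i| : ℤ)) : ℝ) ≤ (a : ℝ) := by exact_mod_cast h
  refine le_trans ?_ h1
  refine le_trans (Finset.abs_sum_le_sum_abs _ _) ?_
  push_cast
  apply Finset.sum_le_sum
  intro i _
  rw [abs_mul]
  exact mul_le_of_le_one_right (abs_nonneg _) (hε i)

theorem k2_absQ (ε : Fin 6 → ℝ) (hε : ∀ i, |ε i| ≤ 1) (r : Fin 6 → Fin 6 → ℤ) (a : ℕ)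
    (h : ∑ i, ∑ j, |r i j| ≤ (a : ℤ)) :
    |∑ i, ∑ j, (r i j : ℝ) * (ε i * ε j)| ≤ (a : ℝ) := by
  have h1 : (((∑ i, ∑ j, |r i j| : ℤ)) : ℝ) ≤ (a : ℝ) := by exact_mod_cast h
  refine le_trans ?_ h1
  refine le_trans (Finset.abs_sum_le_sum_abs _ _) ?_
  push_cast
  apply Finset.sum_le_sum
  intro i _
  refine le_trans (Finset.abs_sum_le_sum_abs _ _) ?_
  apply Finset.sum_le_sum
  intro j _
  rw [abs_mul]
  refine mul_le_of_le_one_right (abs_nonneg _) ?_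
  rw [abs_mul]
  exact mul_le_one₀ (hε i) (abs_nonneg _) (hε j)

theorem k2_rem (C K Q ρ C' K' Q' ρ' a0 a1 a2 a0' a1' a2' A A' : ℝ)
    (h0 : |C| ≤ a0) (h1 : |K| ≤ a1) (h2 : |Q| ≤ a2) (h0' : |C'| ≤ a0') (h1' : |K'| ≤ a1') (h2' : |Q'| ≤ a2')
    (hA : |ρ| + a0 + a1 + a2 ≤ A) (hA' : |ρ'| + a0' + a1' + a2' ≤ A') :
    |(C + K + Q + ρ) * (C' + K' + Q' + ρ') - (C * C' + (C * K' + C' * K) + (C * Q' + C' * Q + K * K'))|
      + a0 * a0' + (a0 * a1' + a1 * a0') + (a0 * a2' + a1 * a1' + a2 * a0') ≤ A * A' := by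
  have n0 := abs_nonneg C
  have n1 := abs_nonneg K
  have n2 := abs_nonneg Q
  have n3 := abs_nonneg ρ
  have n0' := abs_nonneg C'
  have n1' := abs_nonneg K'
  have n2' := abs_nonneg Q'
  have n3' := abs_nonneg ρ'
  have e : (C + K + Q + ρ) * (C' + K' + Q' + ρ') - (C * C' + (C * K' + C' * K) + (C * Q' + C' * Q + K * K'))
      = C * ρ' + ρ * C' + K * Q' + Q * K' + K * ρ' + ρ * K' + Q * Q' + Q * ρ' + ρ * Q' + ρ * ρ' := by ring
  rw [e]
  have t : ∀ X Y a b : ℝ, |X| ≤ a → |Y| ≤ b → |X * Y| ≤ a * b := by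
    intro X Y a b hX hY
    rw [abs_mul]
    exact mul_le_mul hX hY (abs_nonneg _) (le_trans (abs_nonneg _) hX)
  have p1 := t C ρ' a0 |ρ'| h0 le_rfl
  have p2 := t ρ C' |ρ| a0' le_rfl h0'
  have p3 := t K Q' a1 a2' h1 h2'
  have p4 := t Q K' a2 a1' h2 h1'
  have p5 := t K ρ' a1 |ρ'| h1 le_rfl
  have p6 := t ρ K' |ρ| a1' le_rfl h1'
  have p7 := t Q Q' a2 a2' h2 h2'
  have p8 := t Q ρ' a2 |ρ'| h2 le_rfl
  have p9 := t ρ Q' |ρ| a2' le_rfl h2'
  have p10 := t ρ ρ' |ρ| |ρ'| le_rfl le_rfl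
  have tri : |C * ρ' + ρ * C' + K * Q' + Q * K' + K * ρ' + ρ * K' + Q * Q' + Q * ρ' + ρ * Q' + ρ * ρ'|
      ≤ |C * ρ'| + |ρ * C'| + |K * Q'| + |Q * K'| + |K * ρ'| + |ρ * K'| + |Q * Q'| + |Q * ρ'| + |ρ * Q'| + |ρ * ρ'| := by
    refine (abs_add_le _ _).trans (add_le_add ?_ le_rfl)
    refine (abs_add_le _ _).trans (add_le_add ?_ le_rfl)
    refine (abs_add_le _ _).trans (add_le_add ?_ le_rfl)
    refine (abs_add_le _ _).trans (add_le_add ?_ le_rfl)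
    refine (abs_add_le _ _).trans (add_le_add ?_ le_rfl)
    refine (abs_add_le _ _).trans (add_le_add ?_ le_rfl)
    refine (abs_add_le _ _).trans (add_le_add ?_ le_rfl)
    refine (abs_add_le _ _).trans (add_le_add ?_ le_rfl)
    exact abs_add_le _ _
  have hAA : (|ρ| + a0 + a1 + a2) * (|ρ'| + a0' + a1' + a2') ≤ A * A' := by
    apply mul_le_mul hA hA'
    · linarith
    · linarith
  nlinarith [hAA, tri, p1, p2, p3, p4, p5, p6, p7, p8, p9, p10]

theorem k2_coeff2 (g g' : Polynomial ℕ) :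
    (g * g').coeff 2 = g.coeff 0 * g'.coeff 2 + g.coeff 1 * g'.coeff 1 + g.coeff 2 * g'.coeff 0 := by
  rw [Polynomial.coeff_mul]
  simp [Finset.Nat.antidiagonal_succ]
  ring

theorem Rep.mul {ε : Fin 6 → ℝ} (hε : ∀ i, |ε i| ≤ 1) {b b' : ℝ} {p q : P} {x y : ℝ} (h : Rep ε b p x) (h' : Rep ε b' q y) :
    Rep ε (b * b') (p.mul q) (x * y) := by
  obtain ⟨c, k, r, ρ, g, hx, hn, hm, hc, hk, hr, hρ, hb⟩ := h
  obtain ⟨c', k', r', ρ', g', hx', hn', hm', hc', hk', hr', hρ', hb'⟩ := h'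
  refine ⟨c * c', fun i => c * k' i + c' * k i, fun i j => c * r' i j + c' * r i j + k i * k' j,
    x * y - (((c * c' : ℤ) : ℝ) + ∑ i, ((c * k' i + c' * k i : ℤ) : ℝ) * ε i
      + ∑ i, ∑ j, ((c * r' i j + c' * r i j + k i * k' j : ℤ) : ℝ) * (ε i * ε j)), g * g', by ring, ?_, ?_, ?_, ?_, ?_, ?_, ?_⟩
  · rw [k2_mul_n]
    set U : ℤ := ∑ i, k i * 2 ^ (176 * posn i) with hU
    set V : ℤ := ∑ i, ∑ j, r i j * 2 ^ (176 * (posn i + posn j)) with hV
    set U' : ℤ := ∑ i, k' i * 2 ^ (176 * posn i) with hU'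
    set V' : ℤ := ∑ i, ∑ j, r' i j * 2 ^ (176 * (posn i + posn j)) with hV'
    have e1 : ∑ i, (c * k' i + c' * k i) * 2 ^ (176 * posn i) = c * U' + c' * U :=
      k2_sumK c c' k k' (fun i => 2 ^ (176 * posn i))
    have e2 : ∑ i, ∑ j, (c * r' i j + c' * r i j + k i * k' j) * 2 ^ (176 * (posn i + posn j))
        = c * V' + c' * V + U * U' := by
      have := k2_sumQ c c' k k' (fun i => (2 : ℤ) ^ (176 * posn i)) r r'
      simp only [Nat.mul_add, pow_add] at hV hV' ⊢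
      rw [hV, hV', hU, hU']
      exact this
    rw [e1, e2]
    have d1 : (2 : ℤ) ^ 18480 ∣ U * V' := by
      have := mul_dvd_mul (k2_dvdK k) (k2_dvdQ r')
      rw [← pow_add] at this
      exact this
    have d2 : (2 : ℤ) ^ 18480 ∣ V * U' := by
      have := mul_dvd_mul (k2_dvdQ r) (k2_dvdK k')
      rw [← pow_add] at this
      exact this
    have d3 : (2 : ℤ) ^ 18480 ∣ V * V' := by
      have := mul_dvd_mul (k2_dvdQ r) (k2_dvdQ r')
      rw [← pow_add] at this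
      exact dvd_trans (pow_dvd_pow _ (by norm_num)) this
    have m1 : ((p.n * q.n % 2 ^ 18480 : ℕ) : ℤ) ≡ (p.n : ℤ) * (q.n : ℤ) [ZMOD 2 ^ 18480] := by
      rw [Int.natCast_mod, Nat.cast_mul, Nat.cast_pow]
      exact Int.mod_modEq _ _
    have m2 : (p.n : ℤ) * (q.n : ℤ) ≡ (c + U + V) * (c' + U' + V') [ZMOD 2 ^ 18480] := hn.mul hn'
    have m3 : (c + U + V) * (c' + U' + V') ≡ c * c' + (c * U' + c' * U) + (c * V' + c' * V + U * U') [ZMOD 2 ^ 18480] := by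
      apply Int.ModEq.symm
      rw [Int.modEq_iff_dvd]
      have e : (c + U + V) * (c' + U' + V') - (c * c' + (c * U' + c' * U) + (c * V' + c' * V + U * U'))
        = U * V' + V * U' + V * V' := by ring
      rw [e]
      exact dvd_add (dvd_add d1 d2) d3
    exact (m1.trans m2).trans m3
  · show p.m * q.m = _
    rw [hm, hm', Polynomial.eval_mul]
  · rw [Polynomial.mul_coeff_zero, abs_mul]
    push_cast
    exact mul_le_mul hc hc' (abs_nonneg _) (le_trans (abs_nonneg _) hc)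
  · have s1 : ∑ i, |c * k' i + c' * k i| ≤ |c| * ∑ i, |k' i| + |c'| * ∑ i, |k i| := by
      rw [Finset.mul_sum, Finset.mul_sum, ← Finset.sum_add_distrib]
      apply Finset.sum_le_sum
      intro i _
      rw [← abs_mul, ← abs_mul]
      exact abs_add_le _ _
    have s2 : |c| * ∑ i, |k' i| ≤ (g.coeff 0 : ℤ) * (g'.coeff 1 : ℤ) :=
      mul_le_mul hc hk' (Finset.sum_nonneg fun i _ => abs_nonneg _) (le_trans (abs_nonneg _) hc)
    have s3 : |c'| * ∑ i, |k i| ≤ (g'.coeff 0 : ℤ) * (g.coeff 1 : ℤ) :=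
      mul_le_mul hc' hk (Finset.sum_nonneg fun i _ => abs_nonneg _) (le_trans (abs_nonneg _) hc')
    rw [Polynomial.mul_coeff_one]
    push_cast
    linarith
  · have s1 : ∑ i, ∑ j, |c * r' i j + c' * r i j + k i * k' j|
        ≤ |c| * ∑ i, ∑ j, |r' i j| + |c'| * ∑ i, ∑ j, |r i j| + (∑ i, |k i|) * ∑ j, |k' j| := by
      rw [Finset.sum_mul_sum, Finset.mul_sum, Finset.mul_sum, ← Finset.sum_add_distrib, ← Finset.sum_add_distrib]
      apply Finset.sum_le_sum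
      intro i _
      rw [Finset.mul_sum, Finset.mul_sum, ← Finset.sum_add_distrib, ← Finset.sum_add_distrib]
      apply Finset.sum_le_sum
      intro j _
      rw [← abs_mul, ← abs_mul, ← abs_mul]
      exact (abs_add_le _ _).trans (add_le_add (abs_add_le _ _) le_rfl)
    have s2 : |c| * ∑ i, ∑ j, |r' i j| ≤ (g.coeff 0 : ℤ) * (g'.coeff 2 : ℤ) :=
      mul_le_mul hc hr' (Finset.sum_nonneg fun i _ => Finset.sum_nonneg fun j _ => abs_nonneg _) (le_trans (abs_nonneg _) hc)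
    have s3 : |c'| * ∑ i, ∑ j, |r i j| ≤ (g'.coeff 0 : ℤ) * (g.coeff 2 : ℤ) :=
      mul_le_mul hc' hr (Finset.sum_nonneg fun i _ => Finset.sum_nonneg fun j _ => abs_nonneg _) (le_trans (abs_nonneg _) hc')
    have s4 : (∑ i, |k i|) * ∑ j, |k' j| ≤ (g.coeff 1 : ℤ) * (g'.coeff 1 : ℤ) :=
      mul_le_mul hk hk' (Finset.sum_nonneg fun i _ => abs_nonneg _)
        (le_trans (Finset.sum_nonneg fun i _ => abs_nonneg _) hk)
    rw [k2_coeff2]
    push_cast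
    linarith
  · have q0 : |(c : ℝ)| ≤ (g.coeff 0 : ℝ) := by
      have : ((|c| : ℤ) : ℝ) ≤ ((g.coeff 0 : ℤ) : ℝ) := by exact_mod_cast hc
      rw [Int.cast_abs] at this
      simpa using this
    have q0' : |(c' : ℝ)| ≤ (g'.coeff 0 : ℝ) := by
      have : ((|c'| : ℤ) : ℝ) ≤ ((g'.coeff 0 : ℤ) : ℝ) := by exact_mod_cast hc'
      rw [Int.cast_abs] at this
      simpa using this
    have q1 := k2_absK ε hε k _ hk
    have q1' := k2_absK ε hε k' _ hk'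
    have q2 := k2_absQ ε hε r _ hr
    have q2' := k2_absQ ε hε r' _ hr'
    have e1 : ∑ i, ((c * k' i + c' * k i : ℤ) : ℝ) * ε i
        = (c : ℝ) * ∑ i, (k' i : ℝ) * ε i + (c' : ℝ) * ∑ i, (k i : ℝ) * ε i := by
      rw [← k2_sumK]
      push_cast
      rfl
    have e2 : ∑ i, ∑ j, ((c * r' i j + c' * r i j + k i * k' j : ℤ) : ℝ) * (ε i * ε j)
        = (c : ℝ) * ∑ i, ∑ j, (r' i j : ℝ) * (ε i * ε j) + (c' : ℝ) * ∑ i, ∑ j, (r i j : ℝ) * (ε i * ε j)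
          + (∑ i, (k i : ℝ) * ε i) * ∑ j, (k' j : ℝ) * ε j := by
      rw [← k2_sumQ]
      push_cast
      rfl
    have key := k2_rem (c : ℝ) _ _ ρ (c' : ℝ) _ _ ρ' _ _ _ _ _ _ _ _ q0 q1 q2 q0' q1' q2' hρ hρ'
    rw [e1, e2, hx, hx', Polynomial.mul_coeff_zero, Polynomial.mul_coeff_one, k2_coeff2, Polynomial.eval_mul]
    push_cast at key ⊢
    linarith
  · rw [Polynomial.eval_mul]
    push_cast
    have hg0 : (0 : ℝ) ≤ ((g'.eval 1 : ℕ) : ℝ) := Nat.cast_nonneg _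
    have hb0 : (0 : ℝ) ≤ b := le_trans (Nat.cast_nonneg _) hb
    exact mul_le_mul hb hb' hg0 hb0

end Pool.Agent.H304.K

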