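import Pool.Agent.helper304_full.RepDefs

set_option autoImplicit false

set_option maxRecDepth 100000
set_option exponentiation.threshold 100000

namespace Pool.Agent.H304.K

/-- packing of digits -/
def k3_pk : List ℕ → ℕ
  | [] => 0
  | x :: l => 2 ^ 176 * k3_pk l + x

theorem k3_and (x y o : ℕ) (hx : x < 2 ^ 176) :
    ((2 ^ 176 * y + x) >>> 175) &&& (2 ^ 176 * o + 1) =
      2 ^ 176 * ((y >>> 175) &&& o) + x >>> 175 := by
  have hs : x >>> 175 < 2 ^ 176 := lt_of_le_of_lt (Nat.shiftRight_le _ _) hx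
  apply Nat.eq_of_testBit_eq
  intro i
  rw [Nat.testBit_and, Nat.testBit_shiftRight, Nat.testBit_two_pow_mul_add _ hx,
    Nat.testBit_two_pow_mul_add _ (by norm_num : 1 < 2 ^ 176), Nat.testBit_two_pow_mul_add _ hs]
  by_cases hi : i < 176
  · rw [if_pos hi, if_pos hi, Nat.testBit_shiftRight]
    rcases Nat.eq_zero_or_pos i with h0 | h0
    · subst h0
      rw [if_pos (by norm_num)]
      simp
    · have h1 : Nat.testBit 1 i = false := by
        rw [← Bool.not_eq_true, Nat.testBit_one_eq_true_iff_self_eq_zero]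
        omega
      rw [h1, Bool.and_false]
      symm
      apply Nat.testBit_lt_two_pow
      exact lt_of_lt_of_le hx (Nat.pow_le_pow_right (by norm_num) (by omega))
  · rw [if_neg hi, if_neg hi, if_neg (by omega), Nat.testBit_and, Nat.testBit_shiftRight]
    congr 2
    omega

theorem k3_xor (x y m z : ℕ) (hx : x < 2 ^ 176) (hm : m < 2 ^ 176) :
    (2 ^ 176 * y + x) ^^^ (2 ^ 176 * z + m) = 2 ^ 176 * (y ^^^ z) + (x ^^^ m) := by
  have hs : x ^^^ m < 2 ^ 176 := Nat.xor_lt_two_pow hx hm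
  apply Nat.eq_of_testBit_eq
  intro i
  rw [Nat.testBit_xor, Nat.testBit_two_pow_mul_add _ hx, Nat.testBit_two_pow_mul_add _ hm,
    Nat.testBit_two_pow_mul_add _ hs]
  split_ifs <;> rw [Nat.testBit_xor]

theorem k3_and_list (l : List ℕ) (h : ∀ x ∈ l, x < 2 ^ 176) :
    (k3_pk l >>> 175) &&& k3_pk (l.map (fun _ => 1)) = k3_pk (l.map (fun x => x >>> 175)) := by
  induction l with
  | nil => simp [k3_pk]
  | cons x l ih =>
    rw [List.map_cons, List.map_cons, k3_pk, k3_pk, k3_pk, k3_and _ _ _ (h x (by simp)),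
      ih fun y hy => h y (by simp [hy])]

theorem k3_xor_list (l : List ℕ) (f : ℕ → ℕ) (h : ∀ x ∈ l, x < 2 ^ 176)
    (hf : ∀ x ∈ l, f x < 2 ^ 176) :
    k3_pk l ^^^ k3_pk (l.map f) = k3_pk (l.map (fun x => x ^^^ f x)) := by
  induction l with
  | nil => simp [k3_pk]
  | cons x l ih =>
    rw [List.map_cons, List.map_cons, k3_pk, k3_pk, k3_pk, k3_xor _ _ _ _ (h x (by simp))
      (hf x (by simp)), ih (fun y hy => h y (by simp [hy])) fun y hy => hf y (by simp [hy])]

theorem k3_add_list (l : List ℕ) (f g : ℕ → ℕ) :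
    k3_pk (l.map f) + k3_pk (l.map g) = k3_pk (l.map (fun x => f x + g x)) := by
  induction l with
  | nil => simp [k3_pk]
  | cons x l ih =>
    rw [List.map_cons, List.map_cons, List.map_cons, k3_pk, k3_pk, k3_pk, ← ih]
    ring

theorem k3_mul_list (l : List ℕ) (f : ℕ → ℕ) (c : ℕ) :
    k3_pk (l.map f) * c = k3_pk (l.map (fun x => f x * c)) := by
  induction l with
  | nil => simp [k3_pk]
  | cons x l ih =>
    rw [List.map_cons, List.map_cons, k3_pk, k3_pk, ← ih]
    ring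

theorem k3_mod_list (l : List ℕ) : k3_pk l ≡ l.sum [MOD 2 ^ 176 - 1] := by
  induction l with
  | nil => rfl
  | cons x l ih =>
    rw [k3_pk, List.sum_cons, add_comm x]
    refine Nat.ModEq.add_right x ?_
    have h1 : 2 ^ 176 ≡ 1 [MOD 2 ^ 176 - 1] :=
      (Nat.modEq_iff_dvd' (Nat.one_le_two_pow)).2 dvd_rfl |>.symm
    simpa using h1.mul ih

theorem k3_not (x : ℕ) (hx : x < 2 ^ 176) : x ^^^ (2 ^ 176 - 1) = 2 ^ 176 - 1 - x := by
  have h : 2 ^ 176 - 1 - x = 2 ^ 176 - (x + 1) := by omega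
  rw [h]
  apply Nat.eq_of_testBit_eq
  intro i
  rw [Nat.testBit_xor, Nat.testBit_two_pow_sub_one, Nat.testBit_two_pow_sub_succ hx]
  by_cases hi : i < 176
  · simp [hi]
  · simp only [hi, decide_false, Bool.false_and, Bool.xor_false]
    apply Nat.testBit_lt_two_pow
    exact lt_of_lt_of_le hx (Nat.pow_le_pow_right (by norm_num) (by omega))

theorem k3_Bm : Bm = 2 ^ 176 - 1 := by decide +kernel

theorem k3_ONES : ONES = k3_pk (List.replicate 70 1) := by decide +kernel

/-- the digits after the exclusive or -/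
def k3_v (x : ℕ) : ℕ := if 2 ^ 175 ≤ x then x else 2 ^ 176 - 1 - x

theorem k3_dsum (l : List ℕ) (hl : l.length = 70) (h : ∀ x ∈ l, x < 2 ^ 176) :
    dsum (k3_pk l) = (l.map k3_v).sum % (2 ^ 176 - 1) := by
  have e0 : dsum (k3_pk l) = ((k3_pk l) ^^^ ((ONES - ((k3_pk l >>> 175) &&& ONES)) * Bm)) % Bm := rfl
  have e1 : ONES = k3_pk (l.map (fun _ => 1)) := by
    rw [k3_ONES, List.map_const', hl]
  have e2 : ∀ x ∈ l, x >>> 175 ≤ 1 := by
    intro x hx
    rw [Nat.shiftRight_eq_div_pow]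
    have := h x hx
    have : x / 2 ^ 175 < 2 := (Nat.div_lt_iff_lt_mul (by norm_num)).2 (by
      rw [← pow_succ']
      exact this)
    omega
  have e3 : k3_pk (l.map (fun _ => 1)) - k3_pk (l.map (fun x => x >>> 175)) =
      k3_pk (l.map (fun x => 1 - x >>> 175)) := by
    have e4 := k3_add_list l (fun x => x >>> 175) (fun x => 1 - x >>> 175)
    have e5 : l.map (fun x => x >>> 175 + (1 - x >>> 175)) = l.map (fun _ => 1) := by
      refine List.map_congr_left fun x hx => ?_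
      have := e2 x hx
      omega
    rw [e5] at e4
    omega
  have e6 : ∀ x ∈ l, x ^^^ ((1 - x >>> 175) * (2 ^ 176 - 1)) = k3_v x := by
    intro x hx
    have h1 := h x hx
    unfold k3_v
    rw [Nat.shiftRight_eq_div_pow]
    split_ifs with h2
    · have h3 : 1 ≤ x / 2 ^ 175 := (Nat.one_le_div_iff (by norm_num)).2 h2
      rw [Nat.sub_eq_zero_of_le h3, zero_mul, Nat.xor_zero]
    · have h3 : x / 2 ^ 175 = 0 := Nat.div_eq_of_lt (not_le.1 h2)
      rw [h3, Nat.sub_zero, one_mul]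
      exact k3_not x h1
  rw [e0, k3_Bm, e1, k3_and_list l h, e3, k3_mul_list, k3_xor_list l _ h (by
    intro x hx
    have := e2 x hx
    have h7 : (1 - x >>> 175) * (2 ^ 176 - 1) ≤ 1 * (2 ^ 176 - 1) :=
      Nat.mul_le_mul_right _ (by omega)
    omega), List.map_congr_left e6]
  exact k3_mod_list _

theorem k3_ofFn (n : ℕ) (D : Fin n → ℕ) :
    k3_pk (List.ofFn D) = ∑ t, D t * 2 ^ (176 * (t : ℕ)) := by
  induction n with
  | zero => simp [k3_pk]
  | succ n ih =>
    rw [List.ofFn_succ, k3_pk, ih, Fin.sum_univ_succ, Finset.mul_sum, add_comm]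
    refine congrArg₂ (· + ·) ?_ ?_
    · simp
    · refine Finset.sum_congr rfl fun t _ => ?_
      rw [Fin.val_succ, Nat.mul_succ, pow_add]
      ring

theorem dsum_le (d : Fin 70 → ℤ) (hd : ∑ t, |d t| ≤ 2 ^ 174) (hi : ℕ)
    (h : (hi : ℤ) = ∑ t, (d t + 2 ^ 175) * 2 ^ (176 * (t : ℕ))) : ∑ t, |d t| ≤ (dsum hi : ℤ) + 35 := by
  have hb : ∀ t, |d t| ≤ 2 ^ 174 := fun t =>
    (Finset.single_le_sum (f := fun t => |d t|) (fun i _ => abs_nonneg _)
      (Finset.mem_univ t)).trans hd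
  have hD : ∀ t, (((d t + 2 ^ 175).toNat : ℕ) : ℤ) = d t + 2 ^ 175 := by
    intro t
    apply Int.toNat_of_nonneg
    have := (abs_le.1 (hb t)).1
    norm_num at this ⊢
    omega
  have e1 : hi = k3_pk (List.ofFn (fun t => (d t + 2 ^ 175).toNat)) := by
    rw [k3_ofFn]
    have : (hi : ℤ) = ((∑ t : Fin 70, (d t + 2 ^ 175).toNat * 2 ^ (176 * (t : ℕ)) : ℕ) : ℤ) := by
      rw [h, Nat.cast_sum]
      refine Finset.sum_congr rfl fun t _ => ?_
      rw [Nat.cast_mul, hD]
      push_cast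
      rfl
    exact_mod_cast this
  have hlt : ∀ x ∈ List.ofFn (fun t => (d t + 2 ^ 175).toNat), x < 2 ^ 176 := by
    intro x hx
    obtain ⟨t, rfl⟩ := (List.mem_ofFn' _ _).1 hx
    have h1 := hD t
    have h2 := (abs_le.1 (hb t)).2
    norm_num at h1 h2 ⊢
    omega
  rw [e1, k3_dsum _ List.length_ofFn hlt, List.map_ofFn, List.sum_ofFn]
  have hv : ∀ t, (((k3_v ∘ fun t => (d t + 2 ^ 175).toNat) t : ℕ) : ℤ) =
      2 ^ 175 + |d t| - (if d t < 0 then 1 else 0) := by
    intro t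
    have h1 := hD t
    have h2 := abs_le.1 (hb t)
    simp only [Function.comp_apply, k3_v]
    split_ifs with h3 h4 h4
    · exfalso
      norm_num at h1 h3 h4
      omega
    · rw [h1, abs_of_nonneg (by omega)]
      ring
    · rw [abs_of_neg h4]
      norm_num at h1 h2 h3 ⊢
      omega
    · exfalso
      norm_num at h1 h3 h4
      omega
  have hN : ∑ t, (if d t < 0 then (1 : ℤ) else 0) ≤ ∑ t, |d t| := by
    refine Finset.sum_le_sum fun t _ => ?_
    split_ifs with h3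
    · exact Int.one_le_abs h3.ne
    · exact abs_nonneg _
  have hN2 : ∑ t : Fin 70, (if d t < 0 then (1 : ℤ) else 0) ≤ 70 := by
    refine (Finset.sum_le_sum (g := fun _ => (1 : ℤ)) fun t _ => ?_).trans (by simp)
    split_ifs <;> norm_num
  have hN0 : 0 ≤ ∑ t : Fin 70, (if d t < 0 then (1 : ℤ) else 0) :=
    Finset.sum_nonneg fun t _ => by split_ifs <;> norm_num
  have hV : ((∑ t : Fin 70, (k3_v ∘ fun t => (d t + 2 ^ 175).toNat) t : ℕ) : ℤ) =
      70 * 2 ^ 175 + ∑ t, |d t| - ∑ t, (if d t < 0 then (1 : ℤ) else 0) := by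
    rw [Nat.cast_sum, Finset.sum_congr rfl fun t _ => hv t, Finset.sum_sub_distrib,
      Finset.sum_add_distrib]
    simp
  generalize (∑ t : Fin 70, (k3_v ∘ fun t => (d t + 2 ^ 175).toNat) t) = V at *
  generalize ∑ t, (if d t < 0 then (1 : ℤ) else 0) = N at *
  generalize ∑ t, |d t| = S at *
  norm_num at hd hV hN2 hN0 ⊢
  omega

theorem k3_eval (h : Polynomial ℕ) : h.eval (2 ^ 176) ≡ h.eval 1 [MOD 2 ^ 176 - 1] := by
  have h1 : 2 ^ 176 ≡ 1 [MOD 2 ^ 176 - 1] :=
    (Nat.modEq_iff_dvd' (Nat.one_le_two_pow)).2 dvd_rfl |>.symm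
  induction h using Polynomial.induction_on' with
  | add p q hp hq =>
    rw [Polynomial.eval_add, Polynomial.eval_add]
    exact hp.add hq
  | monomial n a =>
    rw [Polynomial.eval_monomial, Polynomial.eval_monomial]
    exact (h1.pow n).mul_left a

theorem k3_divX (g : Polynomial ℕ) (x : ℕ) :
    g.eval x = x * g.divX.eval x + g.coeff 0 := by
  conv_lhs => rw [← Polynomial.divX_mul_X_add g]
  rw [Polynomial.eval_add, Polynomial.eval_mul, Polynomial.eval_X, Polynomial.eval_C, mul_comm]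

theorem rem_ge (g : Polynomial ℕ) (hg : g.eval 1 ≤ 2 ^ 174) :
    g.eval 1 ≤ g.coeff 0 + g.coeff 1 + g.coeff 2 + rem (g.eval (2 ^ 176)) := by
  obtain ⟨h, hh⟩ : ∃ h, h = g.divX.divX.divX := ⟨_, rfl⟩
  have c1 : g.divX.coeff 0 = g.coeff 1 := by rw [Polynomial.coeff_divX]
  have c2 : g.divX.divX.coeff 0 = g.coeff 2 := by
    rw [Polynomial.coeff_divX, Polynomial.coeff_divX]
  have e : ∀ x, g.eval x = x * (x * (x * h.eval x + g.coeff 2) + g.coeff 1) + g.coeff 0 := by
    intro x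
    rw [k3_divX g, k3_divX g.divX, k3_divX g.divX.divX, c1, c2, hh]
  have e1 := e 1
  have e2 := e (2 ^ 176)
  have h3 := k3_eval h
  have r0 : rem (g.eval (2 ^ 176)) = (g.eval (2 ^ 176) >>> 528) % Bm := rfl
  rw [r0, k3_Bm, Nat.shiftRight_eq_div_pow]
  have h4 : g.eval (2 ^ 176) / 2 ^ 528 = h.eval (2 ^ 176) := by
    rw [e2]
    generalize h.eval (2 ^ 176) = z at *
    have : (2 : ℕ) ^ 528 = 2 ^ 176 * (2 ^ 176 * 2 ^ 176) := by
      rw [← pow_add, ← pow_add]
    rw [this, ← Nat.div_div_eq_div_mul, ← Nat.div_div_eq_div_mul]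
    norm_num at hg ⊢
    omega
  rw [h4, h3]
  generalize h.eval 1 = y at *
  norm_num at hg ⊢
  omega

end Pool.Agent.H304.K

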