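import Pool.Agent.helper304_full.RepDefs
import Pool.Agent.helper304_full.K1
import Pool.Agent.helper304_full.K3

set_option autoImplicit false

set_option maxRecDepth 100000
set_option exponentiation.threshold 100000

namespace Pool.Agent.H304.K

theorem k4_MK : MK = 2 ^ 18480 - 1 := by decide +kernel

theorem k4_LO : LO = 2 ^ 6160 - 1 := by decide +kernel

theorem k4_HALF : HALF = 2 ^ 6159 := by decide +kernel

theorem k4_HALF35 : HALF35 = 2 ^ 6159 + 35 := by decide +kernel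

theorem k4_OFF1 : OFF * (2 ^ 176 - 1) = 2 ^ 6159 * (2 ^ 176 - 1) + 2 ^ 175 * 2 ^ 6160 * (2 ^ 12320 - 1) := by decide +kernel

theorem k4_geom (β : ℤ) (n : ℕ) (u : ℕ → ℤ) (hβ : 1 ≤ β) (hu : ∀ t, 0 ≤ u t ∧ u t < β) :
    0 ≤ ∑ t ∈ Finset.range n, u t * β ^ t ∧ ∑ t ∈ Finset.range n, u t * β ^ t < β ^ n := by
  induction n with
  | zero => simp
  | succ n ih =>
    rw [Finset.sum_range_succ, pow_succ]
    have hp : 0 < β ^ n := by positivity
    obtain ⟨h0, h1⟩ := ih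
    obtain ⟨u0, u1⟩ := hu n
    constructor
    · have : 0 ≤ u n * β ^ n := by positivity
      linarith
    · have : u n * β ^ n ≤ (β - 1) * β ^ n := mul_le_mul_of_nonneg_right (by omega) hp.le
      nlinarith

theorem k4_gs (β : ℤ) (n : ℕ) : (∑ t ∈ Finset.range n, β ^ t) * (β - 1) = β ^ n - 1 := geom_sum_mul β n

/-- splitting of the number into the low part and the digits -/
theorem k4_split (c : ℤ) (u : ℕ → ℤ) (β : ℕ) (M : ℕ) (y : ℕ) (hβ : 1 ≤ β) (hM : 1 ≤ M) (m : ℕ)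
    (hy : (y : ℤ) ≡ c + (M : ℤ) * ∑ t ∈ Finset.range m, u t * (β : ℤ) ^ t [ZMOD ((M * β ^ m : ℕ) : ℤ)])
    (hylt : y < M * β ^ m)
    (hc0 : 0 ≤ c) (hc1 : c < M) (hu : ∀ t, 0 ≤ u t ∧ u t < β) :
    ((y % M : ℕ) : ℤ) = c ∧ ((y / M : ℕ) : ℤ) = ∑ t ∈ Finset.range m, u t * (β : ℤ) ^ t := by
  obtain ⟨h0, h1⟩ := k4_geom (β : ℤ) m u (by exact_mod_cast hβ) hu
  set S : ℤ := ∑ t ∈ Finset.range m, u t * (β : ℤ) ^ t with hS
  have hMz : (1 : ℤ) ≤ (M : ℤ) := by exact_mod_cast hM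
  have e1 : (y : ℤ) = c + (M : ℤ) * S := by
    have a1 : (y : ℤ) % ((M * β ^ m : ℕ) : ℤ) = y := Int.emod_eq_of_lt (by positivity) (by exact_mod_cast hylt)
    have a2 : (c + (M : ℤ) * S) % ((M * β ^ m : ℕ) : ℤ) = c + (M : ℤ) * S := by
      apply Int.emod_eq_of_lt
      · have : 0 ≤ (M : ℤ) * S := by positivity
        linarith
      · push_cast
        have : (M : ℤ) * S ≤ (M : ℤ) * ((β : ℤ) ^ m - 1) := mul_le_mul_of_nonneg_left (by omega) (by omega)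
        nlinarith
    rw [← a1, hy.eq, a2]
  constructor
  · rw [Int.natCast_mod, e1, Int.add_mul_emod_self_left, Int.emod_eq_of_lt hc0 hc1]
  · rw [Int.natCast_div, e1, Int.add_mul_ediv_left _ _ (by omega), Int.ediv_eq_zero_of_lt hc0 hc1, zero_add]

/-- the coefficient at digit `t` -/
def k4_D (k : Fin 6 → ℤ) (r : Fin 6 → Fin 6 → ℤ) (t : ℕ) : ℤ :=
  ∑ i, (if posn i = t + 35 then k i else 0) + ∑ i, ∑ j, (if posn i + posn j = t + 35 then r i j else 0)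

theorem k4_posn_lo (i : Fin 6) : 35 ≤ posn i ∧ posn i < 105 := by
  revert i; decide

theorem k4_posn_lo2 (i j : Fin 6) : 35 ≤ posn i + posn j ∧ posn i + posn j < 105 := by
  revert i j; decide

theorem k4_pick {R : Type*} [CommRing R] (n : ℕ) (h1 : 35 ≤ n) (h2 : n < 105) (a : ℤ) (F : ℕ → R) :
    ∑ t ∈ Finset.range 70, (((if n = t + 35 then a else 0 : ℤ)) : R) * F (t + 35) = (a : R) * F n := by
  rw [Finset.sum_eq_single (n - 35)]
  · have e : n - 35 + 35 = n := by omega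
    rw [e, if_pos rfl]
  · intro b _ hb
    rw [if_neg (by omega)]
    simp
  · intro h
    exfalso
    apply h
    rw [Finset.mem_range]
    omega

theorem k4_sum {R : Type*} [CommRing R] (k : Fin 6 → ℤ) (r : Fin 6 → Fin 6 → ℤ) (F : ℕ → R) :
    ∑ t ∈ Finset.range 70, (k4_D k r t : R) * F (t + 35) =
      ∑ i, (k i : R) * F (posn i) + ∑ i, ∑ j, (r i j : R) * F (posn i + posn j) := by
  have e1 : ∀ t, (k4_D k r t : R) * F (t + 35) =
      ∑ i, (((if posn i = t + 35 then k i else 0 : ℤ)) : R) * F (t + 35) +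
      ∑ i, ∑ j, (((if posn i + posn j = t + 35 then r i j else 0 : ℤ)) : R) * F (t + 35) := by
    intro t
    unfold k4_D
    push_cast
    rw [add_mul, Finset.sum_mul, Finset.sum_mul]
    congr 1
    apply Finset.sum_congr rfl
    intro i _
    rw [Finset.sum_mul]
  rw [Finset.sum_congr rfl (fun t _ => e1 t), Finset.sum_add_distrib, Finset.sum_comm]
  congr 1
  · exact Finset.sum_congr rfl (fun i _ => k4_pick _ (k4_posn_lo i).1 (k4_posn_lo i).2 _ F)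
  · rw [Finset.sum_comm]
    apply Finset.sum_congr rfl
    intro i _
    rw [Finset.sum_comm]
    exact Finset.sum_congr rfl (fun j _ => k4_pick _ (k4_posn_lo2 i j).1 (k4_posn_lo2 i j).2 _ F)

theorem k4_abs (k : Fin 6 → ℤ) (r : Fin 6 → Fin 6 → ℤ) (t : ℕ) :
    |k4_D k r t| ≤ k4_D (fun i => |k i|) (fun i j => |r i j|) t := by
  unfold k4_D
  refine (abs_add_le _ _).trans (add_le_add ?_ ?_)
  · refine (Finset.abs_sum_le_sum_abs _ _).trans (Finset.sum_le_sum ?_)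
    intro i _
    split_ifs <;> simp
  · refine (Finset.abs_sum_le_sum_abs _ _).trans (Finset.sum_le_sum ?_)
    intro i _
    refine (Finset.abs_sum_le_sum_abs _ _).trans (Finset.sum_le_sum ?_)
    intro j _
    split_ifs <;> simp

theorem k4_abs_sum (k : Fin 6 → ℤ) (r : Fin 6 → Fin 6 → ℤ) :
    ∑ t ∈ Finset.range 70, |k4_D k r t| ≤ ∑ i, |k i| + ∑ i, ∑ j, |r i j| := by
  have h := k4_sum (R := ℤ) (fun i => |k i|) (fun i j => |r i j|) (fun _ => 1)
  simp only [mul_one, Int.cast_id] at h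
  rw [← h]
  exact Finset.sum_le_sum (fun t _ => k4_abs k r t)

theorem k4_dis1 (i j : Fin 6) (h : posn i = posn j) : i = j := by
  revert i j; decide

theorem k4_dis2 (i j l : Fin 6) : posn i ≠ posn j + posn l := by
  revert i j l; decide

set_option maxRecDepth 100000 in
theorem k4_dis3 : ∀ i j k l : Fin 6, posn i + posn j = posn k + posn l → (i = k ∧ j = l) ∨ (i = l ∧ j = k) := by
  decide

theorem k4_ext (ε : Fin 6 → ℝ) (hε : ∀ i, |ε i| ≤ 1) :
    ∃ e : ℕ → ℝ, (∀ n, |e n| ≤ 1) ∧ (∀ i, e (posn i) = ε i) ∧ ∀ i j, e (posn i + posn j) = ε i * ε j := by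
  classical
  let pos : Fin 6 ⊕ (Fin 6 × Fin 6) → ℕ := Sum.elim posn (fun q => posn q.1 + posn q.2)
  let val : Fin 6 ⊕ (Fin 6 × Fin 6) → ℝ := Sum.elim ε (fun q => ε q.1 * ε q.2)
  have hfac : Function.FactorsThrough val pos := by
    rintro (i | ⟨i, j⟩) (k | ⟨k, l⟩) h
    · exact congrArg ε (k4_dis1 _ _ h)
    · exact absurd h (k4_dis2 _ _ _)
    · exact absurd h.symm (k4_dis2 _ _ _)
    · rcases k4_dis3 _ _ _ _ h with ⟨h1, h2⟩ | ⟨h1, h2⟩
      · subst h1; subst h2; rfl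
      · subst h1; subst h2
        exact mul_comm _ _
  have hval : ∀ a, |val a| ≤ 1 := by
    rintro (i | ⟨i, j⟩)
    · exact hε i
    · show |ε i * ε j| ≤ 1
      rw [abs_mul]
      exact mul_le_one₀ (hε i) (abs_nonneg _) (hε j)
  refine ⟨Function.extend pos val (fun _ => 0), ?_, ?_, ?_⟩
  · intro n
    by_cases hn : ∃ a, pos a = n
    · obtain ⟨a, rfl⟩ := hn
      rw [hfac.extend_apply]
      exact hval a
    · rw [Function.extend_apply' _ _ _ hn]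
      simp
  · intro i
    exact hfac.extend_apply (fun _ => 0) (Sum.inl i)
  · intro i j
    exact hfac.extend_apply (fun _ => 0) (Sum.inr (i, j))

theorem k4_real (ε : Fin 6 → ℝ) (hε : ∀ i, |ε i| ≤ 1) (k : Fin 6 → ℤ) (r : Fin 6 → Fin 6 → ℤ) :
    |∑ i, (k i : ℝ) * ε i + ∑ i, ∑ j, (r i j : ℝ) * (ε i * ε j)| ≤ ((∑ t ∈ Finset.range 70, |k4_D k r t| : ℤ) : ℝ) := by
  obtain ⟨e, he, he1, he2⟩ := k4_ext ε hε
  have h := k4_sum (R := ℝ) k r e
  simp only [he1, he2] at h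
  rw [← h]
  push_cast
  refine (Finset.abs_sum_le_sum_abs _ _).trans (Finset.sum_le_sum ?_)
  intro t _
  rw [abs_mul]
  exact mul_le_of_le_one_right (abs_nonneg _) (he _)

theorem k4_OFF : (OFF : ℤ) = 2 ^ 6159 + 2 ^ 6160 * ∑ t ∈ Finset.range 70, 2 ^ 175 * ((2 ^ 176 : ℕ) : ℤ) ^ t := by
  have h1 : (OFF : ℤ) * (2 ^ 176 - 1) = 2 ^ 6159 * (2 ^ 176 - 1) + 2 ^ 175 * 2 ^ 6160 * ((2 ^ 176) ^ 70 - 1) := by
    have h := k4_OFF1
    have h3 : (2 ^ 12320 : ℕ) = (2 ^ 176) ^ 70 := by rw [← pow_mul]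
    rw [h3] at h
    have h4 : 1 ≤ 2 ^ 176 := Nat.one_le_two_pow
    have h5 : 1 ≤ (2 ^ 176) ^ 70 := Nat.one_le_pow _ _ (by positivity)
    zify [h4, h5] at h
    exact h
  have h2 := k4_gs ((2 : ℤ) ^ 176) 70
  rw [← Finset.mul_sum]
  have h6 : (((2 ^ 176 : ℕ)) : ℤ) = (2 : ℤ) ^ 176 := by rw [Nat.cast_pow, Nat.cast_ofNat]
  rw [h6]
  have h7 : ((2 : ℤ) ^ 176 - 1) ≠ 0 := by
    have : (1 : ℤ) < 2 ^ 176 := one_lt_pow₀ (by norm_num) (by norm_num)
    omega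
  apply mul_right_cancel₀ h7
  rw [h1, add_mul, ← h2]
  ring

theorem k4_main {ε : Fin 6 → ℝ} (hε : ∀ i, |ε i| ≤ 1) {b : ℝ} {p : P} {x : ℝ} (h : Rep ε b p x) (hb : b ≤ 2 ^ 174) :
    ∃ c : ℤ, |x - c| ≤ (dsum (Nat.shiftRight (Nat.land (Nat.add p.n OFF) MK) 6160) : ℝ) + 35 + (rem p.m : ℝ) ∧
      ((Nat.land (Nat.land (Nat.add p.n OFF) MK) LO : ℕ) : ℤ) = c + 2 ^ 6159 := by
  obtain ⟨c, k, r, ρ, g, hx, hn, hm, hc, hk, hr, hρ, hg⟩ := h
  have hgR : ((g.eval 1 : ℕ) : ℝ) ≤ 2 ^ 174 := hg.trans hb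
  have hgN : g.eval 1 ≤ 2 ^ 174 := by exact_mod_cast hgR
  have hco : g.coeff 0 + g.coeff 1 + g.coeff 2 ≤ g.eval 1 := by
    have : ((g.coeff 0 + g.coeff 1 + g.coeff 2 : ℕ) : ℝ) ≤ ((g.eval 1 : ℕ) : ℝ) := by
      push_cast
      have := abs_nonneg ρ
      linarith
    exact_mod_cast this
  have hrem := rem_ge g hgN
  rw [← hm] at hrem
  have hd := k4_abs_sum k r
  set S : ℤ := ∑ t ∈ Finset.range 70, |k4_D k r t| with hS
  have hcoz : (g.coeff 0 : ℤ) + g.coeff 1 + g.coeff 2 ≤ 2 ^ 174 := by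
    have := hco.trans hgN
    exact_mod_cast this
  have hS1 : |c| + S ≤ 2 ^ 174 := by linarith
  have hS0 : 0 ≤ S := Finset.sum_nonneg (fun t _ => abs_nonneg _)
  have hSle : S ≤ 2 ^ 174 := by have := abs_nonneg c; linarith
  have hcle : |c| ≤ 2 ^ 174 := by linarith
  have hDt : ∀ t ∈ Finset.range 70, |k4_D k r t| ≤ 2 ^ 174 := fun t ht =>
    (Finset.single_le_sum (f := fun t => |k4_D k r t|) (fun t _ => abs_nonneg _) ht).trans hSle
  -- digits
  let u : ℕ → ℤ := fun t => if t < 70 then k4_D k r t + 2 ^ 175 else 0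
  have hu : ∀ t, 0 ≤ u t ∧ u t < ((2 ^ 176 : ℕ) : ℤ) := by
    intro t
    simp only [u]
    split_ifs with ht
    · have := abs_le.mp (hDt t (Finset.mem_range.mpr ht))
      push_cast
      constructor
      · have e : (2 : ℤ) ^ 175 = 2 * 2 ^ 174 := by ring
        have : (0 : ℤ) < 2 ^ 174 := by positivity
        omega
      · have e : (2 : ℤ) ^ 175 = 2 * 2 ^ 174 := by ring
        have e' : (2 : ℤ) ^ 176 = 4 * 2 ^ 174 := by ring
        have : (0 : ℤ) < 2 ^ 174 := by positivity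
        omega
    · exact ⟨le_refl _, by positivity⟩
  have hu2 : ∀ F : ℕ → ℤ, ∑ t ∈ Finset.range 70, u t * F t = ∑ t ∈ Finset.range 70, (k4_D k r t + 2 ^ 175) * F t := by
    intro F
    apply Finset.sum_congr rfl
    intro t ht
    simp only [u, if_pos (Finset.mem_range.mp ht)]
  set y : ℕ := Nat.land (Nat.add p.n OFF) MK with hy
  have hy1 : y = (p.n + OFF) % 2 ^ 18480 := by
    rw [hy, k4_MK]
    exact Nat.and_two_pow_sub_one_eq_mod _ _
  have hM : ((2 ^ 6160 * (2 ^ 176) ^ 70 : ℕ)) = 2 ^ 18480 := by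
    rw [← pow_mul, ← pow_add]
  have hlt : y < 2 ^ 6160 * (2 ^ 176) ^ 70 := by
    rw [hM, hy1]
    exact Nat.mod_lt _ (by positivity)
  have hsumk := k4_sum (R := ℤ) k r (fun n => 2 ^ (176 * n))
  simp only [Int.cast_id] at hsumk
  have hcong : (y : ℤ) ≡ (c + 2 ^ 6159) + ((2 ^ 6160 : ℕ) : ℤ) * ∑ t ∈ Finset.range 70, u t * ((2 ^ 176 : ℕ) : ℤ) ^ t
      [ZMOD ((2 ^ 6160 * (2 ^ 176) ^ 70 : ℕ) : ℤ)] := by
    rw [hM, hu2, hy1]
    have a1 : (((p.n + OFF) % 2 ^ 18480 : ℕ) : ℤ) ≡ (p.n : ℤ) + OFF [ZMOD ((2 ^ 18480 : ℕ) : ℤ)] := by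
      rw [Int.natCast_mod]
      push_cast
      exact Int.mod_modEq _ _
    refine a1.trans ?_
    have a2 : ((2 ^ 18480 : ℕ) : ℤ) = (2 : ℤ) ^ 18480 := by rw [Nat.cast_pow, Nat.cast_ofNat]
    rw [a2]
    refine (hn.add_right _).trans ?_
    rw [k4_OFF]
    have a3 : c + ∑ i, k i * 2 ^ (176 * posn i) + ∑ i, ∑ j, r i j * 2 ^ (176 * (posn i + posn j)) =
        c + 2 ^ 6160 * ∑ t ∈ Finset.range 70, k4_D k r t * ((2 ^ 176 : ℕ) : ℤ) ^ t := by
      rw [add_assoc, ← hsumk, Finset.mul_sum]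
      congr 1
      apply Finset.sum_congr rfl
      intro t _
      have : (2 : ℤ) ^ (176 * (t + 35)) = 2 ^ 6160 * ((2 ^ 176 : ℕ) : ℤ) ^ t := by
        rw [Nat.cast_pow, Nat.cast_ofNat, ← pow_mul, ← pow_add]
        congr 1
        ring
      rw [this]
      ring
    rw [a3]
    have a4 : ∑ t ∈ Finset.range 70, (k4_D k r t + 2 ^ 175) * ((2 ^ 176 : ℕ) : ℤ) ^ t =
        ∑ t ∈ Finset.range 70, k4_D k r t * ((2 ^ 176 : ℕ) : ℤ) ^ t + ∑ t ∈ Finset.range 70, 2 ^ 175 * ((2 ^ 176 : ℕ) : ℤ) ^ t := by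
      rw [← Finset.sum_add_distrib]
      exact Finset.sum_congr rfl (fun t _ => by rw [add_mul])
    rw [a4]
    have a5 : ((2 ^ 6160 : ℕ) : ℤ) = (2 : ℤ) ^ 6160 := by rw [Nat.cast_pow, Nat.cast_ofNat]
    rw [a5]
    have a6 : ∀ (A B C D E : ℤ), A + B * C + (D + B * E) = A + D + B * (C + E) := by intros; ring
    rw [a6]
  have hpow1 : (2 : ℤ) ^ 174 ≤ 2 ^ 6159 := pow_le_pow_right₀ (by norm_num) (by norm_num)
  have hpow2 : (2 : ℤ) ^ 6160 = 2 * 2 ^ 6159 := by rw [← pow_succ']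
  have hpow3 : (2 : ℤ) ^ 174 < 2 ^ 6159 := pow_lt_pow_right₀ (by norm_num) (by norm_num)
  have hcab := abs_le.mp hcle
  obtain ⟨q1, q2⟩ := k4_split (c + 2 ^ 6159) u (2 ^ 176) (2 ^ 6160) y Nat.one_le_two_pow Nat.one_le_two_pow 70 hcong hlt
    (by linarith [hcab.1]) (by
      have a5 : ((2 ^ 6160 : ℕ) : ℤ) = (2 : ℤ) ^ 6160 := by rw [Nat.cast_pow, Nat.cast_ofNat]
      rw [a5, hpow2]
      linarith [hcab.2]) hu
  refine ⟨c, ?_, ?_⟩
  · have hds := dsum_le (fun t : Fin 70 => k4_D k r t) (by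
      rw [Fin.sum_univ_eq_sum_range (fun t => |k4_D k r t|) 70]
      exact hSle) (y / 2 ^ 6160) (by
      rw [q2, hu2, Fin.sum_univ_eq_sum_range (fun t => (k4_D k r t + 2 ^ 175) * 2 ^ (176 * t)) 70]
      apply Finset.sum_congr rfl
      intro t _
      rw [Nat.cast_pow, Nat.cast_ofNat, ← pow_mul])
    rw [Fin.sum_univ_eq_sum_range (fun t => |k4_D k r t|) 70, ← hS] at hds
    have hsh : Nat.shiftRight y 6160 = y / 2 ^ 6160 := Nat.shiftRight_eq_div_pow _ _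
    rw [hsh]
    have hre := k4_real ε hε k r
    rw [← hS] at hre
    have hdsR : (S : ℝ) ≤ (dsum (y / 2 ^ 6160) : ℝ) + 35 := by exact_mod_cast hds
    have hremR : ((g.eval 1 : ℕ) : ℝ) ≤ g.coeff 0 + g.coeff 1 + g.coeff 2 + (rem p.m : ℝ) := by exact_mod_cast hrem
    have e1 : x - c = (∑ i, (k i : ℝ) * ε i + ∑ i, ∑ j, (r i j : ℝ) * (ε i * ε j)) + ρ := by rw [hx]; ring
    rw [e1]
    refine (abs_add_le _ _).trans ?_
    linarith
  · have : Nat.land y LO = y % 2 ^ 6160 := by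
      rw [k4_LO]
      exact Nat.and_two_pow_sub_one_eq_mod _ _
    rw [this, q1]

theorem Rep.pos {ε : Fin 6 → ℝ} (hε : ∀ i, |ε i| ≤ 1) {b : ℝ} {p : P} {x : ℝ} (h : Rep ε b p x) (hb : b ≤ 2 ^ 174)
    (hp : p.pos = true) : 0 < x := by
  obtain ⟨c, h1, h2⟩ := k4_main hε h hb
  have h3 : HALF35 + rem p.m + dsum (Nat.shiftRight (Nat.land (Nat.add p.n OFF) MK) 6160) <
      Nat.land (Nat.land (Nat.add p.n OFF) MK) LO := by
    unfold P.pos pos2 at hp
    exact Nat.blt_eq.mp hp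
  rw [k4_HALF35] at h3
  generalize Nat.land (Nat.land (Nat.add p.n OFF) MK) LO = lo at h2 h3
  generalize dsum (Nat.shiftRight (Nat.land (Nat.add p.n OFF) MK) 6160) = ds at h1 h3
  generalize rem p.m = rr at h1 h3
  have h4 : ((2 : ℤ) ^ 6159 + 35) + rr + ds < lo := by exact_mod_cast h3
  rw [h2] at h4
  have h5 : (ds : ℤ) + 35 + rr < c := by linarith
  have h6 : (ds : ℝ) + 35 + rr < c := by exact_mod_cast h5
  have h7 := (abs_le.mp h1).1
  linarith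

theorem Rep.nz {ε : Fin 6 → ℝ} (hε : ∀ i, |ε i| ≤ 1) {b : ℝ} {p : P} {x : ℝ} (h : Rep ε b p x) (hb : b ≤ 2 ^ 174)
    (hp : p.nz = true) : x ≠ 0 := by
  obtain ⟨c, h1, h2⟩ := k4_main hε h hb
  have h3 : (HALF35 + (rem p.m + dsum (Nat.shiftRight (Nat.land (Nat.add p.n OFF) MK) 6160)) <
      Nat.land (Nat.land (Nat.add p.n OFF) MK) LO) ∨
      (Nat.land (Nat.land (Nat.add p.n OFF) MK) LO + (rem p.m + dsum (Nat.shiftRight (Nat.land (Nat.add p.n OFF) MK) 6160)) + 35 < HALF) := by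
    unfold P.nz nz2 nz3 at hp
    rw [Bool.or_eq_true] at hp
    exact hp.imp Nat.blt_eq.mp Nat.blt_eq.mp
  rw [k4_HALF35, k4_HALF] at h3
  generalize Nat.land (Nat.land (Nat.add p.n OFF) MK) LO = lo at h2 h3
  generalize dsum (Nat.shiftRight (Nat.land (Nat.add p.n OFF) MK) 6160) = ds at h1 h3
  generalize rem p.m = rr at h1 h3
  have h7 := abs_le.mp h1
  rcases h3 with h3 | h3
  · have h4 : ((2 : ℤ) ^ 6159 + 35) + (rr + ds) < lo := by exact_mod_cast h3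
    rw [h2] at h4
    have h5 : (ds : ℤ) + 35 + rr < c := by linarith
    have h6 : (ds : ℝ) + 35 + rr < c := by exact_mod_cast h5
    have : 0 < x := by linarith [h7.1]
    exact this.ne'
  · have h4 : (lo : ℤ) + (rr + ds) + 35 < (2 : ℤ) ^ 6159 := by exact_mod_cast h3
    rw [h2] at h4
    have h5 : (c : ℤ) < -((ds : ℤ) + 35 + rr) := by linarith
    have h6 : (c : ℝ) < -((ds : ℝ) + 35 + rr) := by exact_mod_cast h5
    have : x < 0 := by linarith [h7.2]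
    exact this.ne

end Pool.Agent.H304.K

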