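import Pool.Agent.helper304_full.KDefs
import Pool.Agent.helper304_full.K1
import Pool.Agent.helper304_full.K2
import Pool.Agent.helper304_full.K4

set_option autoImplicit false

set_option maxRecDepth 100000
set_option exponentiation.threshold 100000

namespace Pool.Agent.H304

end Pool.Agent.H304

namespace Pool.Agent.H304.K

theorem RepV.mono {ε : Fin 6 → ℝ} {b b' : ℝ} {v : V} {w : E} (h : RepV ε b v w) (hb : b ≤ b') : RepV ε b' v w :=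
  ⟨h.1.mono hb, h.2.1.mono hb, h.2.2.mono hb⟩

theorem RepV.add {ε : Fin 6 → ℝ} {b b' : ℝ} {v v' : V} {w w' : E} (h : RepV ε b v w) (h' : RepV ε b' v' w') :
    RepV ε (b + b') (v.add v') (w + w') :=
  ⟨h.1.add h'.1, h.2.1.add h'.2.1, h.2.2.add h'.2.2⟩

theorem RepV.sub {ε : Fin 6 → ℝ} {b b' : ℝ} {v v' : V} {w w' : E} (h : RepV ε b v w) (h' : RepV ε b' v' w') :
    RepV ε (b + b') (v.sub v') (w - w') :=
  ⟨h.1.sub h'.1, h.2.1.sub h'.2.1, h.2.2.sub h'.2.2⟩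

theorem RepV.smul {ε : Fin 6 → ℝ} {b : ℝ} {v : V} {w : E} (k : ℕ) (h : RepV ε b v w) : RepV ε (k * b) (v.smul k) ((k : ℝ) • w) :=
  ⟨h.1.smul k, h.2.1.smul k, h.2.2.smul k⟩

theorem RepV.scale {ε : Fin 6 → ℝ} (hε : ∀ i, |ε i| ≤ 1) {b b' t : ℝ} {p : P} {v : V} {w : E} (h : Rep ε b p t) (h' : RepV ε b' v w) :
    RepV ε (b * b') (V.scale p v) (t • w) :=
  ⟨h.mul hε h'.1, h.mul hε h'.2.1, h.mul hε h'.2.2⟩

theorem RepV.cross {ε : Fin 6 → ℝ} (hε : ∀ i, |ε i| ≤ 1) {b b' : ℝ} {v v' : V} {w w' : E} (h : RepV ε b v w) (h' : RepV ε b' v' w') :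
    RepV ε (2 * (b * b')) (v.cross v') (cr w w') := by
  refine ⟨?_, ?_, ?_⟩
  · rw [cr_0, two_mul]
    exact (h.2.1.mul hε h'.2.2).sub (h.2.2.mul hε h'.2.1)
  · rw [cr_1, two_mul]
    exact (h.2.2.mul hε h'.1).sub (h.1.mul hε h'.2.2)
  · rw [cr_2, two_mul]
    exact (h.1.mul hε h'.2.1).sub (h.2.1.mul hε h'.1)

theorem RepV.dot {ε : Fin 6 → ℝ} (hε : ∀ i, |ε i| ≤ 1) {b b' : ℝ} {v v' : V} {w w' : E} (h : RepV ε b v w) (h' : RepV ε b' v' w') :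
    Rep ε (3 * (b * b')) (v.dot v') (dt w w') := by
  have e : 3 * (b * b') = b * b' + b * b' + b * b' := by ring
  rw [e]
  exact ((h.1.mul hε h'.1).add (h.2.1.mul hε h'.2.1)).add (h.2.2.mul hε h'.2.2)

theorem RepV.comp {ε : Fin 6 → ℝ} {b : ℝ} {v : V} {w : E} (h : RepV ε b v w) (k : ℕ) : ∃ i : Fin 3, Rep ε b (comp v k) (w i) := by
  unfold K.comp
  cases Nat.beq k 0 with
  | true => exact ⟨0, h.1⟩
  | false =>
    cases Nat.beq k 1 with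
    | true => exact ⟨1, h.2.1⟩
    | false => exact ⟨2, h.2.2⟩

end Pool.Agent.H304.K

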