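import Pool.Agent.helper304_full.KDefs
import Pool.Agent.helper304_full.B1
import Pool.Agent.helper304_full.K1
import Pool.Agent.helper304_full.K2
import Pool.Agent.helper304_full.K4

set_option autoImplicit false

set_option maxRecDepth 100000
set_option exponentiation.threshold 100000

namespace Pool.Agent.H304

end Pool.Agent.H304

namespace Pool.Agent.H304.K

lemma b2_posx (ε : Fin 6 → ℝ) (p : P) (k : ℕ) (hn : p.n = k) (hm : p.m = k) (hk : k ≤ 2 ^ 21) : Rep ε (2 ^ 21) p (k : ℝ) := by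
  obtain ⟨n, m⟩ := p
  simp only at hn hm
  have h := Rep.emk' ε (k : ℤ) n m (by rw [hn]) (by rw [hm]; simp)
  have h2 := h.mono (b' := 2 ^ 21) (by rw [hm]; exact_mod_cast hk)
  simpa using h2

lemma b2_modneg (k n : ℕ) (h : n + k = 2 ^ 18480) : (n : ℤ) ≡ -k [ZMOD 2 ^ 18480] := by
  generalize hN : (2 : ℕ) ^ 18480 = N at h
  have hN' : (2 : ℤ) ^ 18480 = (N : ℤ) := by
    rw [← hN, Nat.cast_pow, Nat.cast_ofNat]
  rw [hN']
  have : (n : ℤ) = -(k : ℤ) + N := by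
    rw [← h]; push_cast; ring
  rw [this]
  exact Int.add_modEq_right

lemma b2_negx (ε : Fin 6 → ℝ) (p : P) (k : ℕ) (hn : p.n + k = 2 ^ 18480) (hm : p.m = k) (hk : k ≤ 2 ^ 21) :
    Rep ε (2 ^ 21) p (-(k : ℝ)) := by
  obtain ⟨n, m⟩ := p
  have h := Rep.emk' ε (-(k : ℤ)) n m (b2_modneg k n hn) (by
    have hm' : m = k := hm
    rw [hm']; simp)
  have h2 := h.mono (b' := 2 ^ 21) (by
    have hm' : m = k := hm
    rw [hm']; exact_mod_cast hk)
  have e : ((-(k : ℤ) : ℤ) : ℝ) = -(k : ℝ) := by push_cast; rfl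
  rwa [e] at h2

lemma b2_posi (ε : Fin 6 → ℝ) (p : P) (k : ℕ) (x : ℝ) (hn : p.n = k) (hm : p.m = k + 2 ^ 528) (hk : k + 1 ≤ 2 ^ 21)
    (hx : |x - k| ≤ 1) : Rep ε (2 ^ 21) p x := by
  obtain ⟨n, m⟩ := p
  have hn' : n = k := hn
  have hm' : m = k + 2 ^ 528 := hm
  have h := Rep.mk' ε k x n (by rw [hn']) hx
  rw [← hm'] at h
  exact h.mono (by exact_mod_cast hk)

lemma b2_negi (ε : Fin 6 → ℝ) (p : P) (k : ℕ) (x : ℝ) (hn : p.n + k = 2 ^ 18480) (hm : p.m = k + 2 ^ 528) (hk : k + 1 ≤ 2 ^ 21)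
    (hx : |x + k| ≤ 1) : Rep ε (2 ^ 21) p x := by
  obtain ⟨n, m⟩ := p
  have hm' : m = k + 2 ^ 528 := hm
  have h := Rep.nmk' ε k x n (b2_modneg k n hn) hx
  rw [← hm'] at h
  exact h.mono (by exact_mod_cast hk)

lemma b2_ph1 : |2 ^ 20 * ph - ((1696632 : ℕ) : ℝ)| ≤ 1 := by
  have h1 := ph_gt
  have h2 := ph_lt
  rw [abs_le]; constructor <;> push_cast <;> norm_num at * <;> linarith

lemma b2_ph2 : |2 ^ 20 * (ph - 1) - ((648056 : ℕ) : ℝ)| ≤ 1 := by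
  have h1 := ph_gt
  have h2 := ph_lt
  rw [abs_le]; constructor <;> push_cast <;> norm_num at * <;> linarith

lemma b2_zero (ε : Fin 6 → ℝ) (p : P) (hn : p.n = 0) (hm : p.m = 0) (x : ℝ) (hx : x = 0) : Rep ε (2 ^ 21) p x := by
  have := b2_posx ε p 0 hn hm (by norm_num)
  rw [hx]; simpa using this

theorem ent_rep (ε : Fin 6 → ℝ) {c : ℕ} (hc : c < 16) : Rep ε (2 ^ 21) (ent c) (2 ^ 20 * ((cvA c : ℝ) + (cvB c : ℝ) * ph)) := by
  have n0 : (ent 0).n = 0 := by decide +kernel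
  have m0 : (ent 0).m = 0 := by decide +kernel
  have n1 : (ent 1).n = 1048576 := by decide +kernel
  have m1 : (ent 1).m = 1048576 := by decide +kernel
  have n2 : (ent 2).n + 1048576 = 2 ^ 18480 := by decide +kernel
  have m2 : (ent 2).m = 1048576 := by decide +kernel
  have n3 : (ent 3).n = 1696632 := by decide +kernel
  have m3 : (ent 3).m = 1696632 + 2 ^ 528 := by decide +kernel
  have n4 : (ent 4).n + 1696632 = 2 ^ 18480 := by decide +kernel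
  have m4 : (ent 4).m = 1696632 + 2 ^ 528 := by decide +kernel
  have n5 : (ent 5).n = 648056 := by decide +kernel
  have m5 : (ent 5).m = 648056 + 2 ^ 528 := by decide +kernel
  have n6 : (ent 6).n + 648056 = 2 ^ 18480 := by decide +kernel
  have m6 : (ent 6).m = 648056 + 2 ^ 528 := by decide +kernel
  have n7 : (ent 7).n = 2097152 := by decide +kernel
  have m7 : (ent 7).m = 2097152 := by decide +kernel
  have n8 : (ent 8).n + 2097152 = 2 ^ 18480 := by decide +kernel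
  have m8 : (ent 8).m = 2097152 := by decide +kernel
  have n9 : (ent 9).n = 0 := by decide +kernel
  have m9 : (ent 9).m = 0 := by decide +kernel
  have n10 : (ent 10).n = 0 := by decide +kernel
  have m10 : (ent 10).m = 0 := by decide +kernel
  have n11 : (ent 11).n = 0 := by decide +kernel
  have m11 : (ent 11).m = 0 := by decide +kernel
  have n12 : (ent 12).n = 0 := by decide +kernel
  have m12 : (ent 12).m = 0 := by decide +kernel
  have n13 : (ent 13).n = 0 := by decide +kernel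
  have m13 : (ent 13).m = 0 := by decide +kernel
  have n14 : (ent 14).n = 0 := by decide +kernel
  have m14 : (ent 14).m = 0 := by decide +kernel
  have n15 : (ent 15).n = 0 := by decide +kernel
  have m15 : (ent 15).m = 0 := by decide +kernel
  have hz : ∀ c : ℕ, cvA c = 0 → cvB c = 0 → (2 : ℝ) ^ 20 * ((cvA c : ℝ) + (cvB c : ℝ) * ph) = 0 := by
    intro c h1 h2; rw [h1, h2]; simp
  match c, hc with
  | 0, _ => exact b2_zero ε _ n0 m0 _ (hz 0 rfl rfl)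
  | 1, _ =>
    have h := b2_posx ε _ _ n1 m1 (by norm_num)
    have e : (2 : ℝ) ^ 20 * ((cvA 1 : ℝ) + (cvB 1 : ℝ) * ph) = ((1048576 : ℕ) : ℝ) := by
      rw [show cvA 1 = 1 from rfl, show cvB 1 = 0 from rfl]; push_cast; ring
    rw [e]; exact h
  | 2, _ =>
    have h := b2_negx ε _ _ n2 m2 (by norm_num)
    have e : (2 : ℝ) ^ 20 * ((cvA 2 : ℝ) + (cvB 2 : ℝ) * ph) = -((1048576 : ℕ) : ℝ) := by
      rw [show cvA 2 = -1 from rfl, show cvB 2 = 0 from rfl]; push_cast; ring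
    rw [e]; exact h
  | 3, _ =>
    refine b2_posi ε _ _ _ n3 m3 (by norm_num) ?_
    have e : (2 : ℝ) ^ 20 * ((cvA 3 : ℝ) + (cvB 3 : ℝ) * ph) = 2 ^ 20 * ph := by
      rw [show cvA 3 = 0 from rfl, show cvB 3 = 1 from rfl]; push_cast; ring
    rw [e]; exact b2_ph1
  | 4, _ =>
    refine b2_negi ε _ _ _ n4 m4 (by norm_num) ?_
    have e : (2 : ℝ) ^ 20 * ((cvA 4 : ℝ) + (cvB 4 : ℝ) * ph) + ((1696632 : ℕ) : ℝ) = -(2 ^ 20 * ph - ((1696632 : ℕ) : ℝ)) := by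
      rw [show cvA 4 = 0 from rfl, show cvB 4 = -1 from rfl]; push_cast; ring
    rw [e, abs_neg]; exact b2_ph1
  | 5, _ =>
    refine b2_posi ε _ _ _ n5 m5 (by norm_num) ?_
    have e : (2 : ℝ) ^ 20 * ((cvA 5 : ℝ) + (cvB 5 : ℝ) * ph) = 2 ^ 20 * (ph - 1) := by
      rw [show cvA 5 = -1 from rfl, show cvB 5 = 1 from rfl]; push_cast; ring
    rw [e]; exact b2_ph2
  | 6, _ =>
    refine b2_negi ε _ _ _ n6 m6 (by norm_num) ?_
    have e : (2 : ℝ) ^ 20 * ((cvA 6 : ℝ) + (cvB 6 : ℝ) * ph) + ((648056 : ℕ) : ℝ) = -(2 ^ 20 * (ph - 1) - ((648056 : ℕ) : ℝ)) := by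
      rw [show cvA 6 = 1 from rfl, show cvB 6 = -1 from rfl]; push_cast; ring
    rw [e, abs_neg]; exact b2_ph2
  | 7, _ =>
    have h := b2_posx ε _ _ n7 m7 (by norm_num)
    have e : (2 : ℝ) ^ 20 * ((cvA 7 : ℝ) + (cvB 7 : ℝ) * ph) = ((2097152 : ℕ) : ℝ) := by
      rw [show cvA 7 = 2 from rfl, show cvB 7 = 0 from rfl]; push_cast; ring
    rw [e]; exact h
  | 8, _ =>
    have h := b2_negx ε _ _ n8 m8 (by norm_num)
    have e : (2 : ℝ) ^ 20 * ((cvA 8 : ℝ) + (cvB 8 : ℝ) * ph) = -((2097152 : ℕ) : ℝ) := by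
      rw [show cvA 8 = -2 from rfl, show cvB 8 = 0 from rfl]; push_cast; ring
    rw [e]; exact h
  | 9, _ => exact b2_zero ε _ n9 m9 _ (hz 9 rfl rfl)
  | 10, _ => exact b2_zero ε _ n10 m10 _ (hz 10 rfl rfl)
  | 11, _ => exact b2_zero ε _ n11 m11 _ (hz 11 rfl rfl)
  | 12, _ => exact b2_zero ε _ n12 m12 _ (hz 12 rfl rfl)
  | 13, _ => exact b2_zero ε _ n13 m13 _ (hz 13 rfl rfl)
  | 14, _ => exact b2_zero ε _ n14 m14 _ (hz 14 rfl rfl)
  | 15, _ => exact b2_zero ε _ n15 m15 _ (hz 15 rfl rfl)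
  | (k + 16), h => exact absurd h (by omega)

lemma b2_dig (tab i : ℕ) : dig tab i < 16 := by
  unfold dig
  have : Nat.land (Nat.shiftRight tab (Nat.mul 4 i)) 15 ≤ 15 := Nat.and_le_right
  omega

theorem row_rep {ε : Fin 6 → ℝ} (hε : ∀ i, |ε i| ≤ 1) {b : ℝ} {a : V} {w : E} (h : RepV ε b a w) (tab i : ℕ) :
    Rep ε (3 * 2 ^ 21 * b) (row tab i a) (2 ^ 20 * (((cvA (dig tab i) : ℝ) + (cvB (dig tab i) : ℝ) * ph) * w 0 +
      ((cvA (dig tab (i + 1)) : ℝ) + (cvB (dig tab (i + 1)) : ℝ) * ph) * w 1 +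
      ((cvA (dig tab (i + 2)) : ℝ) + (cvB (dig tab (i + 2)) : ℝ) * ph) * w 2)) := by
  obtain ⟨h0, h1, h2⟩ := h
  have e0 := (ent_rep ε (b2_dig tab i)).mul hε h0
  have e1 := (ent_rep ε (b2_dig tab (i + 1))).mul hε h1
  have e2 := (ent_rep ε (b2_dig tab (i + 2))).mul hε h2
  have e := (e0.add e1).add e2
  have hb : (2 : ℝ) ^ 21 * b + 2 ^ 21 * b + 2 ^ 21 * b = 3 * 2 ^ 21 * b := by ring
  have hv : (2 : ℝ) ^ 20 * ((cvA (dig tab i) : ℝ) + (cvB (dig tab i) : ℝ) * ph) * w 0 +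
      2 ^ 20 * ((cvA (dig tab (i + 1)) : ℝ) + (cvB (dig tab (i + 1)) : ℝ) * ph) * w 1 +
      2 ^ 20 * ((cvA (dig tab (i + 2)) : ℝ) + (cvB (dig tab (i + 2)) : ℝ) * ph) * w 2 =
      2 ^ 20 * (((cvA (dig tab i) : ℝ) + (cvB (dig tab i) : ℝ) * ph) * w 0 +
      ((cvA (dig tab (i + 1)) : ℝ) + (cvB (dig tab (i + 1)) : ℝ) * ph) * w 1 +
      ((cvA (dig tab (i + 2)) : ℝ) + (cvB (dig tab (i + 2)) : ℝ) * ph) * w 2) := by ring
  rw [hb, hv] at e
  exact e

end Pool.Agent.H304.K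

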