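import Pool.Agent.helper304_full.KDefs
import Pool.Agent.helper304_full.B2
import Pool.Agent.helper304_full.K1
import Pool.Agent.helper304_full.K2
import Pool.Agent.helper304_full.K4

set_option autoImplicit false

set_option maxRecDepth 100000
set_option exponentiation.threshold 100000

namespace Pool.Agent.H304

end Pool.Agent.H304

namespace Pool.Agent.H304.K

/-- coordinates `p + q ph` of the six axes: rational part -/
def b4_vp (s c : ℕ) : ℤ := match s, c with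
  | 0, 1 => 1 | 1, 1 => 1 | 2, 0 => 1 | 3, 0 => 1 | 4, 2 => 1 | 5, 2 => 1 | _, _ => 0

/-- coordinates `p + q ph` of the six axes: golden part -/
def b4_vq (s c : ℕ) : ℤ := match s, c with
  | 0, 2 => 1 | 1, 2 => -1 | 2, 1 => 1 | 3, 1 => -1 | 4, 0 => 1 | 5, 0 => -1 | _, _ => 0

theorem b4_fin : ∀ mt < 15, ∀ s < 6, ∃ k < 3,
    (cvA (dig TT (3 * dig MT (3 * mt + k))) * b4_vp s 0 + cvB (dig TT (3 * dig MT (3 * mt + k))) * b4_vq s 0
    + (cvA (dig TT (3 * dig MT (3 * mt + k) + 1)) * b4_vp s 1 + cvB (dig TT (3 * dig MT (3 * mt + k) + 1)) * b4_vq s 1)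
    + (cvA (dig TT (3 * dig MT (3 * mt + k) + 2)) * b4_vp s 2 + cvB (dig TT (3 * dig MT (3 * mt + k) + 2)) * b4_vq s 2) = 0) ∧
    (cvA (dig TT (3 * dig MT (3 * mt + k))) * b4_vq s 0 + cvB (dig TT (3 * dig MT (3 * mt + k))) * (b4_vp s 0 + b4_vq s 0)
    + (cvA (dig TT (3 * dig MT (3 * mt + k) + 1)) * b4_vq s 1
      + cvB (dig TT (3 * dig MT (3 * mt + k) + 1)) * (b4_vp s 1 + b4_vq s 1))
    + (cvA (dig TT (3 * dig MT (3 * mt + k) + 2)) * b4_vq s 2
      + cvB (dig TT (3 * dig MT (3 * mt + k) + 2)) * (b4_vp s 2 + b4_vq s 2)) = 0) := by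
  decide +kernel

theorem b4_three {Y : V} {mt : ℕ} (hs : star Y mt = true) :
    mt < 15 ∧ ∀ k < 3, P.nz (row TT (3 * dig MT (3 * mt + k)) Y) = true := by
  unfold star star3 star1 at hs
  rw [Bool.and_eq_true, Bool.and_eq_true, Bool.and_eq_true] at hs
  obtain ⟨h1, h2, h3, h4⟩ := hs
  have h1' : mt < 15 := by
    simpa using h1
  refine ⟨h1', ?_⟩
  intro k hk
  have : k = 0 ∨ k = 1 ∨ k = 2 := by omega
  rcases this with rfl | rfl | rfl
  · exact h2
  · exact h3
  · exact h4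

theorem b4_axis {w : E} (hw : OnStar w) : ∃ s < 6, ∃ t : ℝ,
    w 0 = t * ((b4_vp s 0 : ℝ) + (b4_vq s 0 : ℝ) * ph) ∧
    w 1 = t * ((b4_vp s 1 : ℝ) + (b4_vq s 1 : ℝ) * ph) ∧
    w 2 = t * ((b4_vp s 2 : ℝ) + (b4_vq s 2 : ℝ) * ph) := by
  obtain ⟨v, ⟨σ, τ, hσ, hτ, hv⟩, hc⟩ := hw
  have c0 : v 1 * w 2 - v 2 * w 1 = 0 := by rw [← cr_0, hc]; simp
  have c1 : v 2 * w 0 - v 0 * w 2 = 0 := by rw [← cr_1, hc]; simp
  have c2 : v 0 * w 1 - v 1 * w 0 = 0 := by rw [← cr_2, hc]; simp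
  have hph : (0 : ℝ) < ph := by linarith [ph_gt]
  have hσ2 : σ * σ = 1 := by rcases hσ with h | h <;> rw [h] <;> norm_num
  have hτ2 : τ * τ = 1 := by rcases hτ with h | h <;> rw [h] <;> norm_num
  rcases hv with hv | hv | hv
  · have v0 : v 0 = 0 := by rw [hv]; simp
    have v1 : v 1 = σ := by rw [hv]; simp
    have v2 : v 2 = τ * ph := by rw [hv]; simp
    simp only [v0, v1, v2] at c0 c1 c2
    have w0 : w 0 = 0 := by
      have : σ * (σ * w 0) = 0 := by
        have : σ * w 0 = 0 := by linarith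
        rw [this, mul_zero]
      rw [← mul_assoc, hσ2, one_mul] at this
      exact this
    have w2 : w 2 = σ * τ * (w 1 * ph) := by
      have : σ * (σ * w 2) = σ * (τ * ph * w 1) := by
        congr 1
        linarith
      rw [← mul_assoc, hσ2, one_mul] at this
      rw [this]
      ring
    rcases hσ with rfl | rfl <;> rcases hτ with rfl | rfl
    · exact ⟨0, by norm_num, w 1, by simp [b4_vp, b4_vq, w0], by simp [b4_vp, b4_vq],
        by rw [w2]; simp [b4_vp, b4_vq]⟩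
    · exact ⟨1, by norm_num, w 1, by simp [b4_vp, b4_vq, w0], by simp [b4_vp, b4_vq],
        by rw [w2]; simp [b4_vp, b4_vq]⟩
    · exact ⟨1, by norm_num, w 1, by simp [b4_vp, b4_vq, w0], by simp [b4_vp, b4_vq],
        by rw [w2]; simp [b4_vp, b4_vq]⟩
    · exact ⟨0, by norm_num, w 1, by simp [b4_vp, b4_vq, w0], by simp [b4_vp, b4_vq],
        by rw [w2]; simp [b4_vp, b4_vq]⟩
  · have v0 : v 0 = σ := by rw [hv]; simp
    have v1 : v 1 = τ * ph := by rw [hv]; simp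
    have v2 : v 2 = 0 := by rw [hv]; simp
    simp only [v0, v1, v2] at c0 c1 c2
    have w0 : w 2 = 0 := by
      have : σ * (σ * w 2) = 0 := by
        have : σ * w 2 = 0 := by linarith
        rw [this, mul_zero]
      rw [← mul_assoc, hσ2, one_mul] at this
      exact this
    have w2 : w 1 = σ * τ * (w 0 * ph) := by
      have : σ * (σ * w 1) = σ * (τ * ph * w 0) := by
        congr 1
        linarith
      rw [← mul_assoc, hσ2, one_mul] at this
      rw [this]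
      ring
    rcases hσ with rfl | rfl <;> rcases hτ with rfl | rfl
    · exact ⟨2, by norm_num, w 0, by simp [b4_vp, b4_vq], by rw [w2]; simp [b4_vp, b4_vq],
        by simp [b4_vp, b4_vq, w0]⟩
    · exact ⟨3, by norm_num, w 0, by simp [b4_vp, b4_vq], by rw [w2]; simp [b4_vp, b4_vq],
        by simp [b4_vp, b4_vq, w0]⟩
    · exact ⟨3, by norm_num, w 0, by simp [b4_vp, b4_vq], by rw [w2]; simp [b4_vp, b4_vq],
        by simp [b4_vp, b4_vq, w0]⟩
    · exact ⟨2, by norm_num, w 0, by simp [b4_vp, b4_vq], by rw [w2]; simp [b4_vp, b4_vq],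
        by simp [b4_vp, b4_vq, w0]⟩
  · have v0 : v 0 = τ * ph := by rw [hv]; simp
    have v1 : v 1 = 0 := by rw [hv]; simp
    have v2 : v 2 = σ := by rw [hv]; simp
    simp only [v0, v1, v2] at c0 c1 c2
    have w0 : w 1 = 0 := by
      have : σ * (σ * w 1) = 0 := by
        have : σ * w 1 = 0 := by linarith
        rw [this, mul_zero]
      rw [← mul_assoc, hσ2, one_mul] at this
      exact this
    have w2 : w 0 = σ * τ * (w 2 * ph) := by
      have : σ * (σ * w 0) = σ * (τ * ph * w 2) := by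
        congr 1
        linarith
      rw [← mul_assoc, hσ2, one_mul] at this
      rw [this]
      ring
    rcases hσ with rfl | rfl <;> rcases hτ with rfl | rfl
    · exact ⟨4, by norm_num, w 2, by rw [w2]; simp [b4_vp, b4_vq], by simp [b4_vp, b4_vq, w0],
        by simp [b4_vp, b4_vq]⟩
    · exact ⟨5, by norm_num, w 2, by rw [w2]; simp [b4_vp, b4_vq], by simp [b4_vp, b4_vq, w0],
        by simp [b4_vp, b4_vq]⟩
    · exact ⟨5, by norm_num, w 2, by rw [w2]; simp [b4_vp, b4_vq], by simp [b4_vp, b4_vq, w0],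
        by simp [b4_vp, b4_vq]⟩
    · exact ⟨4, by norm_num, w 2, by rw [w2]; simp [b4_vp, b4_vq], by simp [b4_vp, b4_vq, w0],
        by simp [b4_vp, b4_vq]⟩

theorem star_sound {ε : Fin 6 → ℝ} (hε : ∀ i, |ε i| ≤ 1) {b : ℝ} {Y : V} {w : E} (h : RepV ε b Y w) (hb : 3 * 2 ^ 21 * b ≤ 2 ^ 174)
    {mt : ℕ} (hs : star Y mt = true) : ¬ OnStar w := by
  intro hw
  obtain ⟨hmt, h3⟩ := b4_three hs
  obtain ⟨s, hs6, t, e0, e1, e2⟩ := b4_axis hw
  obtain ⟨k, hk, f1, f2⟩ := b4_fin mt hmt s hs6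
  have hne := Rep.nz hε (row_rep hε h TT (3 * dig MT (3 * mt + k))) hb (h3 k hk)
  apply hne
  have f1' := congrArg (Int.cast : ℤ → ℝ) f1
  have f2' := congrArg (Int.cast : ℤ → ℝ) f2
  push_cast at f1' f2'
  rw [e0, e1, e2]
  generalize (cvA (dig TT (3 * dig MT (3 * mt + k))) : ℝ) = A0 at *
  generalize (cvB (dig TT (3 * dig MT (3 * mt + k))) : ℝ) = B0 at *
  generalize (cvA (dig TT (3 * dig MT (3 * mt + k) + 1)) : ℝ) = A1 at *
  generalize (cvB (dig TT (3 * dig MT (3 * mt + k) + 1)) : ℝ) = B1 at *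
  generalize (cvA (dig TT (3 * dig MT (3 * mt + k) + 2)) : ℝ) = A2 at *
  generalize (cvB (dig TT (3 * dig MT (3 * mt + k) + 2)) : ℝ) = B2 at *
  generalize (b4_vp s 0 : ℝ) = p0 at *
  generalize (b4_vp s 1 : ℝ) = p1 at *
  generalize (b4_vp s 2 : ℝ) = p2 at *
  generalize (b4_vq s 0 : ℝ) = q0 at *
  generalize (b4_vq s 1 : ℝ) = q1 at *
  generalize (b4_vq s 2 : ℝ) = q2 at *
  linear_combination (2 ^ 20 * t) * f1' + (2 ^ 20 * t * ph) * f2'
    + (2 ^ 20 * t * (B0 * q0 + B1 * q1 + B2 * q2)) * ph_sq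

end Pool.Agent.H304.K

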