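import Pool.Agent.helper304_full.KDefs
import Pool.Agent.helper304_full.B1
import Pool.Agent.helper304_full.K1
import Pool.Agent.helper304_full.K2
import Pool.Agent.helper304_full.K4

set_option autoImplicit false

set_option maxRecDepth 100000
set_option exponentiation.threshold 100000

namespace Pool.Agent.H304

end Pool.Agent.H304

namespace Pool.Agent.H304.K

theorem Rv_rep {ε : Fin 6 → ℝ} (hε : ∀ i, |ε i| ≤ 1) {e : Env} {z u : E} {c s : ℝ} (he : EnvRep ε e z u c s) {j : ℕ} (hj : j < e.jm)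
    {b : ℝ} {w' : V} {w : E} (hw : RepV ε b w' w) : ∃ D : ℝ, 0 < D ∧ Rep ε (2 ^ 87) (e.ax j).D D ∧
      RepV ε (2 ^ 91 * b) (Rv j (e.ax j) e.m (e.m.cross w')) (D • (H304.rot u (pc c s j) (ps c s j) w - w)) := by
  obtain ⟨μ, bM, hμ, hbM, hm, h⟩ := he.rax
  obtain ⟨A, B, D, bA, bB, hD, rA, rB, rD, b1, b2, hid⟩ := h j hj
  refine ⟨D, hD, rD, ?_⟩
  have hb : 0 ≤ b := hw.1.nonneg
  have hc := RepV.cross hε hm hw
  have hcc := RepV.cross hε hm hc
  have hB := RepV.scale hε rB hcc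
  have hA := RepV.scale hε rA hc
  have hbd : bB * (2 * (bM * (2 * (bM * b)))) + bA * (2 * (bM * b)) ≤ 2 ^ 91 * b := by
    have k1 : bB * bM * bM * b ≤ 2 ^ 88 * b := mul_le_mul_of_nonneg_right b2 hb
    have k2 : bA * bM * b ≤ 2 ^ 88 * b := mul_le_mul_of_nonneg_right b1 hb
    have k3 : (2 : ℝ) ^ 91 * b = 8 * (2 ^ 88 * b) := by ring
    have k4 : (0 : ℝ) ≤ 2 ^ 88 * b := by positivity
    have k5 : bB * (2 * (bM * (2 * (bM * b)))) + bA * (2 * (bM * b)) =
        4 * (bB * bM * bM * b) + 2 * (bA * bM * b) := by ring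
    rw [k3, k5]
    linarith
  have hl : Nat.land j 1 = j % 2 := Nat.and_one_is_mod j
  rw [hid w]
  unfold Rv
  rw [hl]
  by_cases hj2 : j % 2 = 0
  · rw [if_pos hj2, hj2]
    have h1 := (hB.add hA).mono hbd
    rw [add_comm (B • cr (μ • u) (cr (μ • u) w))] at h1
    exact h1
  · rw [if_neg hj2]
    have hj3 : j % 2 = 1 := by omega
    rw [hj3]
    have h1 := (hB.sub hA).mono hbd
    have e1 : B • cr (μ • u) (cr (μ • u) w) - A • cr (μ • u) w =
        -A • cr (μ • u) w + B • cr (μ • u) (cr (μ • u) w) := by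
      rw [neg_smul]
      abel
    rw [e1] at h1
    exact h1

end Pool.Agent.H304.K

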