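import Pool.Agent.helper304_full.KDefs
import Pool.Agent.helper304_full.B2
import Pool.Agent.helper304_full.K1
import Pool.Agent.helper304_full.K2
import Pool.Agent.helper304_full.K4

set_option autoImplicit false

set_option maxRecDepth 100000
set_option exponentiation.threshold 100000

namespace Pool.Agent.H304

end Pool.Agent.H304

namespace Pool.Agent.H304.K

theorem b3_dig (tab i : ℕ) : dig tab i = tab / 16 ^ i % 16 := by
  show (tab >>> (4 * i)) &&& 15 = tab / 16 ^ i % 16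
  rw [Nat.shiftRight_eq_div_pow, pow_mul]
  have h := Nat.and_two_pow_sub_one_eq_mod (tab / (2 ^ 4) ^ i) 4
  have h4 : (2 : ℕ) ^ 4 = 16 := by norm_num
  rw [h4] at h ⊢
  exact h

theorem b3_GT : GT = H304.GT := by rfl

theorem b3_gcode (i r c k : ℕ) (hk : k = 9 * i + 3 * r + c) : dig GT k = gcode i r c := by
  subst hk
  rw [b3_dig, b3_GT]
  rfl

theorem b3_row {ε : Fin 6 → ℝ} (hε : ∀ i, |ε i| ≤ 1) {b : ℝ} {a : V} {w : E} (h : RepV ε b a w) (i r k : ℕ)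
    (hk : k = 9 * i + 3 * r) :
    Rep ε (3 * 2 ^ 21 * b) (row GT k a)
      (2 ^ 21 * (gent i r 0 * w 0 + gent i r 1 * w 1 + gent i r 2 * w 2)) := by
  have h1 := row_rep hε h GT k
  have e0 : dig GT k = gcode i r 0 := b3_gcode i r 0 k (by omega)
  have e1 : dig GT (k + 1) = gcode i r 1 := b3_gcode i r 1 _ (by omega)
  have e2 : dig GT (k + 2) = gcode i r 2 := b3_gcode i r 2 _ (by omega)
  rw [e0, e1, e2] at h1
  have e3 : (2 : ℝ) ^ 21 * (gent i r 0 * w 0 + gent i r 1 * w 1 + gent i r 2 * w 2)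
      = 2 ^ 20 * (((cvA (gcode i r 0) : ℝ) + (cvB (gcode i r 0) : ℝ) * ph) * w 0 +
      ((cvA (gcode i r 1) : ℝ) + (cvB (gcode i r 1) : ℝ) * ph) * w 1 +
      ((cvA (gcode i r 2) : ℝ) + (cvB (gcode i r 2) : ℝ) * ph) * w 2) := by
    unfold gent
    ring
  rw [e3]
  exact h1

theorem b3_face (f d0 d1 d2 : ℕ) (h0 : dig FT (3 * f) = d0) (h1 : dig FT (3 * f + 1) = d1)
    (h2 : dig FT (3 * f + 2) = d2) (g : E) (g0 : g 0 = (cvA d0 : ℝ) + (cvB d0 : ℝ) * ph)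
    (g1 : g 1 = (cvA d1 : ℝ) + (cvB d1 : ℝ) * ph) (g2 : g 2 = (cvA d2 : ℝ) + (cvB d2 : ℝ) * ph) :
    ∀ (ε : Fin 6 → ℝ) (b : ℝ) (Y : V) (w : E), (∀ i, |ε i| ≤ 1) →
    RepV ε b Y w → Rep ε (3 * 2 ^ 21 * b) (face f Y) (2 ^ 20 * dt w g) := by
  intro ε b Y w hε hY
  have h := row_rep hε hY FT (3 * f)
  rw [h0, h1, h2, ← g0, ← g1, ← g2] at h
  have e : (2 : ℝ) ^ 20 * dt w g = 2 ^ 20 * (g 0 * w 0 + g 1 * w 1 + g 2 * w 2) := by
    unfold dt
    ring
  rw [e]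
  exact h

theorem gz_rep {ε : Fin 6 → ℝ} (hε : ∀ i, |ε i| ≤ 1) {b : ℝ} {e : Env} {w : E} (h : RepV ε b e.z w) {i : ℕ} (hi : i < 60) :
    RepV ε (3 * 2 ^ 21 * b) (gz e i) ((2 : ℝ) ^ 21 • act i w) := by
  have r0 := b3_row hε h i 0 (9 * i) (by omega)
  have r1 := b3_row hε h i 1 (9 * i + 3) (by omega)
  have r2 := b3_row hε h i 2 (9 * i + 6) (by omega)
  have a0 : ((2 : ℝ) ^ 21 • act i w) 0
      = 2 ^ 21 * (gent i 0 0 * w 0 + gent i 0 1 * w 1 + gent i 0 2 * w 2) := by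
    simp [act]
  have a1 : ((2 : ℝ) ^ 21 • act i w) 1
      = 2 ^ 21 * (gent i 1 0 * w 0 + gent i 1 1 * w 1 + gent i 1 2 * w 2) := by
    simp [act]
  have a2 : ((2 : ℝ) ^ 21 • act i w) 2
      = 2 ^ 21 * (gent i 2 0 * w 0 + gent i 2 1 * w 1 + gent i 2 2 * w 2) := by
    simp [act]
  refine ⟨?_, ?_, ?_⟩
  · rw [a0]; exact r0
  · rw [a1]; exact r1
  · rw [a2]; exact r2

theorem face_rep {f : ℕ} (hf : f < 20) : ∃ g, IsFace g ∧ ∀ (ε : Fin 6 → ℝ) (b : ℝ) (Y : V) (w : E), (∀ i, |ε i| ≤ 1) →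
    RepV ε b Y w → Rep ε (3 * 2 ^ 21 * b) (face f Y) (2 ^ 20 * dt w g) := by
  interval_cases f
  · exact ⟨!₂[1, 1, 1], Or.inl ⟨1, 1, 1, by simp, by simp, by simp, rfl⟩, b3_face 0 1 1 1 (by decide +kernel) (by decide +kernel) (by decide +kernel) _
      (by simp [cvA, cvB] <;> ring) (by simp [cvA, cvB] <;> ring) (by simp [cvA, cvB] <;> ring)⟩
  · exact ⟨!₂[1, 1, (-1)], Or.inl ⟨1, 1, (-1), by simp, by simp, by simp, rfl⟩, b3_face 1 1 1 2 (by decide +kernel) (by decide +kernel) (by decide +kernel) _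
      (by simp [cvA, cvB] <;> ring) (by simp [cvA, cvB] <;> ring) (by simp [cvA, cvB] <;> ring)⟩
  · exact ⟨!₂[1, (-1), 1], Or.inl ⟨1, (-1), 1, by simp, by simp, by simp, rfl⟩, b3_face 2 1 2 1 (by decide +kernel) (by decide +kernel) (by decide +kernel) _
      (by simp [cvA, cvB] <;> ring) (by simp [cvA, cvB] <;> ring) (by simp [cvA, cvB] <;> ring)⟩
  · exact ⟨!₂[1, (-1), (-1)], Or.inl ⟨1, (-1), (-1), by simp, by simp, by simp, rfl⟩, b3_face 3 1 2 2 (by decide +kernel) (by decide +kernel) (by decide +kernel) _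
      (by simp [cvA, cvB] <;> ring) (by simp [cvA, cvB] <;> ring) (by simp [cvA, cvB] <;> ring)⟩
  · exact ⟨!₂[(-1), 1, 1], Or.inl ⟨(-1), 1, 1, by simp, by simp, by simp, rfl⟩, b3_face 4 2 1 1 (by decide +kernel) (by decide +kernel) (by decide +kernel) _
      (by simp [cvA, cvB] <;> ring) (by simp [cvA, cvB] <;> ring) (by simp [cvA, cvB] <;> ring)⟩
  · exact ⟨!₂[(-1), 1, (-1)], Or.inl ⟨(-1), 1, (-1), by simp, by simp, by simp, rfl⟩, b3_face 5 2 1 2 (by decide +kernel) (by decide +kernel) (by decide +kernel) _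
      (by simp [cvA, cvB] <;> ring) (by simp [cvA, cvB] <;> ring) (by simp [cvA, cvB] <;> ring)⟩
  · exact ⟨!₂[(-1), (-1), 1], Or.inl ⟨(-1), (-1), 1, by simp, by simp, by simp, rfl⟩, b3_face 6 2 2 1 (by decide +kernel) (by decide +kernel) (by decide +kernel) _
      (by simp [cvA, cvB] <;> ring) (by simp [cvA, cvB] <;> ring) (by simp [cvA, cvB] <;> ring)⟩
  · exact ⟨!₂[(-1), (-1), (-1)], Or.inl ⟨(-1), (-1), (-1), by simp, by simp, by simp, rfl⟩, b3_face 7 2 2 2 (by decide +kernel) (by decide +kernel) (by decide +kernel) _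
      (by simp [cvA, cvB] <;> ring) (by simp [cvA, cvB] <;> ring) (by simp [cvA, cvB] <;> ring)⟩
  · exact ⟨!₂[1 * (ph - 1), 0, 1 * ph], Or.inr ⟨1, 1, by simp, by simp, Or.inl rfl⟩, b3_face 8 5 0 3 (by decide +kernel) (by decide +kernel) (by decide +kernel) _
      (by simp [cvA, cvB] <;> ring) (by simp [cvA, cvB] <;> ring) (by simp [cvA, cvB] <;> ring)⟩
  · exact ⟨!₂[1 * (ph - 1), 0, (-1) * ph], Or.inr ⟨1, (-1), by simp, by simp, Or.inl rfl⟩, b3_face 9 5 0 4 (by decide +kernel) (by decide +kernel) (by decide +kernel) _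
      (by simp [cvA, cvB] <;> ring) (by simp [cvA, cvB] <;> ring) (by simp [cvA, cvB] <;> ring)⟩
  · exact ⟨!₂[(-1) * (ph - 1), 0, 1 * ph], Or.inr ⟨(-1), 1, by simp, by simp, Or.inl rfl⟩, b3_face 10 6 0 3 (by decide +kernel) (by decide +kernel) (by decide +kernel) _
      (by simp [cvA, cvB] <;> ring) (by simp [cvA, cvB] <;> ring) (by simp [cvA, cvB] <;> ring)⟩
  · exact ⟨!₂[(-1) * (ph - 1), 0, (-1) * ph], Or.inr ⟨(-1), (-1), by simp, by simp, Or.inl rfl⟩, b3_face 11 6 0 4 (by decide +kernel) (by decide +kernel) (by decide +kernel) _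
      (by simp [cvA, cvB] <;> ring) (by simp [cvA, cvB] <;> ring) (by simp [cvA, cvB] <;> ring)⟩
  · exact ⟨!₂[1 * ph, 1 * (ph - 1), 0], Or.inr ⟨1, 1, by simp, by simp, Or.inr (Or.inl rfl)⟩, b3_face 12 3 5 0 (by decide +kernel) (by decide +kernel) (by decide +kernel) _
      (by simp [cvA, cvB] <;> ring) (by simp [cvA, cvB] <;> ring) (by simp [cvA, cvB] <;> ring)⟩
  · exact ⟨!₂[(-1) * ph, 1 * (ph - 1), 0], Or.inr ⟨1, (-1), by simp, by simp, Or.inr (Or.inl rfl)⟩, b3_face 13 4 5 0 (by decide +kernel) (by decide +kernel) (by decide +kernel) _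
      (by simp [cvA, cvB] <;> ring) (by simp [cvA, cvB] <;> ring) (by simp [cvA, cvB] <;> ring)⟩
  · exact ⟨!₂[1 * ph, (-1) * (ph - 1), 0], Or.inr ⟨(-1), 1, by simp, by simp, Or.inr (Or.inl rfl)⟩, b3_face 14 3 6 0 (by decide +kernel) (by decide +kernel) (by decide +kernel) _
      (by simp [cvA, cvB] <;> ring) (by simp [cvA, cvB] <;> ring) (by simp [cvA, cvB] <;> ring)⟩
  · exact ⟨!₂[(-1) * ph, (-1) * (ph - 1), 0], Or.inr ⟨(-1), (-1), by simp, by simp, Or.inr (Or.inl rfl)⟩, b3_face 15 4 6 0 (by decide +kernel) (by decide +kernel) (by decide +kernel) _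
      (by simp [cvA, cvB] <;> ring) (by simp [cvA, cvB] <;> ring) (by simp [cvA, cvB] <;> ring)⟩
  · exact ⟨!₂[0, 1 * ph, 1 * (ph - 1)], Or.inr ⟨1, 1, by simp, by simp, Or.inr (Or.inr rfl)⟩, b3_face 16 0 3 5 (by decide +kernel) (by decide +kernel) (by decide +kernel) _
      (by simp [cvA, cvB] <;> ring) (by simp [cvA, cvB] <;> ring) (by simp [cvA, cvB] <;> ring)⟩
  · exact ⟨!₂[0, (-1) * ph, 1 * (ph - 1)], Or.inr ⟨1, (-1), by simp, by simp, Or.inr (Or.inr rfl)⟩, b3_face 17 0 4 5 (by decide +kernel) (by decide +kernel) (by decide +kernel) _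
      (by simp [cvA, cvB] <;> ring) (by simp [cvA, cvB] <;> ring) (by simp [cvA, cvB] <;> ring)⟩
  · exact ⟨!₂[0, 1 * ph, (-1) * (ph - 1)], Or.inr ⟨(-1), 1, by simp, by simp, Or.inr (Or.inr rfl)⟩, b3_face 18 0 3 6 (by decide +kernel) (by decide +kernel) (by decide +kernel) _
      (by simp [cvA, cvB] <;> ring) (by simp [cvA, cvB] <;> ring) (by simp [cvA, cvB] <;> ring)⟩
  · exact ⟨!₂[0, (-1) * ph, (-1) * (ph - 1)], Or.inr ⟨(-1), (-1), by simp, by simp, Or.inr (Or.inr rfl)⟩, b3_face 19 0 4 6 (by decide +kernel) (by decide +kernel) (by decide +kernel) _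
      (by simp [cvA, cvB] <;> ring) (by simp [cvA, cvB] <;> ring) (by simp [cvA, cvB] <;> ring)⟩

end Pool.Agent.H304.K

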