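import Pool.Agent.helper304_full.KDefs
import Pool.Agent.helper304_full.A3
import Pool.Agent.helper304_full.B1
import Pool.Agent.helper304_full.B3
import Pool.Agent.helper304_full.K1
import Pool.Agent.helper304_full.K2
import Pool.Agent.helper304_full.K4

set_option autoImplicit false

set_option maxRecDepth 100000
set_option exponentiation.threshold 100000

namespace Pool.Agent.H304

end Pool.Agent.H304

namespace Pool.Agent.H304.K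

lemma b8_cond_true {a b c : Bool} (ha : a = true) (h : cond a b c = true) : b = true := by
  subst ha; exact h

lemma b8_cond_false {a b c : Bool} (ha : a = false) (h : cond a b c = true) : c = true := by
  subst ha; exact h

lemma b8_dt_smul (a : ℝ) (y g : E) : dt (a • y) g = a * dt y g := dt_smul_left a y g

lemma b8_case0 {ε : Fin 6 → ℝ} (hε : ∀ i, |ε i| ≤ 1) {e : Env} {InX : E → Prop} {z u : E} {c s lam S tt : ℝ} (he : EnvRep ε e z u c s)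
    (G : Geo InX z u c s lam S tt) {κ Sb : ℕ} (hV : Val lam S κ Sb) {D : ℝ} {pD pE pF : P} {y g : E} (hD : 0 < D)
    (rD : Rep ε (2 ^ 87) pD D) (rE : Rep ε (2 ^ 148) pE (2 ^ 49 * D * (dt z z - dt y y))) (hE : dt y y < dt z z)
    (hg : IsFace g) (rF : Rep ε (3 * 2 ^ 21 * 2 ^ 131) pF (2 ^ 20 * dt ((2 ^ 35 * D) • y) g))
    (hv : vt1 e pD pE pF Sb = true) : Lev S lam y := by
  have r1 := (rE.smul 262144).add ((rF.sub ((rD.mul hε he.ra).smul 2097152)).smul (Nat.mul 2 Sb))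
  have hSb : (((Nat.mul 2 Sb : ℕ)) : ℝ) = 2 * (Sb : ℝ) := by
    rw [show Nat.mul 2 Sb = 2 * Sb from rfl]; push_cast; ring
  have hSb' : (Sb : ℝ) < 2 ^ 14 := by exact_mod_cast hV.sb
  have hSb0 : (0 : ℝ) ≤ (Sb : ℝ) := Nat.cast_nonneg _
  have hp := Rep.pos hε r1 (by
    rw [hSb]
    have h1 : 2 * (Sb : ℝ) * (3 * 2 ^ 21 * 2 ^ 131 + ((2097152 : ℕ) : ℝ) * (2 ^ 87 * 2 ^ 36)) ≤
        2 * 2 ^ 14 * (3 * 2 ^ 21 * 2 ^ 131 + ((2097152 : ℕ) : ℝ) * (2 ^ 87 * 2 ^ 36)) := by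
      apply mul_le_mul_of_nonneg_right _ (by positivity)
      linarith
    have h2 : ((262144 : ℕ) : ℝ) * 2 ^ 148 + 2 * 2 ^ 14 * (3 * 2 ^ 21 * 2 ^ 131 + ((2097152 : ℕ) : ℝ) * (2 ^ 87 * 2 ^ 36)) ≤ 2 ^ 174 := by
      norm_num
    linarith) hv
  rw [hSb, b8_dt_smul] at hp
  have hq : ((262144 : ℕ) : ℝ) * (2 ^ 49 * D * (dt z z - dt y y)) + 2 * (Sb : ℝ) * (2 ^ 20 * (2 ^ 35 * D * dt y g) -
      ((2097152 : ℕ) : ℝ) * (D * (2 ^ 34 * dt z f0))) =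
      (2 ^ 67 * D) * (dt z z - dt y y + 2 * ((Sb : ℝ) / 2 ^ 12) * (dt y g - dt z f0)) := by
    push_cast; ring
  rw [hq] at hp
  have hp' := (mul_pos_iff_of_pos_left (by positivity : (0 : ℝ) < 2 ^ 67 * D)).1 hp
  exact Geo.lev1 G hg hV.s hE hp'

lemma b8_case1 {ε : Fin 6 → ℝ} (hε : ∀ i, |ε i| ≤ 1) {e : Env} {InX : E → Prop} {z u : E} {c s lam S tt : ℝ} (he : EnvRep ε e z u c s)
    (G : Geo InX z u c s lam S tt) {κ Sb : ℕ} (hV : Val lam S κ Sb) {D : ℝ} {pD pE pF : P} {y g : E} (hD : 0 < D)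
    (rD : Rep ε (2 ^ 87) pD D) (rE : Rep ε (2 ^ 148) pE (2 ^ 49 * D * (dt z z - dt y y))) (hE : dt y y < dt z z)
    (hg : IsFace g) (rF : Rep ε (3 * 2 ^ 21 * 2 ^ 131) pF (2 ^ 20 * dt ((2 ^ 35 * D) • y) g)) {σ : ℕ} (hσ : σ < 2 ^ 13)
    (hv : vt2 e pD pE pF (P.ofs e.zz (Nat.mul 48 (Nat.mul σ σ)) (Nat.mul 16384 κ)) σ = true) : Lev S lam y := by
  have rK0 := he.rzz.ofs (Nat.mul 48 (Nat.mul σ σ)) (Nat.mul 16384 κ)
  have e1 : (((Nat.mul 48 (Nat.mul σ σ) : ℕ)) : ℝ) = 48 * (σ : ℝ) ^ 2 := by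
    rw [show Nat.mul 48 (Nat.mul σ σ) = 48 * (σ * σ) from rfl]; push_cast; ring
  have e2 : (((Nat.mul 16384 κ : ℕ)) : ℝ) = 16384 * (κ : ℝ) := by
    rw [show Nat.mul 16384 κ = 16384 * κ from rfl]; push_cast; ring
  have e3 : (((Nat.mul 2 σ : ℕ)) : ℝ) = 2 * (σ : ℝ) := by
    rw [show Nat.mul 2 σ = 2 * σ from rfl]; push_cast; ring
  have hσ' : (σ : ℝ) < 2 ^ 13 := by exact_mod_cast hσ
  have hσ0 : (0 : ℝ) ≤ (σ : ℝ) := Nat.cast_nonneg _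
  have hκ' : (κ : ℝ) < 2 ^ 20 := by exact_mod_cast hV.kb
  have hκ0 : (0 : ℝ) ≤ (κ : ℝ) := Nat.cast_nonneg _
  have hσ2 : (σ : ℝ) ^ 2 ≤ 2 ^ 26 := by nlinarith
  have rK : Rep ε (2 ^ 35) (P.ofs e.zz (Nat.mul 48 (Nat.mul σ σ)) (Nat.mul 16384 κ))
      (2 ^ 28 * dt z z + 48 * (σ : ℝ) ^ 2 - 16384 * (κ : ℝ)) := by
    rw [e1, e2] at rK0
    exact rK0.mono (by nlinarith)
  unfold vt2 at hv
  rw [Bool.and_eq_true] at hv
  obtain ⟨hv1, hv2⟩ := hv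
  have r1 := (rK.smul 262144).sub (he.ra.smul (Nat.mul 2 σ))
  have r2 := ((rE.smul 262144).add (rF.smul (Nat.mul 2 σ))).sub ((rD.mul hε rK).smul 549755813888)
  have hp1 := Rep.pos hε r1 (by
    rw [e3]
    have h1 : 2 * (σ : ℝ) * 2 ^ 36 ≤ 2 * 2 ^ 13 * 2 ^ 36 := by nlinarith
    have h2 : ((262144 : ℕ) : ℝ) * 2 ^ 35 + 2 * 2 ^ 13 * 2 ^ 36 ≤ 2 ^ 174 := by norm_num
    linarith) hv1
  have hp2 := Rep.pos hε r2 (by
    rw [e3]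
    have h1 : 2 * (σ : ℝ) * (3 * 2 ^ 21 * 2 ^ 131) ≤ 2 * 2 ^ 13 * (3 * 2 ^ 21 * 2 ^ 131) := by
      apply mul_le_mul_of_nonneg_right _ (by positivity)
      linarith
    have h2 : ((262144 : ℕ) : ℝ) * 2 ^ 148 + 2 * 2 ^ 13 * (3 * 2 ^ 21 * 2 ^ 131) +
        ((549755813888 : ℕ) : ℝ) * (2 ^ 87 * 2 ^ 35) ≤ 2 ^ 174 := by norm_num
    linarith) hv2
  rw [e3] at hp1
  rw [e3, b8_dt_smul] at hp2
  have hq1 : ((262144 : ℕ) : ℝ) * (2 ^ 28 * dt z z + 48 * (σ : ℝ) ^ 2 - 16384 * (κ : ℝ)) - 2 * (σ : ℝ) * (2 ^ 34 * dt z f0) =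
      (2 : ℝ) ^ 46 * (dt z z + 3 * ((σ : ℝ) / 2 ^ 12) ^ 2 - (κ : ℝ) / 2 ^ 14 - 2 * ((σ : ℝ) / 2 ^ 12) * dt z f0) := by
    push_cast; ring
  have hq2 : ((262144 : ℕ) : ℝ) * (2 ^ 49 * D * (dt z z - dt y y)) + 2 * (σ : ℝ) * (2 ^ 20 * (2 ^ 35 * D * dt y g)) -
      ((549755813888 : ℕ) : ℝ) * (D * (2 ^ 28 * dt z z + 48 * (σ : ℝ) ^ 2 - 16384 * (κ : ℝ))) =
      (2 ^ 67 * D) * (dt z z - dt y y + 2 * ((σ : ℝ) / 2 ^ 12) * dt y g - (dt z z + 3 * ((σ : ℝ) / 2 ^ 12) ^ 2 - (κ : ℝ) / 2 ^ 14)) := by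
    push_cast; ring
  rw [hq1] at hp1
  rw [hq2] at hp2
  have hp1' := (mul_pos_iff_of_pos_left (by positivity : (0 : ℝ) < 2 ^ 46)).1 hp1
  have hp2' := (mul_pos_iff_of_pos_left (by positivity : (0 : ℝ) < 2 ^ 67 * D)).1 hp2
  exact Geo.lev2 G hg hV.k (by positivity) hE hp1'.le hp2'

theorem vt_sound {ε : Fin 6 → ℝ} (hε : ∀ i, |ε i| ≤ 1) {e : Env} {InX : E → Prop} {z u : E} {c s lam S tt : ℝ} (he : EnvRep ε e z u c s)
    (G : Geo InX z u c s lam S tt) {κ Sb : ℕ} (hV : Val lam S κ Sb) {D : ℝ} {pD pE : P} {Y : V} {y : E} (hD : 0 < D)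
    (rD : Rep ε (2 ^ 87) pD D) (rE : Rep ε (2 ^ 148) pE (2 ^ 49 * D * (dt z z - dt y y))) (hE : dt y y < dt z z)
    (rY : RepV ε (2 ^ 131) Y ((2 ^ 35 * D) • y)) {f σ : ℕ} (hf : f < 20) (hσ : σ < 2 ^ 13)
    (hv : vt e pD pE (face f Y) κ Sb σ = true) : Lev S lam y := by
  obtain ⟨g, hg, hrep⟩ := face_rep hf
  have rF := hrep ε (2 ^ 131) Y ((2 ^ 35 * D) • y) hε rY
  generalize face f Y = pF at hv rF
  unfold vt at hv
  cases hb : Nat.beq σ 0 with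
  | true => exact b8_case0 hε he G hV hD rD rE hE hg rF (b8_cond_true hb hv)
  | false => exact b8_case1 hε he G hV hD rD rE hE hg rF hσ (b8_cond_false hb hv)

end Pool.Agent.H304.K

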