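import Pool.Agent.helper304_full.KDefs
import Pool.Agent.helper304_full.A1
import Pool.Agent.helper304_full.A3
import Pool.Agent.helper304_full.B1
import Pool.Agent.helper304_full.B4
import Pool.Agent.helper304_full.B7
import Pool.Agent.helper304_full.B8
import Pool.Agent.helper304_full.K1
import Pool.Agent.helper304_full.K2
import Pool.Agent.helper304_full.K4

set_option autoImplicit false

set_option maxRecDepth 100000
set_option exponentiation.threshold 100000

namespace Pool.Agent.H304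

end Pool.Agent.H304

namespace Pool.Agent.H304.K

theorem b10_congr {ε : Fin 6 → ℝ} {b : ℝ} {p : P} {x y : ℝ} (h : Rep ε b p x) (e : x = y) : Rep ε b p y := e ▸ h

theorem b10_congrV {ε : Fin 6 → ℝ} {b : ℝ} {p : V} {x y : E} (h : RepV ε b p x) (e : x = y) : RepV ε b p y := e ▸ h

theorem b10_ph (ε : Fin 6 → ℝ) : Rep ε 1696633 phP (2 ^ 20 * ph) := by
  have h := Rep.cst ε 1696632 (2 ^ 20 * ph) (by
    have h1 := ph_gt
    have h2 := ph_lt
    rw [abs_le]
    constructor <;> norm_num <;> nlinarith)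
  refine h.mono ?_
  norm_num

theorem b10_ph2 (ε : Fin 6 → ℝ) : Rep ε 3793785 (P.cst 3793784) (2 ^ 20 * (ph + 2)) := by
  have h := Rep.cst ε 3793784 (2 ^ 20 * (ph + 2)) (by
    have h1 := ph_gt
    have h2 := ph_lt
    rw [abs_le]
    constructor <;> norm_num <;> nlinarith)
  refine h.mono ?_
  norm_num

theorem b10_zero (ε : Fin 6 → ℝ) {b : ℝ} (hb : 0 ≤ b) : Rep ε b (P.nat 0) 0 := by
  have h := Rep.nat ε 0
  have h' := h.mono (b' := b) (by simpa using hb)
  simpa using h'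

theorem b10_vA0 : vA 0 = 0 := by simp [vA]

theorem b10_vA1 : vA 1 = 1 := by simp [vA]

theorem b10_vA2 : vA 2 = ph := by simp [vA]

theorem b10_vB0 : vB 0 = 0 := by simp [vB]

theorem b10_vB1 : vB 1 = -1 := by simp [vB]

theorem b10_vB2 : vB 2 = ph := by simp [vB]

theorem b10_vC0 : vC 0 = ph := by simp [vC]

theorem b10_vC1 : vC 1 = 0 := by simp [vC]

theorem b10_vC2 : vC 2 = 1 := by simp [vC]

theorem b10_smul_apply (a : ℝ) (w : E) (i : Fin 3) : (a • w) i = a * w i := by simp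

theorem b10_T {ε : Fin 6 → ℝ} (hε : ∀ i, |ε i| ≤ 1) {tt : ℝ} {tp : P} (ht : Rep ε (2 ^ 16) tp (2 ^ 14 * tt)) (v : ℕ) :
    RepV ε (2 ^ 38) (Tv v tp) ((2 : ℝ) ^ 35 • (tt • vx v)) := by
  have h0 : Rep ε (2 ^ 38) (P.nat 0) 0 := b10_zero ε (by positivity)
  have h1 : Rep ε (2 ^ 37) (tp.smul 2097152) (2 ^ 35 * tt) := by
    refine b10_congr ((Rep.smul 2097152 ht).mono ?_) ?_
    · norm_num
    · push_cast; ring
  have h1' : Rep ε (2 ^ 38) (tp.smul 2097152) (2 ^ 35 * tt) := h1.mono (by norm_num)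
  have h2 : Rep ε (2 ^ 38) ((phP.mul tp).smul 2) (2 ^ 35 * (tt * ph)) := by
    refine b10_congr ((Rep.smul 2 ((b10_ph ε).mul hε ht)).mono ?_) ?_
    · norm_num
    · push_cast; ring
  have h3 : Rep ε (2 ^ 38) ((P.nat 0).sub (tp.smul 2097152)) (2 ^ 35 * (tt * (-1))) := by
    refine b10_congr (((b10_zero ε (le_refl 0)).sub h1).mono ?_) ?_
    · norm_num
    · ring
  unfold Tv vx
  rcases v with _ | _ | v
  · have e : Nat.beq 0 0 = true := rfl
    simp only [e, cond_true, if_true]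
    refine ⟨?_, ?_, ?_⟩
    · simpa [vA] using h0
    · simpa [vA] using h1'
    · simpa [vA] using h2
  · have e : Nat.beq (0 + 1) 0 = false := rfl
    have e' : Nat.beq (0 + 1) 1 = true := rfl
    simp only [e, e', cond_true, cond_false]
    refine ⟨?_, ?_, ?_⟩
    · simpa [vB] using h0
    · simpa [vB] using h3
    · simpa [vB] using h2
  · have e : Nat.beq (v + 1 + 1) 0 = false := rfl
    have e' : Nat.beq (v + 1 + 1) 1 = false := rfl
    have e2 : ¬ (v + 1 + 1 = 0) := by omega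
    have e3 : ¬ (v + 1 + 1 = 1) := by omega
    simp only [e, e', cond_false, e2, e3, if_false]
    refine ⟨?_, ?_, ?_⟩
    · simpa [vC] using h2
    · simpa [vC] using h0
    · simpa [vC] using h1'

theorem b10_vtx (v : ℕ) : IsVtx (vx v) := by
  unfold vx
  split_ifs
  · refine ⟨1, 1, Or.inl rfl, Or.inl rfl, Or.inl ?_⟩
    simp [vA]
  · refine ⟨-1, 1, Or.inr rfl, Or.inl rfl, Or.inl ?_⟩
    simp [vB]
  · refine ⟨1, 1, Or.inl rfl, Or.inl rfl, Or.inr (Or.inr ?_)⟩
    simp [vC]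

theorem b10_vx (v : ℕ) : vx v = vA ∨ vx v = vB ∨ vx v = vC := by
  unfold vx
  split_ifs <;> simp

theorem b10_dt_vx (v : ℕ) : dt (vx v) (vx v) = ph + 2 := by
  have h := ph_sq
  rcases b10_vx v with e | e | e <;> rw [e] <;> simp only [dt, vA, vB, vC] <;> simp <;> linear_combination h

theorem b10_onStar_smul {y : E} (k : ℝ) (h : OnStar y) : OnStar (k • y) := by
  obtain ⟨v, hv, hc⟩ := h
  exact ⟨v, hv, by rw [cr_smul_right, hc, smul_zero]⟩

theorem b10_cs {c s : ℝ} (h : c ^ 2 + s ^ 2 = 1) (j : ℕ) : pc c s j ^ 2 + ps c s j ^ 2 = 1 := by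
  unfold pc ps
  have k1 : (if j % 2 = 0 then (1 : ℝ) else -1) ^ 2 = 1 := by split_ifs <;> norm_num
  rw [mul_pow, k1, one_mul]
  split_ifs
  · exact h
  · have : (c ^ 2 - s ^ 2) ^ 2 + (2 * c * s) ^ 2 = (c ^ 2 + s ^ 2) ^ 2 := by ring
    rw [this, h]; norm_num
  · have : (c * (c ^ 2 - s ^ 2) - s * (2 * c * s)) ^ 2 + (s * (c ^ 2 - s ^ 2) + c * (2 * c * s)) ^ 2 = (c ^ 2 + s ^ 2) ^ 3 := by ring
    rw [this, h]; norm_num

theorem tin_sound {ε : Fin 6 → ℝ} (hε : ∀ i, |ε i| ≤ 1) {e : Env} {InX : E → Prop} {z u : E} {c s lam S tt : ℝ} (he : EnvRep ε e z u c s)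
    (G : Geo InX z u c s lam S tt) {κ Sb : ℕ} (hV : Val lam S κ Sb) {tp : P} (ht : Rep ε (2 ^ 16) tp (2 ^ 14 * tt)) {v j f σ mt : ℕ} {st : Bool}
    (hσ : σ < 2 ^ 13) (h : tin e tp (Tv v tp) (cT e (Tv v tp)) κ Sb j f σ st mt = true) :
    j < e.jm ∧ OnStar (z + H304.rot u (pc c s j) (ps c s j) (tt • vx v - z)) ∧ st = false := by
  set x : E := tt • vx v with hx
  have hT : RepV ε (2 ^ 38) (Tv v tp) ((2 : ℝ) ^ 35 • x) := b10_T hε ht v
  unfold tin at h
  rw [Bool.and_eq_true] at h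
  obtain ⟨hj', h⟩ := h
  have hj : j < e.jm := by
    have := Nat.blt_eq.mp hj'
    exact this
  unfold tl1 tl2 tl3 at h
  rw [Bool.and_eq_true, Bool.and_eq_true, Bool.and_eq_true] at h
  obtain ⟨⟨hf', hE'⟩, hv', hst'⟩ := h
  have hf : f < 20 := Nat.blt_eq.mp hf'
  have hw : RepV ε (2 ^ 39) ((Tv v tp).sub (V.smul 2097152 e.z)) ((2 : ℝ) ^ 35 • (x - z)) := by
    refine b10_congrV ((hT.sub (RepV.smul 2097152 he.rz)).mono ?_) ?_
    · norm_num
    · have e1 : ((2097152 : ℕ) : ℝ) • ((2 : ℝ) ^ 14 • z) = (2 : ℝ) ^ 35 • z := by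
        rw [smul_smul]; norm_num
      rw [e1, smul_sub]
  obtain ⟨D, hD, rD, rR⟩ := Rv_rep hε he hj hw
  have hcT : cT e (Tv v tp) = e.m.cross ((Tv v tp).sub (V.smul 2097152 e.z)) := rfl
  rw [hcT] at hE' hv' hst'
  set R := Rv j (e.ax j) e.m (e.m.cross ((Tv v tp).sub (V.smul 2097152 e.z))) with hR
  set w0 : E := x - z with hw0
  set r0 : E := H304.rot u (pc c s j) (ps c s j) w0 with hr0
  have rR' : RepV ε (2 ^ 130) R ((2 ^ 35 * D) • (r0 - w0)) := by
    refine b10_congrV (rR.mono ?_) ?_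
    · norm_num
    · rw [rot_smul, ← smul_sub, smul_smul, mul_comm D]
  have hxx : dt x x = tt ^ 2 * (ph + 2) := by
    rw [hx, dt_smul_left, dt_smul_right, b10_dt_vx]; ring
  have rK : Rep ε (2 ^ 55) (KT e tp) (2 ^ 49 * (dt z z - dt x x)) := by
    have a1 := Rep.smul 2097152 he.rzz
    have a2 := Rep.smul 2 ((b10_ph2 ε).mul hε (ht.mul hε ht))
    refine b10_congr ((a1.sub a2).mono ?_) ?_
    · norm_num
    · rw [hxx]; push_cast; ring
  have rE : Rep ε (2 ^ 148) (ET e (e.ax j).D tp R) (2 ^ 49 * D * (dt z z - dt (z + r0) (z + r0))) := by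
    have a1 := rD.mul hε rK
    have a2 := Rep.smul 2 (RepV.dot hε he.rz rR')
    refine b10_congr ((a1.sub a2).mono ?_) ?_
    · norm_num
    · have e1 : dt x x = dt z z + 2 * dt z w0 + dt w0 w0 := by
        have : x = z + w0 := by rw [hw0]; abel
        rw [this]
        simp only [dt_add_left, dt_add_right]
        have := dt_comm w0 z
        rw [dt_comm w0 z]; ring
      have e2 : dt r0 r0 = dt w0 w0 := by
        rw [hr0]
        exact dt_rot_rot G.unit (b10_cs G.cs j) _ _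
      have e3 : dt (z + r0) (z + r0) = dt z z + 2 * dt z r0 + dt r0 r0 := by
        simp only [dt_add_left, dt_add_right]
        rw [dt_comm r0 z]; ring
      rw [e3, e2, e1]
      simp only [dt_smul_left, dt_smul_right, dt_sub_right]
      push_cast
      ring
  have rY : RepV ε (2 ^ 131) ((V.scale (e.ax j).D (Tv v tp)).add R) ((2 ^ 35 * D) • (z + r0)) := by
    refine b10_congrV (((RepV.scale hε rD hT).add rR').mono ?_) ?_
    · norm_num
    · rw [hw0, smul_smul, mul_comm D, ← smul_add]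
      congr 1
      abel
  have hE : dt (z + r0) (z + r0) < dt z z := by
    have := Rep.pos hε rE (by norm_num) hE'
    have h2 : (0 : ℝ) < 2 ^ 49 * D := by positivity
    have h3 := (pos_iff_pos_of_mul_pos this).mp h2
    linarith
  have hL : Lev S lam (z + r0) := vt_sound hε he G hV hD rD rE hE rY hf hσ hv'
  have hInX : InX x := G.mem _ (b10_vtx v)
  have hrg : lam ^ 2 * dt (x - z) (x - z) ≤ 4 := G.rng _ (b10_vx v)
  have hS : OnStar (z + r0) := Geo.onStar G (Geo.img G hInX hrg j) hE hL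
  refine ⟨hj, hS, ?_⟩
  cases st with
  | false => rfl
  | true =>
    exfalso
    exact star_sound hε rY (by norm_num) hst' (b10_onStar_smul _ hS)

end Pool.Agent.H304.K

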