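import Pool.Agent.helper304_full.Base

set_option autoImplicit false

namespace Pool.Agent.H304

/-- the six lines -/
noncomputable def r8_u (l : Fin 6) : E :=
  match l with
  | 0 => !₂[0, 1, ph]
  | 1 => !₂[0, 1, -ph]
  | 2 => !₂[1, ph, 0]
  | 3 => !₂[1, -ph, 0]
  | 4 => !₂[ph, 0, 1]
  | 5 => !₂[-ph, 0, 1]

lemma r8_u_sq (l : Fin 6) : dt (r8_u l) (r8_u l) = ph + 2 := by
  have := ph_sq
  fin_cases l <;> simp [r8_u, dt] <;> nlinarith

lemma r8_vtx {v : E} (hv : IsVtx v) : ∃ (l : Fin 6) (σ : ℝ), σ ≠ 0 ∧ v = σ • r8_u l := by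
  obtain ⟨σ, τ, hσ, hτ, h⟩ := hv
  rcases hσ with rfl | rfl <;> rcases hτ with rfl | rfl <;> rcases h with rfl | rfl | rfl
  · exact ⟨0, 1, by norm_num, by apply ext3 <;> simp [r8_u]⟩
  · exact ⟨2, 1, by norm_num, by apply ext3 <;> simp [r8_u]⟩
  · exact ⟨4, 1, by norm_num, by apply ext3 <;> simp [r8_u]⟩
  · exact ⟨1, 1, by norm_num, by apply ext3 <;> simp [r8_u]⟩
  · exact ⟨3, 1, by norm_num, by apply ext3 <;> simp [r8_u]⟩
  · exact ⟨5, 1, by norm_num, by apply ext3 <;> simp [r8_u]⟩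
  · exact ⟨1, -1, by norm_num, by apply ext3 <;> simp [r8_u]⟩
  · exact ⟨3, -1, by norm_num, by apply ext3 <;> simp [r8_u]⟩
  · exact ⟨5, -1, by norm_num, by apply ext3 <;> simp [r8_u]⟩
  · exact ⟨0, -1, by norm_num, by apply ext3 <;> simp [r8_u]⟩
  · exact ⟨2, -1, by norm_num, by apply ext3 <;> simp [r8_u]⟩
  · exact ⟨4, -1, by norm_num, by apply ext3 <;> simp [r8_u]⟩

lemma r8_star {y : E} (h : OnStar y) : ∃ (l : Fin 6) (t : ℝ), y = t • r8_u l := by
  obtain ⟨v, hv, hc⟩ := h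
  obtain ⟨l, σ, hσ, rfl⟩ := r8_vtx hv
  rw [cr_smul_left] at hc
  have h1 : cr (r8_u l) y = 0 := (smul_eq_zero.1 hc).resolve_left hσ
  have h2 := cr_cr (r8_u l) (r8_u l) y
  rw [h1, cr_zero_right, r8_u_sq] at h2
  have hp : ph + 2 ≠ 0 := by have := ph_gt; linarith
  refine ⟨l, dt (r8_u l) y / (ph + 2), ?_⟩
  have h3 : (ph + 2) • y = dt (r8_u l) y • r8_u l := (sub_eq_zero.1 h2.symm).symm
  rw [div_eq_inv_mul, mul_smul, ← h3, smul_smul, inv_mul_cancel₀ hp, one_smul]

/-- the algebraic core -/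
lemma r8_core {e0 e1 e2 g0 g1 g2 τ : ℝ} (hτ : τ ^ 2 = 1) (h1 : e1 * g2 + e2 * g1 = 0)
    (h2 : e0 * g1 + e1 * g0 = 0) (h3 : e1 * g1 + ph ^ 2 * (e2 * g2) = ph + 2)
    (h4 : e0 * g0 + ph ^ 2 * (e1 * g1) = ph + 2)
    (h5 : ph ^ 2 * (e0 * g0) + e2 * g2 + τ * ph * (e0 * g2 + e2 * g0) = ph + 2) :
    e1 * g2 - e2 * g1 = 0 ∧ e2 * g0 - e0 * g2 = 0 ∧ e0 * g1 - e1 * g0 = 0 := by
  have hp := ph_sq
  have hg := ph_gt
  have hl := ph_lt
  by_cases hq : e1 * g1 = 0
  · have h6 : e1 = 0 ∧ g1 = 0 := by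
      rw [hq] at h3 h4
      have hr : e2 * g2 ≠ 0 := by
        intro h; rw [h] at h3; linarith
      have he2 : e2 ≠ 0 := left_ne_zero_of_mul hr
      have hg2 : g2 ≠ 0 := right_ne_zero_of_mul hr
      rcases mul_eq_zero.1 hq with h | h
      · refine ⟨h, ?_⟩
        rw [h, zero_mul, zero_add] at h1
        exact (mul_eq_zero.1 h1).resolve_left he2
      · refine ⟨?_, h⟩
        rw [h, mul_zero, add_zero] at h1
        exact (mul_eq_zero.1 h1).resolve_right hg2
    obtain ⟨rfl, rfl⟩ := h6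
    refine ⟨by ring, ?_, by ring⟩
    have hp0 : e0 * g0 = ph + 2 := by linarith
    have hr0 : e2 * g2 = 3 - ph := by
      have h7 : ph ^ 2 * (e2 * g2 - (3 - ph)) = 0 := by
        have : ph ^ 2 * (3 - ph) = ph + 2 := by
          have h8 : ph ^ 3 = 2 * ph + 1 := by
            calc ph ^ 3 = ph * ph ^ 2 := by ring
              _ = _ := by rw [hp]; linear_combination hp
          linear_combination 3 * hp - h8
        linear_combination h3 - this
      have h8 : ph ^ 2 ≠ 0 := by rw [hp]; linarith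
      have := (mul_eq_zero.1 h7).resolve_left h8
      linarith
    have h9 : τ * ph * (e0 * g2 + e2 * g0) = -2 * ph - 4 := by
      rw [hp0, hr0] at h5
      linear_combination h5 - (ph + 2) * hp - hp
    have h10 : (e0 * g2 + e2 * g0) ^ 2 = 20 := by
      have h11 : ph ^ 2 * (e0 * g2 + e2 * g0) ^ 2 = (2 * ph + 4) ^ 2 := by
        have : (τ * ph * (e0 * g2 + e2 * g0)) ^ 2 = (-2 * ph - 4) ^ 2 := by rw [h9]
        linear_combination this - ph ^ 2 * (e0 * g2 + e2 * g0) ^ 2 * hτ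
      have h12 : ph ^ 2 * ((e0 * g2 + e2 * g0) ^ 2 - 20) = 0 := by
        linear_combination h11 - 16 * hp
      have h8 : ph ^ 2 ≠ 0 := by rw [hp]; linarith
      have := (mul_eq_zero.1 h12).resolve_left h8
      linarith
    have h13 : (e2 * g0 - e0 * g2) ^ 2 = 0 := by
      have h14 : (e0 * g0) * (e2 * g2) = 5 := by
        rw [hp0, hr0]; linear_combination -hp
      linear_combination h10 - 4 * h14
    exact pow_eq_zero_iff (two_ne_zero) |>.1 h13
  · exfalso
    have he1 : e1 ≠ 0 := left_ne_zero_of_mul hq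
    have hg1 : g1 ≠ 0 := right_ne_zero_of_mul hq
    obtain ⟨α, hα⟩ : ∃ α, e0 = α * e1 := ⟨e0 / e1, by field_simp⟩
    obtain ⟨β, hβ⟩ : ∃ β, e2 = β * e1 := ⟨e2 / e1, by field_simp⟩
    have hg0 : g0 = -α * g1 := by
      have : e1 * (g0 + α * g1) = 0 := by rw [hα] at h2; linear_combination h2
      have := (mul_eq_zero.1 this).resolve_left he1
      linarith
    have hg2 : g2 = -β * g1 := by
      have : e1 * (g2 + β * g1) = 0 := by rw [hβ] at h1; linear_combination h1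
      have := (mul_eq_zero.1 this).resolve_left he1
      linarith
    subst hα hβ hg0 hg2
    obtain ⟨q, hqd⟩ : ∃ q, q = e1 * g1 := ⟨_, rfl⟩
    rw [← hqd] at hq
    have k3 : q * (1 - ph ^ 2 * β ^ 2) = ph + 2 := by rw [hqd]; linear_combination h3
    have k4 : q * (ph ^ 2 - α ^ 2) = ph + 2 := by rw [hqd]; linear_combination h4
    have k5 : -q * (ph * α + τ * β) ^ 2 = ph + 2 := by
      rw [hqd]; linear_combination h5 - e1 * g1 * β ^ 2 * hτ
    have hqneg : q < 0 := by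
      by_contra h
      have h0 : 0 ≤ q := not_lt.1 h
      nlinarith [mul_nonneg h0 (sq_nonneg (ph * α + τ * β))]
    -- set s := (ph+2)/(-q)
    obtain ⟨s, hs⟩ : ∃ s, s = (ph + 2) / (-q) := ⟨_, rfl⟩
    have hspos : 0 < s := by rw [hs]; apply div_pos <;> linarith
    have hsq : -q * s = ph + 2 := by rw [hs]; field_simp
    have m3 : ph ^ 2 * β ^ 2 = 1 + s := by
      have : -q * (ph ^ 2 * β ^ 2 - 1 - s) = 0 := by linear_combination k3 - hsq
      have := (mul_eq_zero.1 this).resolve_left (neg_ne_zero.2 hq)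
      linarith
    have m4 : α ^ 2 = ph ^ 2 + s := by
      have : -q * (α ^ 2 - ph ^ 2 - s) = 0 := by linear_combination k4 - hsq
      have := (mul_eq_zero.1 this).resolve_left (neg_ne_zero.2 hq)
      linarith
    have m5 : (ph * α + τ * β) ^ 2 = s := by
      have : -q * ((ph * α + τ * β) ^ 2 - s) = 0 := by linear_combination k5 - hsq
      have := (mul_eq_zero.1 this).resolve_left (neg_ne_zero.2 hq)
      linarith
    -- multiply by `ph^2`
    have n5 : ph ^ 2 * (2 * τ * ph * α * β) = ph ^ 2 * s - ph ^ 4 * (ph ^ 2 + s) - (1 + s) := by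
      linear_combination ph ^ 2 * m5 - ph ^ 4 * m4 - m3 - ph ^ 2 * β ^ 2 * hτ
    have hp3 : ph ^ 3 = 2 * ph + 1 := by
      calc ph ^ 3 = ph * ph ^ 2 := by ring
        _ = _ := by rw [hp]; linear_combination hp
    have hp4 : ph ^ 4 = 3 * ph + 2 := by
      calc ph ^ 4 = ph * ph ^ 3 := by ring
        _ = _ := by rw [hp3]; linear_combination 2 * hp
    have hp6 : ph ^ 6 = 8 * ph + 5 := by
      calc ph ^ 6 = ph ^ 2 * ph ^ 4 := by ring
        _ = _ := by rw [hp4, hp]; linear_combination 3 * hp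
    have n6 : τ * ph * α * β = -(s + ph + 2) := by
      have : ph ^ 2 * (τ * ph * α * β + (s + ph + 2)) = 0 := by
        linear_combination (1 / 2) * n5 - (1 / 2) * hp6 - (1 / 2) * s * hp4 + (ph + 2 + (3 / 2) * s) * hp
          + hp
      have h8 : ph ^ 2 ≠ 0 := by rw [hp]; linarith
      have := (mul_eq_zero.1 this).resolve_left h8
      linarith
    have n7 : (τ * ph * α * β) ^ 2 = (ph ^ 2 + s) * (1 + s) := by
      linear_combination α ^ 2 * (ph ^ 2 * β ^ 2) * hτ + α ^ 2 * m3 + (1 + s) * m4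
    rw [n6] at n7
    nlinarith

/-- at most two of the six lines are perpendicular to a given nonzero vector -/
lemma r8_two {e : E} (he : e ≠ 0) : ∃ l1 l2 : Fin 6, ∀ l, dt e (r8_u l) = 0 → l = l1 ∨ l = l2 := by
  have hp := ph_sq
  have hg := ph_gt
  have hl := ph_lt
  have hp0 : ph ≠ 0 := by linarith
  have a0 : dt e (r8_u 0) = e 1 + ph * e 2 := by simp [r8_u, dt]; ring
  have a1 : dt e (r8_u 1) = e 1 - ph * e 2 := by simp [r8_u, dt]; ring
  have a2 : dt e (r8_u 2) = e 0 + ph * e 1 := by simp [r8_u, dt]; ring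
  have a3 : dt e (r8_u 3) = e 0 - ph * e 1 := by simp [r8_u, dt]; ring
  have a4 : dt e (r8_u 4) = e 2 + ph * e 0 := by simp [r8_u, dt]; ring
  have a5 : dt e (r8_u 5) = e 2 - ph * e 0 := by simp [r8_u, dt]; ring
  have hne : ¬ (e 0 = 0 ∧ e 1 = 0 ∧ e 2 = 0) := by
    rintro ⟨h0, h1, h2⟩
    exact he (by apply ext3 <;> simp [h0, h1, h2])
  have full : ∀ a b : ℝ, a + ph * b = 0 → a - ph * b = 0 → a = 0 ∧ b = 0 := by
    intro a b h1 h2
    have ha : a = 0 := by linarith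
    refine ⟨ha, ?_⟩
    rw [ha, zero_add] at h1
    exact (mul_eq_zero.1 h1).resolve_left hp0
  have sqr : ∀ a b : ℝ, (a + ph * b = 0 ∨ a - ph * b = 0) → a ^ 2 = ph ^ 2 * b ^ 2 := by
    rintro a b (h | h)
    · linear_combination (a - ph * b) * h
    · linear_combination (a + ph * b) * h
  have z1 : ∀ a b : ℝ, a = 0 → (a + ph * b = 0 ∨ a - ph * b = 0) → b = 0 := by
    intro a b ha h
    have := sqr a b h
    rw [ha] at this
    have h2 : ph ^ 2 * b ^ 2 = 0 := by linarith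
    have h3 : ph ^ 2 ≠ 0 := pow_ne_zero 2 hp0
    exact pow_eq_zero_iff (two_ne_zero) |>.1 ((mul_eq_zero.1 h2).resolve_left h3)
  have z2 : ∀ a b : ℝ, b = 0 → (a + ph * b = 0 ∨ a - ph * b = 0) → a = 0 := by
    intro a b hb h
    have := sqr a b h
    rw [hb] at this
    exact pow_eq_zero_iff (two_ne_zero) |>.1 (by linarith)
  have hall : (e 1 + ph * e 2 = 0 ∨ e 1 - ph * e 2 = 0) → (e 0 + ph * e 1 = 0 ∨ e 0 - ph * e 1 = 0) →
      (e 2 + ph * e 0 = 0 ∨ e 2 - ph * e 0 = 0) → False := by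
    intro h1 h2 h3
    have k1 := sqr _ _ h1
    have k2 := sqr _ _ h2
    have k3 := sqr _ _ h3
    have k4 : (ph ^ 6 - 1) * (e 2) ^ 2 = 0 := by
      linear_combination (-ph ^ 4) * k1 - ph ^ 2 * k2 - k3
    have k5 : ph ^ 6 - 1 ≠ 0 := by
      have : 1 < ph ^ 6 := by
        have : (1:ℝ) < ph := by linarith
        exact one_lt_pow₀ this (by norm_num)
      linarith
    have k6 : e 2 = 0 := pow_eq_zero_iff (two_ne_zero) |>.1 ((mul_eq_zero.1 k4).resolve_left k5)
    have k7 := z2 _ _ k6 h1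
    have k8 := z2 _ _ k7 h2
    exact hne ⟨k8, k7, k6⟩
  by_cases c1 : e 1 + ph * e 2 = 0 ∧ e 1 - ph * e 2 = 0
  · obtain ⟨h1, h2⟩ := full _ _ c1.1 c1.2
    refine ⟨0, 1, fun l hl => ?_⟩
    fin_cases l
    · exact Or.inl rfl
    · exact Or.inr rfl
    · exact absurd ⟨z2 _ _ h1 (Or.inl (a2 ▸ hl)), h1, h2⟩ hne
    · exact absurd ⟨z2 _ _ h1 (Or.inr (a3 ▸ hl)), h1, h2⟩ hne
    · exact absurd ⟨z1 _ _ h2 (Or.inl (a4 ▸ hl)), h1, h2⟩ hne
    · exact absurd ⟨z1 _ _ h2 (Or.inr (a5 ▸ hl)), h1, h2⟩ hne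
  by_cases c2 : e 0 + ph * e 1 = 0 ∧ e 0 - ph * e 1 = 0
  · obtain ⟨h0, h1⟩ := full _ _ c2.1 c2.2
    refine ⟨2, 3, fun l hl => ?_⟩
    fin_cases l
    · exact absurd ⟨h0, h1, z1 _ _ h1 (Or.inl (a0 ▸ hl))⟩ hne
    · exact absurd ⟨h0, h1, z1 _ _ h1 (Or.inr (a1 ▸ hl))⟩ hne
    · exact Or.inl rfl
    · exact Or.inr rfl
    · exact absurd ⟨h0, h1, z2 _ _ h0 (Or.inl (a4 ▸ hl))⟩ hne
    · exact absurd ⟨h0, h1, z2 _ _ h0 (Or.inr (a5 ▸ hl))⟩ hne
  by_cases c3 : e 2 + ph * e 0 = 0 ∧ e 2 - ph * e 0 = 0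
  · obtain ⟨h2, h0⟩ := full _ _ c3.1 c3.2
    refine ⟨4, 5, fun l hl => ?_⟩
    fin_cases l
    · exact absurd ⟨h0, z2 _ _ h2 (Or.inl (a0 ▸ hl)), h2⟩ hne
    · exact absurd ⟨h0, z2 _ _ h2 (Or.inr (a1 ▸ hl)), h2⟩ hne
    · exact absurd ⟨h0, z1 _ _ h0 (Or.inl (a2 ▸ hl)), h2⟩ hne
    · exact absurd ⟨h0, z1 _ _ h0 (Or.inr (a3 ▸ hl)), h2⟩ hne
    · exact Or.inl rfl
    · exact Or.inr rfl
  -- at most one line in each pair
  have q1 : ∃ l1 : Fin 6, ∀ l, (l = 0 ∨ l = 1) → dt e (r8_u l) = 0 → l = l1 := by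
    by_cases h : e 1 + ph * e 2 = 0
    · refine ⟨0, fun l hl h' => ?_⟩
      rcases hl with rfl | rfl
      · rfl
      · exact absurd ⟨h, a1 ▸ h'⟩ c1
    · refine ⟨1, fun l hl h' => ?_⟩
      rcases hl with rfl | rfl
      · exact absurd (a0 ▸ h') h
      · rfl
  have q2 : ∃ l1 : Fin 6, ∀ l, (l = 2 ∨ l = 3) → dt e (r8_u l) = 0 → l = l1 := by
    by_cases h : e 0 + ph * e 1 = 0
    · refine ⟨2, fun l hl h' => ?_⟩
      rcases hl with rfl | rfl
      · rfl
      · exact absurd ⟨h, a3 ▸ h'⟩ c2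
    · refine ⟨3, fun l hl h' => ?_⟩
      rcases hl with rfl | rfl
      · exact absurd (a2 ▸ h') h
      · rfl
  have q3 : ∃ l1 : Fin 6, ∀ l, (l = 4 ∨ l = 5) → dt e (r8_u l) = 0 → l = l1 := by
    by_cases h : e 2 + ph * e 0 = 0
    · refine ⟨4, fun l hl h' => ?_⟩
      rcases hl with rfl | rfl
      · rfl
      · exact absurd ⟨h, a5 ▸ h'⟩ c3
    · refine ⟨5, fun l hl h' => ?_⟩
      rcases hl with rfl | rfl
      · exact absurd (a4 ▸ h') h
      · rfl
  obtain ⟨p1, q1⟩ := q1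
  obtain ⟨p2, q2⟩ := q2
  obtain ⟨p3, q3⟩ := q3
  by_cases d1 : e 1 + ph * e 2 = 0 ∨ e 1 - ph * e 2 = 0
  · by_cases d2 : e 0 + ph * e 1 = 0 ∨ e 0 - ph * e 1 = 0
    · refine ⟨p1, p2, fun l hl => ?_⟩
      fin_cases l
      · exact Or.inl (q1 _ (Or.inl rfl) hl)
      · exact Or.inl (q1 _ (Or.inr rfl) hl)
      · exact Or.inr (q2 _ (Or.inl rfl) hl)
      · exact Or.inr (q2 _ (Or.inr rfl) hl)
      · exact (hall d1 d2 (Or.inl (a4 ▸ hl))).elim
      · exact (hall d1 d2 (Or.inr (a5 ▸ hl))).elim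
    · refine ⟨p1, p3, fun l hl => ?_⟩
      fin_cases l
      · exact Or.inl (q1 _ (Or.inl rfl) hl)
      · exact Or.inl (q1 _ (Or.inr rfl) hl)
      · exact absurd (Or.inl (a2 ▸ hl)) d2
      · exact absurd (Or.inr (a3 ▸ hl)) d2
      · exact Or.inr (q3 _ (Or.inl rfl) hl)
      · exact Or.inr (q3 _ (Or.inr rfl) hl)
  · refine ⟨p2, p3, fun l hl => ?_⟩
    fin_cases l
    · exact absurd (Or.inl (a0 ▸ hl)) d1
    · exact absurd (Or.inr (a1 ▸ hl)) d1
    · exact Or.inl (q2 _ (Or.inl rfl) hl)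
    · exact Or.inl (q2 _ (Or.inr rfl) hl)
    · exact Or.inr (q3 _ (Or.inl rfl) hl)
    · exact Or.inr (q3 _ (Or.inr rfl) hl)

/-- five of the six equations -/
lemma r8_five {e g : E} (m : Fin 6) (h : ∀ l, l ≠ m → dt e (r8_u l) * dt g (r8_u l) = ph + 2) :
    cr e g = 0 := by
  have k0 : m ≠ 0 → (e 1 + ph * e 2) * (g 1 + ph * g 2) = ph + 2 := by
    intro hm
    have := h 0 hm.symm
    simp only [r8_u, dt] at this
    simp at this
    linear_combination this
  have k1 : m ≠ 1 → (e 1 - ph * e 2) * (g 1 - ph * g 2) = ph + 2 := by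
    intro hm
    have := h 1 hm.symm
    simp only [r8_u, dt] at this
    simp at this
    linear_combination this
  have k2 : m ≠ 2 → (e 0 + ph * e 1) * (g 0 + ph * g 1) = ph + 2 := by
    intro hm
    have := h 2 hm.symm
    simp only [r8_u, dt] at this
    simp at this
    linear_combination this
  have k3 : m ≠ 3 → (e 0 - ph * e 1) * (g 0 - ph * g 1) = ph + 2 := by
    intro hm
    have := h 3 hm.symm
    simp only [r8_u, dt] at this
    simp at this
    linear_combination this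
  have k4 : m ≠ 4 → (e 2 + ph * e 0) * (g 2 + ph * g 0) = ph + 2 := by
    intro hm
    have := h 4 hm.symm
    simp only [r8_u, dt] at this
    simp at this
    linear_combination this
  have k5 : m ≠ 5 → (e 2 - ph * e 0) * (g 2 - ph * g 0) = ph + 2 := by
    intro hm
    have := h 5 hm.symm
    simp only [r8_u, dt] at this
    simp at this
    linear_combination this
  have hp0 : ph ≠ 0 := by have := ph_gt; linarith
  have full : ∀ a b c d : ℝ, (a + ph * b) * (c + ph * d) = ph + 2 → (a - ph * b) * (c - ph * d) = ph + 2 →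
      a * d + b * c = 0 ∧ a * c + ph ^ 2 * (b * d) = ph + 2 := by
    intro a b c d h1 h2
    constructor
    · have : ph * (a * d + b * c) = 0 := by linear_combination (1 / 2) * h1 - (1 / 2) * h2
      exact (mul_eq_zero.1 this).resolve_left hp0
    · linear_combination (1 / 2) * h1 + (1 / 2) * h2
  have fin : e 1 * g 2 - e 2 * g 1 = 0 ∧ e 2 * g 0 - e 0 * g 2 = 0 ∧ e 0 * g 1 - e 1 * g 0 = 0 := by
    have one : ∀ a b c d : ℝ, (a + ph * b) * (c + ph * d) = ph + 2 ∨ (a - ph * b) * (c - ph * d) = ph + 2 →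
        ∃ τ : ℝ, τ ^ 2 = 1 ∧ ph ^ 2 * (b * d) + a * c + τ * ph * (b * c + a * d) = ph + 2 := by
      rintro a b c d (h | h)
      · exact ⟨1, by norm_num, by linear_combination h⟩
      · exact ⟨-1, by norm_num, by linear_combination h⟩
    have m01 : (m ≠ 0 ∧ m ≠ 1 ∧ m ≠ 2 ∧ m ≠ 3 ∧ (m ≠ 4 ∨ m ≠ 5)) ∨
        (m ≠ 2 ∧ m ≠ 3 ∧ m ≠ 4 ∧ m ≠ 5 ∧ (m ≠ 0 ∨ m ≠ 1)) ∨
        (m ≠ 4 ∧ m ≠ 5 ∧ m ≠ 0 ∧ m ≠ 1 ∧ (m ≠ 2 ∨ m ≠ 3)) := by
      fin_cases m <;> simp
    rcases m01 with ⟨n0, n1, n2, n3, n⟩ | ⟨n2, n3, n4, n5, n⟩ | ⟨n4, n5, n0, n1, n⟩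
    · obtain ⟨f1, f2⟩ := full _ _ _ _ (k0 n0) (k1 n1)
      obtain ⟨f3, f4⟩ := full _ _ _ _ (k2 n2) (k3 n3)
      obtain ⟨τ, hτ, f5⟩ := one (e 2) (e 0) (g 2) (g 0) (n.imp (fun h => k4 h) (fun h => k5 h))
      exact r8_core hτ f1 f3 f2 f4 f5
    · obtain ⟨f1, f2⟩ := full _ _ _ _ (k2 n2) (k3 n3)
      obtain ⟨f3, f4⟩ := full _ _ _ _ (k4 n4) (k5 n5)
      obtain ⟨τ, hτ, f5⟩ := one (e 1) (e 2) (g 1) (g 2) (n.imp (fun h => k0 h) (fun h => k1 h))
      obtain ⟨r1, r2, r3⟩ := r8_core hτ f1 f3 f2 f4 f5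
      exact ⟨r2, r3, r1⟩
    · obtain ⟨f1, f2⟩ := full _ _ _ _ (k4 n4) (k5 n5)
      obtain ⟨f3, f4⟩ := full _ _ _ _ (k0 n0) (k1 n1)
      obtain ⟨τ, hτ, f5⟩ := one (e 0) (e 1) (g 0) (g 1) (n.imp (fun h => k2 h) (fun h => k3 h))
      obtain ⟨r1, r2, r3⟩ := r8_core hτ f1 f3 f2 f4 f5
      exact ⟨r3, r1, r2⟩
  apply ext3
  · rw [cr_0]; exact fin.1
  · rw [cr_1]; exact fin.2.1
  · rw [cr_2]; exact fin.2.2

/-- an injection of five into six misses only one -/
lemma r8_miss (f : Fin 5 → Fin 6) (hf : Function.Injective f) : ∃ m, ∀ l, l ≠ m → ∃ i, f i = l := by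
  classical
  have h1 : (Finset.univ.image f).card = 5 := by
    rw [Finset.card_image_of_injective _ hf]; rfl
  have h2 : ((Finset.univ.image f)ᶜ).card = 1 := by
    rw [Finset.card_compl, h1]; rfl
  obtain ⟨m, hm⟩ := Finset.card_eq_one.1 h2
  refine ⟨m, fun l hl => ?_⟩
  have : l ∉ (Finset.univ.image f)ᶜ := by
    rw [hm, Finset.mem_singleton]; exact hl
  rw [Finset.mem_compl, not_not] at this
  obtain ⟨i, -, hi⟩ := Finset.mem_image.1 this
  exact ⟨i, hi⟩

theorem conic {z e x : E} (he : dt e e = 1) (hx : cr e (x - z) ≠ 0) (c s : Fin 5 → ℝ)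
    (hcs : ∀ i, c i ^ 2 + s i ^ 2 = 1) (hinj : ∀ i j, c i = c j → s i = s j → i = j)
    (hstar : ∀ i, OnStar (z + rot e (c i) (s i) (x - z))) : cr e z = 0 := by
  have hp := ph_sq
  have hg := ph_gt
  obtain ⟨w, hw⟩ : ∃ w, w = x - z := ⟨_, rfl⟩
  rw [← hw] at hx hstar
  obtain ⟨y, hy⟩ : ∃ y : Fin 5 → E, y = fun i => z + rot e (c i) (s i) w := ⟨_, rfl⟩
  have hyi : ∀ i, y i = z + rot e (c i) (s i) w := fun i => by rw [hy]
  have hn : 0 < dt (cr e w) (cr e w) := by
    refine lt_of_le_of_ne (dt_self_nonneg _) (fun h => hx (dt_self_eq_zero h.symm))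
  have hn2 : dt (cr e w) (cr e w) = dt w w - dt e w ^ 2 := dt_cr_axis he w
  -- injectivity
  have yinj : ∀ i j, y i = y j → i = j := by
    intro i j h
    rw [hyi, hyi] at h
    have h0 : rot e (c i) (s i) w = rot e (c j) (s j) w := add_left_cancel h
    have h1 := congrArg (fun v => dt v (cr e w)) h0
    have h2 := congrArg (fun v => dt v w) h0
    simp only [rot, dt_add_left, dt_smul_left, dt_self_cr_left, dt_self_cr_right, dt_cr_self_right] at h1 h2
    have e1 : s i = s j := by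
      have : (s i - s j) * dt (cr e w) (cr e w) = 0 := by linear_combination h1
      have := (mul_eq_zero.1 this).resolve_right hn.ne'
      linarith
    have e2 : c i = c j := by
      have : (c i - c j) * dt (cr e w) (cr e w) = 0 := by rw [hn2]; linear_combination h2
      have := (mul_eq_zero.1 this).resolve_right hn.ne'
      linarith
    exact hinj i j e2 e1
  obtain ⟨a, ha⟩ : ∃ a, a = dt e z + dt e w := ⟨_, rfl⟩
  have hya : ∀ i, dt e (y i) = a := by
    intro i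
    rw [hyi, dt_add_right, dt_axis_rot he, ha]
  obtain ⟨K, hK⟩ : ∃ K, K = dt w w - dt z z := ⟨_, rfl⟩
  have hyy : ∀ i, dt (y i) (y i) = 2 * dt (y i) z + K := by
    intro i
    have h1 : dt (y i - z) (y i - z) = dt w w := by
      rw [hyi, add_sub_cancel_left, dt_rot_rot he (hcs i)]
    rw [dt_sub_left, dt_sub_right, dt_sub_right, dt_comm z (y i)] at h1
    rw [hK]; linear_combination h1
  have hst : ∀ i, ∃ (l : Fin 6) (t : ℝ), y i = t • r8_u l := fun i => by
    rw [hyi]; exact r8_star (hstar i)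
  choose l t hlt using hst
  by_cases ha0 : a = 0
  · exfalso
    have he0 : e ≠ 0 := by
      rintro rfl
      rw [dt_zero_left] at he
      exact zero_ne_one he
    obtain ⟨l1, l2, hl12⟩ := r8_two he0
    have key : ∀ i, ∃ b : Bool, ∃ t : ℝ, y i = t • r8_u (if b then l1 else l2) := by
      intro i
      have h1 := hya i
      rw [ha0, hlt i, dt_smul_right] at h1
      rcases mul_eq_zero.1 h1 with h | h
      · exact ⟨true, 0, by rw [hlt i, h, zero_smul, zero_smul]⟩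
      · rcases hl12 _ h with h2 | h2
        · exact ⟨true, t i, by rw [hlt i, h2]; rfl⟩
        · exact ⟨false, t i, by rw [hlt i, h2]; rfl⟩
    choose b t' ht' using key
    obtain ⟨v, hv⟩ := Fintype.exists_lt_card_fiber_of_mul_lt_card (f := b) (n := 2) (by simp)
    obtain ⟨i, hi, j, hj, k, hk, hij, hik, hjk⟩ := Finset.two_lt_card.1 hv
    simp only [Finset.mem_filter, Finset.mem_univ, true_and] at hi hj hk
    have quad : ∀ i, b i = v → (ph + 2) * t' i ^ 2 = 2 * t' i * dt (r8_u (if v then l1 else l2)) z + K := by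
      intro i hi
      have h1 := hyy i
      rw [ht' i, hi, dt_smul_left, dt_smul_left, dt_smul_right, r8_u_sq] at h1
      linear_combination h1
    have tne : ∀ i j, b i = v → b j = v → i ≠ j → t' i ≠ t' j := by
      intro i j hi hj hij h
      apply hij
      apply yinj
      rw [ht' i, ht' j, hi, hj, h]
    have q1 := quad i hi
    have q2 := quad j hj
    have q3 := quad k hk
    have n1 := tne i j hi hj hij
    have n2 := tne i k hi hk hik
    have n3 := tne j k hj hk hjk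
    have s1 : (ph + 2) * (t' i + t' j) = 2 * dt (r8_u (if v then l1 else l2)) z := by
      have : (t' i - t' j) * ((ph + 2) * (t' i + t' j) - 2 * dt (r8_u (if v then l1 else l2)) z) = 0 := by
        linear_combination q1 - q2
      have := (mul_eq_zero.1 this).resolve_left (sub_ne_zero.2 n1)
      linarith
    have s2 : (ph + 2) * (t' i + t' k) = 2 * dt (r8_u (if v then l1 else l2)) z := by
      have : (t' i - t' k) * ((ph + 2) * (t' i + t' k) - 2 * dt (r8_u (if v then l1 else l2)) z) = 0 := by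
        linear_combination q1 - q3
      have := (mul_eq_zero.1 this).resolve_left (sub_ne_zero.2 n2)
      linarith
    apply n3
    have : (ph + 2) * (t' j - t' k) = 0 := by linear_combination s1 - s2
    have := (mul_eq_zero.1 this).resolve_left (by linarith)
    linarith
  · -- the six lines
    have htd : ∀ i, t i * dt e (r8_u (l i)) = a := by
      intro i
      rw [← hya i, hlt i, dt_smul_right]
    have hd0 : ∀ i, dt e (r8_u (l i)) ≠ 0 := by
      intro i h
      apply ha0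
      rw [← htd i, h, mul_zero]
    have linj : Function.Injective l := by
      intro i j hij
      apply yinj
      have h1 := htd i
      have h2 := htd j
      rw [← hij] at h2
      have h3 : t i = t j := mul_right_cancel₀ (hd0 i) (h1.trans h2.symm)
      rw [hlt i, hlt j, hij, h3]
    obtain ⟨m, hm⟩ := r8_miss l linj
    obtain ⟨g, hgd⟩ : ∃ g : E, g = (2 / a) • z + (K / a ^ 2) • e := ⟨_, rfl⟩
    have h5 : ∀ l', l' ≠ m → dt e (r8_u l') * dt g (r8_u l') = ph + 2 := by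
      intro l' hl'
      obtain ⟨i, rfl⟩ := hm l' hl'
      have h1 := hyy i
      rw [hlt i, dt_smul_left, dt_smul_left, dt_smul_right, r8_u_sq] at h1
      have h2 := htd i
      have h3 := hd0 i
      rw [hgd, dt_add_left, dt_smul_left, dt_smul_left, dt_comm z]
      have ht : t i = a / dt e (r8_u (l i)) := by field_simp; exact h2
      rw [ht] at h1
      field_simp at h1
      field_simp
      linear_combination -h1
    have h6 := r8_five m h5
    rw [hgd, cr_add_right, cr_smul_right, cr_smul_right, cr_self, smul_zero, add_zero] at h6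
    exact (smul_eq_zero.1 h6).resolve_left (div_ne_zero two_ne_zero ha0)

end Pool.Agent.H304

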