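import Pool.Agent.helper304_full.KDefs
import Pool.Agent.helper304_full.A1
import Pool.Agent.helper304_full.A2
import Pool.Agent.helper304_full.B1
import Pool.Agent.helper304_full.B10
import Pool.Agent.helper304_full.K1
import Pool.Agent.helper304_full.K2
import Pool.Agent.helper304_full.K4
import Pool.Agent.helper304_full.R8

set_option autoImplicit false

set_option maxRecDepth 100000
set_option exponentiation.threshold 100000

namespace Pool.Agent.H304

end Pool.Agent.H304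

namespace Pool.Agent.H304.K

theorem b11_conic {z u : E} {c s tt : ℝ} {w : E} (hu : dt u u = 1) (h : c ^ 2 + s ^ 2 = 1) {jm : ℕ}
    (hm : jm = 4 ∧ c = C5 ∧ s = S5 ∨ jm = 6 ∧ 0.6233 ≤ c ∧ c ≤ 0.9012) (jj : Fin 4 → ℕ)
    (hinj : Function.Injective jj) (hjm : ∀ k, jj k < jm) (hx : cr u (tt • w - z) ≠ 0)
    (hw : OnStar (tt • w))
    (hs : ∀ k, OnStar (z + H304.rot u (pc c s (jj k)) (ps c s (jj k)) (tt • w - z))) :
    cr u z = 0 := by
  refine H304.conic (x := tt • w) hu hx (Fin.cons 1 (fun k => pc c s (jj k)))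
    (Fin.cons 0 (fun k => ps c s (jj k))) ?_ ?_ ?_
  · intro i
    refine Fin.cases ?_ (fun k => ?_) i
    · simp
    · simpa using pcs h (jj k)
  · intro i j
    refine Fin.cases ?_ (fun k => ?_) i <;> refine Fin.cases ?_ (fun l => ?_) j
    · intro _ _; rfl
    · intro h1 _
      exact absurd (by simpa using h1.symm) (pc_ne_one h hm (hjm l))
    · intro h1 _
      exact absurd (by simpa using h1) (pc_ne_one h hm (hjm k))
    · intro h1 h2
      simp only [Fin.cons_succ] at h1 h2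
      rw [hinj (pc_ps_inj h hm (hjm k) (hjm l) h1 h2)]
  · intro i
    refine Fin.cases ?_ (fun k => ?_) i
    · simp only [Fin.cons_zero, rot_one]
      simpa using hw
    · simpa using hs k

theorem b11_vtx (v : ℕ) : IsVtx (vx v) := by
  unfold vx
  split_ifs with h1 h2
  · exact ⟨1, 1, Or.inl rfl, Or.inl rfl, Or.inl (by simp [vA])⟩
  · exact ⟨-1, 1, Or.inr rfl, Or.inl rfl, Or.inl (by simp [vB])⟩
  · exact ⟨1, 1, Or.inl rfl, Or.inl rfl, Or.inr (Or.inr (by simp [vC]))⟩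

theorem b11_onstar (v : ℕ) (tt : ℝ) : OnStar (tt • vx v) :=
  ⟨vx v, b11_vtx v, by rw [cr_smul_right, cr_self, smul_zero]⟩

theorem b11_blk {ε : Fin 6 → ℝ} (hε : ∀ i, |ε i| ≤ 1) {e : Env} {InX : E → Prop} {z u : E} {c s lam S tt : ℝ} (he : EnvRep ε e z u c s)
    (G : Geo InX z u c s lam S tt) {κ Sb : ℕ} (hV : Val lam S κ Sb) {tp : P} (ht : Rep ε (2 ^ 16) tp (2 ^ 14 * tt)) {v d : ℕ}
    (h : tblk e tp (Tv v tp) (cT e (Tv v tp)) κ Sb d = true) :
    fld d 0 7 < e.jm ∧ OnStar (z + H304.rot u (pc c s (fld d 0 7)) (ps c s (fld d 0 7)) (tt • vx v - z)) := by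
  have hσ : fld d 8 8191 < 2 ^ 13 := by
    have : fld d 8 8191 ≤ 8191 := Nat.and_le_right
    omega
  obtain ⟨h1, h2, _⟩ := tin_sound hε he G hV ht hσ h
  exact ⟨h1, h2⟩

theorem tfour_sound {ε : Fin 6 → ℝ} (hε : ∀ i, |ε i| ≤ 1) {e : Env} {InX : E → Prop} {z u : E} {c s lam S tt : ℝ} (he : EnvRep ε e z u c s)
    (G : Geo InX z u c s lam S tt) {κ Sb : ℕ} (hV : Val lam S κ Sb) {tp : P} (ht : Rep ε (2 ^ 16) tp (2 ^ 14 * tt)) {v d : ℕ}
    (h : tfour e tp (Tv v tp) (cT e (Tv v tp)) κ Sb d = true) : cr u (tt • vx v - z) = 0 := by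
  by_contra hne
  unfold tfour at h
  simp only [Bool.and_eq_true, Nat.blt_eq] at h
  obtain ⟨⟨l1, l2, l3⟩, ⟨b1, b2⟩, b3, b4⟩ := h
  obtain ⟨m1, o1⟩ := b11_blk hε he G hV ht b1
  obtain ⟨m2, o2⟩ := b11_blk hε he G hV ht b2
  obtain ⟨m3, o3⟩ := b11_blk hε he G hV ht b3
  obtain ⟨m4, o4⟩ := b11_blk hε he G hV ht b4
  have e2 : fld (Nat.shiftRight d 21) 0 7 = fld d 21 7 := rfl
  have e3 : fld (Nat.shiftRight d 42) 0 7 = fld d 42 7 := rfl
  have e4 : fld (Nat.shiftRight d 63) 0 7 = fld d 63 7 := rfl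
  rw [e2] at m2 o2
  rw [e3] at m3 o3
  rw [e4] at m4 o4
  generalize fld d 0 7 = j1 at *
  generalize fld d 21 7 = j2 at *
  generalize fld d 42 7 = j3 at *
  generalize fld d 63 7 = j4 at *
  have hmono : StrictMono (![j1, j2, j3, j4] : Fin 4 → ℕ) := by
    rw [Fin.strictMono_iff_lt_succ]
    intro i
    fin_cases i <;> simpa
  refine G.off (b11_conic G.unit G.cs he.rjm ![j1, j2, j3, j4] hmono.injective ?_ hne (b11_onstar v tt) ?_)
  · intro k
    fin_cases k <;> simpa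
  · intro k
    fin_cases k
    · exact o1
    · exact o2
    · exact o3
    · exact o4

theorem b11_phP (ε : Fin 6 → ℝ) : Rep ε 1696633 phP (2 ^ 20 * ph) := by
  have h1 := ph_gt
  have h2 := ph_lt
  have h := Rep.cst ε 1696632 (2 ^ 20 * ph) (by
    rw [abs_le]
    constructor <;> push_cast <;> linarith)
  refine Rep.mono h ?_
  norm_num

theorem b11_nat0 (ε : Fin 6 → ℝ) : Rep ε 0 (P.nat 0) 0 := by
  simpa using Rep.nat ε 0

theorem b11_Tv {ε : Fin 6 → ℝ} (hε : ∀ i, |ε i| ≤ 1) {tt : ℝ} {tp : P} (ht : Rep ε (2 ^ 16) tp (2 ^ 14 * tt)) (v : ℕ) :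
    RepV ε (2 ^ 38) (Tv v tp) ((2 : ℝ) ^ 35 • (tt • vx v)) := by
  have r0 : Rep ε (2 ^ 38) (P.nat 0) 0 := Rep.mono (b11_nat0 ε) (by norm_num)
  have r1' : Rep ε (2 ^ 37) (tp.smul 2097152) (2 ^ 35 * tt) := by
    have := Rep.smul 2097152 ht
    have e1 : ((2097152 : ℕ) : ℝ) * (2 ^ 14 * tt) = 2 ^ 35 * tt := by push_cast; ring
    rw [e1] at this
    exact Rep.mono this (by norm_num)
  have r1 : Rep ε (2 ^ 38) (tp.smul 2097152) (2 ^ 35 * tt) := Rep.mono r1' (by norm_num)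
  have r2 : Rep ε (2 ^ 38) ((phP.mul tp).smul 2) (2 ^ 35 * (tt * ph)) := by
    have := Rep.smul 2 (Rep.mul hε (b11_phP ε) ht)
    have e1 : ((2 : ℕ) : ℝ) * (2 ^ 20 * ph * (2 ^ 14 * tt)) = 2 ^ 35 * (tt * ph) := by push_cast; ring
    rw [e1] at this
    exact Rep.mono this (by norm_num)
  have r3 : Rep ε (2 ^ 38) ((P.nat 0).sub (tp.smul 2097152)) (-(2 ^ 35 * tt)) := by
    have := Rep.sub (b11_nat0 ε) r1'
    rw [zero_sub] at this
    exact Rep.mono this (by norm_num)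
  unfold Tv vx
  by_cases h0 : v = 0
  · subst h0
    refine ⟨?_, ?_, ?_⟩
    · simpa [vA] using r0
    · simpa [vA] using r1
    · simpa [vA] using r2
  · by_cases h1 : v = 1
    · subst h1
      have b10 : Nat.beq 1 0 = false := rfl
      rw [b10]
      refine ⟨?_, ?_, ?_⟩
      · simpa [vB] using r0
      · simpa [vB] using r3
      · simpa [vB] using r2
    · have b0 : Nat.beq v 0 = false := by
        rw [Bool.eq_false_iff]; intro h; exact h0 (Nat.eq_of_beq_eq_true h)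
      have b1 : Nat.beq v 1 = false := by
        rw [Bool.eq_false_iff]; intro h; exact h1 (Nat.eq_of_beq_eq_true h)
      rw [b0, b1, if_neg h0, if_neg h1]
      refine ⟨?_, ?_, ?_⟩
      · simpa [vC] using r2
      · simpa [vC] using r0
      · simpa [vC] using r1

theorem b11_cT {ε : Fin 6 → ℝ} (hε : ∀ i, |ε i| ≤ 1) {e : Env} {z u : E} {c s : ℝ} (he : EnvRep ε e z u c s)
    {tt : ℝ} {tp : P} (ht : Rep ε (2 ^ 16) tp (2 ^ 14 * tt)) (v : ℕ) :
    ∃ μ : ℝ, RepV ε (2 ^ 174) (cT e (Tv v tp))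
      (cr (μ • u) ((2 : ℝ) ^ 35 • (tt • vx v) - (2 : ℝ) ^ 35 • z)) := by
  obtain ⟨μ, bM, _, hbM, hm, _⟩ := he.rax
  have hb0 : 0 ≤ bM := Rep.nonneg hm.1
  have hz := RepV.smul 2097152 he.rz
  have e1 : ((2097152 : ℕ) : ℝ) • ((2 : ℝ) ^ 14 • z) = (2 : ℝ) ^ 35 • z := by
    rw [smul_smul]; congr 1; norm_num
  rw [e1] at hz
  refine ⟨μ, RepV.mono (RepV.cross hε hm (RepV.sub (b11_Tv hε ht v) hz)) ?_⟩
  have : bM * (2 ^ 38 + ((2097152 : ℕ) : ℝ) * 2 ^ 14) ≤ 2 ^ 30 * (2 ^ 38 + ((2097152 : ℕ) : ℝ) * 2 ^ 14) :=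
    mul_le_mul_of_nonneg_right hbM (by positivity)
  refine (mul_le_mul_of_nonneg_left this (by norm_num)).trans ?_
  norm_num

theorem tleaf_sound {ε : Fin 6 → ℝ} (hε : ∀ i, |ε i| ≤ 1) {e : Env} {InX : E → Prop} {z u : E} {c s lam S tt : ℝ} (he : EnvRep ε e z u c s)
    (G : Geo InX z u c s lam S tt) {κ Sb : ℕ} (hV : Val lam S κ Sb) {tp : P} (ht : Rep ε (2 ^ 16) tp (2 ^ 14 * tt)) {v d : ℕ}
    (h : tleaf1 e tp κ Sb v d = true ∨ tleaf2 e tp κ Sb v d = true ∨ tall e tp κ Sb d = true) : False := by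
  rcases h with h | h | h
  · have hσ : fld d 8 8191 < 2 ^ 13 := by
      have : fld d 8 8191 ≤ 8191 := Nat.and_le_right
      omega
    have h' : tin e tp (Tv v tp) (cT e (Tv v tp)) κ Sb (fld d 0 7) (fld d 3 31) (fld d 8 8191) true (fld d 21 15) = true := h
    obtain ⟨_, _, h3⟩ := tin_sound hε he G hV ht hσ h'
    exact absurd h3 (by decide)
  · have h' : (P.nz (comp (cT e (Tv v tp)) (fld d 84 3)) && tfour e tp (Tv v tp) (cT e (Tv v tp)) κ Sb d) = true := h
    rw [Bool.and_eq_true] at h'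
    obtain ⟨h1, h2⟩ := h'
    have h3 := tfour_sound hε he G hV ht h2
    obtain ⟨μ, hr⟩ := b11_cT hε he ht v
    obtain ⟨i, hi⟩ := RepV.comp hr (fld d 84 3)
    have h4 := Rep.nz hε hi le_rfl h1
    apply h4
    have e1 : (2 : ℝ) ^ 35 • (tt • vx v) - (2 : ℝ) ^ 35 • z = (2 : ℝ) ^ 35 • (tt • vx v - z) := by
      rw [smul_sub]
    rw [e1, cr_smul_right, cr_smul_left, h3, smul_zero, smul_zero]
    rfl
  · have h' : (tfour e tp (Tv 0 tp) (cT e (Tv 0 tp)) κ Sb d && (tfour e tp (Tv 1 tp) (cT e (Tv 1 tp)) κ Sb (Nat.shiftRight d 84) &&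
      tfour e tp (Tv 2 tp) (cT e (Tv 2 tp)) κ Sb (Nat.shiftRight d 168))) = true := h
    simp only [Bool.and_eq_true] at h'
    obtain ⟨ha, hb, hc⟩ := h'
    have a0 := tfour_sound hε he G hV ht ha
    have a1 := tfour_sound hε he G hV ht hb
    have a2 := tfour_sound hε he G hV ht hc
    have v0 : vx 0 = vA := by simp [vx]
    have v1 : vx 1 = vB := by simp [vx]
    have v2 : vx 2 = vC := by simp [vx]
    rw [v0] at a0
    rw [v1] at a1
    rw [v2] at a2
    have hp := ph_gt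
    have htt := G.tt0
    have k01 : tt • cr u (vA - vB) = 0 := by
      rw [← cr_smul_right]
      have : tt • (vA - vB) = (tt • vA - z) - (tt • vB - z) := by rw [smul_sub]; abel
      rw [this, cr_sub_right, a0, a1, sub_zero]
    have k02 : tt • cr u (vA - vC) = 0 := by
      rw [← cr_smul_right]
      have : tt • (vA - vC) = (tt • vA - z) - (tt • vC - z) := by rw [smul_sub]; abel
      rw [this, cr_sub_right, a0, a2, sub_zero]
    have k01' : cr u (vA - vB) = 0 := (smul_eq_zero.1 k01).resolve_left htt.ne'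
    have k02' : cr u (vA - vC) = 0 := (smul_eq_zero.1 k02).resolve_left htt.ne'
    have q1 := congrArg (fun w : E => w 0) k01'
    have q2 := congrArg (fun w : E => w 2) k01'
    have q3 := congrArg (fun w : E => w 2) k02'
    simp [vA, vB, vC] at q1 q2 q3
    have u2 : u 2 = 0 := by linarith
    have u0 : u 0 = 0 := by linarith
    have u1 : u 1 = 0 := by
      rw [u0] at q3
      have : u 1 * ph = 0 := by linarith
      exact (mul_eq_zero.1 this).resolve_right (by linarith)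
    have hU := G.unit
    simp [dt, u0, u1, u2] at hU

end Pool.Agent.H304.K

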