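import Pool.Agent.helper304_full.KDefs
import Pool.Agent.helper304_full.B11
import Pool.Agent.helper304_full.K1
import Pool.Agent.helper304_full.K2
import Pool.Agent.helper304_full.K4

set_option autoImplicit false

set_option maxRecDepth 100000
set_option exponentiation.threshold 100000

namespace Pool.Agent.H304

end Pool.Agent.H304

namespace Pool.Agent.H304.K

/-- leaf argument for the `tt`-interval -/
theorem b12_leaf {ε : Fin 6 → ℝ} (hε : ∀ i, |ε i| ≤ 1) {e : Env} {InX : E → Prop} {z u : E} {c s lam S tt : ℝ}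
    (he : ∀ t : ℝ, |t| ≤ 1 → EnvRep (Function.update ε 5 t) e z u c s)
    (G : Geo InX z u c s lam S tt) {κ Sb : ℕ} (hV : Val lam S κ Sb) (m h : ℕ) (hmh : m + h ≤ 2 ^ 16)
    (hi : |2 ^ 14 * tt - (m : ℝ)| ≤ (h : ℝ)) {v d : ℕ}
    (hl : tleaf1 e (P.var 52 m h) κ Sb v d = true ∨ tleaf2 e (P.var 52 m h) κ Sb v d = true ∨
      tall e (P.var 52 m h) κ Sb d = true) : False := by
  obtain ⟨t, ht1, ht2⟩ : ∃ t : ℝ, |t| ≤ 1 ∧ 2 ^ 14 * tt = (m : ℝ) + (h : ℝ) * t := by
    rcases Nat.eq_zero_or_pos h with h0 | h0
    · refine ⟨0, by simp, ?_⟩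
      subst h0
      have h1 : |2 ^ 14 * tt - (m : ℝ)| ≤ 0 := by simpa using hi
      have h2 := abs_nonpos_iff.1 h1
      simp
      linarith
    · have hp : (0 : ℝ) < h := by exact_mod_cast h0
      refine ⟨(2 ^ 14 * tt - (m : ℝ)) / h, ?_, ?_⟩
      · rw [abs_div, abs_of_pos hp, div_le_one hp]
        exact hi
      · field_simp
        ring
  have hu : ∀ i, |Function.update ε 5 t i| ≤ 1 := by
    intro i
    by_cases hi5 : i = 5
    · subst hi5
      rw [Function.update_self]
      exact ht1
    · rw [Function.update_of_ne hi5]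
      exact hε i
  have hr : Rep (Function.update ε 5 t) ((m : ℝ) + h) (P.var 52 m h) (2 ^ 14 * tt) := by
    have h1 := Rep.var (Function.update ε 5 t) 5 m h
    rw [Function.update_self, ← ht2] at h1
    exact h1
  have hb : (m : ℝ) + h ≤ 2 ^ 16 := by exact_mod_cast hmh
  exact tleaf_sound hu (he t ht1) G hV (hr.mono hb) hl

theorem b12_ok {b : Bool} {rest r : ℕ} (h : ok b rest = r + 1) : b = true := by
  cases b with
  | true => rfl
  | false => exact absurd h (by simp [ok])

theorem runT_sound {ε : Fin 6 → ℝ} (hε : ∀ i, |ε i| ≤ 1) {e : Env} {InX : E → Prop} {z u : E} {c s lam S tt : ℝ}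
    (he : ∀ t : ℝ, |t| ≤ 1 → EnvRep (Function.update ε 5 t) e z u c s)
    (G : Geo InX z u c s lam S tt) {κ Sb : ℕ} (hV : Val lam S κ Sb) (fuel : ℕ) : ∀ (m h code r : ℕ), h ≤ m → m + h ≤ 2 ^ 16 →
      |2 ^ 14 * tt - (m : ℝ)| ≤ (h : ℝ) → runT fuel e κ Sb m h code = r + 1 → False := by
  induction fuel with
  | zero =>
    intro m h code r _ _ _ hr
    exact absurd hr (by simp [runT])
  | succ fuel ih =>
    intro m h code r hhm hmh hi hr
    rw [runT] at hr
    split at hr
    · split at hr
      · exact absurd hr (by simp)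
      · rename_i r' hr'
        by_cases hev : Nat.beq (Nat.mod h 2) 0 = true
        · rw [hev] at hr
          have h1 : Nat.mod h 2 = 0 := Nat.eq_of_beq_eq_true hev
          have h1' : h % 2 = 0 := h1
          have h2 : Nat.div h 2 = h / 2 := rfl
          obtain ⟨h', rfl⟩ : ∃ h', h = 2 * h' := ⟨h / 2, by omega⟩
          have h3 : Nat.div (2 * h') 2 = h' := by
            show 2 * h' / 2 = h'
            omega
          rw [h3] at hr hr'
          have hr2 : runT fuel e κ Sb (m + h') h' r' = r + 1 := hr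
          have hr3 : runT fuel e κ Sb (m - h') h' (Nat.shiftRight code 2) = r' + 1 := hr'
          push_cast at hi
          have hle : h' ≤ m := by omega
          rw [abs_le] at hi
          rcases le_total (2 ^ 14 * tt) (m : ℝ) with hc | hc
          · refine ih (m - h') h' _ r' (by omega) (by omega) ?_ hr3
            rw [Nat.cast_sub hle, abs_le]
            constructor <;> linarith [hi.1, hi.2]
          · refine ih (m + h') h' _ r (by omega) (by omega) ?_ hr2
            rw [Nat.cast_add, abs_le]
            constructor <;> linarith [hi.1, hi.2]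
        · have hf : Nat.beq (Nat.mod h 2) 0 = false := Bool.eq_false_iff.2 hev
          rw [hf] at hr
          exact absurd hr (by simp)
    · exact b12_leaf hε he G hV m h hmh hi (Or.inl (b12_ok hr))
    · exact b12_leaf hε he G hV m h hmh hi (Or.inr (Or.inl (b12_ok hr)))
    · exact b12_leaf hε he G hV m h hmh hi (v := 0) (Or.inr (Or.inr (b12_ok hr)))

end Pool.Agent.H304.K

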