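import Pool.Agent.helper304_full.KDefs
import Pool.Agent.helper304_full.A3
import Pool.Agent.helper304_full.A4
import Pool.Agent.helper304_full.K1
import Pool.Agent.helper304_full.K2
import Pool.Agent.helper304_full.K4

set_option autoImplicit false

set_option maxRecDepth 100000
set_option exponentiation.threshold 100000

namespace Pool.Agent.H304

end Pool.Agent.H304

namespace Pool.Agent.H304.K

theorem b13_lam {ε : Fin 6 → ℝ} (hε : ∀ i, |ε i| ≤ 1) {e : Env} {InX : E → Prop} {z u : E} {c s lam S tt : ℝ}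
    (he : EnvRep ε e z u c s) (G : Geo InX z u c s lam S tt) {l : ℕ} (hl : l < 2 ^ 15)
    (h : (setA e l || setB e l) = true) : lam ≤ (l : ℝ) / 2 ^ 12 := by
  have hl' : (l : ℝ) ≤ 2 ^ 15 := by exact_mod_cast hl.le
  have hl0 : (0 : ℝ) ≤ l := Nat.cast_nonneg l
  have hll : (l : ℝ) * l ≤ 2 ^ 30 := by nlinarith
  have hll0 : (0 : ℝ) ≤ (l : ℝ) * l := mul_nonneg hl0 hl0
  rw [Bool.or_eq_true] at h
  rcases h with h | h
  · unfold setA at h
    rw [show and (P.pos ((e.a.smul (Nat.mul 10000 l)).sub (P.nat 2008675802551418880)))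
      (P.pos (((e.zz.smul (Nat.mul 100000000 (Nat.mul l l))).add (P.nat 772843253984662441164800)).sub (e.a.smul (Nat.mul 12179200000 l))))
      = ((P.pos ((e.a.smul (Nat.mul 10000 l)).sub (P.nat 2008675802551418880))) &&
      (P.pos (((e.zz.smul (Nat.mul 100000000 (Nat.mul l l))).add (P.nat 772843253984662441164800)).sub (e.a.smul (Nat.mul 12179200000 l))))) from rfl,
      Bool.and_eq_true] at h
    obtain ⟨h1, h2⟩ := h
    have r1 := (he.ra.smul (Nat.mul 10000 l)).sub (Rep.nat ε 2008675802551418880)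
    have r2 := ((he.rzz.smul (Nat.mul 100000000 (Nat.mul l l))).add (Rep.nat ε 772843253984662441164800)).sub
      (he.ra.smul (Nat.mul 12179200000 l))
    simp only [Nat.mul_eq] at r1 r2 h1 h2
    push_cast at r1 r2
    have p1 := r1.pos hε (by nlinarith) h1
    have p2 := r2.pos hε (by nlinarith) h2
    have hlp : (0 : ℝ) < l := by
      rcases hl0.lt_or_eq with h | h
      · exact h
      · rw [← h] at p1
        norm_num at p1
    refine Geo.lamA G (by positivity) ?_ ?_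
    · nlinarith
    · nlinarith
  · unfold setB at h
    have r1 := ((he.rzz.smul (Nat.mul 3298534883328 (Nat.mul l l))).sub
      ((he.ra.mul hε he.ra).smul (Nat.mul l l))).sub (Rep.nat ε 14855280471424563298789490688)
    simp only [Nat.mul_eq] at r1 h
    push_cast at r1
    have p1 := r1.pos hε (by nlinarith) h
    have hlp : (0 : ℝ) < l := by
      rcases hl0.lt_or_eq with h | h
      · exact h
      · rw [← h] at p1
        norm_num at p1
    refine Geo.lamB G (by positivity) ?_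
    have e1 : ((l : ℝ) / 2 ^ 12) ^ 2 * (dt z z - dt z f0 ^ 2 / 3) - 1 =
        (3298534883328 * ((l : ℝ) * l) * (2 ^ 28 * dt z z) - (l : ℝ) * l * (2 ^ 34 * dt z f0 * (2 ^ 34 * dt z f0)) -
          14855280471424563298789490688) / (3 * 2 ^ 92) := by
      ring
    have e2 : 0 ≤ ((l : ℝ) / 2 ^ 12) ^ 2 * (dt z z - dt z f0 ^ 2 / 3) - 1 := by
      rw [e1]
      positivity
    linarith

theorem b13_S {ε : Fin 6 → ℝ} (hε : ∀ i, |ε i| ≤ 1) {e : Env} {InX : E → Prop} {z u : E} {c s lam S tt : ℝ}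
    (he : EnvRep ε e z u c s) (G : Geo InX z u c s lam S tt) {κ Sb : ℕ} (hκ : κ < 2 ^ 20) (hS : Sb < 2 ^ 14)
    (hk : lam ^ 2 * ((κ : ℝ) / 2 ^ 14) ≤ 1) (h : setS e κ Sb = true) : S ≤ (Sb : ℝ) / 2 ^ 12 := by
  have hκ' : (κ : ℝ) ≤ 2 ^ 20 := by exact_mod_cast hκ.le
  have hS' : (Sb : ℝ) ≤ 2 ^ 14 := by exact_mod_cast hS.le
  have hS0 : (0 : ℝ) ≤ Sb := Nat.cast_nonneg Sb
  have hSS : (Sb : ℝ) * Sb ≤ 2 ^ 28 := by nlinarith
  refine Geo.sb G hk (by positivity) ?_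
  unfold setS at h
  rw [show or (P.pos (((e.a.smul (Nat.mul 2 Sb)).add (P.nat (Nat.mul 4294967296 κ))).sub ((e.zz.add (P.nat (Nat.mul 48 (Nat.mul Sb Sb)))).smul 262144)))
    (P.pos ((P.nat (Nat.mul 12582912 Sb)).sub e.a)) =
    ((P.pos (((e.a.smul (Nat.mul 2 Sb)).add (P.nat (Nat.mul 4294967296 κ))).sub ((e.zz.add (P.nat (Nat.mul 48 (Nat.mul Sb Sb)))).smul 262144))) ||
    (P.pos ((P.nat (Nat.mul 12582912 Sb)).sub e.a))) from rfl, Bool.or_eq_true] at h
  rcases h with h | h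
  · left
    have r1 := ((he.ra.smul (Nat.mul 2 Sb)).add (Rep.nat ε (Nat.mul 4294967296 κ))).sub
      ((he.rzz.add (Rep.nat ε (Nat.mul 48 (Nat.mul Sb Sb)))).smul 262144)
    simp only [Nat.mul_eq] at r1 h
    push_cast at r1
    have p1 := r1.pos hε (by nlinarith) h
    have e1 : (κ : ℝ) / 2 ^ 14 - (dt z z - 2 * ((Sb : ℝ) / 2 ^ 12) * dt z f0 + 3 * ((Sb : ℝ) / 2 ^ 12) ^ 2) =
      (2 * (Sb : ℝ) * (2 ^ 34 * dt z f0) + 4294967296 * (κ : ℝ) - 262144 * (2 ^ 28 * dt z z + 48 * ((Sb : ℝ) * Sb))) /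
        2 ^ 46 := by
      ring
    have e2 : 0 < (κ : ℝ) / 2 ^ 14 - (dt z z - 2 * ((Sb : ℝ) / 2 ^ 12) * dt z f0 + 3 * ((Sb : ℝ) / 2 ^ 12) ^ 2) := by
      rw [e1]
      positivity
    linarith
  · right
    have r1 := (Rep.nat ε (Nat.mul 12582912 Sb)).sub he.ra
    simp only [Nat.mul_eq] at r1 h
    push_cast at r1
    have p1 := r1.pos hε (by nlinarith) h
    linarith

theorem setok_sound {ε : Fin 6 → ℝ} (hε : ∀ i, |ε i| ≤ 1) {e : Env} {InX : E → Prop} {z u : E} {c s lam S tt : ℝ} (he : EnvRep ε e z u c s)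
    (G : Geo InX z u c s lam S tt) {l κ Sb : ℕ} (hl : l < 2 ^ 15) (hκ : κ < 2 ^ 20) (hS : Sb < 2 ^ 14) (h : setok e l κ Sb = true) :
    Val lam S κ Sb := by
  unfold setok at h
  rw [show and (Nat.ble (Nat.mul κ (Nat.mul l l)) 274877906944) (and (or (setA e l) (setB e l)) (setS e κ Sb)) =
    ((Nat.ble (Nat.mul κ (Nat.mul l l)) 274877906944) && ((setA e l || setB e l) && setS e κ Sb)) from rfl,
    Bool.and_eq_true, Bool.and_eq_true] at h
  obtain ⟨h1, h2, h3⟩ := h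
  have h1' : κ * (l * l) ≤ 274877906944 := Nat.le_of_ble_eq_true h1
  have h1'' : (κ : ℝ) * ((l : ℝ) * l) ≤ 274877906944 := by exact_mod_cast h1'
  have hlam := b13_lam hε he G hl h2
  have hk : lam ^ 2 * ((κ : ℝ) / 2 ^ 14) ≤ 1 := by
    have h4 : lam ^ 2 ≤ ((l : ℝ) / 2 ^ 12) ^ 2 := pow_le_pow_left₀ G.lampos.le hlam 2
    calc lam ^ 2 * ((κ : ℝ) / 2 ^ 14) ≤ ((l : ℝ) / 2 ^ 12) ^ 2 * ((κ : ℝ) / 2 ^ 14) := by gcongr
      _ = (κ : ℝ) * ((l : ℝ) * l) / 274877906944 := by ring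
      _ ≤ 1 := by
        rw [div_le_one (by norm_num)]
        exact h1''
  exact ⟨hk, b13_S hε he G hκ hS hk h3, hκ, hS⟩

end Pool.Agent.H304.K

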