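import Pool.Agent.helper304_full.KDefs
import Pool.Agent.helper304_full.K1
import Pool.Agent.helper304_full.K2
import Pool.Agent.helper304_full.K4

set_option autoImplicit false

set_option maxRecDepth 100000
set_option exponentiation.threshold 100000

namespace Pool.Agent.H304

end Pool.Agent.H304

namespace Pool.Agent.H304.K

theorem b14_cst2 (ε : Fin 6 → ℝ) : Rep ε (3793785) (P.cst 3793784) (2 ^ 20 * (ph + 2)) := by
  have h := Rep.cst ε 3793784 (2 ^ 20 * (ph + 2)) (by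
    have h1 := ph_gt
    have h2 := ph_lt
    rw [abs_le]
    constructor <;> push_cast <;> linarith)
  refine h.mono ?_
  norm_num

theorem b14_cst1 (ε : Fin 6 → ℝ) : Rep ε (2745209) (P.cst 2745208) (2 ^ 20 * (ph + 1)) := by
  have h := Rep.cst ε 2745208 (2 ^ 20 * (ph + 1)) (by
    have h1 := ph_gt
    have h2 := ph_lt
    rw [abs_le]
    constructor <;> push_cast <;> linarith)
  refine h.mono ?_
  norm_num

theorem b14_cst0 (ε : Fin 6 → ℝ) : Rep ε (1696633) phP (2 ^ 20 * ph) := by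
  have h := Rep.cst ε 1696632 (2 ^ 20 * ph) (by
    have h1 := ph_gt
    have h2 := ph_lt
    rw [abs_le]
    constructor <;> push_cast <;> linarith)
  exact h.mono (by norm_num)

/-- the final comparison -/
theorem b14_fin {tt : ℝ} {h : ℕ} (h1 : (2 : ℝ) ^ 28 * tt ^ 2 < 4 * (h : ℝ) ^ 2) : 2 ^ 14 * tt ≤ 2 * h := by
  have h2 : (0 : ℝ) ≤ h := Nat.cast_nonneg h
  nlinarith

theorem b14_big {ε : Fin 6 → ℝ} (hε : ∀ i, |ε i| ≤ 1) {e : Env} {n : ℝ} (hn : Rep ε (2 ^ 30) e.zz (2 ^ 28 * n)) (a d h : ℕ)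
    (ha : a ≤ 40000) (hd : d ≤ 2 ^ 32) (hh : h < 2 ^ 15)
    (hp : P.pos ((P.smul (Nat.mul a (Nat.mul h h)) (P.cst 3793784)).sub (e.zz.smul d)) = true) :
    0 < (a : ℝ) * (h : ℝ) ^ 2 * (2 ^ 20 * (ph + 2)) - d * (2 ^ 28 * n) := by
  have h1 := ((b14_cst2 ε).smul (Nat.mul a (Nat.mul h h))).sub (hn.smul d)
  have hk : ((Nat.mul a (Nat.mul h h) : ℕ) : ℝ) = (a : ℝ) * (h : ℝ) ^ 2 := by
    show ((a * (h * h) : ℕ) : ℝ) = _
    push_cast
    ring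
  rw [hk] at h1
  refine h1.pos hε ?_ hp
  have ha' : (a : ℝ) ≤ 40000 := by exact_mod_cast ha
  have hd' : (d : ℝ) ≤ 2 ^ 32 := by exact_mod_cast hd
  have hh' : (h : ℝ) ≤ 2 ^ 15 := by exact_mod_cast hh.le
  have h0 : (0 : ℝ) ≤ h := Nat.cast_nonneg h
  have a0 : (0 : ℝ) ≤ a := Nat.cast_nonneg a
  have e1 : (h : ℝ) ^ 2 ≤ (2 ^ 15) ^ 2 := by gcongr
  have e2 : (a : ℝ) * (h : ℝ) ^ 2 ≤ 40000 * (2 ^ 15) ^ 2 := by gcongr
  calc (a : ℝ) * (h : ℝ) ^ 2 * 3793785 + d * 2 ^ 30 ≤ 40000 * (2 ^ 15) ^ 2 * 3793785 + 2 ^ 32 * 2 ^ 30 := by gcongr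
    _ ≤ 2 ^ 174 := by norm_num

theorem tbound_sound {ε : Fin 6 → ℝ} (hε : ∀ i, |ε i| ≤ 1) {e : Env} {InX : E → Prop} {z u : E} {c s lam S tt : ℝ} (he : EnvRep ε e z u c s)
    (G : Geo InX z u c s lam S tt) {κ Sb h : ℕ} (hV : Val lam S κ Sb) (hh : h < 2 ^ 15) (hb : tbound e κ h = true) : 2 ^ 14 * tt ≤ 2 * h := by
  have hp2 : (0 : ℝ) < ph + 2 := by linarith [ph_gt]
  have hn : 0 ≤ dt z z := dt_self_nonneg z
  unfold tbound at hb
  rw [Bool.or_eq_true, Bool.and_eq_true] at hb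
  rcases hb with hb | ⟨hb1, hb2⟩
  · have h1 := b14_big hε he.rzz 4000 711983104 h (by norm_num) (by norm_num) hh hb
    have h2 := G.tb
    apply b14_fin
    push_cast at h1
    have h3 : (2 : ℝ) ^ 28 * tt ^ 2 * (ph + 2) < 4 * (h : ℝ) ^ 2 * (ph + 2) := by
      nlinarith
    exact lt_of_mul_lt_mul_right h3 hp2.le
  · have k1 := ((Rep.nat ε (Nat.mul 65536 κ)).sub he.rzz).pos hε (by
      have hk : ((Nat.mul 65536 κ : ℕ) : ℝ) = 65536 * (κ : ℝ) := by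
        show ((65536 * κ : ℕ) : ℝ) = _
        push_cast
        ring
      rw [hk]
      have : (κ : ℝ) ≤ 2 ^ 20 := by exact_mod_cast hV.kb.le
      calc (65536 : ℝ) * κ + 2 ^ 30 ≤ 65536 * 2 ^ 20 + 2 ^ 30 := by gcongr
        _ ≤ 2 ^ 174 := by norm_num) hb1
    have hk : ((Nat.mul 65536 κ : ℕ) : ℝ) = 65536 * (κ : ℝ) := by
      show ((65536 * κ : ℕ) : ℝ) = _
      push_cast
      ring
    rw [hk] at k1
    have k2 : dt z z ≤ 4 * ((κ : ℝ) / 2 ^ 14) := by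
      norm_num at k1 ⊢
      linarith
    have k3 : lam ^ 2 * dt z z ≤ 4 := by
      calc lam ^ 2 * dt z z ≤ lam ^ 2 * (4 * ((κ : ℝ) / 2 ^ 14)) := by gcongr
        _ = 4 * (lam ^ 2 * ((κ : ℝ) / 2 ^ 14)) := by ring
        _ ≤ 4 * 1 := by gcongr; exact hV.k
        _ = 4 := by norm_num
    have h2 := G.tb2 k3
    have h1 := b14_big hε he.rzz 40000 4155506688 h (by norm_num) (by norm_num) hh hb2
    apply b14_fin
    push_cast at h1
    have h3 : (2 : ℝ) ^ 28 * tt ^ 2 * (ph + 2) < 4 * (h : ℝ) ^ 2 * (ph + 2) := by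
      nlinarith
    exact lt_of_mul_lt_mul_right h3 hp2.le

theorem dirout_sound {ε : Fin 6 → ℝ} (hε : ∀ i, |ε i| ≤ 1) {e : Env} {z u : E} {c s : ℝ} (he : EnvRep ε e z u c s)
    (hz : z 2 = 1) (hC : Cone z) (h : dirout e = true) : False := by
  have h1 := (((b14_cst1 ε).mul hε he.rz.1).add ((b14_cst0 ε).mul hε he.rz.2.1)).sub (Rep.nat ε 17179869184)
  have h2 := h1.pos hε (by norm_num) h
  have h3 := hC.2.2
  rw [hz] at h3
  simp only [PiLp.smul_apply, smul_eq_mul] at h2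
  push_cast at h2
  nlinarith

theorem b14_vars (ε : Fin 6 → ℝ) (i : Fin 6) {x : ℝ} {c o h q : ℕ} (hq : posn i = q) (ho : o ≤ 2 ^ 14) (h1 : h ≤ c) (h2 : c + h ≤ 2 * o)
    (hx : x = c - o + h * ε i) : Rep ε (2 ^ 14) (P.vars q c o h) x := by
  have h3 := Rep.vars ε i c o h (ho.trans (by norm_num))
  rw [hq, ← hx] at h3
  refine h3.mono ?_
  have h1' : (h : ℝ) ≤ c := by exact_mod_cast h1
  have h2' : (c : ℝ) + h ≤ 2 * o := by exact_mod_cast h2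
  have ho' : (o : ℝ) ≤ 2 ^ 14 := by exact_mod_cast ho
  have : |(c : ℝ) - o| ≤ o - h := by
    rw [abs_le]
    constructor <;> linarith
  linarith

theorem rout5_sound {ε : Fin 6 → ℝ} (hε : ∀ i, |ε i| ≤ 1) {b : Box} (hb : b.Inv 16384) {α β : ℝ} (h1 : α ^ 2 + β ^ 2 ≤ 1)
    (h2 : 2 ^ 14 * (α + 1) = b.c0 + b.h0 * ε 2) (h3 : 2 ^ 14 * (β + 1) = b.c1 + b.h1 * ε 3) (h : rout5 b = true) : False := by
  have ra : Rep ε (2 ^ 14) b.a5 (2 ^ 14 * α) :=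
    b14_vars ε 2 (q := 39) rfl (by norm_num) hb.a1 hb.a2 (by push_cast; linarith)
  have rb : Rep ε (2 ^ 14) b.b5 (2 ^ 14 * β) :=
    b14_vars ε 3 (q := 45) rfl (by norm_num) hb.b1 hb.b2 (by push_cast; linarith)
  have h4 := ((((ra.mul hε ra).add (rb.mul hε rb)).sub (Rep.nat ε 268435456)).pos hε (by norm_num) h)
  push_cast at h4
  nlinarith

theorem rout7_sound {ε : Fin 6 → ℝ} (hε : ∀ i, |ε i| ≤ 1) {b : Box} (hb : b.Inv 8192) {u : E} {τ : ℝ}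
    (hu : dt u u = 1) (hτ1 : 0.0520 ≤ τ ^ 2) (hτ2 : τ ^ 2 ≤ 0.2320)
    (h2 : 2 ^ 14 * (τ * u 0 + 1 / 2) = b.c0 + b.h0 * ε 2) (h3 : 2 ^ 14 * (τ * u 1 + 1 / 2) = b.c1 + b.h1 * ε 3)
    (h4 : 2 ^ 14 * (τ * u 2) = b.c2 + b.h2 * ε 4) (h : rout7 b = true) : False := by
  have ra : Rep ε (2 ^ 14) b.m7.x (2 ^ 14 * (τ * u 0)) :=
    b14_vars ε 2 (q := 39) rfl (by norm_num) hb.a1 hb.a2 (by push_cast; linarith)
  have rb : Rep ε (2 ^ 14) b.m7.y (2 ^ 14 * (τ * u 1)) :=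
    b14_vars ε 3 (q := 45) rfl (by norm_num) hb.b1 hb.b2 (by push_cast; linarith)
  have rc : Rep ε (2 ^ 14) b.m7.z (2 ^ 14 * (τ * u 2)) := by
    have h5 := Rep.var ε 4 b.c2 b.h2
    have hq : posn 4 = 47 := rfl
    rw [hq, ← h4] at h5
    refine h5.mono ?_
    have : (b.c2 : ℝ) + b.h2 ≤ 8192 := by exact_mod_cast hb.c2
    linarith
  have rM : Rep ε (2 ^ 14 * 2 ^ 14 + 2 ^ 14 * 2 ^ 14 + 2 ^ 14 * 2 ^ 14) (b.m7.dot b.m7) (2 ^ 28 * τ ^ 2) := by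
    have h6 := ((ra.mul hε ra).add (rb.mul hε rb)).add (rc.mul hε rc)
    have e : 2 ^ 14 * (τ * u 0) * (2 ^ 14 * (τ * u 0)) + 2 ^ 14 * (τ * u 1) * (2 ^ 14 * (τ * u 1)) +
        2 ^ 14 * (τ * u 2) * (2 ^ 14 * (τ * u 2)) = 2 ^ 28 * τ ^ 2 := by
      have hu' : u 0 * u 0 + u 1 * u 1 + u 2 * u 2 = 1 := hu
      linear_combination 2 ^ 28 * τ ^ 2 * hu'
    rw [e] at h6
    exact h6
  unfold rout7 at h
  rw [Bool.or_eq_true] at h
  rcases h with h | h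
  · have h7 := ((rM.smul 10000).sub (Rep.nat ε 622770257920)).pos hε (by norm_num) h
    push_cast at h7
    norm_num at h7 hτ2
    linarith
  · have h7 := ((Rep.nat ε 139586437120).sub (rM.smul 10000)).pos hε (by norm_num) h
    push_cast at h7
    norm_num at h7 hτ1
    linarith

end Pool.Agent.H304.K

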