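import Pool.Agent.helper304_full.KDefs
import Pool.Agent.helper304_full.K1
import Pool.Agent.helper304_full.K2
import Pool.Agent.helper304_full.K4

set_option autoImplicit false

set_option maxRecDepth 100000
set_option exponentiation.threshold 100000

namespace Pool.Agent.H304

end Pool.Agent.H304

namespace Pool.Agent.H304.K

/-- one coordinate of a split -/
theorem b15_one {c h : ℕ} {B : ℕ} (e : h % 2 = 0) (g : 2 ≤ h) (h1 : h ≤ c) (h2 : c + h ≤ B) :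
    (Nat.div h 2 ≤ Nat.sub c (Nat.div h 2) ∧ Nat.sub c (Nat.div h 2) + Nat.div h 2 ≤ B) ∧
    (Nat.div h 2 ≤ Nat.add c (Nat.div h 2) ∧ Nat.add c (Nat.div h 2) + Nat.div h 2 ≤ B) ∧
    ∀ t : ℝ, |t - (c : ℝ)| ≤ (h : ℝ) →
      |t - ((Nat.sub c (Nat.div h 2) : ℕ) : ℝ)| ≤ ((Nat.div h 2 : ℕ) : ℝ) ∨
      |t - ((Nat.add c (Nat.div h 2) : ℕ) : ℝ)| ≤ ((Nat.div h 2 : ℕ) : ℝ) := by
  obtain ⟨d, rfl⟩ : ∃ d, h = 2 * d := ⟨h / 2, by omega⟩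
  have e1 : Nat.div (2 * d) 2 = d := by
    have : Nat.div (2 * d) 2 = (2 * d) / 2 := rfl
    rw [this]; omega
  rw [e1]
  have e2 : Nat.sub c d = c - d := rfl
  have e3 : Nat.add c d = c + d := rfl
  rw [e2, e3]
  refine ⟨⟨by omega, by omega⟩, ⟨by omega, by omega⟩, ?_⟩
  intro t ht
  rw [Nat.cast_sub (by omega), Nat.cast_add]
  rw [Nat.cast_mul] at ht
  rw [abs_le] at ht
  push_cast at ht
  rcases le_total t (c : ℝ) with h3 | h3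
  · left
    rw [abs_le]
    constructor <;> linarith [ht.1, ht.2]
  · right
    rw [abs_le]
    constructor <;> linarith [ht.1, ht.2]

theorem b15_bool {h : ℕ} (hk : (and (Nat.beq (Nat.mod h 2) 0) (Nat.ble 2 h)) = true) : h % 2 = 0 ∧ 2 ≤ h := by
  rw [Bool.and_eq_true] at hk
  obtain ⟨h1, h2⟩ := hk
  exact ⟨Nat.eq_of_beq_eq_true h1, Nat.le_of_ble_eq_true h2⟩

theorem Box.split {b : Box} {H : ℕ} (hb : b.Inv H) {k : ℕ} (hk : b.even k = true) :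
    (b.lo k).Inv H ∧ (b.hi k).Inv H ∧ ∀ p, b.In p → (b.lo k).In p ∨ (b.hi k).In p := by
  obtain ⟨x1, x2, y1, y2, a1, a2, b1, b2, c1, c2⟩ := hb
  match k, hk with
  | 0, hk =>
    obtain ⟨e, g⟩ := b15_bool hk
    obtain ⟨⟨p1, p2⟩, ⟨p3, p4⟩, p5⟩ := b15_one e g x1 x2
    refine ⟨⟨p1, p2, y1, y2, a1, a2, b1, b2, c1, c2⟩, ⟨p3, p4, y1, y2, a1, a2, b1, b2, c1, c2⟩, ?_⟩
    rintro p ⟨i0, i1, i2, i3, i4⟩
    rcases p5 _ i0 with h | h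
    · exact Or.inl ⟨h, i1, i2, i3, i4⟩
    · exact Or.inr ⟨h, i1, i2, i3, i4⟩
  | 1, hk =>
    obtain ⟨e, g⟩ := b15_bool hk
    obtain ⟨⟨p1, p2⟩, ⟨p3, p4⟩, p5⟩ := b15_one e g y1 y2
    refine ⟨⟨x1, x2, p1, p2, a1, a2, b1, b2, c1, c2⟩, ⟨x1, x2, p3, p4, a1, a2, b1, b2, c1, c2⟩, ?_⟩
    rintro p ⟨i0, i1, i2, i3, i4⟩
    rcases p5 _ i1 with h | h
    · exact Or.inl ⟨i0, h, i2, i3, i4⟩
    · exact Or.inr ⟨i0, h, i2, i3, i4⟩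
  | 2, hk =>
    obtain ⟨e, g⟩ := b15_bool hk
    obtain ⟨⟨p1, p2⟩, ⟨p3, p4⟩, p5⟩ := b15_one e g a1 a2
    refine ⟨⟨x1, x2, y1, y2, p1, p2, b1, b2, c1, c2⟩, ⟨x1, x2, y1, y2, p3, p4, b1, b2, c1, c2⟩, ?_⟩
    rintro p ⟨i0, i1, i2, i3, i4⟩
    rcases p5 _ i2 with h | h
    · exact Or.inl ⟨i0, i1, h, i3, i4⟩
    · exact Or.inr ⟨i0, i1, h, i3, i4⟩
  | 3, hk =>
    obtain ⟨e, g⟩ := b15_bool hk
    obtain ⟨⟨p1, p2⟩, ⟨p3, p4⟩, p5⟩ := b15_one e g b1 b2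
    refine ⟨⟨x1, x2, y1, y2, a1, a2, p1, p2, c1, c2⟩, ⟨x1, x2, y1, y2, a1, a2, p3, p4, c1, c2⟩, ?_⟩
    rintro p ⟨i0, i1, i2, i3, i4⟩
    rcases p5 _ i3 with h | h
    · exact Or.inl ⟨i0, i1, i2, h, i4⟩
    · exact Or.inr ⟨i0, i1, i2, h, i4⟩
  | (n + 4), hk =>
    obtain ⟨e, g⟩ := b15_bool hk
    obtain ⟨⟨p1, p2⟩, ⟨p3, p4⟩, p5⟩ := b15_one e g c1 c2
    refine ⟨⟨x1, x2, y1, y2, a1, a2, b1, b2, p1, p2⟩, ⟨x1, x2, y1, y2, a1, a2, b1, b2, p3, p4⟩, ?_⟩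
    rintro p ⟨i0, i1, i2, i3, i4⟩
    rcases p5 _ i4 with h | h
    · exact Or.inl ⟨i0, i1, i2, i3, h⟩
    · exact Or.inr ⟨i0, i1, i2, i3, h⟩

theorem OK5.split {b : Box} {κ Sb : ℕ} (hb : b.Inv 16384) (k : ℕ) (hk : b.even k = true) (h1 : OK5 (b.lo k) κ Sb) (h2 : OK5 (b.hi k) κ Sb) :
    OK5 b κ Sb := by
  intro InX z α β lam S tt hg hab hin hv
  rcases (Box.split hb hk).2.2 _ hin with h | h
  · exact h1 InX z α β lam S tt hg hab h hv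
  · exact h2 InX z α β lam S tt hg hab h hv

theorem OK7.split {b : Box} {κ Sb : ℕ} (hb : b.Inv 8192) (k : ℕ) (hk : b.even k = true) (h1 : OK7 (b.lo k) κ Sb) (h2 : OK7 (b.hi k) κ Sb) :
    OK7 b κ Sb := by
  intro InX z u τ lam S tt hg ht0 ht1 ht2 hu hin hv
  rcases (Box.split hb hk).2.2 _ hin with h | h
  · exact h1 InX z u τ lam S tt hg ht0 ht1 ht2 hu h hv
  · exact h2 InX z u τ lam S tt hg ht0 ht1 ht2 hu h hv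

end Pool.Agent.H304.K

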