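import Pool.Agent.helper304_full.KDefs
import Pool.Agent.helper304_full.K1
import Pool.Agent.helper304_full.K2
import Pool.Agent.helper304_full.K4

set_option autoImplicit false

set_option maxRecDepth 100000
set_option exponentiation.threshold 100000

namespace Pool.Agent.H304.K

lemma b5_ph20 : |(2:ℝ) ^ 20 * ph - (1696632 : ℕ)| ≤ 1 := by
  have h1 := ph_gt
  have h2 := ph_lt
  rw [abs_le]
  constructor <;> push_cast <;> norm_num at * <;> linarith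

lemma b5_ph20' : |(2:ℝ) ^ 20 * (ph - 1) - (648056 : ℕ)| ≤ 1 := by
  have h1 := ph_gt
  have h2 := ph_lt
  rw [abs_le]
  constructor <;> push_cast <;> norm_num at * <;> linarith

lemma b5_S5_gt : 0.95105651 < S5 := by
  have h1 := C5_gt
  have h2 := C5_lt
  have h3 := S5_sq
  have h4 := S5_pos
  by_contra h
  push Not at h
  have : S5 ^ 2 ≤ 0.95105651 ^ 2 := by
    apply pow_le_pow_left₀ h4.le h
  have h5 : C5 ^ 2 < 0.30901700 ^ 2 := by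
    apply pow_lt_pow_left₀ h2 (by linarith) (by norm_num)
  norm_num at *
  linarith

lemma b5_S5_lt : S5 < 0.95105653 := by
  have h1 := C5_gt
  have h2 := C5_lt
  have h3 := S5_sq
  have h4 := S5_pos
  by_contra h
  push Not at h
  have : (0.95105653 : ℝ) ^ 2 ≤ S5 ^ 2 := by
    apply pow_le_pow_left₀ (by norm_num) h
  have h5 : (0.30901697 : ℝ) ^ 2 < C5 ^ 2 := by
    apply pow_lt_pow_left₀ h1 (by norm_num) (by norm_num)
  norm_num at *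
  linarith

lemma b5_c1 : |(2:ℝ) ^ 20 * S5 - (997255 : ℕ)| ≤ 1 := by
  have h1 := b5_S5_gt
  have h2 := b5_S5_lt
  rw [abs_le]
  constructor <;> push_cast <;> norm_num at * <;> linarith

lemma b5_c2 : |(2:ℝ) ^ 20 * (1 - C5) - (724548 : ℕ)| ≤ 1 := by
  have h1 := C5_gt
  have h2 := C5_lt
  rw [abs_le]
  constructor <;> push_cast <;> norm_num at * <;> linarith

lemma b5_c3 : |(2:ℝ) ^ 20 * (2 * C5 * S5) - (616338 : ℕ)| ≤ 1 := by
  have h1 := C5_gt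
  have h2 := C5_lt
  have h3 := b5_S5_gt
  have h4 := b5_S5_lt
  have h5 : 0.30901697 * 0.95105651 ≤ C5 * S5 := by
    apply mul_le_mul h1.le h3.le (by norm_num) (by linarith)
  have h6 : C5 * S5 ≤ 0.30901700 * 0.95105653 := by
    apply mul_le_mul h2.le h4.le (by linarith) (by norm_num)
  rw [abs_le]
  constructor <;> push_cast <;> norm_num at * <;> linarith

lemma b5_c4 : |(2:ℝ) ^ 20 * (1 - (C5 ^ 2 - S5 ^ 2)) - (1896892 : ℕ)| ≤ 1 := by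
  have h1 := C5_gt
  have h2 := C5_lt
  have h3 := S5_sq
  have h4 := C5_eq
  have e : 1 - (C5 ^ 2 - S5 ^ 2) = 1 + C5 * 1 + 1 / 2 := by
    rw [h3]; linarith
  rw [e, abs_le]
  constructor <;> push_cast <;> norm_num at * <;> linarith

section

variable {ε : Fin 6 → ℝ} (hε : ∀ i, |ε i| ≤ 1)

include hε in
lemma b5_m5 {a b : P} {α β : ℝ} (ha : Rep ε (2 ^ 14) a (2 ^ 14 * α)) (hb : Rep ε (2 ^ 14) b (2 ^ 14 * β)) :
    RepV ε (2 ^ 30) (m5 a b) ((2 ^ 28 * (1 + α ^ 2 + β ^ 2)) • ster α β) := by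
  have hν : (1 + α ^ 2 + β ^ 2) ≠ 0 := by positivity
  have key : (2 ^ 28 * (1 + α ^ 2 + β ^ 2)) • ster α β =
      (2 ^ 28 : ℝ) • (!₂[2 * α, 2 * β, 1 - α ^ 2 - β ^ 2] : E) := by
    unfold ster
    rw [smul_smul]
    congr 1
    field_simp
  rw [key]
  refine ⟨?_, ?_, ?_⟩
  · have h := (Rep.smul 32768 ha).mono (b' := 2 ^ 30) (by norm_num)
    have e : ((32768 : ℕ) : ℝ) * (2 ^ 14 * α) = ((2 ^ 28 : ℝ) • (!₂[2 * α, 2 * β, 1 - α ^ 2 - β ^ 2] : E)) 0 := by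
      simp; ring
    rw [e] at h
    exact h
  · have h := (Rep.smul 32768 hb).mono (b' := 2 ^ 30) (by norm_num)
    have e : ((32768 : ℕ) : ℝ) * (2 ^ 14 * β) = ((2 ^ 28 : ℝ) • (!₂[2 * α, 2 * β, 1 - α ^ 2 - β ^ 2] : E)) 1 := by
      simp; ring
    rw [e] at h
    exact h
  · have h := ((Rep.nat ε 268435456).sub ((ha.mul hε ha).add (hb.mul hε hb))).mono (b' := 2 ^ 30) (by norm_num)
    have e : ((268435456 : ℕ) : ℝ) - (2 ^ 14 * α * (2 ^ 14 * α) + 2 ^ 14 * β * (2 ^ 14 * β)) =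
        ((2 ^ 28 : ℝ) • (!₂[2 * α, 2 * β, 1 - α ^ 2 - β ^ 2] : E)) 2 := by
      simp; ring
    rw [e] at h
    exact h

include hε in
lemma b5_nu5 {a b : P} {α β : ℝ} (ha : Rep ε (2 ^ 14) a (2 ^ 14 * α)) (hb : Rep ε (2 ^ 14) b (2 ^ 14 * β)) :
    Rep ε (3 * 2 ^ 28) (nu5 a b) (2 ^ 28 * (1 + α ^ 2 + β ^ 2)) := by
  have h := ((Rep.nat ε 268435456).add ((ha.mul hε ha).add (hb.mul hε hb))).mono (b' := 3 * 2 ^ 28) (by norm_num)
  have e : ((268435456 : ℕ) : ℝ) + (2 ^ 14 * α * (2 ^ 14 * α) + 2 ^ 14 * β * (2 ^ 14 * β)) =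
      2 ^ 28 * (1 + α ^ 2 + β ^ 2) := by
    push_cast; ring
  rw [e] at h
  exact h

/-- Rodrigues formula -/
lemma b5_rod {u : E} (hu : dt u u = 1) (c s μ : ℝ) (w : E) :
    (2 ^ 20 * (μ * μ)) • (H304.rot u c s w - w) =
      (2 ^ 20 * s * μ) • cr (μ • u) w + (2 ^ 20 * (1 - c)) • cr (μ • u) (cr (μ • u) w) := by
  have h1 : cr u (cr u w) = dt u w • u - w := by rw [cr_cr, hu, one_smul]
  simp only [cr_smul_left, cr_smul_right, h1, H304.rot]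
  module

lemma b5_ster (α β : ℝ) : dt (ster α β) (ster α β) = 1 := by
  have hν : (1 + α ^ 2 + β ^ 2) ≠ 0 := by positivity
  simp [dt, ster]
  field_simp
  ring

include hε in
lemma b5_ax {nu : P} {μ : ℝ} (hn : Rep ε (3 * 2 ^ 28) nu μ) (S C : ℕ) (s c : ℝ) (hS : |2 ^ 20 * s - (S : ℕ)| ≤ 1)
    (hC : |2 ^ 20 * (1 - c) - (C : ℕ)| ≤ 1) :
    Rep ε ((S + 1) * (3 * 2 ^ 28)) (ax5 nu S C).A (2 ^ 20 * s * μ) ∧
    Rep ε (C + 1) (ax5 nu S C).B (2 ^ 20 * (1 - c)) ∧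
    Rep ε (2 ^ 87) (ax5 nu S C).D (2 ^ 20 * (μ * μ)) := by
  refine ⟨?_, ?_, ?_⟩
  · exact (Rep.cst ε S _ hS).mul hε hn
  · exact Rep.cst ε C _ hC
  · have h := (Rep.smul 1048576 (hn.mul hε hn)).mono (b' := 2 ^ 87) (by norm_num)
    have e : ((1048576 : ℕ) : ℝ) * (μ * μ) = 2 ^ 20 * (μ * μ) := by norm_num
    rw [e] at h
    exact h

end

theorem env5_rep {ε : Fin 6 → ℝ} (hε : ∀ i, |ε i| ≤ 1) {b : Box} (hb : b.Inv 16384) {z : E} {α β : ℝ} (hz : z 2 = 1)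
    (h0 : 2 ^ 14 * z 0 = b.cx + b.hx * ε 0) (h1 : 2 ^ 14 * z 1 = b.cy + b.hy * ε 1)
    (h2 : 2 ^ 14 * (α + 1) = b.c0 + b.h0 * ε 2) (h3 : 2 ^ 14 * (β + 1) = b.c1 + b.h1 * ε 3) :
    EnvRep ε (env5 b) z (ster α β) C5 S5 := by
  have hX : Rep ε 6400 b.X (2 ^ 14 * z 0) := by
    rw [h0]
    refine (Rep.var ε 0 b.cx b.hx).mono ?_
    exact_mod_cast hb.x2
  have hY : Rep ε 10240 b.Y (2 ^ 14 * z 1) := by
    rw [h1]
    refine (Rep.var ε 1 b.cy b.hy).mono ?_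
    exact_mod_cast hb.y2
  have hO : Rep ε (2 ^ 14) OneP (2 ^ 14 * z 2) := by
    rw [hz]
    have h := Rep.nat ε 16384
    have e : ((16384 : ℕ) : ℝ) = 2 ^ 14 * 1 := by norm_num
    rw [e] at h
    exact h.mono (by norm_num)
  have ha : Rep ε (2 ^ 14) b.a5 (2 ^ 14 * α) := by
    have h := Rep.vars ε 2 b.c0 16384 b.h0 (by norm_num)
    have e : (b.c0 : ℝ) - ((16384 : ℕ) : ℝ) + b.h0 * ε 2 = 2 ^ 14 * α := by
      push_cast
      linarith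
    rw [e] at h
    refine h.mono ?_
    have e1 : (b.h0 : ℝ) ≤ b.c0 := by exact_mod_cast hb.a1
    have e2 : (b.c0 : ℝ) + b.h0 ≤ 2 * 16384 := by exact_mod_cast hb.a2
    have e3 : |(b.c0 : ℝ) - ((16384 : ℕ) : ℝ)| ≤ 16384 - b.h0 := by
      rw [abs_le]
      push_cast
      constructor <;> linarith
    norm_num at e3 ⊢
    linarith
  have hbb : Rep ε (2 ^ 14) b.b5 (2 ^ 14 * β) := by
    have h := Rep.vars ε 3 b.c1 16384 b.h1 (by norm_num)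
    have e : (b.c1 : ℝ) - ((16384 : ℕ) : ℝ) + b.h1 * ε 3 = 2 ^ 14 * β := by
      push_cast
      linarith
    rw [e] at h
    refine h.mono ?_
    have e1 : (b.h1 : ℝ) ≤ b.c1 := by exact_mod_cast hb.b1
    have e2 : (b.c1 : ℝ) + b.h1 ≤ 2 * 16384 := by exact_mod_cast hb.b2
    have e3 : |(b.c1 : ℝ) - ((16384 : ℕ) : ℝ)| ≤ 16384 - b.h1 := by
      rw [abs_le]
      push_cast
      constructor <;> linarith
    norm_num at e3 ⊢
    linarith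
  have hν : 0 < (2 ^ 28 * (1 + α ^ 2 + β ^ 2) : ℝ) := by positivity
  have hn := b5_nu5 hε ha hbb
  refine ⟨Or.inl ⟨rfl, rfl, rfl⟩, ⟨?_, ?_, ?_⟩, ?_, ?_, ?_⟩
  · have e : ((2 : ℝ) ^ 14 • z) 0 = 2 ^ 14 * z 0 := by simp
    rw [e]
    exact hX.mono (by norm_num)
  · have e : ((2 : ℝ) ^ 14 • z) 1 = 2 ^ 14 * z 1 := by simp
    rw [e]
    exact hY.mono (by norm_num)
  · have e : ((2 : ℝ) ^ 14 • z) 2 = 2 ^ 14 * z 2 := by simp
    rw [e]
    exact hO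
  · have h := (((Rep.cst ε 648056 _ b5_ph20').mul hε hX).add (Rep.smul 16384 (Rep.cst ε 1696632 _ b5_ph20))).mono
      (b' := 2 ^ 36) (by norm_num)
    have e : 2 ^ 20 * (ph - 1) * (2 ^ 14 * z 0) + ((16384 : ℕ) : ℝ) * (2 ^ 20 * ph) = 2 ^ 34 * dt z f0 := by
      simp [dt, f0, hz]
      ring
    rw [e] at h
    exact h
  · have h := (((hX.mul hε hX).add (hY.mul hε hY)).add (Rep.nat ε 268435456)).mono
      (b' := 2 ^ 30) (by norm_num)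
    have e : 2 ^ 14 * z 0 * (2 ^ 14 * z 0) + 2 ^ 14 * z 1 * (2 ^ 14 * z 1) + ((268435456 : ℕ) : ℝ) = 2 ^ 28 * dt z z := by
      simp [dt, hz]
      ring
    rw [e] at h
    exact h
  · refine ⟨2 ^ 28 * (1 + α ^ 2 + β ^ 2), 2 ^ 30, hν, le_rfl, b5_m5 hε ha hbb, ?_⟩
    have hD : 0 < (2 ^ 20 * (2 ^ 28 * (1 + α ^ 2 + β ^ 2) * (2 ^ 28 * (1 + α ^ 2 + β ^ 2))) : ℝ) := by positivity
    have A1 := b5_ax hε hn 997255 724548 S5 C5 b5_c1 b5_c2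
    have A2 := b5_ax hε hn 616338 1896892 (2 * C5 * S5) (C5 ^ 2 - S5 ^ 2) b5_c3 b5_c4
    have hu := b5_ster α β
    have R1 := fun w => b5_rod hu C5 S5 (2 ^ 28 * (1 + α ^ 2 + β ^ 2)) w
    have R1' := fun w => b5_rod hu C5 (-S5) (2 ^ 28 * (1 + α ^ 2 + β ^ 2)) w
    have R2 := fun w => b5_rod hu (C5 ^ 2 - S5 ^ 2) (2 * C5 * S5) (2 ^ 28 * (1 + α ^ 2 + β ^ 2)) w
    have R2' := fun w => b5_rod hu (C5 ^ 2 - S5 ^ 2) (-(2 * C5 * S5)) (2 ^ 28 * (1 + α ^ 2 + β ^ 2)) w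
    intro j hj
    have hj4 : j < 4 := hj
    interval_cases j
    · refine ⟨2 ^ 20 * S5 * (2 ^ 28 * (1 + α ^ 2 + β ^ 2)), 2 ^ 20 * (1 - C5), _, _, _, hD, A1.1, A1.2.1, A1.2.2, ?_, ?_, ?_⟩
      · norm_num
      · norm_num
      · intro w
        have := R1 w
        simpa [pc, ps] using this
    · refine ⟨2 ^ 20 * S5 * (2 ^ 28 * (1 + α ^ 2 + β ^ 2)), 2 ^ 20 * (1 - C5), _, _, _, hD, A1.1, A1.2.1, A1.2.2, ?_, ?_, ?_⟩
      · norm_num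
      · norm_num
      · intro w
        have := R1' w
        simpa [pc, ps] using this
    · refine ⟨2 ^ 20 * (2 * C5 * S5) * (2 ^ 28 * (1 + α ^ 2 + β ^ 2)), 2 ^ 20 * (1 - (C5 ^ 2 - S5 ^ 2)), _, _, _, hD, A2.1, A2.2.1, A2.2.2, ?_, ?_, ?_⟩
      · norm_num
      · norm_num
      · intro w
        have := R2 w
        simpa [pc, ps] using this
    · refine ⟨2 ^ 20 * (2 * C5 * S5) * (2 ^ 28 * (1 + α ^ 2 + β ^ 2)), 2 ^ 20 * (1 - (C5 ^ 2 - S5 ^ 2)), _, _, _, hD, A2.1, A2.2.1, A2.2.2, ?_, ?_, ?_⟩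
      · norm_num
      · norm_num
      · intro w
        have := R2' w
        simpa [pc, ps] using this

end Pool.Agent.H304.K
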