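import Pool.Agent.helper304_full.Base

set_option autoImplicit false

namespace Pool.Agent.H304

/-- entries as integer pairs -/
def r2_e (i r c : ℕ) : ℤ × ℤ := (cvA (gcode i r c), cvB (gcode i r c))

/-- products of entries as integer pairs -/
def r2_m (i r c r' c' : ℕ) : ℤ × ℤ :=
  ((r2_e i r c).1 * (r2_e i r' c').1 + (r2_e i r c).2 * (r2_e i r' c').2,
   (r2_e i r c).1 * (r2_e i r' c').2 + (r2_e i r c).2 * (r2_e i r' c').1 +
    (r2_e i r c).2 * (r2_e i r' c').2)

lemma r2_m_real (i r c r' c' : ℕ) :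
    gent i r c * gent i r' c' = (((r2_m i r c r' c').1 : ℝ) + ((r2_m i r c r' c').2 : ℝ) * ph) / 4 := by
  simp only [r2_m, r2_e, gent]
  push_cast
  linear_combination (cvB (gcode i r c) : ℝ) * (cvB (gcode i r' c') : ℝ) / 4 * ph_sq

lemma r2_gram : ∀ i < 60, ∀ c < 3, ∀ c' < 3,
    (r2_m i 0 c 0 c').1 + (r2_m i 1 c 1 c').1 + (r2_m i 2 c 2 c').1 = (if c = c' then 4 else 0) ∧
    (r2_m i 0 c 0 c').2 + (r2_m i 1 c 1 c').2 + (r2_m i 2 c 2 c').2 = 0 := by
  decide +kernel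

lemma r2_minor : ∀ i < 60, ∀ r < 3, ∀ c < 3,
    (r2_m i ((r + 1) % 3) ((c + 1) % 3) ((r + 2) % 3) ((c + 2) % 3)).1 -
      (r2_m i ((r + 1) % 3) ((c + 2) % 3) ((r + 2) % 3) ((c + 1) % 3)).1 = 2 * (r2_e i r c).1 ∧
    (r2_m i ((r + 1) % 3) ((c + 1) % 3) ((r + 2) % 3) ((c + 2) % 3)).2 -
      (r2_m i ((r + 1) % 3) ((c + 2) % 3) ((r + 2) % 3) ((c + 1) % 3)).2 = 2 * (r2_e i r c).2 := by
  decide +kernel

lemma r2_id : ∀ r < 3, ∀ c < 3, r2_e 0 r c = if r = c then (2, 0) else (0, 0) := by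
  decide +kernel

lemma r2_gram_real {i : ℕ} (hi : i < 60) {c c' : ℕ} (hc : c < 3) (hc' : c' < 3) :
    gent i 0 c * gent i 0 c' + gent i 1 c * gent i 1 c' + gent i 2 c * gent i 2 c' =
      if c = c' then 1 else 0 := by
  obtain ⟨h1, h2⟩ := r2_gram i hi c hc c' hc'
  rw [r2_m_real, r2_m_real, r2_m_real]
  have h1' : ((r2_m i 0 c 0 c').1 : ℝ) + ((r2_m i 1 c 1 c').1 : ℝ) + ((r2_m i 2 c 2 c').1 : ℝ) =
      if c = c' then 4 else 0 := by
    have := congrArg (Int.cast : ℤ → ℝ) h1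
    push_cast at this
    exact this
  have h2' : ((r2_m i 0 c 0 c').2 : ℝ) + ((r2_m i 1 c 1 c').2 : ℝ) + ((r2_m i 2 c 2 c').2 : ℝ) = 0 := by
    exact_mod_cast h2
  split_ifs at h1' ⊢ with h
  · linear_combination (1 / 4) * h1' + (ph / 4) * h2'
  · linear_combination (1 / 4) * h1' + (ph / 4) * h2'

lemma r2_minor_real {i : ℕ} (hi : i < 60) {r c : ℕ} (hr : r < 3) (hc : c < 3) :
    gent i ((r + 1) % 3) ((c + 1) % 3) * gent i ((r + 2) % 3) ((c + 2) % 3) -
      gent i ((r + 1) % 3) ((c + 2) % 3) * gent i ((r + 2) % 3) ((c + 1) % 3) = gent i r c := by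
  obtain ⟨h1, h2⟩ := r2_minor i hi r hr c hc
  rw [r2_m_real, r2_m_real]
  have h1' : ((r2_m i ((r + 1) % 3) ((c + 1) % 3) ((r + 2) % 3) ((c + 2) % 3)).1 : ℝ) -
      ((r2_m i ((r + 1) % 3) ((c + 2) % 3) ((r + 2) % 3) ((c + 1) % 3)).1 : ℝ) =
      2 * ((r2_e i r c).1 : ℝ) := by exact_mod_cast h1
  have h2' : ((r2_m i ((r + 1) % 3) ((c + 1) % 3) ((r + 2) % 3) ((c + 2) % 3)).2 : ℝ) -
      ((r2_m i ((r + 1) % 3) ((c + 2) % 3) ((r + 2) % 3) ((c + 1) % 3)).2 : ℝ) =
      2 * ((r2_e i r c).2 : ℝ) := by exact_mod_cast h2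
  have h3 : gent i r c = (((r2_e i r c).1 : ℝ) + ((r2_e i r c).2 : ℝ) * ph) / 2 := rfl
  rw [h3]
  linear_combination (1 / 4) * h1' + (ph / 4) * h2'

theorem act_dt {i : ℕ} (hi : i < 60) (v w : E) : dt (act i v) (act i w) = dt v w := by
  have h00 := r2_gram_real hi (c := 0) (c' := 0) (by norm_num) (by norm_num)
  have h01 := r2_gram_real hi (c := 0) (c' := 1) (by norm_num) (by norm_num)
  have h02 := r2_gram_real hi (c := 0) (c' := 2) (by norm_num) (by norm_num)
  have h11 := r2_gram_real hi (c := 1) (c' := 1) (by norm_num) (by norm_num)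
  have h12 := r2_gram_real hi (c := 1) (c' := 2) (by norm_num) (by norm_num)
  have h22 := r2_gram_real hi (c := 2) (c' := 2) (by norm_num) (by norm_num)
  norm_num at h00 h01 h02 h11 h12 h22
  simp only [dt, act, PiLp.toLp_apply, Matrix.cons_val_zero, Matrix.cons_val_one, Matrix.cons_val]
  linear_combination (v 0 * w 0) * h00 + (v 0 * w 1 + v 1 * w 0) * h01 +
    (v 0 * w 2 + v 2 * w 0) * h02 + (v 1 * w 1) * h11 + (v 1 * w 2 + v 2 * w 1) * h12 +
    (v 2 * w 2) * h22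

theorem act_cr {i : ℕ} (hi : i < 60) (v w : E) : cr (act i v) (act i w) = act i (cr v w) := by
  have m00 := r2_minor_real hi (r := 0) (c := 0) (by norm_num) (by norm_num)
  have m01 := r2_minor_real hi (r := 0) (c := 1) (by norm_num) (by norm_num)
  have m02 := r2_minor_real hi (r := 0) (c := 2) (by norm_num) (by norm_num)
  have m10 := r2_minor_real hi (r := 1) (c := 0) (by norm_num) (by norm_num)
  have m11 := r2_minor_real hi (r := 1) (c := 1) (by norm_num) (by norm_num)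
  have m12 := r2_minor_real hi (r := 1) (c := 2) (by norm_num) (by norm_num)
  have m20 := r2_minor_real hi (r := 2) (c := 0) (by norm_num) (by norm_num)
  have m21 := r2_minor_real hi (r := 2) (c := 1) (by norm_num) (by norm_num)
  have m22 := r2_minor_real hi (r := 2) (c := 2) (by norm_num) (by norm_num)
  norm_num at m00 m01 m02 m10 m11 m12 m20 m21 m22
  apply ext3
  · simp only [cr_0, cr_1, cr_2, act, PiLp.toLp_apply, Matrix.cons_val_zero, Matrix.cons_val_one,
      Matrix.cons_val]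
    linear_combination (v 1 * w 2 - v 2 * w 1) * m00 + (v 2 * w 0 - v 0 * w 2) * m01 +
      (v 0 * w 1 - v 1 * w 0) * m02
  · simp only [cr_0, cr_1, cr_2, act, PiLp.toLp_apply, Matrix.cons_val_zero, Matrix.cons_val_one,
      Matrix.cons_val]
    linear_combination (v 1 * w 2 - v 2 * w 1) * m10 + (v 2 * w 0 - v 0 * w 2) * m11 +
      (v 0 * w 1 - v 1 * w 0) * m12
  · simp only [cr_0, cr_1, cr_2, act, PiLp.toLp_apply, Matrix.cons_val_zero, Matrix.cons_val_one,
      Matrix.cons_val]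
    linear_combination (v 1 * w 2 - v 2 * w 1) * m20 + (v 2 * w 0 - v 0 * w 2) * m21 +
      (v 0 * w 1 - v 1 * w 0) * m22

lemma r2_gent_zero {r c : ℕ} (hr : r < 3) (hc : c < 3) : gent 0 r c = if r = c then 1 else 0 := by
  have h := r2_id r hr c hc
  have h3 : gent 0 r c = (((r2_e 0 r c).1 : ℝ) + ((r2_e 0 r c).2 : ℝ) * ph) / 2 := rfl
  rw [h3, h]
  split_ifs <;> norm_num

theorem act_zero (v : E) : act 0 v = v := by
  have g := fun (r c : ℕ) (hr : r < 3) (hc : c < 3) => r2_gent_zero hr hc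
  apply ext3
  · simp only [act, PiLp.toLp_apply, Matrix.cons_val_zero]
    rw [g 0 0 (by norm_num) (by norm_num), g 0 1 (by norm_num) (by norm_num),
      g 0 2 (by norm_num) (by norm_num)]
    norm_num
  · simp only [act, PiLp.toLp_apply, Matrix.cons_val_one, Matrix.cons_val_zero]
    rw [g 1 0 (by norm_num) (by norm_num), g 1 1 (by norm_num) (by norm_num),
      g 1 2 (by norm_num) (by norm_num)]
    norm_num
  · simp only [act, PiLp.toLp_apply, Matrix.cons_val]
    rw [g 2 0 (by norm_num) (by norm_num), g 2 1 (by norm_num) (by norm_num),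
      g 2 2 (by norm_num) (by norm_num)]
    norm_num

end Pool.Agent.H304

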