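import Pool.Agent.helper304_full.KDefs
import Pool.Agent.helper304_full.A1
import Pool.Agent.helper304_full.A3
import Pool.Agent.helper304_full.B1
import Pool.Agent.helper304_full.B3
import Pool.Agent.helper304_full.B4
import Pool.Agent.helper304_full.B7
import Pool.Agent.helper304_full.B8
import Pool.Agent.helper304_full.K1
import Pool.Agent.helper304_full.K2
import Pool.Agent.helper304_full.K4
import Pool.Agent.helper304_full.R2

set_option autoImplicit false

set_option maxRecDepth 100000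
set_option exponentiation.threshold 100000

namespace Pool.Agent.H304

end Pool.Agent.H304

namespace Pool.Agent.H304.K

lemma b9_pcs {c s : ℝ} (h : c ^ 2 + s ^ 2 = 1) (j : ℕ) : (pc c s j) ^ 2 + (ps c s j) ^ 2 = 1 := by
  have hsg : ((if j % 2 = 0 then 1 else -1 : ℝ)) ^ 2 = 1 := by
    split_ifs <;> norm_num
  unfold pc ps
  rw [mul_pow, hsg, one_mul]
  split_ifs
  · exact h
  · linear_combination ((c ^ 2 + s ^ 2) + 1) * h
  · linear_combination ((c ^ 2 + s ^ 2) ^ 2 + (c ^ 2 + s ^ 2) + 1) * h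

lemma b9_act_smul (i : ℕ) (a : ℝ) (v : E) : act i (a • v) = a • act i v := by
  apply ext3 <;> simp [act] <;> ring

lemma b9_onStar_smul {y : E} (h : OnStar y) (a : ℝ) : OnStar (a • y) := by
  obtain ⟨v, hv, hc⟩ := h
  exact ⟨v, hv, by rw [cr_smul_right, hc, smul_zero]⟩

theorem zleaf_sound {ε : Fin 6 → ℝ} (hε : ∀ i, |ε i| ≤ 1) {e : Env} {InX : E → Prop} {z u : E} {c s lam S tt : ℝ} (he : EnvRep ε e z u c s)
    (G : Geo InX z u c s lam S tt) {κ Sb : ℕ} (hV : Val lam S κ Sb) {i j f σ mt : ℕ} (hσ : σ < 2 ^ 13)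
    (h : zleaf e κ Sb i j f σ mt = true) : False := by
  unfold zleaf zl1 zl2 zl3 zl4 at h
  simp only [Bool.and_eq_true] at h
  obtain ⟨⟨hi, hj⟩, h1, ⟨⟨hf, hE⟩, hvt, hst⟩⟩ := h
  have hi' : i < 60 := Nat.blt_eq.mp hi
  have hj' : j < e.jm := Nat.blt_eq.mp hj
  have hf' : f < 20 := Nat.blt_eq.mp hf
  -- the orbit point
  have rg : RepV ε (3 * 2 ^ 35) (gz e i) ((2 : ℝ) ^ 35 • act i z) := by
    have h0 := gz_rep hε he.rz hi'
    rw [b9_act_smul, smul_smul, ← pow_add] at h0
    refine h0.mono ?_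
    norm_num
  -- the difference
  have rw0 : RepV ε (2 ^ 37) ((gz e i).sub (V.smul 2097152 e.z)) ((2 : ℝ) ^ 35 • (act i z - z)) := by
    have h0 := rg.sub (he.rz.smul 2097152)
    have e1 : (2 : ℝ) ^ 35 • act i z - ((2097152 : ℕ) : ℝ) • ((2 : ℝ) ^ 14 • z) =
        (2 : ℝ) ^ 35 • (act i z - z) := by
      rw [smul_smul, smul_sub]
      norm_num
    rw [e1] at h0
    refine h0.mono ?_
    norm_num
  -- first test
  have hr : lam ^ 2 * dt (act i z - z) (act i z - z) ≤ 4 := by
    have h0 := (Rep.nat ε (Nat.mul 288230376151711744 κ)).sub (rw0.dot hε rw0)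
    have hk : (κ : ℝ) ≤ 2 ^ 20 := by exact_mod_cast hV.kb.le
    have h2 := h0.pos hε (by
      have : ((Nat.mul 288230376151711744 κ : ℕ) : ℝ) = 288230376151711744 * (κ : ℝ) := by
        rw [Nat.mul_eq]; push_cast; ring
      rw [this]
      have h3 : 288230376151711744 * (κ : ℝ) ≤ 288230376151711744 * 2 ^ 20 :=
        mul_le_mul_of_nonneg_left hk (by norm_num)
      refine (add_le_add_left h3 _).trans ?_
      norm_num) h1
    have e2 : ((Nat.mul 288230376151711744 κ : ℕ) : ℝ) = 288230376151711744 * (κ : ℝ) := by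
      rw [Nat.mul_eq]; push_cast; ring
    rw [e2, dt_smul_left, dt_smul_right] at h2
    have h3 : dt (act i z - z) (act i z - z) ≤ 4 * ((κ : ℝ) / 2 ^ 14) := by
      norm_num at h2 ⊢
      linarith
    have h4 := mul_le_mul_of_nonneg_left h3 (sq_nonneg lam)
    have h5 := hV.k
    linarith
  -- the image
  obtain ⟨D, hD, rD, rR⟩ := Rv_rep hε he hj' rw0
  set p := pc c s j with hp
  set q := ps c s j with hq
  have hpq : p ^ 2 + q ^ 2 = 1 := b9_pcs G.cs j
  set w0 : E := act i z - z with hw0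
  set ρ : E := H304.rot u p q w0 - w0 with hρ
  set y : E := z + H304.rot u p q w0 with hy
  have e3 : D • (H304.rot u p q ((2 : ℝ) ^ 35 • w0) - (2 : ℝ) ^ 35 • w0) = (D * 2 ^ 35) • ρ := by
    rw [rot_smul, ← smul_sub, smul_smul]
  rw [e3] at rR
  have hyρ : y = act i z + ρ := by
    rw [hy, hρ, hw0]
    abel
  have hdty : dt y y = dt z z + 2 * dt z ρ := by
    have a1 : dt (H304.rot u p q w0) (H304.rot u p q w0) = dt w0 w0 := dt_rot_rot G.unit hpq _ _
    have a2 : dt (act i z) (act i z) = dt z z := act_dt hi' z z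
    have a3 : dt w0 w0 = dt (act i z) (act i z) - 2 * dt z (act i z) + dt z z := by
      rw [hw0, dt_sub_left, dt_sub_right, dt_sub_right, dt_comm (act i z) z]; ring
    have a4 : dt z w0 = dt z (act i z) - dt z z := by rw [hw0, dt_sub_right]
    have a5 : dt z ρ = dt z (H304.rot u p q w0) - dt z w0 := by rw [hρ, dt_sub_right]
    have a6 : dt y y = dt z z + 2 * dt z (H304.rot u p q w0) + dt (H304.rot u p q w0) (H304.rot u p q w0) := by
      rw [hy, dt_add_left, dt_add_right, dt_add_right, dt_comm (H304.rot u p q w0) z]; ring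
    rw [a6, a1, a3, a2, a5, a4]; ring
  -- the test of the length
  have rE : Rep ε (2 ^ 148) (EZ e (Rv j (e.ax j) e.m (e.m.cross ((gz e i).sub (V.smul 2097152 e.z)))))
      (2 ^ 49 * D * (dt z z - dt y y)) := by
    have h0 := (Rep.nat ε 0).sub ((he.rz.dot hε rR).smul 2)
    have e4 : ((0 : ℕ) : ℝ) - ((2 : ℕ) : ℝ) * dt ((2 : ℝ) ^ 14 • z) ((D * 2 ^ 35) • ρ) =
        2 ^ 49 * D * (dt z z - dt y y) := by
      rw [dt_smul_left, dt_smul_right, hdty]
      push_cast
      ring
    rw [e4] at h0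
    refine Rep.mono h0 ?_
    norm_num
  have hlt : dt y y < dt z z := by
    have h0 := rE.pos hε (by norm_num) hE
    have h2 : (0 : ℝ) < 2 ^ 49 * D := by positivity
    have h3 := (mul_pos_iff_of_pos_left h2).1 h0
    linarith
  -- the image point
  have rY : RepV ε (2 ^ 131) ((V.scale (e.ax j).D (gz e i)).add
      (Rv j (e.ax j) e.m (e.m.cross ((gz e i).sub (V.smul 2097152 e.z))))) ((2 ^ 35 * D) • y) := by
    have h0 := (RepV.scale hε rD rg).add rR
    have e5 : D • ((2 : ℝ) ^ 35 • act i z) + (D * 2 ^ 35) • ρ = (2 ^ 35 * D) • y := by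
      rw [hyρ, smul_smul, ← smul_add, mul_comm D]
    rw [e5] at h0
    refine h0.mono ?_
    norm_num
  have hLev := vt_sound hε he G hV hD rD rE hlt rY hf' hσ hvt
  have hIn : InX y := Geo.img G (G.orb i hi') hr j
  have hOn := Geo.onStar G hIn hlt hLev
  exact star_sound hε rY (by norm_num) hst (b9_onStar_smul hOn _)

end Pool.Agent.H304.K

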