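import Pool.Agent.helper304_full.GeoDefs
import Pool.Agent.helper304_full.A1
import Pool.Agent.helper304_full.A4

set_option autoImplicit false

set_option maxRecDepth 100000
set_option exponentiation.threshold 100000

namespace Pool.Agent.H304

end Pool.Agent.H304

namespace Pool.Agent.H304.K

lemma c0_vtx {v : E} (hv : IsVtx v) : dt v v = ph + 2 := by
  obtain ⟨σ, τ, hσ, hτ, h⟩ := hv
  have h1 : σ ^ 2 = 1 := by rcases hσ with rfl | rfl <;> norm_num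
  have h2 : τ ^ 2 = 1 := by rcases hτ with rfl | rfl <;> norm_num
  have h3 := ph_sq
  rcases h with rfl | rfl | rfl
  · simp [dt]; linear_combination h1 + ph ^ 2 * h2 + h3
  · simp [dt]; linear_combination h1 + ph ^ 2 * h2 + h3
  · simp [dt]; linear_combination h1 + ph ^ 2 * h2 + h3

lemma c0_dt_abs (a b : E) : |dt a b| ≤ ‖a‖ * ‖b‖ := by
  rw [← inner_eq_dt]
  exact abs_real_inner_le_norm a b

lemma c0_cr_norm (a b : E) : ‖cr a b‖ ≤ ‖a‖ * ‖b‖ := by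
  have h1 : ‖cr a b‖ ^ 2 ≤ (‖a‖ * ‖b‖) ^ 2 := by
    rw [norm_sq_eq_dt, dt_cr_cr, mul_pow, norm_sq_eq_dt, norm_sq_eq_dt, dt_comm b a]
    nlinarith [sq_nonneg (dt a b)]
  exact abs_le_of_sq_le_sq' h1 (by positivity) |>.2

lemma c0_ph2 : 0 < ph + 2 := by linarith [ph_gt]

lemma c0_r_sq : ((Real.sqrt (ph + 2))⁻¹) ^ 2 * (ph + 2) = 1 := by
  rw [inv_pow, Real.sq_sqrt c0_ph2.le]
  exact inv_mul_cancel₀ c0_ph2.ne'

lemma c0_S5 : S5 = Real.sqrt (ph + 2) / 2 := by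
  have h1 : S5 ^ 2 = (Real.sqrt (ph + 2) / 2) ^ 2 := by
    rw [S5_sq, div_pow, Real.sq_sqrt c0_ph2.le, C5_ph]
    linear_combination (-1 / 4) * ph_sq
  have h2 : 0 ≤ Real.sqrt (ph + 2) / 2 := by positivity
  exact (sq_eq_sq₀ S5_pos.le h2).1 h1

lemma c0_S5_r : S5 * (Real.sqrt (ph + 2))⁻¹ = 1 / 2 := by
  have h : 0 < Real.sqrt (ph + 2) := Real.sqrt_pos.2 c0_ph2
  rw [c0_S5]
  field_simp

lemma c0_u1 {v : E} (hv : IsVtx v) :
    dt ((Real.sqrt (ph + 2))⁻¹ • v) ((Real.sqrt (ph + 2))⁻¹ • v) = 1 := by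
  rw [dt_smul_left, dt_smul_right, c0_vtx hv]
  have := c0_r_sq
  linear_combination this

lemma c0_C5_r : (1 - C5) * ((Real.sqrt (ph + 2))⁻¹) ^ 2 = (2 - ph) / 2 := by
  have h1 := c0_r_sq
  have h2 := c0_ph2
  have h3 : (1 - C5) = (2 - ph) / 2 * (ph + 2) := by
    rw [C5_ph]
    linear_combination (1 / 2) * ph_sq
  rw [h3]
  linear_combination ((2 - ph) / 2) * h1

lemma c0_rv (v : E) (σ : ℝ) (w : E) :
    rv v σ w = H304.rot ((Real.sqrt (ph + 2))⁻¹ • v) C5 (σ * S5) w := by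
  unfold rv H304.rot
  rw [cr_smul_left, dt_smul_left]
  have h1 := c0_S5_r
  have h2 := c0_C5_r
  have e1 : (σ * S5) • (Real.sqrt (ph + 2))⁻¹ • cr v w = (σ / 2) • cr v w := by
    rw [smul_smul]
    congr 1
    linear_combination σ * h1
  have e2 : ((1 - C5) * ((Real.sqrt (ph + 2))⁻¹ * dt v w)) • (Real.sqrt (ph + 2))⁻¹ • v
      = ((2 - ph) / 2 * dt v w) • v := by
    rw [smul_smul]
    congr 1
    linear_combination dt v w * h2
  rw [e1, e2]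

lemma c0_rvp {v : E} (hv : IsVtx v) {j : ℕ} (hj : j < 4) (w : E) :
    rvp v j w = H304.rot ((Real.sqrt (ph + 2))⁻¹ • v) (pc C5 S5 j) (ps C5 S5 j) w := by
  have hu := c0_u1 hv
  interval_cases j
  · simp [rvp, pc, ps, c0_rv]
  · simp [rvp, pc, ps, c0_rv]
  · simp only [rvp, pc, ps, c0_rv]
    norm_num
    rw [rot_rot hu]
    congr 1 <;> ring
  · simp only [rvp, pc, ps, c0_rv]
    norm_num
    rw [rot_rot hu]
    congr 1 <;> ring

lemma c0_diff (u u' : E) (c s : ℝ) (w : E) :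
    H304.rot u c s w - H304.rot u' c s w = s • cr (u - u') w
      + (1 - c) • ((dt (u - u') w) • u + (dt u' w) • (u - u')) := by
  apply ext3 <;> simp [H304.rot, dt] <;> ring

lemma c0_bound {u u' : E} (hu : dt u u = 1) (hu' : dt u' u' = 1) (c s : ℝ) (w : E) :
    ‖H304.rot u c s w - H304.rot u' c s w‖ ≤ (|s| + 2 * |1 - c|) * ‖u - u'‖ * ‖w‖ := by
  have n1 : ‖u‖ = 1 := (norm_eq_one_iff_dt u).2 hu
  have n2 : ‖u'‖ = 1 := (norm_eq_one_iff_dt u').2 hu'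
  rw [c0_diff]
  have b1 : ‖s • cr (u - u') w‖ ≤ |s| * (‖u - u'‖ * ‖w‖) := by
    rw [norm_smul, Real.norm_eq_abs]
    exact mul_le_mul_of_nonneg_left (c0_cr_norm _ _) (abs_nonneg _)
  have b2 : ‖(dt (u - u') w) • u‖ ≤ ‖u - u'‖ * ‖w‖ := by
    rw [norm_smul, Real.norm_eq_abs, n1, mul_one]
    exact c0_dt_abs _ _
  have b3 : ‖(dt u' w) • (u - u')‖ ≤ ‖w‖ * ‖u - u'‖ := by
    rw [norm_smul, Real.norm_eq_abs]
    refine mul_le_mul_of_nonneg_right ?_ (norm_nonneg _)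
    have := c0_dt_abs u' w
    rwa [n2, one_mul] at this
  have b4 : ‖(1 - c) • ((dt (u - u') w) • u + (dt u' w) • (u - u'))‖
      ≤ |1 - c| * (‖u - u'‖ * ‖w‖ + ‖w‖ * ‖u - u'‖) := by
    rw [norm_smul, Real.norm_eq_abs]
    refine mul_le_mul_of_nonneg_left ?_ (abs_nonneg _)
    exact (norm_add_le _ _).trans (add_le_add b2 b3)
  calc _ ≤ ‖s • cr (u - u') w‖ + ‖(1 - c) • ((dt (u - u') w) • u + (dt u' w) • (u - u'))‖ :=
        norm_add_le _ _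
    _ ≤ |s| * (‖u - u'‖ * ‖w‖) + |1 - c| * (‖u - u'‖ * ‖w‖ + ‖w‖ * ‖u - u'‖) := add_le_add b1 b4
    _ = _ := by ring

lemma c0_S5_lt : S5 < 0.951057 := by
  have h1 := S5_sq
  have h2 := S5_pos
  have h3 := C5_gt
  nlinarith

lemma c0_num {j : ℕ} (hj : j < 4) : |ps C5 S5 j| + 2 * |1 - pc C5 S5 j| ≤ 4.2066 := by
  have h1 := c0_S5_lt
  have h2 := S5_pos
  have h3 := C5_gt
  have h4 := C5_lt
  have h5 := S5_sq
  have h6 : |S5| = S5 := abs_of_pos h2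
  have h7 : |1 - C5| = 1 - C5 := abs_of_pos (by linarith)
  have h8 : |2 * C5 * S5| = 2 * C5 * S5 := abs_of_nonneg (by positivity)
  have h9 : |1 - (C5 ^ 2 - S5 ^ 2)| = 1 - (C5 ^ 2 - S5 ^ 2) := abs_of_nonneg (by nlinarith)
  have h10 : 2 * C5 * S5 ≤ 2 * 0.30901700 * 0.951057 := by nlinarith
  interval_cases j
  · simp only [ps, pc]
    norm_num
    rw [h6, h7]; linarith
  · simp only [ps, pc]
    norm_num
    rw [h6, h7]; linarith
  · simp only [ps, pc]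
    norm_num
    rw [h6, abs_of_pos (show 0 < C5 by linarith), h9]; nlinarith
  · simp only [ps, pc]
    norm_num
    rw [h6, abs_of_pos (show 0 < C5 by linarith), h9]; nlinarith

theorem rot_close {v u : E} (hv : IsVtx v) (hu1 : dt u u = 1) (hu : ‖u - (Real.sqrt (ph + 2))⁻¹ • v‖ ≤ 0.0045) {j : ℕ} (hj : j < 4)
    (w : E) : ‖H304.rot u (pc C5 S5 j) (ps C5 S5 j) w - rvp v j w‖ ≤ 0.01893 * ‖w‖ := by
  have h1 := c0_bound hu1 (c0_u1 hv) (pc C5 S5 j) (ps C5 S5 j) w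
  rw [c0_rvp hv hj w]
  refine h1.trans (mul_le_mul_of_nonneg_right ?_ (norm_nonneg _))
  have h2 := c0_num hj
  calc (|ps C5 S5 j| + 2 * |1 - pc C5 S5 j|) * ‖u - (Real.sqrt (ph + 2))⁻¹ • v‖
      ≤ 4.2066 * 0.0045 := mul_le_mul h2 hu (norm_nonneg _) (by norm_num)
    _ ≤ 0.01893 := by norm_num

theorem chain_lam {InX : E → Prop} {z u : E} {c s lam S tt : ℝ} (G : Geo InX z u c s lam S tt)
    (hx : |z 0 - 0.381966| ≤ 0.0038) (hy : z 1 ≤ 0.0025) :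
    lam ^ 2 * 0.162 ≤ 1 ∧ ‖z - zc‖ ≤ 0.00455 ∧ 1.143 ≤ dt z z ∧ dt z f0 ≤ 1.8565 := by
  obtain ⟨c0, c1, c2⟩ := G.cone
  rw [G.z2] at c2
  have hp1 := ph_gt
  have hp2 := ph_lt
  have hp3 := ph_sq
  obtain ⟨hx1, hx2⟩ := abs_le.1 hx
  have hz0 : z 0 ≤ 2 - ph := by
    have h1 : (ph + 1) * (2 - ph) = 1 := by linear_combination -hp3
    have h2 : (ph + 1) * z 0 ≤ (ph + 1) * (2 - ph) := by
      rw [h1]
      nlinarith
    exact le_of_mul_le_mul_left h2 (by linarith)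
  have hz0' : 0.378166 ≤ z 0 := by norm_num at hx1 ⊢; linarith
  have ezz : dt z z = z 0 * z 0 + z 1 * z 1 + 1 := by simp [dt, G.z2]
  have ezf : dt z f0 = z 0 * (ph - 1) + ph := by simp [dt, f0, G.z2]
  have hf : dt z f0 ≤ 1.8565 := by
    rw [ezf]
    nlinarith
  have hf2 : 1.8517 ≤ dt z f0 := by
    rw [ezf]
    nlinarith
  have hzz : 1.143 ≤ dt z z := by
    rw [ezz]
    nlinarith
  have hlam : lam ≤ 2.4843 := by
    refine Geo.lamA G (by norm_num) ?_ ?_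
    · norm_num at hf2 ⊢; linarith
    · rw [ezz, ezf]
      have e1 : z 0 * (ph - 1) + ph ≤ z 0 * 0.618034 + 1.618034 := by nlinarith
      have e2 : 0 ≤ z 1 * z 1 := mul_self_nonneg _
      have e3 : 0 ≤ (2.4843 : ℝ) ^ 2 * (z 0 * z 0 + 1) - 2 * 2.4843 * 0.9515 *
          (z 0 * 0.618034 + 1.618034) + 3 * 0.9515 ^ 2 - 1 := by
        nlinarith [mul_self_nonneg (z 0 - 0.378166)]
      nlinarith
  have hl0 := G.lampos
  refine ⟨?_, ?_, hzz, hf⟩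
  · have : lam ^ 2 ≤ 2.4843 ^ 2 := pow_le_pow_left₀ hl0.le hlam 2
    norm_num at this ⊢
    linarith
  · have h1 : ‖z - zc‖ ^ 2 ≤ 0.00455 ^ 2 := by
      rw [norm_sq_eq_dt]
      have e : dt (z - zc) (z - zc) = (z 0 - (2 - ph)) ^ 2 + z 1 ^ 2 := by
        simp [dt, zc, G.z2]; ring
      rw [e]
      have e1 : (z 0 - (2 - ph)) ^ 2 ≤ 0.0038001 ^ 2 := by
        apply sq_le_sq'
        · norm_num at hz0' hp1 ⊢; linarith
        · norm_num; linarith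
      have e2 : z 1 ^ 2 ≤ 0.0025 ^ 2 := pow_le_pow_left₀ c1 hy 2
      norm_num at e1 e2 ⊢
      linarith
    exact (abs_le_of_sq_le_sq' h1 (by norm_num)).2

end Pool.Agent.H304.K

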