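import Pool.Agent.helper304_full.Base

set_option autoImplicit false

namespace Pool.Agent.H304

/-- an integer pair `(a, b)` stands for `a + b ph` -/
noncomputable def r3_ev (p : ℤ × ℤ) : ℝ := (p.1 : ℝ) + (p.2 : ℝ) * ph

def r3_mul (p q : ℤ × ℤ) : ℤ × ℤ := (p.1 * q.1 + p.2 * q.2, p.1 * q.2 + p.2 * q.1 + p.2 * q.2)

def r3_add (p q : ℤ × ℤ) : ℤ × ℤ := (p.1 + q.1, p.2 + q.2)

def r3_dbl (p : ℤ × ℤ) : ℤ × ℤ := (2 * p.1, 2 * p.2)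

lemma r3_ev_mul (p q : ℤ × ℤ) : r3_ev (r3_mul p q) = r3_ev p * r3_ev q := by
  have h := ph_sq
  simp only [r3_ev, r3_mul]
  push_cast
  linear_combination (-(p.2 : ℝ) * q.2) * h

lemma r3_ev_add (p q : ℤ × ℤ) : r3_ev (r3_add p q) = r3_ev p + r3_ev q := by
  simp only [r3_ev, r3_add]; push_cast; ring

lemma r3_ev_dbl (p : ℤ × ℤ) : r3_ev (r3_dbl p) = 2 * r3_ev p := by
  simp only [r3_ev, r3_dbl]; push_cast; ring

abbrev R3V := (ℤ × ℤ) × (ℤ × ℤ) × (ℤ × ℤ)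

noncomputable def r3_vec (p : R3V) : E := !₂[r3_ev p.1, r3_ev p.2.1, r3_ev p.2.2]

def r3_dbv (p : R3V) : R3V := (r3_dbl p.1, r3_dbl p.2.1, r3_dbl p.2.2)

def r3_m (i r c : ℕ) : ℤ × ℤ := (cvA (gcode i r c), cvB (gcode i r c))

def r3_row (i r : ℕ) (p : R3V) : ℤ × ℤ :=
  r3_add (r3_add (r3_mul (r3_m i r 0) p.1) (r3_mul (r3_m i r 1) p.2.1)) (r3_mul (r3_m i r 2) p.2.2)

def r3_app (i : ℕ) (p : R3V) : R3V := (r3_row i 0 p, r3_row i 1 p, r3_row i 2 p)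

def r3_dot (p q : R3V) : ℤ × ℤ :=
  r3_add (r3_add (r3_mul p.1 q.1) (r3_mul p.2.1 q.2.1)) (r3_mul p.2.2 q.2.2)

lemma r3_gent (i r c : ℕ) : gent i r c = r3_ev (r3_m i r c) / 2 := by
  simp only [gent, r3_ev, r3_m]

lemma r3_dt (p q : R3V) : dt (r3_vec p) (r3_vec q) = r3_ev (r3_dot p q) := by
  simp only [dt, r3_vec, r3_dot, r3_ev_add, r3_ev_mul]
  simp

lemma r3_act {i : ℕ} {p q : R3V} (h : r3_app i p = r3_dbv q) : act i (r3_vec p) = r3_vec q := by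
  have h0 : r3_row i 0 p = r3_dbl q.1 := congrArg Prod.fst h
  have h1 : r3_row i 1 p = r3_dbl q.2.1 := congrArg (fun z => z.2.1) h
  have h2 : r3_row i 2 p = r3_dbl q.2.2 := congrArg (fun z => z.2.2) h
  have e0 := congrArg r3_ev h0
  have e1 := congrArg r3_ev h1
  have e2 := congrArg r3_ev h2
  simp only [r3_row, r3_ev_add, r3_ev_mul, r3_ev_dbl] at e0 e1 e2
  apply ext3
  · simp only [act, r3_vec, r3_gent]
    simp
    linear_combination (1 / 2) * e0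
  · simp only [act, r3_vec, r3_gent]
    simp
    linear_combination (1 / 2) * e1
  · simp only [act, r3_vec, r3_gent]
    simp
    linear_combination (1 / 2) * e2

def r3_VL : List R3V :=
  [((0,0),(1,0),(0,1)), ((0,0),(1,0),(0,-1)), ((0,0),(-1,0),(0,1)), ((0,0),(-1,0),(0,-1)),
   ((1,0),(0,1),(0,0)), ((1,0),(0,-1),(0,0)), ((-1,0),(0,1),(0,0)), ((-1,0),(0,-1),(0,0)),
   ((0,1),(0,0),(1,0)), ((0,-1),(0,0),(1,0)), ((0,1),(0,0),(-1,0)), ((0,-1),(0,0),(-1,0))]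

def r3_FL : List R3V :=
  [((1,0),(1,0),(1,0)), ((1,0),(1,0),(-1,0)), ((1,0),(-1,0),(1,0)), ((1,0),(-1,0),(-1,0)),
   ((-1,0),(1,0),(1,0)), ((-1,0),(1,0),(-1,0)), ((-1,0),(-1,0),(1,0)), ((-1,0),(-1,0),(-1,0)),
   ((-1,1),(0,0),(0,1)), ((-1,1),(0,0),(0,-1)), ((1,-1),(0,0),(0,1)), ((1,-1),(0,0),(0,-1)),
   ((0,1),(-1,1),(0,0)), ((0,-1),(-1,1),(0,0)), ((0,1),(1,-1),(0,0)), ((0,-1),(1,-1),(0,0)),
   ((0,0),(0,1),(-1,1)), ((0,0),(0,-1),(-1,1)), ((0,0),(0,1),(1,-1)), ((0,0),(0,-1),(1,-1))]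

lemma r3_vtx_of {p : R3V} (hp : p ∈ r3_VL) : IsVtx (r3_vec p) := by
  simp only [r3_VL, List.mem_cons, List.not_mem_nil, or_false] at hp
  rcases hp with h|h|h|h|h|h|h|h|h|h|h|h <;> subst h
  · exact ⟨1, 1, Or.inl rfl, Or.inl rfl, Or.inl (by apply ext3 <;> simp [r3_vec, r3_ev])⟩
  · exact ⟨1, -1, Or.inl rfl, Or.inr rfl, Or.inl (by apply ext3 <;> simp [r3_vec, r3_ev])⟩
  · exact ⟨-1, 1, Or.inr rfl, Or.inl rfl, Or.inl (by apply ext3 <;> simp [r3_vec, r3_ev])⟩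
  · exact ⟨-1, -1, Or.inr rfl, Or.inr rfl, Or.inl (by apply ext3 <;> simp [r3_vec, r3_ev])⟩
  · exact ⟨1, 1, Or.inl rfl, Or.inl rfl, Or.inr (Or.inl (by apply ext3 <;> simp [r3_vec, r3_ev]))⟩
  · exact ⟨1, -1, Or.inl rfl, Or.inr rfl, Or.inr (Or.inl (by apply ext3 <;> simp [r3_vec, r3_ev]))⟩
  · exact ⟨-1, 1, Or.inr rfl, Or.inl rfl, Or.inr (Or.inl (by apply ext3 <;> simp [r3_vec, r3_ev]))⟩
  · exact ⟨-1, -1, Or.inr rfl, Or.inr rfl, Or.inr (Or.inl (by apply ext3 <;> simp [r3_vec, r3_ev]))⟩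
  · exact ⟨1, 1, Or.inl rfl, Or.inl rfl, Or.inr (Or.inr (by apply ext3 <;> simp [r3_vec, r3_ev]))⟩
  · exact ⟨1, -1, Or.inl rfl, Or.inr rfl, Or.inr (Or.inr (by apply ext3 <;> simp [r3_vec, r3_ev]))⟩
  · exact ⟨-1, 1, Or.inr rfl, Or.inl rfl, Or.inr (Or.inr (by apply ext3 <;> simp [r3_vec, r3_ev]))⟩
  · exact ⟨-1, -1, Or.inr rfl, Or.inr rfl, Or.inr (Or.inr (by apply ext3 <;> simp [r3_vec, r3_ev]))⟩

lemma r3_of_vtx {v : E} (hv : IsVtx v) : ∃ p ∈ r3_VL, v = r3_vec p := by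
  obtain ⟨σ, τ, hσ, hτ, h⟩ := hv
  rcases hσ with rfl|rfl <;> rcases hτ with rfl|rfl <;> rcases h with rfl|rfl|rfl
  · exact ⟨((0,0),(1,0),(0,1)), by decide, by apply ext3 <;> simp [r3_vec, r3_ev]⟩
  · exact ⟨((1,0),(0,1),(0,0)), by decide, by apply ext3 <;> simp [r3_vec, r3_ev]⟩
  · exact ⟨((0,1),(0,0),(1,0)), by decide, by apply ext3 <;> simp [r3_vec, r3_ev]⟩
  · exact ⟨((0,0),(1,0),(0,-1)), by decide, by apply ext3 <;> simp [r3_vec, r3_ev]⟩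
  · exact ⟨((1,0),(0,-1),(0,0)), by decide, by apply ext3 <;> simp [r3_vec, r3_ev]⟩
  · exact ⟨((0,-1),(0,0),(1,0)), by decide, by apply ext3 <;> simp [r3_vec, r3_ev]⟩
  · exact ⟨((0,0),(-1,0),(0,1)), by decide, by apply ext3 <;> simp [r3_vec, r3_ev]⟩
  · exact ⟨((-1,0),(0,1),(0,0)), by decide, by apply ext3 <;> simp [r3_vec, r3_ev]⟩
  · exact ⟨((0,1),(0,0),(-1,0)), by decide, by apply ext3 <;> simp [r3_vec, r3_ev]⟩
  · exact ⟨((0,0),(-1,0),(0,-1)), by decide, by apply ext3 <;> simp [r3_vec, r3_ev]⟩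
  · exact ⟨((-1,0),(0,-1),(0,0)), by decide, by apply ext3 <;> simp [r3_vec, r3_ev]⟩
  · exact ⟨((0,-1),(0,0),(-1,0)), by decide, by apply ext3 <;> simp [r3_vec, r3_ev]⟩

lemma r3_face_of {p : R3V} (hp : p ∈ r3_FL) : IsFace (r3_vec p) := by
  simp only [r3_FL, List.mem_cons, List.not_mem_nil, or_false] at hp
  rcases hp with h|h|h|h|h|h|h|h|h|h|h|h|h|h|h|h|h|h|h|h <;> subst h
  · exact Or.inl ⟨1, 1, 1, Or.inl rfl, Or.inl rfl, Or.inl rfl, by apply ext3 <;> simp [r3_vec, r3_ev]⟩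
  · exact Or.inl ⟨1, 1, -1, Or.inl rfl, Or.inl rfl, Or.inr rfl, by apply ext3 <;> simp [r3_vec, r3_ev]⟩
  · exact Or.inl ⟨1, -1, 1, Or.inl rfl, Or.inr rfl, Or.inl rfl, by apply ext3 <;> simp [r3_vec, r3_ev]⟩
  · exact Or.inl ⟨1, -1, -1, Or.inl rfl, Or.inr rfl, Or.inr rfl, by apply ext3 <;> simp [r3_vec, r3_ev]⟩
  · exact Or.inl ⟨-1, 1, 1, Or.inr rfl, Or.inl rfl, Or.inl rfl, by apply ext3 <;> simp [r3_vec, r3_ev]⟩
  · exact Or.inl ⟨-1, 1, -1, Or.inr rfl, Or.inl rfl, Or.inr rfl, by apply ext3 <;> simp [r3_vec, r3_ev]⟩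
  · exact Or.inl ⟨-1, -1, 1, Or.inr rfl, Or.inr rfl, Or.inl rfl, by apply ext3 <;> simp [r3_vec, r3_ev]⟩
  · exact Or.inl ⟨-1, -1, -1, Or.inr rfl, Or.inr rfl, Or.inr rfl, by apply ext3 <;> simp [r3_vec, r3_ev]⟩
  · exact Or.inr ⟨1, 1, Or.inl rfl, Or.inl rfl, Or.inl (by apply ext3 <;> simp [r3_vec, r3_ev] <;> ring)⟩
  · exact Or.inr ⟨1, -1, Or.inl rfl, Or.inr rfl, Or.inl (by apply ext3 <;> simp [r3_vec, r3_ev] <;> ring)⟩
  · exact Or.inr ⟨-1, 1, Or.inr rfl, Or.inl rfl, Or.inl (by apply ext3 <;> simp [r3_vec, r3_ev] <;> ring)⟩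
  · exact Or.inr ⟨-1, -1, Or.inr rfl, Or.inr rfl, Or.inl (by apply ext3 <;> simp [r3_vec, r3_ev] <;> ring)⟩
  · exact Or.inr ⟨1, 1, Or.inl rfl, Or.inl rfl, Or.inr (Or.inl (by apply ext3 <;> simp [r3_vec, r3_ev] <;> ring))⟩
  · exact Or.inr ⟨1, -1, Or.inl rfl, Or.inr rfl, Or.inr (Or.inl (by apply ext3 <;> simp [r3_vec, r3_ev] <;> ring))⟩
  · exact Or.inr ⟨-1, 1, Or.inr rfl, Or.inl rfl, Or.inr (Or.inl (by apply ext3 <;> simp [r3_vec, r3_ev] <;> ring))⟩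
  · exact Or.inr ⟨-1, -1, Or.inr rfl, Or.inr rfl, Or.inr (Or.inl (by apply ext3 <;> simp [r3_vec, r3_ev] <;> ring))⟩
  · exact Or.inr ⟨1, 1, Or.inl rfl, Or.inl rfl, Or.inr (Or.inr (by apply ext3 <;> simp [r3_vec, r3_ev] <;> ring))⟩
  · exact Or.inr ⟨1, -1, Or.inl rfl, Or.inr rfl, Or.inr (Or.inr (by apply ext3 <;> simp [r3_vec, r3_ev] <;> ring))⟩
  · exact Or.inr ⟨-1, 1, Or.inr rfl, Or.inl rfl, Or.inr (Or.inr (by apply ext3 <;> simp [r3_vec, r3_ev] <;> ring))⟩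
  · exact Or.inr ⟨-1, -1, Or.inr rfl, Or.inr rfl, Or.inr (Or.inr (by apply ext3 <;> simp [r3_vec, r3_ev] <;> ring))⟩

lemma r3_of_face {v : E} (hv : IsFace v) : ∃ p ∈ r3_FL, v = r3_vec p := by
  rcases hv with ⟨σ, τ, ρ, hσ, hτ, hρ, rfl⟩ | ⟨σ, τ, hσ, hτ, h⟩
  · rcases hσ with rfl|rfl <;> rcases hτ with rfl|rfl <;> rcases hρ with rfl|rfl
    · exact ⟨((1,0),(1,0),(1,0)), by decide, by apply ext3 <;> simp [r3_vec, r3_ev]⟩
    · exact ⟨((1,0),(1,0),(-1,0)), by decide, by apply ext3 <;> simp [r3_vec, r3_ev]⟩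
    · exact ⟨((1,0),(-1,0),(1,0)), by decide, by apply ext3 <;> simp [r3_vec, r3_ev]⟩
    · exact ⟨((1,0),(-1,0),(-1,0)), by decide, by apply ext3 <;> simp [r3_vec, r3_ev]⟩
    · exact ⟨((-1,0),(1,0),(1,0)), by decide, by apply ext3 <;> simp [r3_vec, r3_ev]⟩
    · exact ⟨((-1,0),(1,0),(-1,0)), by decide, by apply ext3 <;> simp [r3_vec, r3_ev]⟩
    · exact ⟨((-1,0),(-1,0),(1,0)), by decide, by apply ext3 <;> simp [r3_vec, r3_ev]⟩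
    · exact ⟨((-1,0),(-1,0),(-1,0)), by decide, by apply ext3 <;> simp [r3_vec, r3_ev]⟩
  · rcases hσ with rfl|rfl <;> rcases hτ with rfl|rfl <;> rcases h with rfl|rfl|rfl
    · exact ⟨((-1,1),(0,0),(0,1)), by decide, by apply ext3 <;> simp [r3_vec, r3_ev] <;> ring⟩
    · exact ⟨((0,1),(-1,1),(0,0)), by decide, by apply ext3 <;> simp [r3_vec, r3_ev] <;> ring⟩
    · exact ⟨((0,0),(0,1),(-1,1)), by decide, by apply ext3 <;> simp [r3_vec, r3_ev] <;> ring⟩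
    · exact ⟨((-1,1),(0,0),(0,-1)), by decide, by apply ext3 <;> simp [r3_vec, r3_ev] <;> ring⟩
    · exact ⟨((0,-1),(-1,1),(0,0)), by decide, by apply ext3 <;> simp [r3_vec, r3_ev] <;> ring⟩
    · exact ⟨((0,0),(0,-1),(-1,1)), by decide, by apply ext3 <;> simp [r3_vec, r3_ev] <;> ring⟩
    · exact ⟨((1,-1),(0,0),(0,1)), by decide, by apply ext3 <;> simp [r3_vec, r3_ev] <;> ring⟩
    · exact ⟨((0,1),(1,-1),(0,0)), by decide, by apply ext3 <;> simp [r3_vec, r3_ev] <;> ring⟩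
    · exact ⟨((0,0),(0,1),(1,-1)), by decide, by apply ext3 <;> simp [r3_vec, r3_ev] <;> ring⟩
    · exact ⟨((1,-1),(0,0),(0,-1)), by decide, by apply ext3 <;> simp [r3_vec, r3_ev] <;> ring⟩
    · exact ⟨((0,-1),(1,-1),(0,0)), by decide, by apply ext3 <;> simp [r3_vec, r3_ev] <;> ring⟩
    · exact ⟨((0,0),(0,-1),(1,-1)), by decide, by apply ext3 <;> simp [r3_vec, r3_ev] <;> ring⟩

theorem r3_chk_vtx : ∀ i ∈ List.range 60, ∀ p ∈ r3_VL, ∃ q ∈ r3_VL, r3_app i p = r3_dbv q := by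
  decide +kernel

theorem r3_chk_face : ∀ i ∈ List.range 60, ∀ p ∈ r3_FL, ∃ q ∈ r3_FL, r3_app i p = r3_dbv q := by
  decide +kernel

theorem r3_chk_dot : ∀ p ∈ r3_VL, ∀ q ∈ r3_VL, r3_dot p q = (2, 1) ∨ r3_dot p q = (0, -1) ∨
    r3_dot p q = (-2, -1) ∨ ∃ i ∈ List.range 60, r3_app i ((0,0),(1,0),(0,1)) = r3_dbv p ∧
      r3_app i ((0,0),(-1,0),(0,1)) = r3_dbv q := by
  decide +kernel

theorem r3_chk_vt : ∀ p ∈ r3_VL, ∃ i ∈ List.range 60, r3_app i ((0,0),(1,0),(0,1)) = r3_dbv p := by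
  decide +kernel

theorem r3_chk_ft : ∀ p ∈ r3_FL, ∃ i ∈ List.range 60, r3_app i ((-1,1),(0,0),(0,1)) = r3_dbv p := by
  decide +kernel

lemma r3_vA : vA = r3_vec ((0,0),(1,0),(0,1)) := by apply ext3 <;> simp [r3_vec, r3_ev, vA]

lemma r3_vB : vB = r3_vec ((0,0),(-1,0),(0,1)) := by apply ext3 <;> simp [r3_vec, r3_ev, vB]

lemma r3_f0 : f0 = r3_vec ((-1,1),(0,0),(0,1)) := by
  apply ext3 <;> simp [r3_vec, r3_ev, f0] <;> ring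

theorem act_vtx {i : ℕ} (hi : i < 60) {v : E} (hv : IsVtx v) : IsVtx (act i v) := by
  obtain ⟨p, hp, rfl⟩ := r3_of_vtx hv
  obtain ⟨q, hq, h⟩ := r3_chk_vtx i (List.mem_range.2 hi) p hp
  rw [r3_act h]
  exact r3_vtx_of hq

theorem act_face {i : ℕ} (hi : i < 60) {f : E} (hf : IsFace f) : IsFace (act i f) := by
  obtain ⟨p, hp, rfl⟩ := r3_of_face hf
  obtain ⟨q, hq, h⟩ := r3_chk_face i (List.mem_range.2 hi) p hp
  rw [r3_act h]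
  exact r3_face_of hq

theorem act_pair {v w : E} (hv : IsVtx v) (hw : IsVtx w) (h : dt v w = ph) :
    ∃ i < 60, act i vA = v ∧ act i vB = w := by
  obtain ⟨p, hp, rfl⟩ := r3_of_vtx hv
  obtain ⟨q, hq, rfl⟩ := r3_of_vtx hw
  rw [r3_dt] at h
  have hph := ph_gt
  rcases r3_chk_dot p hp q hq with h1 | h1 | h1 | ⟨i, hi, h1, h2⟩
  · rw [h1] at h; simp only [r3_ev] at h; push_cast at h; linarith
  · rw [h1] at h; simp only [r3_ev] at h; push_cast at h; linarith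
  · rw [h1] at h; simp only [r3_ev] at h; push_cast at h; linarith
  · exact ⟨i, List.mem_range.1 hi, by rw [r3_vA, r3_act h1], by rw [r3_vB, r3_act h2]⟩

theorem act_vtx_trans {v : E} (hv : IsVtx v) : ∃ i < 60, act i vA = v := by
  obtain ⟨p, hp, rfl⟩ := r3_of_vtx hv
  obtain ⟨i, hi, h1⟩ := r3_chk_vt p hp
  exact ⟨i, List.mem_range.1 hi, by rw [r3_vA, r3_act h1]⟩

theorem act_face_trans {f : E} (hf : IsFace f) : ∃ i < 60, act i f0 = f := by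
  obtain ⟨p, hp, rfl⟩ := r3_of_face hf
  obtain ⟨i, hi, h1⟩ := r3_chk_ft p hp
  exact ⟨i, List.mem_range.1 hi, by rw [r3_f0, r3_act h1]⟩

end Pool.Agent.H304

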