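import Pool.Agent.helper304_full.Base
import Pool.Agent.helper304_full.R2

set_option autoImplicit false

namespace Pool.Agent.H304

/-- table of the products with element number 1 -/
def r4_R1 : List ℕ := [1, 3, 5, 7, 9, 11, 12, 14, 16, 18, 13, 20, 21, 22, 0, 25, 23, 19, 28, 29, 31, 33, 34, 35, 36, 30, 27, 39, 41, 42, 43, 2, 24, 46, 48, 49, 40, 38, 50, 51, 52, 4, 53, 54, 37, 26, 6, 44, 10, 8, 47, 45, 32, 17, 15, 56, 59, 55, 57, 58]

/-- table of the products with element number 2 -/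
def r4_R2 : List ℕ := [2, 4, 6, 8, 10, 9, 13, 15, 17, 16, 19, 7, 18, 23, 24, 26, 25, 27, 14, 30, 32, 20, 28, 0, 37, 36, 38, 40, 31, 35, 1, 44, 45, 47, 33, 41, 5, 12, 11, 43, 3, 46, 34, 49, 55, 56, 57, 51, 58, 48, 52, 42, 54, 59, 53, 22, 21, 29, 39, 50]

/-- parents -/
def r4_P : List ℕ := [0, 0, 0, 1, 1, 2, 2, 3, 3, 4, 4, 5, 6, 6, 7, 7, 8, 8, 9, 10, 11, 12, 13, 13, 14, 15, 15, 17, 18, 19, 19, 20, 20, 21, 22, 23, 24, 24, 26, 27, 27, 28, 29, 30, 31, 32, 33, 33, 34, 35, 38, 39, 40, 42, 43, 44, 45, 46, 48, 53]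

/-- generators leading to the elements from their parents -/
def r4_Q : List ℕ := [0, 1, 2, 1, 2, 1, 2, 1, 2, 1, 2, 1, 1, 2, 1, 2, 1, 2, 1, 2, 1, 1, 1, 2, 2, 1, 2, 2, 1, 1, 2, 1, 2, 1, 1, 1, 1, 2, 2, 1, 2, 1, 1, 1, 2, 2, 1, 2, 1, 1, 1, 1, 1, 1, 1, 2, 2, 2, 2, 2]

/-- inverses -/
def r4_I : List ℕ := [0, 14, 23, 7, 16, 18, 13, 3, 8, 9, 10, 11, 12, 6, 1, 49, 4, 48, 5, 46, 40, 38, 37, 2, 35, 41, 34, 33, 36, 44, 31, 30, 43, 27, 26, 24, 28, 22, 21, 47, 20, 25, 45, 32, 29, 42, 19, 39, 17, 15, 50, 51, 52, 53, 54, 55, 56, 57, 58, 59]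

/-- integer parts of the entries -/
def r4_A (i r c : ℕ) : ℤ := cvA (gcode i r c)

/-- coefficients of the golden ratio -/
def r4_B (i r c : ℕ) : ℤ := cvB (gcode i r c)

/-- check one entry of a product -/
def r4_chk1 (i j k r c : ℕ) : Bool :=
  decide (2 * r4_A k r c =
    (r4_A i r 0 * r4_A j 0 c + r4_B i r 0 * r4_B j 0 c) +
    (r4_A i r 1 * r4_A j 1 c + r4_B i r 1 * r4_B j 1 c) +
    (r4_A i r 2 * r4_A j 2 c + r4_B i r 2 * r4_B j 2 c)) &&
  decide (2 * r4_B k r c =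
    (r4_A i r 0 * r4_B j 0 c + r4_B i r 0 * r4_A j 0 c + r4_B i r 0 * r4_B j 0 c) +
    (r4_A i r 1 * r4_B j 1 c + r4_B i r 1 * r4_A j 1 c + r4_B i r 1 * r4_B j 1 c) +
    (r4_A i r 2 * r4_B j 2 c + r4_B i r 2 * r4_A j 2 c + r4_B i r 2 * r4_B j 2 c))

/-- check a product -/
def r4_chk (i j k : ℕ) : Bool :=
  r4_chk1 i j k 0 0 && r4_chk1 i j k 0 1 && r4_chk1 i j k 0 2 &&
  r4_chk1 i j k 1 0 && r4_chk1 i j k 1 1 && r4_chk1 i j k 1 2 &&
  r4_chk1 i j k 2 0 && r4_chk1 i j k 2 1 && r4_chk1 i j k 2 2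

theorem r4_entry {i j k r c : ℕ} (h : r4_chk1 i j k r c = true) :
    gent k r c = gent i r 0 * gent j 0 c + gent i r 1 * gent j 1 c + gent i r 2 * gent j 2 c := by
  unfold r4_chk1 r4_A r4_B at h
  rw [Bool.and_eq_true, decide_eq_true_eq, decide_eq_true_eq] at h
  obtain ⟨h1, h2⟩ := h
  have h1' := congrArg (fun x : ℤ => (x : ℝ)) h1
  have h2' := congrArg (fun x : ℤ => (x : ℝ)) h2
  push_cast at h1' h2'
  have h3 := ph_sq
  unfold gent
  linear_combination (1 / 4) * h1' + (ph / 4) * h2' -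
    (1 / 4) * ((cvB (gcode i r 0) : ℝ) * (cvB (gcode j 0 c) : ℝ) +
      (cvB (gcode i r 1) : ℝ) * (cvB (gcode j 1 c) : ℝ) +
      (cvB (gcode i r 2) : ℝ) * (cvB (gcode j 2 c) : ℝ)) * h3

theorem r4_prod {i j k : ℕ} (h : r4_chk i j k = true) (v : E) : act k v = act i (act j v) := by
  unfold r4_chk at h
  simp only [Bool.and_eq_true] at h
  obtain ⟨⟨⟨⟨⟨⟨⟨⟨h00, h01⟩, h02⟩, h10⟩, h11⟩, h12⟩, h20⟩, h21⟩, h22⟩ := h
  have e00 := r4_entry h00
  have e01 := r4_entry h01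
  have e02 := r4_entry h02
  have e10 := r4_entry h10
  have e11 := r4_entry h11
  have e12 := r4_entry h12
  have e20 := r4_entry h20
  have e21 := r4_entry h21
  have e22 := r4_entry h22
  apply ext3
  · simp [act, e00, e01, e02]
    ring
  · simp [act, e10, e11, e12]
    ring
  · simp [act, e20, e21, e22]
    ring

theorem r4_t1 : ∀ i < 60, r4_R1.getD i 0 < 60 ∧ r4_chk i 1 (r4_R1.getD i 0) = true := by
  decide +kernel

theorem r4_t2 : ∀ i < 60, r4_R2.getD i 0 < 60 ∧ r4_chk i 2 (r4_R2.getD i 0) = true := by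
  decide +kernel

theorem r4_t3 : ∀ j < 60, 0 < j → r4_P.getD j 0 < j ∧
    (r4_Q.getD j 0 = 1 ∨ r4_Q.getD j 0 = 2) ∧
    r4_chk (r4_P.getD j 0) (r4_Q.getD j 0) j = true := by
  decide +kernel

theorem r4_t4 : ∀ i < 60, r4_I.getD i 0 < 60 ∧ r4_chk i (r4_I.getD i 0) 0 = true ∧
    r4_chk (r4_I.getD i 0) i 0 = true := by
  decide +kernel

/-- products with a generator -/
theorem r4_gen {i g : ℕ} (hi : i < 60) (hg : g = 1 ∨ g = 2) :
    ∃ k < 60, ∀ v : E, act k v = act i (act g v) := by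
  rcases hg with rfl | rfl
  · obtain ⟨h1, h2⟩ := r4_t1 i hi
    exact ⟨_, h1, r4_prod h2⟩
  · obtain ⟨h1, h2⟩ := r4_t2 i hi
    exact ⟨_, h1, r4_prod h2⟩

/-- parents -/
theorem r4_par {j : ℕ} (hj : j < 60) (h0 : 0 < j) :
    ∃ p < j, ∃ g, (g = 1 ∨ g = 2) ∧ ∀ v : E, act j v = act p (act g v) := by
  obtain ⟨h1, h2, h3⟩ := r4_t3 j hj h0
  exact ⟨_, h1, _, h2, r4_prod h3⟩

theorem act_mul {i j : ℕ} (hi : i < 60) (hj : j < 60) : ∃ k < 60, ∀ v : E, act k v = act i (act j v) := by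
  induction j using Nat.strong_induction_on with
  | _ j ih =>
    rcases Nat.eq_zero_or_pos j with rfl | h0
    · exact ⟨i, hi, fun v => by rw [act_zero]⟩
    · obtain ⟨p, hp, g, hg, h⟩ := r4_par hj h0
      obtain ⟨k, hk, h'⟩ := ih p hp (lt_trans hp hj)
      obtain ⟨m, hm, h''⟩ := r4_gen hk hg
      exact ⟨m, hm, fun v => by rw [h'', h', h]⟩

theorem act_inv {i : ℕ} (hi : i < 60) : ∃ j < 60, (∀ v : E, act j (act i v) = v) ∧ ∀ v : E, act i (act j v) = v := by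
  obtain ⟨h1, h2, h3⟩ := r4_t4 i hi
  refine ⟨_, h1, fun v => ?_, fun v => ?_⟩
  · rw [← r4_prod h3 v, act_zero]
  · rw [← r4_prod h2 v, act_zero]

theorem r4_reach (P : E → Prop) (x : E)
    (hA : ∀ i < 60, P (act i x) → P (act i (act 1 x))) (hB : ∀ i < 60, P (act i x) → P (act i (act 2 x)))
    {i : ℕ} (hi : i < 60) (h : P (act i x)) {m : ℕ} (hm : m < 60) : P (act i (act m x)) := by
  induction m using Nat.strong_induction_on with
  | _ m ih =>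
    rcases Nat.eq_zero_or_pos m with rfl | h0
    · rw [act_zero]
      exact h
    · obtain ⟨p, hp, g, hg, hpg⟩ := r4_par hm h0
      have h1 := ih p hp (lt_trans hp hm)
      obtain ⟨k, hk, hk'⟩ := act_mul hi (lt_trans hp hm)
      rw [← hk'] at h1
      rw [hpg x, ← hk']
      rcases hg with rfl | rfl
      · exact hA k hk h1
      · exact hB k hk h1

theorem act_gen (P : E → Prop) (x : E) {i₀ : ℕ} (h₀ : i₀ < 60) (h : P (act i₀ x))
    (hA : ∀ i < 60, P (act i x) → P (act i (act 1 x))) (hB : ∀ i < 60, P (act i x) → P (act i (act 2 x))) :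
    ∀ j < 60, P (act j x) := by
  intro j hj
  obtain ⟨i', hi', -, h2⟩ := act_inv h₀
  obtain ⟨m, hm, hm'⟩ := act_mul hi' hj
  have h3 := r4_reach P x hA hB h₀ h hm
  rw [hm', h2] at h3
  exact h3

end Pool.Agent.H304

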