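import Pool.Agent.helper304_full.Base
import Pool.Agent.helper304_full.R2

set_option autoImplicit false

namespace Pool.Agent.H304

lemma r5_g1 : gcode 1 0 0 = 5 ∧ gcode 1 0 1 = 4 ∧ gcode 1 0 2 = 1 ∧
    gcode 1 1 0 = 3 ∧ gcode 1 1 1 = 1 ∧ gcode 1 1 2 = 5 ∧
    gcode 1 2 0 = 2 ∧ gcode 1 2 1 = 5 ∧ gcode 1 2 2 = 3 := by
  refine ⟨?_, ?_, ?_, ?_, ?_, ?_, ?_, ?_, ?_⟩ <;> rfl

lemma r5_g2 : gcode 2 0 0 = 5 ∧ gcode 2 0 1 = 4 ∧ gcode 2 0 2 = 2 ∧
    gcode 2 1 0 = 3 ∧ gcode 2 1 1 = 1 ∧ gcode 2 1 2 = 6 ∧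
    gcode 2 2 0 = 1 ∧ gcode 2 2 1 = 6 ∧ gcode 2 2 2 = 3 := by
  refine ⟨?_, ?_, ?_, ?_, ?_, ?_, ?_, ?_, ?_⟩ <;> rfl

theorem rv_A (w : E) : rv vA 1 w = act 1 w := by
  obtain ⟨h1, h2, h3, h4, h5, h6, h7, h8, h9⟩ := r5_g1
  have hp := ph_sq
  apply ext3
  · simp only [rv, act, gent, h1, h2, h3, cvA, cvB, vA, dt, cr, C5_ph, PiLp.add_apply,
      PiLp.smul_apply, smul_eq_mul]
    simp
    linear_combination 0 * hp
  · simp only [rv, act, gent, h4, h5, h6, cvA, cvB, vA, dt, cr, C5_ph, PiLp.add_apply,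
      PiLp.smul_apply, smul_eq_mul]
    simp
    linear_combination (-(1/2) * w 2) * hp
  · simp only [rv, act, gent, h7, h8, h9, cvA, cvB, vA, dt, cr, C5_ph, PiLp.add_apply,
      PiLp.smul_apply, smul_eq_mul]
    simp
    linear_combination (-(1/2) * w 1 + (1/2) * w 2 - (1/2) * ph * w 2) * hp

theorem rv_B (w : E) : rv vB 1 w = act 2 w := by
  obtain ⟨h1, h2, h3, h4, h5, h6, h7, h8, h9⟩ := r5_g2
  have hp := ph_sq
  apply ext3
  · simp only [rv, act, gent, h1, h2, h3, cvA, cvB, vB, dt, cr, C5_ph, PiLp.add_apply,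
      PiLp.smul_apply, smul_eq_mul]
    simp
    linear_combination 0 * hp
  · simp only [rv, act, gent, h4, h5, h6, cvA, cvB, vB, dt, cr, C5_ph, PiLp.add_apply,
      PiLp.smul_apply, smul_eq_mul]
    simp
    linear_combination ((1/2) * w 2) * hp
  · simp only [rv, act, gent, h7, h8, h9, cvA, cvB, vB, dt, cr, C5_ph, PiLp.add_apply,
      PiLp.smul_apply, smul_eq_mul]
    simp
    linear_combination ((1/2) * w 1 + (1/2) * w 2 - (1/2) * ph * w 2) * hp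

lemma r5_vtx_dt {v : E} (hv : IsVtx v) : dt v v = ph + 2 := by
  have hp := ph_sq
  obtain ⟨σ, τ, hσ, hτ, h | h | h⟩ := hv <;> subst h <;>
    rcases hσ with rfl | rfl <;> rcases hτ with rfl | rfl <;>
    simp [dt] <;> linear_combination hp

/-- `e` parallel to `v` -/
lemma r5_par {v e : E} (hv : dt v v = ph + 2) (h : cr e v = 0) :
    e = (dt v e / (ph + 2)) • v := by
  have hpos : (ph + 2 : ℝ) ≠ 0 := by have := ph_gt; linarith
  have h1 : cr v (cr e v) = dt v v • e - dt v e • v := by rw [cr_cr]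
  rw [h, cr_zero_right] at h1
  have h2 : dt v v • e = dt v e • v := by
    exact (sub_eq_zero.mp h1.symm)
  rw [hv] at h2
  rw [div_eq_inv_mul, mul_smul, ← h2, smul_smul, inv_mul_cancel₀ hpos, one_smul]

lemma r5_key {v e : E} {δ : ℝ} (he : e = δ • v) (hδ : (ph + 2) * δ ^ 2 = 1) :
    (S5 * δ = 1 / 2 ∨ S5 * δ = - (1 / 2)) ∧ (1 - C5) * δ ^ 2 = (2 - ph) / 2 := by
  have hp := ph_sq
  have hS : S5 ^ 2 = (ph + 2) / 4 := by
    rw [S5_sq, C5_ph]; linear_combination (-(1:ℝ)/4) * hp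
  constructor
  · have h4 : (S5 * δ) ^ 2 = (1 / 2) ^ 2 := by
      rw [mul_pow, hS]; linear_combination (1/4) * hδ
    exact sq_eq_sq_iff_eq_or_eq_neg.mp h4
  · have hpos : (ph + 2 : ℝ) ≠ 0 := by have := ph_gt; linarith
    apply mul_left_cancel₀ hpos
    rw [C5_ph]
    linear_combination ((3 - ph) / 2) * hδ + (1/2 : ℝ) * hp

lemma r5_rot {v e : E} {δ σ s : ℝ} (he : e = δ • v) (h1 : s * δ = σ / 2)
    (h2 : (1 - C5) * δ ^ 2 = (2 - ph) / 2) (w : E) : rot e C5 s w = rv v σ w := by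
  subst he
  unfold rot rv
  rw [cr_smul_left, dt_smul_left, smul_smul, smul_smul, h1, ← h2]
  congr 2
  ring

theorem rot_eq_rv {v e : E} (hv : IsVtx v) (he : dt e e = 1) (h : cr e v = 0) :
    (∀ w, rot e C5 S5 w = rv v 1 w ∧ rot e C5 (-S5) w = rv v (-1) w) ∨
    (∀ w, rot e C5 S5 w = rv v (-1) w ∧ rot e C5 (-S5) w = rv v 1 w) := by
  have hvv := r5_vtx_dt hv
  obtain ⟨δ, hδ⟩ : ∃ δ : ℝ, e = δ • v := ⟨_, r5_par hvv h⟩
  have hδ2 : (ph + 2) * δ ^ 2 = 1 := by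
    rw [hδ, dt_smul_left, dt_smul_right, hvv] at he
    linear_combination he
  obtain ⟨h3 | h3, h4⟩ := r5_key hδ hδ2
  · left
    intro w
    exact ⟨r5_rot hδ (by linear_combination h3) h4 w,
      r5_rot hδ (by linear_combination -h3) h4 w⟩
  · right
    intro w
    exact ⟨r5_rot hδ (by linear_combination h3) h4 w,
      r5_rot hδ (by linear_combination -h3) h4 w⟩

end Pool.Agent.H304

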