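import Pool.Agent.helper304_full.Base
import Pool.Agent.helper304_full.R2
import Pool.Agent.helper304_full.R3
import Pool.Agent.helper304_full.R4
import Pool.Agent.helper304_full.R5

set_option autoImplicit false

namespace Pool.Agent.H304

lemma r9_act_add (i : ℕ) (v w : E) : act i (v + w) = act i v + act i w := by
  apply ext3 <;> simp [act] <;> ring

lemma r9_act_smul (i : ℕ) (a : ℝ) (v : E) : act i (a • v) = a • act i v := by
  apply ext3 <;> simp [act] <;> ring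

lemma r9_act_sub (i : ℕ) (v w : E) : act i (v - w) = act i v - act i w := by
  apply ext3 <;> simp [act] <;> ring

lemma r9_act_rv {i : ℕ} (hi : i < 60) (v : E) (σ : ℝ) (w : E) :
    rv (act i v) σ (act i w) = act i (rv v σ w) := by
  unfold rv
  rw [act_dt hi, act_cr hi, r9_act_add, r9_act_add, r9_act_smul, r9_act_smul, r9_act_smul]

lemma r9_vA : IsVtx vA := ⟨1, 1, Or.inl rfl, Or.inl rfl, Or.inl (by rw [one_mul]; rfl)⟩

lemma r9_vB : IsVtx vB := ⟨-1, 1, Or.inr rfl, Or.inl rfl, Or.inl (by rw [one_mul]; rfl)⟩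

lemma r9_dist {i : ℕ} (hi : i < 60) (x v : E) (r : ℝ) :
    dt (act i x - r • act i v) (act i x - r • act i v) = dt (x - r • v) (x - r • v) := by
  rw [← r9_act_smul, ← r9_act_sub, act_dt hi]

theorem r9_main {r : ℝ} {X : Set E} {lam : ℝ}
    (hcl : ∀ v, IsVtx v → ∀ x ∈ X, lam ^ 2 * dt (x - r • v) (x - r • v) ≤ 4 → rv v 1 x ∈ X ∧ rv v (-1) x ∈ X)
    {x : E} {i : ℕ} (hi : i < 60) (hx : act i x ∈ X)
    (hA : lam ^ 2 * dt (x - r • vA) (x - r • vA) ≤ 4) (hB : lam ^ 2 * dt (x - r • vB) (x - r • vB) ≤ 4) :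
    ∀ j < 60, act j x ∈ X := by
  refine act_gen (fun y => y ∈ X) x hi hx ?_ ?_
  · intro k hk hkx
    have := (hcl (act k vA) (act_vtx hk r9_vA) _ hkx (by rw [r9_dist hk]; exact hA)).1
    rw [r9_act_rv hk, rv_A] at this
    exact this
  · intro k hk hkx
    have := (hcl (act k vB) (act_vtx hk r9_vB) _ hkx (by rw [r9_dist hk]; exact hB)).1
    rw [r9_act_rv hk, rv_B] at this
    exact this

theorem closure_lemma {X : Set E} {r : ℝ} (hS : Shell X r) {x : E} {i : ℕ} (hi : i < 60) (hx : act i x ∈ X)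
    (hA : dt (x - r • vA) (x - r • vA) ≤ 4) (hB : dt (x - r • vB) (x - r • vB) ≤ 4) : ∀ j < 60, act j x ∈ X := by
  refine r9_main (r := r) (lam := 1) (fun v hv y hy h => hS.cl v hv y hy ?_) hi hx ?_ ?_
  · rwa [one_pow, one_mul] at h
  · rwa [one_pow, one_mul]
  · rwa [one_pow, one_mul]

theorem closure_lemma' {r : ℝ} {X : Set E} {lam : ℝ} (hl : 0 < lam)
    (hcl : ∀ v, IsVtx v → ∀ x ∈ X, lam ^ 2 * dt (x - r • v) (x - r • v) ≤ 4 → rv v 1 x ∈ X ∧ rv v (-1) x ∈ X)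
    {x : E} {i : ℕ} (hi : i < 60) (hx : act i x ∈ X)
    (hA : lam ^ 2 * dt (x - r • vA) (x - r • vA) ≤ 4) (hB : lam ^ 2 * dt (x - r • vB) (x - r • vB) ≤ 4) :
    ∀ j < 60, act j x ∈ X :=
  r9_main hcl hi hx hA hB

end Pool.Agent.H304

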