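import Pool.Agent.helper304_full.GeoDefs
import Pool.Agent.helper304_full.A1
import Pool.Agent.helper304_full.A3
import Pool.Agent.helper304_full.C0
import Pool.Agent.helper304_full.R2
import Pool.Agent.helper304_full.R3
import Pool.Agent.helper304_full.R4
import Pool.Agent.helper304_full.R9

set_option autoImplicit false

set_option maxRecDepth 100000
set_option exponentiation.threshold 100000

namespace Pool.Agent.H304

theorem c9_act_sub (i : ℕ) (v w : E) : act i (v - w) = act i v - act i w := by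
  apply ext3 <;> simp [act] <;> ring

theorem c9_act_smul (i : ℕ) (a : ℝ) (w : E) : act i (a • w) = a • act i w := by
  apply ext3 <;> simp [act] <;> ring

theorem c9_norm_act {i : ℕ} (hi : i < 60) (w : E) : ‖act i w‖ = ‖w‖ := by
  rw [norm_eq_sqrt_dt, norm_eq_sqrt_dt, act_dt hi]

theorem c9_le {w : E} {a d : ℝ} (ha : 0 ≤ a) (h : dt w w ≤ d) (hd : d ≤ a ^ 2) : ‖w‖ ≤ a := by
  have h1 := norm_sq_eq_dt w
  exact le_of_sq_le_sq (by rw [h1]; linarith) ha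

theorem c9_dt_le {w : E} {a : ℝ} (h : ‖w‖ ≤ a) : dt w w ≤ a ^ 2 := by
  rw [← norm_sq_eq_dt]
  exact pow_le_pow_left₀ (norm_nonneg _) h 2

theorem c9_cr_norm (a b : E) : ‖cr a b‖ ≤ ‖a‖ * ‖b‖ := by
  have h1 : ‖cr a b‖ ^ 2 ≤ (‖a‖ * ‖b‖) ^ 2 := by
    rw [norm_sq_eq_dt, mul_pow, norm_sq_eq_dt, norm_sq_eq_dt, dt_cr_cr, dt_comm b a]
    nlinarith [sq_nonneg (dt a b)]
  exact le_of_sq_le_sq h1 (by positivity)

theorem c9_vtx_dt {v : E} (hv : IsVtx v) : dt v v = ph + 2 := by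
  have h := ph_sq
  obtain ⟨σ, τ, hσ, hτ, h1 | h1 | h1⟩ := hv <;> subst h1 <;> rcases hσ with h2 | h2 <;>
    rcases hτ with h3 | h3 <;> subst h2 <;> subst h3 <;> simp [dt] <;> nlinarith

theorem c9_vtx_pair {v w : E} (hv : IsVtx v) (hw : IsVtx w) :
    (w = v ∨ w = -v) ∨ dt w v ^ 2 = ph ^ 2 := by
  have h := ph_sq
  obtain ⟨σ, τ, hσ, hτ, hv⟩ := hv
  obtain ⟨σ', τ', hσ', hτ', hw⟩ := hw
  rcases hv with h1 | h1 | h1 <;> rcases hw with h2 | h2 | h2 <;> subst h1 <;> subst h2 <;>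
    rcases hσ with a | a <;> rcases hτ with b | b <;> rcases hσ' with c | c <;> rcases hτ' with d | d <;>
    subst a <;> subst b <;> subst c <;> subst d <;>
    first
    | (left; left; rfl)
    | (left; right; apply ext3 <;> simp; done)
    | (right; simp [dt]; done)
    | (right; simp [dt]; nlinarith)

end Pool.Agent.H304

namespace Pool.Agent.H304.K

theorem c9_face_dt {f : E} (hf : IsFace f) : dt f f = 3 := by
  have h := ph_sq
  rcases hf with ⟨σ, τ, ρ, hσ, hτ, hρ, h1⟩ | ⟨σ, τ, hσ, hτ, h1⟩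
  · subst h1
    rcases hσ with a | a <;> rcases hτ with b | b <;> rcases hρ with c | c <;> subst a <;> subst b <;>
      subst c <;> simp [dt] <;> norm_num
  · rcases h1 with h1 | h1 | h1 <;> subst h1 <;> rcases hσ with a | a <;> rcases hτ with b | b <;>
      subst a <;> subst b <;> simp [dt] <;> nlinarith

theorem c9_range {lam d : ℝ} (hl : lam ^ 2 * 0.162 ≤ 1) (hd : d ≤ 0.648) : lam ^ 2 * d ≤ 4 := by
  have h1 : lam ^ 2 * d ≤ lam ^ 2 * 0.648 := mul_le_mul_of_nonneg_left hd (sq_nonneg _)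
  linarith

theorem c9_range' {lam : ℝ} {w : E} (hl : lam ^ 2 * 0.162 ≤ 1) (hw : ‖w‖ ≤ 0.80498) :
    lam ^ 2 * dt w w ≤ 4 := by
  apply c9_range hl
  have := c9_dt_le hw
  norm_num at this ⊢
  linarith

theorem c9_step {InX : E → Prop} {z u v : E} {lam S tt : ℝ} (G : Geo InX z u C5 S5 lam S tt) (hv : IsVtx v)
    (hu : ‖u - (Real.sqrt (ph + 2))⁻¹ • v‖ ≤ 0.0045) {k : ℕ} (hk : k < 4) (hl : lam ^ 2 * 0.162 ≤ 1)
    (hz : ‖z - zc‖ ≤ 0.00455) {x xc yc : E} (hx : InX x) {a b : ℝ} (ha : ‖(x - z) - (xc - zc)‖ ≤ a)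
    (hb : ‖xc - zc‖ ≤ b) (hab : a + b ≤ 0.80498) (e : zc + rvp v k (xc - zc) = yc) :
    ∃ y, InX y ∧ ‖y - yc‖ ≤ 0.00455 + a + 0.01893 * b := by
  have h1 : ‖x - z‖ ≤ 0.80498 := by
    have h2 : x - z = ((x - z) - (xc - zc)) + (xc - zc) := by abel
    rw [h2]
    exact (norm_add_le _ _).trans ((add_le_add ha hb).trans hab)
  refine ⟨_, Geo.img G hx (c9_range' hl h1) k, ?_⟩
  have hcs := pcs (c := C5) (s := S5) C5_S5 k
  set R := fun w => H304.rot u (pc C5 S5 k) (ps C5 S5 k) w with hR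
  have h3 : z + H304.rot u (pc C5 S5 k) (ps C5 S5 k) (x - z) - yc =
      (z - zc) + H304.rot u (pc C5 S5 k) (ps C5 S5 k) ((x - z) - (xc - zc)) +
        (H304.rot u (pc C5 S5 k) (ps C5 S5 k) (xc - zc) - rvp v k (xc - zc)) := by
    rw [← e, rot_sub (v := x - z)]
    abel
  rw [h3]
  have h4 := rot_close hv G.unit hu hk (xc - zc)
  have h5 : ‖H304.rot u (pc C5 S5 k) (ps C5 S5 k) ((x - z) - (xc - zc))‖ ≤ a := by
    rw [norm_rot G.unit hcs]; exact ha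
  refine (norm_add_le _ _).trans ?_
  refine (add_le_add (norm_add_le _ _) h4).trans ?_
  have h6 : (0.01893 : ℝ) * ‖xc - zc‖ ≤ 0.01893 * b := mul_le_mul_of_nonneg_left hb (by norm_num)
  linarith

theorem c9_lev {InX : E → Prop} {z u : E} {lam S tt : ℝ} (G : Geo InX z u C5 S5 lam S tt)
    (hl : lam ^ 2 * 0.162 ≤ 1) (hzz : 1.143 ≤ dt z z) (hzf : dt z f0 ≤ 1.8565) {y f : E} (hf : IsFace f)
    {σ : ℝ} (hσ : 0 ≤ σ) (hn : ‖y - σ • f‖ ≤ 0.4) (hy : ‖y‖ ≤ 1)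
    (hc : 0 ≤ 1.143 + 3 * σ ^ 2 - 0.162 - 2 * σ * 1.8565) : dt y y < dt z z ∧ Lev S lam y := by
  have h1 := c9_dt_le hn
  have h2 := c9_dt_le hy
  have h3 := c9_face_dt hf
  have h4 : dt (y - σ • f) (y - σ • f) = dt y y - 2 * σ * dt y f + σ ^ 2 * dt f f := by
    rw [dt_sub_left, dt_sub_right, dt_sub_right, dt_smul_left, dt_smul_right, dt_smul_left,
      dt_smul_right, dt_comm f y]
    ring
  rw [h4, h3] at h1
  have h5 : dt y y < dt z z := by linarith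
  refine ⟨h5, Geo.lev2 G hf hl hσ h5 ?_ ?_⟩
  · have h6 : 2 * σ * dt z f0 ≤ 2 * σ * 1.8565 := mul_le_mul_of_nonneg_left hzf (by linarith)
    linarith
  · norm_num at h1 ⊢
    linarith

theorem c9_r : 0.236067 ≤ 2 * ph - 3 ∧ 2 * ph - 3 ≤ 0.236068 := by
  have := ph_gt
  have := ph_lt
  constructor <;> norm_num at * <;> linarith

theorem c9_vtx_norm {v : E} (hv : IsVtx v) : 1.902 ≤ ‖v‖ ∧ ‖v‖ ≤ 1.9022 := by
  have h1 := norm_sq_eq_dt v
  rw [c9_vtx_dt hv] at h1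
  have h2 := ph_gt
  have h3 := ph_lt
  have h4 := norm_nonneg v
  constructor
  · by_contra hcon
    push Not at hcon
    nlinarith
  · by_contra hcon
    push Not at hcon
    nlinarith

theorem c9_axis {v w y : E} (hv : IsVtx v) (hw : IsVtx w) (h0 : cr w y = 0)
    (hy : ‖y - (2 * ph - 3) • v‖ ≤ 0.0282) : cr v y = 0 := by
  rcases c9_vtx_pair hv hw with (h | h) | h
  · rw [← h]; exact h0
  · have h1 : v = -w := by rw [h, neg_neg]
    rw [h1, cr_neg_left, h0, neg_zero]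
  · exfalso
    have h1 : dt (cr w ((2 * ph - 3) • v)) (cr w ((2 * ph - 3) • v)) = (2 * (2 - ph)) ^ 2 := by
      rw [dt_cr_cr, dt_smul_left, dt_smul_right, dt_smul_right, dt_smul_left, dt_comm v w, c9_vtx_dt hv,
        c9_vtx_dt hw]
      have h2 := ph_sq
      have h3 : dt w v ^ 2 = ph ^ 2 := h
      have h4 : (ph + 2) * ((2 * ph - 3) * ((2 * ph - 3) * (ph + 2))) -
          (2 * ph - 3) * dt w v * ((2 * ph - 3) * dt w v) =
          (2 * ph - 3) ^ 2 * ((ph + 2) ^ 2 - dt w v ^ 2) := by ring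
      rw [h4, h3]
      have h5 : (ph + 2) ^ 2 - ph ^ 2 = 4 * ph ^ 2 := by linear_combination (-4) * h2
      rw [h5]
      have h6 : (2 * ph - 3) * ph = 2 - ph := by linear_combination 2 * h2
      linear_combination 4 * ((2 * ph - 3) * ph + (2 - ph)) * h6
    have h2 : ‖cr w ((2 * ph - 3) • v)‖ = 2 * (2 - ph) := by
      rw [norm_eq_sqrt_dt, h1, Real.sqrt_sq]
      have := ph_lt
      norm_num at this
      linarith
    have h3 : cr w ((2 * ph - 3) • v) = - cr w (y - (2 * ph - 3) • v) := by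
      rw [cr_sub_right, h0, zero_sub, neg_neg]
    have h4 : ‖cr w ((2 * ph - 3) • v)‖ ≤ ‖w‖ * ‖y - (2 * ph - 3) • v‖ := by
      rw [h3, norm_neg]; exact c9_cr_norm _ _
    have h5 := (c9_vtx_norm hw).2
    have h6 : ‖w‖ * ‖y - (2 * ph - 3) • v‖ ≤ 1.9022 * 0.0282 :=
      mul_le_mul h5 hy (norm_nonneg _) (by norm_num)
    have h7 := ph_lt
    rw [h2] at h4
    norm_num at h6 h7
    linarith

theorem c9_on_axis {v y : E} (hv : IsVtx v) (h : cr v y = 0) : y = (dt v y / (ph + 2)) • v := by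
  have h1 : dt v y • v - dt v v • y = 0 := by rw [← cr_cr, h, cr_zero_right]
  rw [c9_vtx_dt hv] at h1
  have h2 : (0 : ℝ) < ph + 2 := by have := ph_gt; norm_num at this; linarith
  have h3 : (ph + 2) • y = dt v y • v := (sub_eq_zero.1 h1).symm
  rw [div_eq_inv_mul, mul_smul, ← h3, smul_smul, inv_mul_cancel₀ h2.ne', one_smul]

theorem chain_gen {InX : E → Prop} {z u v : E} {lam S tt : ℝ} (G : Geo InX z u C5 S5 lam S tt) (hv : IsVtx v)
    (hx : |z 0 - 0.381966| ≤ 0.0038) (hy : z 1 ≤ 0.0025) (hu : ‖u - (Real.sqrt (ph + 2))⁻¹ • v‖ ≤ 0.0045)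
    {v1 v2 p q f1 f3 y2 y3 : E} {i1 i3 k1 k2 k3 : ℕ}
    (hi1 : i1 < 60) (hk1 : k1 < 4) (d1 : dt (act i1 zc - zc) (act i1 zc - zc) ≤ 0.5836) (hv1 : IsVtx v1)
    (e1 : zc + rvp v k1 (act i1 zc - zc) = (2 * ph - 3) • v1)
    (hf1 : IsFace f1) (l1 : dt ((2 * ph - 3) • v1 - (0.206 : ℝ) • f1) ((2 * ph - 3) • v1 - (0.206 : ℝ) • f1) ≤ 0.0744)
    (hv2 : IsVtx v2) (hk2 : k2 < 4) (d2 : dt ((2 * ph - 3) • v2 - zc) ((2 * ph - 3) • v2 - zc) ≤ 0.5836)
    (e2 : zc + rvp v k2 ((2 * ph - 3) • v2 - zc) = y2)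
    (hp : IsVtx p) (hq : IsVtx q) (hpq : dt p q = ph)
    (dp : dt (y2 - (2 * ph - 3) • p) (y2 - (2 * ph - 3) • p) ≤ 0.446)
    (dq : dt (y2 - (2 * ph - 3) • q) (y2 - (2 * ph - 3) • q) ≤ 0.446)
    (hi3 : i3 < 60) (hk3 : k3 < 4) (d3 : dt (act i3 y2 - zc) (act i3 y2 - zc) ≤ 0.223)
    (e3 : zc + rvp v k3 (act i3 y2 - zc) = y3)
    (hf3 : IsFace f3) (l3 : dt (y3 - (0.35 : ℝ) • f3) (y3 - (0.35 : ℝ) • f3) ≤ 0.029) (n3 : dt y3 y3 ≤ 0.4246)
    (off : ∀ w, IsVtx w → 0.222 ≤ dt (cr w y3) (cr w y3)) : False := by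
  obtain ⟨hl, hz, hzz, hzf⟩ := chain_lam G hx hy
  -- step 1
  have b1 : ‖act i1 zc - zc‖ ≤ 0.7640 := c9_le (by norm_num) d1 (by norm_num)
  have a1 : ‖(act i1 z - z) - (act i1 zc - zc)‖ ≤ 0.0091 := by
    have h1 : (act i1 z - z) - (act i1 zc - zc) = act i1 (z - zc) - (z - zc) := by
      rw [c9_act_sub]; abel
    rw [h1]
    refine (norm_sub_le _ _).trans ?_
    rw [c9_norm_act hi1]
    linarith
  obtain ⟨y1, hy1, n1⟩ := c9_step G hv hu hk1 hl hz (G.orb i1 hi1) a1 b1 (by norm_num) e1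
  have n1' : ‖y1 - (2 * ph - 3) • v1‖ ≤ 0.0282 := n1.trans (by norm_num)
  obtain ⟨hr1, hr2⟩ := c9_r
  have hrv : ∀ w : E, IsVtx w → ‖(2 * ph - 3) • w‖ ≤ 0.4491 := by
    intro w hw
    rw [norm_smul, Real.norm_of_nonneg (by linarith)]
    have h1 := (c9_vtx_norm hw).2
    have h2 : (2 * ph - 3) * ‖w‖ ≤ 0.236068 * 1.9022 :=
      mul_le_mul hr2 h1 (norm_nonneg _) (by norm_num)
    exact h2.trans (by norm_num)
  -- step 2
  have ny1 : ‖y1‖ ≤ 1 := by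
    have h1 : y1 = (y1 - (2 * ph - 3) • v1) + (2 * ph - 3) • v1 := by abel
    rw [h1]
    refine (norm_add_le _ _).trans ((add_le_add n1' (hrv v1 hv1)).trans (by norm_num))
  have m1 : ‖y1 - (0.206 : ℝ) • f1‖ ≤ 0.4 := by
    have h1 : y1 - (0.206 : ℝ) • f1 = (y1 - (2 * ph - 3) • v1) + ((2 * ph - 3) • v1 - (0.206 : ℝ) • f1) := by
      abel
    have h2 : ‖(2 * ph - 3) • v1 - (0.206 : ℝ) • f1‖ ≤ 0.2728 := c9_le (by norm_num) l1 (by norm_num)
    rw [h1]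
    refine (norm_add_le _ _).trans ((add_le_add n1' h2).trans (by norm_num))
  obtain ⟨E1, L1⟩ := c9_lev G hl hzz hzf hf1 (by norm_num) m1 ny1 (by norm_num)
  obtain ⟨w, hw, hw0⟩ := Geo.onStar G hy1 E1 L1
  have hax := c9_axis hv1 hw hw0 n1'
  have hy1r := c9_on_axis hv1 hax
  obtain ⟨r', hr'⟩ : ∃ r' : ℝ, r' = dt v1 y1 / (ph + 2) := ⟨_, rfl⟩
  rw [← hr'] at hy1r
  have hdiff : |r' - (2 * ph - 3)| * ‖v1‖ ≤ 0.0282 := by
    rw [← Real.norm_eq_abs, ← norm_smul, sub_smul, ← hy1r]; exact n1'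
  have hrpos : 0 < r' := by
    have h1 := (c9_vtx_norm hv1).1
    have h2 : |r' - (2 * ph - 3)| * 1.902 ≤ 0.0282 :=
      (mul_le_mul_of_nonneg_left h1 (abs_nonneg _)).trans hdiff
    have h3 := neg_abs_le (r' - (2 * ph - 3))
    norm_num at h2 hr1
    linarith
  have hdv : ∀ w : E, IsVtx w → ‖(r' - (2 * ph - 3)) • w‖ ≤ 0.0282 := by
    intro w hw
    have h1 : ‖w‖ = ‖v1‖ := by rw [norm_eq_sqrt_dt, norm_eq_sqrt_dt, c9_vtx_dt hw, c9_vtx_dt hv1]
    rw [norm_smul, Real.norm_eq_abs, h1]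
    exact hdiff
  -- step 3
  have hE1 : r' ^ 2 * (ph + 2) < dt z z := by
    have h1 : dt y1 y1 = r' ^ 2 * (ph + 2) := by
      rw [hy1r, dt_smul_left, dt_smul_right, c9_vtx_dt hv1]; ring
    rw [← h1]; exact E1
  have hsh := G.sh r' hrpos v1 hv1 (by rw [← hy1r]; exact hy1) hE1 (by rw [← hy1r]; exact L1)
  -- step 4
  have b2 : ‖(2 * ph - 3) • v2 - zc‖ ≤ 0.7640 := c9_le (by norm_num) d2 (by norm_num)
  have a2 : ‖(r' • v2 - z) - ((2 * ph - 3) • v2 - zc)‖ ≤ 0.03275 := by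
    have h1 : (r' • v2 - z) - ((2 * ph - 3) • v2 - zc) = (r' - (2 * ph - 3)) • v2 - (z - zc) := by
      module
    rw [h1]
    refine (norm_sub_le _ _).trans ?_
    have h2 := hdv v2 hv2
    norm_num at h2 hz ⊢
    linarith
  obtain ⟨y2', hy2, n2⟩ := c9_step G hv hu hk2 hl hz (hsh v2 hv2).1 a2 b2 (by norm_num) e2
  have n2' : ‖y2' - y2‖ ≤ 0.0518 := n2.trans (by norm_num)
  -- step 5
  obtain ⟨i, hi, hip, hiq⟩ := act_pair hp hq hpq
  obtain ⟨j, hj, hji, hij⟩ := act_inv hi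
  have hclose : ∀ p : E, IsVtx p → dt (y2 - (2 * ph - 3) • p) (y2 - (2 * ph - 3) • p) ≤ 0.446 →
      ‖y2' - r' • p‖ ≤ 0.80498 := by
    intro p hp dp
    have h1 : y2' - r' • p = (y2' - y2) + (y2 - (2 * ph - 3) • p) - (r' - (2 * ph - 3)) • p := by
      module
    have h2 : ‖y2 - (2 * ph - 3) • p‖ ≤ 0.6679 := c9_le (by norm_num) dp (by norm_num)
    have h3 := hdv p hp
    rw [h1]
    refine (norm_sub_le _ _).trans ?_
    refine (add_le_add ((norm_add_le _ _).trans (add_le_add n2' h2)) h3).trans (by norm_num)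
  have hcv : ∀ q' q'' : E, act i q' = q'' → IsVtx q'' → ‖y2' - r' • q''‖ ≤ 0.80498 →
      lam ^ 2 * dt (act j y2' - r' • q') (act j y2' - r' • q') ≤ 4 := by
    intro q' q'' h1 _ h2
    have h3 : dt (act j y2' - r' • q') (act j y2' - r' • q') = dt (y2' - r' • q'') (y2' - r' • q'') := by
      rw [← act_dt hi, c9_act_sub, c9_act_smul, hij, h1]
    rw [h3]
    exact c9_range' hl h2
  have hcl := closure_lemma' (r := r') (X := {x | InX x}) G.lampos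
    (fun v hv x hx hr => (hsh v hv).2 x hx hr) (x := act j y2') (i := i) hi
    (by show InX (act i (act j y2')); rw [hij]; exact hy2)
    (hcv vA p hip hp (hclose p hp dp)) (hcv vB q hiq hq (hclose q hq dq))
  obtain ⟨k, hk, hki⟩ := act_mul hi3 hi
  have hI3 : InX (act i3 y2') := by
    have h1 : InX (act k (act j y2')) := hcl k hk
    rw [hki, hij] at h1
    exact h1
  -- step 6
  have b3 : ‖act i3 y2 - zc‖ ≤ 0.4723 := c9_le (by norm_num) d3 (by norm_num)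
  have a3 : ‖(act i3 y2' - z) - (act i3 y2 - zc)‖ ≤ 0.05635 := by
    have h1 : (act i3 y2' - z) - (act i3 y2 - zc) = act i3 (y2' - y2) - (z - zc) := by
      rw [c9_act_sub]; abel
    rw [h1]
    refine (norm_sub_le _ _).trans ?_
    rw [c9_norm_act hi3]
    norm_num at n2' hz ⊢
    linarith
  obtain ⟨y3', hy3, n3'⟩ := c9_step G hv hu hk3 hl hz hI3 a3 b3 (by norm_num) e3
  have n3'' : ‖y3' - y3‖ ≤ 0.0699 := n3'.trans (by norm_num)
  have ny3 : ‖y3'‖ ≤ 1 := by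
    have h1 : y3' = (y3' - y3) + y3 := by abel
    have h2 : ‖y3‖ ≤ 0.6517 := c9_le (by norm_num) n3 (by norm_num)
    rw [h1]
    refine (norm_add_le _ _).trans ((add_le_add n3'' h2).trans (by norm_num))
  have m3 : ‖y3' - (0.35 : ℝ) • f3‖ ≤ 0.4 := by
    have h1 : y3' - (0.35 : ℝ) • f3 = (y3' - y3) + (y3 - (0.35 : ℝ) • f3) := by abel
    have h2 : ‖y3 - (0.35 : ℝ) • f3‖ ≤ 0.1703 := c9_le (by norm_num) l3 (by norm_num)
    rw [h1]
    refine (norm_add_le _ _).trans ((add_le_add n3'' h2).trans (by norm_num))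
  obtain ⟨E3, L3⟩ := c9_lev G hl hzz hzf hf3 (by norm_num) m3 ny3 (by norm_num)
  obtain ⟨w', hw', hw'0⟩ := Geo.onStar G hy3 E3 L3
  have h1 := off w' hw'
  have h2 : cr w' y3 = - cr w' (y3' - y3) := by rw [cr_sub_right, hw'0, zero_sub, neg_neg]
  have h3 : ‖cr w' y3‖ ≤ 1.9022 * 0.0699 := by
    rw [h2, norm_neg]
    exact (c9_cr_norm _ _).trans (mul_le_mul (c9_vtx_norm hw').2 n3'' (norm_nonneg _) (by norm_num))
  have h4 := c9_dt_le h3
  norm_num at h4 h1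
  linarith

end Pool.Agent.H304.K

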