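import Pool.Agent.helper304_full.GeoDefs
import Pool.Agent.helper304_full.C9

set_option autoImplicit false

set_option maxRecDepth 100000
set_option exponentiation.threshold 100000

namespace Pool.Agent.H304

end Pool.Agent.H304

namespace Pool.Agent.H304.K

lemma d0_ph3 : ph ^ 3 = 2 * ph + 1 := by linear_combination (ph + 1) * ph_sq

lemma d0_ph4 : ph ^ 4 = 3 * ph + 2 := by linear_combination (ph ^ 2 + ph + 2) * ph_sq

lemma d0_ph5 : ph ^ 5 = 5 * ph + 3 := by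
  rw [show ph ^ 5 = ph ^ 4 * ph by ring, d0_ph4]; linear_combination 3 * ph_sq

lemma d0_ph6 : ph ^ 6 = 8 * ph + 5 := by
  rw [show ph ^ 6 = ph ^ 5 * ph by ring, d0_ph5]; linear_combination 5 * ph_sq

lemma d0_ph7 : ph ^ 7 = 13 * ph + 8 := by
  rw [show ph ^ 7 = ph ^ 6 * ph by ring, d0_ph6]; linear_combination 8 * ph_sq

lemma d0_ph8 : ph ^ 8 = 21 * ph + 13 := by
  rw [show ph ^ 8 = ph ^ 7 * ph by ring, d0_ph7]; linear_combination 13 * ph_sq

lemma d0_act10 : act 10 zc = !₂[ph - 1, 1 - ph, ph - 1] := by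
  have h00 : gcode 10 0 0 = 2 := by decide +kernel
  have h01 : gcode 10 0 1 = 6 := by decide +kernel
  have h02 : gcode 10 0 2 = 3 := by decide +kernel
  have h10 : gcode 10 1 0 = 6 := by decide +kernel
  have h11 : gcode 10 1 1 = 4 := by decide +kernel
  have h12 : gcode 10 1 2 = 2 := by decide +kernel
  have h20 : gcode 10 2 0 = 3 := by decide +kernel
  have h21 : gcode 10 2 1 = 2 := by decide +kernel
  have h22 : gcode 10 2 2 = 5 := by decide +kernel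
  have hp := ph_sq
  apply ext3 <;>
    simp only [act, gent, h00, h01, h02, h10, h11, h12, h20, h21, h22, cvA, cvB, zc] <;> simp <;>
    ring_nf <;> simp only [ph_sq] <;> ring

lemma d0_act1 : act 1 !₂[3 - 2 * ph, -2 + ph, 4 - 2 * ph] = !₂[-1 + ph, -5 + 3 * ph, -1 + ph] := by
  have h00 : gcode 1 0 0 = 5 := by decide +kernel
  have h01 : gcode 1 0 1 = 4 := by decide +kernel
  have h02 : gcode 1 0 2 = 1 := by decide +kernel
  have h10 : gcode 1 1 0 = 3 := by decide +kernel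
  have h11 : gcode 1 1 1 = 1 := by decide +kernel
  have h12 : gcode 1 1 2 = 5 := by decide +kernel
  have h20 : gcode 1 2 0 = 2 := by decide +kernel
  have h21 : gcode 1 2 1 = 5 := by decide +kernel
  have h22 : gcode 1 2 2 = 3 := by decide +kernel
  apply ext3 <;>
    simp only [act, gent, h00, h01, h02, h10, h11, h12, h20, h21, h22, cvA, cvB] <;> simp <;>
    ring_nf <;> simp only [ph_sq] <;> ring

theorem chain_ax0 {InX : E → Prop} {z u : E} {lam S tt : ℝ} (G : Geo InX z u C5 S5 lam S tt)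
    (hx : |z 0 - 0.381966| ≤ 0.0038) (hy : z 1 ≤ 0.0025) (hu : ‖u - (Real.sqrt (ph + 2))⁻¹ • !₂[0, 1, ph]‖ ≤ 0.0045) : False := by
  have hg := ph_gt
  have hl := ph_lt
  have hv : IsVtx !₂[0, 1, ph] := ⟨1, 1, Or.inl rfl, Or.inl rfl, Or.inl (by simp)⟩
  have hv1 : IsVtx !₂[ph, 0, 1] := ⟨1, 1, Or.inl rfl, Or.inl rfl, Or.inr (Or.inr (by simp))⟩
  refine chain_gen G hv hx hy hu (i1 := 10) (k1 := 2) (v1 := !₂[ph, 0, 1]) (f1 := !₂[1, 1, 1])
    (v2 := !₂[0, 1, ph]) (k2 := 0) (y2 := !₂[3 - 2 * ph, -2 + ph, 4 - 2 * ph]) (p := !₂[0, -1, ph])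
    (q := !₂[-ph, 0, 1]) (i3 := 1) (k3 := 0) (y3 := !₂[2 - ph, 0, 7 - 4 * ph])
    (f3 := !₂[-1 + ph, 0, ph]) (by norm_num) (by norm_num) ?_ hv1 ?_ ?_ ?_ hv (by norm_num) ?_ ?_ ?_ ?_ ?_
    ?_ ?_ (by norm_num) (by norm_num) ?_ ?_ ?_ ?_ ?_ ?_
  · -- d1
    rw [d0_act10]
    have : dt (!₂[ph - 1, 1 - ph, ph - 1] - zc) (!₂[ph - 1, 1 - ph, ph - 1] - zc) = 20 - 12 * ph := by
      simp [dt, zc]
      ring_nf
      simp only [ph_sq]
      ring
    rw [this]; linarith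
  · -- e1
    rw [d0_act10]
    apply ext3 <;> simp [rvp, rv, dt, zc, C5_ph] <;> ring_nf <;>
      simp only [ph_sq, d0_ph3, d0_ph4, d0_ph5, d0_ph6, d0_ph7, d0_ph8] <;> ring
  · -- face
    left
    exact ⟨1, 1, 1, Or.inl rfl, Or.inl rfl, Or.inl rfl, rfl⟩
  · -- l1
    have : dt ((2 * ph - 3) • !₂[ph, 0, 1] - (0.206 : ℝ) • !₂[1, 1, 1])
        ((2 * ph - 3) • !₂[ph, 0, 1] - (0.206 : ℝ) • !₂[1, 1, 1]) = 4634827 / 250000 - 2853 / 250 * ph := by
      simp [dt]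
      ring_nf
      simp only [ph_sq, d0_ph3, d0_ph4]
      ring
    rw [this]; linarith
  · -- d2
    have : dt ((2 * ph - 3) • !₂[0, 1, ph] - zc) ((2 * ph - 3) • !₂[0, 1, ph] - zc) = 20 - 12 * ph := by
      simp [dt, zc]
      ring_nf
      simp only [ph_sq, d0_ph3, d0_ph4]
      ring
    rw [this]; linarith
  · -- e2
    apply ext3 <;> simp [rvp, rv, dt, zc, C5_ph] <;> ring_nf <;>
      simp only [ph_sq, d0_ph3, d0_ph4, d0_ph5, d0_ph6, d0_ph7, d0_ph8] <;> ring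
  · exact ⟨-1, 1, Or.inr rfl, Or.inl rfl, Or.inl (by simp)⟩
  · exact ⟨1, -1, Or.inl rfl, Or.inr rfl, Or.inr (Or.inr (by simp))⟩
  · simp [dt]
  · -- dp
    have : dt (!₂[3 - 2 * ph, -2 + ph, 4 - 2 * ph] - (2 * ph - 3) • !₂[0, -1, ph])
        (!₂[3 - 2 * ph, -2 + ph, 4 - 2 * ph] - (2 * ph - 3) • !₂[0, -1, ph]) = 52 - 32 * ph := by
      simp [dt]
      ring_nf
      simp only [ph_sq, d0_ph3, d0_ph4]
      ring
    rw [this]; linarith
  · -- dq
    have : dt (!₂[3 - 2 * ph, -2 + ph, 4 - 2 * ph] - (2 * ph - 3) • !₂[-ph, 0, 1])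
        (!₂[3 - 2 * ph, -2 + ph, 4 - 2 * ph] - (2 * ph - 3) • !₂[-ph, 0, 1]) = 104 - 64 * ph := by
      simp [dt]
      ring_nf
      simp only [ph_sq, d0_ph3, d0_ph4]
      ring
    rw [this]; linarith
  · -- d3
    rw [d0_act1]
    have : dt (!₂[-1 + ph, -5 + 3 * ph, -1 + ph] - zc) (!₂[-1 + ph, -5 + 3 * ph, -1 + ph] - zc)
        = 52 - 32 * ph := by
      simp [dt, zc]
      ring_nf
      simp only [ph_sq, d0_ph3, d0_ph4]
      ring
    rw [this]; linarith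
  · -- e3
    rw [d0_act1]
    apply ext3 <;> simp [rvp, rv, dt, zc, C5_ph] <;> ring_nf <;>
      simp only [ph_sq, d0_ph3, d0_ph4, d0_ph5, d0_ph6, d0_ph7, d0_ph8] <;> ring
  · -- face
    right
    exact ⟨1, 1, Or.inl rfl, Or.inl rfl, Or.inl (by apply ext3 <;> simp; ring)⟩
  · -- l3
    have : dt (!₂[2 - ph, 0, 7 - 4 * ph] - (0.35 : ℝ) • !₂[-1 + ph, 0, ph])
        (!₂[2 - ph, 0, 7 - 4 * ph] - (0.35 : ℝ) • !₂[-1 + ph, 0, ph]) = 30107 / 400 - 93 / 2 * ph := by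
      simp [dt]
      ring_nf
      simp only [ph_sq, d0_ph3, d0_ph4]
      ring
    rw [this]; linarith
  · -- n3
    have : dt !₂[2 - ph, 0, 7 - 4 * ph] !₂[2 - ph, 0, 7 - 4 * ph] = 70 - 43 * ph := by
      simp [dt]
      ring_nf
      simp only [ph_sq, d0_ph3, d0_ph4]
      ring
    rw [this]; linarith
  · -- off
    rintro w ⟨σ, τ, hσ, hτ, hw⟩
    rcases hσ with rfl | rfl <;> rcases hτ with rfl | rfl <;> rcases hw with rfl | rfl | rfl <;>
      simp [dt] <;> ring_nf <;> simp only [ph_sq, d0_ph3, d0_ph4] <;> linarith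

end Pool.Agent.H304.K

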