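import Pool.Agent.helper304_full.GeoDefs
import Pool.Agent.helper304_full.C9

set_option autoImplicit false

set_option maxRecDepth 100000
set_option exponentiation.threshold 100000

namespace Pool.Agent.H304

end Pool.Agent.H304

namespace Pool.Agent.H304.K

lemma d1_g100 : gent 1 0 0 = (ph - 1) / 2 := by
  have h : gcode 1 0 0 = 5 := by decide +kernel
  unfold gent; rw [h]; simp [cvA, cvB]; ring

lemma d1_g101 : gent 1 0 1 = - ph / 2 := by
  have h : gcode 1 0 1 = 4 := by decide +kernel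
  unfold gent; rw [h]; simp [cvA, cvB]

lemma d1_g102 : gent 1 0 2 = 1 / 2 := by
  have h : gcode 1 0 2 = 1 := by decide +kernel
  unfold gent; rw [h]; simp [cvA, cvB]

lemma d1_g110 : gent 1 1 0 = ph / 2 := by
  have h : gcode 1 1 0 = 3 := by decide +kernel
  unfold gent; rw [h]; simp [cvA, cvB]

lemma d1_g111 : gent 1 1 1 = 1 / 2 := by
  have h : gcode 1 1 1 = 1 := by decide +kernel
  unfold gent; rw [h]; simp [cvA, cvB]

lemma d1_g112 : gent 1 1 2 = (ph - 1) / 2 := by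
  have h : gcode 1 1 2 = 5 := by decide +kernel
  unfold gent; rw [h]; simp [cvA, cvB]; ring

lemma d1_g120 : gent 1 2 0 = - 1 / 2 := by
  have h : gcode 1 2 0 = 2 := by decide +kernel
  unfold gent; rw [h]; simp [cvA, cvB]

lemma d1_g121 : gent 1 2 1 = (ph - 1) / 2 := by
  have h : gcode 1 2 1 = 5 := by decide +kernel
  unfold gent; rw [h]; simp [cvA, cvB]; ring

lemma d1_g122 : gent 1 2 2 = ph / 2 := by
  have h : gcode 1 2 2 = 3 := by decide +kernel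
  unfold gent; rw [h]; simp [cvA, cvB]

lemma d1_g800 : gent 8 0 0 = - 1 / 2 := by
  have h : gcode 8 0 0 = 2 := by decide +kernel
  unfold gent; rw [h]; simp [cvA, cvB]

lemma d1_g801 : gent 8 0 1 = (ph - 1) / 2 := by
  have h : gcode 8 0 1 = 5 := by decide +kernel
  unfold gent; rw [h]; simp [cvA, cvB]; ring

lemma d1_g802 : gent 8 0 2 = ph / 2 := by
  have h : gcode 8 0 2 = 3 := by decide +kernel
  unfold gent; rw [h]; simp [cvA, cvB]

lemma d1_g810 : gent 8 1 0 = (ph - 1) / 2 := by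
  have h : gcode 8 1 0 = 5 := by decide +kernel
  unfold gent; rw [h]; simp [cvA, cvB]; ring

lemma d1_g811 : gent 8 1 1 = - ph / 2 := by
  have h : gcode 8 1 1 = 4 := by decide +kernel
  unfold gent; rw [h]; simp [cvA, cvB]

lemma d1_g812 : gent 8 1 2 = 1 / 2 := by
  have h : gcode 8 1 2 = 1 := by decide +kernel
  unfold gent; rw [h]; simp [cvA, cvB]

lemma d1_g820 : gent 8 2 0 = ph / 2 := by
  have h : gcode 8 2 0 = 3 := by decide +kernel
  unfold gent; rw [h]; simp [cvA, cvB]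

lemma d1_g821 : gent 8 2 1 = 1 / 2 := by
  have h : gcode 8 2 1 = 1 := by decide +kernel
  unfold gent; rw [h]; simp [cvA, cvB]

lemma d1_g822 : gent 8 2 2 = (ph - 1) / 2 := by
  have h : gcode 8 2 2 = 5 := by decide +kernel
  unfold gent; rw [h]; simp [cvA, cvB]; ring

lemma d1_act1 : act 1 zc = !₂[ph - 1, ph - 1, ph - 1] := by
  have h := ph_sq
  apply ext3
  · simp [act, zc, d1_g100, d1_g101, d1_g102]
    linear_combination (-1 / 2) * h
  · simp [act, zc, d1_g110, d1_g111, d1_g112]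
    linear_combination (-1 / 2) * h
  · simp [act, zc, d1_g120, d1_g121, d1_g122]
    ring

lemma d1_act8 : act 8 (!₂[4 - 2 * ph, -3 + 2 * ph, 2 - ph]) = !₂[0, 2 * ph - 3, 3 * ph - 4] := by
  have h := ph_sq
  apply ext3
  · simp [act, d1_g800, d1_g801, d1_g802]
    linear_combination (1 / 2) * h
  · simp [act, d1_g810, d1_g811, d1_g812]
    linear_combination (-2) * h
  · simp [act, d1_g820, d1_g821, d1_g822]
    linear_combination (-3 / 2) * h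

lemma d1_p3 : ph ^ 3 = 2 * ph + 1 := by linear_combination (ph + 1) * ph_sq

lemma d1_p4 : ph ^ 4 = 3 * ph + 2 := by linear_combination (ph ^ 2 + ph + 2) * ph_sq

lemma d1_p5 : ph ^ 5 = 5 * ph + 3 := by linear_combination (ph ^ 3 + ph ^ 2 + 2 * ph + 3) * ph_sq

lemma d1_p6 : ph ^ 6 = 8 * ph + 5 := by
  linear_combination (ph ^ 4 + ph ^ 3 + 2 * ph ^ 2 + 3 * ph + 5) * ph_sq

lemma d1_p7 : ph ^ 7 = 13 * ph + 8 := by
  linear_combination (ph ^ 5 + ph ^ 4 + 2 * ph ^ 3 + 3 * ph ^ 2 + 5 * ph + 8) * ph_sq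

lemma d1_p8 : ph ^ 8 = 21 * ph + 13 := by
  linear_combination (ph ^ 6 + ph ^ 5 + 2 * ph ^ 4 + 3 * ph ^ 3 + 5 * ph ^ 2 + 8 * ph + 13) * ph_sq

lemma d1_e1 : zc + rvp !₂[0, -1, ph] 2 (act 1 zc - zc) = (2 * ph - 3) • !₂[0, 1, ph] := by
  rw [d1_act1]
  apply ext3 <;> simp [rvp, rv, dt, zc, C5_ph] <;> ring_nf <;>
    simp only [ph_sq, d1_p3, d1_p4, d1_p5, d1_p6, d1_p7, d1_p8] <;> ring

lemma d1_e2 : zc + rvp !₂[0, -1, ph] 2 ((2 * ph - 3) • !₂[0, 1, ph] - zc) =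
    !₂[4 - 2 * ph, -3 + 2 * ph, 2 - ph] := by
  apply ext3 <;> simp [rvp, rv, dt, zc, C5_ph] <;> ring_nf <;>
    simp only [ph_sq, d1_p3, d1_p4, d1_p5, d1_p6, d1_p7, d1_p8] <;> ring

lemma d1_e3 : zc + rvp !₂[0, -1, ph] 0 (act 8 (!₂[4 - 2 * ph, -3 + 2 * ph, 2 - ph]) - zc) =
    !₂[5 - 3 * ph, -5 + 3 * ph, -1 + ph] := by
  rw [d1_act8]
  apply ext3 <;> simp [rvp, rv, dt, zc, C5_ph] <;> ring_nf <;>
    simp only [ph_sq, d1_p3, d1_p4, d1_p5, d1_p6, d1_p7, d1_p8] <;> ring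

lemma d1_off (w : E) (hw : IsVtx w) : 0.222 ≤ dt (cr w (!₂[5 - 3 * ph, -5 + 3 * ph, -1 + ph]))
    (cr w (!₂[5 - 3 * ph, -5 + 3 * ph, -1 + ph])) := by
  have h1 := ph_gt
  have h2 := ph_lt
  obtain ⟨σ, τ, hσ, hτ, h | h | h⟩ := hw <;> rcases hσ with rfl | rfl <;> rcases hτ with rfl | rfl <;>
    rw [h] <;> simp [dt] <;> ring_nf <;>
    simp only [ph_sq, d1_p3, d1_p4, d1_p5, d1_p6, d1_p7, d1_p8] <;> ring_nf <;> linarith

theorem chain_ax1 {InX : E → Prop} {z u : E} {lam S tt : ℝ} (G : Geo InX z u C5 S5 lam S tt)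
    (hx : |z 0 - 0.381966| ≤ 0.0038) (hy : z 1 ≤ 0.0025) (hu : ‖u - (Real.sqrt (ph + 2))⁻¹ • !₂[0, -1, ph]‖ ≤ 0.0045) : False := by
  have h1 := ph_gt
  have h2 := ph_lt
  refine chain_gen (v := !₂[0, -1, ph]) (v1 := !₂[0, 1, ph]) (v2 := !₂[0, 1, ph]) (p := !₂[ph, 0, 1]) (q := !₂[1, ph, 0])
    (f1 := !₂[1, 1, 1]) (f3 := !₂[-1 + ph, 0, ph]) (y2 := !₂[4 - 2 * ph, -3 + 2 * ph, 2 - ph])
    (y3 := !₂[5 - 3 * ph, -5 + 3 * ph, -1 + ph]) (i1 := 1) (i3 := 8) (k1 := 2) (k2 := 2) (k3 := 0)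
    G ?_ hx hy hu (by norm_num) (by norm_num) ?_ ?_ d1_e1 ?_ ?_ ?_ (by norm_num) ?_ d1_e2 ?_ ?_ ?_ ?_ ?_
    (by norm_num) (by norm_num) ?_ d1_e3 ?_ ?_ ?_ d1_off
  · exact ⟨-1, 1, Or.inr rfl, Or.inl rfl, Or.inl (by simp)⟩
  · rw [d1_act1]
    simp [dt, zc]
    ring_nf
    simp only [ph_sq]
    linarith
  · exact ⟨1, 1, Or.inl rfl, Or.inl rfl, Or.inl (by simp)⟩
  · exact Or.inl ⟨1, 1, 1, Or.inl rfl, Or.inl rfl, Or.inl rfl, rfl⟩
  · simp [dt]
    ring_nf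
    simp only [ph_sq, d1_p3, d1_p4]
    linarith
  · exact ⟨1, 1, Or.inl rfl, Or.inl rfl, Or.inl (by simp)⟩
  · simp [dt, zc]
    ring_nf
    simp only [ph_sq, d1_p3, d1_p4]
    linarith
  · exact ⟨1, 1, Or.inl rfl, Or.inl rfl, Or.inr (Or.inr (by simp))⟩
  · exact ⟨1, 1, Or.inl rfl, Or.inl rfl, Or.inr (Or.inl (by simp))⟩
  · simp [dt]
  · simp [dt]
    ring_nf
    simp only [ph_sq, d1_p3, d1_p4]
    linarith
  · simp [dt]
    ring_nf
    simp only [ph_sq, d1_p3, d1_p4]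
    linarith
  · rw [d1_act8]
    simp [dt, zc]
    ring_nf
    simp only [ph_sq, d1_p3, d1_p4]
    linarith
  · exact Or.inr ⟨1, 1, Or.inl rfl, Or.inl rfl, Or.inl (by simp; ring)⟩
  · simp [dt]
    ring_nf
    simp only [ph_sq, d1_p3, d1_p4]
    linarith
  · simp [dt]
    ring_nf
    simp only [ph_sq, d1_p3, d1_p4]
    linarith

end Pool.Agent.H304.K

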