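import Pool.Agent.helper304_full.GeoDefs
import Pool.Agent.helper304_full.C9

set_option autoImplicit false

set_option maxRecDepth 100000
set_option exponentiation.threshold 100000

namespace Pool.Agent.H304

end Pool.Agent.H304

namespace Pool.Agent.H304.K

lemma d2_ph3 : ph ^ 3 = 2 * ph + 1 := by
  have h := ph_sq
  linear_combination (ph + 1) * h

lemma d2_ph4 : ph ^ 4 = 3 * ph + 2 := by
  have h := ph_sq
  linear_combination (ph ^ 2 + ph + 2) * h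

lemma d2_ph5 : ph ^ 5 = 5 * ph + 3 := by
  have h := d2_ph4
  have h2 := ph_sq
  linear_combination ph * h + 3 * h2

lemma d2_ph6 : ph ^ 6 = 8 * ph + 5 := by
  have h := d2_ph5
  have h2 := ph_sq
  linear_combination ph * h + 5 * h2

lemma d2_ph7 : ph ^ 7 = 13 * ph + 8 := by
  have h := d2_ph6
  have h2 := ph_sq
  linear_combination ph * h + 8 * h2

lemma d2_ph8 : ph ^ 8 = 21 * ph + 13 := by
  have h := d2_ph7
  have h2 := ph_sq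
  linear_combination ph * h + 13 * h2

lemma d2_g1 : gcode 1 0 0 = 5 ∧ gcode 1 0 1 = 4 ∧ gcode 1 0 2 = 1 ∧ gcode 1 1 0 = 3 ∧ gcode 1 1 1 = 1 ∧
    gcode 1 1 2 = 5 ∧ gcode 1 2 0 = 2 ∧ gcode 1 2 1 = 5 ∧ gcode 1 2 2 = 3 := by
  decide +kernel

lemma d2_g2 : gcode 2 0 0 = 5 ∧ gcode 2 0 1 = 4 ∧ gcode 2 0 2 = 2 ∧ gcode 2 1 0 = 3 ∧ gcode 2 1 1 = 1 ∧
    gcode 2 1 2 = 6 ∧ gcode 2 2 0 = 1 ∧ gcode 2 2 1 = 6 ∧ gcode 2 2 2 = 3 := by
  decide +kernel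

lemma d2_act1 (v : E) : act 1 v = !₂[(-1 + ph) / 2 * v 0 + (-ph) / 2 * v 1 + 1 / 2 * v 2,
    ph / 2 * v 0 + 1 / 2 * v 1 + (-1 + ph) / 2 * v 2, -1 / 2 * v 0 + (-1 + ph) / 2 * v 1 + ph / 2 * v 2] := by
  obtain ⟨h1, h2, h3, h4, h5, h6, h7, h8, h9⟩ := d2_g1
  simp only [act, gent, h1, h2, h3, h4, h5, h6, h7, h8, h9, cvA, cvB]
  apply ext3 <;> simp

lemma d2_act2 (v : E) : act 2 v = !₂[(-1 + ph) / 2 * v 0 + (-ph) / 2 * v 1 + -1 / 2 * v 2,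
    ph / 2 * v 0 + 1 / 2 * v 1 + (1 - ph) / 2 * v 2, 1 / 2 * v 0 + (1 - ph) / 2 * v 1 + ph / 2 * v 2] := by
  obtain ⟨h1, h2, h3, h4, h5, h6, h7, h8, h9⟩ := d2_g2
  simp only [act, gent, h1, h2, h3, h4, h5, h6, h7, h8, h9, cvA, cvB]
  apply ext3 <;> simp <;> first | ring1 | (left; ring1) | (ring_nf; simp)

lemma d2_a2zc : act 2 zc = !₂[-2 + ph, 0, 1] := by
  rw [d2_act2]
  have h := ph_sq
  apply ext3 <;> simp [zc]
  · linear_combination (-1 / 2) * h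
  · linear_combination (-1 / 2) * h
  · ring

lemma d2_a1y2 : act 1 (!₂[3 - 2 * ph, 2 - ph, 4 - 2 * ph] : E) = !₂[0, -3 + 2 * ph, -4 + 3 * ph] := by
  rw [d2_act1]
  have h := ph_sq
  apply ext3 <;> simp
  · linear_combination (-1 / 2) * h
  · linear_combination (-2) * h
  · linear_combination (-3 / 2) * h

theorem chain_ax2 {InX : E → Prop} {z u : E} {lam S tt : ℝ} (G : Geo InX z u C5 S5 lam S tt)
    (hx : |z 0 - 0.381966| ≤ 0.0038) (hy : z 1 ≤ 0.0025) (hu : ‖u - (Real.sqrt (ph + 2))⁻¹ • !₂[ph, 0, 1]‖ ≤ 0.0045) : False := by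
  have h2 := ph_sq
  have hg := ph_gt
  have hl := ph_lt
  refine chain_gen G (v := !₂[ph, 0, 1]) (v1 := !₂[0, -1, ph]) (v2 := !₂[0, 1, ph]) (p := !₂[0, 1, ph])
    (q := !₂[-ph, 0, 1]) (f1 := !₂[1, -1, 1]) (f3 := !₂[-1 + ph, 0, ph])
    (y2 := !₂[3 - 2 * ph, 2 - ph, 4 - 2 * ph]) (y3 := !₂[5 - 3 * ph, -5 + 3 * ph, -1 + ph])
    (i1 := 2) (i3 := 1) (k1 := 2) (k2 := 0) (k3 := 3) ?_ hx hy hu (by norm_num) (by norm_num) ?_ ?_
    ?_ ?_ ?_ ?_ (by norm_num) ?_ ?_ ?_ ?_ ?_ ?_ ?_ (by norm_num) (by norm_num) ?_ ?_ ?_ ?_ ?_ ?_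
  · exact ⟨1, 1, Or.inl rfl, Or.inl rfl, Or.inr (Or.inr (by simp))⟩
  · -- d1
    rw [d2_a2zc]
    simp [dt, zc]
    nlinarith
  · exact ⟨-1, 1, Or.inr rfl, Or.inl rfl, Or.inl (by simp)⟩
  · -- e1
    rw [d2_a2zc]
    apply ext3 <;> simp [rvp, rv, dt, zc, C5_ph] <;> ring_nf <;>
      simp only [ph_sq, d2_ph3, d2_ph4, d2_ph5, d2_ph6, d2_ph7, d2_ph8] <;> ring
  · exact Or.inl ⟨1, -1, 1, Or.inl rfl, Or.inr rfl, Or.inl rfl, rfl⟩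
  · simp [dt]
    ring_nf
    simp only [ph_sq, d2_ph3, d2_ph4]
    linarith
  · exact ⟨1, 1, Or.inl rfl, Or.inl rfl, Or.inl (by simp)⟩
  · simp [dt, zc]
    ring_nf
    simp only [ph_sq, d2_ph3, d2_ph4]
    linarith
  · apply ext3 <;> simp [rvp, rv, dt, zc, C5_ph] <;> ring_nf <;>
      simp only [ph_sq, d2_ph3, d2_ph4, d2_ph5, d2_ph6, d2_ph7, d2_ph8] <;> ring
  · exact ⟨1, 1, Or.inl rfl, Or.inl rfl, Or.inl (by simp)⟩
  · exact ⟨1, -1, Or.inl rfl, Or.inr rfl, Or.inr (Or.inr (by simp))⟩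
  · simp [dt]
  · simp [dt]
    ring_nf
    simp only [ph_sq, d2_ph3, d2_ph4]
    linarith
  · simp [dt]
    ring_nf
    simp only [ph_sq, d2_ph3, d2_ph4]
    linarith
  · rw [d2_a1y2]
    simp [dt, zc]
    ring_nf
    simp only [ph_sq, d2_ph3, d2_ph4]
    linarith
  · rw [d2_a1y2]
    apply ext3 <;> simp [rvp, rv, dt, zc, C5_ph] <;> ring_nf <;>
      simp only [ph_sq, d2_ph3, d2_ph4, d2_ph5, d2_ph6, d2_ph7, d2_ph8] <;> ring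
  · exact Or.inr ⟨1, 1, Or.inl rfl, Or.inl rfl, Or.inl (by apply ext3 <;> simp; ring)⟩
  · simp [dt]
    ring_nf
    simp only [ph_sq, d2_ph3, d2_ph4]
    linarith
  · simp [dt]
    ring_nf
    simp only [ph_sq, d2_ph3, d2_ph4]
    linarith
  · rintro w ⟨σ, τ, hs, ht, h | h | h⟩ <;> rcases hs with rfl | rfl <;> rcases ht with rfl | rfl <;> rw [h] <;>
      simp [dt] <;> ring_nf <;> simp only [ph_sq, d2_ph3, d2_ph4, d2_ph5, d2_ph6, d2_ph7, d2_ph8] <;> linarith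

end Pool.Agent.H304.K

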