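import Pool.Agent.helper304_full.GeoDefs
import Pool.Agent.helper304_full.C9

set_option autoImplicit false

set_option maxRecDepth 100000
set_option exponentiation.threshold 100000

namespace Pool.Agent.H304

end Pool.Agent.H304

namespace Pool.Agent.H304.K

lemma d3_p2 : ph ^ 2 = ph + 1 := ph_sq

lemma d3_p3 : ph ^ 3 = 2 * ph + 1 := by linear_combination (ph + 1) * ph_sq

lemma d3_p4 : ph ^ 4 = 3 * ph + 2 := by linear_combination (ph ^ 2 + ph + 2) * ph_sq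

lemma d3_p5 : ph ^ 5 = 5 * ph + 3 := by linear_combination (ph ^ 3 + ph ^ 2 + 2 * ph + 3) * ph_sq

lemma d3_p6 : ph ^ 6 = 8 * ph + 5 := by
  linear_combination (ph ^ 4 + ph ^ 3 + 2 * ph ^ 2 + 3 * ph + 5) * ph_sq

lemma d3_p7 : ph ^ 7 = 13 * ph + 8 := by
  linear_combination (ph ^ 5 + ph ^ 4 + 2 * ph ^ 3 + 3 * ph ^ 2 + 5 * ph + 8) * ph_sq

lemma d3_p8 : ph ^ 8 = 21 * ph + 13 := by
  linear_combination (ph ^ 6 + ph ^ 5 + 2 * ph ^ 4 + 3 * ph ^ 3 + 5 * ph ^ 2 + 8 * ph + 13) * ph_sq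

lemma d3_act1 : act 1 zc = !₂[-1 + ph, -1 + ph, -1 + ph] := by
  have h00 : gcode 1 0 0 = 5 := by decide +kernel
  have h01 : gcode 1 0 1 = 4 := by decide +kernel
  have h02 : gcode 1 0 2 = 1 := by decide +kernel
  have h10 : gcode 1 1 0 = 3 := by decide +kernel
  have h11 : gcode 1 1 1 = 1 := by decide +kernel
  have h12 : gcode 1 1 2 = 5 := by decide +kernel
  have h20 : gcode 1 2 0 = 2 := by decide +kernel
  have h21 : gcode 1 2 1 = 5 := by decide +kernel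
  have h22 : gcode 1 2 2 = 3 := by decide +kernel
  apply ext3 <;> simp [act, gent, h00, h01, h02, h10, h11, h12, h20, h21, h22, cvA, cvB, zc] <;>
    ring_nf <;> simp only [d3_p2] <;> ring

lemma d3_act2 : act 2 !₂[5 - 3 * ph, 1 - ph, -1 + ph] = !₂[-3 + 2 * ph, -2 + ph, 4 - 2 * ph] := by
  have h00 : gcode 2 0 0 = 5 := by decide +kernel
  have h01 : gcode 2 0 1 = 4 := by decide +kernel
  have h02 : gcode 2 0 2 = 2 := by decide +kernel
  have h10 : gcode 2 1 0 = 3 := by decide +kernel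
  have h11 : gcode 2 1 1 = 1 := by decide +kernel
  have h12 : gcode 2 1 2 = 6 := by decide +kernel
  have h20 : gcode 2 2 0 = 1 := by decide +kernel
  have h21 : gcode 2 2 1 = 6 := by decide +kernel
  have h22 : gcode 2 2 2 = 3 := by decide +kernel
  apply ext3 <;> simp [act, gent, h00, h01, h02, h10, h11, h12, h20, h21, h22, cvA, cvB] <;>
    ring_nf <;> simp only [d3_p2] <;> ring

theorem chain_ax3 {InX : E → Prop} {z u : E} {lam S tt : ℝ} (G : Geo InX z u C5 S5 lam S tt)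
    (hx : |z 0 - 0.381966| ≤ 0.0038) (hy : z 1 ≤ 0.0025) (hu : ‖u - (Real.sqrt (ph + 2))⁻¹ • !₂[-ph, 0, 1]‖ ≤ 0.0045) : False := by
  have hg := ph_gt
  have hl := ph_lt
  refine chain_gen (v := !₂[-ph, 0, 1]) G ⟨1, -1, Or.inl rfl, Or.inr rfl, Or.inr (Or.inr (by simp))⟩
    hx hy hu (v1 := !₂[ph, 0, 1]) (v2 := !₂[0, 1, ph]) (p := !₂[0, -1, ph]) (q := !₂[1, -ph, 0])
    (f1 := !₂[1, 1, 1]) (f3 := !₂[-1 + ph, 0, ph]) (y2 := !₂[5 - 3 * ph, 1 - ph, -1 + ph])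
    (y3 := !₂[5 - 3 * ph, 5 - 3 * ph, -1 + ph]) (i1 := 1) (i3 := 2) (k1 := 0) (k2 := 0) (k3 := 1)
    (by norm_num) (by norm_num) ?_ ?_ ?_ ?_ ?_ ?_ (by norm_num) ?_ ?_ ?_ ?_ ?_ ?_ ?_ (by norm_num)
    (by norm_num) ?_ ?_ ?_ ?_ ?_ ?_
  · rw [d3_act1]
    simp only [dt, zc]
    simp
    ring_nf
    simp only [d3_p2, d3_p3, d3_p4]
    linarith
  · exact ⟨1, 1, Or.inl rfl, Or.inl rfl, Or.inr (Or.inr (by simp))⟩
  · rw [d3_act1]
    apply ext3 <;> simp [rvp, rv, dt, zc, C5_ph] <;> ring_nf <;>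
      simp only [d3_p2, d3_p3, d3_p4] <;> ring
  · exact Or.inl ⟨1, 1, 1, Or.inl rfl, Or.inl rfl, Or.inl rfl, rfl⟩
  · simp only [dt]
    simp
    ring_nf
    simp only [d3_p2, d3_p3, d3_p4]
    linarith
  · exact ⟨1, 1, Or.inl rfl, Or.inl rfl, Or.inl (by simp)⟩
  · simp only [dt, zc]
    simp
    ring_nf
    simp only [d3_p2, d3_p3, d3_p4]
    linarith
  · apply ext3 <;> simp [rvp, rv, dt, zc, C5_ph] <;> ring_nf <;>
      simp only [d3_p2, d3_p3, d3_p4] <;> ring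
  · exact ⟨-1, 1, Or.inr rfl, Or.inl rfl, Or.inl (by simp)⟩
  · exact ⟨1, -1, Or.inl rfl, Or.inr rfl, Or.inr (Or.inl (by simp))⟩
  · simp [dt]
  · simp only [dt]
    simp
    ring_nf
    simp only [d3_p2, d3_p3, d3_p4]
    linarith
  · simp only [dt]
    simp
    ring_nf
    simp only [d3_p2, d3_p3, d3_p4]
    linarith
  · rw [d3_act2]
    simp only [dt, zc]
    simp
    ring_nf
    simp only [d3_p2, d3_p3, d3_p4]
    linarith
  · rw [d3_act2]
    apply ext3 <;> simp [rvp, rv, dt, zc, C5_ph] <;> ring_nf <;>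
      simp only [d3_p2, d3_p3, d3_p4] <;> ring
  · refine Or.inr ⟨1, 1, Or.inl rfl, Or.inl rfl, Or.inl ?_⟩
    apply ext3 <;> simp <;> ring
  · simp only [dt]
    simp
    ring_nf
    simp only [d3_p2, d3_p3, d3_p4]
    linarith
  · simp only [dt]
    simp
    ring_nf
    simp only [d3_p2, d3_p3, d3_p4]
    linarith
  · rintro w ⟨σ, τ, hσ, hτ, h⟩
    rcases h with rfl | rfl | rfl <;> rcases hσ with rfl | rfl <;> rcases hτ with rfl | rfl <;>
      simp only [dt, cr_0, cr_1, cr_2] <;> simp <;> ring_nf <;>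
      simp only [d3_p2, d3_p3, d3_p4] <;> linarith

end Pool.Agent.H304.K

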