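import Pool.Agent.helper304_full.GeoDefs
import Pool.Agent.helper304_full.C9

set_option autoImplicit false

set_option maxRecDepth 100000
set_option exponentiation.threshold 100000

namespace Pool.Agent.H304

end Pool.Agent.H304

namespace Pool.Agent.H304.K

lemma d4_gent_2_0_0 : gent 2 0 0 = (-1 + ph) / 2 := by
  have h : gcode 2 0 0 = 5 := by decide +kernel
  simp only [gent, h, cvA, cvB]; push_cast; ring

lemma d4_gent_2_0_1 : gent 2 0 1 = - ph / 2 := by
  have h : gcode 2 0 1 = 4 := by decide +kernel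
  simp only [gent, h, cvA, cvB]; push_cast; ring

lemma d4_gent_2_0_2 : gent 2 0 2 = - 1 / 2 := by
  have h : gcode 2 0 2 = 2 := by decide +kernel
  simp only [gent, h, cvA, cvB]; push_cast; ring

lemma d4_gent_2_1_0 : gent 2 1 0 = ph / 2 := by
  have h : gcode 2 1 0 = 3 := by decide +kernel
  simp only [gent, h, cvA, cvB]; push_cast; ring

lemma d4_gent_2_1_1 : gent 2 1 1 = 1 / 2 := by
  have h : gcode 2 1 1 = 1 := by decide +kernel
  simp only [gent, h, cvA, cvB]; push_cast; ring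

lemma d4_gent_2_1_2 : gent 2 1 2 = (1 - ph) / 2 := by
  have h : gcode 2 1 2 = 6 := by decide +kernel
  simp only [gent, h, cvA, cvB]; push_cast; ring

lemma d4_gent_2_2_0 : gent 2 2 0 = 1 / 2 := by
  have h : gcode 2 2 0 = 1 := by decide +kernel
  simp only [gent, h, cvA, cvB]; push_cast; ring

lemma d4_gent_2_2_1 : gent 2 2 1 = (1 - ph) / 2 := by
  have h : gcode 2 2 1 = 6 := by decide +kernel
  simp only [gent, h, cvA, cvB]; push_cast; ring

lemma d4_gent_2_2_2 : gent 2 2 2 = ph / 2 := by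
  have h : gcode 2 2 2 = 3 := by decide +kernel
  simp only [gent, h, cvA, cvB]; push_cast; ring

lemma d4_gent_24_0_0 : gent 24 0 0 = 1 / 2 := by
  have h : gcode 24 0 0 = 1 := by decide +kernel
  simp only [gent, h, cvA, cvB]; push_cast; ring

lemma d4_gent_24_0_1 : gent 24 0 1 = (-1 + ph) / 2 := by
  have h : gcode 24 0 1 = 5 := by decide +kernel
  simp only [gent, h, cvA, cvB]; push_cast; ring

lemma d4_gent_24_0_2 : gent 24 0 2 = - ph / 2 := by
  have h : gcode 24 0 2 = 4 := by decide +kernel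
  simp only [gent, h, cvA, cvB]; push_cast; ring

lemma d4_gent_24_1_0 : gent 24 1 0 = (-1 + ph) / 2 := by
  have h : gcode 24 1 0 = 5 := by decide +kernel
  simp only [gent, h, cvA, cvB]; push_cast; ring

lemma d4_gent_24_1_1 : gent 24 1 1 = ph / 2 := by
  have h : gcode 24 1 1 = 3 := by decide +kernel
  simp only [gent, h, cvA, cvB]; push_cast; ring

lemma d4_gent_24_1_2 : gent 24 1 2 = 1 / 2 := by
  have h : gcode 24 1 2 = 1 := by decide +kernel
  simp only [gent, h, cvA, cvB]; push_cast; ring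

lemma d4_gent_24_2_0 : gent 24 2 0 = ph / 2 := by
  have h : gcode 24 2 0 = 3 := by decide +kernel
  simp only [gent, h, cvA, cvB]; push_cast; ring

lemma d4_gent_24_2_1 : gent 24 2 1 = - 1 / 2 := by
  have h : gcode 24 2 1 = 2 := by decide +kernel
  simp only [gent, h, cvA, cvB]; push_cast; ring

lemma d4_gent_24_2_2 : gent 24 2 2 = (-1 + ph) / 2 := by
  have h : gcode 24 2 2 = 5 := by decide +kernel
  simp only [gent, h, cvA, cvB]; push_cast; ring

lemma d4_act2 : act 2 zc = !₂[-2 + ph, 0, 1] := by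
  have hp := ph_sq
  apply ext3
  · simp [act, zc, d4_gent_2_0_0, d4_gent_2_0_1, d4_gent_2_0_2]
    linear_combination (-1/2) * hp
  · simp [act, zc, d4_gent_2_1_0, d4_gent_2_1_1, d4_gent_2_1_2]
    linear_combination (-1/2) * hp
  · simp [act, zc, d4_gent_2_2_0, d4_gent_2_2_1, d4_gent_2_2_2]
    ring

lemma d4_act24 : act 24 !₂[4 - 2 * ph, 3 - 2 * ph, 2 - ph] = !₂[0, -3 + 2 * ph, -4 + 3 * ph] := by
  have hp := ph_sq
  apply ext3
  · simp [act, d4_gent_24_0_0, d4_gent_24_0_1, d4_gent_24_0_2]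
    linear_combination (-1/2) * hp
  · simp [act, d4_gent_24_1_0, d4_gent_24_1_1, d4_gent_24_1_2]
    linear_combination (-2) * hp
  · simp [act, d4_gent_24_2_0, d4_gent_24_2_1, d4_gent_24_2_2]
    linear_combination (-3/2) * hp

lemma d4_off (w : E) (hw : IsVtx w) :
    0.222 ≤ dt (cr w !₂[2 - ph, 0, 7 - 4 * ph]) (cr w !₂[2 - ph, 0, 7 - 4 * ph]) := by
  have hp := ph_sq
  have h1 := ph_gt
  have h2 := ph_lt
  have h3 : ph ^ 3 = 2 * ph + 1 := by linear_combination (ph + 1) * hp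
  have h4 : ph ^ 4 = 3 * ph + 2 := by linear_combination (ph ^ 2 + ph + 2) * hp
  obtain ⟨σ, τ, hσ, hτ, h⟩ := hw
  rcases hσ with rfl | rfl <;> rcases hτ with rfl | rfl <;> rcases h with rfl | rfl | rfl <;>
    simp [dt] <;> ring_nf <;> simp only [hp, h3, h4] <;> norm_num <;> linarith

theorem chain_ax4 {InX : E → Prop} {z u : E} {lam S tt : ℝ} (G : Geo InX z u C5 S5 lam S tt)
    (hx : |z 0 - 0.381966| ≤ 0.0038) (hy : z 1 ≤ 0.0025) (hu : ‖u - (Real.sqrt (ph + 2))⁻¹ • !₂[1, ph, 0]‖ ≤ 0.0045) : False := by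
  have hp := ph_sq
  have h1 := ph_gt
  have h2 := ph_lt
  have h3 : ph ^ 3 = 2 * ph + 1 := by linear_combination (ph + 1) * hp
  have h4 : ph ^ 4 = 3 * ph + 2 := by linear_combination (ph ^ 2 + ph + 2) * hp
  refine chain_gen (v := !₂[1, ph, 0]) (v1 := !₂[0, -1, ph]) (v2 := !₂[0, 1, ph]) (p := !₂[ph, 0, 1]) (q := !₂[1, -ph, 0])
    (f1 := !₂[1, -1, 1]) (f3 := !₂[-1 + ph, 0, ph]) (y2 := !₂[4 - 2 * ph, 3 - 2 * ph, 2 - ph])
    (y3 := !₂[2 - ph, 0, 7 - 4 * ph]) (i1 := 2) (i3 := 24) (k1 := 1) (k2 := 1) (k3 := 1)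
    G ?_ hx hy hu (by norm_num) (by norm_num) ?_ ?_ ?_ ?_ ?_ ?_ (by norm_num) ?_ ?_ ?_ ?_ ?_ ?_ ?_ (by norm_num) (by norm_num)
    ?_ ?_ ?_ ?_ ?_ d4_off
  · exact ⟨1, 1, Or.inl rfl, Or.inl rfl, Or.inr (Or.inl (by simp))⟩
  · rw [d4_act2]
    simp [dt, zc]
    ring_nf
    simp only [hp]
    norm_num
    linarith
  · exact ⟨-1, 1, Or.inr rfl, Or.inl rfl, Or.inl (by simp)⟩
  · rw [d4_act2]
    apply ext3
    · simp [rvp, rv, dt, zc, C5_ph]; ring_nf
    · simp [rvp, rv, dt, zc, C5_ph]; ring_nf; simp only [hp, h3, h4]; ring_nf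
    · simp [rvp, rv, dt, zc, C5_ph]; ring_nf; simp only [hp, h3, h4]; ring_nf
  · exact Or.inl ⟨1, -1, 1, Or.inl rfl, Or.inr rfl, Or.inl rfl, rfl⟩
  · simp [dt]; ring_nf; simp only [hp, h3, h4]; norm_num; linarith
  · exact ⟨1, 1, Or.inl rfl, Or.inl rfl, Or.inl (by simp)⟩
  · simp [dt, zc]; ring_nf; simp only [hp, h3, h4]; norm_num; linarith
  · apply ext3
    · simp [rvp, rv, dt, zc, C5_ph]; ring_nf; simp only [hp, h3, h4]; ring_nf
    · simp [rvp, rv, dt, zc, C5_ph]; ring_nf; simp only [hp, h3, h4]; ring_nf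
    · simp [rvp, rv, dt, zc, C5_ph]; ring_nf; simp only [hp, h3, h4]; ring_nf
  · exact ⟨1, 1, Or.inl rfl, Or.inl rfl, Or.inr (Or.inr (by simp))⟩
  · exact ⟨1, -1, Or.inl rfl, Or.inr rfl, Or.inr (Or.inl (by simp))⟩
  · simp [dt]
  · simp [dt]; ring_nf; simp only [hp, h3, h4]; norm_num; linarith
  · simp [dt]; ring_nf; simp only [hp, h3, h4]; norm_num; linarith
  · rw [d4_act24]
    simp [dt, zc]; ring_nf; simp only [hp, h3, h4]; norm_num; linarith
  · rw [d4_act24]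
    apply ext3
    · simp [rvp, rv, dt, zc, C5_ph]; ring_nf; simp only [hp, h3, h4]; ring_nf
    · simp [rvp, rv, dt, zc, C5_ph]; ring_nf; simp only [hp, h3, h4]; ring_nf
    · simp [rvp, rv, dt, zc, C5_ph]; ring_nf; simp only [hp, h3, h4]; ring_nf
  · exact Or.inr ⟨1, 1, Or.inl rfl, Or.inl rfl, Or.inl (by simp; ring)⟩
  · simp [dt]; ring_nf; simp only [hp, h3, h4]; norm_num; linarith
  · simp [dt]; ring_nf; simp only [hp, h3, h4]; norm_num; linarith

end Pool.Agent.H304.K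

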