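import Pool.Agent.helper304_full.GeoDefs
import Pool.Agent.helper304_full.C9

set_option autoImplicit false

set_option maxRecDepth 100000
set_option exponentiation.threshold 100000

namespace Pool.Agent.H304

end Pool.Agent.H304

namespace Pool.Agent.H304.K

set_option linter.unusedSimpArgs false

theorem d5_g1_0 : gent 1 0 0 = ((-1 : ℝ) + (1 : ℝ) * ph) / 2 := by
  have h : gcode 1 0 0 = 5 := by decide +kernel
  unfold gent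
  rw [h]
  norm_num [cvA, cvB]

theorem d5_g1_1 : gent 1 0 1 = ((0 : ℝ) + (-1 : ℝ) * ph) / 2 := by
  have h : gcode 1 0 1 = 4 := by decide +kernel
  unfold gent
  rw [h]
  norm_num [cvA, cvB]

theorem d5_g1_2 : gent 1 0 2 = ((1 : ℝ) + (0 : ℝ) * ph) / 2 := by
  have h : gcode 1 0 2 = 1 := by decide +kernel
  unfold gent
  rw [h]
  norm_num [cvA, cvB]

theorem d5_g1_3 : gent 1 1 0 = ((0 : ℝ) + (1 : ℝ) * ph) / 2 := by
  have h : gcode 1 1 0 = 3 := by decide +kernel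
  unfold gent
  rw [h]
  norm_num [cvA, cvB]

theorem d5_g1_4 : gent 1 1 1 = ((1 : ℝ) + (0 : ℝ) * ph) / 2 := by
  have h : gcode 1 1 1 = 1 := by decide +kernel
  unfold gent
  rw [h]
  norm_num [cvA, cvB]

theorem d5_g1_5 : gent 1 1 2 = ((-1 : ℝ) + (1 : ℝ) * ph) / 2 := by
  have h : gcode 1 1 2 = 5 := by decide +kernel
  unfold gent
  rw [h]
  norm_num [cvA, cvB]

theorem d5_g1_6 : gent 1 2 0 = ((-1 : ℝ) + (0 : ℝ) * ph) / 2 := by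
  have h : gcode 1 2 0 = 2 := by decide +kernel
  unfold gent
  rw [h]
  norm_num [cvA, cvB]

theorem d5_g1_7 : gent 1 2 1 = ((-1 : ℝ) + (1 : ℝ) * ph) / 2 := by
  have h : gcode 1 2 1 = 5 := by decide +kernel
  unfold gent
  rw [h]
  norm_num [cvA, cvB]

theorem d5_g1_8 : gent 1 2 2 = ((0 : ℝ) + (1 : ℝ) * ph) / 2 := by
  have h : gcode 1 2 2 = 3 := by decide +kernel
  unfold gent
  rw [h]
  norm_num [cvA, cvB]

theorem d5_act1 (v : E) : act 1 v = !₂[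
    (((-1 : ℝ) + (1 : ℝ) * ph) / 2) * v 0 + (((0 : ℝ) + (-1 : ℝ) * ph) / 2) * v 1 + (((1 : ℝ) + (0 : ℝ) * ph) / 2) * v 2,
    (((0 : ℝ) + (1 : ℝ) * ph) / 2) * v 0 + (((1 : ℝ) + (0 : ℝ) * ph) / 2) * v 1 + (((-1 : ℝ) + (1 : ℝ) * ph) / 2) * v 2,
    (((-1 : ℝ) + (0 : ℝ) * ph) / 2) * v 0 + (((-1 : ℝ) + (1 : ℝ) * ph) / 2) * v 1 + (((0 : ℝ) + (1 : ℝ) * ph) / 2) * v 2] := by
  unfold act
  rw [d5_g1_0, d5_g1_1, d5_g1_2, d5_g1_3, d5_g1_4, d5_g1_5, d5_g1_6, d5_g1_7, d5_g1_8]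

theorem d5_g23_0 : gent 23 0 0 = ((-1 : ℝ) + (1 : ℝ) * ph) / 2 := by
  have h : gcode 23 0 0 = 5 := by decide +kernel
  unfold gent
  rw [h]
  norm_num [cvA, cvB]

theorem d5_g23_1 : gent 23 0 1 = ((0 : ℝ) + (1 : ℝ) * ph) / 2 := by
  have h : gcode 23 0 1 = 3 := by decide +kernel
  unfold gent
  rw [h]
  norm_num [cvA, cvB]

theorem d5_g23_2 : gent 23 0 2 = ((1 : ℝ) + (0 : ℝ) * ph) / 2 := by
  have h : gcode 23 0 2 = 1 := by decide +kernel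
  unfold gent
  rw [h]
  norm_num [cvA, cvB]

theorem d5_g23_3 : gent 23 1 0 = ((0 : ℝ) + (-1 : ℝ) * ph) / 2 := by
  have h : gcode 23 1 0 = 4 := by decide +kernel
  unfold gent
  rw [h]
  norm_num [cvA, cvB]

theorem d5_g23_4 : gent 23 1 1 = ((1 : ℝ) + (0 : ℝ) * ph) / 2 := by
  have h : gcode 23 1 1 = 1 := by decide +kernel
  unfold gent
  rw [h]
  norm_num [cvA, cvB]

theorem d5_g23_5 : gent 23 1 2 = ((1 : ℝ) + (-1 : ℝ) * ph) / 2 := by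
  have h : gcode 23 1 2 = 6 := by decide +kernel
  unfold gent
  rw [h]
  norm_num [cvA, cvB]

theorem d5_g23_6 : gent 23 2 0 = ((-1 : ℝ) + (0 : ℝ) * ph) / 2 := by
  have h : gcode 23 2 0 = 2 := by decide +kernel
  unfold gent
  rw [h]
  norm_num [cvA, cvB]

theorem d5_g23_7 : gent 23 2 1 = ((1 : ℝ) + (-1 : ℝ) * ph) / 2 := by
  have h : gcode 23 2 1 = 6 := by decide +kernel
  unfold gent
  rw [h]
  norm_num [cvA, cvB]

theorem d5_g23_8 : gent 23 2 2 = ((0 : ℝ) + (1 : ℝ) * ph) / 2 := by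
  have h : gcode 23 2 2 = 3 := by decide +kernel
  unfold gent
  rw [h]
  norm_num [cvA, cvB]

theorem d5_act23 (v : E) : act 23 v = !₂[
    (((-1 : ℝ) + (1 : ℝ) * ph) / 2) * v 0 + (((0 : ℝ) + (1 : ℝ) * ph) / 2) * v 1 + (((1 : ℝ) + (0 : ℝ) * ph) / 2) * v 2,
    (((0 : ℝ) + (-1 : ℝ) * ph) / 2) * v 0 + (((1 : ℝ) + (0 : ℝ) * ph) / 2) * v 1 + (((1 : ℝ) + (-1 : ℝ) * ph) / 2) * v 2,
    (((-1 : ℝ) + (0 : ℝ) * ph) / 2) * v 0 + (((1 : ℝ) + (-1 : ℝ) * ph) / 2) * v 1 + (((0 : ℝ) + (1 : ℝ) * ph) / 2) * v 2] := by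
  unfold act
  rw [d5_g23_0, d5_g23_1, d5_g23_2, d5_g23_3, d5_g23_4, d5_g23_5, d5_g23_6, d5_g23_7, d5_g23_8]

theorem d5_a1 : act 1 zc = !₂[-1 + ph, -1 + ph, -1 + ph] := by
  rw [d5_act1]
  apply ext3
  · simp [zc]
    linear_combination (-1 / 2) * ph_sq
  · simp [zc]
    linear_combination (-1 / 2) * ph_sq
  · simp [zc]
    ring

theorem d5_a23 : act 23 (!₂[3 - 2 * ph, -2 + ph, 4 - 2 * ph] : E) =
    !₂[0, 3 - 2 * ph, -4 + 3 * ph] := by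
  rw [d5_act23]
  apply ext3
  · simp
    linear_combination (-1 / 2) * ph_sq
  · simp
    linear_combination (2) * ph_sq
  · simp
    linear_combination (-3 / 2) * ph_sq

/-- rotation formula in coordinates, for the axis `(-1, ph, 0)` -/
theorem d5_rv (t : ℝ) (w : E) : rv (!₂[-1, ph, 0] : E) t w = !₂[
    (ph - 1) / 2 * w 0 + t / 2 * (ph * w 2) - (2 - ph) / 2 * (-w 0 + ph * w 1),
    (ph - 1) / 2 * w 1 + t / 2 * w 2 + (2 - ph) / 2 * (-w 0 + ph * w 1) * ph,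
    (ph - 1) / 2 * w 2 + t / 2 * (- w 1 - ph * w 0)] := by
  apply ext3
  · simp [rv, dt, C5_ph]
    ring
  · simp [rv, dt, C5_ph]
  · simp [rv, dt, C5_ph]

theorem d5_e1 : zc + rvp (!₂[-1, ph, 0] : E) 0 (act 1 zc - zc) =
    (2 * ph - 3) • (!₂[0, 1, ph] : E) := by
  rw [d5_a1]
  simp only [rvp, if_true, d5_rv]
  apply ext3
  · simp [zc]
    linear_combination ((-1/2) + (1/2) * ph ^ 1) * ph_sq
  · simp [zc]
    linear_combination ((-5/2) + (2) * ph ^ 1 + (-1/2) * ph ^ 2) * ph_sq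
  · simp [zc]
    linear_combination (-5/2) * ph_sq

theorem d5_e2 : zc + rvp (!₂[-1, ph, 0] : E) 0 ((2 * ph - 3) • (!₂[ph, 0, 1] : E) - zc) =
    !₂[3 - 2 * ph, -2 + ph, 4 - 2 * ph] := by
  simp only [rvp, if_true, d5_rv]
  apply ext3
  · simp [zc]
    linear_combination (2) * ph_sq
  · simp [zc]
    linear_combination ((-2) * ph ^ 1 + (1) * ph ^ 2) * ph_sq
  · simp [zc]
    linear_combination ((1) + (-1) * ph ^ 1) * ph_sq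

theorem d5_e3 : zc + rvp (!₂[-1, ph, 0] : E) 1
    (act 23 (!₂[3 - 2 * ph, -2 + ph, 4 - 2 * ph] : E) - zc) = !₂[2 - ph, 0, 7 - 4 * ph] := by
  rw [d5_a23]
  have h : rvp (!₂[-1, ph, 0] : E) 1 = rv (!₂[-1, ph, 0] : E) (-1) := by
    funext w
    simp [rvp]
  rw [h, d5_rv]
  apply ext3
  · simp [zc]
    linear_combination ((1) + (-1) * ph ^ 1) * ph_sq
  · simp [zc]
    linear_combination ((-1) + (-2) * ph ^ 1 + (1) * ph ^ 2) * ph_sq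
  · simp [zc]
    linear_combination (2) * ph_sq

theorem d5_d1 : dt (act 1 zc - zc) (act 1 zc - zc) ≤ 0.5836 := by
  have hv : act 1 zc - zc = (!₂[(-3) + (2) * ph ^ 1, (-1) + (1) * ph ^ 1, (-2) + (1) * ph ^ 1] : E) := by
    rw [d5_a1]
    apply ext3 <;> simp [zc] <;> ring
  have h : dt (act 1 zc - zc) (act 1 zc - zc) = (20) + (-12) * ph := by
    rw [hv]
    simp only [dt, Matrix.cons_val_zero, Matrix.cons_val_one, Matrix.cons_val]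
    linear_combination ((6)) * ph_sq
  rw [h]
  have h1 := ph_gt
  have h2 := ph_lt
  norm_num at h1 h2 ⊢
  linarith

theorem d5_l1 : dt ((2 * ph - 3) • (!₂[0, 1, ph] : E) - (0.206 : ℝ) • (!₂[1, 1, 1] : E)) ((2 * ph - 3) • (!₂[0, 1, ph] : E) - (0.206 : ℝ) • (!₂[1, 1, 1] : E)) ≤ 0.0744 := by
  have hv : (2 * ph - 3) • (!₂[0, 1, ph] : E) - (0.206 : ℝ) • (!₂[1, 1, 1] : E) = (!₂[(-103/500), (-1603/500) + (2) * ph ^ 1, (-103/500) + (-3) * ph ^ 1 + (2) * ph ^ 2] : E) := by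
    apply ext3 <;> simp [zc] <;> ring
  have h : dt ((2 * ph - 3) • (!₂[0, 1, ph] : E) - (0.206 : ℝ) • (!₂[1, 1, 1] : E)) ((2 * ph - 3) • (!₂[0, 1, ph] : E) - (0.206 : ℝ) • (!₂[1, 1, 1] : E)) = (4634827/250000) + (-2853/250) * ph := by
    rw [hv]
    simp only [dt, Matrix.cons_val_zero, Matrix.cons_val_one, Matrix.cons_val]
    linear_combination ((1022/125) + (-8) * ph ^ 1 + (4) * ph ^ 2) * ph_sq
  rw [h]
  have h1 := ph_gt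
  have h2 := ph_lt
  norm_num at h1 h2 ⊢
  linarith

theorem d5_d2 : dt ((2 * ph - 3) • (!₂[ph, 0, 1] : E) - zc) ((2 * ph - 3) • (!₂[ph, 0, 1] : E) - zc) ≤ 0.5836 := by
  have hv : (2 * ph - 3) • (!₂[ph, 0, 1] : E) - zc = (!₂[(-2) + (-2) * ph ^ 1 + (2) * ph ^ 2, 0, (-4) + (2) * ph ^ 1] : E) := by
    apply ext3 <;> simp [zc] <;> ring
  have h : dt ((2 * ph - 3) • (!₂[ph, 0, 1] : E) - zc) ((2 * ph - 3) • (!₂[ph, 0, 1] : E) - zc) = (20) + (-12) * ph := by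
    rw [hv]
    simp only [dt, Matrix.cons_val_zero, Matrix.cons_val_one, Matrix.cons_val]
    linear_combination ((-4) * ph ^ 1 + (4) * ph ^ 2) * ph_sq
  rw [h]
  have h1 := ph_gt
  have h2 := ph_lt
  norm_num at h1 h2 ⊢
  linarith

theorem d5_dp : dt ((!₂[3 - 2 * ph, -2 + ph, 4 - 2 * ph] : E) - (2 * ph - 3) • (!₂[0, -1, ph] : E)) ((!₂[3 - 2 * ph, -2 + ph, 4 - 2 * ph] : E) - (2 * ph - 3) • (!₂[0, -1, ph] : E)) ≤ 0.446 := by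
  have hv : (!₂[3 - 2 * ph, -2 + ph, 4 - 2 * ph] : E) - (2 * ph - 3) • (!₂[0, -1, ph] : E) = (!₂[(3) + (-2) * ph ^ 1, (-5) + (3) * ph ^ 1, (4) + (1) * ph ^ 1 + (-2) * ph ^ 2] : E) := by
    apply ext3 <;> simp [zc] <;> ring
  have h : dt ((!₂[3 - 2 * ph, -2 + ph, 4 - 2 * ph] : E) - (2 * ph - 3) • (!₂[0, -1, ph] : E)) ((!₂[3 - 2 * ph, -2 + ph, 4 - 2 * ph] : E) - (2 * ph - 3) • (!₂[0, -1, ph] : E)) = (52) + (-32) * ph := by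
    rw [hv]
    simp only [dt, Matrix.cons_val_zero, Matrix.cons_val_one, Matrix.cons_val]
    linear_combination ((2) + (4) * ph ^ 2) * ph_sq
  rw [h]
  have h1 := ph_gt
  have h2 := ph_lt
  norm_num at h1 h2 ⊢
  linarith

theorem d5_dq : dt ((!₂[3 - 2 * ph, -2 + ph, 4 - 2 * ph] : E) - (2 * ph - 3) • (!₂[-ph, 0, 1] : E)) ((!₂[3 - 2 * ph, -2 + ph, 4 - 2 * ph] : E) - (2 * ph - 3) • (!₂[-ph, 0, 1] : E)) ≤ 0.446 := by
  have hv : (!₂[3 - 2 * ph, -2 + ph, 4 - 2 * ph] : E) - (2 * ph - 3) • (!₂[-ph, 0, 1] : E) = (!₂[(3) + (-5) * ph ^ 1 + (2) * ph ^ 2, (-2) + (1) * ph ^ 1, (7) + (-4) * ph ^ 1] : E) := by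
    apply ext3 <;> simp [zc] <;> ring
  have h : dt ((!₂[3 - 2 * ph, -2 + ph, 4 - 2 * ph] : E) - (2 * ph - 3) • (!₂[-ph, 0, 1] : E)) ((!₂[3 - 2 * ph, -2 + ph, 4 - 2 * ph] : E) - (2 * ph - 3) • (!₂[-ph, 0, 1] : E)) = (104) + (-64) * ph := by
    rw [hv]
    simp only [dt, Matrix.cons_val_zero, Matrix.cons_val_one, Matrix.cons_val]
    linear_combination ((42) + (-16) * ph ^ 1 + (4) * ph ^ 2) * ph_sq
  rw [h]
  have h1 := ph_gt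
  have h2 := ph_lt
  norm_num at h1 h2 ⊢
  linarith

theorem d5_d3 : dt (act 23 (!₂[3 - 2 * ph, -2 + ph, 4 - 2 * ph] : E) - zc) (act 23 (!₂[3 - 2 * ph, -2 + ph, 4 - 2 * ph] : E) - zc) ≤ 0.223 := by
  have hv : act 23 (!₂[3 - 2 * ph, -2 + ph, 4 - 2 * ph] : E) - zc = (!₂[(-2) + (1) * ph ^ 1, (3) + (-2) * ph ^ 1, (-5) + (3) * ph ^ 1] : E) := by
    rw [d5_a23]
    apply ext3 <;> simp [zc] <;> ring
  have h : dt (act 23 (!₂[3 - 2 * ph, -2 + ph, 4 - 2 * ph] : E) - zc) (act 23 (!₂[3 - 2 * ph, -2 + ph, 4 - 2 * ph] : E) - zc) = (52) + (-32) * ph := by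
    rw [hv]
    simp only [dt, Matrix.cons_val_zero, Matrix.cons_val_one, Matrix.cons_val]
    linear_combination ((14)) * ph_sq
  rw [h]
  have h1 := ph_gt
  have h2 := ph_lt
  norm_num at h1 h2 ⊢
  linarith

theorem d5_l3 : dt ((!₂[2 - ph, 0, 7 - 4 * ph] : E) - (0.35 : ℝ) • (!₂[-1 + ph, 0, ph] : E)) ((!₂[2 - ph, 0, 7 - 4 * ph] : E) - (0.35 : ℝ) • (!₂[-1 + ph, 0, ph] : E)) ≤ 0.029 := by
  have hv : (!₂[2 - ph, 0, 7 - 4 * ph] : E) - (0.35 : ℝ) • (!₂[-1 + ph, 0, ph] : E) = (!₂[(47/20) + (-27/20) * ph ^ 1, 0, (7) + (-87/20) * ph ^ 1] : E) := by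
    apply ext3 <;> simp [zc] <;> ring
  have h : dt ((!₂[2 - ph, 0, 7 - 4 * ph] : E) - (0.35 : ℝ) • (!₂[-1 + ph, 0, ph] : E)) ((!₂[2 - ph, 0, 7 - 4 * ph] : E) - (0.35 : ℝ) • (!₂[-1 + ph, 0, ph] : E)) = (30107/400) + (-93/2) * ph := by
    rw [hv]
    simp only [dt, Matrix.cons_val_zero, Matrix.cons_val_one, Matrix.cons_val]
    linear_combination ((4149/200)) * ph_sq
  rw [h]
  have h1 := ph_gt
  have h2 := ph_lt
  norm_num at h1 h2 ⊢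
  linarith

theorem d5_n3 : dt (!₂[2 - ph, 0, 7 - 4 * ph] : E) (!₂[2 - ph, 0, 7 - 4 * ph] : E) ≤ 0.4246 := by
  have h : dt (!₂[2 - ph, 0, 7 - 4 * ph] : E) (!₂[2 - ph, 0, 7 - 4 * ph] : E) = (70) + (-43) * ph := by
    simp only [dt, Matrix.cons_val_zero, Matrix.cons_val_one, Matrix.cons_val]
    linear_combination ((17)) * ph_sq
  rw [h]
  have h1 := ph_gt
  have h2 := ph_lt
  norm_num at h1 h2 ⊢
  linarith

theorem d5_o0pp : 0.222 ≤ dt (cr (!₂[0, (1), (1) * ph] : E) (!₂[2 - ph, 0, 7 - 4 * ph] : E)) (cr (!₂[0, (1), (1) * ph] : E) (!₂[2 - ph, 0, 7 - 4 * ph] : E)) := by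
  have h : dt (cr (!₂[0, (1), (1) * ph] : E) (!₂[2 - ph, 0, 7 - 4 * ph] : E)) (cr (!₂[0, (1), (1) * ph] : E) (!₂[2 - ph, 0, 7 - 4 * ph] : E)) = (72) + (-44) * ph := by
    simp only [dt, cr_0, cr_1, cr_2, Matrix.cons_val_zero, Matrix.cons_val_one, Matrix.cons_val]
    linear_combination ((19) + (-3) * ph ^ 1 + (1) * ph ^ 2) * ph_sq
  rw [h]
  have h1 := ph_gt
  have h2 := ph_lt
  norm_num at h1 h2 ⊢
  linarith

theorem d5_o0pm : 0.222 ≤ dt (cr (!₂[0, (1), (-1) * ph] : E) (!₂[2 - ph, 0, 7 - 4 * ph] : E)) (cr (!₂[0, (1), (-1) * ph] : E) (!₂[2 - ph, 0, 7 - 4 * ph] : E)) := by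
  have h : dt (cr (!₂[0, (1), (-1) * ph] : E) (!₂[2 - ph, 0, 7 - 4 * ph] : E)) (cr (!₂[0, (1), (-1) * ph] : E) (!₂[2 - ph, 0, 7 - 4 * ph] : E)) = (72) + (-44) * ph := by
    simp only [dt, cr_0, cr_1, cr_2, Matrix.cons_val_zero, Matrix.cons_val_one, Matrix.cons_val]
    linear_combination ((19) + (-3) * ph ^ 1 + (1) * ph ^ 2) * ph_sq
  rw [h]
  have h1 := ph_gt
  have h2 := ph_lt
  norm_num at h1 h2 ⊢
  linarith

theorem d5_o0mp : 0.222 ≤ dt (cr (!₂[0, (-1), (1) * ph] : E) (!₂[2 - ph, 0, 7 - 4 * ph] : E)) (cr (!₂[0, (-1), (1) * ph] : E) (!₂[2 - ph, 0, 7 - 4 * ph] : E)) := by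
  have h : dt (cr (!₂[0, (-1), (1) * ph] : E) (!₂[2 - ph, 0, 7 - 4 * ph] : E)) (cr (!₂[0, (-1), (1) * ph] : E) (!₂[2 - ph, 0, 7 - 4 * ph] : E)) = (72) + (-44) * ph := by
    simp only [dt, cr_0, cr_1, cr_2, Matrix.cons_val_zero, Matrix.cons_val_one, Matrix.cons_val]
    linear_combination ((19) + (-3) * ph ^ 1 + (1) * ph ^ 2) * ph_sq
  rw [h]
  have h1 := ph_gt
  have h2 := ph_lt
  norm_num at h1 h2 ⊢
  linarith

theorem d5_o0mm : 0.222 ≤ dt (cr (!₂[0, (-1), (-1) * ph] : E) (!₂[2 - ph, 0, 7 - 4 * ph] : E)) (cr (!₂[0, (-1), (-1) * ph] : E) (!₂[2 - ph, 0, 7 - 4 * ph] : E)) := by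
  have h : dt (cr (!₂[0, (-1), (-1) * ph] : E) (!₂[2 - ph, 0, 7 - 4 * ph] : E)) (cr (!₂[0, (-1), (-1) * ph] : E) (!₂[2 - ph, 0, 7 - 4 * ph] : E)) = (72) + (-44) * ph := by
    simp only [dt, cr_0, cr_1, cr_2, Matrix.cons_val_zero, Matrix.cons_val_one, Matrix.cons_val]
    linear_combination ((19) + (-3) * ph ^ 1 + (1) * ph ^ 2) * ph_sq
  rw [h]
  have h1 := ph_gt
  have h2 := ph_lt
  norm_num at h1 h2 ⊢
  linarith

theorem d5_o1pp : 0.222 ≤ dt (cr (!₂[(1), (1) * ph, 0] : E) (!₂[2 - ph, 0, 7 - 4 * ph] : E)) (cr (!₂[(1), (1) * ph, 0] : E) (!₂[2 - ph, 0, 7 - 4 * ph] : E)) := by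
  have h : dt (cr (!₂[(1), (1) * ph, 0] : E) (!₂[2 - ph, 0, 7 - 4 * ph] : E)) (cr (!₂[(1), (1) * ph, 0] : E) (!₂[2 - ph, 0, 7 - 4 * ph] : E)) = (92) + (-56) * ph := by
    simp only [dt, cr_0, cr_1, cr_2, Matrix.cons_val_zero, Matrix.cons_val_one, Matrix.cons_val]
    linear_combination ((43) + (-43) * ph ^ 1 + (17) * ph ^ 2) * ph_sq
  rw [h]
  have h1 := ph_gt
  have h2 := ph_lt
  norm_num at h1 h2 ⊢
  linarith

theorem d5_o1pm : 0.222 ≤ dt (cr (!₂[(1), (-1) * ph, 0] : E) (!₂[2 - ph, 0, 7 - 4 * ph] : E)) (cr (!₂[(1), (-1) * ph, 0] : E) (!₂[2 - ph, 0, 7 - 4 * ph] : E)) := by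
  have h : dt (cr (!₂[(1), (-1) * ph, 0] : E) (!₂[2 - ph, 0, 7 - 4 * ph] : E)) (cr (!₂[(1), (-1) * ph, 0] : E) (!₂[2 - ph, 0, 7 - 4 * ph] : E)) = (92) + (-56) * ph := by
    simp only [dt, cr_0, cr_1, cr_2, Matrix.cons_val_zero, Matrix.cons_val_one, Matrix.cons_val]
    linear_combination ((43) + (-43) * ph ^ 1 + (17) * ph ^ 2) * ph_sq
  rw [h]
  have h1 := ph_gt
  have h2 := ph_lt
  norm_num at h1 h2 ⊢
  linarith

theorem d5_o1mp : 0.222 ≤ dt (cr (!₂[(-1), (1) * ph, 0] : E) (!₂[2 - ph, 0, 7 - 4 * ph] : E)) (cr (!₂[(-1), (1) * ph, 0] : E) (!₂[2 - ph, 0, 7 - 4 * ph] : E)) := by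
  have h : dt (cr (!₂[(-1), (1) * ph, 0] : E) (!₂[2 - ph, 0, 7 - 4 * ph] : E)) (cr (!₂[(-1), (1) * ph, 0] : E) (!₂[2 - ph, 0, 7 - 4 * ph] : E)) = (92) + (-56) * ph := by
    simp only [dt, cr_0, cr_1, cr_2, Matrix.cons_val_zero, Matrix.cons_val_one, Matrix.cons_val]
    linear_combination ((43) + (-43) * ph ^ 1 + (17) * ph ^ 2) * ph_sq
  rw [h]
  have h1 := ph_gt
  have h2 := ph_lt
  norm_num at h1 h2 ⊢
  linarith

theorem d5_o1mm : 0.222 ≤ dt (cr (!₂[(-1), (-1) * ph, 0] : E) (!₂[2 - ph, 0, 7 - 4 * ph] : E)) (cr (!₂[(-1), (-1) * ph, 0] : E) (!₂[2 - ph, 0, 7 - 4 * ph] : E)) := by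
  have h : dt (cr (!₂[(-1), (-1) * ph, 0] : E) (!₂[2 - ph, 0, 7 - 4 * ph] : E)) (cr (!₂[(-1), (-1) * ph, 0] : E) (!₂[2 - ph, 0, 7 - 4 * ph] : E)) = (92) + (-56) * ph := by
    simp only [dt, cr_0, cr_1, cr_2, Matrix.cons_val_zero, Matrix.cons_val_one, Matrix.cons_val]
    linear_combination ((43) + (-43) * ph ^ 1 + (17) * ph ^ 2) * ph_sq
  rw [h]
  have h1 := ph_gt
  have h2 := ph_lt
  norm_num at h1 h2 ⊢
  linarith

theorem d5_o2pp : 0.222 ≤ dt (cr (!₂[(1) * ph, 0, (1)] : E) (!₂[2 - ph, 0, 7 - 4 * ph] : E)) (cr (!₂[(1) * ph, 0, (1)] : E) (!₂[2 - ph, 0, 7 - 4 * ph] : E)) := by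
  have h : dt (cr (!₂[(1) * ph, 0, (1)] : E) (!₂[2 - ph, 0, 7 - 4 * ph] : E)) (cr (!₂[(1) * ph, 0, (1)] : E) (!₂[2 - ph, 0, 7 - 4 * ph] : E)) = (52) + (-32) * ph := by
    simp only [dt, cr_0, cr_1, cr_2, Matrix.cons_val_zero, Matrix.cons_val_one, Matrix.cons_val]
    linear_combination ((48) + (-48) * ph ^ 1 + (16) * ph ^ 2) * ph_sq
  rw [h]
  have h1 := ph_gt
  have h2 := ph_lt
  norm_num at h1 h2 ⊢
  linarith

theorem d5_o2pm : 0.222 ≤ dt (cr (!₂[(-1) * ph, 0, (1)] : E) (!₂[2 - ph, 0, 7 - 4 * ph] : E)) (cr (!₂[(-1) * ph, 0, (1)] : E) (!₂[2 - ph, 0, 7 - 4 * ph] : E)) := by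
  have h : dt (cr (!₂[(-1) * ph, 0, (1)] : E) (!₂[2 - ph, 0, 7 - 4 * ph] : E)) (cr (!₂[(-1) * ph, 0, (1)] : E) (!₂[2 - ph, 0, 7 - 4 * ph] : E)) = (8) + (-4) * ph := by
    simp only [dt, cr_0, cr_1, cr_2, Matrix.cons_val_zero, Matrix.cons_val_one, Matrix.cons_val]
    linear_combination ((4) + (-32) * ph ^ 1 + (16) * ph ^ 2) * ph_sq
  rw [h]
  have h1 := ph_gt
  have h2 := ph_lt
  norm_num at h1 h2 ⊢
  linarith

theorem d5_o2mp : 0.222 ≤ dt (cr (!₂[(1) * ph, 0, (-1)] : E) (!₂[2 - ph, 0, 7 - 4 * ph] : E)) (cr (!₂[(1) * ph, 0, (-1)] : E) (!₂[2 - ph, 0, 7 - 4 * ph] : E)) := by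
  have h : dt (cr (!₂[(1) * ph, 0, (-1)] : E) (!₂[2 - ph, 0, 7 - 4 * ph] : E)) (cr (!₂[(1) * ph, 0, (-1)] : E) (!₂[2 - ph, 0, 7 - 4 * ph] : E)) = (8) + (-4) * ph := by
    simp only [dt, cr_0, cr_1, cr_2, Matrix.cons_val_zero, Matrix.cons_val_one, Matrix.cons_val]
    linear_combination ((4) + (-32) * ph ^ 1 + (16) * ph ^ 2) * ph_sq
  rw [h]
  have h1 := ph_gt
  have h2 := ph_lt
  norm_num at h1 h2 ⊢
  linarith

theorem d5_o2mm : 0.222 ≤ dt (cr (!₂[(-1) * ph, 0, (-1)] : E) (!₂[2 - ph, 0, 7 - 4 * ph] : E)) (cr (!₂[(-1) * ph, 0, (-1)] : E) (!₂[2 - ph, 0, 7 - 4 * ph] : E)) := by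
  have h : dt (cr (!₂[(-1) * ph, 0, (-1)] : E) (!₂[2 - ph, 0, 7 - 4 * ph] : E)) (cr (!₂[(-1) * ph, 0, (-1)] : E) (!₂[2 - ph, 0, 7 - 4 * ph] : E)) = (52) + (-32) * ph := by
    simp only [dt, cr_0, cr_1, cr_2, Matrix.cons_val_zero, Matrix.cons_val_one, Matrix.cons_val]
    linear_combination ((48) + (-48) * ph ^ 1 + (16) * ph ^ 2) * ph_sq
  rw [h]
  have h1 := ph_gt
  have h2 := ph_lt
  norm_num at h1 h2 ⊢
  linarith

theorem d5_off (w : E) (hw : IsVtx w) : 0.222 ≤ dt (cr w (!₂[2 - ph, 0, 7 - 4 * ph] : E)) (cr w (!₂[2 - ph, 0, 7 - 4 * ph] : E)) := by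
  have h1 := ph_gt
  have h2 := ph_lt
  obtain ⟨σ, τ, hσ, hτ, hw⟩ := hw
  rcases hσ with rfl | rfl <;> rcases hτ with rfl | rfl <;> rcases hw with rfl | rfl | rfl
  · exact d5_o0pp
  · exact d5_o1pp
  · exact d5_o2pp
  · exact d5_o0pm
  · exact d5_o1pm
  · exact d5_o2pm
  · exact d5_o0mp
  · exact d5_o1mp
  · exact d5_o2mp
  · exact d5_o0mm
  · exact d5_o1mm
  · exact d5_o2mm

theorem chain_ax5 {InX : E → Prop} {z u : E} {lam S tt : ℝ} (G : Geo InX z u C5 S5 lam S tt)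
    (hx : |z 0 - 0.381966| ≤ 0.0038) (hy : z 1 ≤ 0.0025) (hu : ‖u - (Real.sqrt (ph + 2))⁻¹ • !₂[-1, ph, 0]‖ ≤ 0.0045) : False := by
  have hv1 : IsVtx !₂[0, 1, ph] := ⟨1, 1, Or.inl rfl, Or.inl rfl, Or.inl (by rw [one_mul])⟩
  have hv : IsVtx !₂[-1, ph, 0] :=
    ⟨-1, 1, Or.inr rfl, Or.inl rfl, Or.inr (Or.inl (by rw [one_mul]))⟩
  have hv2 : IsVtx !₂[ph, 0, 1] :=
    ⟨1, 1, Or.inl rfl, Or.inl rfl, Or.inr (Or.inr (by rw [one_mul]))⟩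
  have hp : IsVtx !₂[0, -1, ph] := ⟨-1, 1, Or.inr rfl, Or.inl rfl, Or.inl (by rw [one_mul])⟩
  have hq : IsVtx !₂[-ph, 0, 1] :=
    ⟨1, -1, Or.inl rfl, Or.inr rfl, Or.inr (Or.inr (by rw [neg_one_mul]))⟩
  have hf1 : IsFace !₂[1, 1, 1] := Or.inl ⟨1, 1, 1, Or.inl rfl, Or.inl rfl, Or.inl rfl, rfl⟩
  have hf3 : IsFace !₂[-1 + ph, 0, ph] := by
    refine Or.inr ⟨1, 1, Or.inl rfl, Or.inl rfl, Or.inl ?_⟩
    rw [one_mul, one_mul, sub_eq_add_neg, add_comm]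
  have hpq : dt (!₂[0, -1, ph] : E) (!₂[-ph, 0, 1] : E) = ph := by
    simp [dt]
  exact chain_gen G hv hx hy hu (by norm_num) (by norm_num) d5_d1 hv1 d5_e1 hf1 d5_l1 hv2
    (by norm_num) d5_d2 d5_e2 hp hq hpq d5_dp d5_dq (by norm_num) (by norm_num) d5_d3 d5_e3 hf3
    d5_l3 d5_n3 d5_off

end Pool.Agent.H304.K

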