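import Pool.Agent.helper304_full.GeoDefs
import Pool.Agent.helper304_full.A1
import Pool.Agent.helper304_full.D0
import Pool.Agent.helper304_full.D1
import Pool.Agent.helper304_full.D2
import Pool.Agent.helper304_full.D3
import Pool.Agent.helper304_full.D4
import Pool.Agent.helper304_full.D5

set_option autoImplicit false

set_option maxRecDepth 100000
set_option exponentiation.threshold 100000

namespace Pool.Agent.H304

end Pool.Agent.H304

namespace Pool.Agent.H304.K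

theorem c7_pos {InX : E → Prop} {z u v w : E} {lam S tt : ℝ} (_G : Geo InX z u C5 S5 lam S tt) (hvw : v = w)
    (hu : ‖u - (Real.sqrt (ph + 2))⁻¹ • v‖ ≤ 0.0045) : ‖u - (Real.sqrt (ph + 2))⁻¹ • w‖ ≤ 0.0045 := by
  rw [← hvw]; exact hu

theorem c7_neg {InX : E → Prop} {z u v w : E} {lam S tt : ℝ} (_G : Geo InX z u C5 S5 lam S tt) (hvw : v = -w)
    (hu : ‖u - (Real.sqrt (ph + 2))⁻¹ • v‖ ≤ 0.0045) : ‖-u - (Real.sqrt (ph + 2))⁻¹ • w‖ ≤ 0.0045 := by
  rw [hvw, smul_neg, sub_neg_eq_add] at hu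
  have e : -u - (Real.sqrt (ph + 2))⁻¹ • w = -(u + (Real.sqrt (ph + 2))⁻¹ • w) := by abel
  rw [e, norm_neg]
  exact hu

theorem chain_false {InX : E → Prop} {z u v : E} {lam S tt : ℝ} (G : Geo InX z u C5 S5 lam S tt) (hv : IsVtx v)
    (hx : |z 0 - 0.381966| ≤ 0.0038) (hy : z 1 ≤ 0.0025) (hu : ‖u - (Real.sqrt (ph + 2))⁻¹ • v‖ ≤ 0.0045) : False := by
  obtain ⟨σ, τ, hσ, hτ, hv⟩ := hv
  rcases hσ with rfl | rfl <;> rcases hτ with rfl | rfl <;> rcases hv with hv | hv | hv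
  · exact chain_ax0 G hx hy (c7_pos G (by rw [hv]; apply ext3 <;> simp) hu)
  · exact chain_ax4 G hx hy (c7_pos G (by rw [hv]; apply ext3 <;> simp) hu)
  · exact chain_ax2 G hx hy (c7_pos G (by rw [hv]; apply ext3 <;> simp) hu)
  · exact chain_ax1 (Geo.neg G) hx hy (c7_neg G (by rw [hv]; apply ext3 <;> simp) hu)
  · exact chain_ax5 (Geo.neg G) hx hy (c7_neg G (by rw [hv]; apply ext3 <;> simp) hu)
  · exact chain_ax3 G hx hy (c7_pos G (by rw [hv]; apply ext3 <;> simp) hu)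
  · exact chain_ax1 G hx hy (c7_pos G (by rw [hv]; apply ext3 <;> simp) hu)
  · exact chain_ax5 G hx hy (c7_pos G (by rw [hv]; apply ext3 <;> simp) hu)
  · exact chain_ax3 (Geo.neg G) hx hy (c7_neg G (by rw [hv]; apply ext3 <;> simp) hu)
  · exact chain_ax0 (Geo.neg G) hx hy (c7_neg G (by rw [hv]; apply ext3 <;> simp) hu)
  · exact chain_ax4 (Geo.neg G) hx hy (c7_neg G (by rw [hv]; apply ext3 <;> simp) hu)
  · exact chain_ax2 (Geo.neg G) hx hy (c7_neg G (by rw [hv]; apply ext3 <;> simp) hu)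

end Pool.Agent.H304.K

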