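import Pool.Agent.helper304_full.KDefs
import Pool.Agent.helper304_full.C7
import Pool.Agent.helper304_full.K1
import Pool.Agent.helper304_full.K2
import Pool.Agent.helper304_full.K4

set_option autoImplicit false

set_option maxRecDepth 100000
set_option exponentiation.threshold 100000

namespace Pool.Agent.H304

end Pool.Agent.H304

namespace Pool.Agent.H304.K

lemma c8_near {c h o r : ℕ} {p : ℝ} (hn : near c h o r = true) (hp : |p - (c : ℝ)| ≤ (h : ℝ)) :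
    |p - (o : ℝ)| ≤ (r : ℝ) := by
  have h1 : c + h ≤ o + r ∧ o + h ≤ c + r := by
    simpa [near] using hn
  have h2 : (c : ℝ) + h ≤ o + r := by exact_mod_cast h1.1
  have h3 : (o : ℝ) + h ≤ c + r := by exact_mod_cast h1.2
  rw [abs_le] at hp ⊢
  constructor <;> linarith [hp.1, hp.2]

lemma c8_chord (α β α0 β0 : ℝ) :
    ‖ster α β - ster α0 β0‖ ^ 2 ≤ 4 * ((α - α0) ^ 2 + (β - β0) ^ 2) := by
  have hN : 1 ≤ 1 + α ^ 2 + β ^ 2 := by nlinarith [sq_nonneg α, sq_nonneg β]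
  have hN0 : 1 ≤ 1 + α0 ^ 2 + β0 ^ 2 := by nlinarith [sq_nonneg α0, sq_nonneg β0]
  have hNp : 0 < 1 + α ^ 2 + β ^ 2 := by linarith
  have hN0p : 0 < 1 + α0 ^ 2 + β0 ^ 2 := by linarith
  have e : ‖ster α β - ster α0 β0‖ ^ 2 =
      4 * ((α - α0) ^ 2 + (β - β0) ^ 2) / ((1 + α ^ 2 + β ^ 2) * (1 + α0 ^ 2 + β0 ^ 2)) := by
    rw [norm_sq_eq_dt]
    simp only [ster, dt, PiLp.sub_apply, PiLp.smul_apply, smul_eq_mul]
    simp
    field_simp
    ring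
  rw [e]
  apply div_le_self (by positivity)
  nlinarith

lemma c8_ster {v : E} {s : ℝ} (hs : dt v v = s ^ 2) (h0 : 0 < s) (h2 : 0 < v 2 + s) :
    ster (v 0 / (v 2 + s)) (v 1 / (v 2 + s)) = s⁻¹ • v := by
  have hN : 1 + (v 0 / (v 2 + s)) ^ 2 + (v 1 / (v 2 + s)) ^ 2 = 2 * s / (v 2 + s) := by
    simp only [dt] at hs
    field_simp
    linear_combination hs
  have hne : v 2 + s ≠ 0 := h2.ne'
  have hsne : s ≠ 0 := h0.ne'
  have e2 : 1 - (v 0 / (v 2 + s)) ^ 2 - (v 1 / (v 2 + s)) ^ 2 = 2 * v 2 / (v 2 + s) := by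
    have : 1 - (v 0 / (v 2 + s)) ^ 2 - (v 1 / (v 2 + s)) ^ 2 = 2 - 2 * s / (v 2 + s) := by
      rw [← hN]; ring
    rw [this]
    field_simp
    ring
  unfold ster
  rw [hN, e2]
  apply ext3
  · simp
    field_simp
  · simp
    field_simp
  · simp
    field_simp

lemma c8_s_sq : Real.sqrt (ph + 2) ^ 2 = ph + 2 := Real.sq_sqrt (by linarith [ph_gt])

lemma c8_s_gt : 1.9021130 < Real.sqrt (ph + 2) := by
  rw [show (1.9021130 : ℝ) = Real.sqrt (1.9021130 ^ 2) from (Real.sqrt_sq (by norm_num)).symm]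
  apply Real.sqrt_lt_sqrt (by norm_num)
  have := ph_gt
  norm_num at *
  linarith

lemma c8_s_lt : Real.sqrt (ph + 2) < 1.9021131 := by
  rw [show (1.9021131 : ℝ) = Real.sqrt (1.9021131 ^ 2) from (Real.sqrt_sq (by norm_num)).symm]
  apply Real.sqrt_lt_sqrt (by linarith [ph_gt])
  have := ph_lt
  norm_num at *
  linarith

lemma c8_core {InX : E → Prop} {z v : E} {α β lam S tt : ℝ} (G : Geo InX z (ster α β) C5 S5 lam S tt)
    (hv : IsVtx v) (hx : |2 ^ 14 * z 0 - ((6258 : ℕ) : ℝ)| ≤ ((60 : ℕ) : ℝ)) (hy : 2 ^ 14 * z 1 ≤ 40)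
    (h2 : 0 < v 2 + Real.sqrt (ph + 2)) (hd : dt v v = ph + 2)
    (ha : |α - v 0 / (v 2 + Real.sqrt (ph + 2))| ≤ 0.0015)
    (hb : |β - v 1 / (v 2 + Real.sqrt (ph + 2))| ≤ 0.0015) : False := by
  apply chain_false G hv
  · rw [abs_le] at hx ⊢
    push_cast at hx
    constructor
    · norm_num at *; linarith [hx.1]
    · norm_num at *; linarith [hx.2]
  · norm_num at *; linarith
  · rw [← c8_ster (by rw [hd, c8_s_sq]) (by linarith [c8_s_gt]) h2]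
    have h := c8_chord α β (v 0 / (v 2 + Real.sqrt (ph + 2))) (v 1 / (v 2 + Real.sqrt (ph + 2)))
    have h1 : (α - v 0 / (v 2 + Real.sqrt (ph + 2))) ^ 2 ≤ 0.0015 ^ 2 := by
      rw [← sq_abs]; gcongr
    have h3 : (β - v 1 / (v 2 + Real.sqrt (ph + 2))) ^ 2 ≤ 0.0015 ^ 2 := by
      rw [← sq_abs]; gcongr
    apply abs_le_of_sq_le_sq' _ (by norm_num) |>.2
    refine h.trans ?_
    calc _ ≤ 4 * ((0.0015 : ℝ) ^ 2 + 0.0015 ^ 2) := by gcongr
      _ ≤ _ := by norm_num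

lemma c8_dt0 {σ τ : ℝ} (hσ : σ = 1 ∨ σ = -1) (hτ : τ = 1 ∨ τ = -1) : dt !₂[0, σ, τ * ph] !₂[0, σ, τ * ph] = ph + 2 := by
  have := ph_sq
  rcases hσ with rfl | rfl <;> rcases hτ with rfl | rfl <;> simp [dt] <;> linear_combination this

lemma c8_dt1 {σ τ : ℝ} (hσ : σ = 1 ∨ σ = -1) (hτ : τ = 1 ∨ τ = -1) : dt !₂[σ, τ * ph, 0] !₂[σ, τ * ph, 0] = ph + 2 := by
  have := ph_sq
  rcases hσ with rfl | rfl <;> rcases hτ with rfl | rfl <;> simp [dt] <;> linear_combination this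

lemma c8_dt2 {σ τ : ℝ} (hσ : σ = 1 ∨ σ = -1) (hτ : τ = 1 ∨ τ = -1) : dt !₂[τ * ph, 0, σ] !₂[τ * ph, 0, σ] = ph + 2 := by
  have := ph_sq
  rcases hσ with rfl | rfl <;> rcases hτ with rfl | rfl <;> simp [dt] <;> linear_combination this

/-- parameter estimate from the rounded value -/
lemma c8_par {α a : ℝ} {A : ℕ} (h : |2 ^ 14 * (α + 1) - (A : ℝ)| ≤ ((24 : ℕ) : ℝ)) (h1 : (A : ℝ) / 16384 - 1 - 0.000035 ≤ a)
    (h2 : a ≤ (A : ℝ) / 16384 - 1 + 0.000035) : |α - a| ≤ 0.0015 := by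
  rw [abs_le] at h ⊢
  push_cast at h
  constructor
  · norm_num at *; linarith [h.1]
  · norm_num at *; linarith [h.2]

lemma c8_div_bd {x d l u : ℝ} (hd : 0 < d) (h1 : l * d ≤ x) (h2 : x ≤ u * d) : l ≤ x / d ∧ x / d ≤ u := by
  rw [le_div_iff₀ hd, div_le_iff₀ hd]
  exact ⟨h1, h2⟩

lemma c8_v0 {σ τ : ℝ} (hσ : σ = 1 ∨ σ = -1) (hτ : τ = 1 ∨ τ = -1) : IsVtx !₂[0, σ, τ * ph] := ⟨σ, τ, hσ, hτ, Or.inl rfl⟩

lemma c8_v1 {σ τ : ℝ} (hσ : σ = 1 ∨ σ = -1) (hτ : τ = 1 ∨ τ = -1) : IsVtx !₂[σ, τ * ph, 0] := ⟨σ, τ, hσ, hτ, Or.inr (Or.inl rfl)⟩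

lemma c8_v2 {σ τ : ℝ} (hσ : σ = 1 ∨ σ = -1) (hτ : τ = 1 ∨ τ = -1) : IsVtx !₂[τ * ph, 0, σ] := ⟨σ, τ, hσ, hτ, Or.inr (Or.inr rfl)⟩

theorem chain5_sound {b : Box} {InX : E → Prop} {z : E} {α β lam S tt : ℝ} (G : Geo InX z (ster α β) C5 S5 lam S tt)
    (hb : b.In (pt5 z α β)) {k : ℕ} (hk : k < 8) (h : chain5 b k = true) : False := by
  have hh : (near b.cx b.hx 6258 60 = true ∧ (Nat.ble (Nat.add b.cy b.hy) 40) = true) ∧
      near b.c0 b.h0 (fld SA (Nat.mul 16 k) 65535) 24 = true ∧ near b.c1 b.h1 (fld SB (Nat.mul 16 k) 65535) 24 = true := by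
    simpa only [chain5, Bool.and_eq_true] using h
  obtain ⟨⟨hx, hy⟩, hA, hB⟩ := hh
  have i0 := c8_near hx hb.i0
  have i2 := c8_near hA hb.i2
  have i3 := c8_near hB hb.i3
  have i1 : (2 : ℝ) ^ 14 * z 1 ≤ 40 := by
    have h1 : b.cy + b.hy ≤ 40 := by simpa using hy
    have h2 : (b.cy : ℝ) + b.hy ≤ 40 := by exact_mod_cast h1
    have h3 := (abs_le.mp hb.i1).2
    have h4 : pt5 z α β 1 = 2 ^ 14 * z 1 := rfl
    rw [h4] at h3
    linarith
  have e0 : pt5 z α β 0 = 2 ^ 14 * z 0 := rfl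
  have e2 : pt5 z α β 2 = 2 ^ 14 * (α + 1) := rfl
  have e3 : pt5 z α β 3 = 2 ^ 14 * (β + 1) := rfl
  rw [e0] at i0
  rw [e2] at i2
  rw [e3] at i3
  clear hx hy hA hB e0 e2 e3 h hb
  have s1 := c8_s_gt
  have s2 := c8_s_lt
  have p1 := ph_gt
  have p2 := ph_lt
  have dd : 0 < ph + Real.sqrt (ph + 2) := by linarith
  have d1 : 0 < 1 + Real.sqrt (ph + 2) := by linarith
  have ds : 0 < Real.sqrt (ph + 2) := by linarith
  set s := Real.sqrt (ph + 2) with hs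
  interval_cases k
  · rw [show fld SA (Nat.mul 16 0) 65535 = 16384 by decide +kernel] at i2
    rw [show fld SB (Nat.mul 16 0) 65535 = 21038 by decide +kernel] at i3
    have q1 := c8_div_bd (x := 1) (l := 0.28405) (u := 0.28409) dd (by linarith) (by linarith)
    refine c8_core G (c8_v0 (Or.inl rfl : (1 : ℝ) = 1 ∨ _) (Or.inl rfl : (1 : ℝ) = 1 ∨ _)) i0 i1 ?_ (c8_dt0 (Or.inl rfl) (Or.inl rfl)) (c8_par i2 ?_ ?_) (c8_par i3 ?_ ?_) <;>
      simp <;> norm_num at * <;> linarith [q1.1, q1.2]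
  · rw [show fld SA (Nat.mul 16 1) 65535 = 16384 by decide +kernel] at i2
    rw [show fld SB (Nat.mul 16 1) 65535 = 11730 by decide +kernel] at i3
    have q1 := c8_div_bd (x := -1) (l := -0.28409) (u := -0.28405) dd (by linarith) (by linarith)
    refine c8_core G (c8_v0 (Or.inr rfl : (-1 : ℝ) = 1 ∨ _) (Or.inl rfl : (1 : ℝ) = 1 ∨ _)) i0 i1 ?_ (c8_dt0 (Or.inr rfl) (Or.inl rfl)) (c8_par i2 ?_ ?_) (c8_par i3 ?_ ?_) <;>
      simp <;> norm_num at * <;> linarith [q1.1, q1.2]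
  · rw [show fld SA (Nat.mul 16 2) 65535 = 25519 by decide +kernel] at i2
    rw [show fld SB (Nat.mul 16 2) 65535 = 16384 by decide +kernel] at i3
    have q0 := c8_div_bd (x := ph) (l := 0.55753) (u := 0.55754) d1 (by linarith) (by linarith)
    refine c8_core G (c8_v2 (Or.inl rfl : (1 : ℝ) = 1 ∨ _) (Or.inl rfl : (1 : ℝ) = 1 ∨ _)) i0 i1 ?_ (c8_dt2 (Or.inl rfl) (Or.inl rfl)) (c8_par i2 ?_ ?_) (c8_par i3 ?_ ?_) <;>
      simp <;> norm_num at * <;> linarith [q0.1, q0.2]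
  · rw [show fld SA (Nat.mul 16 3) 65535 = 7249 by decide +kernel] at i2
    rw [show fld SB (Nat.mul 16 3) 65535 = 16384 by decide +kernel] at i3
    have q0 := c8_div_bd (x := -ph) (l := -0.55754) (u := -0.55753) d1 (by linarith) (by linarith)
    refine c8_core G (c8_v2 (Or.inl rfl : (1 : ℝ) = 1 ∨ _) (Or.inr rfl : (-1 : ℝ) = 1 ∨ _)) i0 i1 ?_ (c8_dt2 (Or.inl rfl) (Or.inr rfl)) (c8_par i2 ?_ ?_) (c8_par i3 ?_ ?_) <;>
      simp <;> norm_num at * <;> linarith [q0.1, q0.2]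
  · rw [show fld SA (Nat.mul 16 4) 65535 = 24998 by decide +kernel] at i2
    rw [show fld SB (Nat.mul 16 4) 65535 = 30321 by decide +kernel] at i3
    have q0 := c8_div_bd (x := 1) (l := 0.52573) (u := 0.52574) ds (by linarith) (by linarith)
    have q1 := c8_div_bd (x := ph) (l := 0.85065) (u := 0.85066) ds (by linarith) (by linarith)
    refine c8_core G (c8_v1 (Or.inl rfl : (1 : ℝ) = 1 ∨ _) (Or.inl rfl : (1 : ℝ) = 1 ∨ _)) i0 i1 ?_ (c8_dt1 (Or.inl rfl) (Or.inl rfl)) (c8_par i2 ?_ ?_) (c8_par i3 ?_ ?_) <;>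
      simp <;> norm_num at * <;> linarith [q0.1, q0.2, q1.1, q1.2]
  · rw [show fld SA (Nat.mul 16 5) 65535 = 24998 by decide +kernel] at i2
    rw [show fld SB (Nat.mul 16 5) 65535 = 2447 by decide +kernel] at i3
    have q0 := c8_div_bd (x := 1) (l := 0.52573) (u := 0.52574) ds (by linarith) (by linarith)
    have q1 := c8_div_bd (x := -ph) (l := -0.85066) (u := -0.85065) ds (by linarith) (by linarith)
    refine c8_core G (c8_v1 (Or.inl rfl : (1 : ℝ) = 1 ∨ _) (Or.inr rfl : (-1 : ℝ) = 1 ∨ _)) i0 i1 ?_ (c8_dt1 (Or.inl rfl) (Or.inr rfl)) (c8_par i2 ?_ ?_) (c8_par i3 ?_ ?_) <;>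
      simp <;> norm_num at * <;> linarith [q0.1, q0.2, q1.1, q1.2]
  · rw [show fld SA (Nat.mul 16 6) 65535 = 7770 by decide +kernel] at i2
    rw [show fld SB (Nat.mul 16 6) 65535 = 30321 by decide +kernel] at i3
    have q0 := c8_div_bd (x := -1) (l := -0.52574) (u := -0.52573) ds (by linarith) (by linarith)
    have q1 := c8_div_bd (x := ph) (l := 0.85065) (u := 0.85066) ds (by linarith) (by linarith)
    refine c8_core G (c8_v1 (Or.inr rfl : (-1 : ℝ) = 1 ∨ _) (Or.inl rfl : (1 : ℝ) = 1 ∨ _)) i0 i1 ?_ (c8_dt1 (Or.inr rfl) (Or.inl rfl)) (c8_par i2 ?_ ?_) (c8_par i3 ?_ ?_) <;>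
      simp <;> norm_num at * <;> linarith [q0.1, q0.2, q1.1, q1.2]
  · rw [show fld SA (Nat.mul 16 7) 65535 = 7770 by decide +kernel] at i2
    rw [show fld SB (Nat.mul 16 7) 65535 = 2447 by decide +kernel] at i3
    have q0 := c8_div_bd (x := -1) (l := -0.52574) (u := -0.52573) ds (by linarith) (by linarith)
    have q1 := c8_div_bd (x := -ph) (l := -0.85066) (u := -0.85065) ds (by linarith) (by linarith)
    refine c8_core G (c8_v1 (Or.inr rfl : (-1 : ℝ) = 1 ∨ _) (Or.inr rfl : (-1 : ℝ) = 1 ∨ _)) i0 i1 ?_ (c8_dt1 (Or.inr rfl) (Or.inr rfl)) (c8_par i2 ?_ ?_) (c8_par i3 ?_ ?_) <;>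
      simp <;> norm_num at * <;> linarith [q0.1, q0.2, q1.1, q1.2]

end Pool.Agent.H304.K

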