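import Pool.Agent.helper304_full.KDefs
import Pool.Agent.helper304_full.B12
import Pool.Agent.helper304_full.B13
import Pool.Agent.helper304_full.B14
import Pool.Agent.helper304_full.B15
import Pool.Agent.helper304_full.B5
import Pool.Agent.helper304_full.B9
import Pool.Agent.helper304_full.C8
import Pool.Agent.helper304_full.K1
import Pool.Agent.helper304_full.K2
import Pool.Agent.helper304_full.K4

set_option autoImplicit false

set_option maxRecDepth 100000
set_option exponentiation.threshold 100000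

namespace Pool.Agent.H304

end Pool.Agent.H304

namespace Pool.Agent.H304.K

theorem b16_e1 (x c h : ℝ) (hh : 0 ≤ h) (H : |x - c| ≤ h) : ∃ e : ℝ, |e| ≤ 1 ∧ x = c + h * e := by
  rcases hh.eq_or_lt with h0 | h0
  · refine ⟨0, by simp, ?_⟩
    rw [← h0] at H
    have h1 : x - c = 0 := abs_nonpos_iff.1 H
    rw [← h0]
    linarith
  · refine ⟨(x - c) / h, ?_, ?_⟩
    · rw [abs_div, abs_of_pos h0]
      exact (div_le_one h0).2 H
    · have h1 : h * ((x - c) / h) = x - c := mul_div_cancel₀ _ h0.ne'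
      rw [h1]
      ring

theorem b16_eps {b : Box} {z : E} {α β : ℝ} (hin : b.In (pt5 z α β)) : ∃ ε : Fin 6 → ℝ, (∀ i, |ε i| ≤ 1) ∧
    2 ^ 14 * z 0 = b.cx + b.hx * ε 0 ∧ 2 ^ 14 * z 1 = b.cy + b.hy * ε 1 ∧
    2 ^ 14 * (α + 1) = b.c0 + b.h0 * ε 2 ∧ 2 ^ 14 * (β + 1) = b.c1 + b.h1 * ε 3 := by
  obtain ⟨e0, h0, k0⟩ := b16_e1 _ _ _ (Nat.cast_nonneg b.hx) hin.i0
  obtain ⟨e1, h1, k1⟩ := b16_e1 _ _ _ (Nat.cast_nonneg b.hy) hin.i1
  obtain ⟨e2, h2, k2⟩ := b16_e1 _ _ _ (Nat.cast_nonneg b.h0) hin.i2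
  obtain ⟨e3, h3, k3⟩ := b16_e1 _ _ _ (Nat.cast_nonneg b.h1) hin.i3
  have hz : |(0 : ℝ)| ≤ 1 := by rw [abs_zero]; exact zero_le_one
  refine ⟨fun i => if i = 0 then e0 else if i = 1 then e1 else if i = 2 then e2 else if i = 3 then e3 else 0,
    fun i => ?_, ?_, ?_, ?_, ?_⟩
  · beta_reduce
    split_ifs
    · exact h0
    · exact h1
    · exact h2
    · exact h3
    · exact hz
  · exact k0
  · exact k1
  · exact k2
  · exact k3

theorem b16_ok {b : Bool} {rest r : ℕ} (h : ok b rest = r + 1) : b = true := by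
  cases b with
  | true => rfl
  | false => exact absurd h (Nat.succ_ne_zero r).symm

theorem b16_cond {b : Bool} {x r : ℕ} (h : cond b x 0 = r + 1) : b = true ∧ x = r + 1 := by
  cases b with
  | true => exact ⟨rfl, h⟩
  | false => exact absurd h (Nat.succ_ne_zero r).symm

theorem b16_fld (code sh k : ℕ) : fld code sh k ≤ k := Nat.and_le_right

/-- everything about a configuration in a box -/
theorem b16_env {b : Box} (hb : b.Inv 16384) {z : E} {α β : ℝ} (hz : z 2 = 1) (hin : b.In (pt5 z α β)) :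
    ∃ ε : Fin 6 → ℝ, (∀ i, |ε i| ≤ 1) ∧ EnvRep ε (env5 b) z (ster α β) C5 S5 ∧
    (∀ t : ℝ, |t| ≤ 1 → EnvRep (Function.update ε 5 t) (env5 b) z (ster α β) C5 S5) ∧
    2 ^ 14 * (α + 1) = b.c0 + b.h0 * ε 2 ∧ 2 ^ 14 * (β + 1) = b.c1 + b.h1 * ε 3 := by
  obtain ⟨ε, hε, h0, h1, h2, h3⟩ := b16_eps hin
  refine ⟨ε, hε, env5_rep hε hb hz h0 h1 h2 h3, fun t ht => ?_, h2, h3⟩
  have n0 : (0 : Fin 6) ≠ 5 := by decide
  have n1 : (1 : Fin 6) ≠ 5 := by decide
  have n2 : (2 : Fin 6) ≠ 5 := by decide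
  have n3 : (3 : Fin 6) ≠ 5 := by decide
  refine env5_rep (fun i => ?_) hb hz ?_ ?_ ?_ ?_
  · by_cases hi : i = 5
    · subst hi
      rw [Function.update_self]
      exact ht
    · rw [Function.update_of_ne hi]
      exact hε i
  · rw [Function.update_of_ne n0]; exact h0
  · rw [Function.update_of_ne n1]; exact h1
  · rw [Function.update_of_ne n2]; exact h2
  · rw [Function.update_of_ne n3]; exact h3

theorem run5_sound (fuel : ℕ) : ∀ (b : Box) (κ Sb code r : ℕ), b.Inv 16384 → run5 fuel b κ Sb code = r + 1 → OK5 b κ Sb := by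
  induction fuel with
  | zero =>
    intro b κ Sb code r _ h
    exact absurd h (Nat.succ_ne_zero r).symm
  | succ n IH =>
    intro b κ Sb code r hb h
    unfold run5 at h IH
    rw [run] at h
    split at h
    · -- split
      split at h
      · exact absurd h (Nat.succ_ne_zero r).symm
      · rename_i r' heq
        obtain ⟨hE, h1⟩ := b16_cond heq
        obtain ⟨hlo, hhi, hp⟩ := Box.split hb hE
        intro InX z α β lam S tt G hab hin hV
        rcases hp _ hin with hin' | hin'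
        · exact IH _ _ _ _ _ hlo h1 InX z α β lam S tt G hab hin' hV
        · exact IH _ _ _ _ _ hhi h InX z α β lam S tt G hab hin' hV
    · intro InX z α β lam S tt G hab hin hV
      obtain ⟨ε, hε, he, -, -, -⟩ := b16_env hb G.z2 hin
      exact dirout_sound hε he G.z2 G.cone (b16_ok h)
    · intro InX z α β lam S tt G hab hin hV
      obtain ⟨ε, hε, -, -, h2, h3⟩ := b16_env hb G.z2 hin
      exact rout5_sound hε hb hab h2 h3 (b16_ok h)
    · intro InX z α β lam S tt G hab hin hV
      obtain ⟨ε, hε, he, -, -, -⟩ := b16_env hb G.z2 hin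
      exact zleaf_sound hε he G hV (lt_of_le_of_lt (b16_fld code 17 8191) (by norm_num)) (b16_ok h)
    · obtain ⟨h1, h2⟩ := b16_cond h
      intro InX z α β lam S tt G hab hin hV
      obtain ⟨ε, hε, he, -, -, -⟩ := b16_env hb G.z2 hin
      have hV' := setok_sound hε he G (lt_of_le_of_lt (b16_fld code 3 32767) (by norm_num))
        (lt_of_le_of_lt (b16_fld code 18 1048575) (by norm_num))
        (lt_of_le_of_lt (b16_fld code 38 16383) (by norm_num)) h1
      exact IH _ _ _ _ _ hb h2 InX z α β lam S tt G hab hin hV'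
    · obtain ⟨h1, h2⟩ := b16_cond h
      intro InX z α β lam S tt G hab hin hV
      obtain ⟨ε, hε, he, he', -, -⟩ := b16_env hb G.z2 hin
      have hf : fld code 3 32767 ≤ 32767 := b16_fld code 3 32767
      have h3 := tbound_sound hε he G hV (lt_of_le_of_lt hf (by norm_num)) h1
      have h4 : 0 < 2 ^ 14 * tt := mul_pos (by norm_num) G.tt0
      refine runT_sound hε he' G hV 10 _ _ _ _ le_rfl ?_ ?_ h2
      · have : (2 : ℕ) ^ 16 = 65536 := by norm_num
        omega
      · rw [abs_le]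
        constructor <;> linarith
    · intro InX z α β lam S tt G hab hin hV
      exact chain5_sound G hin (lt_of_le_of_lt (b16_fld code 3 7) (by norm_num)) (b16_ok h)
    · exact absurd h (Nat.succ_ne_zero r).symm

end Pool.Agent.H304.K

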