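import Pool.Agent.helper304_full.KDefs
import Pool.Agent.helper304_full.K1
import Pool.Agent.helper304_full.K2
import Pool.Agent.helper304_full.K4

set_option autoImplicit false

set_option maxRecDepth 100000
set_option exponentiation.threshold 100000

namespace Pool.Agent.H304

end Pool.Agent.H304

namespace Pool.Agent.H304.K

theorem b6_cv {ε : Fin 6 → ℝ} {b b' : ℝ} {p : P} {x y : ℝ} (h : Rep ε b p x) (hb : b ≤ b')
    (hx : x = y) : Rep ε b' p y := hx ▸ h.mono hb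

theorem b6_rot {u : E} (hu : dt u u = 1) {c s D A B μ : ℝ} (h1 : D * s = A * μ)
    (h2 : D * (1 - c) = B * μ ^ 2) (w : E) :
    D • (H304.rot u c s w - w) = A • cr (μ • u) w + B • cr (μ • u) (cr (μ • u) w) := by
  have e1 : H304.rot u c s w - w = s • cr u w + (1 - c) • cr u (cr u w) := by
    rw [cr_cr, hu, one_smul]
    simp only [H304.rot]
    module
  rw [e1, smul_add, smul_smul, smul_smul, h1, h2]
  simp only [cr_smul_left, cr_smul_right, smul_smul]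
  congr 1
  congr 1
  ring

theorem b6_rotn {u : E} (hu : dt u u = 1) {c s D A B μ : ℝ} (h1 : D * s = A * μ)
    (h2 : D * (1 - c) = B * μ ^ 2) (w : E) :
    D • (H304.rot u c (-s) w - w) = (-A) • cr (μ • u) w + B • cr (μ • u) (cr (μ • u) w) :=
  b6_rot hu (by linear_combination -h1) h2 w

theorem b6_ax0 (b : Box) : (env7 b).ax 0 = ax71 (b.m7.dot b.m7) := rfl

theorem b6_ax1 (b : Box) : (env7 b).ax 1 = ax71 (b.m7.dot b.m7) := rfl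

theorem b6_ax2 (b : Box) : (env7 b).ax 2 = ax72 (b.m7.dot b.m7) := rfl

theorem b6_ax3 (b : Box) : (env7 b).ax 3 = ax72 (b.m7.dot b.m7) := rfl

theorem b6_ax4 (b : Box) : (env7 b).ax 4 = ax73 (b.m7.dot b.m7) := rfl

theorem b6_ax5 (b : Box) : (env7 b).ax 5 = ax73 (b.m7.dot b.m7) := rfl

/-- representation of the axis data -/
theorem b6_r1 {ε : Fin 6 → ℝ} (hε : ∀ i, |ε i| ≤ 1) {M : P} {τ : ℝ}
    (hM : Rep ε (3 * 2 ^ 26) M (2 ^ 28 * τ ^ 2)) :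
    Rep ε (2 ^ 15) (ax71 M).A (2 ^ 15) ∧ Rep ε 2 (ax71 M).B 2 ∧
      Rep ε (2 ^ 87) (ax71 M).D (2 ^ 28 * (1 + τ ^ 2)) := by
  refine ⟨?_, ?_, ?_⟩
  · exact b6_cv (Rep.nat ε 32768) (by norm_num) (by norm_num)
  · exact b6_cv (Rep.nat ε 2) (by norm_num) (by norm_num)
  · exact b6_cv ((Rep.nat ε 268435456).add hM) (by norm_num) (by push_cast; ring)

theorem b6_r2 {ε : Fin 6 → ℝ} (hε : ∀ i, |ε i| ≤ 1) {M : P} {τ : ℝ}
    (hM : Rep ε (3 * 2 ^ 26) M (2 ^ 28 * τ ^ 2)) :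
    Rep ε (2 ^ 16 * (7 * 2 ^ 26)) (ax72 M).A (2 ^ 44 * (1 - τ ^ 2)) ∧
      Rep ε (2 ^ 31) (ax72 M).B (2 ^ 31) ∧
      Rep ε (2 ^ 87) (ax72 M).D (2 ^ 56 * (1 + τ ^ 2) ^ 2) := by
  refine ⟨?_, ?_, ?_⟩
  · exact b6_cv (((Rep.nat ε 268435456).sub hM).smul 65536) (by norm_num) (by push_cast; ring)
  · exact b6_cv (Rep.nat ε 2147483648) (by norm_num) (by norm_num)
  · exact b6_cv (((Rep.nat ε 268435456).add hM).mul hε ((Rep.nat ε 268435456).add hM))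
      (by norm_num) (by push_cast; ring)

theorem b6_r3 {ε : Fin 6 → ℝ} (hε : ∀ i, |ε i| ≤ 1) {M : P} {τ : ℝ}
    (hM : Rep ε (3 * 2 ^ 26) M (2 ^ 28 * τ ^ 2)) :
    Rep ε (195 * 2 ^ 67) (ax73 M).A (2 ^ 71 * ((3 - τ ^ 2) * (1 - 3 * τ ^ 2))) ∧
      Rep ε (450 * 2 ^ 52) (ax73 M).B (2 ^ 57 * (3 - τ ^ 2) ^ 2) ∧
      Rep ε (2 ^ 87) (ax73 M).D (2 ^ 84 * (1 + τ ^ 2) ^ 3) := by
  refine ⟨?_, ?_, ?_⟩
  · exact b6_cv ((((Rep.nat ε 805306368).sub hM).mul hε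
      ((Rep.nat ε 268435456).sub (hM.smul 3))).smul 32768) (by norm_num) (by push_cast; ring)
  · exact b6_cv ((((Rep.nat ε 805306368).sub hM).mul hε
      ((Rep.nat ε 805306368).sub hM)).smul 2) (by norm_num) (by push_cast; ring)
  · exact b6_cv ((((Rep.nat ε 268435456).add hM).mul hε ((Rep.nat ε 268435456).add hM)).mul hε
      ((Rep.nat ε 268435456).add hM)) (by norm_num) (by push_cast; ring)

theorem b6_m {ε : Fin 6 → ℝ} {b : Box} (hb : b.Inv 8192) {u : E} {τ : ℝ}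
    (h2 : 2 ^ 14 * (τ * u 0 + 1 / 2) = b.c0 + b.h0 * ε 2) (h3 : 2 ^ 14 * (τ * u 1 + 1 / 2) = b.c1 + b.h1 * ε 3)
    (h4 : 2 ^ 14 * (τ * u 2) = b.c2 + b.h2 * ε 4) :
    RepV ε (2 ^ 13) b.m7 (((2 : ℝ) ^ 14 * τ) • u) := by
  have aux : ∀ c h : ℕ, h ≤ c → c + h ≤ 2 * 8192 → |(c : ℝ) - (8192 : ℕ)| + h ≤ 2 ^ 13 := by
    intro c h h1 h2
    have h1' : (h : ℝ) ≤ c := by exact_mod_cast h1
    have h2' : (c : ℝ) + h ≤ 2 * 8192 := by exact_mod_cast h2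
    rcases abs_cases ((c : ℝ) - (8192 : ℕ)) with ⟨h, _⟩ | ⟨h, _⟩
    · rw [h]; push_cast; linarith
    · rw [h]; push_cast; linarith
  refine ⟨?_, ?_, ?_⟩
  · have h := Rep.vars ε 2 b.c0 8192 b.h0 (by norm_num)
    refine b6_cv h (aux _ _ hb.a1 hb.a2) ?_
    rw [PiLp.smul_apply, smul_eq_mul]
    push_cast
    linarith
  · have h := Rep.vars ε 3 b.c1 8192 b.h1 (by norm_num)
    refine b6_cv h (aux _ _ hb.b1 hb.b2) ?_
    rw [PiLp.smul_apply, smul_eq_mul]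
    push_cast
    linarith
  · have h := Rep.var ε 4 b.c2 b.h2
    have hc2 : ((b.c2 : ℝ) + b.h2) ≤ 8192 := by exact_mod_cast hb.c2
    refine b6_cv h (by norm_num; linarith) ?_
    rw [PiLp.smul_apply, smul_eq_mul]
    linarith

theorem env7_rep {ε : Fin 6 → ℝ} (hε : ∀ i, |ε i| ≤ 1) {b : Box} (hb : b.Inv 8192) {z u : E} {τ : ℝ} (hz : z 2 = 1)
    (hu : dt u u = 1) (hτ : 0 < τ) (hτ1 : 0.0520 ≤ τ ^ 2) (hτ2 : τ ^ 2 ≤ 0.2320)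
    (h0 : 2 ^ 14 * z 0 = b.cx + b.hx * ε 0) (h1 : 2 ^ 14 * z 1 = b.cy + b.hy * ε 1)
    (h2 : 2 ^ 14 * (τ * u 0 + 1 / 2) = b.c0 + b.h0 * ε 2) (h3 : 2 ^ 14 * (τ * u 1 + 1 / 2) = b.c1 + b.h1 * ε 3)
    (h4 : 2 ^ 14 * (τ * u 2) = b.c2 + b.h2 * ε 4) :
    EnvRep ε (env7 b) z u ((1 - τ ^ 2) / (1 + τ ^ 2)) (2 * τ / (1 + τ ^ 2)) := by
  have hX : Rep ε 6400 b.X (2 ^ 14 * z 0) :=
    b6_cv (Rep.var ε 0 b.cx b.hx) (by exact_mod_cast hb.x2) h0.symm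
  have hY : Rep ε 10240 b.Y (2 ^ 14 * z 1) :=
    b6_cv (Rep.var ε 1 b.cy b.hy) (by exact_mod_cast hb.y2) h1.symm
  have hm := b6_m hb h2 h3 h4
  have hM : Rep ε (3 * 2 ^ 26) (b.m7.dot b.m7) (2 ^ 28 * τ ^ 2) := by
    refine b6_cv (((hm.1.mul hε hm.1).add (hm.2.1.mul hε hm.2.1)).add (hm.2.2.mul hε hm.2.2))
      (by norm_num) ?_
    simp only [PiLp.smul_apply, smul_eq_mul]
    have hu' : u 0 * u 0 + u 1 * u 1 + u 2 * u 2 = 1 := hu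
    linear_combination (2 ^ 28 * τ ^ 2) * hu'
  have hN : 0 < 1 + τ ^ 2 := by positivity
  have hN0 : 1 + τ ^ 2 ≠ 0 := hN.ne'
  have ph1 := ph_gt
  have ph2 := ph_lt
  have hph : Rep ε (1696632 + 1) phP (2 ^ 20 * ph) := by
    refine b6_cv (Rep.cst ε 1696632 (2 ^ 20 * ph) ?_) (by norm_num) rfl
    rw [abs_le]; push_cast; constructor <;> linarith
  have hph' : Rep ε (648056 + 1) (P.cst 648056) (2 ^ 20 * (ph - 1)) := by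
    refine b6_cv (Rep.cst ε 648056 (2 ^ 20 * (ph - 1)) ?_) (by norm_num) rfl
    rw [abs_le]; push_cast; constructor <;> linarith
  refine ⟨Or.inr ⟨rfl, ?_, ?_⟩, ⟨?_, ?_, ?_⟩, ?_, ?_, ?_⟩
  · rw [le_div_iff₀ hN]; linarith
  · rw [div_le_iff₀ hN]; linarith
  · exact b6_cv hX (by norm_num) (by rw [PiLp.smul_apply, smul_eq_mul])
  · exact b6_cv hY (by norm_num) (by rw [PiLp.smul_apply, smul_eq_mul])
  · exact b6_cv (Rep.nat ε 16384) (by norm_num)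
      (by rw [PiLp.smul_apply, smul_eq_mul, hz]; norm_num)
  · refine b6_cv ((hph'.mul hε hX).add (hph.smul 16384)) (by norm_num) ?_
    have hf0 : f0 0 = ph - 1 := by simp [f0]
    have hf1 : f0 1 = 0 := by simp [f0]
    have hf2 : f0 2 = ph := by simp [f0]
    simp only [dt, hf0, hf1, hf2, hz]
    push_cast
    ring
  · refine b6_cv (((hX.mul hε hX).add (hY.mul hε hY)).add (Rep.nat ε 268435456)) (by norm_num) ?_
    simp only [dt, hz]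
    push_cast
    ring
  · refine ⟨2 ^ 14 * τ, 2 ^ 13, by positivity, by norm_num, hm, ?_⟩
    obtain ⟨A1, B1, D1⟩ := b6_r1 hε hM
    obtain ⟨A2, B2, D2⟩ := b6_r2 hε hM
    obtain ⟨A3, B3, D3⟩ := b6_r3 hε hM
    have s1 : 2 ^ 28 * (1 + τ ^ 2) * (2 * τ / (1 + τ ^ 2)) = 2 ^ 15 * (2 ^ 14 * τ) := by
      field_simp; try ring
    have c1 : 2 ^ 28 * (1 + τ ^ 2) * (1 - (1 - τ ^ 2) / (1 + τ ^ 2)) = 2 * (2 ^ 14 * τ) ^ 2 := by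
      field_simp; try ring
    have s2 : 2 ^ 56 * (1 + τ ^ 2) ^ 2 * (2 * ((1 - τ ^ 2) / (1 + τ ^ 2)) * (2 * τ / (1 + τ ^ 2)))
        = 2 ^ 44 * (1 - τ ^ 2) * (2 ^ 14 * τ) := by
      field_simp; try ring
    have c2 : 2 ^ 56 * (1 + τ ^ 2) ^ 2 *
        (1 - (((1 - τ ^ 2) / (1 + τ ^ 2)) ^ 2 - (2 * τ / (1 + τ ^ 2)) ^ 2))
        = 2 ^ 31 * (2 ^ 14 * τ) ^ 2 := by
      field_simp; try ring
    have s3 : 2 ^ 84 * (1 + τ ^ 2) ^ 3 * ((2 * τ / (1 + τ ^ 2)) *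
        (((1 - τ ^ 2) / (1 + τ ^ 2)) ^ 2 - (2 * τ / (1 + τ ^ 2)) ^ 2) +
        ((1 - τ ^ 2) / (1 + τ ^ 2)) * (2 * ((1 - τ ^ 2) / (1 + τ ^ 2)) * (2 * τ / (1 + τ ^ 2))))
        = 2 ^ 71 * ((3 - τ ^ 2) * (1 - 3 * τ ^ 2)) * (2 ^ 14 * τ) := by
      field_simp; try ring
    have c3 : 2 ^ 84 * (1 + τ ^ 2) ^ 3 * (1 - (((1 - τ ^ 2) / (1 + τ ^ 2)) *
        (((1 - τ ^ 2) / (1 + τ ^ 2)) ^ 2 - (2 * τ / (1 + τ ^ 2)) ^ 2) -
        (2 * τ / (1 + τ ^ 2)) * (2 * ((1 - τ ^ 2) / (1 + τ ^ 2)) * (2 * τ / (1 + τ ^ 2)))))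
        = 2 ^ 57 * (3 - τ ^ 2) ^ 2 * (2 ^ 14 * τ) ^ 2 := by
      field_simp; try ring
    have pD1 : 0 < 2 ^ 28 * (1 + τ ^ 2) := by positivity
    have pD2 : 0 < 2 ^ 56 * (1 + τ ^ 2) ^ 2 := by positivity
    have pD3 : 0 < 2 ^ 84 * (1 + τ ^ 2) ^ 3 := by positivity
    intro j hj
    have hj6 : j < 6 := hj
    interval_cases j
    · refine ⟨_, _, _, _, _, pD1, A1, B1, D1, by norm_num, by norm_num, fun w => ?_⟩
      have e1 : ps ((1 - τ ^ 2) / (1 + τ ^ 2)) (2 * τ / (1 + τ ^ 2)) 0 = 2 * τ / (1 + τ ^ 2) := by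
        simp [ps]
      have e2 : pc ((1 - τ ^ 2) / (1 + τ ^ 2)) (2 * τ / (1 + τ ^ 2)) 0
          = (1 - τ ^ 2) / (1 + τ ^ 2) := by simp [pc]
      rw [e1, e2, if_pos rfl]
      exact b6_rot hu s1 c1 w
    · refine ⟨_, _, _, _, _, pD1, A1, B1, D1, by norm_num, by norm_num, fun w => ?_⟩
      have e1 : ps ((1 - τ ^ 2) / (1 + τ ^ 2)) (2 * τ / (1 + τ ^ 2)) 1 = -(2 * τ / (1 + τ ^ 2)) := by
        simp [ps]
      have e2 : pc ((1 - τ ^ 2) / (1 + τ ^ 2)) (2 * τ / (1 + τ ^ 2)) 1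
          = (1 - τ ^ 2) / (1 + τ ^ 2) := by simp [pc]
      rw [e1, e2, if_neg (by norm_num)]
      exact b6_rotn hu s1 c1 w
    · refine ⟨_, _, _, _, _, pD2, A2, B2, D2, by norm_num, by norm_num, fun w => ?_⟩
      have e1 : ps ((1 - τ ^ 2) / (1 + τ ^ 2)) (2 * τ / (1 + τ ^ 2)) 2
          = 2 * ((1 - τ ^ 2) / (1 + τ ^ 2)) * (2 * τ / (1 + τ ^ 2)) := by
        simp [ps]
      have e2 : pc ((1 - τ ^ 2) / (1 + τ ^ 2)) (2 * τ / (1 + τ ^ 2)) 2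
          = ((1 - τ ^ 2) / (1 + τ ^ 2)) ^ 2 - (2 * τ / (1 + τ ^ 2)) ^ 2 := by simp [pc]
      rw [e1, e2, if_pos rfl]
      exact b6_rot hu s2 c2 w
    · refine ⟨_, _, _, _, _, pD2, A2, B2, D2, by norm_num, by norm_num, fun w => ?_⟩
      have e1 : ps ((1 - τ ^ 2) / (1 + τ ^ 2)) (2 * τ / (1 + τ ^ 2)) 3
          = -(2 * ((1 - τ ^ 2) / (1 + τ ^ 2)) * (2 * τ / (1 + τ ^ 2))) := by
        simp [ps]
      have e2 : pc ((1 - τ ^ 2) / (1 + τ ^ 2)) (2 * τ / (1 + τ ^ 2)) 3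
          = ((1 - τ ^ 2) / (1 + τ ^ 2)) ^ 2 - (2 * τ / (1 + τ ^ 2)) ^ 2 := by simp [pc]
      rw [e1, e2, if_neg (by norm_num)]
      exact b6_rotn hu s2 c2 w
    · refine ⟨_, _, _, _, _, pD3, A3, B3, D3, by norm_num, by norm_num, fun w => ?_⟩
      have e1 : ps ((1 - τ ^ 2) / (1 + τ ^ 2)) (2 * τ / (1 + τ ^ 2)) 4
          = (2 * τ / (1 + τ ^ 2)) *
        (((1 - τ ^ 2) / (1 + τ ^ 2)) ^ 2 - (2 * τ / (1 + τ ^ 2)) ^ 2) +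
        ((1 - τ ^ 2) / (1 + τ ^ 2)) * (2 * ((1 - τ ^ 2) / (1 + τ ^ 2)) * (2 * τ / (1 + τ ^ 2))) := by
        simp [ps]
      have e2 : pc ((1 - τ ^ 2) / (1 + τ ^ 2)) (2 * τ / (1 + τ ^ 2)) 4
          = ((1 - τ ^ 2) / (1 + τ ^ 2)) *
        (((1 - τ ^ 2) / (1 + τ ^ 2)) ^ 2 - (2 * τ / (1 + τ ^ 2)) ^ 2) -
        (2 * τ / (1 + τ ^ 2)) * (2 * ((1 - τ ^ 2) / (1 + τ ^ 2)) * (2 * τ / (1 + τ ^ 2))) := by
        simp [pc]
      rw [e1, e2, if_pos rfl]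
      exact b6_rot hu s3 c3 w
    · refine ⟨_, _, _, _, _, pD3, A3, B3, D3, by norm_num, by norm_num, fun w => ?_⟩
      have e1 : ps ((1 - τ ^ 2) / (1 + τ ^ 2)) (2 * τ / (1 + τ ^ 2)) 5
          = -((2 * τ / (1 + τ ^ 2)) *
        (((1 - τ ^ 2) / (1 + τ ^ 2)) ^ 2 - (2 * τ / (1 + τ ^ 2)) ^ 2) +
        ((1 - τ ^ 2) / (1 + τ ^ 2)) * (2 * ((1 - τ ^ 2) / (1 + τ ^ 2)) * (2 * τ / (1 + τ ^ 2)))) := by
        rw [ps, if_neg (by norm_num), if_neg (by norm_num), if_neg (by norm_num)]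
        ring
      have e2 : pc ((1 - τ ^ 2) / (1 + τ ^ 2)) (2 * τ / (1 + τ ^ 2)) 5
          = ((1 - τ ^ 2) / (1 + τ ^ 2)) *
        (((1 - τ ^ 2) / (1 + τ ^ 2)) ^ 2 - (2 * τ / (1 + τ ^ 2)) ^ 2) -
        (2 * τ / (1 + τ ^ 2)) * (2 * ((1 - τ ^ 2) / (1 + τ ^ 2)) * (2 * τ / (1 + τ ^ 2))) := by
        simp [pc]
      rw [e1, e2, if_neg (by norm_num)]
      exact b6_rotn hu s3 c3 w

end Pool.Agent.H304.K

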