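import Pool.Agent.helper304_full.KDefs
import Pool.Agent.helper304_full.B12
import Pool.Agent.helper304_full.B13
import Pool.Agent.helper304_full.B14
import Pool.Agent.helper304_full.B15
import Pool.Agent.helper304_full.B6
import Pool.Agent.helper304_full.B9
import Pool.Agent.helper304_full.K1
import Pool.Agent.helper304_full.K2
import Pool.Agent.helper304_full.K4

set_option autoImplicit false

set_option maxRecDepth 100000
set_option exponentiation.threshold 100000

namespace Pool.Agent.H304

end Pool.Agent.H304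

namespace Pool.Agent.H304.K

theorem b17_eps {p : ℝ} {c h : ℕ} (H : |p - (c : ℝ)| ≤ (h : ℝ)) : ∃ e : ℝ, |e| ≤ 1 ∧ p = c + h * e := by
  rcases Nat.eq_zero_or_pos h with h0 | h0
  · subst h0
    refine ⟨0, by simp, ?_⟩
    have : |p - (c : ℝ)| = 0 := le_antisymm (by simpa using H) (abs_nonneg _)
    have := abs_eq_zero.mp this
    push_cast
    linarith
  · have hp : (0 : ℝ) < h := by exact_mod_cast h0
    refine ⟨(p - c) / h, ?_, ?_⟩
    · rw [abs_div, abs_of_pos hp, div_le_one hp]
      exact H
    · field_simp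
      ring

theorem b17_ok {b : Bool} {n r : ℕ} (h : ok b n = r + 1) : b = true := by
  cases b
  · simp [ok] at h
  · rfl

theorem b17_land {a k n : ℕ} (hk : k = 2 ^ n - 1) : Nat.land a k < 2 ^ n := by
  subst hk
  have : Nat.land a (2 ^ n - 1) = a % 2 ^ n := Nat.and_two_pow_sub_one_eq_mod a n
  rw [this]
  exact Nat.mod_lt _ (by positivity)

theorem b17_get {b : Box} {z u : E} {τ : ℝ} (hin : b.In (pt7 z u τ)) :
    ∃ ε : Fin 6 → ℝ, (∀ i, |ε i| ≤ 1) ∧ 2 ^ 14 * z 0 = b.cx + b.hx * ε 0 ∧ 2 ^ 14 * z 1 = b.cy + b.hy * ε 1 ∧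
      2 ^ 14 * (τ * u 0 + 1 / 2) = b.c0 + b.h0 * ε 2 ∧ 2 ^ 14 * (τ * u 1 + 1 / 2) = b.c1 + b.h1 * ε 3 ∧
      2 ^ 14 * (τ * u 2) = b.c2 + b.h2 * ε 4 := by
  obtain ⟨e0, a0, q0⟩ := b17_eps hin.i0
  obtain ⟨e1, a1, q1⟩ := b17_eps hin.i1
  obtain ⟨e2, a2, q2⟩ := b17_eps hin.i2
  obtain ⟨e3, a3, q3⟩ := b17_eps hin.i3
  obtain ⟨e4, a4, q4⟩ := b17_eps hin.i4
  refine ⟨![e0, e1, e2, e3, e4, 0], ?_, ?_, ?_, ?_, ?_, ?_⟩
  · intro i
    fin_cases i
    · exact a0
    · exact a1
    · exact a2
    · exact a3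
    · exact a4
    · simp
  · simpa [pt7] using q0
  · simpa [pt7] using q1
  · simpa [pt7] using q2
  · simpa [pt7] using q3
  · simpa [pt7] using q4

theorem b17_upd {ε : Fin 6 → ℝ} (hε : ∀ i, |ε i| ≤ 1) {t : ℝ} (ht : |t| ≤ 1) :
    ∀ i, |Function.update ε 5 t i| ≤ 1 := by
  intro i
  by_cases h : i = 5
  · subst h
    simpa using ht
  · rw [Function.update_of_ne h]
    exact hε i

theorem b17_five {e : Env} {ε : Fin 6 → ℝ} (hε : ∀ i, |ε i| ≤ 1) {InX : E → Prop} {z u : E} {c s lam S tt : ℝ}
    (he : ∀ t : ℝ, |t| ≤ 1 → EnvRep (Function.update ε 5 t) e z u c s) (he0 : EnvRep ε e z u c s)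
    (G : Geo InX z u c s lam S tt) {κ Sb : ℕ} (hV : Val lam S κ Sb) {h code r : ℕ} (hh : h < 2 ^ 15)
    (hb : tbound e κ h = true) (hr : runT 10 e κ Sb h h code = r + 1) : False := by
  have h1 := tbound_sound hε he0 G hV hh hb
  have h2 : 0 < tt := G.tt0
  refine runT_sound hε he G hV 10 h h code r le_rfl ?_ ?_ hr
  · omega
  · rw [abs_le]
    constructor
    · nlinarith
    · linarith

theorem run7_sound (fuel : ℕ) : ∀ (b : Box) (κ Sb code r : ℕ), b.Inv 8192 → run7 fuel b κ Sb code = r + 1 → OK7 b κ Sb := by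
  induction fuel with
  | zero =>
    intro b κ Sb code r hb h
    exact absurd h (by simp [run7, run])
  | succ fuel ih =>
    intro b κ Sb code r hb h
    have ih' : ∀ (b : Box) (κ Sb code r : ℕ), b.Inv 8192 → run env7 rout7 chain7 fuel b κ Sb code = r + 1 → OK7 b κ Sb := ih
    unfold run7 run at h
    split at h
    · -- split
      split at h
      · exact absurd h (by simp)
      · rename_i r' heq
        have hk : b.even (fld code 3 7) = true := by
          by_contra hne
          rw [Bool.not_eq_true] at hne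
          rw [hne] at heq
          simp at heq
        rw [hk] at heq
        have hs := Box.split hb hk
        intro InX z u τ lam S tt G hτ h1 h2 hu hin hV
        rcases hs.2.2 _ hin with hl | hl
        · exact ih' _ κ Sb _ r' hs.1 heq InX z u τ lam S tt G hτ h1 h2 hu hl hV
        · exact ih' _ κ Sb _ r hs.2.1 h InX z u τ lam S tt G hτ h1 h2 hu hl hV
    · have h := b17_ok h
      intro InX z u τ lam S tt G hτ h1 h2 hu hin hV
      obtain ⟨ε, hε, q0, q1, q2, q3, q4⟩ := b17_get hin
      exact dirout_sound hε (env7_rep hε hb G.z2 G.unit hτ h1 h2 q0 q1 q2 q3 q4) G.z2 G.cone h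
    · have h := b17_ok h
      intro InX z u τ lam S tt G hτ h1 h2 hu hin hV
      obtain ⟨ε, hε, q0, q1, q2, q3, q4⟩ := b17_get hin
      exact rout7_sound hε hb G.unit h1 h2 q2 q3 q4 h
    · have h := b17_ok h
      intro InX z u τ lam S tt G hτ h1 h2 hu hin hV
      obtain ⟨ε, hε, q0, q1, q2, q3, q4⟩ := b17_get hin
      exact zleaf_sound hε (env7_rep hε hb G.z2 G.unit hτ h1 h2 q0 q1 q2 q3 q4) G hV
        (b17_land (n := 13) (by norm_num)) h
    · intro InX z u τ lam S tt G hτ h1 h2 hu hin hV
      obtain ⟨ε, hε, q0, q1, q2, q3, q4⟩ := b17_get hin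
      have he := env7_rep hε hb G.z2 G.unit hτ h1 h2 q0 q1 q2 q3 q4
      have hs : setok (env7 b) (fld code 3 32767) (fld code 18 1048575) (fld code 38 16383) = true := by
        by_contra hne
        rw [Bool.not_eq_true] at hne
        rw [hne] at h
        simp at h
      rw [hs] at h
      have hV' := setok_sound hε he G (b17_land (n := 15) (by norm_num)) (b17_land (n := 20) (by norm_num))
        (b17_land (n := 14) (by norm_num)) hs
      exact ih' _ _ _ _ r hb h InX z u τ lam S tt G hτ h1 h2 hu hin hV'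
    · intro InX z u τ lam S tt G hτ h1 h2 hu hin hV
      obtain ⟨ε, hε, q0, q1, q2, q3, q4⟩ := b17_get hin
      have he := env7_rep hε hb G.z2 G.unit hτ h1 h2 q0 q1 q2 q3 q4
      have hs : tbound (env7 b) κ (fld code 3 32767) = true := by
        by_contra hne
        rw [Bool.not_eq_true] at hne
        rw [hne] at h
        simp at h
      rw [hs] at h
      refine b17_five hε ?_ he G hV (b17_land (n := 15) (by norm_num)) hs h
      intro t ht
      have hu' := b17_upd hε ht
      refine env7_rep hu' hb G.z2 G.unit hτ h1 h2 ?_ ?_ ?_ ?_ ?_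
      · rw [Function.update_of_ne (by decide)]; exact q0
      · rw [Function.update_of_ne (by decide)]; exact q1
      · rw [Function.update_of_ne (by decide)]; exact q2
      · rw [Function.update_of_ne (by decide)]; exact q3
      · rw [Function.update_of_ne (by decide)]; exact q4
    · have h := b17_ok h
      exact absurd h (by simp [chain7])
    · exact absurd h (by simp)

end Pool.Agent.H304.K

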