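import Pool.Agent.helper304_full.KDefs
import Pool.Agent.helper304_full.A1

set_option autoImplicit false

set_option maxRecDepth 100000
set_option exponentiation.threshold 100000

namespace Pool.Agent.H304

end Pool.Agent.H304

namespace Pool.Agent.H304.K

theorem b18_ster {u : E} (hu : dt u u = 1) (h2 : 0 ≤ u 2) :
    ster (u 0 / (1 + u 2)) (u 1 / (1 + u 2)) = u ∧ (u 0 / (1 + u 2)) ^ 2 + (u 1 / (1 + u 2)) ^ 2 ≤ 1 := by
  have hpos : (0 : ℝ) < 1 + u 2 := by linarith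
  have hne : (1 + u 2 : ℝ) ≠ 0 := hpos.ne'
  have hu' : u 0 ^ 2 + u 1 ^ 2 = (1 - u 2) * (1 + u 2) := by
    simp only [dt] at hu
    linear_combination hu
  have hsum : (u 0 / (1 + u 2)) ^ 2 + (u 1 / (1 + u 2)) ^ 2 = (1 - u 2) / (1 + u 2) := by
    rw [div_pow, div_pow, ← add_div, hu', sq, mul_div_mul_right _ _ hne]
  have h1 : 1 + (u 0 / (1 + u 2)) ^ 2 + (u 1 / (1 + u 2)) ^ 2 = 2 / (1 + u 2) := by
    rw [add_assoc, hsum]
    field_simp
    ring
  have h3 : 1 - (u 0 / (1 + u 2)) ^ 2 - (u 1 / (1 + u 2)) ^ 2 = 2 * u 2 / (1 + u 2) := by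
    rw [sub_sub, hsum]
    field_simp
    ring
  refine ⟨?_, ?_⟩
  · unfold ster
    rw [h1, h3]
    apply ext3
    · simp
      field_simp
    · simp
      field_simp
    · simp
      field_simp
  · rw [hsum, div_le_one hpos]
    linarith

theorem b18_pos (h : OK5 ⟨3200, 3200, 5120, 5120, 16384, 16384, 16384, 16384, 0, 0⟩ 0 4096) {InX : E → Prop} {z u : E} {lam S tt : ℝ}
    (G : Geo InX z u C5 S5 lam S tt) (h2 : 0 ≤ u 2) : False := by
  obtain ⟨hs, hle⟩ := b18_ster G.unit h2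
  have hph1 := ph_gt
  have hph2 := ph_lt
  obtain ⟨hz0, hz1, hz2⟩ := G.cone
  rw [G.z2] at hz2
  have e0 : z 0 ≤ 6400 / 2 ^ 14 := by
    by_contra hc
    push Not at hc
    have a1 : (2.6180339 : ℝ) * z 0 ≤ (ph + 1) * z 0 := mul_le_mul_of_nonneg_right (by linarith) hz0
    have a2 : 0 ≤ ph * z 1 := mul_nonneg (by linarith) hz1
    norm_num at hc
    linarith
  have e1 : z 1 ≤ 10240 / 2 ^ 14 := by
    by_contra hc
    push Not at hc
    have a1 : (1.6180339 : ℝ) * z 1 ≤ ph * z 1 := mul_le_mul_of_nonneg_right (by linarith) hz1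
    have a2 : 0 ≤ (ph + 1) * z 0 := mul_nonneg (by linarith) hz0
    norm_num at hc
    linarith
  have hα : |u 0 / (1 + u 2)| ≤ 1 := by
    rw [← sq_le_one_iff_abs_le_one]
    nlinarith [sq_nonneg (u 1 / (1 + u 2))]
  have hβ : |u 1 / (1 + u 2)| ≤ 1 := by
    rw [← sq_le_one_iff_abs_le_one]
    nlinarith [sq_nonneg (u 0 / (1 + u 2))]
  rw [abs_le] at hα hβ
  have hS : S ≤ 1 := by
    have hSa := G.Sa
    have e : dt z f0 = z 0 * (ph - 1) + z 2 * ph := by
      simp [dt, f0]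
    rw [e, G.z2] at hSa
    have a1 : z 0 * (ph - 1) ≤ z 0 * 1 := mul_le_mul_of_nonneg_left (by linarith) hz0
    have e0' : z 0 ≤ 0.4 := le_trans e0 (by norm_num)
    linarith
  have hG : Geo InX z (ster (u 0 / (1 + u 2)) (u 1 / (1 + u 2))) C5 S5 lam S tt := by
    rw [hs]; exact G
  refine h InX z (u 0 / (1 + u 2)) (u 1 / (1 + u 2)) lam S tt hG hle ?_ ?_
  · refine ⟨?_, ?_, ?_, ?_, ?_⟩
    · simp only [pt5, Matrix.cons_val_zero]
      rw [abs_le]
      norm_num at e0 ⊢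
      constructor <;> linarith
    · simp only [pt5, Matrix.cons_val_one, Matrix.cons_val_zero]
      rw [abs_le]
      norm_num at e1 ⊢
      constructor <;> linarith
    · have e : pt5 z (u 0 / (1 + u 2)) (u 1 / (1 + u 2)) 2 = 2 ^ 14 * (u 0 / (1 + u 2) + 1) := rfl
      rw [e, abs_le]
      push_cast
      constructor <;> linarith [hα.1, hα.2]
    · have e : pt5 z (u 0 / (1 + u 2)) (u 1 / (1 + u 2)) 3 = 2 ^ 14 * (u 1 / (1 + u 2) + 1) := rfl
      rw [e, abs_le]
      push_cast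
      constructor <;> linarith [hβ.1, hβ.2]
    · have e : pt5 z (u 0 / (1 + u 2)) (u 1 / (1 + u 2)) 4 = 0 := rfl
      rw [e]
      norm_num
  · refine ⟨?_, ?_, ?_, ?_⟩
    · norm_num
    · norm_num
      exact hS
    · norm_num
    · norm_num

theorem geo5_of (h : OK5 ⟨3200, 3200, 5120, 5120, 16384, 16384, 16384, 16384, 0, 0⟩ 0 4096) {InX : E → Prop} {z u : E} {lam S tt : ℝ}
    (G : Geo InX z u C5 S5 lam S tt) : False := by
  rcases le_total 0 (u 2) with h2 | h2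
  · exact b18_pos h G h2
  · refine b18_pos h (Geo.neg G) ?_
    have e : (-u) 2 = -(u 2) := rfl
    rw [e]
    linarith

end Pool.Agent.H304.K

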