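import Pool.Agent.helper304_full.KDefs
import Pool.Agent.helper304_full.A1

set_option autoImplicit false

set_option maxRecDepth 100000
set_option exponentiation.threshold 100000

namespace Pool.Agent.H304

end Pool.Agent.H304

namespace Pool.Agent.H304.K

theorem b19_aux (h : OK7 ⟨3200, 3200, 5120, 5120, 8192, 8192, 8192, 8192, 4096, 4096⟩ 0 4096) {InX : E → Prop} {z u : E} {c s lam S tt : ℝ}
    (G : Geo InX z u c s lam S tt) (h1 : 0.6234 ≤ c) (h2 : c ≤ 0.9011) (hu : 0 ≤ u 2) (hs : 0 ≤ s) : False := by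
  have hcs := G.cs
  have hs2 : s ^ 2 = 1 - c ^ 2 := by linarith
  have hs0 : 0 < s := by
    rcases hs.eq_or_lt with h0 | h0
    · rw [← h0] at hs2
      nlinarith
    · exact h0
  have hc0 : 0 < 1 + c := by linarith
  have hτ2 : (s / (1 + c)) ^ 2 = (1 - c) / (1 + c) := by
    rw [div_pow, hs2]
    field_simp
    ring
  have hτ0 : 0 < s / (1 + c) := div_pos hs0 hc0
  have e1 : (1 - (s / (1 + c)) ^ 2) / (1 + (s / (1 + c)) ^ 2) = c := by
    rw [hτ2]
    field_simp
    ring
  have e2 : 2 * (s / (1 + c)) / (1 + (s / (1 + c)) ^ 2) = s := by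
    rw [hτ2]
    field_simp
    ring
  have hlo : 0.0520 ≤ (s / (1 + c)) ^ 2 := by
    rw [hτ2, le_div_iff₀ hc0]
    linarith
  have hhi : (s / (1 + c)) ^ 2 ≤ 0.2320 := by
    rw [hτ2, div_le_iff₀ hc0]
    linarith
  generalize s / (1 + c) = τ at hτ0 e1 e2 hlo hhi
  have hτh : τ ≤ 1 / 2 := by nlinarith
  have hunit := G.unit
  simp only [dt] at hunit
  obtain ⟨hz0, hz1, hz⟩ := G.cone
  rw [G.z2] at hz
  have hp1 := ph_gt
  have hp2 := ph_lt
  have hz0' : z 0 ≤ 0.39 := by nlinarith [mul_nonneg (by linarith : (0 : ℝ) ≤ ph - 1.6180339) hz0, mul_nonneg (by linarith : (0 : ℝ) ≤ ph) hz1]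
  have hz1' : z 1 ≤ 0.62 := by nlinarith [mul_nonneg (by linarith : (0 : ℝ) ≤ ph - 1.6180339) hz1, mul_nonneg (by linarith : (0 : ℝ) ≤ ph + 1) hz0]
  have hgen : ∀ x : ℝ, x * x ≤ 1 → |τ * x| ≤ 1 / 2 := by
    intro x hx
    rw [abs_mul, abs_of_pos hτ0]
    have h3 : |x| ≤ 1 := abs_le_one_iff_mul_self_le_one.2 hx
    have h4 := abs_nonneg x
    nlinarith
  have hu0 : |τ * u 0| ≤ 1 / 2 := hgen _ (by linarith [mul_self_nonneg (u 1), mul_self_nonneg (u 2)])
  have hu1 : |τ * u 1| ≤ 1 / 2 := hgen _ (by linarith [mul_self_nonneg (u 0), mul_self_nonneg (u 2)])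
  have hu2 : τ * u 2 ≤ 1 / 2 := (le_abs_self _).trans (hgen _ (by linarith [mul_self_nonneg (u 0), mul_self_nonneg (u 1)]))
  have hu2' : 0 ≤ τ * u 2 := mul_nonneg hτ0.le hu
  rw [abs_le] at hu0 hu1
  refine h InX z u τ lam S tt (by rw [e1, e2]; exact G) hτ0 hlo hhi hu ?_ ?_
  · constructor
    · simp only [pt7, Matrix.cons_val]
      rw [abs_le]
      constructor <;> push_cast <;> linarith
    · simp only [pt7, Matrix.cons_val]
      rw [abs_le]
      constructor <;> push_cast <;> linarith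
    · simp only [pt7, Matrix.cons_val]
      rw [abs_le]
      constructor <;> push_cast <;> linarith
    · simp only [pt7, Matrix.cons_val]
      rw [abs_le]
      constructor <;> push_cast <;> linarith
    · simp only [pt7, Matrix.cons_val]
      rw [abs_le]
      constructor <;> push_cast <;> linarith
  · have hSa := G.Sa
    simp only [dt, f0] at hSa
    simp at hSa
    rw [G.z2] at hSa
    constructor
    · norm_num
    · push_cast
      norm_num
      nlinarith [mul_nonneg (by linarith : (0 : ℝ) ≤ 2 - ph) hz0]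
    · norm_num
    · norm_num

theorem geo7_of (h : OK7 ⟨3200, 3200, 5120, 5120, 8192, 8192, 8192, 8192, 4096, 4096⟩ 0 4096) {InX : E → Prop} {z u : E} {c s lam S tt : ℝ}
    (G : Geo InX z u c s lam S tt) (h1 : 0.6234 ≤ c) (h2 : c ≤ 0.9011) : False := by
  have hneg : (-u) 2 = - u 2 := by simp
  rcases le_total 0 (u 2) with hu | hu
  · rcases le_total 0 s with hs | hs
    · exact b19_aux h G h1 h2 hu hs
    · exact b19_aux h (Geo.negs G) h1 h2 hu (by linarith)
  · rcases le_total 0 s with hs | hs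
    · exact b19_aux h (Geo.neg G) h1 h2 (by rw [hneg]; linarith) hs
    · exact b19_aux h (Geo.negs (Geo.neg G)) h1 h2 (by rw [hneg]; linarith) (by linarith)

end Pool.Agent.H304.K

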