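import Pool.Agent.helper304_ico.WorldDefs

set_option autoImplicit false

namespace Pool.Agent.H304


/-- golden ratio -/
noncomputable def ph : ℝ := (1 + Real.sqrt 5) / 2

lemma ph_sq : ph ^ 2 = ph + 1 := by
  have := sqrt5_sq
  unfold ph
  linear_combination (1 / 4) * this
lemma ph_gt : 1.6180339 < ph := by
  have := sqrt5_gt
  unfold ph
  linarith
lemma ph_lt : ph < 1.6180340 := by
  have := sqrt5_lt
  unfold ph
  linarith
lemma C5_ph : C5 = (ph - 1) / 2 := by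
  unfold C5 ph
  ring

/-- the twelve vertices `(0, ±1, ±ph)` and cyclic permutations, of squared norm `ph + 2` -/
def IsVtx (v : E) : Prop := ∃ σ τ : ℝ, (σ = 1 ∨ σ = -1) ∧ (τ = 1 ∨ τ = -1) ∧
  (v = !₂[0, σ, τ * ph] ∨ v = !₂[σ, τ * ph, 0] ∨ v = !₂[τ * ph, 0, σ])

/-- the twenty face directions, of squared norm `3` -/
def IsFace (f : E) : Prop :=
  (∃ σ τ ρ : ℝ, (σ = 1 ∨ σ = -1) ∧ (τ = 1 ∨ τ = -1) ∧ (ρ = 1 ∨ ρ = -1) ∧ f = !₂[σ, τ, ρ]) ∨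
  ∃ σ τ : ℝ, (σ = 1 ∨ σ = -1) ∧ (τ = 1 ∨ τ = -1) ∧
    (f = !₂[σ * (ph - 1), 0, τ * ph] ∨ f = !₂[τ * ph, σ * (ph - 1), 0] ∨ f = !₂[0, τ * ph, σ * (ph - 1)])

/-- on one of the six five-fold axes -/
def OnStar (y : E) : Prop := ∃ v, IsVtx v ∧ cr v y = 0

noncomputable def vA : E := !₂[0, 1, ph]
noncomputable def vB : E := !₂[0, -1, ph]
noncomputable def vC : E := !₂[ph, 0, 1]
noncomputable def f0 : E := !₂[ph - 1, 0, ph]

/-- rotation by `72 σ` degrees about the vertex direction `v` (`dt v v = ph + 2`) -/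
noncomputable def rv (v : E) (σ : ℝ) (w : E) : E :=
  C5 • w + (σ / 2) • cr v w + ((2 - ph) / 2 * dt v w) • v

/-- table of the sixty icosahedral rotations: hexadecimal digit `9 i + 3 r + c` codes twice the entry `(r, c)` of the `i`-th matrix -/
def GT : ℕ := 83901024776925176880077092388261952674951178060255690978095483075614543105526004274321969531485995724780731474416817786737143247767542588415067731168593712626884110193103237167866108910214289790165772570093779869713767874795258807407468554133107539443758016361416499259894941804658514008379156099662819701770821278731003387829244437021398596227596998123314393968970350348171656665917187491440133746248886308192737388099619175263230650342546720868070931273058650383997173358139896451902800611924269025520567933916886299904575440555932100510927459823665688702242104123848491003301976257258963892260521506374688294340314352858880451640126397684853964807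

def gcode (i r c : ℕ) : ℕ := GT / 16 ^ (9 * i + 3 * r + c) % 16
def cvA (k : ℕ) : ℤ := match k with
  | 1 => 1 | 2 => -1 | 5 => -1 | 6 => 1 | 7 => 2 | 8 => -2 | _ => 0
def cvB (k : ℕ) : ℤ := match k with
  | 3 => 1 | 4 => -1 | 5 => 1 | 6 => -1 | _ => 0
noncomputable def gent (i r c : ℕ) : ℝ := ((cvA (gcode i r c) : ℝ) + (cvB (gcode i r c) : ℝ) * ph) / 2
noncomputable def act (i : ℕ) (v : E) : E :=
  !₂[gent i 0 0 * v 0 + gent i 0 1 * v 1 + gent i 0 2 * v 2,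
    gent i 1 0 * v 0 + gent i 1 1 * v 1 + gent i 1 2 * v 2,
    gent i 2 0 * v 0 + gent i 2 1 * v 1 + gent i 2 2 * v 2]

/-- good vertex in direction `w` -/
def VV (X : Set E) (u : E → E) (c s : E → ℝ) (q : E) (a : ℝ) (w : E) : Prop :=
  q + a • w ∈ X ∧ cr (u (q + a • w)) w = 0 ∧ c (q + a • w) = C5 ∧ s (q + a • w) = S5

/-- icosahedron whose twelve vertices are good -/
structure IcoV (X : Set E) (q : E) (a : ℝ) (p₀ p₁ : E) (u : E → E) (c s : E → ℝ) : Prop where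
  apos : 0 < a
  n0 : dt p₀ p₀ = 1
  n1 : dt p₁ p₁ = 1
  ad : (1 - C5) * dt p₀ p₁ = C5
  v0 : ∀ σ : ℝ, (σ = 1 ∨ σ = -1) → VV X u c s q a (σ • p₀)
  v1 : ∀ σ : ℝ, (σ = 1 ∨ σ = -1) → ∀ n : ℕ, VV X u c s q a (σ • (rot p₀ C5 S5)^[n] p₁)



/-- general world: covering radius `R`; every point of `X` within `T` of `p₀` has a rotation preserving its `2R`-cluster -/
structure GW2 (X : Set E) (R : ℝ) (p₀ : E) (T : ℝ) (u : E → E) (c s : E → ℝ) : Prop where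
  Rpos : 0 < R
  cov : ∀ y : E, ∃ x ∈ X, ‖x - y‖ ≤ R
  fin : ∀ K : ℝ, (X ∩ {x | ‖x‖ ≤ K}).Finite
  unit : ∀ x ∈ X, ‖x - p₀‖ ≤ T → dt (u x) (u x) = 1
  cs : ∀ x ∈ X, ‖x - p₀‖ ≤ T → c x ^ 2 + s x ^ 2 = 1
  ang : ∀ x ∈ X, ‖x - p₀‖ ≤ T → (c x = C5 ∧ s x = S5) ∨ (0.6234 ≤ c x ∧ c x ≤ 0.9011)
  rot : ∀ x ∈ X, ‖x - p₀‖ ≤ T → ∀ v : E, ‖v‖ ≤ 2 * R → x + v ∈ X →
    x + rot (u x) (c x) (s x) v ∈ X ∧ x + rot (u x) (c x) (-(s x)) v ∈ X

/-- normalised icosahedral world: covering radius 1, icosahedron with vertices `q • v` centred at the origin -/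
structure IW (X : Set E) (u : E → E) (c s : E → ℝ) (q : ℝ) : Prop where
  cov : ∀ y : E, ∃ x ∈ X, ‖x - y‖ ≤ 1
  fin : ∀ K : ℝ, (X ∩ {x | ‖x‖ ≤ K}).Finite
  unit : ∀ x ∈ X, ‖x‖ ≤ 10 → dt (u x) (u x) = 1
  cs : ∀ x ∈ X, ‖x‖ ≤ 10 → c x ^ 2 + s x ^ 2 = 1
  ang : ∀ x ∈ X, ‖x‖ ≤ 10 → (c x = C5 ∧ s x = S5) ∨ (0.6234 ≤ c x ∧ c x ≤ 0.9011)
  rot : ∀ x ∈ X, ‖x‖ ≤ 10 → ∀ v : E, ‖v‖ ≤ 2 → x + v ∈ X →
    x + rot (u x) (c x) (s x) v ∈ X ∧ x + rot (u x) (c x) (-(s x)) v ∈ X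
  qpos : 0 < q
  qle : q ^ 2 * (ph + 2) ≤ 2.8945
  vtx : ∀ v, IsVtx v → q • v ∈ X ∧ cr (u (q • v)) v = 0 ∧ c (q • v) = C5 ∧ s (q • v) = S5
  coax : ∀ x ∈ X, ∀ y ∈ X, ‖x‖ ≤ 10 * q → ‖y‖ ≤ 10 * q → x ≠ y →
    dt (y - x) (y - x) < 0.9998 * (q ^ 2 * (ph + 2)) → cr (u x) (y - x) = 0 ∧ cr (u y) (y - x) = 0

def Good (u : E → E) (x : E) : Prop := ∃ v, IsVtx v ∧ cr v x = 0 ∧ cr v (u x) = 0

/-- `z` is a bad point of `X` with minimal level `σ`, attained for the face direction `f` -/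
structure Sel (X : Set E) (u : E → E) (z f : E) (σ : ℝ) : Prop where
  mem : z ∈ X
  ne : z ≠ 0
  bad : ¬ Good u z
  face : IsFace f
  s0 : 0 ≤ σ
  s1 : σ ≤ 0.9515
  near : dt (z - σ • f) (z - σ • f) ≤ 1
  min : ∀ x ∈ X, x ≠ 0 → ¬ Good u x → ∀ g, IsFace g → ∀ τ, 0 ≤ τ → τ ≤ 0.9515 →
    dt (x - τ • g) (x - τ • g) ≤ 1 → σ ≤ τ ∧ (τ = 0 → dt z z ≤ dt x x)

/-- the closed cone over the fundamental triangle with corners the two-fold axis `(0,0,1)`, the vertex `vA` and the face `f0` -/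
def Cone (z : E) : Prop := 0 ≤ z 0 ∧ 0 ≤ z 1 ∧ (ph + 1) * z 0 + ph * z 1 ≤ z 2

/-- a full shell of star points with their 72 degree rotations -/
structure Shell (X : Set E) (r : ℝ) : Prop where
  pos : 0 < r
  mem : ∀ v, IsVtx v → r • v ∈ X
  cl : ∀ v, IsVtx v → ∀ x ∈ X, dt (x - r • v) (x - r • v) ≤ 4 → rv v 1 x ∈ X ∧ rv v (-1) x ∈ X

/-- the geometric configuration excluded by the computation (all lengths divided by `lam`) -/
structure Geo (InX : E → Prop) (z u : E) (c s lam S tt : ℝ) : Prop where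
  z2 : z 2 = 1
  cone : Cone z
  unit : dt u u = 1
  off : cr u z ≠ 0
  cs : c ^ 2 + s ^ 2 = 1
  lampos : 0 < lam
  S0 : 0 ≤ S
  Sa : 3 * S ≤ dt z f0
  SM : lam * S ≤ 0.9515
  dle : lam ^ 2 * dt (z - S • f0) (z - S • f0) ≤ 1
  deq : S = 0 ∨ lam ^ 2 * dt (z - S • f0) (z - S • f0) = 1
  orb : ∀ i < 60, InX (act i z)
  rot : ∀ x, InX x → lam ^ 2 * dt (x - z) (x - z) ≤ 4 →
    InX (z + rot u c s (x - z)) ∧ InX (z + rot u c (-s) (x - z))
  good : ∀ y, InX y → dt y y < dt z z →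
    (∃ f, IsFace f ∧ ∃ τ, 0 ≤ τ ∧ τ ≤ S ∧ lam ^ 2 * dt (y - τ • f) (y - τ • f) < 1) → OnStar y
  tt0 : 0 < tt
  mem : ∀ v, IsVtx v → InX (tt • v)
  rng : ∀ v, (v = vA ∨ v = vB ∨ v = vC) → lam ^ 2 * dt (tt • v - z) (tt • v - z) ≤ 4
  tb : tt ^ 2 * (ph + 2) ≤ 0.679 * dt z z
  tb2 : lam ^ 2 * dt z z ≤ 4 → tt ^ 2 * (ph + 2) ≤ 0.3963 * dt z z
  sh : ∀ r, 0 < r → ∀ v0, IsVtx v0 → InX (r • v0) → r ^ 2 * (ph + 2) < dt z z →
    (∃ f, IsFace f ∧ ∃ τ, 0 ≤ τ ∧ τ ≤ S ∧ lam ^ 2 * dt (r • v0 - τ • f) (r • v0 - τ • f) < 1) →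
    ∀ v, IsVtx v → InX (r • v) ∧ ∀ x, InX x → lam ^ 2 * dt (x - r • v) (x - r • v) ≤ 4 →
      InX (rv v 1 x) ∧ InX (rv v (-1) x)

end Pool.Agent.H304
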