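import Pool.Agent.helper304_full.B16
import Pool.Agent.helper304_full.B18
import Pool.Agent.helper304_full.C5_00
import Pool.Agent.helper304_full.C5_01
import Pool.Agent.helper304_full.C5_02
import Pool.Agent.helper304_full.C5_03
import Pool.Agent.helper304_full.C5_04
import Pool.Agent.helper304_full.C5_05
import Pool.Agent.helper304_full.C5_06
import Pool.Agent.helper304_full.C5_07
import Pool.Agent.helper304_full.C5_08
import Pool.Agent.helper304_full.C5_09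
import Pool.Agent.helper304_full.C5_10
import Pool.Agent.helper304_full.C5_11

/-! Assembly of the certificate units. -/

set_option autoImplicit false
set_option maxRecDepth 100000

namespace Pool.Agent.H304.K

theorem k5_0 : OK5 ⟨3200, 3200, 5120, 5120, 4096, 4096, 4096, 4096, 0, 0⟩ 0 4096 :=
  run5_sound 100 _ _ _ _ 0 (by constructor <;> decide) u5_0

theorem k5_1 : OK5 ⟨3200, 3200, 5120, 5120, 4096, 4096, 12288, 4096, 0, 0⟩ 0 4096 :=
  run5_sound 100 _ _ _ _ 0 (by constructor <;> decide) u5_1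

theorem n5_0 : OK5 ⟨3200, 3200, 5120, 5120, 4096, 4096, 8192, 8192, 0, 0⟩ 0 4096 :=
  OK5.split (by constructor <;> decide) 3 (by decide) k5_0 k5_1

theorem k5_2 : OK5 ⟨3200, 3200, 2560, 2560, 12288, 4096, 4096, 4096, 0, 0⟩ 0 4096 :=
  run5_sound 100 _ _ _ _ 0 (by constructor <;> decide) u5_2

theorem k5_3 : OK5 ⟨3200, 3200, 7680, 2560, 12288, 4096, 4096, 4096, 0, 0⟩ 0 4096 :=
  run5_sound 100 _ _ _ _ 0 (by constructor <;> decide) u5_3

theorem n5_1 : OK5 ⟨3200, 3200, 5120, 5120, 12288, 4096, 4096, 4096, 0, 0⟩ 0 4096 :=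
  OK5.split (by constructor <;> decide) 1 (by decide) k5_2 k5_3

theorem k5_4 : OK5 ⟨3200, 3200, 2560, 2560, 12288, 4096, 12288, 4096, 0, 0⟩ 0 4096 :=
  run5_sound 100 _ _ _ _ 0 (by constructor <;> decide) u5_4

theorem k5_5 : OK5 ⟨3200, 3200, 7680, 2560, 12288, 4096, 12288, 4096, 0, 0⟩ 0 4096 :=
  run5_sound 100 _ _ _ _ 0 (by constructor <;> decide) u5_5

theorem n5_2 : OK5 ⟨3200, 3200, 5120, 5120, 12288, 4096, 12288, 4096, 0, 0⟩ 0 4096 :=
  OK5.split (by constructor <;> decide) 1 (by decide) k5_4 k5_5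

theorem n5_3 : OK5 ⟨3200, 3200, 5120, 5120, 12288, 4096, 8192, 8192, 0, 0⟩ 0 4096 :=
  OK5.split (by constructor <;> decide) 3 (by decide) n5_1 n5_2

theorem n5_4 : OK5 ⟨3200, 3200, 5120, 5120, 8192, 8192, 8192, 8192, 0, 0⟩ 0 4096 :=
  OK5.split (by constructor <;> decide) 2 (by decide) n5_0 n5_3

theorem k5_6 : OK5 ⟨3200, 3200, 5120, 5120, 4096, 4096, 20480, 4096, 0, 0⟩ 0 4096 :=
  run5_sound 100 _ _ _ _ 0 (by constructor <;> decide) u5_6

theorem k5_7 : OK5 ⟨3200, 3200, 5120, 5120, 4096, 4096, 28672, 4096, 0, 0⟩ 0 4096 :=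
  run5_sound 100 _ _ _ _ 0 (by constructor <;> decide) u5_7

theorem n5_5 : OK5 ⟨3200, 3200, 5120, 5120, 4096, 4096, 24576, 8192, 0, 0⟩ 0 4096 :=
  OK5.split (by constructor <;> decide) 3 (by decide) k5_6 k5_7

theorem k5_8 : OK5 ⟨3200, 3200, 2560, 2560, 10240, 2048, 20480, 4096, 0, 0⟩ 0 4096 :=
  run5_sound 100 _ _ _ _ 0 (by constructor <;> decide) u5_8

theorem k5_9 : OK5 ⟨3200, 3200, 2560, 2560, 14336, 2048, 18432, 2048, 0, 0⟩ 0 4096 :=
  run5_sound 100 _ _ _ _ 0 (by constructor <;> decide) u5_9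

theorem k5_10 : OK5 ⟨3200, 3200, 2560, 2560, 14336, 2048, 22528, 2048, 0, 0⟩ 0 4096 :=
  run5_sound 100 _ _ _ _ 0 (by constructor <;> decide) u5_10

theorem n5_6 : OK5 ⟨3200, 3200, 2560, 2560, 14336, 2048, 20480, 4096, 0, 0⟩ 0 4096 :=
  OK5.split (by constructor <;> decide) 3 (by decide) k5_9 k5_10

theorem n5_7 : OK5 ⟨3200, 3200, 2560, 2560, 12288, 4096, 20480, 4096, 0, 0⟩ 0 4096 :=
  OK5.split (by constructor <;> decide) 2 (by decide) k5_8 n5_6

theorem k5_11 : OK5 ⟨3200, 3200, 7680, 2560, 12288, 4096, 20480, 4096, 0, 0⟩ 0 4096 :=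
  run5_sound 100 _ _ _ _ 0 (by constructor <;> decide) u5_11

theorem n5_8 : OK5 ⟨3200, 3200, 5120, 5120, 12288, 4096, 20480, 4096, 0, 0⟩ 0 4096 :=
  OK5.split (by constructor <;> decide) 1 (by decide) n5_7 k5_11

theorem k5_12 : OK5 ⟨3200, 3200, 2560, 2560, 12288, 4096, 28672, 4096, 0, 0⟩ 0 4096 :=
  run5_sound 100 _ _ _ _ 0 (by constructor <;> decide) u5_12

theorem k5_13 : OK5 ⟨3200, 3200, 7680, 2560, 12288, 4096, 28672, 4096, 0, 0⟩ 0 4096 :=
  run5_sound 100 _ _ _ _ 0 (by constructor <;> decide) u5_13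

theorem n5_9 : OK5 ⟨3200, 3200, 5120, 5120, 12288, 4096, 28672, 4096, 0, 0⟩ 0 4096 :=
  OK5.split (by constructor <;> decide) 1 (by decide) k5_12 k5_13

theorem n5_10 : OK5 ⟨3200, 3200, 5120, 5120, 12288, 4096, 24576, 8192, 0, 0⟩ 0 4096 :=
  OK5.split (by constructor <;> decide) 3 (by decide) n5_8 n5_9

theorem n5_11 : OK5 ⟨3200, 3200, 5120, 5120, 8192, 8192, 24576, 8192, 0, 0⟩ 0 4096 :=
  OK5.split (by constructor <;> decide) 2 (by decide) n5_5 n5_10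

theorem n5_12 : OK5 ⟨3200, 3200, 5120, 5120, 8192, 8192, 16384, 16384, 0, 0⟩ 0 4096 :=
  OK5.split (by constructor <;> decide) 3 (by decide) n5_4 n5_11

theorem k5_14 : OK5 ⟨3200, 3200, 2560, 2560, 20480, 4096, 4096, 4096, 0, 0⟩ 0 4096 :=
  run5_sound 100 _ _ _ _ 0 (by constructor <;> decide) u5_14

theorem k5_15 : OK5 ⟨3200, 3200, 7680, 2560, 20480, 4096, 4096, 4096, 0, 0⟩ 0 4096 :=
  run5_sound 100 _ _ _ _ 0 (by constructor <;> decide) u5_15

theorem n5_13 : OK5 ⟨3200, 3200, 5120, 5120, 20480, 4096, 4096, 4096, 0, 0⟩ 0 4096 :=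
  OK5.split (by constructor <;> decide) 1 (by decide) k5_14 k5_15

theorem k5_16 : OK5 ⟨3200, 3200, 2560, 2560, 18432, 2048, 10240, 2048, 0, 0⟩ 0 4096 :=
  run5_sound 100 _ _ _ _ 0 (by constructor <;> decide) u5_16

theorem k5_17 : OK5 ⟨1600, 1600, 2560, 2560, 18432, 2048, 14336, 2048, 0, 0⟩ 0 4096 :=
  run5_sound 100 _ _ _ _ 0 (by constructor <;> decide) u5_17

theorem k5_18 : OK5 ⟨4800, 1600, 2560, 2560, 18432, 2048, 14336, 2048, 0, 0⟩ 0 4096 :=
  run5_sound 100 _ _ _ _ 0 (by constructor <;> decide) u5_18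

theorem n5_14 : OK5 ⟨3200, 3200, 2560, 2560, 18432, 2048, 14336, 2048, 0, 0⟩ 0 4096 :=
  OK5.split (by constructor <;> decide) 0 (by decide) k5_17 k5_18

theorem n5_15 : OK5 ⟨3200, 3200, 2560, 2560, 18432, 2048, 12288, 4096, 0, 0⟩ 0 4096 :=
  OK5.split (by constructor <;> decide) 3 (by decide) k5_16 n5_14

theorem k5_19 : OK5 ⟨3200, 3200, 2560, 2560, 22528, 2048, 12288, 4096, 0, 0⟩ 0 4096 :=
  run5_sound 100 _ _ _ _ 0 (by constructor <;> decide) u5_19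

theorem n5_16 : OK5 ⟨3200, 3200, 2560, 2560, 20480, 4096, 12288, 4096, 0, 0⟩ 0 4096 :=
  OK5.split (by constructor <;> decide) 2 (by decide) n5_15 k5_19

theorem k5_20 : OK5 ⟨3200, 3200, 7680, 2560, 20480, 4096, 12288, 4096, 0, 0⟩ 0 4096 :=
  run5_sound 100 _ _ _ _ 0 (by constructor <;> decide) u5_20

theorem n5_17 : OK5 ⟨3200, 3200, 5120, 5120, 20480, 4096, 12288, 4096, 0, 0⟩ 0 4096 :=
  OK5.split (by constructor <;> decide) 1 (by decide) n5_16 k5_20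

theorem n5_18 : OK5 ⟨3200, 3200, 5120, 5120, 20480, 4096, 8192, 8192, 0, 0⟩ 0 4096 :=
  OK5.split (by constructor <;> decide) 3 (by decide) n5_13 n5_17

theorem k5_21 : OK5 ⟨3200, 3200, 5120, 5120, 28672, 4096, 4096, 4096, 0, 0⟩ 0 4096 :=
  run5_sound 100 _ _ _ _ 0 (by constructor <;> decide) u5_21

theorem k5_22 : OK5 ⟨3200, 3200, 5120, 5120, 28672, 4096, 12288, 4096, 0, 0⟩ 0 4096 :=
  run5_sound 100 _ _ _ _ 0 (by constructor <;> decide) u5_22

theorem n5_19 : OK5 ⟨3200, 3200, 5120, 5120, 28672, 4096, 8192, 8192, 0, 0⟩ 0 4096 :=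
  OK5.split (by constructor <;> decide) 3 (by decide) k5_21 k5_22

theorem n5_20 : OK5 ⟨3200, 3200, 5120, 5120, 24576, 8192, 8192, 8192, 0, 0⟩ 0 4096 :=
  OK5.split (by constructor <;> decide) 2 (by decide) n5_18 n5_19

theorem k5_23 : OK5 ⟨1600, 1600, 1280, 1280, 17408, 1024, 17408, 1024, 0, 0⟩ 0 4096 :=
  run5_sound 100 _ _ _ _ 0 (by constructor <;> decide) u5_23

theorem k5_24 : OK5 ⟨1600, 1600, 3840, 1280, 17408, 1024, 17408, 1024, 0, 0⟩ 0 4096 :=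
  run5_sound 100 _ _ _ _ 0 (by constructor <;> decide) u5_24

theorem n5_21 : OK5 ⟨1600, 1600, 2560, 2560, 17408, 1024, 17408, 1024, 0, 0⟩ 0 4096 :=
  OK5.split (by constructor <;> decide) 1 (by decide) k5_23 k5_24

theorem k5_25 : OK5 ⟨1600, 1600, 2560, 2560, 17408, 1024, 19456, 1024, 0, 0⟩ 0 4096 :=
  run5_sound 100 _ _ _ _ 0 (by constructor <;> decide) u5_25

theorem n5_22 : OK5 ⟨1600, 1600, 2560, 2560, 17408, 1024, 18432, 2048, 0, 0⟩ 0 4096 :=
  OK5.split (by constructor <;> decide) 3 (by decide) n5_21 k5_25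

theorem k5_26 : OK5 ⟨1600, 1600, 2560, 2560, 19456, 1024, 18432, 2048, 0, 0⟩ 0 4096 :=
  run5_sound 100 _ _ _ _ 0 (by constructor <;> decide) u5_26

theorem n5_23 : OK5 ⟨1600, 1600, 2560, 2560, 18432, 2048, 18432, 2048, 0, 0⟩ 0 4096 :=
  OK5.split (by constructor <;> decide) 2 (by decide) n5_22 k5_26

theorem k5_27 : OK5 ⟨4800, 1600, 2560, 2560, 17408, 1024, 17408, 1024, 0, 0⟩ 0 4096 :=
  run5_sound 100 _ _ _ _ 0 (by constructor <;> decide) u5_27

theorem k5_28 : OK5 ⟨4800, 1600, 2560, 2560, 17408, 1024, 19456, 1024, 0, 0⟩ 0 4096 :=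
  run5_sound 100 _ _ _ _ 0 (by constructor <;> decide) u5_28

theorem n5_24 : OK5 ⟨4800, 1600, 2560, 2560, 17408, 1024, 18432, 2048, 0, 0⟩ 0 4096 :=
  OK5.split (by constructor <;> decide) 3 (by decide) k5_27 k5_28

theorem k5_29 : OK5 ⟨4800, 1600, 2560, 2560, 19456, 1024, 18432, 2048, 0, 0⟩ 0 4096 :=
  run5_sound 100 _ _ _ _ 0 (by constructor <;> decide) u5_29

theorem n5_25 : OK5 ⟨4800, 1600, 2560, 2560, 18432, 2048, 18432, 2048, 0, 0⟩ 0 4096 :=
  OK5.split (by constructor <;> decide) 2 (by decide) n5_24 k5_29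

theorem n5_26 : OK5 ⟨3200, 3200, 2560, 2560, 18432, 2048, 18432, 2048, 0, 0⟩ 0 4096 :=
  OK5.split (by constructor <;> decide) 0 (by decide) n5_23 n5_25

theorem k5_30 : OK5 ⟨3200, 3200, 2560, 2560, 18432, 2048, 22528, 2048, 0, 0⟩ 0 4096 :=
  run5_sound 100 _ _ _ _ 0 (by constructor <;> decide) u5_30

theorem n5_27 : OK5 ⟨3200, 3200, 2560, 2560, 18432, 2048, 20480, 4096, 0, 0⟩ 0 4096 :=
  OK5.split (by constructor <;> decide) 3 (by decide) n5_26 k5_30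

theorem k5_31 : OK5 ⟨3200, 3200, 2560, 2560, 22528, 2048, 20480, 4096, 0, 0⟩ 0 4096 :=
  run5_sound 100 _ _ _ _ 0 (by constructor <;> decide) u5_31

theorem n5_28 : OK5 ⟨3200, 3200, 2560, 2560, 20480, 4096, 20480, 4096, 0, 0⟩ 0 4096 :=
  OK5.split (by constructor <;> decide) 2 (by decide) n5_27 k5_31

theorem k5_32 : OK5 ⟨1600, 1600, 7680, 2560, 17408, 1024, 17408, 1024, 0, 0⟩ 0 4096 :=
  run5_sound 100 _ _ _ _ 0 (by constructor <;> decide) u5_32

theorem k5_33 : OK5 ⟨1600, 1600, 6400, 1280, 17408, 1024, 19456, 1024, 0, 0⟩ 0 4096 :=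
  run5_sound 100 _ _ _ _ 0 (by constructor <;> decide) u5_33

theorem k5_34 : OK5 ⟨1600, 1600, 8960, 1280, 17408, 1024, 19456, 1024, 0, 0⟩ 0 4096 :=
  run5_sound 100 _ _ _ _ 0 (by constructor <;> decide) u5_34

theorem n5_29 : OK5 ⟨1600, 1600, 7680, 2560, 17408, 1024, 19456, 1024, 0, 0⟩ 0 4096 :=
  OK5.split (by constructor <;> decide) 1 (by decide) k5_33 k5_34

theorem n5_30 : OK5 ⟨1600, 1600, 7680, 2560, 17408, 1024, 18432, 2048, 0, 0⟩ 0 4096 :=
  OK5.split (by constructor <;> decide) 3 (by decide) k5_32 n5_29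

theorem k5_35 : OK5 ⟨1600, 1600, 7680, 2560, 19456, 1024, 18432, 2048, 0, 0⟩ 0 4096 :=
  run5_sound 100 _ _ _ _ 0 (by constructor <;> decide) u5_35

theorem n5_31 : OK5 ⟨1600, 1600, 7680, 2560, 18432, 2048, 18432, 2048, 0, 0⟩ 0 4096 :=
  OK5.split (by constructor <;> decide) 2 (by decide) n5_30 k5_35

theorem k5_36 : OK5 ⟨1600, 1600, 7680, 2560, 18432, 2048, 22528, 2048, 0, 0⟩ 0 4096 :=
  run5_sound 100 _ _ _ _ 0 (by constructor <;> decide) u5_36

theorem n5_32 : OK5 ⟨1600, 1600, 7680, 2560, 18432, 2048, 20480, 4096, 0, 0⟩ 0 4096 :=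
  OK5.split (by constructor <;> decide) 3 (by decide) n5_31 k5_36

theorem k5_37 : OK5 ⟨1600, 1600, 7680, 2560, 22528, 2048, 20480, 4096, 0, 0⟩ 0 4096 :=
  run5_sound 100 _ _ _ _ 0 (by constructor <;> decide) u5_37

theorem n5_33 : OK5 ⟨1600, 1600, 7680, 2560, 20480, 4096, 20480, 4096, 0, 0⟩ 0 4096 :=
  OK5.split (by constructor <;> decide) 2 (by decide) n5_32 k5_37

theorem k5_38 : OK5 ⟨4800, 1600, 7680, 2560, 20480, 4096, 20480, 4096, 0, 0⟩ 0 4096 :=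
  run5_sound 100 _ _ _ _ 0 (by constructor <;> decide) u5_38

theorem n5_34 : OK5 ⟨3200, 3200, 7680, 2560, 20480, 4096, 20480, 4096, 0, 0⟩ 0 4096 :=
  OK5.split (by constructor <;> decide) 0 (by decide) n5_33 k5_38

theorem n5_35 : OK5 ⟨3200, 3200, 5120, 5120, 20480, 4096, 20480, 4096, 0, 0⟩ 0 4096 :=
  OK5.split (by constructor <;> decide) 1 (by decide) n5_28 n5_34

theorem k5_39 : OK5 ⟨3200, 3200, 5120, 5120, 20480, 4096, 28672, 4096, 0, 0⟩ 0 4096 :=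
  run5_sound 100 _ _ _ _ 0 (by constructor <;> decide) u5_39

theorem n5_36 : OK5 ⟨3200, 3200, 5120, 5120, 20480, 4096, 24576, 8192, 0, 0⟩ 0 4096 :=
  OK5.split (by constructor <;> decide) 3 (by decide) n5_35 k5_39

theorem k5_40 : OK5 ⟨3200, 3200, 5120, 5120, 28672, 4096, 20480, 4096, 0, 0⟩ 0 4096 :=
  run5_sound 100 _ _ _ _ 0 (by constructor <;> decide) u5_40

theorem k5_41 : OK5 ⟨3200, 3200, 5120, 5120, 28672, 4096, 28672, 4096, 0, 0⟩ 0 4096 :=
  run5_sound 100 _ _ _ _ 0 (by constructor <;> decide) u5_41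

theorem n5_37 : OK5 ⟨3200, 3200, 5120, 5120, 28672, 4096, 24576, 8192, 0, 0⟩ 0 4096 :=
  OK5.split (by constructor <;> decide) 3 (by decide) k5_40 k5_41

theorem n5_38 : OK5 ⟨3200, 3200, 5120, 5120, 24576, 8192, 24576, 8192, 0, 0⟩ 0 4096 :=
  OK5.split (by constructor <;> decide) 2 (by decide) n5_36 n5_37

theorem n5_39 : OK5 ⟨3200, 3200, 5120, 5120, 24576, 8192, 16384, 16384, 0, 0⟩ 0 4096 :=
  OK5.split (by constructor <;> decide) 3 (by decide) n5_20 n5_38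

theorem n5_40 : OK5 ⟨3200, 3200, 5120, 5120, 16384, 16384, 16384, 16384, 0, 0⟩ 0 4096 :=
  OK5.split (by constructor <;> decide) 2 (by decide) n5_12 n5_39

end Pool.Agent.H304.K

namespace Pool.Agent.H304

/-- there is no configuration with an angle of 72 degrees -/
theorem geo5 {InX : E → Prop} {z u : E} {lam S tt : ℝ} (G : Geo InX z u C5 S5 lam S tt) : False :=
  K.geo5_of K.n5_40 G

end Pool.Agent.H304
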