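import Pool.Agent.helper304_full.B17
import Pool.Agent.helper304_full.B19
import Pool.Agent.helper304_full.C7_00
import Pool.Agent.helper304_full.C7_01
import Pool.Agent.helper304_full.C7_02
import Pool.Agent.helper304_full.C7_03
import Pool.Agent.helper304_full.C7_04
import Pool.Agent.helper304_full.C7_05
import Pool.Agent.helper304_full.C7_06
import Pool.Agent.helper304_full.C7_07
import Pool.Agent.helper304_full.C7_08
import Pool.Agent.helper304_full.C7_09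
import Pool.Agent.helper304_full.C7_10
import Pool.Agent.helper304_full.C7_11
import Pool.Agent.helper304_full.C7_12
import Pool.Agent.helper304_full.C7_13
import Pool.Agent.helper304_full.C7_14
import Pool.Agent.helper304_full.C7_15
import Pool.Agent.helper304_full.C7_16
import Pool.Agent.helper304_full.C7_17
import Pool.Agent.helper304_full.C7_18
import Pool.Agent.helper304_full.C7_19
import Pool.Agent.helper304_full.C7_20
import Pool.Agent.helper304_full.C7_21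
import Pool.Agent.helper304_full.C7_22
import Pool.Agent.helper304_full.C7_23
import Pool.Agent.helper304_full.C7_24
import Pool.Agent.helper304_full.C7_25
import Pool.Agent.helper304_full.C7_26
import Pool.Agent.helper304_full.C7_27

/-! Assembly of the certificate units. -/

set_option autoImplicit false
set_option maxRecDepth 100000

namespace Pool.Agent.H304.K

theorem k7_0 : OK7 ⟨3200, 3200, 2560, 2560, 2048, 2048, 4096, 4096, 4096, 4096⟩ 0 4096 :=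
  run7_sound 100 _ _ _ _ 0 (by constructor <;> decide) u7_0

theorem k7_1 : OK7 ⟨3200, 3200, 2560, 2560, 6144, 2048, 2048, 2048, 4096, 4096⟩ 0 4096 :=
  run7_sound 100 _ _ _ _ 0 (by constructor <;> decide) u7_1

theorem k7_2 : OK7 ⟨3200, 3200, 2560, 2560, 6144, 2048, 6144, 2048, 2048, 2048⟩ 0 4096 :=
  run7_sound 100 _ _ _ _ 0 (by constructor <;> decide) u7_2

theorem k7_3 : OK7 ⟨1600, 1600, 2560, 2560, 6144, 2048, 6144, 2048, 6144, 2048⟩ 0 4096 :=
  run7_sound 100 _ _ _ _ 0 (by constructor <;> decide) u7_3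

theorem k7_4 : OK7 ⟨4800, 1600, 2560, 2560, 6144, 2048, 6144, 2048, 6144, 2048⟩ 0 4096 :=
  run7_sound 100 _ _ _ _ 0 (by constructor <;> decide) u7_4

theorem n7_0 : OK7 ⟨3200, 3200, 2560, 2560, 6144, 2048, 6144, 2048, 6144, 2048⟩ 0 4096 :=
  OK7.split (by constructor <;> decide) 0 (by decide) k7_3 k7_4

theorem n7_1 : OK7 ⟨3200, 3200, 2560, 2560, 6144, 2048, 6144, 2048, 4096, 4096⟩ 0 4096 :=
  OK7.split (by constructor <;> decide) 4 (by decide) k7_2 n7_0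

theorem n7_2 : OK7 ⟨3200, 3200, 2560, 2560, 6144, 2048, 4096, 4096, 4096, 4096⟩ 0 4096 :=
  OK7.split (by constructor <;> decide) 3 (by decide) k7_1 n7_1

theorem n7_3 : OK7 ⟨3200, 3200, 2560, 2560, 4096, 4096, 4096, 4096, 4096, 4096⟩ 0 4096 :=
  OK7.split (by constructor <;> decide) 2 (by decide) k7_0 n7_2

theorem k7_5 : OK7 ⟨1600, 1600, 7680, 2560, 2048, 2048, 4096, 4096, 4096, 4096⟩ 0 4096 :=
  run7_sound 100 _ _ _ _ 0 (by constructor <;> decide) u7_5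

theorem k7_6 : OK7 ⟨1600, 1600, 7680, 2560, 6144, 2048, 2048, 2048, 4096, 4096⟩ 0 4096 :=
  run7_sound 100 _ _ _ _ 0 (by constructor <;> decide) u7_6

theorem k7_7 : OK7 ⟨1600, 1600, 7680, 2560, 6144, 2048, 6144, 2048, 4096, 4096⟩ 0 4096 :=
  run7_sound 100 _ _ _ _ 0 (by constructor <;> decide) u7_7

theorem n7_4 : OK7 ⟨1600, 1600, 7680, 2560, 6144, 2048, 4096, 4096, 4096, 4096⟩ 0 4096 :=
  OK7.split (by constructor <;> decide) 3 (by decide) k7_6 k7_7

theorem n7_5 : OK7 ⟨1600, 1600, 7680, 2560, 4096, 4096, 4096, 4096, 4096, 4096⟩ 0 4096 :=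
  OK7.split (by constructor <;> decide) 2 (by decide) k7_5 n7_4

theorem k7_8 : OK7 ⟨4800, 1600, 7680, 2560, 4096, 4096, 4096, 4096, 4096, 4096⟩ 0 4096 :=
  run7_sound 100 _ _ _ _ 0 (by constructor <;> decide) u7_8

theorem n7_6 : OK7 ⟨3200, 3200, 7680, 2560, 4096, 4096, 4096, 4096, 4096, 4096⟩ 0 4096 :=
  OK7.split (by constructor <;> decide) 0 (by decide) n7_5 k7_8

theorem n7_7 : OK7 ⟨3200, 3200, 5120, 5120, 4096, 4096, 4096, 4096, 4096, 4096⟩ 0 4096 :=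
  OK7.split (by constructor <;> decide) 1 (by decide) n7_3 n7_6

theorem k7_9 : OK7 ⟨3200, 3200, 2560, 2560, 2048, 2048, 12288, 4096, 4096, 4096⟩ 0 4096 :=
  run7_sound 100 _ _ _ _ 0 (by constructor <;> decide) u7_9

theorem k7_10 : OK7 ⟨1600, 1600, 2560, 2560, 6144, 2048, 10240, 2048, 2048, 2048⟩ 0 4096 :=
  run7_sound 100 _ _ _ _ 0 (by constructor <;> decide) u7_10

theorem k7_11 : OK7 ⟨4800, 1600, 2560, 2560, 6144, 2048, 10240, 2048, 2048, 2048⟩ 0 4096 :=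
  run7_sound 100 _ _ _ _ 0 (by constructor <;> decide) u7_11

theorem n7_8 : OK7 ⟨3200, 3200, 2560, 2560, 6144, 2048, 10240, 2048, 2048, 2048⟩ 0 4096 :=
  OK7.split (by constructor <;> decide) 0 (by decide) k7_10 k7_11

theorem k7_12 : OK7 ⟨1600, 1600, 1280, 1280, 5120, 1024, 10240, 2048, 6144, 2048⟩ 0 4096 :=
  run7_sound 100 _ _ _ _ 0 (by constructor <;> decide) u7_12

theorem k7_13 : OK7 ⟨1600, 1600, 1280, 1280, 7168, 1024, 9216, 1024, 5120, 1024⟩ 0 4096 :=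
  run7_sound 100 _ _ _ _ 0 (by constructor <;> decide) u7_13

theorem k7_14 : OK7 ⟨1600, 1600, 1280, 1280, 7168, 1024, 9216, 1024, 7168, 1024⟩ 0 4096 :=
  run7_sound 100 _ _ _ _ 0 (by constructor <;> decide) u7_14

theorem n7_9 : OK7 ⟨1600, 1600, 1280, 1280, 7168, 1024, 9216, 1024, 6144, 2048⟩ 0 4096 :=
  OK7.split (by constructor <;> decide) 4 (by decide) k7_13 k7_14

theorem k7_15 : OK7 ⟨1600, 1600, 1280, 1280, 7168, 1024, 11264, 1024, 6144, 2048⟩ 0 4096 :=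
  run7_sound 100 _ _ _ _ 0 (by constructor <;> decide) u7_15

theorem n7_10 : OK7 ⟨1600, 1600, 1280, 1280, 7168, 1024, 10240, 2048, 6144, 2048⟩ 0 4096 :=
  OK7.split (by constructor <;> decide) 3 (by decide) n7_9 k7_15

theorem n7_11 : OK7 ⟨1600, 1600, 1280, 1280, 6144, 2048, 10240, 2048, 6144, 2048⟩ 0 4096 :=
  OK7.split (by constructor <;> decide) 2 (by decide) k7_12 n7_10

theorem k7_16 : OK7 ⟨1600, 1600, 3840, 1280, 5120, 1024, 10240, 2048, 6144, 2048⟩ 0 4096 :=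
  run7_sound 100 _ _ _ _ 0 (by constructor <;> decide) u7_16

theorem k7_17 : OK7 ⟨1600, 1600, 3840, 1280, 7168, 1024, 9216, 1024, 5120, 1024⟩ 0 4096 :=
  run7_sound 100 _ _ _ _ 0 (by constructor <;> decide) u7_17

theorem k7_18 : OK7 ⟨1600, 1600, 3840, 1280, 7168, 1024, 9216, 1024, 7168, 1024⟩ 0 4096 :=
  run7_sound 100 _ _ _ _ 0 (by constructor <;> decide) u7_18

theorem n7_12 : OK7 ⟨1600, 1600, 3840, 1280, 7168, 1024, 9216, 1024, 6144, 2048⟩ 0 4096 :=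
  OK7.split (by constructor <;> decide) 4 (by decide) k7_17 k7_18

theorem k7_19 : OK7 ⟨1600, 1600, 3840, 1280, 7168, 1024, 11264, 1024, 6144, 2048⟩ 0 4096 :=
  run7_sound 100 _ _ _ _ 0 (by constructor <;> decide) u7_19

theorem n7_13 : OK7 ⟨1600, 1600, 3840, 1280, 7168, 1024, 10240, 2048, 6144, 2048⟩ 0 4096 :=
  OK7.split (by constructor <;> decide) 3 (by decide) n7_12 k7_19

theorem n7_14 : OK7 ⟨1600, 1600, 3840, 1280, 6144, 2048, 10240, 2048, 6144, 2048⟩ 0 4096 :=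
  OK7.split (by constructor <;> decide) 2 (by decide) k7_16 n7_13

theorem n7_15 : OK7 ⟨1600, 1600, 2560, 2560, 6144, 2048, 10240, 2048, 6144, 2048⟩ 0 4096 :=
  OK7.split (by constructor <;> decide) 1 (by decide) n7_11 n7_14

theorem k7_20 : OK7 ⟨4800, 1600, 1280, 1280, 6144, 2048, 10240, 2048, 6144, 2048⟩ 0 4096 :=
  run7_sound 100 _ _ _ _ 0 (by constructor <;> decide) u7_20

theorem k7_21 : OK7 ⟨4800, 1600, 3840, 1280, 6144, 2048, 10240, 2048, 6144, 2048⟩ 0 4096 :=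
  run7_sound 100 _ _ _ _ 0 (by constructor <;> decide) u7_21

theorem n7_16 : OK7 ⟨4800, 1600, 2560, 2560, 6144, 2048, 10240, 2048, 6144, 2048⟩ 0 4096 :=
  OK7.split (by constructor <;> decide) 1 (by decide) k7_20 k7_21

theorem n7_17 : OK7 ⟨3200, 3200, 2560, 2560, 6144, 2048, 10240, 2048, 6144, 2048⟩ 0 4096 :=
  OK7.split (by constructor <;> decide) 0 (by decide) n7_15 n7_16

theorem n7_18 : OK7 ⟨3200, 3200, 2560, 2560, 6144, 2048, 10240, 2048, 4096, 4096⟩ 0 4096 :=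
  OK7.split (by constructor <;> decide) 4 (by decide) n7_8 n7_17

theorem k7_22 : OK7 ⟨3200, 3200, 2560, 2560, 6144, 2048, 14336, 2048, 4096, 4096⟩ 0 4096 :=
  run7_sound 100 _ _ _ _ 0 (by constructor <;> decide) u7_22

theorem n7_19 : OK7 ⟨3200, 3200, 2560, 2560, 6144, 2048, 12288, 4096, 4096, 4096⟩ 0 4096 :=
  OK7.split (by constructor <;> decide) 3 (by decide) n7_18 k7_22

theorem n7_20 : OK7 ⟨3200, 3200, 2560, 2560, 4096, 4096, 12288, 4096, 4096, 4096⟩ 0 4096 :=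
  OK7.split (by constructor <;> decide) 2 (by decide) k7_9 n7_19

theorem k7_23 : OK7 ⟨1600, 1600, 7680, 2560, 2048, 2048, 12288, 4096, 4096, 4096⟩ 0 4096 :=
  run7_sound 100 _ _ _ _ 0 (by constructor <;> decide) u7_23

theorem k7_24 : OK7 ⟨1600, 1600, 6400, 1280, 5120, 1024, 10240, 2048, 2048, 2048⟩ 0 4096 :=
  run7_sound 100 _ _ _ _ 0 (by constructor <;> decide) u7_24

theorem k7_25 : OK7 ⟨1600, 1600, 6400, 1280, 7168, 1024, 10240, 2048, 2048, 2048⟩ 0 4096 :=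
  run7_sound 100 _ _ _ _ 0 (by constructor <;> decide) u7_25

theorem n7_21 : OK7 ⟨1600, 1600, 6400, 1280, 6144, 2048, 10240, 2048, 2048, 2048⟩ 0 4096 :=
  OK7.split (by constructor <;> decide) 2 (by decide) k7_24 k7_25

theorem k7_26 : OK7 ⟨1600, 1600, 8960, 1280, 6144, 2048, 10240, 2048, 2048, 2048⟩ 0 4096 :=
  run7_sound 100 _ _ _ _ 0 (by constructor <;> decide) u7_26

theorem n7_22 : OK7 ⟨1600, 1600, 7680, 2560, 6144, 2048, 10240, 2048, 2048, 2048⟩ 0 4096 :=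
  OK7.split (by constructor <;> decide) 1 (by decide) n7_21 k7_26

theorem k7_27 : OK7 ⟨1600, 1600, 6400, 1280, 5120, 1024, 10240, 2048, 6144, 2048⟩ 0 4096 :=
  run7_sound 100 _ _ _ _ 0 (by constructor <;> decide) u7_27

theorem k7_28 : OK7 ⟨1600, 1600, 6400, 1280, 7168, 1024, 9216, 1024, 6144, 2048⟩ 0 4096 :=
  run7_sound 100 _ _ _ _ 0 (by constructor <;> decide) u7_28

theorem k7_29 : OK7 ⟨1600, 1600, 6400, 1280, 7168, 1024, 11264, 1024, 6144, 2048⟩ 0 4096 :=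
  run7_sound 100 _ _ _ _ 0 (by constructor <;> decide) u7_29

theorem n7_23 : OK7 ⟨1600, 1600, 6400, 1280, 7168, 1024, 10240, 2048, 6144, 2048⟩ 0 4096 :=
  OK7.split (by constructor <;> decide) 3 (by decide) k7_28 k7_29

theorem n7_24 : OK7 ⟨1600, 1600, 6400, 1280, 6144, 2048, 10240, 2048, 6144, 2048⟩ 0 4096 :=
  OK7.split (by constructor <;> decide) 2 (by decide) k7_27 n7_23

theorem k7_30 : OK7 ⟨1600, 1600, 8960, 1280, 6144, 2048, 10240, 2048, 6144, 2048⟩ 0 4096 :=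
  run7_sound 100 _ _ _ _ 0 (by constructor <;> decide) u7_30

theorem n7_25 : OK7 ⟨1600, 1600, 7680, 2560, 6144, 2048, 10240, 2048, 6144, 2048⟩ 0 4096 :=
  OK7.split (by constructor <;> decide) 1 (by decide) n7_24 k7_30

theorem n7_26 : OK7 ⟨1600, 1600, 7680, 2560, 6144, 2048, 10240, 2048, 4096, 4096⟩ 0 4096 :=
  OK7.split (by constructor <;> decide) 4 (by decide) n7_22 n7_25

theorem k7_31 : OK7 ⟨1600, 1600, 7680, 2560, 6144, 2048, 14336, 2048, 4096, 4096⟩ 0 4096 :=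
  run7_sound 100 _ _ _ _ 0 (by constructor <;> decide) u7_31

theorem n7_27 : OK7 ⟨1600, 1600, 7680, 2560, 6144, 2048, 12288, 4096, 4096, 4096⟩ 0 4096 :=
  OK7.split (by constructor <;> decide) 3 (by decide) n7_26 k7_31

theorem n7_28 : OK7 ⟨1600, 1600, 7680, 2560, 4096, 4096, 12288, 4096, 4096, 4096⟩ 0 4096 :=
  OK7.split (by constructor <;> decide) 2 (by decide) k7_23 n7_27

theorem k7_32 : OK7 ⟨4800, 1600, 7680, 2560, 4096, 4096, 12288, 4096, 4096, 4096⟩ 0 4096 :=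
  run7_sound 100 _ _ _ _ 0 (by constructor <;> decide) u7_32

theorem n7_29 : OK7 ⟨3200, 3200, 7680, 2560, 4096, 4096, 12288, 4096, 4096, 4096⟩ 0 4096 :=
  OK7.split (by constructor <;> decide) 0 (by decide) n7_28 k7_32

theorem n7_30 : OK7 ⟨3200, 3200, 5120, 5120, 4096, 4096, 12288, 4096, 4096, 4096⟩ 0 4096 :=
  OK7.split (by constructor <;> decide) 1 (by decide) n7_20 n7_29

theorem n7_31 : OK7 ⟨3200, 3200, 5120, 5120, 4096, 4096, 8192, 8192, 4096, 4096⟩ 0 4096 :=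
  OK7.split (by constructor <;> decide) 3 (by decide) n7_7 n7_30

theorem k7_33 : OK7 ⟨3200, 3200, 2560, 2560, 10240, 2048, 2048, 2048, 4096, 4096⟩ 0 4096 :=
  run7_sound 100 _ _ _ _ 0 (by constructor <;> decide) u7_33

theorem k7_34 : OK7 ⟨1600, 1600, 2560, 2560, 10240, 2048, 6144, 2048, 2048, 2048⟩ 0 4096 :=
  run7_sound 100 _ _ _ _ 0 (by constructor <;> decide) u7_34

theorem k7_35 : OK7 ⟨4800, 1600, 2560, 2560, 10240, 2048, 6144, 2048, 2048, 2048⟩ 0 4096 :=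
  run7_sound 100 _ _ _ _ 0 (by constructor <;> decide) u7_35

theorem n7_32 : OK7 ⟨3200, 3200, 2560, 2560, 10240, 2048, 6144, 2048, 2048, 2048⟩ 0 4096 :=
  OK7.split (by constructor <;> decide) 0 (by decide) k7_34 k7_35

theorem k7_36 : OK7 ⟨1600, 1600, 1280, 1280, 9216, 1024, 6144, 2048, 6144, 2048⟩ 0 4096 :=
  run7_sound 100 _ _ _ _ 0 (by constructor <;> decide) u7_36

theorem k7_37 : OK7 ⟨1600, 1600, 1280, 1280, 11264, 1024, 6144, 2048, 6144, 2048⟩ 0 4096 :=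
  run7_sound 100 _ _ _ _ 0 (by constructor <;> decide) u7_37

theorem n7_33 : OK7 ⟨1600, 1600, 1280, 1280, 10240, 2048, 6144, 2048, 6144, 2048⟩ 0 4096 :=
  OK7.split (by constructor <;> decide) 2 (by decide) k7_36 k7_37

theorem k7_38 : OK7 ⟨1600, 1600, 3840, 1280, 10240, 2048, 6144, 2048, 6144, 2048⟩ 0 4096 :=
  run7_sound 100 _ _ _ _ 0 (by constructor <;> decide) u7_38

theorem n7_34 : OK7 ⟨1600, 1600, 2560, 2560, 10240, 2048, 6144, 2048, 6144, 2048⟩ 0 4096 :=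
  OK7.split (by constructor <;> decide) 1 (by decide) n7_33 k7_38

theorem k7_39 : OK7 ⟨4800, 1600, 1280, 1280, 9216, 1024, 5120, 1024, 6144, 2048⟩ 0 4096 :=
  run7_sound 100 _ _ _ _ 0 (by constructor <;> decide) u7_39

theorem k7_40 : OK7 ⟨4800, 1600, 1280, 1280, 9216, 1024, 7168, 1024, 5120, 1024⟩ 0 4096 :=
  run7_sound 100 _ _ _ _ 0 (by constructor <;> decide) u7_40

theorem k7_41 : OK7 ⟨4800, 1600, 1280, 1280, 9216, 1024, 7168, 1024, 7168, 1024⟩ 0 4096 :=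
  run7_sound 100 _ _ _ _ 0 (by constructor <;> decide) u7_41

theorem n7_35 : OK7 ⟨4800, 1600, 1280, 1280, 9216, 1024, 7168, 1024, 6144, 2048⟩ 0 4096 :=
  OK7.split (by constructor <;> decide) 4 (by decide) k7_40 k7_41

theorem n7_36 : OK7 ⟨4800, 1600, 1280, 1280, 9216, 1024, 6144, 2048, 6144, 2048⟩ 0 4096 :=
  OK7.split (by constructor <;> decide) 3 (by decide) k7_39 n7_35

theorem k7_42 : OK7 ⟨4800, 1600, 1280, 1280, 11264, 1024, 5120, 1024, 6144, 2048⟩ 0 4096 :=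
  run7_sound 100 _ _ _ _ 0 (by constructor <;> decide) u7_42

theorem k7_43 : OK7 ⟨4800, 1600, 1280, 1280, 11264, 1024, 7168, 1024, 5120, 1024⟩ 0 4096 :=
  run7_sound 100 _ _ _ _ 0 (by constructor <;> decide) u7_43

theorem k7_44 : OK7 ⟨4800, 1600, 1280, 1280, 11264, 1024, 7168, 1024, 7168, 1024⟩ 0 4096 :=
  run7_sound 100 _ _ _ _ 0 (by constructor <;> decide) u7_44

theorem n7_37 : OK7 ⟨4800, 1600, 1280, 1280, 11264, 1024, 7168, 1024, 6144, 2048⟩ 0 4096 :=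
  OK7.split (by constructor <;> decide) 4 (by decide) k7_43 k7_44

theorem n7_38 : OK7 ⟨4800, 1600, 1280, 1280, 11264, 1024, 6144, 2048, 6144, 2048⟩ 0 4096 :=
  OK7.split (by constructor <;> decide) 3 (by decide) k7_42 n7_37

theorem n7_39 : OK7 ⟨4800, 1600, 1280, 1280, 10240, 2048, 6144, 2048, 6144, 2048⟩ 0 4096 :=
  OK7.split (by constructor <;> decide) 2 (by decide) n7_36 n7_38

theorem k7_45 : OK7 ⟨4800, 1600, 3840, 1280, 10240, 2048, 6144, 2048, 6144, 2048⟩ 0 4096 :=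
  run7_sound 100 _ _ _ _ 0 (by constructor <;> decide) u7_45

theorem n7_40 : OK7 ⟨4800, 1600, 2560, 2560, 10240, 2048, 6144, 2048, 6144, 2048⟩ 0 4096 :=
  OK7.split (by constructor <;> decide) 1 (by decide) n7_39 k7_45

theorem n7_41 : OK7 ⟨3200, 3200, 2560, 2560, 10240, 2048, 6144, 2048, 6144, 2048⟩ 0 4096 :=
  OK7.split (by constructor <;> decide) 0 (by decide) n7_34 n7_40

theorem n7_42 : OK7 ⟨3200, 3200, 2560, 2560, 10240, 2048, 6144, 2048, 4096, 4096⟩ 0 4096 :=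
  OK7.split (by constructor <;> decide) 4 (by decide) n7_32 n7_41

theorem n7_43 : OK7 ⟨3200, 3200, 2560, 2560, 10240, 2048, 4096, 4096, 4096, 4096⟩ 0 4096 :=
  OK7.split (by constructor <;> decide) 3 (by decide) k7_33 n7_42

theorem k7_46 : OK7 ⟨3200, 3200, 2560, 2560, 14336, 2048, 2048, 2048, 4096, 4096⟩ 0 4096 :=
  run7_sound 100 _ _ _ _ 0 (by constructor <;> decide) u7_46

theorem k7_47 : OK7 ⟨3200, 3200, 2560, 2560, 14336, 2048, 6144, 2048, 4096, 4096⟩ 0 4096 :=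
  run7_sound 100 _ _ _ _ 0 (by constructor <;> decide) u7_47

theorem n7_44 : OK7 ⟨3200, 3200, 2560, 2560, 14336, 2048, 4096, 4096, 4096, 4096⟩ 0 4096 :=
  OK7.split (by constructor <;> decide) 3 (by decide) k7_46 k7_47

theorem n7_45 : OK7 ⟨3200, 3200, 2560, 2560, 12288, 4096, 4096, 4096, 4096, 4096⟩ 0 4096 :=
  OK7.split (by constructor <;> decide) 2 (by decide) n7_43 n7_44

theorem k7_48 : OK7 ⟨1600, 1600, 7680, 2560, 10240, 2048, 2048, 2048, 4096, 4096⟩ 0 4096 :=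
  run7_sound 100 _ _ _ _ 0 (by constructor <;> decide) u7_48

theorem k7_49 : OK7 ⟨1600, 1600, 7680, 2560, 10240, 2048, 6144, 2048, 4096, 4096⟩ 0 4096 :=
  run7_sound 100 _ _ _ _ 0 (by constructor <;> decide) u7_49

theorem n7_46 : OK7 ⟨1600, 1600, 7680, 2560, 10240, 2048, 4096, 4096, 4096, 4096⟩ 0 4096 :=
  OK7.split (by constructor <;> decide) 3 (by decide) k7_48 k7_49

theorem k7_50 : OK7 ⟨1600, 1600, 7680, 2560, 14336, 2048, 4096, 4096, 4096, 4096⟩ 0 4096 :=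
  run7_sound 100 _ _ _ _ 0 (by constructor <;> decide) u7_50

theorem n7_47 : OK7 ⟨1600, 1600, 7680, 2560, 12288, 4096, 4096, 4096, 4096, 4096⟩ 0 4096 :=
  OK7.split (by constructor <;> decide) 2 (by decide) n7_46 k7_50

theorem k7_51 : OK7 ⟨4800, 1600, 7680, 2560, 12288, 4096, 4096, 4096, 4096, 4096⟩ 0 4096 :=
  run7_sound 100 _ _ _ _ 0 (by constructor <;> decide) u7_51

theorem n7_48 : OK7 ⟨3200, 3200, 7680, 2560, 12288, 4096, 4096, 4096, 4096, 4096⟩ 0 4096 :=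
  OK7.split (by constructor <;> decide) 0 (by decide) n7_47 k7_51

theorem n7_49 : OK7 ⟨3200, 3200, 5120, 5120, 12288, 4096, 4096, 4096, 4096, 4096⟩ 0 4096 :=
  OK7.split (by constructor <;> decide) 1 (by decide) n7_45 n7_48

theorem k7_52 : OK7 ⟨1600, 1600, 1280, 1280, 10240, 2048, 10240, 2048, 2048, 2048⟩ 0 4096 :=
  run7_sound 100 _ _ _ _ 0 (by constructor <;> decide) u7_52

theorem k7_53 : OK7 ⟨1600, 1600, 3840, 1280, 10240, 2048, 10240, 2048, 2048, 2048⟩ 0 4096 :=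
  run7_sound 100 _ _ _ _ 0 (by constructor <;> decide) u7_53

theorem n7_50 : OK7 ⟨1600, 1600, 2560, 2560, 10240, 2048, 10240, 2048, 2048, 2048⟩ 0 4096 :=
  OK7.split (by constructor <;> decide) 1 (by decide) k7_52 k7_53

theorem k7_54 : OK7 ⟨4800, 1600, 1280, 1280, 9216, 1024, 9216, 1024, 1024, 1024⟩ 0 4096 :=
  run7_sound 100 _ _ _ _ 0 (by constructor <;> decide) u7_54

theorem k7_55 : OK7 ⟨4000, 800, 1280, 1280, 9216, 1024, 9216, 1024, 3072, 1024⟩ 0 4096 :=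
  run7_sound 100 _ _ _ _ 0 (by constructor <;> decide) u7_55

theorem k7_56 : OK7 ⟨5600, 800, 1280, 1280, 9216, 1024, 9216, 1024, 3072, 1024⟩ 0 4096 :=
  run7_sound 100 _ _ _ _ 0 (by constructor <;> decide) u7_56

theorem n7_51 : OK7 ⟨4800, 1600, 1280, 1280, 9216, 1024, 9216, 1024, 3072, 1024⟩ 0 4096 :=
  OK7.split (by constructor <;> decide) 0 (by decide) k7_55 k7_56

theorem n7_52 : OK7 ⟨4800, 1600, 1280, 1280, 9216, 1024, 9216, 1024, 2048, 2048⟩ 0 4096 :=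
  OK7.split (by constructor <;> decide) 4 (by decide) k7_54 n7_51

theorem k7_57 : OK7 ⟨4800, 1600, 1280, 1280, 9216, 1024, 11264, 1024, 2048, 2048⟩ 0 4096 :=
  run7_sound 100 _ _ _ _ 0 (by constructor <;> decide) u7_57

theorem n7_53 : OK7 ⟨4800, 1600, 1280, 1280, 9216, 1024, 10240, 2048, 2048, 2048⟩ 0 4096 :=
  OK7.split (by constructor <;> decide) 3 (by decide) n7_52 k7_57

theorem k7_58 : OK7 ⟨4800, 1600, 1280, 1280, 11264, 1024, 10240, 2048, 2048, 2048⟩ 0 4096 :=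
  run7_sound 100 _ _ _ _ 0 (by constructor <;> decide) u7_58

theorem n7_54 : OK7 ⟨4800, 1600, 1280, 1280, 10240, 2048, 10240, 2048, 2048, 2048⟩ 0 4096 :=
  OK7.split (by constructor <;> decide) 2 (by decide) n7_53 k7_58

theorem k7_59 : OK7 ⟨4800, 1600, 3840, 1280, 10240, 2048, 10240, 2048, 2048, 2048⟩ 0 4096 :=
  run7_sound 100 _ _ _ _ 0 (by constructor <;> decide) u7_59

theorem n7_55 : OK7 ⟨4800, 1600, 2560, 2560, 10240, 2048, 10240, 2048, 2048, 2048⟩ 0 4096 :=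
  OK7.split (by constructor <;> decide) 1 (by decide) n7_54 k7_59

theorem n7_56 : OK7 ⟨3200, 3200, 2560, 2560, 10240, 2048, 10240, 2048, 2048, 2048⟩ 0 4096 :=
  OK7.split (by constructor <;> decide) 0 (by decide) n7_50 n7_55

theorem k7_60 : OK7 ⟨1600, 1600, 1280, 1280, 9216, 1024, 9216, 1024, 5120, 1024⟩ 0 4096 :=
  run7_sound 100 _ _ _ _ 0 (by constructor <;> decide) u7_60

theorem k7_61 : OK7 ⟨800, 800, 1280, 1280, 9216, 1024, 9216, 1024, 7168, 1024⟩ 0 4096 :=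
  run7_sound 100 _ _ _ _ 0 (by constructor <;> decide) u7_61

theorem k7_62 : OK7 ⟨2400, 800, 1280, 1280, 9216, 1024, 9216, 1024, 7168, 1024⟩ 0 4096 :=
  run7_sound 100 _ _ _ _ 0 (by constructor <;> decide) u7_62

theorem n7_57 : OK7 ⟨1600, 1600, 1280, 1280, 9216, 1024, 9216, 1024, 7168, 1024⟩ 0 4096 :=
  OK7.split (by constructor <;> decide) 0 (by decide) k7_61 k7_62

theorem n7_58 : OK7 ⟨1600, 1600, 1280, 1280, 9216, 1024, 9216, 1024, 6144, 2048⟩ 0 4096 :=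
  OK7.split (by constructor <;> decide) 4 (by decide) k7_60 n7_57

theorem k7_63 : OK7 ⟨1600, 1600, 1280, 1280, 9216, 1024, 11264, 1024, 6144, 2048⟩ 0 4096 :=
  run7_sound 100 _ _ _ _ 0 (by constructor <;> decide) u7_63

theorem n7_59 : OK7 ⟨1600, 1600, 1280, 1280, 9216, 1024, 10240, 2048, 6144, 2048⟩ 0 4096 :=
  OK7.split (by constructor <;> decide) 3 (by decide) n7_58 k7_63

theorem k7_64 : OK7 ⟨1600, 1600, 1280, 1280, 11264, 1024, 10240, 2048, 6144, 2048⟩ 0 4096 :=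
  run7_sound 100 _ _ _ _ 0 (by constructor <;> decide) u7_64

theorem n7_60 : OK7 ⟨1600, 1600, 1280, 1280, 10240, 2048, 10240, 2048, 6144, 2048⟩ 0 4096 :=
  OK7.split (by constructor <;> decide) 2 (by decide) n7_59 k7_64

theorem k7_65 : OK7 ⟨800, 800, 3840, 1280, 9216, 1024, 9216, 1024, 5120, 1024⟩ 0 4096 :=
  run7_sound 100 _ _ _ _ 0 (by constructor <;> decide) u7_65

theorem k7_66 : OK7 ⟨2400, 800, 3840, 1280, 9216, 1024, 9216, 1024, 5120, 1024⟩ 0 4096 :=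
  run7_sound 100 _ _ _ _ 0 (by constructor <;> decide) u7_66

theorem n7_61 : OK7 ⟨1600, 1600, 3840, 1280, 9216, 1024, 9216, 1024, 5120, 1024⟩ 0 4096 :=
  OK7.split (by constructor <;> decide) 0 (by decide) k7_65 k7_66

theorem k7_67 : OK7 ⟨1600, 1600, 3840, 1280, 9216, 1024, 9216, 1024, 7168, 1024⟩ 0 4096 :=
  run7_sound 100 _ _ _ _ 0 (by constructor <;> decide) u7_67

theorem n7_62 : OK7 ⟨1600, 1600, 3840, 1280, 9216, 1024, 9216, 1024, 6144, 2048⟩ 0 4096 :=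
  OK7.split (by constructor <;> decide) 4 (by decide) n7_61 k7_67

theorem k7_68 : OK7 ⟨1600, 1600, 3840, 1280, 9216, 1024, 11264, 1024, 6144, 2048⟩ 0 4096 :=
  run7_sound 100 _ _ _ _ 0 (by constructor <;> decide) u7_68

theorem n7_63 : OK7 ⟨1600, 1600, 3840, 1280, 9216, 1024, 10240, 2048, 6144, 2048⟩ 0 4096 :=
  OK7.split (by constructor <;> decide) 3 (by decide) n7_62 k7_68

theorem k7_69 : OK7 ⟨1600, 1600, 3840, 1280, 11264, 1024, 10240, 2048, 6144, 2048⟩ 0 4096 :=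
  run7_sound 100 _ _ _ _ 0 (by constructor <;> decide) u7_69

theorem n7_64 : OK7 ⟨1600, 1600, 3840, 1280, 10240, 2048, 10240, 2048, 6144, 2048⟩ 0 4096 :=
  OK7.split (by constructor <;> decide) 2 (by decide) n7_63 k7_69

theorem n7_65 : OK7 ⟨1600, 1600, 2560, 2560, 10240, 2048, 10240, 2048, 6144, 2048⟩ 0 4096 :=
  OK7.split (by constructor <;> decide) 1 (by decide) n7_60 n7_64

theorem k7_70 : OK7 ⟨4000, 800, 1280, 1280, 9216, 1024, 9216, 1024, 5120, 1024⟩ 0 4096 :=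
  run7_sound 100 _ _ _ _ 0 (by constructor <;> decide) u7_70

theorem k7_71 : OK7 ⟨5600, 800, 1280, 1280, 9216, 1024, 9216, 1024, 5120, 1024⟩ 0 4096 :=
  run7_sound 100 _ _ _ _ 0 (by constructor <;> decide) u7_71

theorem n7_66 : OK7 ⟨4800, 1600, 1280, 1280, 9216, 1024, 9216, 1024, 5120, 1024⟩ 0 4096 :=
  OK7.split (by constructor <;> decide) 0 (by decide) k7_70 k7_71

theorem k7_72 : OK7 ⟨4800, 1600, 1280, 1280, 9216, 1024, 9216, 1024, 7168, 1024⟩ 0 4096 :=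
  run7_sound 100 _ _ _ _ 0 (by constructor <;> decide) u7_72

theorem n7_67 : OK7 ⟨4800, 1600, 1280, 1280, 9216, 1024, 9216, 1024, 6144, 2048⟩ 0 4096 :=
  OK7.split (by constructor <;> decide) 4 (by decide) n7_66 k7_72

theorem k7_73 : OK7 ⟨4800, 1600, 1280, 1280, 9216, 1024, 11264, 1024, 6144, 2048⟩ 0 4096 :=
  run7_sound 100 _ _ _ _ 0 (by constructor <;> decide) u7_73

theorem n7_68 : OK7 ⟨4800, 1600, 1280, 1280, 9216, 1024, 10240, 2048, 6144, 2048⟩ 0 4096 :=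
  OK7.split (by constructor <;> decide) 3 (by decide) n7_67 k7_73

theorem k7_74 : OK7 ⟨4800, 1600, 1280, 1280, 11264, 1024, 9216, 1024, 5120, 1024⟩ 0 4096 :=
  run7_sound 100 _ _ _ _ 0 (by constructor <;> decide) u7_74

theorem k7_75 : OK7 ⟨4000, 800, 1280, 1280, 11264, 1024, 9216, 1024, 7168, 1024⟩ 0 4096 :=
  run7_sound 100 _ _ _ _ 0 (by constructor <;> decide) u7_75

theorem k7_76 : OK7 ⟨5600, 800, 1280, 1280, 11264, 1024, 9216, 1024, 7168, 1024⟩ 0 4096 :=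
  run7_sound 100 _ _ _ _ 0 (by constructor <;> decide) u7_76

theorem n7_69 : OK7 ⟨4800, 1600, 1280, 1280, 11264, 1024, 9216, 1024, 7168, 1024⟩ 0 4096 :=
  OK7.split (by constructor <;> decide) 0 (by decide) k7_75 k7_76

theorem n7_70 : OK7 ⟨4800, 1600, 1280, 1280, 11264, 1024, 9216, 1024, 6144, 2048⟩ 0 4096 :=
  OK7.split (by constructor <;> decide) 4 (by decide) k7_74 n7_69

theorem k7_77 : OK7 ⟨4800, 1600, 1280, 1280, 11264, 1024, 11264, 1024, 6144, 2048⟩ 0 4096 :=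
  run7_sound 100 _ _ _ _ 0 (by constructor <;> decide) u7_77

theorem n7_71 : OK7 ⟨4800, 1600, 1280, 1280, 11264, 1024, 10240, 2048, 6144, 2048⟩ 0 4096 :=
  OK7.split (by constructor <;> decide) 3 (by decide) n7_70 k7_77

theorem n7_72 : OK7 ⟨4800, 1600, 1280, 1280, 10240, 2048, 10240, 2048, 6144, 2048⟩ 0 4096 :=
  OK7.split (by constructor <;> decide) 2 (by decide) n7_68 n7_71

theorem k7_78 : OK7 ⟨4000, 800, 3840, 1280, 9216, 1024, 9216, 1024, 5120, 1024⟩ 0 4096 :=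
  run7_sound 100 _ _ _ _ 0 (by constructor <;> decide) u7_78

theorem k7_79 : OK7 ⟨4000, 800, 3840, 1280, 9216, 1024, 9216, 1024, 7168, 1024⟩ 0 4096 :=
  run7_sound 100 _ _ _ _ 0 (by constructor <;> decide) u7_79

theorem n7_73 : OK7 ⟨4000, 800, 3840, 1280, 9216, 1024, 9216, 1024, 6144, 2048⟩ 0 4096 :=
  OK7.split (by constructor <;> decide) 4 (by decide) k7_78 k7_79

theorem k7_80 : OK7 ⟨4000, 800, 3840, 1280, 9216, 1024, 11264, 1024, 6144, 2048⟩ 0 4096 :=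
  run7_sound 100 _ _ _ _ 0 (by constructor <;> decide) u7_80

theorem n7_74 : OK7 ⟨4000, 800, 3840, 1280, 9216, 1024, 10240, 2048, 6144, 2048⟩ 0 4096 :=
  OK7.split (by constructor <;> decide) 3 (by decide) n7_73 k7_80

theorem k7_81 : OK7 ⟨4000, 800, 3840, 1280, 11264, 1024, 10240, 2048, 6144, 2048⟩ 0 4096 :=
  run7_sound 100 _ _ _ _ 0 (by constructor <;> decide) u7_81

theorem n7_75 : OK7 ⟨4000, 800, 3840, 1280, 10240, 2048, 10240, 2048, 6144, 2048⟩ 0 4096 :=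
  OK7.split (by constructor <;> decide) 2 (by decide) n7_74 k7_81

theorem k7_82 : OK7 ⟨5600, 800, 3840, 1280, 10240, 2048, 10240, 2048, 6144, 2048⟩ 0 4096 :=
  run7_sound 100 _ _ _ _ 0 (by constructor <;> decide) u7_82

theorem n7_76 : OK7 ⟨4800, 1600, 3840, 1280, 10240, 2048, 10240, 2048, 6144, 2048⟩ 0 4096 :=
  OK7.split (by constructor <;> decide) 0 (by decide) n7_75 k7_82

theorem n7_77 : OK7 ⟨4800, 1600, 2560, 2560, 10240, 2048, 10240, 2048, 6144, 2048⟩ 0 4096 :=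
  OK7.split (by constructor <;> decide) 1 (by decide) n7_72 n7_76

theorem n7_78 : OK7 ⟨3200, 3200, 2560, 2560, 10240, 2048, 10240, 2048, 6144, 2048⟩ 0 4096 :=
  OK7.split (by constructor <;> decide) 0 (by decide) n7_65 n7_77

theorem n7_79 : OK7 ⟨3200, 3200, 2560, 2560, 10240, 2048, 10240, 2048, 4096, 4096⟩ 0 4096 :=
  OK7.split (by constructor <;> decide) 4 (by decide) n7_56 n7_78

theorem k7_83 : OK7 ⟨3200, 3200, 2560, 2560, 10240, 2048, 14336, 2048, 4096, 4096⟩ 0 4096 :=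
  run7_sound 100 _ _ _ _ 0 (by constructor <;> decide) u7_83

theorem n7_80 : OK7 ⟨3200, 3200, 2560, 2560, 10240, 2048, 12288, 4096, 4096, 4096⟩ 0 4096 :=
  OK7.split (by constructor <;> decide) 3 (by decide) n7_79 k7_83

theorem k7_84 : OK7 ⟨3200, 3200, 2560, 2560, 14336, 2048, 10240, 2048, 2048, 2048⟩ 0 4096 :=
  run7_sound 100 _ _ _ _ 0 (by constructor <;> decide) u7_84

theorem k7_85 : OK7 ⟨3200, 3200, 2560, 2560, 14336, 2048, 10240, 2048, 6144, 2048⟩ 0 4096 :=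
  run7_sound 100 _ _ _ _ 0 (by constructor <;> decide) u7_85

theorem n7_81 : OK7 ⟨3200, 3200, 2560, 2560, 14336, 2048, 10240, 2048, 4096, 4096⟩ 0 4096 :=
  OK7.split (by constructor <;> decide) 4 (by decide) k7_84 k7_85

theorem k7_86 : OK7 ⟨3200, 3200, 2560, 2560, 14336, 2048, 14336, 2048, 4096, 4096⟩ 0 4096 :=
  run7_sound 100 _ _ _ _ 0 (by constructor <;> decide) u7_86

theorem n7_82 : OK7 ⟨3200, 3200, 2560, 2560, 14336, 2048, 12288, 4096, 4096, 4096⟩ 0 4096 :=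
  OK7.split (by constructor <;> decide) 3 (by decide) n7_81 k7_86

theorem n7_83 : OK7 ⟨3200, 3200, 2560, 2560, 12288, 4096, 12288, 4096, 4096, 4096⟩ 0 4096 :=
  OK7.split (by constructor <;> decide) 2 (by decide) n7_80 n7_82

theorem k7_87 : OK7 ⟨1600, 1600, 6400, 1280, 9216, 1024, 9216, 1024, 1024, 1024⟩ 0 4096 :=
  run7_sound 100 _ _ _ _ 0 (by constructor <;> decide) u7_87

theorem k7_88 : OK7 ⟨800, 800, 6400, 1280, 9216, 1024, 9216, 1024, 3072, 1024⟩ 0 4096 :=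
  run7_sound 100 _ _ _ _ 0 (by constructor <;> decide) u7_88

theorem k7_89 : OK7 ⟨2400, 800, 6400, 1280, 9216, 1024, 9216, 1024, 3072, 1024⟩ 0 4096 :=
  run7_sound 100 _ _ _ _ 0 (by constructor <;> decide) u7_89

theorem n7_84 : OK7 ⟨1600, 1600, 6400, 1280, 9216, 1024, 9216, 1024, 3072, 1024⟩ 0 4096 :=
  OK7.split (by constructor <;> decide) 0 (by decide) k7_88 k7_89

theorem n7_85 : OK7 ⟨1600, 1600, 6400, 1280, 9216, 1024, 9216, 1024, 2048, 2048⟩ 0 4096 :=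
  OK7.split (by constructor <;> decide) 4 (by decide) k7_87 n7_84

theorem k7_90 : OK7 ⟨1600, 1600, 6400, 1280, 9216, 1024, 11264, 1024, 2048, 2048⟩ 0 4096 :=
  run7_sound 100 _ _ _ _ 0 (by constructor <;> decide) u7_90

theorem n7_86 : OK7 ⟨1600, 1600, 6400, 1280, 9216, 1024, 10240, 2048, 2048, 2048⟩ 0 4096 :=
  OK7.split (by constructor <;> decide) 3 (by decide) n7_85 k7_90

theorem k7_91 : OK7 ⟨1600, 1600, 6400, 1280, 11264, 1024, 10240, 2048, 2048, 2048⟩ 0 4096 :=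
  run7_sound 100 _ _ _ _ 0 (by constructor <;> decide) u7_91

theorem n7_87 : OK7 ⟨1600, 1600, 6400, 1280, 10240, 2048, 10240, 2048, 2048, 2048⟩ 0 4096 :=
  OK7.split (by constructor <;> decide) 2 (by decide) n7_86 k7_91

theorem k7_92 : OK7 ⟨1600, 1600, 8960, 1280, 10240, 2048, 10240, 2048, 2048, 2048⟩ 0 4096 :=
  run7_sound 100 _ _ _ _ 0 (by constructor <;> decide) u7_92

theorem n7_88 : OK7 ⟨1600, 1600, 7680, 2560, 10240, 2048, 10240, 2048, 2048, 2048⟩ 0 4096 :=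
  OK7.split (by constructor <;> decide) 1 (by decide) n7_87 k7_92

theorem k7_93 : OK7 ⟨1600, 1600, 6400, 1280, 9216, 1024, 9216, 1024, 5120, 1024⟩ 0 4096 :=
  run7_sound 100 _ _ _ _ 0 (by constructor <;> decide) u7_93

theorem k7_94 : OK7 ⟨1600, 1600, 6400, 1280, 9216, 1024, 9216, 1024, 7168, 1024⟩ 0 4096 :=
  run7_sound 100 _ _ _ _ 0 (by constructor <;> decide) u7_94

theorem n7_89 : OK7 ⟨1600, 1600, 6400, 1280, 9216, 1024, 9216, 1024, 6144, 2048⟩ 0 4096 :=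
  OK7.split (by constructor <;> decide) 4 (by decide) k7_93 k7_94

theorem k7_95 : OK7 ⟨1600, 1600, 6400, 1280, 9216, 1024, 11264, 1024, 5120, 1024⟩ 0 4096 :=
  run7_sound 100 _ _ _ _ 0 (by constructor <;> decide) u7_95

theorem k7_96 : OK7 ⟨800, 800, 6400, 1280, 9216, 1024, 11264, 1024, 7168, 1024⟩ 0 4096 :=
  run7_sound 100 _ _ _ _ 0 (by constructor <;> decide) u7_96

theorem k7_97 : OK7 ⟨2400, 800, 6400, 1280, 9216, 1024, 11264, 1024, 7168, 1024⟩ 0 4096 :=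
  run7_sound 100 _ _ _ _ 0 (by constructor <;> decide) u7_97

theorem n7_90 : OK7 ⟨1600, 1600, 6400, 1280, 9216, 1024, 11264, 1024, 7168, 1024⟩ 0 4096 :=
  OK7.split (by constructor <;> decide) 0 (by decide) k7_96 k7_97

theorem n7_91 : OK7 ⟨1600, 1600, 6400, 1280, 9216, 1024, 11264, 1024, 6144, 2048⟩ 0 4096 :=
  OK7.split (by constructor <;> decide) 4 (by decide) k7_95 n7_90

theorem n7_92 : OK7 ⟨1600, 1600, 6400, 1280, 9216, 1024, 10240, 2048, 6144, 2048⟩ 0 4096 :=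
  OK7.split (by constructor <;> decide) 3 (by decide) n7_89 n7_91

theorem k7_98 : OK7 ⟨1600, 1600, 6400, 1280, 11264, 1024, 10240, 2048, 6144, 2048⟩ 0 4096 :=
  run7_sound 100 _ _ _ _ 0 (by constructor <;> decide) u7_98

theorem n7_93 : OK7 ⟨1600, 1600, 6400, 1280, 10240, 2048, 10240, 2048, 6144, 2048⟩ 0 4096 :=
  OK7.split (by constructor <;> decide) 2 (by decide) n7_92 k7_98

theorem k7_99 : OK7 ⟨1600, 1600, 8960, 1280, 10240, 2048, 10240, 2048, 6144, 2048⟩ 0 4096 :=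
  run7_sound 100 _ _ _ _ 0 (by constructor <;> decide) u7_99

theorem n7_94 : OK7 ⟨1600, 1600, 7680, 2560, 10240, 2048, 10240, 2048, 6144, 2048⟩ 0 4096 :=
  OK7.split (by constructor <;> decide) 1 (by decide) n7_93 k7_99

theorem n7_95 : OK7 ⟨1600, 1600, 7680, 2560, 10240, 2048, 10240, 2048, 4096, 4096⟩ 0 4096 :=
  OK7.split (by constructor <;> decide) 4 (by decide) n7_88 n7_94

theorem k7_100 : OK7 ⟨1600, 1600, 7680, 2560, 10240, 2048, 14336, 2048, 4096, 4096⟩ 0 4096 :=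
  run7_sound 100 _ _ _ _ 0 (by constructor <;> decide) u7_100

theorem n7_96 : OK7 ⟨1600, 1600, 7680, 2560, 10240, 2048, 12288, 4096, 4096, 4096⟩ 0 4096 :=
  OK7.split (by constructor <;> decide) 3 (by decide) n7_95 k7_100

theorem k7_101 : OK7 ⟨1600, 1600, 7680, 2560, 14336, 2048, 12288, 4096, 4096, 4096⟩ 0 4096 :=
  run7_sound 100 _ _ _ _ 0 (by constructor <;> decide) u7_101

theorem n7_97 : OK7 ⟨1600, 1600, 7680, 2560, 12288, 4096, 12288, 4096, 4096, 4096⟩ 0 4096 :=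
  OK7.split (by constructor <;> decide) 2 (by decide) n7_96 k7_101

theorem k7_102 : OK7 ⟨4800, 1600, 7680, 2560, 12288, 4096, 12288, 4096, 4096, 4096⟩ 0 4096 :=
  run7_sound 100 _ _ _ _ 0 (by constructor <;> decide) u7_102

theorem n7_98 : OK7 ⟨3200, 3200, 7680, 2560, 12288, 4096, 12288, 4096, 4096, 4096⟩ 0 4096 :=
  OK7.split (by constructor <;> decide) 0 (by decide) n7_97 k7_102

theorem n7_99 : OK7 ⟨3200, 3200, 5120, 5120, 12288, 4096, 12288, 4096, 4096, 4096⟩ 0 4096 :=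
  OK7.split (by constructor <;> decide) 1 (by decide) n7_83 n7_98

theorem n7_100 : OK7 ⟨3200, 3200, 5120, 5120, 12288, 4096, 8192, 8192, 4096, 4096⟩ 0 4096 :=
  OK7.split (by constructor <;> decide) 3 (by decide) n7_49 n7_99

theorem n7_101 : OK7 ⟨3200, 3200, 5120, 5120, 8192, 8192, 8192, 8192, 4096, 4096⟩ 0 4096 :=
  OK7.split (by constructor <;> decide) 2 (by decide) n7_31 n7_100

end Pool.Agent.H304.K

namespace Pool.Agent.H304

/-- there is no configuration with an angle between 25 and 52 degrees -/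
theorem geo7 {InX : E → Prop} {z u : E} {c s lam S tt : ℝ} (G : Geo InX z u c s lam S tt)
    (h1 : 0.6234 ≤ c) (h2 : c ≤ 0.9011) : False :=
  K.geo7_of K.n7_101 G h1 h2

end Pool.Agent.H304
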