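import Pool.Agent.helper304_full.Base

set_option autoImplicit false

namespace Pool.Agent.H304.K

/-- cosine and sine of the power number `j`: even codes `0, 2, 4` are the powers `1, 2, 3`, odd codes their inverses -/
noncomputable def pc (c s : ℝ) (j : ℕ) : ℝ :=
  if j ≤ 1 then c else if j ≤ 3 then c ^ 2 - s ^ 2 else c * (c ^ 2 - s ^ 2) - s * (2 * c * s)
noncomputable def ps (c s : ℝ) (j : ℕ) : ℝ :=
  (if j % 2 = 0 then 1 else -1) * (if j ≤ 1 then s else if j ≤ 3 then 2 * c * s else s * (c ^ 2 - s ^ 2) + c * (2 * c * s))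

/-- the level condition -/
def Lev (S lam : ℝ) (y : E) : Prop := ∃ f, IsFace f ∧ ∃ τ, 0 ≤ τ ∧ τ ≤ S ∧ lam ^ 2 * dt (y - τ • f) (y - τ • f) < 1

/-- the vertices `vA`, `vB`, `vC` -/
noncomputable def vx (v : ℕ) : E := if v = 0 then vA else if v = 1 then vB else vC

/-- ideal rotation about the vertex direction `v` with power code `j` (`0` : 72 degrees, `1` : -72, `2` : 144, `3` : -144) -/
noncomputable def rvp (v : E) (j : ℕ) (w : E) : E :=
  if j = 0 then rv v 1 w else if j = 1 then rv v (-1) w else if j = 2 then rv v 1 (rv v 1 w) else rv v (-1) (rv v (-1) w)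

/-- centre of the special region -/
noncomputable def zc : E := !₂[2 - ph, 0, 1]

end Pool.Agent.H304.K
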