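import Mathlib
import Pool.Agent.helper304_full.Code

set_option autoImplicit false

set_option maxRecDepth 100000
set_option exponentiation.threshold 100000

namespace Pool.Agent.H304.K

/-- positions of the six noise symbols -/
def posn : Fin 6 → ℕ := ![35, 36, 39, 45, 47, 52]

/-- `p` represents the real number `x`, a quadratic polynomial in the noise symbols `ε` with integer coefficients plus a remainder; the
majorant `g` bounds the constant, linear and quadratic coefficients and the remainder, and its total is at most `b` -/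
def Rep (ε : Fin 6 → ℝ) (b : ℝ) (p : P) (x : ℝ) : Prop :=
  ∃ (c : ℤ) (k : Fin 6 → ℤ) (r : Fin 6 → Fin 6 → ℤ) (ρ : ℝ) (g : Polynomial ℕ),
    x = (c : ℝ) + ∑ i, (k i : ℝ) * ε i + ∑ i, ∑ j, (r i j : ℝ) * (ε i * ε j) + ρ ∧
    (p.n : ℤ) ≡ c + ∑ i, k i * 2 ^ (176 * posn i) + ∑ i, ∑ j, r i j * 2 ^ (176 * (posn i + posn j)) [ZMOD 2 ^ 18480] ∧
    p.m = g.eval (2 ^ 176) ∧
    |c| ≤ (g.coeff 0 : ℤ) ∧ ∑ i, |k i| ≤ (g.coeff 1 : ℤ) ∧ ∑ i, ∑ j, |r i j| ≤ (g.coeff 2 : ℤ) ∧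
    |ρ| + g.coeff 0 + g.coeff 1 + g.coeff 2 ≤ ((g.eval 1 : ℕ) : ℝ) ∧ ((g.eval 1 : ℕ) : ℝ) ≤ b

end Pool.Agent.H304.K
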