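import Pool.Agent.helper304_full.GeoDefs
import Pool.Agent.helper304_full.RepDefs

set_option autoImplicit false

set_option maxRecDepth 100000
set_option exponentiation.threshold 100000

namespace Pool.Agent.H304.K

/-- vector version -/
def RepV (ε : Fin 6 → ℝ) (b : ℝ) (v : V) (w : E) : Prop := Rep ε b v.x (w 0) ∧ Rep ε b v.y (w 1) ∧ Rep ε b v.z (w 2)

/-- the environment `e` represents `z`, the axis `u` and the powers of the rotation -/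
structure EnvRep (ε : Fin 6 → ℝ) (e : Env) (z u : E) (c s : ℝ) : Prop where
  rjm : e.jm = 4 ∧ c = C5 ∧ s = S5 ∨ e.jm = 6 ∧ 0.6233 ≤ c ∧ c ≤ 0.9012
  rz : RepV ε (2 ^ 14) e.z ((2 : ℝ) ^ 14 • z)
  ra : Rep ε (2 ^ 36) e.a (2 ^ 34 * dt z f0)
  rzz : Rep ε (2 ^ 30) e.zz (2 ^ 28 * dt z z)
  rax : ∃ μ bM : ℝ, 0 < μ ∧ bM ≤ 2 ^ 30 ∧ RepV ε bM e.m (μ • u) ∧ ∀ j < e.jm, ∃ A B D bA bB : ℝ,
    0 < D ∧ Rep ε bA (e.ax j).A A ∧ Rep ε bB (e.ax j).B B ∧ Rep ε (2 ^ 87) (e.ax j).D D ∧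
    bA * bM ≤ 2 ^ 88 ∧ bB * bM * bM ≤ 2 ^ 88 ∧ ∀ w : E, D • (H304.rot u (pc c s j) (ps c s j) w - w) =
      (if j % 2 = 0 then A else -A) • cr (μ • u) w + B • cr (μ • u) (cr (μ • u) w)

/-- current level data are valid -/
structure Val (lam S : ℝ) (κ Sb : ℕ) : Prop where
  k : lam ^ 2 * ((κ : ℝ) / 2 ^ 14) ≤ 1
  s : S ≤ (Sb : ℝ) / 2 ^ 12
  kb : κ < 2 ^ 20
  sb : Sb < 2 ^ 14

/-- invariant of boxes, `H` the half range of the first two axis parameters -/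
structure Box.Inv (b : Box) (H : ℕ) : Prop where
  x1 : b.hx ≤ b.cx
  x2 : b.cx + b.hx ≤ 6400
  y1 : b.hy ≤ b.cy
  y2 : b.cy + b.hy ≤ 10240
  a1 : b.h0 ≤ b.c0
  a2 : b.c0 + b.h0 ≤ 2 * H
  b1 : b.h1 ≤ b.c1
  b2 : b.c1 + b.h1 ≤ 2 * H
  c1 : b.h2 ≤ b.c2
  c2 : b.c2 + b.h2 ≤ 8192

/-- the point with scaled shifted coordinates `(p 0, ..., p 4)` lies in the box -/
structure Box.In (b : Box) (p : Fin 5 → ℝ) : Prop where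
  i0 : |p 0 - (b.cx : ℝ)| ≤ (b.hx : ℝ)
  i1 : |p 1 - (b.cy : ℝ)| ≤ (b.hy : ℝ)
  i2 : |p 2 - (b.c0 : ℝ)| ≤ (b.h0 : ℝ)
  i3 : |p 3 - (b.c1 : ℝ)| ≤ (b.h1 : ℝ)
  i4 : |p 4 - (b.c2 : ℝ)| ≤ (b.h2 : ℝ)

/-- scaled shifted coordinates for `n = 5`; `α`, `β` are the stereographic coordinates of the axis -/
noncomputable def pt5 (z : E) (α β : ℝ) : Fin 5 → ℝ := ![2 ^ 14 * z 0, 2 ^ 14 * z 1, 2 ^ 14 * (α + 1), 2 ^ 14 * (β + 1), 0]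
/-- for `7 ≤ n`; `τ` is the tangent of half the angle -/
noncomputable def pt7 (z u : E) (τ : ℝ) : Fin 5 → ℝ :=
  ![2 ^ 14 * z 0, 2 ^ 14 * z 1, 2 ^ 14 * (τ * u 0 + 1 / 2), 2 ^ 14 * (τ * u 1 + 1 / 2), 2 ^ 14 * (τ * u 2)]
/-- stereographic parametrisation of the upper hemisphere -/
noncomputable def ster (α β : ℝ) : E := (1 + α ^ 2 + β ^ 2)⁻¹ • !₂[2 * α, 2 * β, 1 - α ^ 2 - β ^ 2]

/-- no counterexample in the box, `n = 5` -/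
def OK5 (b : Box) (κ Sb : ℕ) : Prop := ∀ (InX : E → Prop) (z : E) (α β lam S tt : ℝ),
  Geo InX z (ster α β) C5 S5 lam S tt → α ^ 2 + β ^ 2 ≤ 1 → b.In (pt5 z α β) → Val lam S κ Sb → False
/-- no counterexample in the box, `7 ≤ n` -/
def OK7 (b : Box) (κ Sb : ℕ) : Prop := ∀ (InX : E → Prop) (z u : E) (τ lam S tt : ℝ),
  Geo InX z u ((1 - τ ^ 2) / (1 + τ ^ 2)) (2 * τ / (1 + τ ^ 2)) lam S tt → 0 < τ → 0.0520 ≤ τ ^ 2 → τ ^ 2 ≤ 0.2320 → 0 ≤ u 2 →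
  b.In (pt7 z u τ) → Val lam S κ Sb → False

end Pool.Agent.H304.K
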