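import Pool.Agent.helper304_full.Base

set_option autoImplicit false

namespace Pool.Agent.H304

lemma r1_sgn (t : ℝ) : ∃ σ : ℝ, (σ = 1 ∨ σ = -1) ∧ t * σ = |t| := by
  rcases le_total 0 t with h | h
  · exact ⟨1, Or.inl rfl, by rw [abs_of_nonneg h, mul_one]⟩
  · exact ⟨-1, Or.inr rfl, by rw [abs_of_nonpos h]; ring⟩

lemma r1_vtx {a b c : ℝ} (ha : 0 ≤ a) (hb : 0 ≤ b) (h1 : a + ph * b ≤ b + ph * c)
    (h2 : c + ph * a ≤ b + ph * c) : (3 * ph + 2) * (a ^ 2 + b ^ 2 + c ^ 2) ≤ 3 * (b + ph * c) ^ 2 := by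
  have hp := ph_sq
  have hg := ph_gt
  have l1 : 0 ≤ ph * c - (ph - 1) * b - a := by linarith
  have l2 : 0 ≤ b + (ph - 1) * c - ph * a := by linarith
  have e : 3 * (b + ph * c) ^ 2 - (3 * ph + 2) * (a ^ 2 + b ^ 2 + c ^ 2) =
      (ph * c - (ph - 1) * b - a) * (b + (ph - 1) * c - ph * a) +
      2 * (ph + 1) * (a * (b + (ph - 1) * c - ph * a) + b * (ph * c - (ph - 1) * b - a)) := by
    linear_combination (2 * a ^ 2 - a * b - a * c + 2 * b ^ 2 - b * c + 2 * c ^ 2) * hp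
  have p1 := mul_nonneg l1 l2
  have p2 := mul_nonneg ha l2
  have p3 := mul_nonneg hb l1
  have p4 : 0 ≤ 2 * (ph + 1) * (a * (b + (ph - 1) * c - ph * a) + b * (ph * c - (ph - 1) * b - a)) :=
    mul_nonneg (by linarith) (add_nonneg p2 p3)
  linarith

lemma r1_face0 {a b c : ℝ} (h1 : 0 ≤ (2 - ph) * a + b + (1 - ph) * c)
    (h2 : 0 ≤ (1 - ph) * a + (2 - ph) * b + c) (h3 : 0 ≤ a + (1 - ph) * b + (2 - ph) * c) :
    (3 * ph + 2) * (a ^ 2 + b ^ 2 + c ^ 2) ≤ (ph + 2) * (a + b + c) ^ 2 := by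
  have hp := ph_sq
  have hg := ph_gt
  have p1 := mul_nonneg h1 h2
  have p2 := mul_nonneg h2 h3
  have p3 := mul_nonneg h3 h1
  have e : (ph + 2) * (a + b + c) ^ 2 - (3 * ph + 2) * (a ^ 2 + b ^ 2 + c ^ 2) =
      (3 * ph + 2) * (((2 - ph) * a + b + (1 - ph) * c) * ((1 - ph) * a + (2 - ph) * b + c) +
        ((1 - ph) * a + (2 - ph) * b + c) * (a + (1 - ph) * b + (2 - ph) * c) +
        (a + (1 - ph) * b + (2 - ph) * c) * ((2 - ph) * a + b + (1 - ph) * c)) := by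
    linear_combination ((10 - 3 * ph) * (a ^ 2 + b ^ 2 + c ^ 2) + (18 - 9 * ph) * (a * b + a * c + b * c)) * hp
  have p4 : 0 ≤ (3 * ph + 2) * (((2 - ph) * a + b + (1 - ph) * c) * ((1 - ph) * a + (2 - ph) * b + c) +
        ((1 - ph) * a + (2 - ph) * b + c) * (a + (1 - ph) * b + (2 - ph) * c) +
        (a + (1 - ph) * b + (2 - ph) * c) * ((2 - ph) * a + b + (1 - ph) * c)) :=
    mul_nonneg (by linarith) (by linarith)
  linarith

lemma r1_face1 {a b c : ℝ} (ha : 0 ≤ a) (hb : 0 ≤ b) (h1 : 0 ≤ (ph - 1) * c - (2 - ph) * a - b) :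
    (3 * ph + 2) * (a ^ 2 + b ^ 2 + c ^ 2) ≤ (ph + 2) * ((ph - 1) * a + ph * c) ^ 2 := by
  have hp := ph_sq
  have hg := ph_gt
  have h2 : 0 ≤ (ph - 1) * c - (2 - ph) * a + b := by linarith
  have p1 := mul_nonneg h1 h2
  have p2 := mul_nonneg ha h1
  have p3 := mul_nonneg ha h2
  have e : (ph + 2) * ((ph - 1) * a + ph * c) ^ 2 - (3 * ph + 2) * (a ^ 2 + b ^ 2 + c ^ 2) =
      (3 * ph + 2) * (((ph - 1) * c - (2 - ph) * a - b) * ((ph - 1) * c - (2 - ph) * a + b) +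
        2 * (ph - 1) * (a * ((ph - 1) * c - (2 - ph) * a - b) + a * ((ph - 1) * c - (2 - ph) * a + b))) := by
    linear_combination ((24 - 14 * ph) * a ^ 2 + (4 - 2 * ph) * c ^ 2 + (16 - 16 * ph) * (a * c)) * hp
  have p4 : 0 ≤ (3 * ph + 2) * (((ph - 1) * c - (2 - ph) * a - b) * ((ph - 1) * c - (2 - ph) * a + b) +
        2 * (ph - 1) * (a * ((ph - 1) * c - (2 - ph) * a - b) + a * ((ph - 1) * c - (2 - ph) * a + b))) :=
    mul_nonneg (by linarith) (add_nonneg p1 (mul_nonneg (by linarith) (add_nonneg p2 p3)))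
  linarith

theorem near_vtx (x : E) : ∃ v, IsVtx v ∧ 0 ≤ dt x v ∧ (3 * ph + 2) * dt x x ≤ 3 * dt x v ^ 2 := by
  obtain ⟨s0, hs0, e0⟩ := r1_sgn (x 0)
  obtain ⟨s1, hs1, e1⟩ := r1_sgn (x 1)
  obtain ⟨s2, hs2, e2⟩ := r1_sgn (x 2)
  have hg := ph_gt
  have n0 := abs_nonneg (x 0)
  have n1 := abs_nonneg (x 1)
  have n2 := abs_nonneg (x 2)
  have q : dt x x = |x 0| ^ 2 + |x 1| ^ 2 + |x 2| ^ 2 := by
    simp only [dt, sq_abs]; ring
  have m1 : 0 ≤ |x 1| + ph * |x 2| := by positivity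
  have m2 : 0 ≤ |x 0| + ph * |x 1| := by positivity
  have m3 : 0 ≤ |x 2| + ph * |x 0| := by positivity
  have d1 : dt x !₂[0, s1, s2 * ph] = |x 1| + ph * |x 2| := by
    simp [dt]; linear_combination e1 + ph * e2
  have d2 : dt x !₂[s0, s1 * ph, 0] = |x 0| + ph * |x 1| := by
    simp [dt]; linear_combination e0 + ph * e1
  have d3 : dt x !₂[s0 * ph, 0, s2] = |x 2| + ph * |x 0| := by
    simp [dt]; linear_combination e2 + ph * e0
  rcases le_total (|x 0| + ph * |x 1|) (|x 1| + ph * |x 2|) with h | h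
  · rcases le_total (|x 2| + ph * |x 0|) (|x 1| + ph * |x 2|) with h' | h'
    · refine ⟨!₂[0, s1, s2 * ph], ⟨s1, s2, hs1, hs2, Or.inl rfl⟩, by rw [d1]; exact m1, ?_⟩
      rw [d1, q]
      exact r1_vtx n0 n1 h h'
    · refine ⟨!₂[s0 * ph, 0, s2], ⟨s2, s0, hs2, hs0, Or.inr (Or.inr rfl)⟩, by rw [d3]; exact m3, ?_⟩
      rw [d3, q]
      have := r1_vtx (a := |x 1|) (b := |x 2|) (c := |x 0|) n1 n2 h' (by linarith)
      linarith
  · rcases le_total (|x 2| + ph * |x 0|) (|x 0| + ph * |x 1|) with h' | h'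
    · refine ⟨!₂[s0, s1 * ph, 0], ⟨s0, s1, hs0, hs1, Or.inr (Or.inl rfl)⟩, by rw [d2]; exact m2, ?_⟩
      rw [d2, q]
      have := r1_vtx (a := |x 2|) (b := |x 0|) (c := |x 1|) n2 n0 h' h
      linarith
    · refine ⟨!₂[s0 * ph, 0, s2], ⟨s2, s0, hs2, hs0, Or.inr (Or.inr rfl)⟩, by rw [d3]; exact m3, ?_⟩
      rw [d3, q]
      have := r1_vtx (a := |x 1|) (b := |x 2|) (c := |x 0|) n1 n2 (by linarith) h'
      linarith

theorem near_face (x : E) : ∃ f, IsFace f ∧ 0 ≤ dt x f ∧ (3 * ph + 2) * dt x x ≤ (ph + 2) * dt x f ^ 2 := by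
  obtain ⟨s0, hs0, e0⟩ := r1_sgn (x 0)
  obtain ⟨s1, hs1, e1⟩ := r1_sgn (x 1)
  obtain ⟨s2, hs2, e2⟩ := r1_sgn (x 2)
  have hg := ph_gt
  have hg1 : 0 ≤ ph - 1 := by linarith
  have n0 := abs_nonneg (x 0)
  have n1 := abs_nonneg (x 1)
  have n2 := abs_nonneg (x 2)
  have q : dt x x = |x 0| ^ 2 + |x 1| ^ 2 + |x 2| ^ 2 := by
    simp only [dt, sq_abs]; ring
  have m0 : 0 ≤ |x 0| + |x 1| + |x 2| := by positivity
  have m1 : 0 ≤ (ph - 1) * |x 0| + ph * |x 2| := by positivity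
  have m2 : 0 ≤ (ph - 1) * |x 1| + ph * |x 0| := by positivity
  have m3 : 0 ≤ (ph - 1) * |x 2| + ph * |x 1| := by positivity
  have d0 : dt x !₂[s0, s1, s2] = |x 0| + |x 1| + |x 2| := by
    simp [dt]; linear_combination e0 + e1 + e2
  have d1 : dt x !₂[s0 * (ph - 1), 0, s2 * ph] = (ph - 1) * |x 0| + ph * |x 2| := by
    simp [dt]; linear_combination (ph - 1) * e0 + ph * e2
  have d2 : dt x !₂[s0 * ph, s1 * (ph - 1), 0] = (ph - 1) * |x 1| + ph * |x 0| := by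
    simp [dt]; linear_combination (ph - 1) * e1 + ph * e0
  have d3 : dt x !₂[0, s1 * ph, s2 * (ph - 1)] = (ph - 1) * |x 2| + ph * |x 1| := by
    simp [dt]; linear_combination (ph - 1) * e2 + ph * e1
  rcases le_total 0 ((ph - 1) * |x 2| - (2 - ph) * |x 0| - |x 1|) with h | h
  · refine ⟨!₂[s0 * (ph - 1), 0, s2 * ph], Or.inr ⟨s0, s2, hs0, hs2, Or.inl rfl⟩, by rw [d1]; exact m1, ?_⟩
    rw [d1, q]
    exact r1_face1 n0 n1 h
  rcases le_total 0 ((ph - 1) * |x 0| - (2 - ph) * |x 1| - |x 2|) with h' | h'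
  · refine ⟨!₂[s0 * ph, s1 * (ph - 1), 0], Or.inr ⟨s1, s0, hs1, hs0, Or.inr (Or.inl rfl)⟩, by rw [d2]; exact m2, ?_⟩
    rw [d2, q]
    have := r1_face1 (a := |x 1|) (b := |x 2|) (c := |x 0|) n1 n2 h'
    linarith
  rcases le_total 0 ((ph - 1) * |x 1| - (2 - ph) * |x 2| - |x 0|) with h'' | h''
  · refine ⟨!₂[0, s1 * ph, s2 * (ph - 1)], Or.inr ⟨s2, s1, hs2, hs1, Or.inr (Or.inr rfl)⟩, by rw [d3]; exact m3, ?_⟩
    rw [d3, q]
    have := r1_face1 (a := |x 2|) (b := |x 0|) (c := |x 1|) n2 n0 h''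
    linarith
  · refine ⟨!₂[s0, s1, s2], Or.inl ⟨s0, s1, s2, hs0, hs1, hs2, rfl⟩, by rw [d0]; exact m0, ?_⟩
    rw [d0, q]
    exact r1_face0 (by linarith) (by linarith) (by linarith)

end Pool.Agent.H304

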