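import Pool.Agent.helper304_full.Base
import Pool.Agent.helper304_full.R5

set_option autoImplicit false

namespace Pool.Agent.H304

lemma r10_vtx_dt {v : E} (hv : IsVtx v) : dt v v = ph + 2 := by
  have hp := ph_sq
  obtain ⟨σ, τ, hσ, hτ, h⟩ := hv
  have h1 : σ ^ 2 = 1 := by rcases hσ with h | h <;> rw [h] <;> norm_num
  have h2 : τ ^ 2 = 1 := by rcases hτ with h | h <;> rw [h] <;> norm_num
  rcases h with h | h | h <;> subst h <;> simp [dt] <;>
    linear_combination h1 + ph ^ 2 * h2 + hp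

lemma r10_fix {e P : E} (he : dt e e = 1) (h : cr e P = 0) (c s : ℝ) : rot e c s P = P := by
  have h1 : dt e P • e - P = 0 := by
    have := cr_cr e e P
    rw [h, he, cr_zero_right, one_smul] at this
    exact this.symm
  have h2 : dt e P • e = P := sub_eq_zero.1 h1
  unfold rot
  rw [h, smul_zero, add_zero, mul_smul, h2, ← add_smul]
  simp

theorem IW.shell {X : Set E} {u : E → E} {c s : E → ℝ} {q : ℝ} (W : IW X u c s q) : Shell X q := by
  have hs0 := W.qpos
  refine ⟨hs0, fun v hv => (W.vtx v hv).1, ?_⟩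
  intro v hv x hx hd
  obtain ⟨hP, hc, hC, hS⟩ := W.vtx v hv
  have hvv := r10_vtx_dt hv
  have hn : ‖q • v‖ ≤ 10 := by
    have h1 : ‖q • v‖ ^ 2 ≤ 2.8945 := by
      rw [norm_sq_eq_dt, dt_smul_left, dt_smul_right, hvv]
      have := W.qle
      linarith
    have := norm_nonneg (q • v)
    nlinarith
  have he := W.unit _ hP hn
  have h2 : ‖x - q • v‖ ≤ 2 := by
    have h1 : ‖x - q • v‖ ^ 2 ≤ 4 := by
      rw [norm_sq_eq_dt]
      exact hd
    have := norm_nonneg (x - q • v)
    nlinarith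
  have hr := W.rot _ hP hn (x - q • v) h2 (by simpa using hx)
  rw [hC, hS] at hr
  have hcP : cr (u (q • v)) (q • v) = 0 := by
    rw [cr_smul_right, hc, smul_zero]
  have e1 : ∀ c s : ℝ, q • v + Pool.Agent.H304.rot (u (q • v)) c s (x - q • v) =
      Pool.Agent.H304.rot (u (q • v)) c s x := by
    intro c s
    rw [rot_sub, r10_fix he hcP]
    abel
  rw [e1, e1] at hr
  rcases rot_eq_rv hv he hc with h | h
  · rw [← (h x).1, ← (h x).2]
    exact hr
  · rw [← (h x).1, ← (h x).2]
    exact ⟨hr.2, hr.1⟩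

end Pool.Agent.H304

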