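import Pool.Agent.helper304_full.Base
import Pool.Agent.helper304_full.R2
import Pool.Agent.helper304_full.R3

set_option autoImplicit false

namespace Pool.Agent.H304

theorem r11_add (i : ℕ) (v w : E) : act i (v + w) = act i v + act i w := by
  apply ext3 <;> simp [act] <;> ring

theorem r11_smul (i : ℕ) (a : ℝ) (v : E) : act i (a • v) = a • act i v := by
  apply ext3 <;> simp [act] <;> ring

theorem r11_sub (i : ℕ) (v w : E) : act i (v - w) = act i v - act i w := by
  apply ext3 <;> simp [act] <;> ring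

theorem r11_zero (i : ℕ) : act i 0 = 0 := by
  apply ext3 <;> simp [act]

theorem r11_rot {i : ℕ} (hi : i < 60) (a : E) (c s : ℝ) (b : E) :
    act i (rot a c s b) = rot (act i a) c s (act i b) := by
  simp only [rot, r11_add, r11_smul, act_dt hi, act_cr hi]

theorem r11_norm {i : ℕ} (hi : i < 60) {ε : ℝ} (hε : ε = 1 ∨ ε = -1) (v : E) :
    ‖ε • act i v‖ = ‖v‖ := by
  have h : ‖ε‖ = 1 := by
    rcases hε with rfl | rfl <;> simp
  rw [norm_smul, h, one_mul, norm_eq_sqrt_dt, norm_eq_sqrt_dt, act_dt hi]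

theorem r11_neg_vtx {v : E} (hv : IsVtx v) : IsVtx (-v) := by
  obtain ⟨σ, τ, hσ, hτ, h⟩ := hv
  refine ⟨-σ, -τ, ?_, ?_, ?_⟩
  · rcases hσ with rfl | rfl
    · right; rfl
    · left; norm_num
  · rcases hτ with rfl | rfl
    · right; rfl
    · left; norm_num
  · rcases h with rfl | rfl | rfl
    · left
      apply ext3 <;> simp
    · right; left
      apply ext3 <;> simp
    · right; right
      apply ext3 <;> simp

theorem r11_vtx {i : ℕ} (hi : i < 60) {ε : ℝ} (hε : ε = 1 ∨ ε = -1) {v : E} (hv : IsVtx v) :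
    IsVtx (ε • act i v) := by
  rcases hε with rfl | rfl
  · rw [one_smul]
    exact act_vtx hi hv
  · rw [neg_one_smul]
    exact r11_neg_vtx (act_vtx hi hv)

theorem IW.map {X : Set E} {u : E → E} {c s : E → ℝ} {q : ℝ} (W : IW X u c s q) {i j : ℕ} (hi : i < 60) (hj : j < 60)
    (hji : ∀ v : E, act j (act i v) = v) (hij : ∀ v : E, act i (act j v) = v) {ε : ℝ} (hε : ε = 1 ∨ ε = -1) :
    IW {x | ε • act i x ∈ X} (fun x => act j (u (ε • act i x))) (fun x => c (ε • act i x)) (fun x => s (ε • act i x)) q := by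
  have hεε : ε * ε = 1 := by rcases hε with rfl | rfl <;> norm_num
  have hε0 : ε ≠ 0 := by rcases hε with rfl | rfl <;> norm_num
  have hN : ∀ v : E, ‖ε • act i v‖ = ‖v‖ := r11_norm hi hε
  have hTS : ∀ y : E, ε • act i (ε • act j y) = y := by
    intro y
    rw [r11_smul, hij, smul_smul, hεε, one_smul]
  have hsub : ∀ x y : E, ε • act i x - ε • act i y = ε • act i (x - y) := by
    intro x y
    rw [r11_sub, smul_sub]
  have hcr : ∀ U w : E, cr U (ε • act i w) = 0 → cr (act j U) w = 0 := by
    intro U w h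
    rw [cr_smul_right] at h
    have h1 : cr U (act i w) = 0 := by
      rcases smul_eq_zero.1 h with h | h
      · exact absurd h hε0
      · exact h
    have h2 := act_cr hj U (act i w)
    rw [hji, h1, r11_zero] at h2
    exact h2
  have hrot : ∀ (x U : E) (c s : ℝ) (v : E),
      ε • act i (x + H304.rot (act j U) c s v) =
        ε • act i x + H304.rot U c s (ε • act i v) := by
    intro x U c s v
    rw [r11_add, smul_add, r11_rot hi, hij, rot_smul]
  have hinj : Function.Injective (fun x : E => ε • act i x) := by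
    intro x y h
    have h1 : act i x = act i y := smul_right_injective E hε0 h
    rw [← hji x, ← hji y, h1]
  refine ⟨?_, ?_, ?_, ?_, ?_, ?_, W.qpos, W.qle, ?_, ?_⟩
  · intro y
    obtain ⟨x, hx, h⟩ := W.cov (ε • act i y)
    refine ⟨ε • act j x, ?_, ?_⟩
    · show ε • act i (ε • act j x) ∈ X
      rw [hTS]
      exact hx
    · rw [← hN, ← hsub, hTS]
      exact h
  · intro K
    have h := (W.fin K).preimage (f := fun x : E => ε • act i x) hinj.injOn
    refine h.subset ?_
    rintro x ⟨hx, hK⟩
    refine ⟨hx, ?_⟩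
    show ‖ε • act i x‖ ≤ K
    rw [hN]
    exact hK
  · intro x hx h
    show dt (act j (u (ε • act i x))) (act j (u (ε • act i x))) = 1
    rw [act_dt hj]
    exact W.unit _ hx (by rw [hN]; exact h)
  · intro x hx h
    exact W.cs _ hx (by rw [hN]; exact h)
  · intro x hx h
    exact W.ang _ hx (by rw [hN]; exact h)
  · intro x hx h v hv hxv
    have hxv' : ε • act i (x + v) ∈ X := hxv
    rw [r11_add, smul_add] at hxv'
    have h1 := W.rot _ hx (by rw [hN]; exact h) (ε • act i v) (by rw [hN]; exact hv) hxv'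
    refine ⟨?_, ?_⟩
    · show ε • act i _ ∈ X
      rw [hrot]
      exact h1.1
    · show ε • act i _ ∈ X
      rw [hrot]
      exact h1.2
  · intro v hv
    have h := W.vtx _ (r11_vtx hi hε hv)
    have e : q • ε • act i v = ε • act i (q • v) := by
      rw [r11_smul, smul_comm]
    rw [e] at h
    exact ⟨h.1, hcr _ _ h.2.1, h.2.2.1, h.2.2.2⟩
  · intro x hx y hy h1 h2 hne hd
    have h := W.coax _ hx _ hy (by rw [hN]; exact h1) (by rw [hN]; exact h2)
      (fun e => hne (hinj e)) (by
        rw [hsub, dt_smul_left, dt_smul_right, act_dt hi, ← mul_assoc, hεε, one_mul]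
        exact hd)
    rw [hsub] at h
    exact ⟨hcr _ _ h.1, hcr _ _ h.2⟩

end Pool.Agent.H304

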