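import Pool.Agent.helper304_full.Base
import Pool.Agent.helper304_full.R2
import Pool.Agent.helper304_full.R3
import Pool.Agent.helper304_full.R4

set_option autoImplicit false

namespace Pool.Agent.H304

lemma r6_act59 (v : E) : act 59 v = !₂[v 0, -v 1, -v 2] := by
  have h00 : gcode 59 0 0 = 7 := by decide +kernel
  have h01 : gcode 59 0 1 = 0 := by decide +kernel
  have h02 : gcode 59 0 2 = 0 := by decide +kernel
  have h10 : gcode 59 1 0 = 0 := by decide +kernel
  have h11 : gcode 59 1 1 = 8 := by decide +kernel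
  have h12 : gcode 59 1 2 = 0 := by decide +kernel
  have h20 : gcode 59 2 0 = 0 := by decide +kernel
  have h21 : gcode 59 2 1 = 0 := by decide +kernel
  have h22 : gcode 59 2 2 = 8 := by decide +kernel
  unfold act gent
  rw [h00, h01, h02, h10, h11, h12, h20, h21, h22]
  apply ext3 <;> simp [cvA, cvB]

lemma r6_act51 (v : E) : act 51 v = !₂[-v 0, v 1, -v 2] := by
  have h00 : gcode 51 0 0 = 8 := by decide +kernel
  have h01 : gcode 51 0 1 = 0 := by decide +kernel
  have h02 : gcode 51 0 2 = 0 := by decide +kernel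
  have h10 : gcode 51 1 0 = 0 := by decide +kernel
  have h11 : gcode 51 1 1 = 7 := by decide +kernel
  have h12 : gcode 51 1 2 = 0 := by decide +kernel
  have h20 : gcode 51 2 0 = 0 := by decide +kernel
  have h21 : gcode 51 2 1 = 0 := by decide +kernel
  have h22 : gcode 51 2 2 = 8 := by decide +kernel
  unfold act gent
  rw [h00, h01, h02, h10, h11, h12, h20, h21, h22]
  apply ext3 <;> simp [cvA, cvB]

lemma r6_act56 (v : E) : act 56 v =
    !₂[(ph - 1) / 2 * v 0 + ph / 2 * v 1 - 1 / 2 * v 2,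
      ph / 2 * v 0 - 1 / 2 * v 1 + (1 - ph) / 2 * v 2,
      -(1 / 2) * v 0 + (1 - ph) / 2 * v 1 - ph / 2 * v 2] := by
  have h00 : gcode 56 0 0 = 5 := by decide +kernel
  have h01 : gcode 56 0 1 = 3 := by decide +kernel
  have h02 : gcode 56 0 2 = 2 := by decide +kernel
  have h10 : gcode 56 1 0 = 3 := by decide +kernel
  have h11 : gcode 56 1 1 = 2 := by decide +kernel
  have h12 : gcode 56 1 2 = 6 := by decide +kernel
  have h20 : gcode 56 2 0 = 2 := by decide +kernel
  have h21 : gcode 56 2 1 = 6 := by decide +kernel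
  have h22 : gcode 56 2 2 = 4 := by decide +kernel
  unfold act gent
  rw [h00, h01, h02, h10, h11, h12, h20, h21, h22]
  apply ext3 <;> simp [cvA, cvB] <;> ring

lemma r6_lin {z g : E} (hz : Cone z) (h2 : g 2 ≤ ph)
    (hA : 0 ≤ (ph - 1 - g 0) + (ph + 1) * (ph - g 2)) (hB : 0 ≤ -g 1 + ph * (ph - g 2)) :
    dt z g ≤ dt z f0 := by
  obtain ⟨a, b, c⟩ := hz
  have h3 := mul_nonneg (sub_nonneg.2 c) (sub_nonneg.2 h2)
  have h4 := mul_nonneg a hA
  have h5 := mul_nonneg b hB
  simp only [dt, f0]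
  simp
  nlinarith [h3, h4, h5]

theorem to_cone (z : E) : ∃ i < 60, ∃ ε : ℝ, (ε = 1 ∨ ε = -1) ∧ Cone (ε • act i z) := by
  obtain ⟨⟨i, b⟩, hmax⟩ := Finite.exists_max
    (fun p : Fin 60 × Bool => dt ((if p.2 then (1 : ℝ) else -1) • act p.1 z) !₂[1 / 10, 1 / 10, 1])
  have hneg : (if (!b) then (1 : ℝ) else -1) = -(if b then (1 : ℝ) else -1) := by
    cases b <;> simp
  have hε : (if b then (1 : ℝ) else -1) = 1 ∨ (if b then (1 : ℝ) else -1) = -1 := by
    cases b <;> simp
  set a : ℝ := (if b then (1 : ℝ) else -1) with ha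
  have key : ∀ j < 60, dt ((-a) • act j (act i z)) !₂[1 / 10, 1 / 10, 1] ≤
      dt (a • act i z) !₂[1 / 10, 1 / 10, 1] := by
    intro j hj
    obtain ⟨k, hk, hkv⟩ := act_mul hj i.2
    have h := hmax (⟨k, hk⟩, !b)
    simp only [hneg, hkv z] at h
    exact h
  refine ⟨i, i.2, a, hε, ?_⟩
  have hx := key 59 (by norm_num)
  have hy := key 51 (by norm_num)
  have hn := key 56 (by norm_num)
  rw [r6_act59] at hx
  rw [r6_act51] at hy
  rw [r6_act56] at hn
  generalize act i z = u at hx hy hn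
  simp [dt] at hx hy hn
  have p1 := ph_gt
  have p2 := ph_lt
  have p3 := ph_sq
  refine ⟨?_, ?_, ?_⟩
  · simp
    linarith
  · simp
    linarith
  · simp
    have hP : ph * (a * u 0) + a * u 1 - (ph - 1) * (a * u 2) ≤ 0 := by
      by_contra hc
      push Not at hc
      have hq : 0 < (9 / 10 * ph - 11 / 10) / 2 := by linarith
      have h1 := mul_pos hc hq
      nlinarith [h1, hn, p3]
    have hQ : 0 ≤ ph * (-(ph * (a * u 0) + a * u 1 - (ph - 1) * (a * u 2))) :=
      mul_nonneg (by linarith) (by linarith)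
    have e : ph * (-(ph * (a * u 0) + a * u 1 - (ph - 1) * (a * u 2))) =
        a * u 2 - ((ph + 1) * (a * u 0) + ph * (a * u 1)) := by
      linear_combination (-(a * u 0) + a * u 2) * p3
    linarith

theorem cone_face {z g : E} (hz : Cone z) (hg : IsFace g) : dt z g ≤ dt z f0 := by
  have p1 := ph_gt
  have p2 := ph_lt
  have p3 := ph_sq
  rcases hg with ⟨σ, τ, ρ, hσ, hτ, hρ, rfl⟩ | ⟨σ, τ, hσ, hτ, rfl | rfl | rfl⟩
  · rcases hσ with rfl | rfl <;> rcases hτ with rfl | rfl <;> rcases hρ with rfl | rfl <;>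
      apply r6_lin hz <;> simp <;> nlinarith
  · rcases hσ with rfl | rfl <;> rcases hτ with rfl | rfl <;>
      apply r6_lin hz <;> simp <;> nlinarith
  · rcases hσ with rfl | rfl <;> rcases hτ with rfl | rfl <;>
      apply r6_lin hz <;> simp <;> nlinarith
  · rcases hσ with rfl | rfl <;> rcases hτ with rfl | rfl <;>
      apply r6_lin hz <;> simp <;> nlinarith

end Pool.Agent.H304

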