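import Pool.Agent.helper304_full.Base
import Pool.Agent.helper304_full.R2
import Pool.Agent.helper304_full.R3

set_option autoImplicit false

namespace Pool.Agent.H304

theorem r7_cr_rot {u : E} (hu : dt u u = 1) {c s : ℝ} (h : c ^ 2 + s ^ 2 = 1) (v w : E) :
    cr (rot u c s v) (rot u c s w) = rot u c s (cr v w) := by
  have hu' : u 0 * u 0 + u 1 * u 1 + u 2 * u 2 = 1 := hu
  apply ext3
  · simp only [rot, cr_0, cr_1, cr_2, dt, PiLp.add_apply, PiLp.smul_apply, smul_eq_mul]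
    linear_combination (s * (1 - c) * ((u 0 * w 0 + u 1 * w 1 + u 2 * w 2) * v 0 -
      (u 0 * v 0 + u 1 * v 1 + u 2 * v 2) * w 0) + c * (1 - c) * (v 1 * w 2 - v 2 * w 1)) * hu' +
      ((u 0 * (v 1 * w 2 - v 2 * w 1) + u 1 * (v 2 * w 0 - v 0 * w 2) +
        u 2 * (v 0 * w 1 - v 1 * w 0)) * u 0) * h
  · simp only [rot, cr_0, cr_1, cr_2, dt, PiLp.add_apply, PiLp.smul_apply, smul_eq_mul]
    linear_combination (s * (1 - c) * ((u 0 * w 0 + u 1 * w 1 + u 2 * w 2) * v 1 -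
      (u 0 * v 0 + u 1 * v 1 + u 2 * v 2) * w 1) + c * (1 - c) * (v 2 * w 0 - v 0 * w 2)) * hu' +
      ((u 0 * (v 1 * w 2 - v 2 * w 1) + u 1 * (v 2 * w 0 - v 0 * w 2) +
        u 2 * (v 0 * w 1 - v 1 * w 0)) * u 1) * h
  · simp only [rot, cr_0, cr_1, cr_2, dt, PiLp.add_apply, PiLp.smul_apply, smul_eq_mul]
    linear_combination (s * (1 - c) * ((u 0 * w 0 + u 1 * w 1 + u 2 * w 2) * v 2 -
      (u 0 * v 0 + u 1 * v 1 + u 2 * v 2) * w 2) + c * (1 - c) * (v 0 * w 1 - v 1 * w 0)) * hu' +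
      ((u 0 * (v 1 * w 2 - v 2 * w 1) + u 1 * (v 2 * w 0 - v 0 * w 2) +
        u 2 * (v 0 * w 1 - v 1 * w 0)) * u 2) * h

theorem r7_act_add (i : ℕ) (v w : E) : act i (v + w) = act i v + act i w := by
  apply ext3 <;> simp [act] <;> ring

theorem r7_act_smul (i : ℕ) (a : ℝ) (v : E) : act i (a • v) = a • act i v := by
  apply ext3 <;> simp [act] <;> ring

theorem r7_vtxA : IsVtx vA :=
  ⟨1, 1, Or.inl rfl, Or.inl rfl, Or.inl (by simp [vA])⟩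

theorem r7_span (x : E) : x = (x 0 / (2 * ph)) • cr vA vB + (x 1 / 2) • (vA + (-1 : ℝ) • vB) +
    (x 2 / (2 * ph)) • (vA + vB) := by
  have h : ph ≠ 0 := by have := ph_gt; linarith
  apply ext3
  · simp [vA, vB]; field_simp; ring
  · simp [vA, vB]
  · simp [vA, vB]; field_simp; ring

/-- the rational part of twice the trace -/
def r7_ta (i : ℕ) : ℤ := cvA (gcode i 0 0) + cvA (gcode i 1 1) + cvA (gcode i 2 2)

/-- the coefficient of `ph` in twice the trace -/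
def r7_tb (i : ℕ) : ℤ := cvB (gcode i 0 0) + cvB (gcode i 1 1) + cvB (gcode i 2 2)

theorem r7_tr_cases : ∀ i < 60, (r7_ta i = 6 ∧ r7_tb i = 0) ∨ (r7_ta i = 0 ∧ r7_tb i = 0) ∨
    (r7_ta i = -2 ∧ r7_tb i = 0) ∨ (r7_ta i = 0 ∧ r7_tb i = 2) ∨ (r7_ta i = 2 ∧ r7_tb i = -2) := by
  decide +kernel

/-- coordinates of the vertices as integer pairs -/
def r7_vx (k : ℕ) (σ τ : ℤ) (c : ℕ) : ℤ × ℤ :=
  match k, c with
  | 0, 0 => (0, 0) | 0, 1 => (σ, 0) | 0, _ => (0, τ)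
  | 1, 0 => (σ, 0) | 1, 1 => (0, τ) | 1, _ => (0, 0)
  | _, 0 => (0, τ) | _, 1 => (0, 0) | _, _ => (σ, 0)

def r7_row (i k : ℕ) (σ τ : ℤ) (r : ℕ) : Prop :=
  cvA (gcode i r 0) * (r7_vx k σ τ 0).1 + cvB (gcode i r 0) * (r7_vx k σ τ 0).2 +
  (cvA (gcode i r 1) * (r7_vx k σ τ 1).1 + cvB (gcode i r 1) * (r7_vx k σ τ 1).2) +
  (cvA (gcode i r 2) * (r7_vx k σ τ 2).1 + cvB (gcode i r 2) * (r7_vx k σ τ 2).2) =
    2 * (r7_vx k σ τ r).1 ∧
  cvA (gcode i r 0) * (r7_vx k σ τ 0).2 +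
    cvB (gcode i r 0) * ((r7_vx k σ τ 0).1 + (r7_vx k σ τ 0).2) +
  (cvA (gcode i r 1) * (r7_vx k σ τ 1).2 +
    cvB (gcode i r 1) * ((r7_vx k σ τ 1).1 + (r7_vx k σ τ 1).2)) +
  (cvA (gcode i r 2) * (r7_vx k σ τ 2).2 +
    cvB (gcode i r 2) * ((r7_vx k σ τ 2).1 + (r7_vx k σ τ 2).2)) =
    2 * (r7_vx k σ τ r).2

instance (i k : ℕ) (σ τ : ℤ) (r : ℕ) : Decidable (r7_row i k σ τ r) := by
  unfold r7_row; infer_instance

theorem r7_fix_dec : ∀ i < 60, r7_ta i = 0 ∧ r7_tb i = 2 → ∃ k < 3, ∃ σ ∈ ([1, -1] : List ℤ),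
    ∃ τ ∈ ([1, -1] : List ℤ), ∀ r < 3, r7_row i k σ τ r := by
  decide +kernel

/-- the real vector -/
noncomputable def r7_vec (k : ℕ) (σ τ : ℤ) : E :=
  !₂[(((r7_vx k σ τ 0).1 : ℤ) : ℝ) + ((r7_vx k σ τ 0).2 : ℤ) * ph,
    (((r7_vx k σ τ 1).1 : ℤ) : ℝ) + ((r7_vx k σ τ 1).2 : ℤ) * ph,
    (((r7_vx k σ τ 2).1 : ℤ) : ℝ) + ((r7_vx k σ τ 2).2 : ℤ) * ph]

theorem r7_vec_vtx {k : ℕ} (hk : k < 3) {σ τ : ℤ} (hσ : σ ∈ ([1, -1] : List ℤ))
    (hτ : τ ∈ ([1, -1] : List ℤ)) : IsVtx (r7_vec k σ τ) := by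
  have h1 : (σ : ℝ) = 1 ∨ (σ : ℝ) = -1 := by
    simp only [List.mem_cons, List.not_mem_nil, or_false] at hσ
    rcases hσ with h | h <;> simp [h]
  have h2 : (τ : ℝ) = 1 ∨ (τ : ℝ) = -1 := by
    simp only [List.mem_cons, List.not_mem_nil, or_false] at hτ
    rcases hτ with h | h <;> simp [h]
  refine ⟨σ, τ, h1, h2, ?_⟩
  interval_cases k
  · left
    simp [r7_vec, r7_vx]
  · right; left
    simp [r7_vec, r7_vx]
  · right; right
    simp [r7_vec, r7_vx]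

theorem r7_real {a b a' b' a'' b'' x y x' y' x'' y'' p q : ℤ}
    (h1 : a * x + b * y + (a' * x' + b' * y') + (a'' * x'' + b'' * y'') = 2 * p)
    (h2 : a * y + b * (x + y) + (a' * y' + b' * (x' + y')) + (a'' * y'' + b'' * (x'' + y'')) =
      2 * q) :
    ((a : ℝ) + b * ph) / 2 * (x + y * ph) + ((a' : ℝ) + b' * ph) / 2 * (x' + y' * ph) +
      ((a'' : ℝ) + b'' * ph) / 2 * (x'' + y'' * ph) = p + q * ph := by
  have h1' : (a : ℝ) * x + b * y + (a' * x' + b' * y') + (a'' * x'' + b'' * y'') = 2 * p := by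
    exact_mod_cast h1
  have h2' : (a : ℝ) * y + b * (x + y) + (a' * y' + b' * (x' + y')) +
      (a'' * y'' + b'' * (x'' + y'')) = 2 * q := by
    exact_mod_cast h2
  have h3 := ph_sq
  linear_combination (1 / 2) * h1' + (ph / 2) * h2' +
    ((b * y + b' * y' + b'' * y'') / 2) * h3

theorem r7_fix {i k : ℕ} {σ τ : ℤ} (h : ∀ r < 3, r7_row i k σ τ r) :
    act i (r7_vec k σ τ) = r7_vec k σ τ := by
  have key : ∀ r < 3, gent i r 0 * ((((r7_vx k σ τ 0).1 : ℤ) : ℝ) + ((r7_vx k σ τ 0).2 : ℤ) * ph) +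
      gent i r 1 * ((((r7_vx k σ τ 1).1 : ℤ) : ℝ) + ((r7_vx k σ τ 1).2 : ℤ) * ph) +
      gent i r 2 * ((((r7_vx k σ τ 2).1 : ℤ) : ℝ) + ((r7_vx k σ τ 2).2 : ℤ) * ph) =
      (((r7_vx k σ τ r).1 : ℤ) : ℝ) + ((r7_vx k σ τ r).2 : ℤ) * ph := by
    intro r hr
    obtain ⟨h1, h2⟩ := h r hr
    exact r7_real h1 h2
  have e0 : (r7_vec k σ τ) 0 = (((r7_vx k σ τ 0).1 : ℤ) : ℝ) + ((r7_vx k σ τ 0).2 : ℤ) * ph := by
    simp [r7_vec]
  have e1 : (r7_vec k σ τ) 1 = (((r7_vx k σ τ 1).1 : ℤ) : ℝ) + ((r7_vx k σ τ 1).2 : ℤ) * ph := by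
    simp [r7_vec]
  have e2 : (r7_vec k σ τ) 2 = (((r7_vx k σ τ 2).1 : ℤ) : ℝ) + ((r7_vx k σ τ 2).2 : ℤ) * ph := by
    simp [r7_vec]
  have a0 : ∀ v : E, (act i v) 0 = gent i 0 0 * v 0 + gent i 0 1 * v 1 + gent i 0 2 * v 2 := by
    intro v; simp [act]
  have a1 : ∀ v : E, (act i v) 1 = gent i 1 0 * v 0 + gent i 1 1 * v 1 + gent i 1 2 * v 2 := by
    intro v; simp [act]
  have a2 : ∀ v : E, (act i v) 2 = gent i 2 0 * v 0 + gent i 2 1 * v 1 + gent i 2 2 * v 2 := by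
    intro v; simp [act]
  apply ext3
  · rw [a0, e0, e1, e2]; exact key 0 (by norm_num)
  · rw [a1, e0, e1, e2]; exact key 1 (by norm_num)
  · rw [a2, e0, e1, e2]; exact key 2 (by norm_num)

theorem rot_sym {e : E} {c s : ℝ} (he : dt e e = 1) (hcs : c ^ 2 + s ^ 2 = 1)
    (hang : (c = C5 ∧ s = S5) ∨ (0.6234 ≤ c ∧ c ≤ 0.9011))
    (hA : IsVtx (rot e c s vA)) (hB : IsVtx (rot e c s vB)) : ∃ v, IsVtx v ∧ cr v e = 0 := by
  have hAB : dt (rot e c s vA) (rot e c s vB) = ph := by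
    rw [dt_rot_rot he hcs]
    have := ph_sq
    simp [dt, vA, vB]
    linarith
  obtain ⟨i, hi, h1, h2⟩ := act_pair hA hB hAB
  -- the rotation is the `i`-th matrix
  have hall : ∀ x : E, rot e c s x = act i x := by
    intro x
    have h3 : rot e c s (cr vA vB) = act i (cr vA vB) := by
      rw [← r7_cr_rot he hcs, ← h1, ← h2, act_cr hi]
    rw [r7_span x]
    simp only [rot_add, rot_smul, r7_act_add, r7_act_smul, h1, h2, h3]
  -- the trace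
  have htr : 1 + 2 * c = ((r7_ta i : ℝ) + (r7_tb i : ℝ) * ph) / 2 := by
    have he' : e 0 * e 0 + e 1 * e 1 + e 2 * e 2 = 1 := he
    have t0 := congrArg (fun v : E => v 0) (hall !₂[1, 0, 0])
    have t1 := congrArg (fun v : E => v 1) (hall !₂[0, 1, 0])
    have t2 := congrArg (fun v : E => v 2) (hall !₂[0, 0, 1])
    simp [rot, dt, act] at t0 t1 t2
    unfold gent at t0 t1 t2
    unfold r7_ta r7_tb
    push_cast
    linear_combination t0 + t1 + t2 - (1 - c) * he'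
  have hph1 := ph_gt
  have hph2 := ph_lt
  have hC1 := C5_gt
  have hC2 := C5_lt
  have hc1 : 0.3 < c := by
    rcases hang with ⟨h, _⟩ | ⟨h, _⟩
    · rw [h]; linarith
    · linarith
  have hc2 : c < 0.99 := by
    rcases hang with ⟨h, _⟩ | ⟨_, h⟩
    · rw [h]; linarith
    · linarith
  have hphi : r7_ta i = 0 ∧ r7_tb i = 2 := by
    rcases r7_tr_cases i hi with ⟨ha, hb⟩ | ⟨ha, hb⟩ | ⟨ha, hb⟩ | ⟨ha, hb⟩ | ⟨ha, hb⟩
    · rw [ha, hb] at htr; norm_num at htr; linarith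
    · rw [ha, hb] at htr; norm_num at htr; linarith
    · rw [ha, hb] at htr; norm_num at htr; linarith
    · exact ⟨ha, hb⟩
    · rw [ha, hb] at htr; norm_num at htr; linarith
  obtain ⟨k, hk, σ, hσ, τ, hτ, hfix⟩ := r7_fix_dec i hi hphi
  refine ⟨r7_vec k σ τ, r7_vec_vtx hk hσ hτ, ?_⟩
  have hR : rot e c s (r7_vec k σ τ) = r7_vec k σ τ := by
    rw [hall]
    exact r7_fix hfix
  have h4 := dt_rot_sub_self he hcs (r7_vec k σ τ)
  rw [hR, sub_self, dt_zero_left] at h4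
  have h5 : dt (r7_vec k σ τ) (r7_vec k σ τ) - dt e (r7_vec k σ τ) ^ 2 = 0 := by
    have h6 : 2 * (1 - c) ≠ 0 := by
      have : (0 : ℝ) < 1 - c := by linarith
      positivity
    rcases mul_eq_zero.1 h4.symm with h | h
    · exact absurd h h6
    · exact h
  have h7 : cr e (r7_vec k σ τ) = 0 := by
    apply dt_self_eq_zero
    rw [dt_cr_axis he, h5]
  rw [cr_comm, h7, neg_zero]

end Pool.Agent.H304

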