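import Pool.Agent.helper304_full.Base

set_option autoImplicit false

namespace Pool.Agent.H304

lemma w6_f0f0 : dt f0 f0 = 3 := by
  have h := ph_sq
  simp only [dt, f0]
  simp
  linear_combination 2 * h

lemma w6_expand (z f : E) (σ : ℝ) :
    dt (z - σ • f) (z - σ • f) = dt z z - 2 * σ * dt z f + σ ^ 2 * dt f f := by
  simp only [dt_sub_left, dt_sub_right, dt_smul_left, dt_smul_right, dt_comm f z]
  ring

/-- decreasing the level slightly -/
lemma w6_small (A B C σ : ℝ) (hσ : 0 < σ) (h : A - 2 * σ * B + σ ^ 2 * C < 1) :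
    ∃ τ, 0 ≤ τ ∧ τ < σ ∧ A - 2 * τ * B + τ ^ 2 * C ≤ 1 := by
  have hc : Continuous fun τ : ℝ => A - 2 * τ * B + τ ^ 2 * C := by fun_prop
  have h1 : ∀ᶠ τ in nhdsWithin σ (Set.Iio σ), A - 2 * τ * B + τ ^ 2 * C < 1 :=
    (hc.tendsto σ).mono_left nhdsWithin_le_nhds |>.eventually (gt_mem_nhds h)
  have h2 : ∀ᶠ τ in nhdsWithin σ (Set.Iio σ), 0 < τ :=
    nhdsWithin_le_nhds (lt_mem_nhds hσ)
  have h3 : ∀ᶠ τ in nhdsWithin σ (Set.Iio σ), τ < σ := self_mem_nhdsWithin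
  obtain ⟨τ, a, b, c⟩ := (h1.and (h2.and h3)).exists
  exact ⟨τ, b.le, c, a.le⟩

theorem Sel.facts {X : Set E} {u : E → E} {z : E} {σ : ℝ} (S : Sel X u z f0 σ) (hz : Cone z) :
    3 * σ ≤ dt z f0 ∧ (σ = 0 ∨ dt (z - σ • f0) (z - σ • f0) = 1) ∧ ‖z‖ ≤ 3 ∧ 0 < z 2 := by
  obtain ⟨hz0, hz1, hz2⟩ := hz
  have hp1 := ph_gt
  have hp2 := ph_lt
  have hq1 : 0 ≤ (ph + 1) * z 0 := mul_nonneg (by linarith) hz0
  have hq2 : 0 ≤ ph * z 1 := mul_nonneg (by linarith) hz1
  have hz2' : 0 ≤ z 2 := by linarith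
  have ha : dt z f0 = (ph - 1) * z 0 + ph * z 2 := by
    simp only [dt, f0]
    simp
    ring
  have ha0 : 0 ≤ dt z f0 := by
    rw [ha]
    have hq3 : 0 ≤ (ph - 1) * z 0 := mul_nonneg (by linarith) hz0
    have hq4 : 0 ≤ ph * z 2 := mul_nonneg (by linarith) hz2'
    linarith
  set a := dt z f0 with hadef
  have hnear := S.near
  rw [w6_expand, w6_f0f0] at hnear
  refine ⟨?_, ?_, ?_, ?_⟩
  · by_contra hcon
    push Not at hcon
    have h1 : dt (z - (a / 3) • f0) (z - (a / 3) • f0) ≤ 1 := by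
      rw [w6_expand, w6_f0f0, ← hadef]
      nlinarith [sq_nonneg (σ - a / 3)]
    have h2 := (S.min z S.mem S.ne S.bad f0 S.face (a / 3) (by positivity)
      (by have := S.s1; linarith) h1).1
    linarith
  · by_contra hcon
    push Not at hcon
    obtain ⟨h0, h1⟩ := hcon
    have hσ : 0 < σ := lt_of_le_of_ne S.s0 (Ne.symm h0)
    have hlt : dt (z - σ • f0) (z - σ • f0) < 1 := lt_of_le_of_ne S.near h1
    rw [w6_expand] at hlt
    obtain ⟨τ, t0, t1, t2⟩ := w6_small _ _ _ σ hσ hlt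
    rw [← w6_expand] at t2
    have h2 := (S.min z S.mem S.ne S.bad f0 S.face τ t0 (by have := S.s1; linarith) t2).1
    linarith
  · have hn : ‖z‖ ^ 2 ≤ 3 ^ 2 := by
      rw [norm_sq_eq_dt]
      -- `0 ≤ dt (z - 3 σ f0) (z - 3 σ f0)` type estimate
      have h5 : 0 ≤ dt (z - (3 * σ) • f0 + (0:ℝ) • f0) (z - (3 * σ) • f0 + (0:ℝ) • f0) := dt_self_nonneg _
      have hs0 := S.s0
      have hs1 := S.s1
      -- Cauchy-Schwarz for `w = z - σ f0`
      have hw := dt_self_nonneg (z - σ • f0 - (1 / Real.sqrt 3) • f0)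
      have h3 : Real.sqrt 3 ^ 2 = 3 := Real.sq_sqrt (by norm_num)
      have h3p : 0 < Real.sqrt 3 := Real.sqrt_pos.2 (by norm_num)
      have h3u : Real.sqrt 3 ≤ 1.7321 := by
        rw [Real.sqrt_le_left (by norm_num)]; norm_num
      -- set `b = dt (z - σ f0) f0`
      have hb : dt (z - σ • f0) f0 = a - 3 * σ := by
        rw [dt_sub_left, dt_smul_left, w6_f0f0, ← hadef]; ring
      have h6 : dt (z - σ • f0 - (1 / Real.sqrt 3) • f0) (z - σ • f0 - (1 / Real.sqrt 3) • f0) =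
          dt (z - σ • f0) (z - σ • f0) - 2 * (1 / Real.sqrt 3) * (a - 3 * σ) + 1 := by
        rw [w6_expand (z - σ • f0), hb, w6_f0f0]
        have : (1 / Real.sqrt 3) ^ 2 * 3 = 1 := by
          rw [div_pow, h3]; norm_num
        rw [this]
      rw [h6] at hw
      have h7 := S.near
      have h8 : 2 * (1 / Real.sqrt 3) * (a - 3 * σ) ≤ 2 := by linarith
      have h9 : a - 3 * σ ≤ Real.sqrt 3 := by
        have h10 : 2 * (1 / Real.sqrt 3) * (a - 3 * σ) = 2 * (a - 3 * σ) / Real.sqrt 3 := by ring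
        rw [h10, div_le_iff₀ h3p] at h8
        linarith
      have h11 : a ≤ 3 * σ + 1.7321 := by linarith
      nlinarith
    exact abs_le_of_sq_le_sq' hn (by norm_num) |>.2
  · rcases hz2'.eq_or_lt with h | h
    · exfalso
      apply S.ne
      have h0 : z 0 = 0 := by nlinarith [mul_nonneg (by linarith : (0 : ℝ) ≤ ph) hz1]
      have h1 : z 1 = 0 := by nlinarith
      exact ext3 (by simpa using h0) (by simpa using h1) (by simpa using h.symm)
    · exact h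

theorem Sel.good {X : Set E} {u : E → E} {z f : E} {σ : ℝ} (S : Sel X u z f σ) {y : E} (hy : y ∈ X) (h0 : y ≠ 0)
    (hyz : dt y y < dt z z) (h : ∃ g, IsFace g ∧ ∃ τ, 0 ≤ τ ∧ τ ≤ σ ∧ dt (y - τ • g) (y - τ • g) < 1) : Good u y := by
  by_contra hbad
  obtain ⟨g, hg, τ, t0, t1, t2⟩ := h
  obtain ⟨h1, h2⟩ := S.min y hy h0 hbad g hg τ t0 (by have := S.s1; linarith) t2.le
  have hτ : τ = σ := le_antisymm t1 h1
  rcases t0.eq_or_lt with h3 | h3
  · have := h2 h3.symm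
    linarith
  · rw [w6_expand] at t2
    obtain ⟨τ', a0, a1, a2⟩ := w6_small _ _ _ τ h3 t2
    rw [← w6_expand] at a2
    have h4 := (S.min y hy h0 hbad g hg τ' a0 (by have := S.s1; linarith) a2).1
    linarith

end Pool.Agent.H304

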