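import Pool.Agent.helper304_full.Base
import Pool.Agent.helper304_full.R10
import Pool.Agent.helper304_full.R2
import Pool.Agent.helper304_full.R3
import Pool.Agent.helper304_full.R4
import Pool.Agent.helper304_full.R5
import Pool.Agent.helper304_full.R9
import Pool.Agent.helper304_full.W6

set_option autoImplicit false

namespace Pool.Agent.H304

lemma w9_norm_le {x : E} {K : ℝ} (hK : 0 ≤ K) (h : dt x x ≤ K ^ 2) : ‖x‖ ≤ K := by
  rw [← norm_sq_eq_dt] at h
  by_contra hc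
  push Not at hc
  nlinarith [norm_nonneg x]

lemma w9_act_smul (i : ℕ) (a : ℝ) (v : E) : act i (a • v) = a • act i v := by
  apply ext3 <;> simp [act] <;> ring

lemma w9_act_sub (i : ℕ) (v w : E) : act i (v - w) = act i v - act i w := by
  apply ext3 <;> simp [act] <;> ring

lemma w9_vtx_dt {v : E} (hv : IsVtx v) : dt v v = ph + 2 := by
  have hp := ph_sq
  obtain ⟨σ, τ, hσ, hτ, h | h | h⟩ := hv <;> subst h <;>
    rcases hσ with rfl | rfl <;> rcases hτ with rfl | rfl <;>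
    simp [dt] <;> linear_combination hp

/-- `e` parallel to `v` -/
lemma w9_par {v e : E} (hv : dt v v = ph + 2) (h : cr e v = 0) :
    e = (dt v e / (ph + 2)) • v := by
  have hpos : (ph + 2 : ℝ) ≠ 0 := by have := ph_gt; linarith
  have h1 : cr v (cr e v) = dt v v • e - dt v e • v := by rw [cr_cr]
  rw [h, cr_zero_right] at h1
  have h2 : dt v v • e = dt v e • v := by
    exact (sub_eq_zero.mp h1.symm)
  rw [hv] at h2
  rw [div_eq_inv_mul, mul_smul, ← h2, smul_smul, inv_mul_cancel₀ hpos, one_smul]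

lemma w9_vA : IsVtx vA := ⟨1, 1, Or.inl rfl, Or.inl rfl, Or.inl (by simp [vA])⟩

lemma w9_vB : IsVtx vB := ⟨-1, 1, Or.inr rfl, Or.inl rfl, Or.inl (by simp [vB])⟩

lemma w9_AB : dt vA vB = ph := by
  have hp := ph_sq
  simp [dt, vA, vB]
  linear_combination hp

lemma w9_vA_face {f : E} (hf : IsFace f) : dt vA f ≤ ph + 1 := by
  have hp := ph_sq
  have h1 := ph_gt
  rcases hf with ⟨σ, τ, ρ, hσ, hτ, hρ, rfl⟩ | ⟨σ, τ, hσ, hτ, h | h | h⟩
  · rcases hσ with rfl | rfl <;> rcases hτ with rfl | rfl <;> rcases hρ with rfl | rfl <;>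
      simp [dt, vA] <;> nlinarith
  all_goals
    subst h
    rcases hσ with rfl | rfl <;> rcases hτ with rfl | rfl <;>
      simp [dt, vA] <;> nlinarith

lemma w9_face {v f : E} (hv : IsVtx v) (hf : IsFace f) : dt v f ≤ ph + 1 := by
  obtain ⟨i, hi, rfl⟩ := act_vtx_trans hv
  obtain ⟨j, hj, h1, h2⟩ := act_inv hi
  rw [← h2 f, act_dt hi]
  exact w9_vA_face (act_face hj hf)

lemma w9_r {r τ : ℝ} {v g : E} (hv : IsVtx v) (hg : IsFace g) (hr : 0 < r) (hτ : 0 ≤ τ)
    (h : dt (r • v - τ • g) (r • v - τ • g) < 1) (hg3 : dt g g = 3) : r ^ 2 < 3 / 4 := by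
  have hp := ph_sq
  have h1 := w9_face hv hg
  have h2 := w9_vtx_dt hv
  have e : dt (r • v - τ • g) (r • v - τ • g) =
      r ^ 2 * dt v v - 2 * r * τ * dt v g + τ ^ 2 * dt g g := by
    simp only [dt_sub_left, dt_sub_right, dt_smul_left, dt_smul_right, dt_comm g v]
    ring
  rw [e, h2, hg3] at h
  have h3 : 2 * r * τ * dt v g ≤ 2 * r * τ * (ph + 1) :=
    mul_le_mul_of_nonneg_left h1 (by positivity)
  have h4 : 0 ≤ (r * (ph + 1) - 3 * τ) ^ 2 := sq_nonneg _
  have h5 : (r * (ph + 1) - 3 * τ) ^ 2 =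
      r ^ 2 * (3 * ph + 2) - 6 * r * τ * (ph + 1) + 9 * τ ^ 2 := by
    linear_combination r ^ 2 * hp
  rw [h5] at h4
  nlinarith

lemma w9_face_sq {g : E} (hg : IsFace g) : dt g g = 3 := by
  have hp := ph_sq
  rcases hg with ⟨σ, τ, ρ, hσ, hτ, hρ, rfl⟩ | ⟨σ, τ, hσ, hτ, h | h | h⟩
  · rcases hσ with rfl | rfl <;> rcases hτ with rfl | rfl <;> rcases hρ with rfl | rfl <;>
      simp [dt] <;> norm_num
  all_goals
    subst h
    rcases hσ with rfl | rfl <;> rcases hτ with rfl | rfl <;>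
      simp [dt] <;> linear_combination 2 * hp

lemma w9_cross {r q : ℝ} (hr : 0 < r) (hr2 : r ^ 2 < 3 / 4) (hq : 0 < q)
    (hq2 : q ^ 2 * (ph + 2) ≤ 2.8945) :
    (r ^ 2 + q ^ 2) * (ph + 2) - 2 * r * q * ph ≤ 4 := by
  have p1 := ph_gt
  have p2 := ph_lt
  have hr1 : r ≤ 0.8661 := by nlinarith
  have hq3 : q ^ 2 * 3.618 ≤ 2.8945 := by nlinarith [sq_nonneg q]
  have hq1 : q ≤ 0.8945 := by nlinarith
  have a1 : r ^ 2 ≤ 0.8661 * r := by nlinarith
  have a2 : q ^ 2 ≤ 0.8945 * q := by nlinarith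
  have a3 : 0.8661 * q + 0.8945 * r - 0.8661 * 0.8945 ≤ r * q := by nlinarith
  have b1 : (r ^ 2 + q ^ 2) * (ph + 2) ≤ (0.8661 * r + 0.8945 * q) * (ph + 2) :=
    mul_le_mul_of_nonneg_right (by linarith) (by linarith)
  have b2 : (0.8661 * q + 0.8945 * r - 0.8661 * 0.8945) * ph ≤ r * q * ph :=
    mul_le_mul_of_nonneg_right a3 (by linarith)
  have b3 : 2 * r * q * ph = 2 * (r * q * ph) := by ring
  rw [b3]
  have b4 : (0.8661 * r + 0.8945 * q) * (ph + 2) -
      2 * ((0.8661 * q + 0.8945 * r - 0.8661 * 0.8945) * ph) =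
      ph * (1.5494529 - 0.9229 * r - 0.8377 * q) + 1.7322 * r + 1.789 * q := by ring
  have b5 : ph * (1.5494529 - 0.9229 * r - 0.8377 * q) ≤
      1.619 * (1.5494529 - 0.9229 * r - 0.8377 * q) :=
    mul_le_mul_of_nonneg_right (by linarith) (by nlinarith)
  linarith

lemma w9_trans {v w : E} (hv : IsVtx v) (hw : IsVtx w) : ∃ k < 60, act k v = w := by
  obtain ⟨i, hi, h1⟩ := act_vtx_trans hv
  obtain ⟨j, hj, h2⟩ := act_vtx_trans hw
  obtain ⟨i', hi', h3, _⟩ := act_inv hi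
  obtain ⟨k, hk, h5⟩ := act_mul hj hi'
  refine ⟨k, hk, ?_⟩
  rw [h5, ← h1, h3, h2]

lemma w9_nb {v : E} (hv : IsVtx v) : ∃ w, IsVtx w ∧ dt v w = ph := by
  obtain ⟨i, hi, rfl⟩ := act_vtx_trans hv
  exact ⟨act i vB, act_vtx hi w9_vB, by rw [act_dt hi, w9_AB]⟩

/-- a rotation about `v` fixes `r • v` -/
lemma w9_fix {u v : E} (r c s : ℝ) (hv : dt v v = ph + 2) (hu : dt u u = 1) (h : cr u v = 0) :
    rot u c s (r • v) = r • v := by
  have h1 := w9_par hv h
  have hcv : v = (dt u v) • u := by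
    have h2 : cr u (cr u v) = dt u v • u - dt u u • v := by rw [cr_cr]
    rw [h, cr_zero_right, hu, one_smul] at h2
    exact (sub_eq_zero.mp h2.symm).symm
  rw [rot_smul, hcv, rot_smul, rot_axis hu]

/-- the angle at a point on the axis of `v` -/
lemma w9_angle {X : Set E} {u : E → E} {c s : E → ℝ} {q : ℝ} (W : IW X u c s q) {r : ℝ}
    (hr : 0 < r) (hr2 : r ^ 2 < 3 / 4) {v : E} (hv : IsVtx v) (hx : r • v ∈ X)
    (h10 : ‖r • v‖ ≤ 10) (hpar : cr (u (r • v)) v = 0) :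
    c (r • v) = C5 ∧ s (r • v) = S5 := by
  rcases W.ang _ hx h10 with h | ⟨h1, h2⟩
  · exact h
  exfalso
  have hp := ph_sq
  have p1 := ph_gt
  have p2 := ph_lt
  have hq := W.qpos
  obtain ⟨w, hw, hvw⟩ := w9_nb hv
  have hvv := w9_vtx_dt hv
  have hww := w9_vtx_dt hw
  obtain ⟨hQX, hQu, -, -⟩ := W.vtx w hw
  obtain ⟨x, hxd⟩ : ∃ x, x = r • v := ⟨_, rfl⟩
  obtain ⟨Q, hQd⟩ : ∃ Q, Q = q • w := ⟨_, rfl⟩
  rw [← hxd] at hx h10 hpar h1 h2
  rw [← hQd] at hQX hQu
  have hu := W.unit x hx h10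
  have hcs := W.cs x hx h10
  have hdist : dt (Q - x) (Q - x) ≤ 4 := by
    have e : dt (Q - x) (Q - x) = (r ^ 2 + q ^ 2) * (ph + 2) - 2 * r * q * ph := by
      rw [hxd, hQd]
      simp only [dt_sub_left, dt_sub_right, dt_smul_left, dt_smul_right, hvv, hww, dt_comm w v, hvw]
      ring
    rw [e]
    exact w9_cross hr hr2 hq W.qle
  have hn2 : ‖Q - x‖ ≤ 2 := w9_norm_le (by norm_num) (by linarith)
  have hy := (W.rot x hx h10 (Q - x) hn2 (by rw [add_sub_cancel]; exact hQX)).1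
  have hfix : rot (u x) (c x) (s x) x = x := by
    have h3 := w9_fix r (c x) (s x) hvv hu hpar
    rw [← hxd] at h3
    exact h3
  rw [rot_sub, hfix, add_sub_cancel] at hy
  obtain ⟨y, hyd⟩ : ∃ y, y = rot (u x) (c x) (s x) Q := ⟨_, rfl⟩
  rw [← hyd] at hy
  have hQQ : dt Q Q = q ^ 2 * (ph + 2) := by
    rw [hQd, dt_smul_left, dt_smul_right, hww]; ring
  have hyy : dt y y = q ^ 2 * (ph + 2) := by
    rw [hyd, dt_rot_rot hu hcs, hQQ]
  -- the component of Q along u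
  have hpos : (ph + 2 : ℝ) ≠ 0 := by linarith
  have hux : u x = (dt v (u x) / (ph + 2)) • v := w9_par hvv hpar
  obtain ⟨δ, hδ⟩ : ∃ δ, δ = dt v (u x) / (ph + 2) := ⟨_, rfl⟩
  rw [← hδ] at hux
  have hδ2 : δ ^ 2 * (ph + 2) = 1 := by
    have h3 := hu
    rw [hux, dt_smul_left, dt_smul_right, hvv] at h3
    linarith
  have huQ : dt (u x) Q = δ * q * ph := by
    rw [hux, hQd, dt_smul_left, dt_smul_right, hvw]; ring
  have hd : dt (y - Q) (y - Q) = 1.6 * (1 - c x) * (q ^ 2 * (ph + 2)) := by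
    rw [hyd, dt_rot_sub_self hu hcs, hQQ, huQ]
    have e2 : (ph + 2) * (q ^ 2 * (ph + 2) - (δ * q * ph) ^ 2) =
        (ph + 2) * (0.8 * (q ^ 2 * (ph + 2))) := by
      have e3 : (ph + 2) * (δ * q * ph) ^ 2 = q ^ 2 * ph ^ 2 := by
        linear_combination (q ^ 2 * ph ^ 2) * hδ2
      rw [mul_sub, e3]
      have e4 : (ph + 2) ^ 2 = 5 * ph + 5 := by linear_combination hp
      linear_combination 0.2 * q ^ 2 * e4 - q ^ 2 * hp
    have e5 := mul_left_cancel₀ hpos e2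
    rw [e5]
    ring
  have hρ : 0 < q ^ 2 * (ph + 2) := by positivity
  have hne : Q ≠ y := by
    intro h
    rw [← h, sub_self, dt_zero_left] at hd
    have : 0 < 1.6 * (1 - c x) * (q ^ 2 * (ph + 2)) := by
      apply mul_pos _ hρ
      linarith
    linarith
  have hlt : dt (y - Q) (y - Q) < 0.9998 * (q ^ 2 * (ph + 2)) := by
    rw [hd]
    apply mul_lt_mul_of_pos_right _ hρ
    linarith
  have hN : ∀ t : E, dt t t = q ^ 2 * (ph + 2) → ‖t‖ ≤ 10 * q := by
    intro t ht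
    apply w9_norm_le (by positivity)
    rw [ht]
    nlinarith [sq_nonneg q]
  obtain ⟨hc1, -⟩ := W.coax Q hQX y hy (hN Q hQQ) (hN y hyy) hne hlt
  -- y - Q is parallel to w
  have hQ10 : ‖Q‖ ≤ 10 := by
    apply w9_norm_le (by norm_num)
    rw [hQQ]
    have := W.qle
    linarith
  have huq := W.unit Q hQX hQ10
  have hux2 : u Q = (dt w (u Q) / (ph + 2)) • w := w9_par hww hQu
  have hk : dt w (u Q) / (ph + 2) ≠ 0 := by
    intro h
    rw [h, zero_smul] at hux2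
    rw [hux2, dt_zero_left] at huq
    norm_num at huq
  have hc2 : cr w (y - Q) = 0 := by
    rw [hux2, cr_smul_left] at hc1
    exact (smul_eq_zero.mp hc1).resolve_left hk
  obtain ⟨t, ht⟩ : ∃ t, t = y - Q := ⟨_, rfl⟩
  rw [← ht] at hc2 hlt hd
  have f1 : dt w w * dt t t - dt w t ^ 2 = 0 := by
    have := dt_cr_cr w t w t
    rw [hc2, dt_zero_left, dt_comm t w] at this
    linarith
  rw [hww] at f1
  have f2 : dt t t = - 2 * q * dt w t := by
    have h3 : y = Q + t := by rw [ht]; abel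
    have h4 : dt y y = dt Q Q + 2 * dt Q t + dt t t := by
      rw [h3]
      simp only [dt_add_left, dt_add_right, dt_comm t Q]
      ring
    have h5 : dt Q t = q * dt w t := by rw [hQd, dt_smul_left]
    rw [hyy, hQQ, h5] at h4
    linarith
  have f3 : 0 < dt t t := by
    rw [hd]
    apply mul_pos _ hρ
    linarith
  have f4 : dt t t * (dt t t) = dt t t * (4 * (q ^ 2 * (ph + 2))) := by
    have h6 : dt t t ^ 2 = 4 * q ^ 2 * dt w t ^ 2 := by
      rw [f2]; ring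
    linear_combination h6 - 4 * q ^ 2 * f1
  have f5 := mul_left_cancel₀ f3.ne' f4
  linarith

theorem Sel.shell {X : Set E} {u : E → E} {c s : E → ℝ} {q : ℝ} (W : IW X u c s q) {z : E} {σ : ℝ} (S : Sel X u z f0 σ)
    (hz : Cone z) {r : ℝ} (hr : 0 < r) {v₀ : E} (hv₀ : IsVtx v₀) (hX : r • v₀ ∈ X) (hrz : r ^ 2 * (ph + 2) < dt z z)
    (h : ∃ g, IsFace g ∧ ∃ τ, 0 ≤ τ ∧ τ ≤ σ ∧ dt (r • v₀ - τ • g) (r • v₀ - τ • g) < 1) : Shell X r := by
  obtain ⟨g, hg, τ, hτ0, hτσ, hlt⟩ := h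
  have hp := ph_sq
  have p1 := ph_gt
  have p2 := ph_lt
  have hq := W.qpos
  have hr2 : r ^ 2 < 3 / 4 := w9_r hv₀ hg hr hτ0 hlt (w9_face_sq hg)
  have hSq := W.shell
  -- all vertices
  have hmem : ∀ v, IsVtx v → r • v ∈ X := by
    intro v hv
    obtain ⟨i, hi, hiv⟩ := act_vtx_trans hv₀
    obtain ⟨j, hj, hjv⟩ := act_vtx_trans hv
    have hAA := w9_vtx_dt w9_vA
    have hBB := w9_vtx_dt w9_vB
    have hc := w9_cross hr hr2 hq W.qle
    have h1 : dt (r • vA - q • vA) (r • vA - q • vA) ≤ 4 := by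
      have e : dt (r • vA - q • vA) (r • vA - q • vA) =
          (r ^ 2 + q ^ 2) * (ph + 2) - 2 * r * q * (ph + 2) := by
        simp only [dt_sub_left, dt_sub_right, dt_smul_left, dt_smul_right, hAA]
        ring
      rw [e]
      have : 0 < r * q := by positivity
      nlinarith
    have h2 : dt (r • vA - q • vB) (r • vA - q • vB) ≤ 4 := by
      have e : dt (r • vA - q • vB) (r • vA - q • vB) =
          (r ^ 2 + q ^ 2) * (ph + 2) - 2 * r * q * ph := by
        simp only [dt_sub_left, dt_sub_right, dt_smul_left, dt_smul_right, hAA, hBB,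
          dt_comm vB vA, w9_AB]
        ring
      rw [e]
      exact hc
    have h3 := closure_lemma hSq (x := r • vA) hi
      (by rw [w9_act_smul, hiv]; exact hX) h1 h2 j hj
    rw [w9_act_smul, hjv] at h3
    exact h3
  have hnn : ∀ v, IsVtx v → dt (r • v) (r • v) = r ^ 2 * (ph + 2) := by
    intro v hv
    rw [dt_smul_left, dt_smul_right, w9_vtx_dt hv]; ring
  have h10 : ∀ v, IsVtx v → ‖r • v‖ ≤ 10 := by
    intro v hv
    apply w9_norm_le (by norm_num)
    rw [hnn v hv]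
    nlinarith
  have hpar : ∀ v, IsVtx v → cr (u (r • v)) v = 0 := by
    intro v hv
    obtain ⟨k, hk, hkv⟩ := w9_trans hv₀ hv
    have hgood : Good u (r • v) := by
      apply S.good (hmem v hv)
      · intro h
        have h1 := hnn v hv
        rw [h, dt_zero_left] at h1
        have : 0 < r ^ 2 * (ph + 2) := by positivity
        linarith
      · rw [hnn v hv]; exact hrz
      · refine ⟨act k g, act_face hk hg, τ, hτ0, hτσ, ?_⟩
        rw [← hkv, ← w9_act_smul, ← w9_act_smul, ← w9_act_sub, act_dt hk]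
        exact hlt
    obtain ⟨w, hw, h1, h2⟩ := hgood
    have h3 : cr w v = 0 := by
      rw [cr_smul_right] at h1
      exact (smul_eq_zero.mp h1).resolve_left hr.ne'
    have h4 : cr v w = 0 := by rw [cr_comm, h3, neg_zero]
    have h5 := w9_par (w9_vtx_dt hw) h4
    rw [cr_comm, neg_eq_zero]
    rw [h5, cr_smul_left]
    rw [← h5, h2, smul_zero]
  have hang : ∀ v, IsVtx v → c (r • v) = C5 ∧ s (r • v) = S5 := fun v hv =>
    w9_angle W hr hr2 hv (hmem v hv) (h10 v hv) (hpar v hv)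
  refine ⟨hr, hmem, ?_⟩
  intro v hv y hy hd
  have hu := W.unit _ (hmem v hv) (h10 v hv)
  obtain ⟨hc5, hs5⟩ := hang v hv
  have hn2 : ‖y - r • v‖ ≤ 2 := w9_norm_le (by norm_num) (by linarith)
  obtain ⟨h1, h2⟩ := W.rot _ (hmem v hv) (h10 v hv) (y - r • v) hn2
    (by rw [add_sub_cancel]; exact hy)
  rw [hc5, hs5, rot_sub, w9_fix r _ _ (w9_vtx_dt hv) hu (hpar v hv), add_sub_cancel] at h1 h2
  rcases rot_eq_rv hv hu (hpar v hv) with h3 | h3
  · rw [(h3 y).1] at h1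
    rw [(h3 y).2] at h2
    exact ⟨h1, h2⟩
  · rw [(h3 y).1] at h1
    rw [(h3 y).2] at h2
    exact ⟨h2, h1⟩

end Pool.Agent.H304

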