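import Pool.Agent.helper304_full.Base
import Pool.Agent.helper304_full.R3
import Pool.Agent.helper304_full.W6
import Pool.Agent.helper304_full.W9

set_option autoImplicit false

namespace Pool.Agent.H304

lemma w10_vv {v : E} (hv : IsVtx v) : dt v v = ph + 2 := by
  have h := ph_sq
  obtain ⟨σ, τ, hσ, hτ, hv⟩ := hv
  have h1 : σ ^ 2 = 1 := by rcases hσ with rfl | rfl <;> norm_num
  have h2 : τ ^ 2 = 1 := by rcases hτ with rfl | rfl <;> norm_num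
  rcases hv with rfl | rfl | rfl <;> simp [dt] <;> linear_combination h1 + ph ^ 2 * h2 + h

lemma w10_neg {v : E} (hv : IsVtx v) : IsVtx (-v) := by
  obtain ⟨σ, τ, hσ, hτ, hv⟩ := hv
  refine ⟨-σ, -τ, ?_, ?_, ?_⟩
  · rcases hσ with rfl | rfl <;> norm_num
  · rcases hτ with rfl | rfl <;> norm_num
  · rcases hv with rfl | rfl | rfl
    · left; apply ext3 <;> simp
    · right; left; apply ext3 <;> simp
    · right; right; apply ext3 <;> simp

lemma w10_vf {v : E} (hv : IsVtx v) : dt v f0 ≤ ph + 1 := by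
  have h := ph_sq
  have h1 := ph_gt
  obtain ⟨σ, τ, hσ, hτ, hv⟩ := hv
  rcases hv with rfl | rfl | rfl <;> rcases hσ with rfl | rfl <;> rcases hτ with rfl | rfl <;>
    simp [dt, f0] <;> nlinarith

lemma w10_vA : IsVtx vA := ⟨1, 1, Or.inl rfl, Or.inl rfl, Or.inl (by simp [vA])⟩

lemma w10_vAf : dt vA f0 = ph + 1 := by
  have h := ph_sq
  simp [dt, vA, f0]
  linarith

lemma w10_ff : dt f0 f0 = 3 := by
  have h := ph_sq
  simp [dt, f0]
  linarith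

lemma w10_face : IsFace f0 :=
  Or.inr ⟨1, 1, Or.inl rfl, Or.inl rfl, Or.inl (by simp [f0])⟩

lemma w10_exp (x : E) (τ : ℝ) : dt (x - τ • f0) (x - τ • f0) = dt x x - 2 * τ * dt x f0 + 3 * τ ^ 2 := by
  rw [dt_sub_left, dt_sub_right, dt_sub_right, dt_smul_left, dt_smul_right, dt_smul_right, dt_smul_left,
    w10_ff, dt_comm f0 x]
  ring

lemma w10_good {u : E → E} {x : E} (h : Good u x) (h0 : x ≠ 0) : ∃ t : ℝ, 0 < t ∧ ∃ v, IsVtx v ∧ x = t • v := by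
  obtain ⟨v, hv, h1, -⟩ := h
  have hvv := w10_vv hv
  have hp : 0 < ph + 2 := by have := ph_gt; linarith
  have h2 : cr v (cr v x) = dt v x • v - dt v v • x := cr_cr v v x
  rw [h1, cr_zero_right, hvv] at h2
  have h3 : x = (dt v x / (ph + 2)) • v := by
    have h4 : (ph + 2) • x = dt v x • v := (sub_eq_zero.1 h2.symm).symm
    calc x = (ph + 2)⁻¹ • ((ph + 2) • x) := by rw [smul_smul, inv_mul_cancel₀ hp.ne', one_smul]
      _ = (dt v x / (ph + 2)) • v := by rw [h4, smul_smul]; congr 1; ring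
  set t := dt v x / (ph + 2) with ht
  rcases lt_trichotomy t 0 with h5 | h5 | h5
  · exact ⟨-t, by linarith, -v, w10_neg hv, by rw [h3, smul_neg, neg_smul, neg_neg]⟩
  · exfalso; apply h0; rw [h3, h5, zero_smul]
  · exact ⟨t, h5, v, hv, h3⟩

/-- a point of `X` near the axis for parameters accumulating at `σ` -/
lemma w10_pt {X : Set E} {u : E → E} {c s : E → ℝ} {q : ℝ} (W : IW X u c s q) {z : E} {σ : ℝ}
    (S : Sel X u z f0 σ) (h3 : 1 < 3 * σ ^ 2) (h0 : 0 < σ) :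
    ∃ x ∈ X, x ≠ 0 ∧ Good u x ∧ dt (x - σ • f0) (x - σ • f0) ≤ 1 ∧
      ∃ τ, 0 ≤ τ ∧ τ < σ ∧ dt (x - τ • f0) (x - τ • f0) < 1 := by
  have hF := W.fin 3
  set P : ℝ → E → Prop := fun τ x => x ≠ 0 ∧ Good u x ∧ dt (x - τ • f0) (x - τ • f0) ≤ 1 with hP
  have hev : ∀ᶠ τ : ℝ in nhdsWithin σ (Set.Iio σ), ∃ x ∈ X ∩ {x | ‖x‖ ≤ 3}, P τ x := by
    have e1 : ∀ᶠ τ : ℝ in nhdsWithin σ (Set.Iio σ), τ < σ := self_mem_nhdsWithin
    have e2 : ∀ᶠ τ : ℝ in nhdsWithin σ (Set.Iio σ), 0 < τ :=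
      nhdsWithin_le_nhds (Ioi_mem_nhds h0)
    have e3 : ∀ᶠ τ : ℝ in nhdsWithin σ (Set.Iio σ), 1 < 3 * τ ^ 2 := by
      have hc : Continuous (fun τ : ℝ => 3 * τ ^ 2) := by fun_prop
      exact nhdsWithin_le_nhds ((hc.tendsto σ).eventually_const_lt h3)
    filter_upwards [e1, e2, e3] with τ h1 h2 h4
    obtain ⟨x, hx, hxn⟩ := W.cov (τ • f0)
    have hd : dt (x - τ • f0) (x - τ • f0) ≤ 1 := by
      rw [← norm_sq_eq_dt]
      nlinarith [norm_nonneg (x - τ • f0)]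
    have hs1 := S.s1
    have hx0 : x ≠ 0 := by
      rintro rfl
      rw [w10_exp, dt_zero_left, dt_zero_left] at hd
      linarith
    have hgood : Good u x := by
      by_contra hb
      have := (S.min x hx hx0 hb f0 w10_face τ h2.le (by linarith) hd).1
      linarith
    refine ⟨x, ⟨hx, ?_⟩, hx0, hgood, hd⟩
    have hn : ‖τ • f0‖ ≤ 2 := by
      have h5 : ‖τ • f0‖ ^ 2 ≤ 4 := by
        rw [norm_sq_eq_dt, dt_smul_left, dt_smul_right, w10_ff]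
        nlinarith
      nlinarith [norm_nonneg (τ • f0)]
    calc ‖x‖ = ‖(x - τ • f0) + τ • f0‖ := by rw [sub_add_cancel]
      _ ≤ ‖x - τ • f0‖ + ‖τ • f0‖ := norm_add_le _ _
      _ ≤ 1 + 2 := add_le_add hxn hn
      _ = 3 := by norm_num
  obtain ⟨x, hxF, hfr⟩ : ∃ x ∈ X ∩ {x | ‖x‖ ≤ 3}, ∃ᶠ τ : ℝ in nhdsWithin σ (Set.Iio σ), P τ x := by
    by_contra hcon
    push Not at hcon
    have h5 : ∀ᶠ τ : ℝ in nhdsWithin σ (Set.Iio σ), ∀ x ∈ X ∩ {x | ‖x‖ ≤ 3}, ¬ P τ x := by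
      rw [Filter.eventually_all_finite hF]
      intro x hx
      exact Filter.not_frequently.1 (by
        have := hcon x hx
        simpa using this)
    obtain ⟨τ, ⟨x, hx, hPx⟩, h7⟩ := (hev.and h5).exists
    exact h7 x hx hPx
  have hcx : Continuous (fun τ : ℝ => dt (x - τ • f0) (x - τ • f0)) := by
    have : (fun τ : ℝ => dt (x - τ • f0) (x - τ • f0)) = fun τ => dt x x - 2 * τ * dt x f0 + 3 * τ ^ 2 := by
      ext τ; exact w10_exp x τ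
    rw [this]
    fun_prop
  have hσ1 : dt (x - σ • f0) (x - σ • f0) ≤ 1 := by
    by_contra hgt
    push Not at hgt
    have h5 : ∀ᶠ τ : ℝ in nhdsWithin σ (Set.Iio σ), 1 < dt (x - τ • f0) (x - τ • f0) :=
      nhdsWithin_le_nhds ((hcx.tendsto σ).eventually_const_lt hgt)
    obtain ⟨τ, h6, h7⟩ := (hfr.and_eventually h5).exists
    have := h6.2.2
    linarith
  have e1 : ∀ᶠ τ : ℝ in nhdsWithin σ (Set.Iio σ), τ < σ := self_mem_nhdsWithin
  have e2 : ∀ᶠ τ : ℝ in nhdsWithin σ (Set.Iio σ), 0 < τ := nhdsWithin_le_nhds (Ioi_mem_nhds h0)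
  obtain ⟨τ, ⟨hx0, hg, hd⟩, h1, h2⟩ := (hfr.and_eventually (e1.and e2)).exists
  refine ⟨x, hxF.1, hx0, hg, hσ1, (τ + σ) / 2, by linarith, by linarith, ?_⟩
  rw [w10_exp] at hd hσ1 ⊢
  nlinarith [sq_pos_of_pos (sub_pos.2 h1)]

theorem Sel.exists_shell {X : Set E} {u : E → E} {c s : E → ℝ} {q : ℝ} (W : IW X u c s q) {z : E} {σ : ℝ}
    (S : Sel X u z f0 σ) (hz : Cone z) (h4 : 4 < dt z z) :
    ∃ r, 0 < r ∧ r • vA ∈ X ∧ r ^ 2 * (ph + 2) ≤ 2.716 ∧ dt (r • vA - σ • f0) (r • vA - σ • f0) ≤ 1 ∧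
      ∃ τ, 0 ≤ τ ∧ τ ≤ σ ∧ dt (r • vA - τ • f0) (r • vA - τ • f0) < 1 := by
  have hσ0 := S.s0
  have hnear := S.near
  have h3 : 1 < 3 * σ ^ 2 := by
    have e1 : 2 < ‖z‖ := by
      have := norm_sq_eq_dt z
      nlinarith [norm_nonneg z]
    have e2 : ‖z - σ • f0‖ ≤ 1 := by
      have := norm_sq_eq_dt (z - σ • f0)
      nlinarith [norm_nonneg (z - σ • f0)]
    have e3 : ‖z‖ ≤ ‖z - σ • f0‖ + ‖σ • f0‖ := by
      calc ‖z‖ = ‖(z - σ • f0) + σ • f0‖ := by rw [sub_add_cancel]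
        _ ≤ _ := norm_add_le _ _
    have e4 : ‖σ • f0‖ ^ 2 = 3 * σ ^ 2 := by
      rw [norm_sq_eq_dt, dt_smul_left, dt_smul_right, w10_ff]; ring
    rw [← e4]
    nlinarith [norm_nonneg (σ • f0)]
  have h0 : 0 < σ := by
    rcases hσ0.lt_or_eq with h | h
    · exact h
    · exfalso; rw [← h] at h3; norm_num at h3
  obtain ⟨x, hxX, hx0, hg, hxσ, τ, hτ0, hτσ, hxτ⟩ := w10_pt W S h3 h0
  obtain ⟨t, ht, v, hv, rfl⟩ := w10_good hg hx0
  have hvv := w10_vv hv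
  have hvf := w10_vf hv
  have hph := ph_sq
  have hp1 := ph_gt
  have hp2 := ph_lt
  have hexp : ∀ (w : E) (ρ : ℝ), IsVtx w → dt (t • w - ρ • f0) (t • w - ρ • f0) =
      t ^ 2 * (ph + 2) - 2 * ρ * (t * dt w f0) + 3 * ρ ^ 2 := by
    intro w ρ hw
    rw [w10_exp, dt_smul_left, dt_smul_right, dt_smul_left, w10_vv hw]
    ring
  have hcmp : ∀ ρ : ℝ, 0 ≤ ρ → dt (t • vA - ρ • f0) (t • vA - ρ • f0) ≤
      dt (t • v - ρ • f0) (t • v - ρ • f0) := by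
    intro ρ hρ
    rw [hexp vA ρ w10_vA, hexp v ρ hv, w10_vAf]
    have : ρ * (t * dt v f0) ≤ ρ * (t * (ph + 1)) := by gcongr
    linarith
  have ht2 : t ^ 2 ≤ 3 / 4 := by
    have h5 : dt (t • vA - τ • f0) (t • vA - τ • f0) < 1 := lt_of_le_of_lt (hcmp τ hτ0) hxτ
    rw [hexp vA τ w10_vA, w10_vAf] at h5
    have h6 : (t * (ph + 1)) ^ 2 = t ^ 2 * (3 * ph + 2) := by
      rw [mul_pow]; congr 1; linear_combination hph
    nlinarith [sq_nonneg (3 * τ - t * (ph + 1))]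
  have ht3 : t ^ 2 * (ph + 2) ≤ 2.716 := by
    nlinarith
  have hsh := Sel.shell W S hz ht hv hxX (by linarith) ⟨f0, w10_face, τ, hτ0, hτσ.le, hxτ⟩
  exact ⟨t, ht, hsh.mem vA w10_vA, ht3, (hcmp σ h0.le).trans hxσ, τ, hτ0, hτσ.le,
    lt_of_le_of_lt (hcmp τ hτ0) hxτ⟩

end Pool.Agent.H304

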