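import Pool.Agent.helper304_full.Base
import Pool.Agent.helper304_full.R1
import Pool.Agent.helper304_full.R10
import Pool.Agent.helper304_full.R2
import Pool.Agent.helper304_full.R3
import Pool.Agent.helper304_full.R4
import Pool.Agent.helper304_full.R9

set_option autoImplicit false

namespace Pool.Agent.H304

lemma w7_g0 {i r c : ℕ} (h : gcode i r c = 0) : gent i r c = 0 := by
  simp [gent, h, cvA, cvB]

lemma w7_g7 {i r c : ℕ} (h : gcode i r c = 7) : gent i r c = 1 := by
  simp [gent, h, cvA, cvB]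

lemma w7_g8 {i r c : ℕ} (h : gcode i r c = 8) : gent i r c = -1 := by
  simp [gent, h, cvA, cvB]

lemma w7_act9 (v : E) : act 9 v = !₂[-v 0, -v 1, v 2] := by
  have h00 := w7_g8 (by decide +kernel : gcode 9 0 0 = 8)
  have h01 := w7_g0 (by decide +kernel : gcode 9 0 1 = 0)
  have h02 := w7_g0 (by decide +kernel : gcode 9 0 2 = 0)
  have h10 := w7_g0 (by decide +kernel : gcode 9 1 0 = 0)
  have h11 := w7_g8 (by decide +kernel : gcode 9 1 1 = 8)
  have h12 := w7_g0 (by decide +kernel : gcode 9 1 2 = 0)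
  have h20 := w7_g0 (by decide +kernel : gcode 9 2 0 = 0)
  have h21 := w7_g0 (by decide +kernel : gcode 9 2 1 = 0)
  have h22 := w7_g7 (by decide +kernel : gcode 9 2 2 = 7)
  rw [act, h00, h01, h02, h10, h11, h12, h20, h21, h22]
  apply ext3 <;> simp

lemma w7_act59 (v : E) : act 59 v = !₂[v 0, -v 1, -v 2] := by
  have h00 := w7_g7 (by decide +kernel : gcode 59 0 0 = 7)
  have h01 := w7_g0 (by decide +kernel : gcode 59 0 1 = 0)
  have h02 := w7_g0 (by decide +kernel : gcode 59 0 2 = 0)
  have h10 := w7_g0 (by decide +kernel : gcode 59 1 0 = 0)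
  have h11 := w7_g8 (by decide +kernel : gcode 59 1 1 = 8)
  have h12 := w7_g0 (by decide +kernel : gcode 59 1 2 = 0)
  have h20 := w7_g0 (by decide +kernel : gcode 59 2 0 = 0)
  have h21 := w7_g0 (by decide +kernel : gcode 59 2 1 = 0)
  have h22 := w7_g8 (by decide +kernel : gcode 59 2 2 = 8)
  rw [act, h00, h01, h02, h10, h11, h12, h20, h21, h22]
  apply ext3 <;> simp

lemma w7_act15 (v : E) : act 15 v = !₂[v 1, v 2, v 0] := by
  have h00 := w7_g0 (by decide +kernel : gcode 15 0 0 = 0)
  have h01 := w7_g7 (by decide +kernel : gcode 15 0 1 = 7)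
  have h02 := w7_g0 (by decide +kernel : gcode 15 0 2 = 0)
  have h10 := w7_g0 (by decide +kernel : gcode 15 1 0 = 0)
  have h11 := w7_g0 (by decide +kernel : gcode 15 1 1 = 0)
  have h12 := w7_g7 (by decide +kernel : gcode 15 1 2 = 7)
  have h20 := w7_g7 (by decide +kernel : gcode 15 2 0 = 7)
  have h21 := w7_g0 (by decide +kernel : gcode 15 2 1 = 0)
  have h22 := w7_g0 (by decide +kernel : gcode 15 2 2 = 0)
  rw [act, h00, h01, h02, h10, h11, h12, h20, h21, h22]
  apply ext3 <;> simp

lemma w7_act49 (v : E) : act 49 v = !₂[v 2, v 0, v 1] := by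
  have h00 := w7_g0 (by decide +kernel : gcode 49 0 0 = 0)
  have h01 := w7_g0 (by decide +kernel : gcode 49 0 1 = 0)
  have h02 := w7_g7 (by decide +kernel : gcode 49 0 2 = 7)
  have h10 := w7_g7 (by decide +kernel : gcode 49 1 0 = 7)
  have h11 := w7_g0 (by decide +kernel : gcode 49 1 1 = 0)
  have h12 := w7_g0 (by decide +kernel : gcode 49 1 2 = 0)
  have h20 := w7_g0 (by decide +kernel : gcode 49 2 0 = 0)
  have h21 := w7_g7 (by decide +kernel : gcode 49 2 1 = 7)
  have h22 := w7_g0 (by decide +kernel : gcode 49 2 2 = 0)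
  rw [act, h00, h01, h02, h10, h11, h12, h20, h21, h22]
  apply ext3 <;> simp

lemma w7_eq {w x : E} (hw : dt w w = 1) (hx : cr w x = 0) : x = dt w x • w := by
  have h := cr_cr w w x
  rw [hx, cr_zero_right, hw, one_smul] at h
  exact (sub_eq_zero.1 h.symm).symm

lemma w7_par {w x y : E} (hw : dt w w = 1) (hx : cr w x = 0) (hy : cr w y = 0) : cr x y = 0 := by
  rw [w7_eq hw hx, w7_eq hw hy, cr_smul_left, cr_smul_right, cr_self, smul_zero, smul_zero]

lemma w7_norm {x : E} {K : ℝ} (hK : 0 ≤ K) (h : dt x x ≤ K ^ 2) : ‖x‖ ≤ K := by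
  rw [← norm_sq_eq_dt] at h
  exact le_of_sq_le_sq h hK

lemma w7_vtx_dt {v : E} (hv : IsVtx v) : dt v v = ph + 2 := by
  obtain ⟨σ, τ, hσ, hτ, h⟩ := hv
  have h1 : σ ^ 2 = 1 := by rcases hσ with h | h <;> rw [h] <;> norm_num
  have h2 : τ ^ 2 = 1 := by rcases hτ with h | h <;> rw [h] <;> norm_num
  have h3 := ph_sq
  rcases h with rfl | rfl | rfl
  · simp [dt]
    linear_combination h1 + ph ^ 2 * h2 + h3
  · simp [dt]
    linear_combination h1 + ph ^ 2 * h2 + h3
  · simp [dt]
    linear_combination h1 + ph ^ 2 * h2 + h3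

lemma w7_cs (x y : E) : dt x y ^ 2 ≤ dt x x * dt y y := by
  have h := dt_self_nonneg (cr x y)
  rw [dt_cr_cr, dt_comm y x] at h
  nlinarith

/-- the small case: all the images differ from `z` by multiples of one vector -/
lemma w7_small {z w : E} (hw : dt w w = 1) (h : ∀ j < 60, cr w (act j z - z) = 0) : dt z z = 0 := by
  have h1 := w7_par hw (h 9 (by norm_num)) (h 59 (by norm_num))
  have h2 := w7_par hw (h 15 (by norm_num)) (h 49 (by norm_num))
  rw [w7_act9, w7_act59] at h1
  rw [w7_act15, w7_act49] at h2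
  have a0 := congrArg (fun v : E => v 0) h1
  have a1 := congrArg (fun v : E => v 1) h1
  have a2 := congrArg (fun v : E => v 2) h1
  have b0 := congrArg (fun v : E => v 0) h2
  simp at a0 a1 a2 b0
  have c0 : z 1 * z 2 = 0 := by
    rcases a0 with a0 | a0
    · have : z 1 = 0 := by linarith
      rw [this, zero_mul]
    · have : z 2 = 0 := by linarith
      rw [this, mul_zero]
  have c1 : z 0 * z 2 = 0 := by
    rcases a1 with a1 | a1
    · have : z 0 = 0 := by linarith
      rw [this, zero_mul]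
    · have : z 2 = 0 := by linarith
      rw [this, mul_zero]
  have c2 : z 0 * z 1 = 0 := by
    rcases a2 with a2 | a2
    · have : z 0 = 0 := by linarith
      rw [this, zero_mul]
    · have : z 1 = 0 := by linarith
      rw [this, mul_zero]
  simp only [dt]
  nlinarith

theorem Sel.far {X : Set E} {u : E → E} {c s : E → ℝ} {q : ℝ} (W : IW X u c s q) {z f : E} {σ : ℝ} (S : Sel X u z f σ) :
    q ^ 2 * (ph + 2) ≤ 0.3963 * dt z z := by
  by_contra hcon
  push Not at hcon
  have hp1 := ph_gt
  have hp2 := ph_lt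
  have hq := W.qpos
  have hqle := W.qle
  have hq2 : 0 < q ^ 2 := by positivity
  have ha0 : 0 ≤ dt z z := dt_self_nonneg z
  have hb0 : 0 < q ^ 2 * (ph + 2) := by positivity
  have hbq : q ^ 2 * (ph + 2) ≤ 3.619 * q ^ 2 := by nlinarith
  have hq1 : q ≤ 1 := by nlinarith
  have hz10q : ‖z‖ ≤ 10 * q := w7_norm (by positivity) (by nlinarith)
  have hz10 : ‖z‖ ≤ 10 := by linarith
  have huz : dt (u z) (u z) = 1 := W.unit z S.mem hz10
  rcases le_or_gt (dt z z) (4e-8 * (q ^ 2 * (ph + 2))) with hsm | hbig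
  · -- the small case
    have hne : dt z z ≠ 0 := fun h => S.ne (dt_self_eq_zero h)
    apply hne
    have key : ∀ v, IsVtx v → dt (z - q • v) (z - q • v) ≤ 4 := by
      intro v hv
      have h1 := w7_cs z v
      rw [w7_vtx_dt hv] at h1
      rw [dt_sub_left, dt_sub_right, dt_sub_right, dt_smul_left, dt_smul_right, dt_smul_right,
        dt_smul_left, w7_vtx_dt hv, dt_comm v z]
      have h2 : (q * dt z v) ^ 2 ≤ (0.001 * (q ^ 2 * (ph + 2))) ^ 2 := by
        have : (q * dt z v) ^ 2 ≤ q ^ 2 * (dt z z * (ph + 2)) := by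
          rw [mul_pow]
          exact mul_le_mul_of_nonneg_left h1 hq2.le
        nlinarith
      have h3 : |q * dt z v| ≤ 0.001 * (q ^ 2 * (ph + 2)) := by
        apply abs_le_of_sq_le_sq h2 (by positivity)
      have h4 := (abs_le.1 h3).1
      nlinarith
    have hvA : IsVtx vA := ⟨1, 1, Or.inl rfl, Or.inl rfl, Or.inl (by simp [vA])⟩
    have hvB : IsVtx vB := ⟨-1, 1, Or.inr rfl, Or.inl rfl, Or.inl (by simp [vB])⟩
    have hall := closure_lemma (W.shell) (i := 0) (x := z) (by norm_num)
      (by rw [act_zero]; exact S.mem) (key vA hvA) (key vB hvB)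
    apply w7_small huz
    intro j hj
    by_cases hjz : act j z = z
    · rw [hjz, sub_self, cr_zero_right]
    · have e1 : dt (act j z) (act j z) = dt z z := act_dt hj z z
      have h5 : ‖act j z‖ ≤ 10 * q := w7_norm (by positivity) (by rw [e1]; nlinarith)
      have h6 : dt (act j z - z) (act j z - z) ≤ 4 * dt z z := by
        have h7 := dt_self_nonneg (act j z + z)
        rw [dt_add_left, dt_add_right, dt_add_right, dt_comm z (act j z), e1] at h7
        rw [dt_sub_left, dt_sub_right, dt_sub_right, dt_comm z (act j z), e1]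
        linarith
      exact (W.coax z S.mem (act j z) (hall j hj) hz10q h5 (Ne.symm hjz) (by nlinarith)).1
  · -- the large case
    obtain ⟨v, hv, hzv0, hzv⟩ := near_vtx z
    obtain ⟨hPX, hPv, -, -⟩ := W.vtx v hv
    have hvv := w7_vtx_dt hv
    have hPP : dt (q • v) (q • v) = q ^ 2 * (ph + 2) := by
      rw [dt_smul_left, dt_smul_right, hvv]; ring
    have hP10q : ‖q • v‖ ≤ 10 * q := w7_norm (by positivity) (by rw [hPP]; nlinarith)
    have huP : dt (u (q • v)) (u (q • v)) = 1 := W.unit _ hPX (by linarith)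
    have hneP : z ≠ q • v := by
      intro h
      apply S.bad
      rw [h]
      refine ⟨v, hv, ?_, ?_⟩
      · rw [cr_smul_right, cr_self, smul_zero]
      · rw [cr_comm, hPv, neg_zero]
    have hdist : dt (q • v - z) (q • v - z) < 0.9998 * (q ^ 2 * (ph + 2)) := by
      rw [dt_sub_left, dt_sub_right, dt_sub_right, hPP, dt_smul_left, dt_smul_right, dt_comm v z]
      have hD0 : 0 ≤ q * dt z v := by positivity
      have hD : q ^ 2 * ((3 * ph + 2) * dt z z) ≤ 3 * (q * dt z v) ^ 2 := by
        rw [mul_pow]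
        nlinarith
      have hk : 2.5258 * (q ^ 2 * (ph + 2)) * dt z z ≤ 4 * (q * dt z v) ^ 2 := by
        have : 0 ≤ q ^ 2 * dt z z := by positivity
        nlinarith
      have hsq : (dt z z + 0.0002 * (q ^ 2 * (ph + 2))) ^ 2 < (2 * (q * dt z v)) ^ 2 := by
        have h1 : 0 < (dt z z - 4e-8 * (q ^ 2 * (ph + 2))) *
            (q ^ 2 * (ph + 2) - 0.3963 * dt z z) := by
          apply mul_pos <;> linarith
        nlinarith
      have := lt_of_pow_lt_pow_left₀ 2 (by positivity) hsq
      linarith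
    obtain ⟨h1, h2⟩ := W.coax z S.mem (q • v) hPX hz10q hP10q hneP hdist
    -- `z`, `v` are parallel to `u P`
    have h3 : cr (u (q • v)) z = 0 := by
      rw [cr_sub_right, cr_smul_right, hPv, smul_zero, zero_sub, neg_eq_zero] at h2
      exact h2
    have h4 : cr v z = 0 := w7_par huP hPv h3
    -- `u z` too
    have h5 : q • v - z ≠ 0 := sub_ne_zero.2 (Ne.symm hneP)
    have h6 := w7_eq huP h2
    have h7 : dt (u (q • v)) (q • v - z) ≠ 0 := by
      intro h
      rw [h, zero_smul] at h6
      exact h5 h6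
    have h8 : cr (u z) (u (q • v)) = 0 := by
      rw [h6, cr_smul_right] at h1
      exact (smul_eq_zero.1 h1).resolve_left h7
    have h9 : cr v (u z) = 0 := by
      rw [w7_eq huP hPv, cr_smul_left, cr_comm, h8, neg_zero, smul_zero]
    exact S.bad ⟨v, hv, h4, h9⟩

end Pool.Agent.H304

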