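import Pool.Agent.helper304_full.Base
import Pool.Agent.helper304_full.R1
import Pool.Agent.helper304_full.R10
import Pool.Agent.helper304_full.W10
import Pool.Agent.helper304_full.W6
import Pool.Agent.helper304_full.W7
import Pool.Agent.helper304_full.W9

set_option autoImplicit false

namespace Pool.Agent.H304

lemma w11_sqle {a b : ℝ} (h : a ^ 2 ≤ b ^ 2) (hb : 0 ≤ b) : a ≤ b :=
  (abs_le_of_sq_le_sq' h hb).2

lemma w11_vtx_sq {v : E} (hv : IsVtx v) : dt v v = ph + 2 := by
  have hp := ph_sq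
  obtain ⟨σ, τ, hσ, hτ, h⟩ := hv
  rcases hσ with rfl | rfl <;> rcases hτ with rfl | rfl <;> rcases h with rfl | rfl | rfl <;>
    simp [dt] <;> linear_combination hp

lemma w11_face_sq {g : E} (hg : IsFace g) : dt g g = 3 := by
  have hp := ph_sq
  rcases hg with ⟨σ, τ, ρ, hσ, hτ, hρ, rfl⟩ | ⟨σ, τ, hσ, hτ, h⟩
  · rcases hσ with rfl | rfl <;> rcases hτ with rfl | rfl <;> rcases hρ with rfl | rfl <;>
      simp [dt] <;> norm_num
  · rcases hσ with rfl | rfl <;> rcases hτ with rfl | rfl <;> rcases h with rfl | rfl | rfl <;>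
      simp [dt] <;> linear_combination 2 * hp

lemma w11_neg {v : E} (hv : IsVtx v) : IsVtx (-v) := by
  obtain ⟨σ, τ, hσ, hτ, h⟩ := hv
  refine ⟨-σ, -τ, by rcases hσ with rfl | rfl <;> simp, by rcases hτ with rfl | rfl <;> simp, ?_⟩
  rcases h with rfl | rfl | rfl
  · left; apply ext3 <;> simp
  · right; left; apply ext3 <;> simp
  · right; right; apply ext3 <;> simp

lemma w11_vA : IsVtx vA := ⟨1, 1, Or.inl rfl, Or.inl rfl, Or.inl (by simp [vA])⟩

lemma w11_f0 : IsFace f0 := by
  right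
  exact ⟨1, 1, Or.inl rfl, Or.inl rfl, Or.inl (by simp [f0])⟩

lemma w11_abc {v : E} (hv : v = vA ∨ v = vB ∨ v = vC) : dt v v = ph + 2 ∧ dt v f0 = ph + 1 := by
  have hp := ph_sq
  rcases hv with rfl | rfl | rfl
  · constructor
    · simp [dt, vA]; linear_combination hp
    · simp [dt, vA, f0]; linear_combination hp
  · constructor
    · simp [dt, vB]; linear_combination hp
    · simp [dt, vB, f0]; linear_combination hp
  · constructor
    · simp [dt, vC]; linear_combination hp
    · simp [dt, vC, f0]; linear_combination hp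

lemma w11_cone {z : E} (hz : Cone z) : 0 ≤ z 2 ∧ dt z z ≤ 1.4 * z 2 ^ 2 ∧
    ∀ v, (v = vA ∨ v = vB ∨ v = vC) → z 2 ≤ dt v z := by
  obtain ⟨h0, h1, h2⟩ := hz
  have hp := ph_sq
  have hg := ph_gt
  have hl := ph_lt
  have ha : 0 ≤ (ph + 1) * z 0 := mul_nonneg (by linarith) h0
  have hb : 0 ≤ ph * z 1 := mul_nonneg (by linarith) h1
  have hc : 0 ≤ z 2 := by linarith
  refine ⟨hc, ?_, ?_⟩
  · have e1 : ((ph + 1) * z 0 + ph * z 1) ^ 2 ≤ z 2 ^ 2 := pow_le_pow_left₀ (by linarith) h2 2
    have e2 : 2.6 * z 0 ^ 2 ≤ ((ph + 1) * z 0) ^ 2 := by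
      rw [mul_pow]
      exact mul_le_mul_of_nonneg_right (by nlinarith) (sq_nonneg _)
    have e3 : 2.6 * z 1 ^ 2 ≤ (ph * z 1) ^ 2 := by
      rw [mul_pow]
      exact mul_le_mul_of_nonneg_right (by nlinarith) (sq_nonneg _)
    have e4 : 0 ≤ (ph + 1) * z 0 * (ph * z 1) := mul_nonneg ha hb
    have e5 : dt z z = z 0 ^ 2 + z 1 ^ 2 + z 2 ^ 2 := by simp only [dt]; ring
    rw [e5]
    nlinarith
  · have e1 : z 1 ≤ (ph - 1) * z 2 := by
      have e2 : (ph - 1) * (ph * z 1) ≤ (ph - 1) * z 2 :=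
        mul_le_mul_of_nonneg_left (by linarith) (by linarith)
      have e3 : (ph - 1) * (ph * z 1) = z 1 := by linear_combination (z 1) * hp
      linarith
    rintro v (rfl | rfl | rfl)
    · have e6 : dt vA z = z 1 + ph * z 2 := by simp [dt, vA]
      rw [e6]; nlinarith
    · have e6 : dt vB z = - z 1 + ph * z 2 := by simp [dt, vB]
      rw [e6]; linarith
    · have e6 : dt vC z = ph * z 0 + z 2 := by simp [dt, vC]
      rw [e6]; nlinarith

/-- a vector parallel to a vertex with the right length -/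
lemma w11_par {v y : E} (hv : IsVtx v) {r : ℝ} (hc : cr v y = 0)
    (hy : dt y y = r ^ 2 * (ph + 2)) : y = r • v ∨ y = r • (-v) := by
  have hvv := w11_vtx_sq hv
  have hg := ph_gt
  have hp2 : 0 < ph + 2 := by linarith
  have h1 : cr v (cr v y) = 0 := by rw [hc]; simp
  rw [cr_cr, hvv, sub_eq_zero] at h1
  -- `dt v y • v = (ph + 2) • y`
  set l := dt v y / (ph + 2) with hl
  have h2 : y = l • v := by
    have : (ph + 2) • y = (ph + 2) • (l • v) := by
      rw [smul_smul, hl, mul_div_cancel₀ _ hp2.ne', ← h1]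
    exact smul_right_injective E hp2.ne' this
  have h3 : dt y y = l ^ 2 * (ph + 2) := by
    rw [h2, dt_smul_left, dt_smul_right, hvv]; ring
  have h4 : l ^ 2 = r ^ 2 := by
    have := h3.symm.trans hy
    exact mul_right_cancel₀ hp2.ne' this
  rcases sq_eq_sq_iff_eq_or_eq_neg.1 h4 with h5 | h5
  · left; rw [h2, h5]
  · right; rw [h2, h5, smul_neg, neg_smul]

theorem Sel.main_shell {X : Set E} {u : E → E} {c s : E → ℝ} {q : ℝ} (W : IW X u c s q) {z : E} {σ : ℝ}
    (S : Sel X u z f0 σ) (hz : Cone z) :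
    ∃ r, Shell X r ∧ r ^ 2 * (ph + 2) ≤ 0.679 * dt z z ∧ (dt z z ≤ 4 → r ^ 2 * (ph + 2) ≤ 0.3963 * dt z z) ∧
      (∀ v, (v = vA ∨ v = vB ∨ v = vC) → dt (r • v - z) (r • v - z) ≤ 4) ∧
      ∀ y ∈ X, dt y y = r ^ 2 * (ph + 2) → ∃ v, IsVtx v ∧ y = r • v := by
  have hg := ph_gt
  have hl := ph_lt
  have hp := ph_sq
  have hp2 : 0 < ph + 2 := by linarith
  have hzz := dt_self_nonneg z
  by_cases h4 : dt z z ≤ 4
  · have hfar := S.far W
    have hq := W.qpos
    refine ⟨q, W.shell, by linarith, fun _ => hfar, ?_, ?_⟩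
    · intro v hv
      obtain ⟨c0, c1, c2⟩ := w11_cone hz
      have c3 := c2 v hv
      have hvv := (w11_abc hv).1
      have e1 : dt (q • v - z) (q • v - z) = q ^ 2 * (ph + 2) + dt z z - 2 * q * dt v z := by
        rw [dt_sub_left, dt_sub_right, dt_sub_right, dt_smul_left, dt_smul_left, dt_smul_right,
          dt_smul_right, hvv, dt_comm z v]
        ring
      have e2 : q * (ph + 2) ≤ 2 * z 2 := by
        apply w11_sqle ?_ (by linarith)
        have e3 : (q * (ph + 2)) ^ 2 = (q ^ 2 * (ph + 2)) * (ph + 2) := by ring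
        have e4 : (q ^ 2 * (ph + 2)) * (ph + 2) ≤ (0.3963 * (1.4 * z 2 ^ 2)) * (ph + 2) :=
          mul_le_mul_of_nonneg_right (by linarith) hp2.le
        have e5 : (0.3963 * (1.4 * z 2 ^ 2)) * (ph + 2) ≤ (0.3963 * (1.4 * z 2 ^ 2)) * 3.7 :=
          mul_le_mul_of_nonneg_left (by linarith) (by positivity)
        rw [e3]
        nlinarith [sq_nonneg (z 2)]
      have e6 : q * (q * (ph + 2)) ≤ q * (2 * dt v z) :=
        mul_le_mul_of_nonneg_left (by linarith) hq.le
      rw [e1]
      nlinarith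
    · intro y hy hyy
      obtain ⟨v, hv, hv0, hv1⟩ := near_vtx y
      refine ⟨v, hv, ?_⟩
      have hvv := w11_vtx_sq hv
      have hvy : dt v y = dt y v := dt_comm v y
      -- `dt y v ≥ 2.8 q`
      have e1 : 2.8 * q ≤ dt y v := by
        apply w11_sqle ?_ hv0
        rw [hyy] at hv1
        have e2 : (3 * ph + 2) * (q ^ 2 * (ph + 2)) = (11 * ph + 7) * q ^ 2 := by
          linear_combination (3 * q ^ 2) * hp
        rw [e2] at hv1
        have e3 : 24 * q ^ 2 ≤ (11 * ph + 7) * q ^ 2 :=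
          mul_le_mul_of_nonneg_right (by linarith) (sq_nonneg q)
        nlinarith [sq_nonneg q]
      have e4 : dt (y - q • v) (y - q • v) = 2 * (q ^ 2 * (ph + 2)) - 2 * q * dt y v := by
        rw [dt_sub_left, dt_sub_right, dt_sub_right, dt_smul_left, dt_smul_left, dt_smul_right,
          dt_smul_right, hvv, hvy, hyy]
        ring
      have e5 : dt (y - q • v) (y - q • v) < 0.9998 * (q ^ 2 * (ph + 2)) := by
        rw [e4]
        have e6 : q * (2.8 * q) ≤ q * dt y v := mul_le_mul_of_nonneg_left e1 hq.le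
        have e7 : 0 < q ^ 2 := by positivity
        have e8 : q ^ 2 * (ph + 2) ≤ q ^ 2 * 3.7 :=
          mul_le_mul_of_nonneg_left (by linarith) e7.le
        nlinarith
      by_contra hne
      have hqv : ‖q • v‖ ^ 2 = q ^ 2 * (ph + 2) := by
        rw [norm_sq_eq_dt, dt_smul_left, dt_smul_right, hvv]; ring
      have hqy : ‖y‖ ^ 2 = q ^ 2 * (ph + 2) := by rw [norm_sq_eq_dt, hyy]
      have n1 : q ^ 2 * (ph + 2) ≤ (10 * q) ^ 2 := by
        have e7 : 0 < q ^ 2 := by positivity
        have e8 : q ^ 2 * (ph + 2) ≤ q ^ 2 * 3.7 :=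
          mul_le_mul_of_nonneg_left (by linarith) e7.le
        nlinarith
      have n2 : ‖q • v‖ ≤ 10 * q := by
        apply w11_sqle ?_ (by positivity)
        rw [hqv]; exact n1
      have n3 : ‖y‖ ≤ 10 * q := by
        apply w11_sqle ?_ (by positivity)
        rw [hqy]; exact n1
      have n4 : ‖q • v‖ ≤ 10 := by
        apply w11_sqle ?_ (by norm_num)
        rw [hqv]
        have := W.qle
        linarith
      obtain ⟨k1, k2, -, -⟩ := W.vtx v hv
      obtain ⟨k3, -⟩ := W.coax (q • v) k1 y hy n2 n3 (fun h => hne h.symm) e5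
      have k4 := W.unit (q • v) k1 n4
      -- `cr v y = 0`
      set w := u (q • v) with hw
      have k5 : cr w y = 0 := by
        have : cr w y = cr w (y - q • v) + q • cr w v := by
          rw [← cr_smul_right, ← cr_add_right, sub_add_cancel]
        rw [this, k3, k2]; simp
      have k6 : v = dt w v • w := by
        have := cr_cr w w v
        rw [k2, k4, one_smul, cr_zero_right] at this
        exact (sub_eq_zero.1 this.symm).symm
      have k7 : y = dt w y • w := by
        have := cr_cr w w y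
        rw [k5, k4, one_smul, cr_zero_right] at this
        exact (sub_eq_zero.1 this.symm).symm
      have k8 : cr v y = 0 := by
        rw [k6, k7, cr_smul_left, cr_smul_right, cr_self]; simp
      rcases w11_par hv k8 hyy with k9 | k9
      · exact hne k9
      · have : dt y v = - (q * (ph + 2)) := by
          rw [k9, dt_smul_left, dt_neg_left, hvv]; ring
        rw [this] at hv0
        nlinarith [mul_pos hq hp2]
  · push Not at h4
    obtain ⟨r, hr, hX, h1, h2, τ, h3, h5, h6⟩ := S.exists_shell W hz h4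
    have hrz : r ^ 2 * (ph + 2) < dt z z := by linarith
    have hsh := S.shell W hz hr w11_vA hX hrz ⟨f0, w11_f0, τ, h3, h5, h6⟩
    have hdist : ∀ v g : E, ∀ τ : ℝ, dt v v = ph + 2 → dt g g = 3 → 
        dt (r • v - τ • g) (r • v - τ • g) = r ^ 2 * (ph + 2) + 3 * τ ^ 2 - 2 * r * τ * dt v g := by
      intro v g τ hv hg
      rw [dt_sub_left, dt_sub_right, dt_sub_right]
      simp only [dt_smul_left, dt_smul_right, hv, hg, dt_comm g v]
      ring
    refine ⟨r, hsh, by linarith, fun h => absurd h (not_le.2 h4), ?_, ?_⟩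
    · intro v hv
      obtain ⟨a1, a2⟩ := w11_abc hv
      obtain ⟨b1, b2⟩ := w11_abc (v := vA) (Or.inl rfl)
      have e1 : dt (r • v - σ • f0) (r • v - σ • f0) ≤ 1 := by
        rw [hdist v f0 σ a1 (w11_face_sq w11_f0), a2]
        rwa [hdist vA f0 σ b1 (w11_face_sq w11_f0), b2] at h2
      have e2 : ‖r • v - σ • f0‖ ≤ 1 := by
        rw [← norm_sq_eq_dt] at e1
        nlinarith [norm_nonneg (r • v - σ • f0)]
      have e3 : ‖z - σ • f0‖ ≤ 1 := by
        have := S.near
        rw [← norm_sq_eq_dt] at this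
        nlinarith [norm_nonneg (z - σ • f0)]
      have e4 : ‖r • v - z‖ ≤ 2 := by
        have : r • v - z = (r • v - σ • f0) - (z - σ • f0) := by abel
        rw [this]
        exact (norm_sub_le _ _).trans (by linarith)
      rw [← norm_sq_eq_dt]
      nlinarith [norm_nonneg (r • v - z)]
    · intro y hy hyy
      obtain ⟨g, hg', hg0, hg1⟩ := near_face y
      have hgg := w11_face_sq hg'
      have e1 : r * (ph + 1) ≤ dt y g := by
        apply w11_sqle ?_ hg0
        rw [hyy] at hg1
        have e2 : (r * (ph + 1)) ^ 2 = (3 * ph + 2) * r ^ 2 := by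
          linear_combination (r ^ 2) * hp
        rw [e2]
        have e3 : (ph + 2) * ((3 * ph + 2) * r ^ 2) ≤ (ph + 2) * dt y g ^ 2 := by
          calc (ph + 2) * ((3 * ph + 2) * r ^ 2) = (3 * ph + 2) * (r ^ 2 * (ph + 2)) := by ring
            _ ≤ _ := hg1
        exact le_of_mul_le_mul_left e3 hp2
      have e4 : dt (y - τ • g) (y - τ • g) < 1 := by
        have e5 : dt (y - τ • g) (y - τ • g) = r ^ 2 * (ph + 2) + 3 * τ ^ 2 - 2 * τ * dt y g := by
          rw [dt_sub_left, dt_sub_right, dt_sub_right]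
          simp only [dt_smul_left, dt_smul_right, hyy, hgg, dt_comm g y]
          ring
        obtain ⟨b1, b2⟩ := w11_abc (v := vA) (Or.inl rfl)
        rw [hdist vA f0 τ b1 (w11_face_sq w11_f0), b2] at h6
        rw [e5]
        have e7 : τ * (r * (ph + 1)) ≤ τ * dt y g := mul_le_mul_of_nonneg_left e1 h3
        nlinarith
      have hy0 : y ≠ 0 := by
        rintro rfl
        rw [dt_zero_left] at hyy
        have : 0 < r ^ 2 * (ph + 2) := by positivity
        linarith
      obtain ⟨v, hv, hc, -⟩ := S.good hy hy0 (by rw [hyy]; exact hrz) ⟨g, hg', τ, h3, h5, e4⟩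
      rcases w11_par hv hc hyy with h | h
      · exact ⟨v, hv, h⟩
      · exact ⟨-v, w11_neg hv, h⟩

end Pool.Agent.H304

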