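import Pool.Agent.helper304_full.Base
import Pool.Agent.helper304_full.R2
import Pool.Agent.helper304_full.R3
import Pool.Agent.helper304_full.R7
import Pool.Agent.helper304_full.R9
import Pool.Agent.helper304_full.W11
import Pool.Agent.helper304_full.W6

set_option autoImplicit false

namespace Pool.Agent.H304

/-- auxiliary -/
theorem w12_dt_sub_comm (a b : E) : dt (a - b) (a - b) = dt (b - a) (b - a) := by
  simp only [dt_sub_left, dt_sub_right]; ring

/-- auxiliary -/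
theorem w12_vA : IsVtx vA := ⟨1, 1, Or.inl rfl, Or.inl rfl, Or.inl (by rw [one_mul]; rfl)⟩

/-- auxiliary -/
theorem w12_vB : IsVtx vB := ⟨-1, 1, Or.inr rfl, Or.inl rfl, Or.inl (by rw [one_mul]; rfl)⟩

/-- auxiliary -/
theorem w12_dtA : dt vA vA = ph + 2 := by
  have := ph_sq
  simp [dt, vA]; nlinarith

/-- auxiliary -/
theorem w12_dtB : dt vB vB = ph + 2 := by
  have := ph_sq
  simp [dt, vB]; nlinarith

theorem Sel.orbit {X : Set E} {u : E → E} {c s : E → ℝ} {q : ℝ} (W : IW X u c s q) {z : E} {σ : ℝ}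
    (S : Sel X u z f0 σ) (hz : Cone z) : ∀ i < 60, act i z ∈ X := by
  obtain ⟨r, hS, -, -, h4, -⟩ := Sel.main_shell W S hz
  refine closure_lemma hS (x := z) (i := 0) (by norm_num) (by rw [act_zero]; exact S.mem) ?_ ?_
  · rw [w12_dt_sub_comm]
    exact h4 vA (Or.inl rfl)
  · rw [w12_dt_sub_comm]
    exact h4 vB (Or.inr (Or.inl rfl))

theorem Sel.off {X : Set E} {u : E → E} {c s : E → ℝ} {q : ℝ} (W : IW X u c s q) {z : E} {σ : ℝ}
    (S : Sel X u z f0 σ) (hz : Cone z) : cr (u z) z ≠ 0 := by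
  intro h0
  obtain ⟨r, hS, -, -, h4, hlast⟩ := Sel.main_shell W S hz
  obtain ⟨-, -, hn3, -⟩ := Sel.facts S hz
  have hn : ‖z‖ ≤ 10 := hn3.trans (by norm_num)
  have hu := W.unit z S.mem hn
  have hcs := W.cs z S.mem hn
  have hang := W.ang z S.mem hn
  obtain ⟨w, hw⟩ : ∃ w, w = u z := ⟨_, rfl⟩
  obtain ⟨C, hC⟩ : ∃ C, C = c z := ⟨_, rfl⟩
  obtain ⟨T, hT⟩ : ∃ T, T = s z := ⟨_, rfl⟩
  have hrot : ∀ v : E, (v = vA ∨ v = vB) → IsVtx v → dt v v = ph + 2 → IsVtx (rot w C T v) := by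
    intro v hv hvv hdt
    have hb : dt (r • v - z) (r • v - z) ≤ 4 := by
      rcases hv with h | h
      · exact h4 v (Or.inl h)
      · exact h4 v (Or.inr (Or.inl h))
    have hb2 : ‖r • v - z‖ ≤ 2 := by
      have h1 := norm_sq_eq_dt (r • v - z)
      have h2 := norm_nonneg (r • v - z)
      nlinarith
    have hm := (W.rot z S.mem hn (r • v - z) hb2 (by
      rw [add_sub_cancel]; exact hS.mem v hvv)).1
    rw [← hw, ← hC, ← hT] at hm
    have hzu : z = dt w z • w := by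
      have h1 := cr_cr w w z
      rw [← hw] at h0 hu
      rw [h0, cr_zero_right, hu, one_smul] at h1
      exact (sub_eq_zero.1 h1.symm).symm
    have hfix : rot w C T z = z := by
      rw [← hw] at hu
      obtain ⟨a, ha⟩ : ∃ a, a = dt w z := ⟨_, rfl⟩
      rw [← ha] at hzu
      rw [hzu, rot_smul, rot_axis hu]
    rw [rot_sub, hfix, rot_smul, add_sub_cancel] at hm
    rw [← hw] at hu
    rw [← hC, ← hT] at hcs
    obtain ⟨x, hx, hxe⟩ := hlast _ hm (by
      rw [dt_smul_left, dt_smul_right, dt_rot_rot hu hcs, hdt]; ring)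
    have h5 := smul_right_injective E hS.pos.ne' hxe
    rw [h5]
    exact hx
  have hA := hrot vA (Or.inl rfl) w12_vA w12_dtA
  have hB := hrot vB (Or.inr rfl) w12_vB w12_dtB
  rw [hw, hC, hT] at hA hB
  obtain ⟨v, hv, hvu⟩ := rot_sym hu hcs hang hA hB
  refine S.bad ⟨v, hv, ?_, hvu⟩
  have hzu : z = dt (u z) z • u z := by
    have h1 := cr_cr (u z) (u z) z
    rw [h0, cr_zero_right, hu, one_smul] at h1
    exact (sub_eq_zero.1 h1.symm).symm
  obtain ⟨a, ha⟩ : ∃ a, a = dt (u z) z := ⟨_, rfl⟩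
  rw [← ha] at hzu
  have h6 : cr v z = a • cr v (u z) := by
    conv_lhs => rw [hzu]
    exact cr_smul_right a (u z) v
  rw [h6, hvu, smul_zero]

end Pool.Agent.H304

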