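import Pool.Agent.helper304_full.Base
import Pool.Agent.helper304_full.R2
import Pool.Agent.helper304_full.W11
import Pool.Agent.helper304_full.W12
import Pool.Agent.helper304_full.W6
import Pool.Agent.helper304_full.W9

set_option autoImplicit false

namespace Pool.Agent.H304

lemma w14_sc (l : ℝ) (y : E) : l ^ 2 * dt y y = dt (l • y) (l • y) := by
  rw [dt_smul_left, dt_smul_right]; ring

lemma w14_rv (v : E) (σ l : ℝ) (w : E) : rv v σ (l • w) = l • rv v σ w := by
  apply ext3 <;> simp [rv, dt] <;> ring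

lemma w14_act (i : ℕ) (l : ℝ) (w : E) : act i (l • w) = l • act i w := by
  apply ext3 <;> simp [act] <;> ring

lemma w14_vA : IsVtx vA := ⟨1, 1, Or.inl rfl, Or.inl rfl, Or.inl (by simp [vA])⟩

theorem Sel.geo {X : Set E} {u : E → E} {c s : E → ℝ} {q : ℝ} (W : IW X u c s q) {z : E} {σ : ℝ}
    (S : Sel X u z f0 σ) (hz : Cone z) :
    ∃ (InX : E → Prop) (z' : E) (lam S' tt : ℝ), Geo InX z' (u z) (c z) (s z) lam S' tt := by
  obtain ⟨fa, fb, fc, fd⟩ := S.facts hz
  obtain ⟨r, hS, ht1, ht2, ht3, -⟩ := Sel.main_shell W S hz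
  have horb := Sel.orbit W S hz
  have hoff := Sel.off W S hz
  generalize hl : z 2 = l at fd
  have hl0 : l ≠ 0 := fd.ne'
  have hinv : 0 < l⁻¹ := inv_pos.mpr fd
  have hz10 : ‖z‖ ≤ 10 := by linarith
  have hzz : l • (l⁻¹ • z) = z := by rw [smul_smul, mul_inv_cancel₀ hl0, one_smul]
  have hsub : ∀ (y : E) (τ : ℝ) (f : E), l • (y - τ • f) = l • y - (l * τ) • f := by
    intro y τ f
    rw [smul_sub, smul_smul]
  have hsub' : ∀ (τ : ℝ) (f : E), l • (l⁻¹ • z - (τ / l) • f) = z - τ • f := by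
    intro τ f
    rw [hsub, hzz, mul_div_cancel₀ _ hl0]
  have hdz : dt (l⁻¹ • z) (l⁻¹ • z) = l⁻¹ ^ 2 * dt z z := (w14_sc _ _).symm
  have hle : ∀ a : ℝ, a < dt (l⁻¹ • z) (l⁻¹ • z) → l ^ 2 * a < dt z z := by
    intro a ha
    have h1 := mul_lt_mul_of_pos_left ha (pow_pos fd 2)
    rw [w14_sc, hzz] at h1
    exact h1
  have hdsq : l ^ 2 * dt (l⁻¹ • z) (l⁻¹ • z) = dt z z := by rw [w14_sc, hzz]
  refine ⟨fun y => l • y ∈ X, l⁻¹ • z, l, σ / l, r / l, ?_⟩
  constructor
  · simp [hl, hl0]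
  · obtain ⟨h1, h2, h3⟩ := hz
    refine ⟨?_, ?_, ?_⟩
    · simpa using mul_nonneg hinv.le h1
    · simpa using mul_nonneg hinv.le h2
    · have := mul_le_mul_of_nonneg_left h3 hinv.le
      simp only [PiLp.smul_apply, smul_eq_mul]
      linarith
  · exact W.unit z S.mem hz10
  · rw [cr_smul_right]
    exact smul_ne_zero hinv.ne' hoff
  · exact W.cs z S.mem hz10
  · exact fd
  · exact div_nonneg S.s0 fd.le
  · rw [dt_smul_left, ← div_eq_inv_mul, ← mul_div_assoc]
    exact div_le_div_of_nonneg_right fa fd.le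
  · rw [mul_div_cancel₀ _ hl0]
    exact S.s1
  · rw [w14_sc, hsub']
    exact S.near
  · rcases fb with h | h
    · left; rw [h, zero_div]
    · right; rw [w14_sc, hsub']; exact h
  · intro i hi
    rw [← w14_act, hzz]
    exact horb i hi
  · intro x hx hd
    have e1 : l • (x - l⁻¹ • z) = l • x - z := by rw [smul_sub, hzz]
    rw [w14_sc, e1] at hd
    have h1 : ‖l • x - z‖ ≤ 2 := by
      rw [← norm_sq_eq_dt] at hd
      have := norm_nonneg (l • x - z)
      nlinarith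
    have h2 := W.rot z S.mem hz10 (l • x - z) h1 (by rw [add_sub_cancel]; exact hx)
    have e2 : ∀ cc ss : ℝ, l • (l⁻¹ • z + rot (u z) cc ss (x - l⁻¹ • z)) =
        z + rot (u z) cc ss (l • x - z) := by
      intro cc ss
      rw [smul_add, hzz, ← rot_smul, e1]
    refine ⟨?_, ?_⟩
    · rw [e2]; exact h2.1
    · rw [e2]; exact h2.2
  · rintro y hy hyz ⟨f, hf, τ, h0, h1, h2⟩
    by_cases hy0 : y = 0
    · exact ⟨vA, w14_vA, by rw [hy0, cr_zero_right]⟩
    · obtain ⟨v, hv, h3, -⟩ := S.good hy (smul_ne_zero hl0 hy0)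
        (by rw [← w14_sc]; exact hle _ hyz)
        ⟨f, hf, l * τ, mul_nonneg fd.le h0, by
          rw [le_div_iff₀ fd] at h1
          linarith, by
          rw [w14_sc, hsub] at h2
          exact h2⟩
      refine ⟨v, hv, ?_⟩
      rw [cr_smul_right] at h3
      exact (smul_eq_zero.mp h3).resolve_left hl0
  · exact div_pos hS.pos fd
  · intro v hv
    rw [smul_smul, mul_div_cancel₀ _ hl0]
    exact hS.mem v hv
  · intro v hv
    rw [w14_sc, smul_sub, hzz, smul_smul, mul_div_cancel₀ _ hl0]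
    exact ht3 v hv
  · rw [hdz, div_pow, inv_pow]
    have h1 := mul_le_mul_of_nonneg_left ht1 (inv_nonneg.mpr (sq_nonneg l))
    calc r ^ 2 / l ^ 2 * (ph + 2) = (l ^ 2)⁻¹ * (r ^ 2 * (ph + 2)) := by rw [div_eq_inv_mul]; ring
      _ ≤ (l ^ 2)⁻¹ * (0.679 * dt z z) := h1
      _ = 0.679 * ((l ^ 2)⁻¹ * dt z z) := by ring
  · intro h4
    rw [hdsq] at h4
    rw [hdz, div_pow, inv_pow]
    have h1 := mul_le_mul_of_nonneg_left (ht2 h4) (inv_nonneg.mpr (sq_nonneg l))
    calc r ^ 2 / l ^ 2 * (ph + 2) = (l ^ 2)⁻¹ * (r ^ 2 * (ph + 2)) := by rw [div_eq_inv_mul]; ring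
      _ ≤ (l ^ 2)⁻¹ * (0.3963 * dt z z) := h1
      _ = 0.3963 * ((l ^ 2)⁻¹ * dt z z) := by ring
  · rintro r1 hr1 v0 hv0 hX hrz ⟨f, hf, τ, h0, h1, h2⟩ v hv
    change l • (r1 • v0) ∈ X at hX
    rw [smul_smul] at hX
    have hSh : Shell X (l * r1) := Sel.shell W S hz (mul_pos fd hr1) hv0 hX
      (by have := hle _ hrz; rw [mul_pow]; linarith)
      ⟨f, hf, l * τ, mul_nonneg fd.le h0, by
          rw [le_div_iff₀ fd] at h1
          linarith, by
          rw [w14_sc, hsub, smul_smul] at h2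
          exact h2⟩
    refine ⟨?_, ?_⟩
    · rw [smul_smul]
      exact hSh.mem v hv
    · intro x hx hd
      rw [w14_sc, hsub] at hd
      have h3 := hSh.cl v hv (l • x) hx hd
      rw [w14_rv, w14_rv] at h3
      exact h3

end Pool.Agent.H304

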