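import Pool.Agent.helper304_full.Base
import Pool.Agent.helper304_full.R1

set_option autoImplicit false

namespace Pool.Agent.H304

lemma w4_ph1 : (ph - 1) ^ 2 + ph ^ 2 = 3 := by
  have := ph_sq
  linear_combination 2 * this

lemma w4_face_sq {g : E} (hg : IsFace g) : dt g g = 3 := by
  have h1 := w4_ph1
  rcases hg with ⟨σ, τ, ρ, hσ, hτ, hρ, rfl⟩ | ⟨σ, τ, hσ, hτ, rfl | rfl | rfl⟩
  · have e1 : σ ^ 2 = 1 := by rcases hσ with rfl | rfl <;> norm_num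
    have e2 : τ ^ 2 = 1 := by rcases hτ with rfl | rfl <;> norm_num
    have e3 : ρ ^ 2 = 1 := by rcases hρ with rfl | rfl <;> norm_num
    simp only [dt, PiLp.toLp_apply, Matrix.cons_val_zero, Matrix.cons_val_one, Matrix.cons_val]
    linear_combination e1 + e2 + e3
  all_goals
    have e1 : σ ^ 2 = 1 := by rcases hσ with rfl | rfl <;> norm_num
    have e2 : τ ^ 2 = 1 := by rcases hτ with rfl | rfl <;> norm_num
    simp only [dt, PiLp.toLp_apply, Matrix.cons_val_zero, Matrix.cons_val_one, Matrix.cons_val]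
    linear_combination (ph - 1) ^ 2 * e1 + ph ^ 2 * e2 + h1

lemma w4_f0_face : IsFace f0 := Or.inr ⟨1, 1, Or.inl rfl, Or.inl rfl, Or.inl (by
  unfold f0
  rw [one_mul, one_mul])⟩

lemma w4_vtx_sq {v : E} (hv : IsVtx v) : dt v v = ph + 2 := by
  have h1 := ph_sq
  obtain ⟨σ, τ, hσ, hτ, rfl | rfl | rfl⟩ := hv
  all_goals
    have e1 : σ ^ 2 = 1 := by rcases hσ with rfl | rfl <;> norm_num
    have e2 : τ ^ 2 = 1 := by rcases hτ with rfl | rfl <;> norm_num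
    simp only [dt, PiLp.toLp_apply, Matrix.cons_val_zero, Matrix.cons_val_one, Matrix.cons_val]
    linear_combination e1 + ph ^ 2 * e2 + h1

lemma w4_vtx_f0 {v : E} (hv : IsVtx v) : dt v f0 ^ 2 ≤ 3 * ph + 2 := by
  have h1 := ph_sq
  have h2 := ph_gt
  have h3 := ph_lt
  obtain ⟨σ, τ, hσ, hτ, rfl | rfl | rfl⟩ := hv
  all_goals
    simp only [dt, f0, PiLp.toLp_apply, Matrix.cons_val_zero, Matrix.cons_val_one, Matrix.cons_val]
    rcases hσ with rfl | rfl <;> rcases hτ with rfl | rfl <;> nlinarith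

lemma w4_not_good {X : Set E} {u : E → E} (x : E)
    (hx : dt (x - (0.9515 : ℝ) • f0) (x - (0.9515 : ℝ) • f0) ≤ 1) : ¬ Good u x := by
  rintro ⟨v, hv, hc, -⟩
  have h1 := w4_vtx_sq hv
  have h2 := w4_vtx_f0 hv
  have h3 := w4_face_sq w4_f0_face
  have h4 := ph_lt
  have h5 := ph_gt
  set w : E := x - (0.9515 : ℝ) • f0 with hw
  have e1 : cr v w = -((0.9515 : ℝ) • cr v f0) := by
    rw [hw, cr_sub_right, cr_smul_right, hc, zero_sub]
  have e2 : dt (cr v w) (cr v w) = (0.9515 : ℝ) ^ 2 * dt (cr v f0) (cr v f0) := by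
    rw [e1, dt_neg_left, dt_neg_right, dt_smul_left, dt_smul_right]
    ring
  rw [dt_cr_cr, dt_cr_cr, dt_comm w v, dt_comm f0 v, h1, h3] at e2
  nlinarith [sq_nonneg (dt v w)]

lemma w4_faces_finite : {g : E | IsFace g}.Finite := by
  have hS : ({1, -1} : Set ℝ).Finite := Set.toFinite _
  have hF : ((({1, -1} : Set ℝ) ×ˢ (({1, -1} : Set ℝ) ×ˢ ({1, -1} : Set ℝ)))).Finite :=
    hS.prod (hS.prod hS)
  refine (((hF.image fun p : ℝ × ℝ × ℝ => (!₂[p.1, p.2.1, p.2.2] : E)).union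
    (hF.image fun p : ℝ × ℝ × ℝ => (!₂[p.1 * (ph - 1), 0, p.2.1 * ph] : E))).union
    ((hF.image fun p : ℝ × ℝ × ℝ => (!₂[p.2.1 * ph, p.1 * (ph - 1), 0] : E)).union
    (hF.image fun p : ℝ × ℝ × ℝ => (!₂[0, p.2.1 * ph, p.1 * (ph - 1)] : E)))).subset ?_
  rintro g (⟨σ, τ, ρ, hσ, hτ, hρ, rfl⟩ | ⟨σ, τ, hσ, hτ, rfl | rfl | rfl⟩)
  · exact Or.inl (Or.inl ⟨(σ, τ, ρ), ⟨hσ, hτ, hρ⟩, rfl⟩)
  · exact Or.inl (Or.inr ⟨(σ, τ, 1), ⟨hσ, hτ, Or.inl rfl⟩, rfl⟩)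
  · exact Or.inr (Or.inl ⟨(σ, τ, 1), ⟨hσ, hτ, Or.inl rfl⟩, rfl⟩)
  · exact Or.inr (Or.inr ⟨(σ, τ, 1), ⟨hσ, hτ, Or.inl rfl⟩, rfl⟩)

lemma w4_norm_le {x g : E} (hg : IsFace g) {τ : ℝ} (h0 : 0 ≤ τ) (h1 : τ ≤ 0.9515)
    (h : dt (x - τ • g) (x - τ • g) ≤ 1) : ‖x‖ ≤ 3 := by
  have e1 : ‖x - τ • g‖ ≤ 1 := by
    rw [← norm_sq_eq_dt] at h
    nlinarith [norm_nonneg (x - τ • g)]
  have e2 : ‖τ • g‖ ≤ 2 := by
    have h3 : ‖τ • g‖ ^ 2 = τ ^ 2 * 3 := by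
      rw [norm_sq_eq_dt, dt_smul_left, dt_smul_right, w4_face_sq hg]
      ring
    nlinarith [norm_nonneg (τ • g)]
  calc ‖x‖ = ‖(x - τ • g) + τ • g‖ := by rw [sub_add_cancel]
    _ ≤ ‖x - τ • g‖ + ‖τ • g‖ := norm_add_le _ _
    _ ≤ 3 := by linarith

lemma w4_continuous (x g : E) : Continuous fun τ : ℝ => dt (x - τ • g) (x - τ • g) := by
  have : (fun τ : ℝ => dt (x - τ • g) (x - τ • g)) = fun τ : ℝ => ‖x - τ • g‖ ^ 2 := by
    funext τ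
    rw [norm_sq_eq_dt]
  rw [this]
  fun_prop

theorem IW.select {X : Set E} {u : E → E} {c s : E → ℝ} {q : ℝ} (W : IW X u c s q) : ∃ z f σ, Sel X u z f σ := by
  classical
  by_cases hA : ∃ x ∈ X, x ≠ 0 ∧ ¬ Good u x ∧ dt x x ≤ 1
  · -- a bad point in the unit ball: take the shortest one
    have hfin : {x : E | x ∈ X ∧ x ≠ 0 ∧ ¬ Good u x ∧ dt x x ≤ 1}.Finite := by
      refine (W.fin 1).subset ?_
      rintro x ⟨hx, -, -, h1⟩
      refine ⟨hx, ?_⟩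
      change ‖x‖ ≤ 1
      rw [← norm_sq_eq_dt] at h1
      nlinarith [norm_nonneg x]
    obtain ⟨z, ⟨hz, hz0, hzb, hz1⟩, hmin⟩ := Set.exists_min_image _ (fun x : E => dt x x) hfin hA
    have e0 : ∀ (x g : E), x - (0 : ℝ) • g = x := fun x g => by rw [zero_smul, sub_zero]
    refine ⟨z, f0, 0, ⟨hz, hz0, hzb, w4_f0_face, le_refl _, by norm_num, by rw [e0]; exact hz1, ?_⟩⟩
    intro x hx hx0 hxb g hg τ h0 h1 hn
    refine ⟨h0, ?_⟩
    rintro rfl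
    rw [e0] at hn
    exact hmin x ⟨hx, hx0, hxb, hn⟩
  · -- otherwise minimise the level
    have hK : IsCompact (⋃ x ∈ {x : E | x ∈ X ∧ x ≠ 0 ∧ ¬ Good u x ∧ ‖x‖ ≤ 3},
        ⋃ g ∈ {g : E | IsFace g}, {τ : ℝ | τ ∈ Set.Icc (0 : ℝ) 0.9515 ∧
          dt (x - τ • g) (x - τ • g) ≤ 1}) := by
      refine Set.Finite.isCompact_biUnion ?_ fun x _ => w4_faces_finite.isCompact_biUnion
        fun g _ => ?_
      · refine (W.fin 3).subset ?_
        rintro x ⟨hx, -, -, h1⟩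
        exact ⟨hx, h1⟩
      · exact isCompact_Icc.inter_right (isClosed_le (w4_continuous x g) continuous_const)
    have hne : (⋃ x ∈ {x : E | x ∈ X ∧ x ≠ 0 ∧ ¬ Good u x ∧ ‖x‖ ≤ 3},
        ⋃ g ∈ {g : E | IsFace g}, {τ : ℝ | τ ∈ Set.Icc (0 : ℝ) 0.9515 ∧
          dt (x - τ • g) (x - τ • g) ≤ 1}).Nonempty := by
      obtain ⟨x, hx, hxn⟩ := W.cov ((0.9515 : ℝ) • f0)
      have h1 : dt (x - (0.9515 : ℝ) • f0) (x - (0.9515 : ℝ) • f0) ≤ 1 := by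
        rw [← norm_sq_eq_dt]
        nlinarith [norm_nonneg (x - (0.9515 : ℝ) • f0)]
      have hx0 : x ≠ 0 := by
        rintro rfl
        rw [zero_sub, dt_neg_left, dt_neg_right, dt_smul_left, dt_smul_right,
          w4_face_sq w4_f0_face] at h1
        norm_num at h1
      refine ⟨0.9515, ?_⟩
      simp only [Set.mem_iUnion]
      exact ⟨x, ⟨hx, hx0, w4_not_good (X := X) x h1,
        w4_norm_le w4_f0_face (by norm_num) le_rfl h1⟩, f0, w4_f0_face,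
        ⟨by norm_num, le_rfl⟩, h1⟩
    obtain ⟨σ, hσ, hleast⟩ := hK.exists_isLeast hne
    simp only [Set.mem_iUnion] at hσ
    obtain ⟨z, ⟨hz, hz0, hzb, -⟩, f, hf, ⟨h0, h1⟩, hn⟩ := hσ
    refine ⟨z, f, σ, ⟨hz, hz0, hzb, hf, h0, h1, hn, ?_⟩⟩
    intro x hx hx0 hxb g hg τ h0' h1' hn'
    refine ⟨?_, ?_⟩
    · apply hleast
      simp only [Set.mem_iUnion]
      exact ⟨x, ⟨hx, hx0, hxb, w4_norm_le hg h0' h1' hn'⟩, g, hg, ⟨h0', h1'⟩, hn'⟩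
    · rintro rfl
      exfalso
      apply hA
      refine ⟨x, hx, hx0, hxb, ?_⟩
      rw [zero_smul, sub_zero] at hn'
      exact hn'

end Pool.Agent.H304

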