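import Pool.Agent.helper304_full.Base
import Pool.Agent.helper304_full.R11
import Pool.Agent.helper304_full.R2
import Pool.Agent.helper304_full.R3
import Pool.Agent.helper304_full.R4
import Pool.Agent.helper304_full.R6
import Pool.Agent.helper304_full.W4

set_option autoImplicit false

namespace Pool.Agent.H304

theorem w5_act_smul (i : ℕ) (a : ℝ) (v : E) : act i (a • v) = a • act i v := by
  apply ext3 <;> simp [act] <;> ring

theorem w5_act_add (i : ℕ) (v w : E) : act i (v + w) = act i v + act i w := by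
  apply ext3 <;> simp [act] <;> ring

theorem w5_act_zero (i : ℕ) : act i 0 = 0 := by
  apply ext3 <;> simp [act]

theorem w5_face_neg {f : E} (hf : IsFace f) : IsFace (-f) := by
  have neg1 : ∀ σ : ℝ, (σ = 1 ∨ σ = -1) → (-σ = 1 ∨ -σ = -1) := by
    intro σ h
    rcases h with h | h
    · right; rw [h]
    · left; rw [h]; norm_num
  rcases hf with ⟨σ, τ, ρ, hσ, hτ, hρ, h⟩ | ⟨σ, τ, hσ, hτ, h⟩
  · left
    refine ⟨-σ, -τ, -ρ, neg1 σ hσ, neg1 τ hτ, neg1 ρ hρ, ?_⟩
    rw [h]
    apply ext3 <;> simp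
  · right
    refine ⟨-σ, -τ, neg1 σ hσ, neg1 τ hτ, ?_⟩
    rcases h with h | h | h
    · left
      rw [h]
      apply ext3 <;> simp
    · right; left
      rw [h]
      apply ext3 <;> simp
    · right; right
      rw [h]
      apply ext3 <;> simp

theorem w5_face_norm {f : E} (hf : IsFace f) : dt f f = 3 := by
  have sq1 : ∀ σ : ℝ, (σ = 1 ∨ σ = -1) → σ * σ = 1 := by
    intro σ h
    rcases h with h | h <;> rw [h] <;> norm_num
  have hph := ph_sq
  rcases hf with ⟨σ, τ, ρ, hσ, hτ, hρ, h⟩ | ⟨σ, τ, hσ, hτ, h⟩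
  · have h1 := sq1 σ hσ
    have h2 := sq1 τ hτ
    have h3 := sq1 ρ hρ
    rw [h]
    simp [dt]
    linarith
  · have h1 := sq1 σ hσ
    have h2 := sq1 τ hτ
    rcases h with h | h | h
    · rw [h]
      simp [dt]
      have e : σ * (ph - 1) * (σ * (ph - 1)) + τ * ph * (τ * ph)
          = (σ * σ) * (ph ^ 2 - 2 * ph + 1) + (τ * τ) * ph ^ 2 := by ring
      rw [e, h1, h2, hph]
      ring
    · rw [h]
      simp [dt]
      have e : τ * ph * (τ * ph) + σ * (ph - 1) * (σ * (ph - 1))
          = (σ * σ) * (ph ^ 2 - 2 * ph + 1) + (τ * τ) * ph ^ 2 := by ring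
      rw [e, h1, h2, hph]
      ring
    · rw [h]
      simp [dt]
      have e : τ * ph * (τ * ph) + σ * (ph - 1) * (σ * (ph - 1))
          = (σ * σ) * (ph ^ 2 - 2 * ph + 1) + (τ * τ) * ph ^ 2 := by ring
      rw [e, h1, h2, hph]
      ring

theorem w5_face_sign {f : E} (hf : IsFace f) {ε : ℝ} (hε : ε = 1 ∨ ε = -1) : IsFace (ε • f) := by
  rcases hε with h | h
  · rw [h, one_smul]; exact hf
  · rw [h, neg_one_smul]; exact w5_face_neg hf

theorem w5_f0_face : IsFace f0 := by
  right
  refine ⟨1, 1, Or.inl rfl, Or.inl rfl, Or.inl ?_⟩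
  simp [f0]

theorem w5_expand (z g : E) (σ : ℝ) :
    dt (z - σ • g) (z - σ • g) = dt z z - 2 * σ * dt z g + σ ^ 2 * dt g g := by
  simp [dt]; ring

theorem IW.select_cone {X : Set E} {u : E → E} {c s : E → ℝ} {q : ℝ} (W : IW X u c s q) :
    ∃ (X' : Set E) (u' : E → E) (c' s' : E → ℝ) (z : E) (σ : ℝ), IW X' u' c' s' q ∧ Sel X' u' z f0 σ ∧ Cone z := by
  obtain ⟨z, f, σ, hS⟩ := W.select
  obtain ⟨i, hi, ε, hε, hcone⟩ := to_cone z
  obtain ⟨j, hj, hji, hij⟩ := act_inv hi
  have hεε : ε * ε = 1 := by rcases hε with h | h <;> rw [h] <;> norm_num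
  have hε0 : ε ≠ 0 := by rcases hε with h | h <;> rw [h] <;> norm_num
  have W' := W.map (i := j) (j := i) hj hi hij hji hε
  refine ⟨_, _, _, _, ε • act i z, σ, W', ?_, hcone⟩
  -- the linear isometry
  have hLdt : ∀ x y : E, dt (ε • act j x) (ε • act j y) = dt x y := by
    intro x y
    rw [dt_smul_left, dt_smul_right, act_dt hj, ← mul_assoc, hεε, one_mul]
  have hLi : ∀ x : E, ε • act j (ε • act i x) = x := by
    intro x
    rw [w5_act_smul, smul_smul, hεε, one_smul, hji]
  have hLsub : ∀ (x g : E) (τ : ℝ),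
      ε • act j x - τ • (ε • act j g) = ε • act j (x - τ • g) := by
    intro x g τ
    apply ext3 <;> simp [act] <;> ring
  have hGood : ∀ x : E, Good (fun x => act i (u (ε • act j x))) x → Good u (ε • act j x) := by
    rintro x ⟨v, hv, h1, h2⟩
    refine ⟨act j v, act_vtx hj hv, ?_, ?_⟩
    · rw [cr_smul_right, act_cr hj, h1, w5_act_zero, smul_zero]
    · have h3 := act_cr hj v (act i (u (ε • act j x)))
      rw [hji] at h3
      rw [h3]
      have h4 : cr v (act i (u (ε • act j x))) = 0 := h2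
      rw [h4, w5_act_zero]
  have hGood' : ∀ x : E, Good u (ε • act j x) → Good (fun x => act i (u (ε • act j x))) x := by
    rintro x ⟨v, hv, h1, h2⟩
    refine ⟨act i v, act_vtx hi hv, ?_, ?_⟩
    · rw [cr_smul_right] at h1
      have h3 : cr v (act j x) = 0 := (smul_eq_zero.mp h1).resolve_left hε0
      have h4 := act_cr hi v (act j x)
      rw [hij, h3, w5_act_zero] at h4
      exact h4
    · show cr (act i v) (act i (u (ε • act j x))) = 0
      rw [act_cr hi, h2, w5_act_zero]
  have hz : ε • act j (ε • act i z) = z := hLi z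
  have hzz : dt (ε • act i z) (ε • act i z) = dt z z := by
    rw [← hLdt, hz]
  refine
    { mem := ?_
      ne := ?_
      bad := ?_
      face := w5_f0_face
      s0 := hS.s0
      s1 := hS.s1
      near := ?_
      min := ?_ }
  · show ε • act j (ε • act i z) ∈ X
    rw [hz]; exact hS.mem
  · intro h
    apply hS.ne
    rw [← hz, h, w5_act_zero, smul_zero]
  · intro h
    have h1 := hGood _ h
    rw [hz] at h1
    exact hS.bad h1
  · have hf' : IsFace (ε • act i f) := w5_face_sign (act_face hi hS.face) hε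
    have h1 := cone_face hcone hf'
    have h2 : dt (ε • act i z - σ • (ε • act i f)) (ε • act i z - σ • (ε • act i f)) ≤ 1 := by
      rw [← hLdt, ← hLsub, hLi, hLi]
      exact hS.near
    rw [w5_expand, w5_face_norm hf'] at h2
    rw [w5_expand, w5_face_norm w5_f0_face]
    have h3 : σ * dt (ε • act i z) (ε • act i f) ≤ σ * dt (ε • act i z) f0 :=
      mul_le_mul_of_nonneg_left h1 hS.s0
    linarith
  · intro x hx hx0 hbad g hg τ hτ0 hτ1 hd
    have hx' : ε • act j x ∈ X := hx
    have hx0' : ε • act j x ≠ 0 := by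
      intro h
      apply hx0
      apply dt_self_eq_zero
      rw [← hLdt, h, dt_zero_left]
    have hbad' : ¬ Good u (ε • act j x) := fun h => hbad (hGood' x h)
    have hg' : IsFace (ε • act j g) := w5_face_sign (act_face hj hg) hε
    have hd' : dt (ε • act j x - τ • (ε • act j g)) (ε • act j x - τ • (ε • act j g)) ≤ 1 := by
      rw [hLsub, hLdt]; exact hd
    have h := hS.min _ hx' hx0' hbad' _ hg' τ hτ0 hτ1 hd'
    rw [hLdt] at h
    rw [hzz]
    exact h

end Pool.Agent.H304

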