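import Pool.Agent.helper304_full.W5
import Pool.Agent.helper304_full.W14
import Pool.Agent.helper304_full.Geo5
import Pool.Agent.helper304_full.Geo7

set_option autoImplicit false

namespace Pool.Agent.H304

/-- there is no icosahedral world -/
theorem IW.false {X : Set E} {u : E → E} {c s : E → ℝ} {q : ℝ} (W : IW X u c s q) : False := by
  obtain ⟨X', u', c', s', z, σ, W', S, hz⟩ := W.select_cone
  obtain ⟨InX, z', lam, S', tt, G⟩ := S.geo W' hz
  have hn := (S.facts hz).2.2.1
  rcases W'.ang z S.mem (by linarith) with ⟨h1, h2⟩ | ⟨h1, h2⟩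
  · rw [h1, h2] at G
    exact geo5 G
  · exact geo7 G h1 h2

end Pool.Agent.H304
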